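import Mathlib

/-!
# Job CIRC: two facts of calculus on the circle

`circ_change`: for a continuous `2π`-periodic `g` and a `C^1` `2π`-periodic `a`,
`∫_0^{2π} g (b + a b) (1 + a' b) db = ∫_0^{2π} g`: substitution
(`intervalIntegral.integral_comp_mul_deriv`) and periodicity
(`Function.Periodic.intervalIntegral_add_eq`).

`circle_identity`: with `a = T'`, put
`I θ = ∫ exp (T + Θ/2 s² θ² a²) ρ (b + s θ a) (1 + s θ a') db`.  Then `I 0 = ∫ exp T ρ` and, writing
`ρ_θ b = ρ (b + s θ a b)`, whose derivative in `b` is `ρ' (b + s θ a) (1 + s θ a')`,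
`dI/dθ = ∫ exp(..) (Θ s² θ a² ρ_θ (1 + s θ a') + s (a ρ_θ)')`
and integration by parts of the last term, using
`(exp(..))' = exp(..) (a + Θ s² θ² a a')`, gives
`dI/dθ = ∫ exp(..) ρ_θ a² (Θ s² θ (1 + s θ a') - s - Θ s³ θ² a') = - ∫ s (1 - Θ s θ) a² exp(..) ρ_θ`.
Integrate over `θ ∈ [0,1]`.  (The differentiation under the integral sign: all functions are
continuous in `(θ, b)` and continuously differentiable in `θ`.)
-/

namespace Pool.Agent.H35.CA

open MeasureTheory Set

theorem circ_change (g a : ℝ → ℝ) (hg : Continuous g) (ha : ContDiff ℝ 1 a)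
    (pg : ∀ b, g (b + 2 * Real.pi) = g b) (pa : ∀ b, a (b + 2 * Real.pi) = a b) :
    ∫ b in (0 : ℝ)..(2 * Real.pi), g (b + a b) * (1 + deriv a b)
      = ∫ b in (0 : ℝ)..(2 * Real.pi), g b := by
  have hd : ∀ x, HasDerivAt (fun b => b + a b) (1 + deriv a x) x := fun x =>
    (hasDerivAt_id x).add ((ha.differentiable (by norm_num)) x).hasDerivAt
  have hc : Continuous (fun b => 1 + deriv a b) :=
    continuous_const.add (ha.continuous_deriv le_rfl)
  have h1 := intervalIntegral.integral_comp_mul_deriv (a := 0) (b := 2 * Real.pi)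
    (f := fun b => b + a b) (f' := fun b => 1 + deriv a b) (g := g)
    (fun x _ => hd x) hc.continuousOn hg
  have h2 : a (2 * Real.pi) = a 0 := by simpa using pa 0
  have h3 : Function.Periodic g (2 * Real.pi) := pg
  have h4 := h3.intervalIntegral_add_eq (a 0) 0
  have e1 : ∫ b in (0 : ℝ)..(2 * Real.pi), g (b + a b) * (1 + deriv a b)
      = ∫ x in (0 + a 0)..(2 * Real.pi + a (2 * Real.pi)), g x := h1
  rw [e1, h2, zero_add, add_comm (2 * Real.pi) (a 0), h4, zero_add]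

/-- The integrand whose derivative in `θ` is taken. -/
noncomputable def circF (T ρ : ℝ → ℝ) (s Θ θ b : ℝ) : ℝ :=
  Real.exp (T b + Θ / 2 * s ^ 2 * θ ^ 2 * (deriv T b) ^ 2) *
    ρ (b + s * θ * deriv T b) * (1 + s * θ * deriv (deriv T) b)

/-- The derivative of `circF` in `θ`. -/
noncomputable def circD (T ρ : ℝ → ℝ) (s Θ θ b : ℝ) : ℝ :=
  (Real.exp (T b + Θ / 2 * s ^ 2 * θ ^ 2 * (deriv T b) ^ 2) *
      (Θ / 2 * s ^ 2 * (2 * θ) * (deriv T b) ^ 2) * ρ (b + s * θ * deriv T b) +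
    Real.exp (T b + Θ / 2 * s ^ 2 * θ ^ 2 * (deriv T b) ^ 2) *
      (deriv ρ (b + s * θ * deriv T b) * (s * deriv T b))) * (1 + s * θ * deriv (deriv T) b) +
    Real.exp (T b + Θ / 2 * s ^ 2 * θ ^ 2 * (deriv T b) ^ 2) *
      ρ (b + s * θ * deriv T b) * (s * deriv (deriv T) b)

/-- The function of `b` whose derivative integrates to zero. -/
noncomputable def circG (T ρ : ℝ → ℝ) (s Θ θ b : ℝ) : ℝ :=
  s * (Real.exp (T b + Θ / 2 * s ^ 2 * θ ^ 2 * (deriv T b) ^ 2) * deriv T b *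
    ρ (b + s * θ * deriv T b))

/-- The derivative of `circG` in `b`. -/
noncomputable def circG' (T ρ : ℝ → ℝ) (s Θ θ b : ℝ) : ℝ :=
  s * ((Real.exp (T b + Θ / 2 * s ^ 2 * θ ^ 2 * (deriv T b) ^ 2) *
      (deriv T b + Θ / 2 * s ^ 2 * θ ^ 2 * (2 * deriv T b * deriv (deriv T) b)) * deriv T b +
      Real.exp (T b + Θ / 2 * s ^ 2 * θ ^ 2 * (deriv T b) ^ 2) * deriv (deriv T) b) *
    ρ (b + s * θ * deriv T b) +
    Real.exp (T b + Θ / 2 * s ^ 2 * θ ^ 2 * (deriv T b) ^ 2) * deriv T b *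
      (deriv ρ (b + s * θ * deriv T b) * (1 + s * θ * deriv (deriv T) b)))

theorem circF_hasDerivAt (T ρ : ℝ → ℝ) (hρ : ContDiff ℝ 1 ρ) (s Θ θ b : ℝ) :
    HasDerivAt (fun t => circF T ρ s Θ t b) (circD T ρ s Θ θ b) θ := by
  have h1 : HasDerivAt (fun t : ℝ => T b + Θ / 2 * s ^ 2 * t ^ 2 * (deriv T b) ^ 2)
      (Θ / 2 * s ^ 2 * (2 * θ) * (deriv T b) ^ 2) θ := by
    have := (((hasDerivAt_pow 2 θ).const_mul (Θ / 2 * s ^ 2)).mul_const ((deriv T b) ^ 2)).const_add
      (T b)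
    simpa using this
  have h2 : HasDerivAt (fun t : ℝ => b + s * t * deriv T b) (s * deriv T b) θ := by
    have := (((hasDerivAt_id θ).const_mul s).mul_const (deriv T b)).const_add b
    simpa using this
  have h3 : HasDerivAt ρ (deriv ρ (b + s * θ * deriv T b)) (b + s * θ * deriv T b) :=
    ((hρ.differentiable (by norm_num)) _).hasDerivAt
  have h4 : HasDerivAt (fun t : ℝ => ρ (b + s * t * deriv T b))
      (deriv ρ (b + s * θ * deriv T b) * (s * deriv T b)) θ := h3.comp θ h2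
  have h5 : HasDerivAt (fun t : ℝ => 1 + s * t * deriv (deriv T) b) (s * deriv (deriv T) b) θ := by
    have := (((hasDerivAt_id θ).const_mul s).mul_const (deriv (deriv T) b)).const_add 1
    simpa using this
  exact (h1.exp.mul h4).mul h5

theorem circG_hasDerivAt (T ρ : ℝ → ℝ) (hT : ContDiff ℝ 2 T) (hρ : ContDiff ℝ 1 ρ)
    (s Θ θ b : ℝ) :
    HasDerivAt (fun x => circG T ρ s Θ θ x) (circG' T ρ s Θ θ b) b := by
  have hT1 : HasDerivAt T (deriv T b) b := ((hT.differentiable (by norm_num)) b).hasDerivAt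
  have hT' : ContDiff ℝ 1 (deriv T) := by
    have : ContDiff ℝ (1 + 1) T := by simpa [one_add_one_eq_two] using hT
    exact (contDiff_succ_iff_deriv.1 this).2.2
  have hT2 : HasDerivAt (deriv T) (deriv (deriv T) b) b :=
    ((hT'.differentiable (by norm_num)) b).hasDerivAt
  have h1 : HasDerivAt (fun x : ℝ => T x + Θ / 2 * s ^ 2 * θ ^ 2 * (deriv T x) ^ 2)
      (deriv T b + Θ / 2 * s ^ 2 * θ ^ 2 * (2 * deriv T b * deriv (deriv T) b)) b := by
    have := hT1.add ((hT2.pow 2).const_mul (Θ / 2 * s ^ 2 * θ ^ 2))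
    refine this.congr_deriv ?_
    simp
  have h2 : HasDerivAt (fun x : ℝ => x + s * θ * deriv T x) (1 + s * θ * deriv (deriv T) b) b :=
    (hasDerivAt_id b).add (hT2.const_mul (s * θ))
  have h3 : HasDerivAt ρ (deriv ρ (b + s * θ * deriv T b)) (b + s * θ * deriv T b) :=
    ((hρ.differentiable (by norm_num)) _).hasDerivAt
  have h4 : HasDerivAt (fun x : ℝ => ρ (x + s * θ * deriv T x))
      (deriv ρ (b + s * θ * deriv T b) * (1 + s * θ * deriv (deriv T) b)) b := h3.comp b h2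
  exact ((h1.exp.mul hT2).mul h4).const_mul s

theorem circ_alg (T ρ : ℝ → ℝ) (s Θ θ b : ℝ) :
    circD T ρ s Θ θ b = circG' T ρ s Θ θ b -
      s * (1 - Θ * s * θ) * (deriv T b) ^ 2 *
        Real.exp (T b + Θ / 2 * s ^ 2 * θ ^ 2 * (deriv T b) ^ 2) * ρ (b + s * θ * deriv T b) := by
  unfold circD circG'
  ring

theorem circle_identity (T ρ : ℝ → ℝ) (hT : ContDiff ℝ 2 T) (hρ : ContDiff ℝ 1 ρ)
    (pT : ∀ b, T (b + 2 * Real.pi) = T b) (pρ : ∀ b, ρ (b + 2 * Real.pi) = ρ b) (s Θ : ℝ) :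
    ∫ b in (0 : ℝ)..(2 * Real.pi), Real.exp (T b + Θ / 2 * s ^ 2 * (deriv T b) ^ 2) *
        ρ (b + s * deriv T b) * (1 + s * deriv (deriv T) b)
      = (∫ b in (0 : ℝ)..(2 * Real.pi), Real.exp (T b) * ρ b) -
        ∫ θ in (0 : ℝ)..1, ∫ b in (0 : ℝ)..(2 * Real.pi), s * (1 - Θ * s * θ) * (deriv T b) ^ 2 *
          Real.exp (T b + Θ / 2 * s ^ 2 * θ ^ 2 * (deriv T b) ^ 2) *
          ρ (b + s * θ * deriv T b) := by
  have hT' : ContDiff ℝ 1 (deriv T) := by
    have : ContDiff ℝ (1 + 1) T := by simpa [one_add_one_eq_two] using hT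
    exact (contDiff_succ_iff_deriv.1 this).2.2
  have cT : Continuous T := hT.continuous
  have cT1 : Continuous (deriv T) := hT'.continuous
  have cT2 : Continuous (deriv (deriv T)) := hT'.continuous_deriv le_rfl
  have cρ : Continuous ρ := hρ.continuous
  have cρ1 : Continuous (deriv ρ) := hρ.continuous_deriv le_rfl
  -- joint continuity
  have cD : Continuous (Function.uncurry (circD T ρ s Θ)) := by
    unfold Function.uncurry circD
    fun_prop
  have cG : Continuous (Function.uncurry (circG' T ρ s Θ)) := by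
    unfold Function.uncurry circG'
    fun_prop
  have cF : Continuous (Function.uncurry (circF T ρ s Θ)) := by
    unfold Function.uncurry circF
    fun_prop
  have cH : ∀ θ : ℝ, Continuous (fun b => s * (1 - Θ * s * θ) * (deriv T b) ^ 2 *
          Real.exp (T b + Θ / 2 * s ^ 2 * θ ^ 2 * (deriv T b) ^ 2) *
          ρ (b + s * θ * deriv T b)) := by
    intro θ
    fun_prop
  have cDb : ∀ b : ℝ, Continuous (fun θ => circD T ρ s Θ θ b) := fun b =>
    cD.comp (by fun_prop : Continuous fun θ : ℝ => (θ, b))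
  have cDθ : ∀ θ : ℝ, Continuous (fun b => circD T ρ s Θ θ b) := fun θ =>
    cD.comp (by fun_prop : Continuous fun b : ℝ => (θ, b))
  have cGθ : ∀ θ : ℝ, Continuous (fun b => circG' T ρ s Θ θ b) := fun θ =>
    cG.comp (by fun_prop : Continuous fun b : ℝ => (θ, b))
  have cFθ : ∀ θ : ℝ, Continuous (fun b => circF T ρ s Θ θ b) := fun θ =>
    cF.comp (by fun_prop : Continuous fun b : ℝ => (θ, b))
  -- derivative of `T` is periodic
  have pT1 : ∀ b, deriv T (b + 2 * Real.pi) = deriv T b := by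
    intro b
    have h1 : (fun x => T (x + 2 * Real.pi)) = T := funext pT
    have h2 := deriv_comp_add_const (f := T) (2 * Real.pi) b
    rw [← h2, h1]
  -- step 1: fundamental theorem in `θ`
  have s1 : ∀ b, ∫ θ in (0 : ℝ)..1, circD T ρ s Θ θ b = circF T ρ s Θ 1 b - circF T ρ s Θ 0 b :=
    fun b => intervalIntegral.integral_eq_sub_of_hasDerivAt
      (fun θ _ => circF_hasDerivAt T ρ hρ s Θ θ b) ((cDb b).intervalIntegrable _ _)
  -- step 2: fundamental theorem in `b`
  have s2 : ∀ θ, ∫ b in (0 : ℝ)..(2 * Real.pi), circG' T ρ s Θ θ b = 0 := by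
    intro θ
    have h1 := intervalIntegral.integral_eq_sub_of_hasDerivAt (a := 0) (b := 2 * Real.pi)
      (fun b _ => circG_hasDerivAt T ρ hT hρ s Θ θ b) ((cGθ θ).intervalIntegrable _ _)
    rw [h1, sub_eq_zero]
    have e1 : T (2 * Real.pi) = T 0 := by simpa using pT 0
    have e2 : deriv T (2 * Real.pi) = deriv T 0 := by simpa using pT1 0
    have e3 : ρ (2 * Real.pi + s * θ * deriv T 0) = ρ (0 + s * θ * deriv T 0) := by
      rw [zero_add, add_comm]
      exact pρ _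
    unfold circG
    rw [e1, e2, e3]
  -- step 3: Fubini
  have s3 : ∫ θ in (0 : ℝ)..1, ∫ b in (0 : ℝ)..(2 * Real.pi), circD T ρ s Θ θ b
      = ∫ b in (0 : ℝ)..(2 * Real.pi), ∫ θ in (0 : ℝ)..1, circD T ρ s Θ θ b := by
    apply intervalIntegral_intervalIntegral_swap
    refine IntegrableOn.mono_set (t := Set.Icc (0 : ℝ) 1 ×ˢ Set.Icc (0 : ℝ) (2 * Real.pi)) ?_ ?_
    · exact cD.continuousOn.integrableOn_compact (isCompact_Icc.prod isCompact_Icc)
    · rw [uIoc_of_le zero_le_one, uIoc_of_le (by positivity)]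
      exact Set.prod_mono Ioc_subset_Icc_self Ioc_subset_Icc_self
  -- step 4: the inner integrals of `circD`
  have s4 : ∀ θ, ∫ b in (0 : ℝ)..(2 * Real.pi), circD T ρ s Θ θ b =
      - ∫ b in (0 : ℝ)..(2 * Real.pi), s * (1 - Θ * s * θ) * (deriv T b) ^ 2 *
          Real.exp (T b + Θ / 2 * s ^ 2 * θ ^ 2 * (deriv T b) ^ 2) *
          ρ (b + s * θ * deriv T b) := by
    intro θ
    have h1 : (fun b => circD T ρ s Θ θ b) = fun b => circG' T ρ s Θ θ b -
      s * (1 - Θ * s * θ) * (deriv T b) ^ 2 *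
        Real.exp (T b + Θ / 2 * s ^ 2 * θ ^ 2 * (deriv T b) ^ 2) *
          ρ (b + s * θ * deriv T b) := funext fun b => circ_alg T ρ s Θ θ b
    rw [h1, intervalIntegral.integral_sub ((cGθ θ).intervalIntegrable _ _)
      ((cH θ).intervalIntegrable _ _), s2 θ, zero_sub]
  have s5 : ∫ b in (0 : ℝ)..(2 * Real.pi), ∫ θ in (0 : ℝ)..1, circD T ρ s Θ θ b
      = (∫ b in (0 : ℝ)..(2 * Real.pi), circF T ρ s Θ 1 b) -
        ∫ b in (0 : ℝ)..(2 * Real.pi), circF T ρ s Θ 0 b := by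
    rw [← intervalIntegral.integral_sub ((cFθ 1).intervalIntegrable _ _)
      ((cFθ 0).intervalIntegrable _ _)]
    exact intervalIntegral.integral_congr fun b _ => s1 b
  have s6 : ∫ θ in (0 : ℝ)..1, ∫ b in (0 : ℝ)..(2 * Real.pi), circD T ρ s Θ θ b
      = - ∫ θ in (0 : ℝ)..1, ∫ b in (0 : ℝ)..(2 * Real.pi), s * (1 - Θ * s * θ) *
          (deriv T b) ^ 2 * Real.exp (T b + Θ / 2 * s ^ 2 * θ ^ 2 * (deriv T b) ^ 2) *
          ρ (b + s * θ * deriv T b) := by
    rw [← intervalIntegral.integral_neg]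
    exact intervalIntegral.integral_congr fun θ _ => s4 θ
  have f1 : ∀ b, circF T ρ s Θ 1 b = Real.exp (T b + Θ / 2 * s ^ 2 * (deriv T b) ^ 2) *
        ρ (b + s * deriv T b) * (1 + s * deriv (deriv T) b) := by
    intro b
    simp [circF]
  have f0 : ∀ b, circF T ρ s Θ 0 b = Real.exp (T b) * ρ b := by
    intro b
    simp [circF]
  simp only [f1, f0] at s5
  linarith [s3, s5, s6]

/-- The inequality that is used: if `Θ s ≤ 1/2`, `s ≥ 0` and `exp (T b) ρ c ≥ 1/2`. -/
theorem circle_ineq (T ρ : ℝ → ℝ) (hT : ContDiff ℝ 2 T) (hρ : ContDiff ℝ 1 ρ)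
    (pT : ∀ b, T (b + 2 * Real.pi) = T b) (pρ : ∀ b, ρ (b + 2 * Real.pi) = ρ b) {s Θ : ℝ}
    (hs : 0 ≤ s) (hΘ : 0 ≤ Θ) (hsΘ : Θ * s ≤ 1 / 2)
    (hlow : ∀ b c, 1 / 2 ≤ Real.exp (T b) * ρ c) :
    ∫ b in (0 : ℝ)..(2 * Real.pi), Real.exp (T b + Θ / 2 * s ^ 2 * (deriv T b) ^ 2) *
        ρ (b + s * deriv T b) * (1 + s * deriv (deriv T) b)
      ≤ (∫ b in (0 : ℝ)..(2 * Real.pi), Real.exp (T b) * ρ b) -
        s / 4 * ∫ b in (0 : ℝ)..(2 * Real.pi), (deriv T b) ^ 2 := by
  have hT' : ContDiff ℝ 1 (deriv T) := by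
    have : ContDiff ℝ (1 + 1) T := by simpa [one_add_one_eq_two] using hT
    exact (contDiff_succ_iff_deriv.1 this).2.2
  have cT : Continuous T := hT.continuous
  have cT1 : Continuous (deriv T) := hT'.continuous
  have cρ : Continuous ρ := hρ.continuous
  rw [circle_identity T ρ hT hρ pT pρ s Θ]
  have cH : Continuous (Function.uncurry (fun θ b : ℝ => s * (1 - Θ * s * θ) *
          (deriv T b) ^ 2 * Real.exp (T b + Θ / 2 * s ^ 2 * θ ^ 2 * (deriv T b) ^ 2) *
          ρ (b + s * θ * deriv T b))) := by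
    unfold Function.uncurry
    fun_prop
  have key : s / 4 * ∫ b in (0 : ℝ)..(2 * Real.pi), (deriv T b) ^ 2 ≤
      ∫ θ in (0 : ℝ)..1, ∫ b in (0 : ℝ)..(2 * Real.pi), s * (1 - Θ * s * θ) * (deriv T b) ^ 2 *
          Real.exp (T b + Θ / 2 * s ^ 2 * θ ^ 2 * (deriv T b) ^ 2) *
          ρ (b + s * θ * deriv T b) := by
    have h0 : s / 4 * ∫ b in (0 : ℝ)..(2 * Real.pi), (deriv T b) ^ 2 =
        ∫ _θ in (0 : ℝ)..1, ∫ b in (0 : ℝ)..(2 * Real.pi), s / 4 * (deriv T b) ^ 2 := by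
      rw [intervalIntegral.integral_const, intervalIntegral.integral_const_mul]
      simp
    rw [h0]
    refine intervalIntegral.integral_mono_on zero_le_one ?_ ?_ ?_
    · exact intervalIntegrable_const
    · refine Continuous.intervalIntegrable ?_ _ _
      exact intervalIntegral.continuous_parametric_intervalIntegral_of_continuous' cH 0 _
    · intro θ hθ
      refine intervalIntegral.integral_mono_on (by positivity) ?_ ?_ ?_
      · exact Continuous.intervalIntegrable (by fun_prop) _ _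
      · exact Continuous.intervalIntegrable (by fun_prop) _ _
      · intro b _
        have h1 : 1 / 2 ≤ 1 - Θ * s * θ := by
          have : Θ * s * θ ≤ Θ * s * 1 :=
            mul_le_mul_of_nonneg_left hθ.2 (mul_nonneg hΘ hs)
          linarith
        have h2 := hlow b (b + s * θ * deriv T b)
        have h3 : 0 < ρ (b + s * θ * deriv T b) := by
          by_contra hcon
          have : Real.exp (T b) * ρ (b + s * θ * deriv T b) ≤ 0 :=
            mul_nonpos_of_nonneg_of_nonpos (Real.exp_pos _).le (not_lt.1 hcon)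
          linarith
        have h4 : Real.exp (T b) ≤
            Real.exp (T b + Θ / 2 * s ^ 2 * θ ^ 2 * (deriv T b) ^ 2) := by
          apply Real.exp_le_exp.2
          have : 0 ≤ Θ / 2 * s ^ 2 * θ ^ 2 * (deriv T b) ^ 2 := by positivity
          linarith
        have h5 : 1 / 2 ≤ Real.exp (T b + Θ / 2 * s ^ 2 * θ ^ 2 * (deriv T b) ^ 2) *
            ρ (b + s * θ * deriv T b) :=
          h2.trans (mul_le_mul_of_nonneg_right h4 h3.le)
        have h6 : 1 / 4 ≤ (1 - Θ * s * θ) *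
            (Real.exp (T b + Θ / 2 * s ^ 2 * θ ^ 2 * (deriv T b) ^ 2) *
            ρ (b + s * θ * deriv T b)) := by
          nlinarith
        have h7 : 0 ≤ s * (deriv T b) ^ 2 := by positivity
        calc s / 4 * (deriv T b) ^ 2 = s * (deriv T b) ^ 2 * (1 / 4) := by ring
          _ ≤ s * (deriv T b) ^ 2 * ((1 - Θ * s * θ) *
            (Real.exp (T b + Θ / 2 * s ^ 2 * θ ^ 2 * (deriv T b) ^ 2) *
            ρ (b + s * θ * deriv T b))) := mul_le_mul_of_nonneg_left h6 h7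
          _ = _ := by ring
  linarith

end Pool.Agent.H35.CA
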