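import Pool.Agent.H35.CA.SphB

/-!
# Job CONC: concentration

Proof hints.  `BtE` is linear with inverse `Bt w t⁻¹`.
`conc`: `χ` is the sum of two smooth bump functions at `w` and `-w`, equal to 1 there, supported
in small disjoint closed balls contained in `U` and not containing 0 (`ContDiffBump`).  For
`⟨w,x⟩ ≠ 0`, `un (Bt w t x) → ± w` as `t → ∞`, so the integrand tends to
`|a + a (ψ x - 1) - a ψ x| = 0`; it is bounded on the unit sphere uniformly in `t`
(`f` and `ψ` are bounded there and `f (Bt w t x) = f (un (Bt w t x))`); the hyperplane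
`⟨w,x⟩ = 0` is null (`mu_null_of_cone`); dominated convergence.
-/

namespace Pool.Agent.H35.CA

open MeasureTheory Metric Set

variable {n : ℕ}

theorem concInner {w : E n} (hw : ‖w‖ = 1) (t : ℝ) (x : E n) :
    inner ℝ w (Bt w t x) = t * inner ℝ w x := by
  unfold Bt
  rw [inner_add_right, real_inner_smul_right, real_inner_self_eq_norm_sq, hw]
  ring

theorem concInv {w : E n} (hw : ‖w‖ = 1) {t : ℝ} (ht : t ≠ 0) (x : E n) :
    Bt w t⁻¹ (Bt w t x) = x := by
  have h : Bt w t⁻¹ (Bt w t x) = Bt w t x + ((t⁻¹ - 1) * inner ℝ w (Bt w t x)) • w := rfl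
  rw [h, concInner hw]
  unfold Bt
  rw [add_assoc, ← add_smul]
  have h2 : (t - 1) * inner ℝ w x + (t⁻¹ - 1) * (t * inner ℝ w x) = 0 := by
    field_simp
    ring
  rw [h2, zero_smul, add_zero]

/-- `Bt` as a continuous linear equivalence. -/
theorem BtE {w : E n} (hw : ‖w‖ = 1) {t : ℝ} (ht : 0 < t) :
    ∃ B : E n ≃L[ℝ] E n, (∀ x, B x = Bt w t x) ∧ (∀ x, B.symm x = Bt w t⁻¹ x) := by
  let L : E n ≃ₗ[ℝ] E n :=
    { toFun := Bt w t
      invFun := Bt w t⁻¹
      left_inv := fun x => concInv hw ht.ne' x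
      right_inv := fun x => by
        have h := concInv hw (inv_ne_zero ht.ne') x
        rwa [inv_inv] at h
      map_add' := fun x y => by
        unfold Bt
        rw [inner_add_right, mul_add, add_smul]
        abel
      map_smul' := fun c x => by
        unfold Bt
        rw [real_inner_smul_right, RingHom.id_apply, smul_add, smul_smul]
        congr 2
        ring }
  exact ⟨L.toContinuousLinearEquiv, fun x => rfl, fun x => rfl⟩

theorem Bt_norm {w : E n} (hw : ‖w‖ = 1) {t : ℝ} (ht : 1 ≤ t) (x : E n) :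
    ‖x‖ ≤ ‖Bt w t x‖ := by
  have h1 : ‖Bt w t x‖ ^ 2 = ‖x‖ ^ 2 + (t ^ 2 - 1) * (inner ℝ w x) ^ 2 := by
    unfold Bt
    rw [norm_add_sq_real, norm_smul, hw, mul_one, Real.norm_eq_abs, sq_abs,
      real_inner_smul_right, real_inner_comm]
    ring
  have h2 : 0 ≤ (t ^ 2 - 1) * (inner ℝ w x) ^ 2 := by
    refine mul_nonneg ?_ (sq_nonneg _)
    nlinarith
  have h3 : ‖x‖ ^ 2 ≤ ‖Bt w t x‖ ^ 2 := by linarith
  exact (pow_le_pow_iff_left₀ (norm_nonneg _) (norm_nonneg _) two_ne_zero).1 h3

theorem concBtCont (w : E n) (t : ℝ) : Continuous (Bt w t) := by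
  unfold Bt
  fun_prop

theorem concUnHom {t : ℝ} (ht : 0 < t) (x : E n) : un (t • x) = un x := by
  unfold un
  rw [norm_smul, Real.norm_eq_abs, abs_of_pos ht, mul_inv, smul_smul]
  congr 1
  field_simp

theorem concUnCont {x : E n} (hx : x ≠ 0) : ContinuousAt (un : E n → E n) x := by
  unfold un
  exact (continuousAt_id.norm.inv₀ (norm_ne_zero_iff.mpr hx)).smul continuousAt_id

theorem concUnSmul {w : E n} (hw : ‖w‖ = 1) {c : ℝ} (hc : c ≠ 0) :
    un (c • w) = w ∨ un (c • w) = -w := by
  rcases lt_or_gt_of_ne hc with h | h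
  · right
    have h1 : c • w = (-c) • (-w) := by rw [smul_neg, neg_smul, neg_neg]
    rw [h1, concUnHom (by linarith)]
    unfold un
    rw [norm_neg, hw, inv_one, one_smul]
  · left
    rw [concUnHom h]
    unfold un
    rw [hw, inv_one, one_smul]

/-- The bump function. -/
theorem concBump {w : E n} (hw : ‖w‖ = 1) {U : Set (E n)} (hU : IsOpen U) (hw1 : w ∈ U)
    (hw2 : -w ∈ U) :
    ∃ χ : E n → ℝ, ContDiff ℝ (⊤ : ℕ∞) χ ∧ (∀ x, 0 ≤ χ x ∧ χ x ≤ 1) ∧ tsupport χ ⊆ U ∧
      (0 : E n) ∉ tsupport χ ∧ χ w = 1 ∧ χ (-w) = 1 := by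
  obtain ⟨r1, hr1, h1⟩ := Metric.isOpen_iff.1 hU w hw1
  obtain ⟨r2, hr2, h2⟩ := Metric.isOpen_iff.1 hU (-w) hw2
  set r := min (min r1 r2 / 2) (1 / 2) with hr
  have hr0 : 0 < r := by
    rw [hr]
    positivity
  have hrr1 : r < r1 := by
    have : r ≤ min r1 r2 / 2 := min_le_left _ _
    have : min r1 r2 ≤ r1 := min_le_left _ _
    linarith
  have hrr2 : r < r2 := by
    have : r ≤ min r1 r2 / 2 := min_le_left _ _
    have : min r1 r2 ≤ r2 := min_le_right _ _
    linarith
  have hrh : r ≤ 1 / 2 := min_le_right _ _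
  let b1 : ContDiffBump w := ⟨r / 2, r, by positivity, by linarith⟩
  let b2 : ContDiffBump (-w) := ⟨r / 2, r, by positivity, by linarith⟩
  have hs1 : tsupport (b1 : E n → ℝ) = closedBall w r := b1.tsupport_eq
  have hs2 : tsupport (b2 : E n → ℝ) = closedBall (-w) r := b2.tsupport_eq
  have hd : dist w (-w) = 2 := by
    rw [dist_eq_norm, sub_neg_eq_add, ← two_smul ℝ w, norm_smul, hw]
    norm_num
  have hsub : tsupport (fun x => b1 x + b2 x) ⊆ closedBall w r ∪ closedBall (-w) r := by
    rw [← hs1, ← hs2]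
    exact tsupport_add _ _
  have hsep : ∀ x, b1 x = 0 ∨ b2 x = 0 := by
    intro x
    by_cases hx : r ≤ dist x w
    · left
      exact b1.zero_of_le_dist hx
    · right
      refine b2.zero_of_le_dist ?_
      change r ≤ dist x (-w)
      have h3 := dist_triangle_left w (-w) x
      rw [hd] at h3
      push Not at hx
      linarith
  refine ⟨fun x => b1 x + b2 x, b1.contDiff.add b2.contDiff, ?_, ?_, ?_, ?_, ?_⟩
  · intro x
    have p1 := b1.nonneg' x
    have p2 := b2.nonneg' x
    have q1 : b1 x ≤ 1 := b1.le_one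
    have q2 : b2 x ≤ 1 := b2.le_one
    rcases hsep x with h | h
    · change 0 ≤ b1 x + b2 x ∧ b1 x + b2 x ≤ 1
      rw [h]
      constructor <;> linarith
    · change 0 ≤ b1 x + b2 x ∧ b1 x + b2 x ≤ 1
      rw [h]
      constructor <;> linarith
  · refine hsub.trans (union_subset ?_ ?_)
    · exact (closedBall_subset_ball hrr1).trans h1
    · exact (closedBall_subset_ball hrr2).trans h2
  · intro h0
    rcases hsub h0 with h | h
    · rw [mem_closedBall, dist_zero_left, hw] at h
      linarith
    · rw [mem_closedBall, dist_zero_left, norm_neg, hw] at h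
      linarith
  · change b1 w + b2 w = 1
    have e1 : b1 w = 1 := b1.one_of_mem_closedBall (by
      rw [mem_closedBall, dist_self]
      exact b1.rIn_pos.le)
    have e2 : b2 w = 0 := by
      refine b2.zero_of_le_dist ?_
      change r ≤ dist w (-w)
      rw [hd]
      linarith
    rw [e1, e2, add_zero]
  · change b1 (-w) + b2 (-w) = 1
    have e1 : b2 (-w) = 1 := b2.one_of_mem_closedBall (by
      rw [mem_closedBall, dist_self]
      exact b2.rIn_pos.le)
    have e2 : b1 (-w) = 0 := by
      refine b1.zero_of_le_dist ?_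
      change r ≤ dist (-w) w
      rw [dist_comm, hd]
      linarith
    rw [e1, e2, zero_add]

theorem concNull (hn : 1 ≤ n) {w : E n} (hw : ‖w‖ = 1) :
    ∀ᵐ x ∂(mu n), inner ℝ w x ≠ 0 := by
  refine mu_null_of_cone hn (fun x => inner ℝ w x ≠ 0) ?_ ?_ ?_
  · exact (isOpen_ne_fun (by fun_prop) continuous_const).measurableSet
  · intro t ht x hx h
    apply hx
    change inner ℝ w (t • x) = 0
    rw [real_inner_smul_right, h, mul_zero]
  · have h1 := Measure.addHaar_submodule (volume : Measure (E n)) (ℝ ∙ w)ᗮ (by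
      intro h
      have h2 : w ∈ (ℝ ∙ w)ᗮ := by
        rw [h]
        exact Submodule.mem_top
      rw [Submodule.mem_orthogonal_singleton_iff_inner_right, real_inner_self_eq_norm_sq, hw] at h2
      norm_num at h2)
    rw [ae_iff]
    refine measure_mono_null ?_ h1
    intro x hx
    change ¬ (inner ℝ w x ≠ 0) at hx
    rw [ne_eq, not_not] at hx
    exact (Submodule.mem_orthogonal_singleton_iff_inner_right).2 hx

theorem conc (hn : 1 ≤ n) {f : E n → ℝ} (hf : H0 f) {w : E n} (hw : ‖w‖ = 1) {a : ℝ}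
    (h1 : f w = a) (h2 : f (-w) = a) {U : Set (E n)} (hU : IsOpen U) (hw1 : w ∈ U)
    (hw2 : -w ∈ U) :
    ∃ χ : E n → ℝ, ContDiff ℝ (⊤ : ℕ∞) χ ∧ (∀ x, 0 ≤ χ x ∧ χ x ≤ 1) ∧ tsupport χ ⊆ U ∧
      (0 : E n) ∉ tsupport χ ∧ ∀ ψ : E n → ℝ, H0 ψ → ∀ η > 0, ∃ t0 : ℝ, ∀ t : ℝ, t0 ≤ t →
        1 ≤ t → ∫ x, |f (Bt w t x) + a * χ (un (Bt w t x)) * (ψ x - 1) - a * ψ x| ∂(mu n)
          ≤ η := by
  obtain ⟨χ, hχ, hb, hs, h0, e1, e2⟩ := concBump hw hU hw1 hw2
  refine ⟨χ, hχ, hb, hs, h0, ?_⟩
  intro ψ hψ η hη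
  have := mu_prob hn
  obtain ⟨Cf, hCf⟩ := sphA_bdd hn hf
  obtain ⟨Cp, hCp⟩ := sphA_bdd hn hψ
  have hne : ∀ {t : ℝ}, 1 ≤ t → ∀ {x : E n}, ‖x‖ = 1 → Bt w t x ≠ 0 := by
    intro t ht x hx h
    have h3 := Bt_norm hw ht x
    rw [h, norm_zero, hx] at h3
    linarith
  have hwne : w ≠ 0 := by
    intro h
    rw [h, norm_zero] at hw
    exact zero_ne_one hw
  have key : Filter.Tendsto
      (fun t : ℝ => ∫ x, |f (Bt w t x) + a * χ (un (Bt w t x)) * (ψ x - 1) - a * ψ x| ∂(mu n))
      Filter.atTop (nhds (∫ _x, (0 : ℝ) ∂(mu n))) := by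
    refine tendsto_integral_filter_of_dominated_convergence
      (fun _ => Cf + |a| * (Cp + 1) + |a| * Cp) ?_ ?_ (integrable_const _) ?_
    · filter_upwards [Filter.eventually_ge_atTop (1 : ℝ)] with t ht
      refine (integrable_mu hn ?_).aestronglyMeasurable
      have hB : ContinuousOn (Bt w t) (sphere (0 : E n) 1) := (concBtCont w t).continuousOn
      have hmap : MapsTo (Bt w t) (sphere (0 : E n) 1) {0}ᶜ := by
        intro x hx
        exact hne ht (mem_sphere_zero_iff_norm.1 hx)
      have hc1 : ContinuousOn (fun x => f (Bt w t x)) (sphere (0 : E n) 1) :=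
        hf.cont.comp hB hmap
      have hun : ContinuousOn (un : E n → E n) {0}ᶜ := fun x hx =>
        (concUnCont hx).continuousWithinAt
      have hc2 : ContinuousOn (fun x => χ (un (Bt w t x))) (sphere (0 : E n) 1) :=
        hχ.continuous.comp_continuousOn (hun.comp hB hmap)
      have hc3 : ContinuousOn ψ (sphere (0 : E n) 1) := hψ.cont.mono (by
        intro x hx h
        rw [mem_singleton_iff] at h
        rw [h] at hx
        simp at hx)
      exact ((hc1.add ((continuousOn_const.mul hc2).mul (hc3.sub continuousOn_const))).sub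
        (continuousOn_const.mul hc3)).abs
    · filter_upwards [Filter.eventually_ge_atTop (1 : ℝ)] with t ht
      filter_upwards [mu_ae hn] with x hx
      have hx0 : x ≠ 0 := by
        intro h
        rw [h, norm_zero] at hx
        exact zero_ne_one hx
      have i1 := hCf _ (hne ht hx)
      have i2 := hCp _ hx0
      have i3 := hb (un (Bt w t x))
      rw [Real.norm_eq_abs, abs_abs]
      have j1 : |a * χ (un (Bt w t x)) * (ψ x - 1)| ≤ |a| * (Cp + 1) := by
        rw [abs_mul, abs_mul, abs_of_nonneg i3.1]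
        have k1 : |ψ x - 1| ≤ Cp + 1 := by
          refine (abs_sub _ _).trans ?_
          rw [abs_one]
          linarith
        have k2 : |a| * χ (un (Bt w t x)) ≤ |a| := by
          have := mul_le_mul_of_nonneg_left i3.2 (abs_nonneg a)
          rwa [mul_one] at this
        exact mul_le_mul k2 k1 (abs_nonneg _) (abs_nonneg _)
      have j2 : |a * ψ x| ≤ |a| * Cp := by
        rw [abs_mul]
        exact mul_le_mul_of_nonneg_left i2 (abs_nonneg _)
      refine (abs_sub _ _).trans ?_
      refine add_le_add ((abs_add_le _ _).trans (add_le_add i1 j1)) j2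
    · filter_upwards [mu_ae hn, concNull hn hw] with x hx hxw
      set g : E n → ℝ := fun y => |f y + a * χ (un y) * (ψ x - 1) - a * ψ x| with hg
      have hghom : ∀ c : ℝ, 0 < c → ∀ y, g (c • y) = g y := by
        intro c hc y
        rw [hg]
        change |f (c • y) + a * χ (un (c • y)) * (ψ x - 1) - a * ψ x| = _
        rw [hf.hom c hc, concUnHom hc]
      have hz : (inner ℝ w x) • w ≠ 0 := smul_ne_zero hxw hwne
      have hgc : ContinuousAt g ((inner ℝ w x) • w) := by
        have c1 : ContinuousAt f ((inner ℝ w x) • w) :=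
          hf.cont.continuousAt (isOpen_compl_singleton.mem_nhds hz)
        have c2 : ContinuousAt (fun y => χ (un y)) ((inner ℝ w x) • w) :=
          hχ.continuous.continuousAt.comp (concUnCont hz)
        exact ((c1.add ((continuousAt_const.mul c2).mul continuousAt_const)).sub
          continuousAt_const).abs
      have hgv : g ((inner ℝ w x) • w) = 0 := by
        have hu : f ((inner ℝ w x) • w) = a := by
          have h4 : f ((inner ℝ w x) • w) = f (un ((inner ℝ w x) • w)) := by
            unfold un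
            rw [hf.hom _ (inv_pos.mpr (norm_pos_iff.mpr hz))]
          rw [h4]
          rcases concUnSmul hw hxw with h | h
          · rw [h, h1]
          · rw [h, h2]
        have hv : χ (un ((inner ℝ w x) • w)) = 1 := by
          rcases concUnSmul hw hxw with h | h
          · rw [h, e1]
          · rw [h, e2]
        rw [hg]
        change |f ((inner ℝ w x) • w) + a * χ (un ((inner ℝ w x) • w)) * (ψ x - 1) - a * ψ x| = 0
        rw [hu, hv]
        have : a + a * 1 * (ψ x - 1) - a * ψ x = 0 := by ring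
        rw [this, abs_zero]
      have hlim : Filter.Tendsto (fun t : ℝ => t⁻¹ • Bt w t x) Filter.atTop
          (nhds ((inner ℝ w x) • w)) := by
        have hinv : Filter.Tendsto (fun t : ℝ => t⁻¹) Filter.atTop (nhds 0) :=
          tendsto_inv_atTop_zero
        have hcomb : Filter.Tendsto
            (fun t : ℝ => t⁻¹ • x + ((1 - t⁻¹) * inner ℝ w x) • w) Filter.atTop
            (nhds ((0 : ℝ) • x + ((1 - 0) * inner ℝ w x) • w)) :=
          (hinv.smul_const x).add
            (((tendsto_const_nhds.sub hinv).mul_const (inner ℝ w x)).smul_const w)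
        rw [zero_smul, zero_add, sub_zero, one_mul] at hcomb
        refine hcomb.congr' ?_
        filter_upwards [Filter.eventually_gt_atTop (0 : ℝ)] with t ht
        unfold Bt
        rw [smul_add, smul_smul]
        congr 2
        field_simp
      have hcomp : Filter.Tendsto (fun t : ℝ => g (t⁻¹ • Bt w t x)) Filter.atTop
          (nhds (g ((inner ℝ w x) • w))) := hgc.tendsto.comp hlim
      rw [hgv] at hcomp
      refine hcomp.congr' ?_
      filter_upwards [Filter.eventually_gt_atTop (0 : ℝ)] with t ht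
      exact hghom _ (inv_pos.mpr ht) _
  rw [integral_zero] at key
  have h5 := key.eventually (ge_mem_nhds hη)
  obtain ⟨t0, ht0⟩ := Filter.eventually_atTop.1 h5
  exact ⟨t0, fun t ht _ => ht0 t ht⟩

end Pool.Agent.H35.CA
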