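import Pool.Agent.H35.CA.SphB

/-!
# Job COV: change of variables for homogeneous maps of degree 1

Proof hints.  `T x = x + Z x`.  (1) `fderiv Z` is homogeneous of degree 0, so
`‖fderiv Z x‖ ≤ 1/2` for all `x ≠ 0`, and `Z` is `1/2`-Lipschitz (mean value inequality on
segments; a segment through 0 is split at 0, `Z` being continuous at 0).
(2) `T` is injective, and surjective by the contraction principle (`y - Z x`).  `T 0 = 0`.
(3) `‖T x‖ ≥ ‖x‖/2`, so `g ∘ T` is `P1`.
(4) `det (1 + t fderiv Z x) ≠ 0` for `t ∈ [0,1]`, and it is `1` at `t = 0`, so it is positive.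
(5) `T` maps `{g (T x) ≤ 1} \ {0}` bijectively to `{g ≤ 1} \ {0}`; the change of variables
formula (`lintegral_abs_det_fderiv_eq_addHaar_image` or
`integral_image_eq_integral_abs_det_fderiv_smul`) gives
`volume {g ≤ 1} = ∫_{g ∘ T ≤ 1} det (1 + fderiv Z)`.
(6) Apply `vol_sub` to `g` and `polar` to `F = det (1 + fderiv Z)` and `g ∘ T`.
-/

namespace Pool.Agent.H35.CA

open MeasureTheory Metric Set

variable {n : ℕ}

/-- The hypotheses on the displacement `Z`. -/
structure Disp (Z : E n → E n) : Prop where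
  hom : ∀ t : ℝ, 0 ≤ t → ∀ x, Z (t • x) = t • Z x
  smooth : ContDiffOn ℝ 1 Z {0}ᶜ
  bd : ∀ x, ‖x‖ = 1 → ‖fderiv ℝ Z x‖ ≤ 1 / 2

theorem covA_zero {Z : E n → E n} (hZ : Disp Z) : Z 0 = 0 := by
  have h := hZ.hom 0 le_rfl 0
  rwa [zero_smul, zero_smul] at h

theorem covA_diff {Z : E n → E n} (hZ : Disp Z) {x : E n} (hx : x ≠ 0) :
    DifferentiableAt ℝ Z x := by
  have h1 : ({0}ᶜ : Set (E n)) ∈ nhds x := isOpen_compl_singleton.mem_nhds hx
  exact (hZ.smooth.contDiffAt h1).differentiableAt one_ne_zero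

theorem covA_hom {Z : E n → E n} (hZ : Disp Z) {t : ℝ} (ht : 0 < t) {x : E n} (hx : x ≠ 0) :
    fderiv ℝ Z (t • x) = fderiv ℝ Z x := by
  have htx : t • x ≠ 0 := smul_ne_zero ht.ne' hx
  have h1 : HasFDerivAt (fun y : E n => Z (t • y))
      ((fderiv ℝ Z (t • x)).comp (t • ContinuousLinearMap.id ℝ (E n))) x := by
    have h2 : HasFDerivAt (fun y : E n => t • y) (t • ContinuousLinearMap.id ℝ (E n)) x :=
      (hasFDerivAt_id x).const_smul t
    exact (covA_diff hZ htx).hasFDerivAt.comp x h2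
  have h3 : HasFDerivAt (fun y : E n => Z (t • y)) (t • fderiv ℝ Z x) x := by
    have h4 : (fun y : E n => Z (t • y)) = fun y => t • Z y := by
      funext y
      exact hZ.hom t ht.le y
    rw [h4]
    exact (covA_diff hZ hx).hasFDerivAt.const_smul t
  have h5 := h1.unique h3
  ext1 v
  have h6 := congrArg (fun L : E n →L[ℝ] E n => L v) h5
  simp only [ContinuousLinearMap.comp_apply, smul_apply,
    ContinuousLinearMap.id_apply, map_smul] at h6
  exact smul_right_injective (E n) ht.ne' h6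

theorem covA_bd {Z : E n → E n} (hZ : Disp Z) {x : E n} (hx : x ≠ 0) :
    ‖fderiv ℝ Z x‖ ≤ 1 / 2 := by
  have h1 : ‖x‖⁻¹ • x ≠ 0 := smul_ne_zero (inv_ne_zero (norm_ne_zero_iff.mpr hx)) hx
  have h2 := covA_hom hZ (norm_pos_iff.mpr hx) h1
  rw [smul_smul, mul_inv_cancel₀ (norm_ne_zero_iff.mpr hx), one_smul] at h2
  rw [h2]
  refine hZ.bd _ ?_
  rw [norm_smul, norm_inv, norm_norm, inv_mul_cancel₀ (norm_ne_zero_iff.mpr hx)]

theorem covA_lip {Z : E n → E n} (hZ : Disp Z) {x y : E n} (h0 : (0 : E n) ∉ segment ℝ x y) :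
    ‖Z x - Z y‖ ≤ 1 / 2 * ‖x - y‖ := by
  refine Convex.norm_image_sub_le_of_norm_fderiv_le (𝕜 := ℝ) (f := Z) (s := segment ℝ x y)
    (fun z hz => covA_diff hZ ?_) (fun z hz => covA_bd hZ ?_) (convex_segment x y)
    (right_mem_segment ℝ x y) (left_mem_segment ℝ x y)
  · rintro rfl
    exact h0 hz
  · rintro rfl
    exact h0 hz

theorem covA_norm {Z : E n → E n} (hZ : Disp Z) (x : E n) : ‖Z x‖ ≤ 1 / 2 * ‖x‖ := by
  by_cases hx : x = 0
  · rw [hx, covA_zero hZ, norm_zero, mul_zero]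
  · have h1 : (0 : E n) ∉ segment ℝ x ((1 / 2 : ℝ) • x) := by
      rintro ⟨a, b, ha, hb, hab, h⟩
      rw [smul_smul, ← add_smul, smul_eq_zero] at h
      rcases h with h | h
      · linarith
      · exact hx h
    have h2 := covA_lip hZ h1
    rw [hZ.hom (1 / 2) (by norm_num)] at h2
    have h3 : Z x - (1 / 2 : ℝ) • Z x = (1 / 2 : ℝ) • Z x := by
      rw [sub_eq_iff_eq_add, ← add_smul]
      norm_num
    have h4 : x - (1 / 2 : ℝ) • x = (1 / 2 : ℝ) • x := by
      rw [sub_eq_iff_eq_add, ← add_smul]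
      norm_num
    rw [h3, h4, norm_smul, norm_smul, Real.norm_of_nonneg (by norm_num : (0 : ℝ) ≤ 1 / 2)] at h2
    linarith

theorem Disp.lip {Z : E n → E n} (hZ : Disp Z) (x y : E n) :
    ‖Z x - Z y‖ ≤ 1 / 2 * ‖x - y‖ := by
  by_cases h0 : (0 : E n) ∈ segment ℝ x y
  · have h1 := dist_add_dist_of_mem_segment h0
    rw [dist_zero_right, dist_zero_left, dist_eq_norm] at h1
    have h2 := covA_norm hZ x
    have h3 := covA_norm hZ y
    have h4 := norm_sub_le (Z x) (Z y)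
    linarith
  · exact covA_lip hZ h0

theorem covA_cont {Z : E n → E n} (hZ : Disp Z) : Continuous Z := by
  have h : LipschitzWith (1 / 2) Z := by
    refine LipschitzWith.of_dist_le_mul fun x y => ?_
    rw [dist_eq_norm, dist_eq_norm]
    refine (hZ.lip x y).trans (le_of_eq ?_)
    norm_num
  exact h.continuous

theorem covA_det_ne {A : E n →L[ℝ] E n} (hA : ‖A‖ ≤ 1 / 2) : (1 + A).det ≠ 0 := by
  intro h
  have h1 : LinearMap.det ((1 + A : E n →L[ℝ] E n) : E n →ₗ[ℝ] E n) = 0 := h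
  have h2 := LinearMap.bot_lt_ker_of_det_eq_zero h1
  obtain ⟨v, hv, hv0⟩ := SetLike.exists_of_lt h2
  rw [LinearMap.mem_ker] at hv
  have h3 : v + A v = 0 := hv
  have hv1 : v ≠ 0 := fun h => hv0 (by rw [h]; exact Submodule.zero_mem _)
  have h4 : ‖A v‖ = ‖v‖ := by
    rw [← norm_neg, ← eq_neg_of_add_eq_zero_left h3]
  have h5 := A.le_opNorm v
  have h6 : 0 < ‖v‖ := norm_pos_iff.mpr hv1
  have h7 : ‖A‖ * ‖v‖ ≤ 1 / 2 * ‖v‖ := mul_le_mul_of_nonneg_right hA h6.le
  linarith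

theorem Disp.det_pos {Z : E n → E n} (hZ : Disp Z) {x : E n} (hx : x ≠ 0) :
    0 < (1 + fderiv ℝ Z x).det := by
  set A := fderiv ℝ Z x with hAd
  have hA : ‖A‖ ≤ 1 / 2 := covA_bd hZ hx
  have hne : ∀ t ∈ Icc (0 : ℝ) 1, (1 + t • A).det ≠ 0 := by
    intro t ht
    refine covA_det_ne ?_
    rw [norm_smul, Real.norm_of_nonneg ht.1]
    calc t * ‖A‖ ≤ 1 * ‖A‖ := mul_le_mul_of_nonneg_right ht.2 (norm_nonneg _)
      _ ≤ 1 / 2 := by rwa [one_mul]
  have hc : Continuous fun t : ℝ => (1 + t • A).det :=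
    ContinuousLinearMap.continuous_det.comp
      (continuous_const.add (continuous_id.smul continuous_const))
  have h00 : (1 : E n →L[ℝ] E n) + (0 : ℝ) • A = 1 := by
    ext1 v
    change v + (0 : ℝ) • A v = v
    rw [zero_smul, add_zero]
  have h0 : (1 + (0 : ℝ) • A).det = 1 := by
    rw [h00]
    exact LinearMap.det_id
  have h1 : (1 + (1 : ℝ) • A).det = (1 + A).det := by rw [one_smul]
  rw [← h1]
  by_contra hneg
  rw [not_lt] at hneg
  have h2 : (0 : ℝ) ∈ Icc ((1 + (1 : ℝ) • A).det) ((1 + (0 : ℝ) • A).det) :=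
    ⟨hneg, by rw [h0]; exact zero_le_one⟩
  obtain ⟨t, ht, h3⟩ := intermediate_value_Icc' (zero_le_one (α := ℝ)) hc.continuousOn h2
  exact hne t ht h3

theorem Disp.bij {Z : E n → E n} (hZ : Disp Z) : Function.Bijective (fun x => x + Z x) := by
  constructor
  · intro x y h
    have h1 : x + Z x = y + Z y := h
    have h2 : x - y = -(Z x - Z y) := by
      rw [neg_sub, sub_eq_sub_iff_add_eq_add, h1, add_comm]
    have h3 := hZ.lip x y
    have h4 : ‖x - y‖ = ‖Z x - Z y‖ := by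
      rw [h2, norm_neg]
    have h5 : ‖x - y‖ ≤ 0 := by linarith
    exact sub_eq_zero.mp (norm_le_zero_iff.mp h5)
  · intro y
    have hc : ContractingWith (1 / 2) fun x => y - Z x := by
      refine ⟨?_, LipschitzWith.of_dist_le_mul fun u v => ?_⟩
      · rw [← NNReal.coe_lt_coe]
        norm_num
      · rw [dist_eq_norm, dist_eq_norm, sub_sub_sub_cancel_left, ← norm_neg, neg_sub]
        refine (hZ.lip u v).trans (le_of_eq ?_)
        norm_num
    refine ⟨hc.fixedPoint, ?_⟩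
    have h1 : y - Z hc.fixedPoint = hc.fixedPoint := hc.fixedPoint_isFixedPt
    change hc.fixedPoint + Z hc.fixedPoint = y
    rw [← eq_sub_iff_add_eq]
    exact h1.symm

theorem cov (hn : 1 ≤ n) {Z : E n → E n} (hZ : Disp Z) {g : E n → ℝ} (hg : P1 g) :
    ∫ x, (g x ^ n)⁻¹ ∂(mu n)
      = ∫ x, (1 + fderiv ℝ Z x).det * (g (x + Z x) ^ n)⁻¹ ∂(mu n) := by
  have hT0 : (0 : E n) + Z 0 = 0 := by rw [covA_zero hZ, add_zero]
  have hF : H0 (fun x : E n => (1 + fderiv ℝ Z x).det) := by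
    refine ⟨fun t ht x => ?_, ?_⟩
    · by_cases hx : x = 0
      · rw [hx, smul_zero]
      · rw [covA_hom hZ ht hx]
    · have h1 : ContinuousOn (fderiv ℝ Z) ({0}ᶜ : Set (E n)) :=
        hZ.smooth.continuousOn_fderiv_of_isOpen isOpen_compl_singleton le_rfl
      exact ContinuousLinearMap.continuous_det.comp_continuousOn (continuousOn_const.add h1)
  have hg' : P1 (fun x => g (x + Z x)) := by
    refine ⟨fun t ht x => ?_, hg.cont.comp (continuous_id.add (covA_cont hZ)), fun x hx => ?_⟩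
    · rw [hZ.hom t ht, ← smul_add, hg.hom t ht]
    · refine hg.pos _ fun h => hx ?_
      exact hZ.bij.1 (h.trans hT0.symm)
  have hpol := (polar hn hF hg').2
  have hvol := (vol_sub hn hg).2
  have : Nonempty (Fin n) := ⟨⟨0, hn⟩⟩
  have hS : MeasurableSet ({x | g (x + Z x) ≤ 1} \ {0} : Set (E n)) :=
    (sphA_meas hg').diff (measurableSet_singleton 0)
  have hcov := integral_image_eq_integral_abs_det_fderiv_smul (volume : Measure (E n)) hS
    (f := fun x => x + Z x) (f' := fun x => 1 + fderiv ℝ Z x) (fun x hx =>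
      ((hasFDerivAt_id x).add (covA_diff hZ hx.2).hasFDerivAt).hasFDerivWithinAt)
    (hZ.bij.1.injOn) (fun _ => (1 : ℝ))
  have him : (fun x => x + Z x) '' ({x | g (x + Z x) ≤ 1} \ {0} : Set (E n)) =
      {x | g x ≤ 1} \ {0} := by
    ext y
    constructor
    · rintro ⟨x, ⟨hx1, hx2⟩, rfl⟩
      refine ⟨hx1, fun h => hx2 ?_⟩
      exact hZ.bij.1 (Eq.trans (mem_singleton_iff.mp h) hT0.symm)
    · rintro ⟨hy1, hy2⟩
      obtain ⟨x, rfl⟩ := hZ.bij.2 y
      refine ⟨x, ⟨hy1, fun h => hy2 ?_⟩, rfl⟩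
      rw [mem_singleton_iff] at h ⊢
      change x + Z x = 0
      rw [h]
      exact hT0
  have e1 : ∫ x in (fun x => x + Z x) '' ({x | g (x + Z x) ≤ 1} \ {0} : Set (E n)), (1 : ℝ) =
      (volume {x | g x ≤ 1}).toReal := by
    rw [him, setIntegral_const, smul_eq_mul, mul_one, Measure.real,
      measure_sdiff_null (measure_singleton _)]
  have e2 : ∫ x in ({x | g (x + Z x) ≤ 1} \ {0} : Set (E n)),
      |(1 + fderiv ℝ Z x).det| • (1 : ℝ) =
      ∫ x in {x | g (x + Z x) ≤ 1}, (1 + fderiv ℝ Z x).det := by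
    rw [setIntegral_congr_fun (g := fun x => (1 + fderiv ℝ Z x).det) hS]
    · refine setIntegral_congr_set ?_
      exact sdiff_null_ae_eq_self (measure_singleton _)
    · intro x hx
      change |(1 + fderiv ℝ Z x).det| • (1 : ℝ) = (1 + fderiv ℝ Z x).det
      rw [abs_of_pos (hZ.det_pos hx.2), smul_eq_mul, mul_one]
  have e3 : (volume {x | g x ≤ 1}).toReal =
      ∫ x in {x | g (x + Z x) ≤ 1}, (1 + fderiv ℝ Z x).det := by
    rw [← e1, ← e2]
    exact hcov
  rw [hvol, hpol] at e3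
  exact mul_left_cancel₀ (om_pos n).ne' e3

end Pool.Agent.H35.CA
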