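import Pool.Agent.H35.CA.GauB

/-!
# Job CPT: compactness of the class of sublinear functions near the norm

Proof hints.
`seq_cpt`: the restrictions to the (compact) unit sphere are uniformly bounded and
`(1+δ)`-Lipschitz (`SL.lip`), so by Arzela-Ascoli (for instance `BoundedContinuousFunction`
version, or a diagonal argument) a subsequence converges uniformly on the sphere; by
homogeneity the functions converge pointwise everywhere, the limit is homogeneous and
subadditive, and `Near δ`; positivity by `SL_of_near`.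
`l2_sup`: by contradiction and `seq_cpt`: a sequence `h_j`, `Near (1/2)`, not `Near θ`, with
`∫ (h_j - 1)^2 → 0` has a uniform limit `h` with `∫ (h-1)^2 = 0`, so `h = 1` on the sphere by
`mu_full`; contradiction.  (A direct proof from the Lipschitz bound is also possible.)
-/

namespace Pool.Agent.H35.CA

open MeasureTheory Metric Set

variable {n : ℕ}

theorem cpt_near_one {δ : ℝ} (hδ : δ < 1) {h : E n → ℝ} (hN : Near δ h) : Near 1 h :=
  fun x hx => (hN x hx).trans hδ.le

theorem cpt_sub {δ : ℝ} (hδ : δ < 1) (H : ℕ → E n → ℝ) (h1 : ∀ j, SL (H j))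
    (h2 : ∀ j, Near δ (H j)) :
    ∃ a : sphere (0 : E n) 1 → ℝ, ∃ s : ℕ → ℕ, StrictMono s ∧
      ∀ ε > 0, ∃ J : ℕ, ∀ j ≥ J, ∀ x : sphere (0 : E n) 1, |H (s j) x - a x| ≤ ε := by
  have hlip : ∀ j (x y : E n), |H j x - H j y| ≤ 2 * ‖x - y‖ := by
    intro j x y
    have := (h1 j).lip (cpt_near_one hδ (h2 j)) x y
    linarith
  let F : ℕ → BoundedContinuousFunction (sphere (0 : E n) 1) ℝ := fun j =>
    BoundedContinuousFunction.mkOfCompact ⟨fun x => H j x, by
      have hc : Continuous (H j) := (h1 j).p1.cont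
      exact hc.comp continuous_subtype_val⟩
  have hF : ∀ j (x : sphere (0 : E n) 1), F j x = H j x := fun j x => rfl
  have hcpt : IsCompact (closure (Set.range F)) := by
    apply BoundedContinuousFunction.arzela_ascoli (Set.Icc (0 : ℝ) 2) isCompact_Icc
    · rintro f x ⟨j, rfl⟩
      rw [hF]
      have hx : ‖(x : E n)‖ = 1 := by
        have := x.2
        rwa [mem_sphere_zero_iff_norm] at this
      have := cpt_near_one hδ (h2 j) x hx
      rw [abs_le] at this
      constructor <;> linarith [this.1, this.2]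
    · apply Metric.equicontinuous_of_continuity_modulus (fun t => 2 * t)
      · have : Filter.Tendsto (fun t : ℝ => 2 * t) (nhds 0) (nhds (2 * 0)) :=
          Filter.Tendsto.const_mul 2 Filter.tendsto_id
        simpa using this
      · rintro x y ⟨f, ⟨j, rfl⟩⟩
        simp only
        rw [hF, hF, Real.dist_eq, Subtype.dist_eq, dist_eq_norm]
        exact hlip j x y
  obtain ⟨a, -, s, hs, hlim⟩ := hcpt.tendsto_subseq (x := F)
    (fun j => subset_closure (Set.mem_range_self j))
  refine ⟨a, s, hs, fun ε hε => ?_⟩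
  rw [Metric.tendsto_atTop] at hlim
  obtain ⟨J, hJ⟩ := hlim ε hε
  refine ⟨J, fun j hj x => ?_⟩
  have h3 := hJ j hj
  have h4 : dist (F (s j) x) (a x) ≤ dist (F (s j)) a := BoundedContinuousFunction.dist_coe_le_dist x
  have h5 : dist (F (s j) x) (a x) ≤ ε := h4.trans h3.le
  rwa [hF, Real.dist_eq] at h5

theorem seq_cpt (hn : 1 ≤ n) {δ : ℝ} (hδ : δ < 1) (H : ℕ → E n → ℝ) (h1 : ∀ j, SL (H j))
    (h2 : ∀ j, Near δ (H j)) :
    ∃ h : E n → ℝ, SL h ∧ Near δ h ∧ ∃ s : ℕ → ℕ, StrictMono s ∧
      ∀ ε > 0, ∃ J : ℕ, ∀ j ≥ J, ∀ x, ‖x‖ = 1 → |H (s j) x - h x| ≤ ε := by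
  obtain ⟨a, s, hs, hu⟩ := cpt_sub hδ H h1 h2
  classical
  have hun : ∀ x : E n, x ≠ 0 → ‖x‖⁻¹ • x ∈ sphere (0 : E n) 1 := by
    intro x hx
    rw [mem_sphere_zero_iff_norm, norm_smul, norm_inv, norm_norm]
    exact inv_mul_cancel₀ (norm_ne_zero_iff.mpr hx)
  let h : E n → ℝ := fun x => if hx : x ≠ 0 then ‖x‖ * a ⟨‖x‖⁻¹ • x, hun x hx⟩ else 0
  have hH0 : ∀ j, H j 0 = 0 := by
    intro j
    have := (h1 j).hom 0 le_rfl 0
    simpa using this
  have hlim : ∀ x : E n, Filter.Tendsto (fun j => H (s j) x) Filter.atTop (nhds (h x)) := by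
    intro x
    by_cases hx : x ≠ 0
    · have h3 : h x = ‖x‖ * a ⟨‖x‖⁻¹ • x, hun x hx⟩ := by
        simp only [h, dif_pos hx]
      rw [h3]
      have h4 : ∀ j, H (s j) x = ‖x‖ * H (s j) (‖x‖⁻¹ • x) := by
        intro j
        rw [← (h1 (s j)).hom ‖x‖ (norm_nonneg x), smul_smul,
          mul_inv_cancel₀ (norm_ne_zero_iff.mpr hx), one_smul]
      simp_rw [h4]
      apply Filter.Tendsto.const_mul
      rw [Metric.tendsto_atTop]
      intro ε hε
      obtain ⟨J, hJ⟩ := hu (ε / 2) (half_pos hε)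
      refine ⟨J, fun j hj => ?_⟩
      have := hJ j hj ⟨‖x‖⁻¹ • x, hun x hx⟩
      rw [Real.dist_eq]
      linarith
    · have h3 : h x = 0 := by
        simp only [h, dif_neg hx]
      rw [h3]
      have hx0 : x = 0 := not_not.mp hx
      have : (fun j => H (s j) x) = fun _ => (0 : ℝ) := by
        funext j
        rw [hx0, hH0]
      rw [this]
      exact tendsto_const_nhds
  have hN : Near δ h := by
    intro x hx
    have h3 : Filter.Tendsto (fun j => |H (s j) x - 1|) Filter.atTop (nhds |h x - 1|) :=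
      ((hlim x).sub_const 1).abs
    exact le_of_tendsto' h3 (fun j => h2 (s j) x hx)
  refine ⟨h, ?_, hN, s, hs, ?_⟩
  · apply SL_of_near hδ _ _ hN
    · intro t ht x
      have h3 : Filter.Tendsto (fun j => H (s j) (t • x)) Filter.atTop (nhds (t * h x)) := by
        have : (fun j => H (s j) (t • x)) = fun j => t * H (s j) x := by
          funext j
          exact (h1 (s j)).hom t ht x
        rw [this]
        exact (hlim x).const_mul t
      exact tendsto_nhds_unique (hlim (t • x)) h3
    · intro x y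
      exact le_of_tendsto_of_tendsto' (hlim (x + y)) ((hlim x).add (hlim y))
        (fun j => (h1 (s j)).sub x y)
  · intro ε hε
    obtain ⟨J, hJ⟩ := hu ε hε
    refine ⟨J, fun j hj x hx => ?_⟩
    have hx0 : x ≠ 0 := by
      intro h0
      rw [h0, norm_zero] at hx
      exact zero_ne_one hx
    have hmem : x ∈ sphere (0 : E n) 1 := by
      rw [mem_sphere_zero_iff_norm]
      exact hx
    have h3 : h x = a ⟨x, hmem⟩ := by
      simp only [h, dif_pos hx0]
      have : (⟨‖x‖⁻¹ • x, hun x hx0⟩ : sphere (0 : E n) 1) = ⟨x, hmem⟩ := by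
        apply Subtype.ext
        simp [hx]
      rw [this, hx, one_mul]
    rw [h3]
    exact hJ j hj ⟨x, hmem⟩

theorem l2_sup (hn : 1 ≤ n) : ∀ θ > 0, ∃ ρ > 0, ∀ h : E n → ℝ, SL h → Near (1 / 2) h →
    sq (fun x => h x - 1) ≤ ρ → Near θ h := by
  intro θ hθ
  by_contra hcon
  push Not at hcon
  have hpos : ∀ j : ℕ, (0 : ℝ) < 1 / ((j : ℝ) + 1) := fun j => by positivity
  choose H hSL hNear hsq hnot using fun j : ℕ => hcon (1 / ((j : ℝ) + 1)) (hpos j)
  obtain ⟨h, hh, -, s, hs, hu⟩ := seq_cpt hn (by norm_num : (1 / 2 : ℝ) < 1) H hSL hNear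
  have hcont : ∀ g : E n → ℝ, SL g → ContinuousOn (fun x => (g x - 1) ^ 2) (sphere 0 1) := by
    intro g hg
    exact ((hg.p1.cont.sub continuous_const).pow 2).continuousOn
  have hzero : ∫ x, (h x - 1) ^ 2 ∂(mu n) = 0 := by
    apply le_antisymm _ (integral_nonneg (fun x => sq_nonneg _))
    apply le_of_forall_pos_le_add
    intro ε hε
    rw [zero_add]
    -- choose the index
    obtain ⟨N, hN⟩ := exists_nat_one_div_lt (show (0 : ℝ) < ε / 4 by linarith)
    obtain ⟨J, hJ⟩ := hu (Real.sqrt (ε / 4)) (Real.sqrt_pos.mpr (by linarith))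
    set j := max N J with hj
    have h1 := hJ j (le_max_right _ _)
    have h2 : sq (fun x => H (s j) x - 1) ≤ ε / 4 := by
      refine (hsq (s j)).trans ?_
      have h3 : (N : ℝ) ≤ (s j : ℝ) := by
        have : N ≤ s j := (le_max_left N J).trans (hs.id_le j)
        exact_mod_cast this
      have h4 : 1 / ((s j : ℝ) + 1) ≤ 1 / ((N : ℝ) + 1) :=
        one_div_le_one_div_of_le (by positivity) (by linarith)
      linarith
    have h3 : ∫ x, (h x - 1) ^ 2 ∂(mu n) ≤
        ∫ x, (2 * (H (s j) x - 1) ^ 2 + 2 * (ε / 4)) ∂(mu n) := by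
      apply int_mono hn (hcont h hh)
      · exact ((continuousOn_const.mul (hcont _ (hSL (s j)))).add continuousOn_const)
      · intro x hx
        have h4 := h1 x hx
        have h5 : (H (s j) x - h x) ^ 2 ≤ ε / 4 := by
          have h6 : (H (s j) x - h x) ^ 2 ≤ Real.sqrt (ε / 4) ^ 2 := by
            rw [← sq_abs (H (s j) x - h x)]
            exact pow_le_pow_left₀ (abs_nonneg _) h4 2
          rwa [Real.sq_sqrt (by linarith)] at h6
        nlinarith [sq_nonneg ((h x - H (s j) x) - (H (s j) x - 1))]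
    have h4 : ∫ x, (2 * (H (s j) x - 1) ^ 2 + 2 * (ε / 4)) ∂(mu n) =
        2 * sq (fun x => H (s j) x - 1) + 2 * (ε / 4) := by
      rw [integral_add, integral_const_mul, int_const hn]
      · rfl
      · exact (integrable_mu hn (hcont _ (hSL (s j)))).const_mul 2
      · exact integrable_mu hn continuousOn_const
    rw [h4] at h3
    linarith
  have hone := mu_full hn (hcont h hh) (fun x _ => sq_nonneg _) hzero
  obtain ⟨J, hJ⟩ := hu θ hθ
  apply hnot (s J)
  intro x hx
  have h1 := hJ J le_rfl x hx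
  have h2 := hone x hx
  have h3 : h x = 1 := by
    have : h x - 1 = 0 := by
      simpa using h2
    linarith
  rwa [h3] at h1

end Pool.Agent.H35.CA
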