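import Mathlib

/-!
# Project CAM (MP_622023_gt): base definitions

Everything lives on `E n = EuclideanSpace ℝ (Fin n)`.  Functions on the unit sphere are written
as functions on `E n`: `H0` means homogeneous of degree 0 and continuous off the origin,
`H1` means positively homogeneous of degree 1 and continuous, `SL` means sublinear and
positive off the origin (support functions of convex bodies with 0 in the interior).
Averages over the unit sphere are integrals against the probability measure `mu n`, which is a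
measure on `E n` carried by the unit sphere.
-/

namespace Pool.Agent.H35.CA

open MeasureTheory Metric Set

/-- Euclidean space of dimension `n`. -/
abbrev E (n : ℕ) : Type := EuclideanSpace ℝ (Fin n)

variable {n : ℕ}

/-- Radial projection to the unit sphere. -/
noncomputable def un (x : E n) : E n := ‖x‖⁻¹ • x

/-- The uniform probability measure of the unit sphere, as a measure on `E n`: the image of
the normalised Lebesgue measure of the unit ball under the radial projection. -/
noncomputable def mu (n : ℕ) : Measure (E n) :=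
  Measure.map (un : E n → E n)
    ((volume (ball (0 : E n) 1))⁻¹ • (volume : Measure (E n)).restrict (ball (0 : E n) 1))

/-- Volume of the unit ball. -/
noncomputable def om (n : ℕ) : ℝ := (volume (ball (0 : E n) 1)).toReal

/-- Homogeneous of degree 0 and continuous off the origin. -/
structure H0 (F : E n → ℝ) : Prop where
  hom : ∀ t : ℝ, 0 < t → ∀ x, F (t • x) = F x
  cont : ContinuousOn F {0}ᶜ

/-- Positively homogeneous of degree 1 and continuous. -/
structure H1 (k : E n → ℝ) : Prop where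
  hom : ∀ t : ℝ, 0 ≤ t → ∀ x, k (t • x) = t * k x
  cont : Continuous k

/-- Sublinear, and positive off the origin. -/
structure SL (h : E n → ℝ) : Prop where
  hom : ∀ t : ℝ, 0 ≤ t → ∀ x, h (t • x) = t * h x
  sub : ∀ x y, h (x + y) ≤ h x + h y
  pos : ∀ x, x ≠ 0 → 0 < h x

/-- Positively homogeneous of degree 1, continuous, and positive off the origin. -/
structure P1 (k : E n → ℝ) : Prop where
  hom : ∀ t : ℝ, 0 ≤ t → ∀ x, k (t • x) = t * k x
  cont : Continuous k
  pos : ∀ x, x ≠ 0 → 0 < k x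

/-- `h` is within `δ` of `1` on the unit sphere. -/
def Near (δ : ℝ) (h : E n → ℝ) : Prop := ∀ x : E n, ‖x‖ = 1 → |h x - 1| ≤ δ

/-- The Wulff shape of `k`. -/
def wulff (k : E n → ℝ) : Set (E n) := {x | ∀ u : E n, ‖u‖ = 1 → inner ℝ x u ≤ k u}

/-- The gauge function of the Wulff shape of `k` (for `k` positive on the unit sphere). -/
noncomputable def gau (k : E n → ℝ) (x : E n) : ℝ :=
  ⨆ u : sphere (0 : E n) 1, inner ℝ x (u : E n) / k (u : E n)

/-- Normalised volume of the Wulff shape of `k`: `vv k = vol (wulff k) / vol (ball)`. -/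
noncomputable def vv (k : E n → ℝ) : ℝ := ∫ x, (gau k x ^ n)⁻¹ ∂(mu n)

/-- The mean of `F (h - ⟨z,·⟩)^(-n)` over the unit sphere. -/
noncomputable def GG (F h : E n → ℝ) (z : E n) : ℝ :=
  ∫ x, F x * ((h x - inner ℝ z x) ^ n)⁻¹ ∂(mu n)

/-- The functional `vv h * mean of F (h - ⟨z,·⟩)^(-n)`. -/
noncomputable def MM (F h : E n → ℝ) (z : E n) : ℝ := vv h * GG F h z

/-! ### Rotations in a plane -/

/-- Infinitesimal generators of rotations in a plane: skew, and `J^3 = -J`. -/
structure Gen (J : E n →L[ℝ] E n) : Prop where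
  skew : ∀ x y, inner ℝ (J x) y = - inner ℝ x (J y)
  cube : ∀ x, J (J (J x)) = - J x

/-- The one-parameter group generated by `J` (for `Gen J`). -/
noncomputable def rot (J : E n →L[ℝ] E n) (b : ℝ) (x : E n) : E n :=
  x + Real.sin b • J x + (1 - Real.cos b) • J (J x)

/-- Derivative along the rotation field `x ↦ J x`. -/
noncomputable def XX (J : E n →L[ℝ] E n) (F : E n → ℝ) (x : E n) : ℝ := fderiv ℝ F x (J x)

/-- The generator of the rotation in the plane of the coordinates `i`, `j`:
`x ↦ x i e_j - x j e_i`. -/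
noncomputable def Jij (i j : Fin n) : E n →L[ℝ] E n :=
  (EuclideanSpace.proj i : E n →L[ℝ] ℝ).smulRight (EuclideanSpace.single j (1 : ℝ)) -
    (EuclideanSpace.proj j : E n →L[ℝ] ℝ).smulRight (EuclideanSpace.single i (1 : ℝ))

/-- The pairs `i < j`. -/
def prs (n : ℕ) : Finset (Fin n × Fin n) := Finset.univ.filter (fun q => q.1 < q.2)

/-! ### Polynomials on the sphere -/

/-- Real polynomials in `n` variables. -/
abbrev Pol (n : ℕ) : Type := MvPolynomial (Fin n) ℝ

/-- Value of a polynomial at a point. -/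
noncomputable def ev (P : Pol n) (x : E n) : ℝ := MvPolynomial.eval (fun i => x i) P

/-- The rotation field `x_i ∂_j - x_j ∂_i` on polynomials. -/
noncomputable def Xp (i j : Fin n) (P : Pol n) : Pol n :=
  MvPolynomial.X i * MvPolynomial.pderiv j P - MvPolynomial.X j * MvPolynomial.pderiv i P

/-- The spherical Laplacian on polynomials, `∑_{i<j} (x_i ∂_j - x_j ∂_i)^2`. -/
noncomputable def lapP (P : Pol n) : Pol n := ∑ q ∈ prs n, Xp q.1 q.2 (Xp q.1 q.2 P)

/-- Eigenvalues of minus the spherical Laplacian. -/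
def lam (n : ℕ) (k : ℕ) : ℝ := (k : ℝ) * ((k : ℝ) + (n : ℝ) - 2)

/-- An orthonormal family of spherical harmonics, arranged by degree, spanning all
polynomials on the sphere. -/
structure SHFam (n : ℕ) where
  m : ℕ → ℕ
  Y : (k : ℕ) → Fin (m k) → Pol n
  deg : ∀ k i, (Y k i).totalDegree ≤ k
  ortho_self : ∀ k i, ∫ x, ev (Y k i) x * ev (Y k i) x ∂(mu n) = 1
  ortho_same : ∀ k i j, i ≠ j → ∫ x, ev (Y k i) x * ev (Y k j) x ∂(mu n) = 0
  ortho_diff : ∀ k l i j, k ≠ l → ∫ x, ev (Y k i) x * ev (Y l j) x ∂(mu n) = 0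
  eig : ∀ k i, ∀ x : E n, ‖x‖ = 1 → ev (lapP (Y k i)) x = - lam n k * ev (Y k i) x
  span : ∀ (K : ℕ) (P : Pol n), P.totalDegree ≤ K → ∃ c : (k : ℕ) → Fin (m k) → ℝ,
    ∀ x : E n, ‖x‖ = 1 → ev P x = ∑ k ∈ Finset.range (K + 1), ∑ i, c k i * ev (Y k i) x

/-- Coefficients of a function in the family. -/
noncomputable def cf (Y : SHFam n) (f : E n → ℝ) (k : ℕ) (i : Fin (Y.m k)) : ℝ :=
  ∫ x, f x * ev (Y.Y k i) x ∂(mu n)

/-- Energy of a function in degree `k`. -/
noncomputable def en (Y : SHFam n) (f : E n → ℝ) (k : ℕ) : ℝ := ∑ i, cf Y f k i ^ 2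

/-- The projection of a function to polynomials of degree `≤ K`, as a polynomial. -/
noncomputable def prP (Y : SHFam n) (f : E n → ℝ) (K : ℕ) : Pol n :=
  ∑ k ∈ Finset.range (K + 1), ∑ i, cf Y f k i • Y.Y k i

/-- The `L²` norm of a polynomial on the sphere. -/
noncomputable def nr (P : Pol n) : ℝ := Real.sqrt (∫ x, ev P x ^ 2 ∂(mu n))

/-- The 1-homogeneous extension of a polynomial on the sphere. -/
noncomputable def pk (P : Pol n) (x : E n) : ℝ := ‖x‖ * ev P (un x)

/-! ### Smooth perturbations of the norm -/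

/-- `k` is 1-homogeneous, `C^3` off the origin and `C^2`-bounded by `c` on the sphere. -/
structure Small (c : ℝ) (k : E n → ℝ) : Prop where
  hom : ∀ t : ℝ, 0 ≤ t → ∀ x, k (t • x) = t * k x
  smooth : ContDiffOn ℝ 3 k {0}ᶜ
  b0 : ∀ x, ‖x‖ = 1 → |k x| ≤ c
  b1 : ∀ x, ‖x‖ = 1 → ‖fderiv ℝ k x‖ ≤ c
  b2 : ∀ x, ‖x‖ = 1 → ‖fderiv ℝ (fderiv ℝ k) x‖ ≤ c

/-- The perturbed norm. -/
noncomputable def hh (k : E n → ℝ) (x : E n) : ℝ := ‖x‖ + k x

/-- The gradient of `(hh k)^2 / 2`. -/
noncomputable def TT (k : E n → ℝ) (x : E n) : E n := hh k x • gradient (hh k) x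

/-- The Jacobian determinant of `TT k`. -/
noncomputable def dens (k : E n → ℝ) (x : E n) : ℝ := (fderiv ℝ (TT k) x).det

/-- Sum of the energies in degrees `0, 1, 2`. -/
noncomputable def e2 (Y : SHFam n) (f : E n → ℝ) : ℝ := ∑ k ∈ Finset.range 3, en Y f k

/-- Sum of the energies in degrees `0, 1, 2, 3`. -/
noncomputable def e3 (Y : SHFam n) (f : E n → ℝ) : ℝ := ∑ k ∈ Finset.range 4, en Y f k

/-- Square of the `L²` norm over the sphere. -/
noncomputable def sq (f : E n → ℝ) : ℝ := ∫ x, f x ^ 2 ∂(mu n)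

/-- The upper bound for the normalised volume in terms of `f = h - 1`. -/
noncomputable def Vb (Y : SHFam n) (C δ : ℝ) (f : E n → ℝ) : ℝ :=
  1 + (n : ℝ) * (∫ x, f x ∂(mu n)) - (n : ℝ) * (n + 1) / 2 * sq f + (n : ℝ) ^ 2 * e2 Y f
    - (n : ℝ) * (n + 3) / 2 * (sq f - e2 Y f) - (sq f - e3 Y f) + C * δ * sq f

/-! ### The model function -/

/-- The harmonic cubic `x_0^3 - 3 x_0 x_1^2`, as a polynomial. -/
noncomputable def Y3 (n : ℕ) (hn : 2 ≤ n) : Pol n :=
  MvPolynomial.X (⟨0, by omega⟩ : Fin n) ^ 3 -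
    3 * MvPolynomial.X (⟨0, by omega⟩ : Fin n) * MvPolynomial.X (⟨1, by omega⟩ : Fin n) ^ 2

/-- `x ↦ Y3 (A x / |A x|)`. -/
noncomputable def uA (hn : 2 ≤ n) (A : E n → E n) (x : E n) : ℝ := ev (Y3 n hn) (un (A x))

/-- The model function `1 + ε u - n / (2 (n + 3)) ε² u²`. -/
noncomputable def psi (ε : ℝ) (u : E n → ℝ) (x : E n) : ℝ :=
  1 + ε * u x - (n : ℝ) / (2 * (n + 3)) * ε ^ 2 * u x ^ 2

/-! ### Solutions -/

/-- The linear map stretching the direction of the unit vector `w` by the factor `t`. -/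
noncomputable def Bt (w : E n) (t : ℝ) (x : E n) : E n := x + ((t - 1) * inner ℝ w x) • w

/-- Support function. -/
noncomputable def supp (K : Set (E n)) (u : E n) : ℝ := sSup ((fun x => inner ℝ x u) '' K)

open scoped Pointwise in
/-- `K` is a convex body with `0` in the interior, and `h_K^(n+1) dS_K = f dσ` on the unit
sphere.  The surface area measure `S_K` is the measure on the unit sphere for which the right
derivative of `vol (K + s L)` at `s = 0` is the integral of the support function of `L`, for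
every convex body `L`; here `σ` is the surface measure of the sphere. -/
structure IsSolution (f : sphere (0 : E n) 1 → ℝ) (K : Set (E n)) : Prop where
  compact : IsCompact K
  convex : Convex ℝ K
  zero_mem : (0 : E n) ∈ interior K
  var : ∀ L : Set (E n), IsCompact L → Convex ℝ L → L.Nonempty →
    HasDerivWithinAt (fun s : ℝ => (volume (K + s • L)).toReal)
      (∫ u : sphere (0 : E n) 1, supp L u * (f u * (supp K u ^ (n + 1))⁻¹)
        ∂(volume : Measure (E n)).toSphere) (Ici 0) 0

/-- The ratio of two widths of `K` is at least `M`. -/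
def Ecc (M : ℝ) (K : Set (E n)) : Prop := ∃ w v : E n, ‖w‖ = 1 ∧ ‖v‖ = 1 ∧
  0 < supp K w + supp K (-w) ∧ M * (supp K w + supp K (-w)) ≤ supp K v + supp K (-v)

end Pool.Agent.H35.CA
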