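import Pool.Agent.H35.CA.GauB

/-!
# Job DEN: smooth sublinear functions are dense

Proof hints.  Let `K = wulff h`, a compact set, `h u = max_{x ∈ K} ⟨x,u⟩` (from `gau_gau`: for
`‖u‖ = 1` there is `x` with `gau h x = 1`, hence `x ∈ K`, and `⟨x,u⟩ = h u`).  Take a finite
`ε/4`-net `x_1, …, x_N` of `K`, so `max_j ⟨x_j,u⟩ ≥ h u - ε/4` for unit `u`.  For a natural
number `q ≥ 3` and small `η > 0` put
`h' u = (∑_j (max ⟨x_j,u⟩ 0)^q + (η ‖u‖)^q)^(1/q)`.
It is sublinear (Minkowski inequality in `ℓ^q`, `Real.Lp_add_le_of_nonneg`, as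
`max ⟨x_j,·⟩ 0` and `η ‖·‖` are nonnegative and sublinear), positive off 0, `C^2` off 0
(`t ↦ (max t 0)^q` is `C^2` for `q ≥ 3`; the `q`-th root is smooth on positive numbers), and for
unit `u`: `max_j ⟨x_j,u⟩ ≤ h' u ≤ (N+1)^(1/q) * max (h u) η`; let `q → ∞`.
-/

namespace Pool.Agent.H35.CA

open MeasureTheory Metric Set

variable {n : ℕ}

theorem den_support (hn : 1 ≤ n) {h : E n → ℝ} (hh' : SL h) {u : E n} (hu : ‖u‖ = 1) :
    ∃ x : E n, inner ℝ x u = h u ∧ ∀ v, inner ℝ x v ≤ h v := by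
  obtain ⟨v, hv, he⟩ := gau_att hn (gau_SL hn hh'.p1).p1 u
  rw [gau_gau hn hh'] at he
  have hv0 : v ≠ 0 := by
    intro h0
    rw [h0, norm_zero] at hv
    exact zero_ne_one hv
  have hg : 0 < gau h v := (gau_SL hn hh'.p1).pos v hv0
  refine ⟨(gau h v)⁻¹ • v, ?_, ?_⟩
  · rw [inner_smul_left, real_inner_comm, he]
    simp only [conj_trivial]
    field_simp
  · intro w
    rw [inner_smul_left]
    simp only [conj_trivial]
    have := gau_le hn hh'.p1 v w
    rw [inv_mul_le_iff₀ hg]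
    exact this

theorem den_net (hn : 1 ≤ n) {h : E n → ℝ} (hh' : SL h) {ε : ℝ} (hε : 0 < ε) :
    ∃ (t : Finset (E n)) (X : E n → E n), (∀ i ∈ t, ∀ v, inner ℝ (X i) v ≤ h v) ∧
      ∀ u : E n, ‖u‖ = 1 → ∃ i ∈ t, h u - ε ≤ inner ℝ (X i) u := by
  classical
  have hex : ∀ u : E n, ∃ x : E n, ‖u‖ = 1 → (inner ℝ x u = h u ∧ ∀ v, inner ℝ x v ≤ h v) := by
    intro u
    by_cases hu : ‖u‖ = 1
    · obtain ⟨x, hx⟩ := den_support hn hh' hu
      exact ⟨x, fun _ => hx⟩
    · exact ⟨0, fun h1 => absurd h1 hu⟩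
  choose X hX using hex
  have hc : Continuous h := hh'.p1.cont
  obtain ⟨t, ht, hcov⟩ := (isCompact_sphere (0 : E n) 1).elim_nhds_subcover
    (fun u => {v | h v - ε < inner ℝ (X u) v}) (by
      intro u hu
      rw [mem_sphere_zero_iff_norm] at hu
      apply IsOpen.mem_nhds
      · exact isOpen_lt (hc.sub continuous_const) (continuous_const.inner continuous_id)
      · simp only [Set.mem_ofPred_eq]
        rw [(hX u hu).1]
        linarith)
  refine ⟨t, X, ?_, ?_⟩
  · intro i hi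
    have := ht i hi
    rw [mem_sphere_zero_iff_norm] at this
    exact (hX i this).2
  · intro u hu
    have hmem : u ∈ sphere (0 : E n) 1 := by
      rw [mem_sphere_zero_iff_norm]
      exact hu
    have := hcov hmem
    simp only [Set.mem_iUnion, Set.mem_ofPred_eq, exists_prop] at this
    obtain ⟨i, hi, hlt⟩ := this
    exact ⟨i, hi, hlt.le⟩

theorem den_pos_deriv (q : ℕ) (t : ℝ) :
    HasDerivAt (fun t : ℝ => (max t 0) ^ (q + 2)) (((q : ℝ) + 2) * (max t 0) ^ (q + 1)) t := by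
  rcases lt_trichotomy t 0 with ht | ht | ht
  · have h1 : (fun t : ℝ => (max t 0) ^ (q + 2)) =ᶠ[nhds t] fun _ => 0 := by
      filter_upwards [gt_mem_nhds ht] with s hs
      rw [max_eq_right hs.le, zero_pow (by omega)]
    have h2 : ((q : ℝ) + 2) * (max t 0) ^ (q + 1) = 0 := by
      rw [max_eq_right ht.le, zero_pow (by omega), mul_zero]
    rw [h2]
    exact (hasDerivAt_const t (0 : ℝ)).congr_of_eventuallyEq h1
  · subst ht
    have h2 : ((q : ℝ) + 2) * (max (0 : ℝ) 0) ^ (q + 1) = 0 := by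
      rw [max_self, zero_pow (by omega), mul_zero]
    rw [h2, hasDerivAt_iff_isLittleO_nhds_zero]
    have h3 : (fun s : ℝ => (max (0 + s) 0) ^ (q + 2) - (max (0 : ℝ) 0) ^ (q + 2) - s • (0 : ℝ)) =
        fun s : ℝ => (max s 0) ^ (q + 2) := by
      funext s
      simp
    rw [h3]
    have h4 : (fun s : ℝ => (max s 0) ^ (q + 2)) =O[nhds 0] fun s : ℝ => s ^ (q + 2) := by
      apply Asymptotics.IsBigO.of_bound 1
      filter_upwards with s
      rw [one_mul, norm_pow, norm_pow]
      apply pow_le_pow_left₀ (norm_nonneg _)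
      rw [Real.norm_eq_abs, Real.norm_eq_abs, abs_of_nonneg (le_max_right _ _)]
      exact max_le (le_abs_self s) (abs_nonneg s)
    have h5 : (fun s : ℝ => s ^ (q + 2)) =o[nhds 0] fun s : ℝ => s := by
      have := Asymptotics.isLittleO_pow_pow (𝕜 := ℝ) (m := 1) (n := q + 2) (by omega)
      simpa using this
    exact h4.trans_isLittleO h5
  · have h1 : (fun t : ℝ => (max t 0) ^ (q + 2)) =ᶠ[nhds t] fun t => t ^ (q + 2) := by
      filter_upwards [lt_mem_nhds ht] with s hs
      rw [max_eq_left hs.le]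
    rw [max_eq_left ht.le]
    have h2 := (hasDerivAt_pow (q + 2) t).congr_of_eventuallyEq h1
    refine h2.congr_deriv ?_
    push_cast
    rfl

theorem den_pos_contDiff (q : ℕ) : ContDiff ℝ q (fun t : ℝ => (max t 0) ^ (q + 1)) := by
  induction q with
  | zero =>
    rw [Nat.cast_zero, contDiff_zero]
    exact (continuous_id.max continuous_const).pow _
  | succ q ih =>
    have hd : deriv (fun t : ℝ => (max t 0) ^ (q + 1 + 1)) =
        fun t => ((q : ℝ) + 2) * (max t 0) ^ (q + 1) := by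
      funext t
      exact (den_pos_deriv q t).deriv
    have : ((q + 1 : ℕ) : WithTop ℕ∞) = (q : WithTop ℕ∞) + 1 := by
      push_cast
      rfl
    rw [this, contDiff_succ_iff_deriv]
    refine ⟨fun t => (den_pos_deriv q t).differentiableAt, ?_, ?_⟩
    · intro h
      exact absurd h (by simp)
    · rw [hd]
      exact contDiff_const.mul ih

theorem dense_C2 (hn : 1 ≤ n) {h : E n → ℝ} (hh' : SL h) {ε : ℝ} (hε : 0 < ε) :
    ∃ l : E n → ℝ, SL l ∧ ContDiffOn ℝ 2 l {0}ᶜ ∧ ∀ x, ‖x‖ = 1 → |l x - h x| ≤ ε := by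
  classical
  have hne : (sphere (0 : E n) 1).Nonempty :=
    ⟨EuclideanSpace.single (⟨0, by omega⟩ : Fin n) (1 : ℝ), by simp⟩
  have hc : Continuous h := hh'.p1.cont
  have hn0 : ∀ y : E n, ‖y‖ = 1 → y ≠ 0 := by
    intro y hy h0
    rw [h0, norm_zero] at hy
    exact zero_ne_one hy
  obtain ⟨a, ha, hmin⟩ := (isCompact_sphere (0 : E n) 1).exists_isMinOn hne hc.continuousOn
  obtain ⟨b, hb, hmax⟩ := (isCompact_sphere (0 : E n) 1).exists_isMaxOn hne hc.continuousOn
  rw [mem_sphere_zero_iff_norm] at ha hb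
  have hm : 0 < h a := hh'.pos a (hn0 a ha)
  have hM : 0 < h b := hh'.pos b (hn0 b hb)
  have hmin' : ∀ x : E n, ‖x‖ = 1 → h a ≤ h x := fun x hx =>
    hmin (by rw [mem_sphere_zero_iff_norm]; exact hx)
  have hmax' : ∀ x : E n, ‖x‖ = 1 → h x ≤ h b := fun x hx =>
    hmax (by rw [mem_sphere_zero_iff_norm]; exact hx)
  set η := min ε (h a / 2) with hη
  have hηpos : 0 < η := lt_min hε (by linarith)
  obtain ⟨t, X, hX1, hX2⟩ := den_net hn hh' hηpos
  set c := ε / h b with hcdef
  have hcpos : 0 < c := div_pos hε hM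
  obtain ⟨q0, hq0⟩ := exists_nat_gt ((t.card : ℝ) / c)
  set q := q0 + 3 with hq
  have hqpos : 0 < (q : ℝ) := by positivity
  have hqne : (q : ℝ) ≠ 0 := hqpos.ne'
  have hcard : (t.card : ℝ) ≤ (1 + c) ^ q := by
    have h1 : 1 + (q : ℝ) * c ≤ (1 + c) ^ q := one_add_mul_le_pow (by linarith) q
    have h2 : (t.card : ℝ) < (q0 : ℝ) * c := by
      rw [div_lt_iff₀ hcpos] at hq0
      exact hq0
    have h3 : (q0 : ℝ) ≤ q := by
      rw [hq]
      push_cast
      linarith
    nlinarith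
  let S : E n → ℝ := fun u => ∑ i ∈ t, (max (inner ℝ (X i) u) 0) ^ q
  have hS0 : ∀ u, 0 ≤ S u := fun u =>
    Finset.sum_nonneg (fun i _ => pow_nonneg (le_max_right _ _) _)
  have hShom : ∀ r : ℝ, 0 ≤ r → ∀ u, S (r • u) = r ^ q * S u := by
    intro r hr u
    simp only [S, Finset.mul_sum]
    refine Finset.sum_congr rfl (fun i _ => ?_)
    rw [inner_smul_right, ← mul_pow]
    congr 1
    rw [mul_max_of_nonneg _ _ hr, mul_zero]
  have hqq : ∀ r : ℝ, 0 ≤ r → (r ^ q) ^ (1 / (q : ℝ)) = r := by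
    intro r hr
    rw [← Real.rpow_natCast, ← Real.rpow_mul hr, mul_one_div_cancel hqne, Real.rpow_one]
  have hSlow : ∀ u : E n, ‖u‖ = 1 → (h u - η) ^ q ≤ S u := by
    intro u hu
    obtain ⟨i, hi, hle⟩ := hX2 u hu
    have h1 : 0 ≤ h u - η := by
      have := hmin' u hu
      have := min_le_right ε (h a / 2)
      linarith
    have h2 : (max (inner ℝ (X i) u) 0) ^ q ≤ S u :=
      Finset.single_le_sum (f := fun i => (max (inner ℝ (X i) u) 0) ^ q)
        (fun j _ => pow_nonneg (le_max_right _ _) _) hi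
    refine le_trans (pow_le_pow_left₀ h1 ?_ q) h2
    exact hle.trans (le_max_left _ _)
  have hSup : ∀ u : E n, ‖u‖ = 1 → S u ≤ ((1 + c) * h u) ^ q := by
    intro u hu
    have h1 : S u ≤ ∑ _i ∈ t, (h u) ^ q := by
      apply Finset.sum_le_sum
      intro i hi
      apply pow_le_pow_left₀ (le_max_right _ _)
      exact max_le (hX1 i hi u) (hh'.pos u (hn0 u hu)).le
    rw [Finset.sum_const, nsmul_eq_mul] at h1
    rw [mul_pow]
    exact h1.trans (mul_le_mul_of_nonneg_right hcard (pow_nonneg (hh'.pos u (hn0 u hu)).le q))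
  have hSpos1 : ∀ u : E n, ‖u‖ = 1 → 0 < S u := by
    intro u hu
    refine lt_of_lt_of_le ?_ (hSlow u hu)
    have := hmin' u hu
    have := min_le_right ε (h a / 2)
    exact pow_pos (by linarith) q
  have hSpos : ∀ u : E n, u ≠ 0 → 0 < S u := by
    intro u hu
    have hnu : 0 < ‖u‖ := norm_pos_iff.mpr hu
    have h1 : u = ‖u‖ • (‖u‖⁻¹ • u) := by
      rw [smul_smul, mul_inv_cancel₀ hnu.ne', one_smul]
    rw [h1, hShom _ hnu.le]
    apply mul_pos (pow_pos hnu q)
    apply hSpos1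
    rw [norm_smul, norm_inv, norm_norm, inv_mul_cancel₀ hnu.ne']
  refine ⟨fun u => S u ^ (1 / (q : ℝ)), ⟨?_, ?_, ?_⟩, ?_, ?_⟩
  · intro r hr u
    rw [hShom r hr, Real.mul_rpow (pow_nonneg hr q) (hS0 u), hqq r hr]
  · intro u v
    have h1 := Real.Lp_add_le_of_nonneg (p := (q : ℝ)) t
      (f := fun i => max (inner ℝ (X i) u) 0) (g := fun i => max (inner ℝ (X i) v) 0)
      (by
        rw [hq]
        push_cast
        have : (0 : ℝ) ≤ q0 := Nat.cast_nonneg _
        linarith) (fun i _ => le_max_right _ _) (fun i _ => le_max_right _ _)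
    simp only [Real.rpow_natCast] at h1
    refine le_trans ?_ h1
    apply Real.rpow_le_rpow (hS0 _) _ (by positivity)
    apply Finset.sum_le_sum
    intro i _
    apply pow_le_pow_left₀ (le_max_right _ _)
    rw [inner_add_right]
    apply max_le
    · exact add_le_add (le_max_left _ _) (le_max_left _ _)
    · exact add_nonneg (le_max_right _ _) (le_max_right _ _)
  · intro u hu
    exact Real.rpow_pos_of_pos (hSpos u hu) _
  · have h1 : ContDiff ℝ 2 S := by
      apply ContDiff.sum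
      intro i _
      have h2 : ContDiff ℝ 2 (fun t : ℝ => (max t 0) ^ q) := by
        have := den_pos_contDiff (q0 + 2)
        refine this.of_le ?_
        have h3 : ((2 : ℕ) : WithTop ℕ∞) ≤ ((q0 + 2 : ℕ) : WithTop ℕ∞) := by
          exact_mod_cast (by omega : 2 ≤ q0 + 2)
        exact_mod_cast h3
      exact h2.comp (contDiff_const.inner ℝ contDiff_id)
    exact h1.contDiffOn.rpow_const_of_ne (fun u hu => (hSpos u hu).ne')
  · intro u hu
    have hpos := hh'.pos u (hn0 u hu)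
    have h1 : h u - η ≤ S u ^ (1 / (q : ℝ)) := by
      have h2 : 0 ≤ h u - η := by
        have := hmin' u hu
        have := min_le_right ε (h a / 2)
        linarith
      rw [← hqq (h u - η) h2]
      exact Real.rpow_le_rpow (pow_nonneg h2 q) (hSlow u hu) (by positivity)
    have h3 : S u ^ (1 / (q : ℝ)) ≤ (1 + c) * h u := by
      have h2 : 0 ≤ (1 + c) * h u := by positivity
      rw [← hqq ((1 + c) * h u) h2]
      exact Real.rpow_le_rpow (hS0 u) (hSup u hu) (by positivity)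
    have h4 : c * h u ≤ ε := by
      have h5 : c * h u ≤ c * h b := mul_le_mul_of_nonneg_left (hmax' u hu) hcpos.le
      have h6 : c * h b = ε := by
        rw [hcdef]
        field_simp
      linarith
    have h7 : η ≤ ε := min_le_left _ _
    rw [abs_le]
    constructor <;> nlinarith

end Pool.Agent.H35.CA
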