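import Pool.Agent.H35.CA.GauB

/-!
# Job DIF: differentiability of the volume of the Wulff shape

Proof hints.  Put `k_s x = h x + s * φ x`; for small `|s|` it is `P1`.
(i) There are `s0 > 0`, `L` with `|gau k_s x - gau k_t x| ≤ L |s - t|` for `‖x‖ = 1`,
`|s|, |t| ≤ s0`, and `gau k_s x ≥ c > 0` on the sphere.
(ii) `gau h` is sublinear, hence Lipschitz, hence differentiable almost everywhere for Lebesgue
measure (Rademacher, `LipschitzWith.ae_differentiableAt`), and by homogeneity at `mu n`-almost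
every point (`mu_null_of_cone`, `measurableSet_of_differentiableAt`).
(iii) Let `‖x‖ = 1` and `gau h` differentiable at `x`.  If `u` is a unit vector with
`⟨x,u⟩ = gau h x * h u` (`gau_att`), then `gau h y ≥ ⟨y,u⟩ / h u` with equality at `y = x`, so
the gradient of `gau h` at `x` is `u / h u`; hence the maximiser `u =: u*` is unique.  Let `u_s`
be a maximiser for `k_s` at `x`.  Every limit point of `u_s` as `s → 0` is a maximiser for `h`,
so `u_s → u*`.  And
`gau h x * h u* / k_s u* ≤ gau k_s x ≤ gau h x * h u_s / k_s u_s`,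
so `s ↦ gau k_s x` is differentiable at 0 with derivative `- gau h x * φ u* / h u*`.
(iv) `hasDerivAt_integral_of_dominated_loc_of_lip` for `s ↦ ∫ (gau k_s x ^ n)⁻¹ dmu`.
-/

namespace Pool.Agent.H35.CA

open MeasureTheory Metric Set

variable {n : ℕ}

open Filter Topology

theorem dif_bd {φ : E n → ℝ} (hφ : H1 φ) : ∃ B : ℝ, 0 ≤ B ∧ ∀ x, |φ x| ≤ B * ‖x‖ := by
  have h1 : ContinuousOn φ (sphere (0 : E n) 1) := hφ.cont.continuousOn
  obtain ⟨C, hC⟩ := (isCompact_sphere (0 : E n) 1).exists_bound_of_continuousOn h1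
  refine ⟨max C 0, le_max_right _ _, fun x => ?_⟩
  by_cases hx : x = 0
  · have h2 : φ x = 0 := by
      have h3 := hφ.hom 0 le_rfl 0
      rw [hx]
      simpa using h3
    rw [h2, hx]
    simp
  · have hx' : 0 < ‖x‖ := norm_pos_iff.mpr hx
    have h2 := hC (‖x‖⁻¹ • x) (by
      rw [mem_sphere_zero_iff_norm, norm_smul, norm_inv, norm_norm, inv_mul_cancel₀ hx'.ne'])
    have h3 : φ x = ‖x‖ * φ (‖x‖⁻¹ • x) := by
      rw [← hφ.hom _ hx'.le, smul_smul, mul_inv_cancel₀ hx'.ne', one_smul]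
    rw [h3, abs_mul, abs_norm, mul_comm]
    exact mul_le_mul_of_nonneg_right (le_trans h2 (le_max_left _ _)) hx'.le

theorem dif_data (hn : 1 ≤ n) {h : E n → ℝ} (hh : SL h) {φ : E n → ℝ} (hφ : H1 φ) :
    ∃ s0 m B C : ℝ, 0 < s0 ∧ 0 < m ∧ 0 ≤ B ∧ 0 < C ∧ (∀ x, ‖x‖ = 1 → |φ x| ≤ B) ∧
      ∀ s, |s| ≤ s0 → P1 (fun x => h x + s * φ x) ∧
        ∀ x, ‖x‖ = 1 → m ≤ h x + s * φ x ∧ h x + s * φ x ≤ C := by
  have hp := hh.p1
  obtain ⟨m, hm, hm'⟩ := sphA_lower hn hp
  obtain ⟨B, hB, hB'⟩ := dif_bd hφ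
  obtain ⟨C, hC, hC'⟩ := dif_bd (φ := h) ⟨hh.hom, hp.cont⟩
  have hs0 : 0 < m / (2 * (B + 1)) := by positivity
  have key : ∀ s, |s| ≤ m / (2 * (B + 1)) → ∀ x, |s * φ x| ≤ m / 2 * ‖x‖ := by
    intro s hs x
    rw [abs_mul]
    have h1 : |s| * |φ x| ≤ m / (2 * (B + 1)) * (B * ‖x‖) :=
      mul_le_mul hs (hB' x) (abs_nonneg _) hs0.le
    have h2 : m / (2 * (B + 1)) * (B * ‖x‖) ≤ m / 2 * ‖x‖ := by
      have h3 : m / (2 * (B + 1)) * (B * ‖x‖) = m / 2 * ‖x‖ * (B / (B + 1)) := by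
        field_simp
      rw [h3]
      have h4 : B / (B + 1) ≤ 1 := by
        rw [div_le_one (by linarith)]
        linarith
      exact mul_le_of_le_one_right (by positivity) h4
    linarith
  refine ⟨m / (2 * (B + 1)), m / 2, B, C + m, hs0, by linarith, hB, by linarith, ?_, ?_⟩
  · intro x hx
    have h1 := hB' x
    rwa [hx, mul_one] at h1
  · intro s hs
    refine ⟨⟨?_, ?_, ?_⟩, ?_⟩
    · intro t ht x
      rw [hh.hom t ht, hφ.hom t ht]
      ring
    · exact hp.cont.add (continuous_const.mul hφ.cont)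
    · intro x hx
      have h1 := key s hs x
      have h2 := hm' x
      have h3 : 0 < ‖x‖ := norm_pos_iff.mpr hx
      have h4 := neg_abs_le (s * φ x)
      change 0 < h x + s * φ x
      nlinarith
    · intro x hx
      have h1 := key s hs x
      have h2 := hm' x
      have h5 := (le_abs_self _).trans (hC' x)
      rw [hx] at h1 h2 h5
      have h3 := neg_abs_le (s * φ x)
      have h4 := le_abs_self (s * φ x)
      constructor <;> linarith

theorem dif_rho (hn : 1 ≤ n) {k : E n → ℝ} (hk : P1 k) {x : E n} (hx : ‖x‖ = 1) :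
    0 < (gau k x)⁻¹ ∧ (∀ w, (gau k x)⁻¹ * inner ℝ x w ≤ k w) ∧
      ∃ u : E n, ‖u‖ = 1 ∧ (gau k x)⁻¹ * inner ℝ x u = k u := by
  have hx0 : x ≠ 0 := by
    rintro rfl
    simp at hx
  have hg : 0 < gau k x := (gau_SL hn hk).pos x hx0
  refine ⟨inv_pos.mpr hg, fun w => ?_, ?_⟩
  · have h1 := gau_le hn hk x w
    rw [inv_mul_le_iff₀ hg]
    exact h1
  · obtain ⟨u, hu, h1⟩ := gau_att hn hk x
    refine ⟨u, hu, ?_⟩
    rw [h1, ← mul_assoc, inv_mul_cancel₀ hg.ne', one_mul]

theorem dif_inner_le {x w : E n} (hx : ‖x‖ = 1) (hw : ‖w‖ = 1) : |inner ℝ x w| ≤ 1 := by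
  have h := abs_real_inner_le_norm x w
  rwa [hx, hw, mul_one] at h

/-- the maximiser is unique at the points of differentiability -/
theorem dif_unique (hn : 1 ≤ n) {h : E n → ℝ} (hp : P1 h) {x : E n} (hx : ‖x‖ = 1)
    (hd : DifferentiableAt ℝ (gau h) x) {u u' : E n} (hu : ‖u‖ = 1) (hu' : ‖u'‖ = 1)
    (h1 : (gau h x)⁻¹ * inner ℝ x u = h u) (h1' : (gau h x)⁻¹ * inner ℝ x u' = h u') :
    u = u' := by
  have hx0 : x ≠ 0 := by
    rintro rfl
    simp at hx
  have hg : 0 < gau h x := (gau_SL hn hp).pos x hx0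
  have key : ∀ u : E n, ‖u‖ = 1 → (gau h x)⁻¹ * inner ℝ x u = h u →
      ∀ v, h u * fderiv ℝ (gau h) x v = inner ℝ v u := by
    intro u hu h1 v
    have h2 : IsLocalMin (fun y => gau h y * h u - inner ℝ u y) x := by
      refine Filter.Eventually.of_forall fun y => ?_
      have h3 := gau_le hn hp y u
      have h4 : gau h x * h u - inner ℝ u x = 0 := by
        rw [← h1, ← mul_assoc, mul_inv_cancel₀ hg.ne', one_mul, real_inner_comm, sub_self]
      change gau h x * h u - inner ℝ u x ≤ gau h y * h u - inner ℝ u y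
      rw [h4, real_inner_comm]
      linarith
    have h3 : HasFDerivAt (fun y => gau h y * h u - inner ℝ u y)
        ((h u) • fderiv ℝ (gau h) x - innerSL ℝ u) x :=
      HasFDerivAt.sub (hd.hasFDerivAt.mul_const (h u)) (innerSL ℝ u).hasFDerivAt
    have h4 := h2.hasFDerivAt_eq_zero h3
    have h5 := congrArg (fun L : E n →L[ℝ] ℝ => L v) h4
    change h u * fderiv ℝ (gau h) x v - inner ℝ u v = 0 at h5
    rw [real_inner_comm]
    linarith
  have hpu : 0 < h u := hp.pos u (by rintro rfl; simp at hu)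
  have hpu' : 0 < h u' := hp.pos u' (by rintro rfl; simp at hu')
  have k1 := key u hu h1
  have k2 := key u' hu' h1'
  have h3 : h u' • u = h u • u' := by
    refine ext_inner_left ℝ fun v => ?_
    rw [inner_smul_right, inner_smul_right, ← k1, ← k2]
    ring
  have h4 : h u' = h u := by
    have h5 := congrArg norm h3
    rw [norm_smul, norm_smul, hu, hu', mul_one, mul_one, Real.norm_of_nonneg hpu.le,
      Real.norm_of_nonneg hpu'.le] at h5
    exact h5
  rw [h4] at h3
  exact smul_right_injective _ hpu.ne' h3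

/-- Lipschitz bound -/
theorem dif_lip (hn : 1 ≤ n) {h φ : E n → ℝ} {s0 m C : ℝ} (hm : 0 < m) (hC : 0 < C)
    (hk : ∀ s, |s| ≤ s0 → P1 (fun x => h x + s * φ x) ∧
        ∀ x, ‖x‖ = 1 → m ≤ h x + s * φ x ∧ h x + s * φ x ≤ C) {x : E n} (hx : ‖x‖ = 1)
    {s : ℝ} (hs : |s| ≤ s0) :
    m ≤ (gau (fun x => h x + s * φ x) x)⁻¹ ∧ (gau (fun x => h x + s * φ x) x)⁻¹ ≤ C ∧
    (∀ u : E n, ‖u‖ = 1 → (gau (fun x => h x + s * φ x) x)⁻¹ * inner ℝ x u = h u + s * φ u →
      m / C ≤ inner ℝ x u) := by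
  obtain ⟨hp, hb⟩ := hk s hs
  obtain ⟨h1, h2, u, hu, h3⟩ := dif_rho hn hp hx
  have h4 : (gau (fun x => h x + s * φ x) x)⁻¹ ≤ C := by
    have h5 := h2 x
    rw [real_inner_self_eq_norm_sq, hx, one_pow, mul_one] at h5
    exact h5.trans (hb x hx).2
  refine ⟨?_, h4, ?_⟩
  · have h5 := (le_abs_self _).trans (dif_inner_le hx hu)
    have h6 := (hb u hu).1
    have h3' : (gau (fun x => h x + s * φ x) x)⁻¹ * inner ℝ x u = h u + s * φ u := h3
    rw [← h3'] at h6
    exact h6.trans (mul_le_of_le_one_right h1.le h5)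
  · intro u hu h3
    have h6 := (hb u hu).1
    rw [← h3] at h6
    have h7 : 0 < inner ℝ x u := by
      by_contra hneg
      rw [not_lt] at hneg
      have := mul_nonpos_of_nonneg_of_nonpos h1.le hneg
      linarith
    rw [div_le_iff₀ hC, mul_comm]
    exact h6.trans (mul_le_mul_of_nonneg_right h4 h7.le)

theorem dif_one (hn : 1 ≤ n) {h φ : E n → ℝ} {s0 m B C : ℝ} (hm : 0 < m) (hC : 0 < C)
    (hB : 0 ≤ B) (hB' : ∀ x : E n, ‖x‖ = 1 → |φ x| ≤ B)
    (hk : ∀ s, |s| ≤ s0 → P1 (fun x => h x + s * φ x) ∧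
        ∀ x, ‖x‖ = 1 → m ≤ h x + s * φ x ∧ h x + s * φ x ≤ C) {x : E n} (hx : ‖x‖ = 1)
    {s t : ℝ} (hs : |s| ≤ s0) (ht : |t| ≤ s0) :
    (gau (fun x => h x + t * φ x) x)⁻¹ - (gau (fun x => h x + s * φ x) x)⁻¹ ≤
      B * C / m * |t - s| := by
  obtain ⟨h1, h2, u, hu, h3⟩ := dif_rho hn (hk s hs).1 hx
  obtain ⟨g1, g2, -⟩ := dif_rho hn (hk t ht).1 hx
  have h4 := (dif_lip hn hm hC hk hx hs).2.2 u hu h3
  have h5 := g2 u
  set ρs := (gau (fun x => h x + s * φ x) x)⁻¹
  set ρt := (gau (fun x => h x + t * φ x) x)⁻¹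
  have h6 : (ρt - ρs) * inner ℝ x u ≤ |t - s| * B := by
    have h7 : (t - s) * φ u ≤ |t - s| * B := by
      refine (le_abs_self _).trans ?_
      rw [abs_mul]
      exact mul_le_mul_of_nonneg_left (hB' u hu) (abs_nonneg _)
    have h3' : ρs * inner ℝ x u = h u + s * φ u := h3
    have h5' : ρt * inner ℝ x u ≤ h u + t * φ u := h5
    linarith
  have hmC : 0 < m / C := by positivity
  have h8 : 0 < inner ℝ x u := lt_of_lt_of_le hmC h4
  rcases le_or_gt (ρt - ρs) 0 with h9 | h9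
  · exact h9.trans (by positivity)
  · have h10 : (ρt - ρs) * (m / C) ≤ |t - s| * B :=
      (mul_le_mul_of_nonneg_left h4 h9.le).trans h6
    have h11 : ρt - ρs = (ρt - ρs) * (m / C) * (C / m) := by
      field_simp
    rw [h11]
    calc (ρt - ρs) * (m / C) * (C / m) ≤ |t - s| * B * (C / m) :=
          mul_le_mul_of_nonneg_right h10 (by positivity)
      _ = B * C / m * |t - s| := by ring

theorem dif_deriv (hn : 1 ≤ n) {h φ : E n → ℝ} (hp : P1 h) (hφ : H1 φ) {s0 m B C : ℝ}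
    (h0 : 0 < s0) (hm : 0 < m) (hC : 0 < C)
    (hB : 0 ≤ B) (hB' : ∀ x : E n, ‖x‖ = 1 → |φ x| ≤ B)
    (hk : ∀ s, |s| ≤ s0 → P1 (fun x => h x + s * φ x) ∧
        ∀ x, ‖x‖ = 1 → m ≤ h x + s * φ x ∧ h x + s * φ x ≤ C) {x : E n} (hx : ‖x‖ = 1)
    (hd : DifferentiableAt ℝ (gau h) x) :
    ∃ D : ℝ, HasDerivAt (fun s : ℝ => (gau (fun x => h x + s * φ x) x)⁻¹) D 0 := by
  have hk0 : (fun y => h y + 0 * φ y) = h := by
    funext y
    ring
  have h00 : |(0 : ℝ)| ≤ s0 := by rw [abs_zero]; exact h0.le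
  set ρ : ℝ → ℝ := fun s => (gau (fun x => h x + s * φ x) x)⁻¹ with hρ
  have hρ0 : ρ 0 = (gau h x)⁻¹ := by
    rw [hρ]
    simp only [hk0]
  have hex : ∀ s, ∃ u : E n, |s| ≤ s0 → ‖u‖ = 1 ∧ ρ s * inner ℝ x u = h u + s * φ u := by
    intro s
    by_cases hs : |s| ≤ s0
    · obtain ⟨-, -, u, hu, h3⟩ := dif_rho hn (hk s hs).1 hx
      exact ⟨u, fun _ => ⟨hu, h3⟩⟩
    · exact ⟨0, fun h => absurd h hs⟩
  choose u hu using hex
  have hev : ∀ᶠ s : ℝ in 𝓝 0, |s| ≤ s0 := by
    have h1 : Tendsto (fun s : ℝ => |s|) (𝓝 0) (𝓝 |(0 : ℝ)|) := continuous_abs.continuousAt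
    rw [abs_zero] at h1
    exact (h1.eventually_lt_const h0).mono fun s hs => hs.le
  have hlip : ∀ s, |s| ≤ s0 → |ρ s - ρ 0| ≤ B * C / m * |s| := by
    intro s hs
    have h1 := dif_one hn hm hC hB hB' hk hx h00 hs
    have h2 := dif_one hn hm hC hB hB' hk hx hs h00
    rw [sub_zero] at h1
    rw [zero_sub, abs_neg] at h2
    rw [abs_le]
    constructor
    · change -(B * C / m * |s|) ≤ ρ s - ρ 0
      have h2' : ρ 0 - ρ s ≤ B * C / m * |s| := h2
      linarith
    · exact h1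
  have hu0 := hu 0 h00
  have hu0' : (gau h x)⁻¹ * inner ℝ x (u 0) = h (u 0) := by
    rw [← hρ0, hu0.2]
    ring
  -- convergence of the maximisers
  have hlim : Tendsto u (𝓝 0) (𝓝 (u 0)) := by
    refine (isCompact_sphere (0 : E n) 1).tendsto_nhds_of_unique_mapClusterPt ?_ ?_
    · filter_upwards [hev] with s hs
      rw [mem_sphere_zero_iff_norm]
      exact (hu s hs).1
    · intro v hv hcl
      have hv1 : ‖v‖ = 1 := mem_sphere_zero_iff_norm.1 hv
      have hQ : h v - ρ 0 * inner ℝ x v = 0 := by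
        by_contra hne
        have hpos : 0 < |h v - ρ 0 * inner ℝ x v| / 2 := by positivity
        have hcont : ContinuousAt (fun w => |h w - ρ 0 * inner ℝ x w|) v := by
          have hc := hp.cont
          fun_prop
        have e1 : ∀ᶠ w in 𝓝 v, |h v - ρ 0 * inner ℝ x v| / 2 < |h w - ρ 0 * inner ℝ x w| := by
          refine hcont.tendsto.eventually_const_lt ?_
          linarith [abs_nonneg (h v - ρ 0 * inner ℝ x v)]
        have e2 := hcl.frequently e1
        have e3 : ∀ᶠ s : ℝ in 𝓝 0, (B * C / m + B) * |s| < |h v - ρ 0 * inner ℝ x v| / 2 := by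
          have h1 : Tendsto (fun s : ℝ => (B * C / m + B) * |s|) (𝓝 0)
              (𝓝 ((B * C / m + B) * |(0 : ℝ)|)) :=
            (continuous_const.mul continuous_abs).continuousAt
          rw [abs_zero, mul_zero] at h1
          exact h1.eventually_lt_const hpos
        obtain ⟨s, h1, h2, h3⟩ := (e2.and_eventually (e3.and hev)).exists
        obtain ⟨g1, g2⟩ := hu s h3
        have g3 : h (u s) - ρ 0 * inner ℝ x (u s) =
            (ρ s - ρ 0) * inner ℝ x (u s) - s * φ (u s) := by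
          linear_combination -g2
        rw [g3] at h1
        have g4 : |(ρ s - ρ 0) * inner ℝ x (u s) - s * φ (u s)| ≤ (B * C / m + B) * |s| := by
          refine (abs_sub _ _).trans ?_
          rw [abs_mul, abs_mul]
          have g5 : |ρ s - ρ 0| * |inner ℝ x (u s)| ≤ B * C / m * |s| :=
            (mul_le_of_le_one_right (abs_nonneg _) (dif_inner_le hx g1)).trans (hlip s h3)
          have g6 : |s| * |φ (u s)| ≤ |s| * B :=
            mul_le_mul_of_nonneg_left (hB' _ g1) (abs_nonneg _)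
          linarith
        linarith
      refine dif_unique hn hp hx hd hv1 hu0.1 ?_ hu0'
      rw [← hρ0]
      linarith
  -- the derivative
  have hin : 0 < inner ℝ x (u 0) := by
    have h1 := (dif_lip hn hm hC hk hx h00).2.2 (u 0) hu0.1 hu0.2
    exact lt_of_lt_of_le (by positivity) h1
  refine ⟨φ (u 0) / inner ℝ x (u 0), ?_⟩
  have hDt : Tendsto (fun s => φ (u s) / inner ℝ x (u s)) (𝓝 0)
      (𝓝 (φ (u 0) / inner ℝ x (u 0))) := by
    refine Tendsto.div ?_ ?_ hin.ne'
    · exact (hφ.cont.tendsto _).comp hlim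
    · have hc : Continuous (fun w : E n => (inner ℝ x w : ℝ)) := by fun_prop
      exact (hc.tendsto _).comp hlim
  rw [hasDerivAt_iff_isLittleO, Asymptotics.isLittleO_iff]
  intro c hc
  have e1 : ∀ᶠ s : ℝ in 𝓝 0, |φ (u s) / inner ℝ x (u s) - φ (u 0) / inner ℝ x (u 0)| < c := by
    have h1 := (hDt.sub_const (φ (u 0) / inner ℝ x (u 0))).abs
    rw [sub_self, abs_zero] at h1
    exact h1.eventually_lt_const hc
  filter_upwards [e1, hev] with s h1 hs
  obtain ⟨g1, g2⟩ := hu s hs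
  have hins : 0 < inner ℝ x (u s) := by
    have h1 := (dif_lip hn hm hC hk hx hs).2.2 (u s) g1 g2
    exact lt_of_lt_of_le (by positivity) h1
  have up : ρ s - ρ 0 ≤ s * (φ (u 0) / inner ℝ x (u 0)) := by
    have h2 := (dif_rho hn (hk s hs).1 hx).2.1 (u 0)
    have h2' : ρ s * inner ℝ x (u 0) ≤ h (u 0) + s * φ (u 0) := h2
    have h3 : ρ 0 * inner ℝ x (u 0) = h (u 0) := by rw [hρ0]; exact hu0'
    rw [← mul_div_assoc, le_div_iff₀ hin]
    linarith
  have lo : s * (φ (u s) / inner ℝ x (u s)) ≤ ρ s - ρ 0 := by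
    have h2 := (dif_rho hn (hk 0 h00).1 hx).2.1 (u s)
    have h2' : ρ 0 * inner ℝ x (u s) ≤ h (u s) + 0 * φ (u s) := h2
    rw [← mul_div_assoc, div_le_iff₀ hins]
    linarith
  rw [sub_zero, smul_eq_mul, Real.norm_eq_abs, Real.norm_eq_abs]
  have h3 : |s * (φ (u s) / inner ℝ x (u s)) - s * (φ (u 0) / inner ℝ x (u 0))| ≤ c * |s| := by
    rw [← mul_sub, abs_mul, mul_comm c]
    exact mul_le_mul_of_nonneg_left h1.le (abs_nonneg _)
  refine le_trans ?_ h3
  rw [abs_le]
  have h4 := neg_abs_le (s * (φ (u s) / inner ℝ x (u s)) - s * (φ (u 0) / inner ℝ x (u 0)))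
  constructor
  · linarith
  · have h5 : ρ s - ρ 0 - s * (φ (u 0) / inner ℝ x (u 0)) ≤ 0 := by linarith
    exact h5.trans (abs_nonneg _)

theorem dif_ae (hn : 1 ≤ n) {h : E n → ℝ} (hp : P1 h) :
    ∀ᵐ x ∂(mu n), DifferentiableAt ℝ (gau h) x := by
  have hS := gau_SL hn hp
  refine mu_null_of_cone hn _ (measurableSet_of_differentiableAt ℝ (gau h)) ?_ ?_
  · intro t ht x hd
    have h1 : gau h = fun y => t⁻¹ * gau h (t • y) := by
      funext y
      rw [hS.hom t ht.le, ← mul_assoc, inv_mul_cancel₀ ht.ne', one_mul]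
    have h2 : DifferentiableAt ℝ (fun y : E n => t • y) x := differentiableAt_id.const_smul t
    have h3 : DifferentiableAt ℝ (fun y => gau h (t • y)) x :=
      DifferentiableAt.comp (g := gau h) x hd h2
    exact (h3.const_mul t⁻¹).congr_of_eventuallyEq
      (Filter.Eventually.of_forall fun y => congrFun h1 y)
  · obtain ⟨C, hC, hC'⟩ := dif_bd (φ := gau h) ⟨hS.hom, hS.p1.cont⟩
    have hL : LipschitzWith (Real.toNNReal C) (gau h) := by
      refine LipschitzWith.of_dist_le_mul fun x y => ?_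
      rw [Real.coe_toNNReal C hC, dist_eq_norm, dist_eq_norm, Real.norm_eq_abs, abs_le]
      have h1 := hS.sub (x - y) y
      have h2 := hS.sub (y - x) x
      rw [sub_add_cancel] at h1 h2
      have h3 := (le_abs_self _).trans (hC' (x - y))
      have h4 := (le_abs_self _).trans (hC' (y - x))
      rw [norm_sub_rev] at h4
      constructor <;> linarith
    exact hL.ae_differentiableAt

theorem vv_diff (hn : 1 ≤ n) {h : E n → ℝ} (hh : SL h) {φ : E n → ℝ} (hφ : H1 φ) :
    ∃ D : ℝ, HasDerivAt (fun s : ℝ => vv (fun x => h x + s * φ x)) D 0 := by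
  obtain ⟨s0, m, B, C, h0, hm, hB, hC, hB', hk⟩ := dif_data hn hh hφ
  have hp := hh.p1
  have h00 : |(0 : ℝ)| ≤ s0 := by rw [abs_zero]; exact h0.le
  have := mu_prob hn
  set F : ℝ → E n → ℝ := fun s x => (gau (fun y => h y + s * φ y) x ^ n)⁻¹ with hF
  have hFρ : ∀ s x, F s x = ((gau (fun y => h y + s * φ y) x)⁻¹) ^ n := by
    intro s x
    rw [hF]
    simp only [inv_pow]
  have hmeas : ∀ s, |s| ≤ s0 → AEStronglyMeasurable (F s) (mu n) := by
    intro s hs
    have h1 := (gau_SL hn (hk s hs).1).p1.cont.measurable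
    exact (h1.pow_const n).inv.aestronglyMeasurable
  have hdiff : ∀ᵐ x ∂(mu n), HasDerivAt (fun s => F s x) (deriv (fun s => F s x) 0) 0 := by
    filter_upwards [mu_ae hn, dif_ae hn hp] with x hx hd
    obtain ⟨D, hD⟩ := dif_deriv hn hp hφ h0 hm hC hB hB' hk hx hd
    have h1 := hD.pow n
    have h2 : DifferentiableAt ℝ (fun s => F s x) 0 := by
      have h3 : (fun s => F s x) = fun s => ((gau (fun y => h y + s * φ y) x)⁻¹) ^ n := by
        funext s
        exact hFρ s x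
      rw [h3]
      exact h1.differentiableAt
    exact h2.hasDerivAt
  have hint : Integrable (F 0) (mu n) := by
    refine integrable_mu hn ?_
    have h1 := (gau_SL hn (hk 0 h00).1)
    refine ContinuousOn.inv₀ (h1.p1.cont.pow n).continuousOn ?_
    intro x hx
    have hx1 : ‖x‖ = 1 := mem_sphere_zero_iff_norm.1 hx
    have hx0 : x ≠ 0 := by
      rintro rfl
      simp at hx1
    exact (pow_pos (h1.pos x hx0) n).ne'
  have hF'm : AEStronglyMeasurable (fun x => deriv (fun s => F s x) 0) (mu n) := by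
    set t : ℕ → ℝ := fun j => s0 / ((j : ℝ) + 1) with ht
    have ht1 : ∀ j, 0 < t j := fun j => by positivity
    have ht2 : ∀ j, |t j| ≤ s0 := fun j => by
      rw [abs_of_pos (ht1 j)]
      refine div_le_self h0.le ?_
      have : (0 : ℝ) ≤ j := Nat.cast_nonneg j
      linarith
    have ht3 : Tendsto t atTop (𝓝[≠] 0) := by
      rw [tendsto_nhdsWithin_iff]
      refine ⟨?_, Filter.Eventually.of_forall fun j => (ht1 j).ne'⟩
      have h1 := (tendsto_one_div_add_atTop_nhds_zero_nat (𝕜 := ℝ)).const_mul s0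
      rw [mul_zero] at h1
      refine h1.congr fun j => ?_
      rw [ht]
      ring
    refine aestronglyMeasurable_of_tendsto_ae atTop
      (f := fun j x => (t j)⁻¹ • (F (0 + t j) x - F 0 x)) (fun j => ?_) ?_
    · rw [zero_add]
      exact ((hmeas _ (ht2 j)).sub (hmeas _ h00)).const_mul ((t j)⁻¹)
    · filter_upwards [hdiff] with x hx
      exact (hasDerivAt_iff_tendsto_slope_zero.1 hx).comp ht3
  have hlip : ∀ᵐ x ∂(mu n), LipschitzOnWith
      (Real.nnabs (B * C / m * n * C ^ (n - 1))) (fun s => F s x) (Icc (-s0) s0) := by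
    filter_upwards [mu_ae hn] with x hx
    refine LipschitzOnWith.of_dist_le_mul fun s hs t ht => ?_
    have hs' : |s| ≤ s0 := abs_le.2 hs
    have ht' : |t| ≤ s0 := abs_le.2 ht
    rw [Real.dist_eq, Real.dist_eq, hFρ, hFρ, Real.coe_nnabs,
      abs_of_nonneg (by positivity : 0 ≤ B * C / m * n * C ^ (n - 1))]
    obtain ⟨a1, a2, -⟩ := dif_lip hn hm hC hk hx hs'
    obtain ⟨b1, b2, -⟩ := dif_lip hn hm hC hk hx ht'
    have h1 := dif_one hn hm hC hB hB' hk hx hs' ht'
    have h2 := dif_one hn hm hC hB hB' hk hx ht' hs'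
    rw [abs_sub_comm] at h1
    set a := (gau (fun y => h y + s * φ y) x)⁻¹
    set b := (gau (fun y => h y + t * φ y) x)⁻¹
    have h3 : |a - b| ≤ B * C / m * |s - t| := by
      rw [abs_le]
      constructor <;> linarith
    have h4 : max |a| |b| ≤ C := by
      rw [abs_of_pos (lt_of_lt_of_le hm a1), abs_of_pos (lt_of_lt_of_le hm b1)]
      exact max_le a2 b2
    refine (abs_pow_sub_pow_le a b n).trans ?_
    calc |a - b| * n * max |a| |b| ^ (n - 1) ≤ B * C / m * |s - t| * n * C ^ (n - 1) := by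
          refine mul_le_mul (mul_le_mul_of_nonneg_right h3 (Nat.cast_nonneg n))
            (pow_le_pow_left₀ (le_max_of_le_left (abs_nonneg _)) h4 _) (by positivity)
            (by positivity)
      _ = B * C / m * n * C ^ (n - 1) * |s - t| := by ring
  have hres := hasDerivAt_integral_of_dominated_loc_of_lip (μ := mu n) (F := F) (x₀ := (0 : ℝ))
    (bound := fun _ => B * C / m * n * C ^ (n - 1)) (s := Icc (-s0) s0)
    (Icc_mem_nhds (by linarith) h0) ?_ hint hF'm hlip (integrable_const _) hdiff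
  · exact ⟨_, hres.2⟩
  · filter_upwards [Icc_mem_nhds (by linarith : -s0 < 0) h0] with s hs
    exact hmeas s (abs_le.2 hs)

end Pool.Agent.H35.CA
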