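import Pool.Agent.H35.CA.SphA

/-!
# Job GAUA: sublinear functions and gauges

Proof hints.
`SL.p1`: a sublinear function is convex, hence continuous on a finite-dimensional space
(`ConvexOn.continuousOn` on `univ`), or directly: `h` is bounded on the unit sphere by
subadditivity in coordinates, then `|h x - h y| ≤ max (h (x-y)) (h (y-x))`.
`gau_le`, `gau_att`: the quotient `⟨x,u⟩ / k u` is continuous on the (compact, nonempty as
`1 ≤ n`) unit sphere; so the supremum is attained.  For `u = 0` both sides vanish; for `u ≠ 0`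
use homogeneity in `u`.
`gau_SL`: positivity: take `u = x / ‖x‖`.
`gau_gau` (bipolar): `≤` is `gau_le`.  For `≥`: fix `u ≠ 0`.  By the Hahn-Banach theorem
(`exists_extension_of_le_sublinear`) there is a linear functional, i.e. a vector `x`, with
`⟨x,v⟩ ≤ h v` for all `v` and `⟨x,u⟩ = h u`.  Then `gau h x ≤ 1` and
`h u = ⟨x,u⟩ ≤ gau h x * gau (gau h) u ≤ gau (gau h) u` (`x ≠ 0` since `h u > 0`).
-/

namespace Pool.Agent.H35.CA

open MeasureTheory Metric Set

variable {n : ℕ}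

theorem gaua_hom0 {k : E n → ℝ} (hom : ∀ t : ℝ, 0 ≤ t → ∀ x, k (t • x) = t * k x) :
    k 0 = 0 := by
  have := hom 0 le_rfl 0
  simpa using this

theorem gaua_unit (x : E n) (hx : x ≠ 0) : ‖(‖x‖⁻¹ • x)‖ = 1 := by
  rw [norm_smul, norm_inv, norm_norm, inv_mul_cancel₀ (norm_ne_zero_iff.mpr hx)]

theorem gaua_scale {k : E n → ℝ} (hom : ∀ t : ℝ, 0 ≤ t → ∀ x, k (t • x) = t * k x) (x : E n)
    (hx : x ≠ 0) : k x = ‖x‖ * k (‖x‖⁻¹ • x) := by
  rw [← hom _ (norm_nonneg x), smul_smul, mul_inv_cancel₀ (norm_ne_zero_iff.mpr hx), one_smul]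

theorem SL.p1 {h : E n → ℝ} (hh : SL h) : P1 h := by
  refine ⟨hh.hom, ?_, hh.pos⟩
  have hc : ConvexOn ℝ univ h := by
    refine ⟨convex_univ, ?_⟩
    intro x _ y _ a b ha hb _
    calc h (a • x + b • y) ≤ h (a • x) + h (b • y) := hh.sub _ _
      _ = a • h x + b • h y := by rw [hh.hom a ha, hh.hom b hb]; rfl
  have := hc.continuousOn isOpen_univ
  exact continuousOn_univ.mp this

theorem Near.bound {k : E n → ℝ} {δ : ℝ} (hk : P1 k) (hN : Near δ k) (x : E n) :
    (1 - δ) * ‖x‖ ≤ k x ∧ k x ≤ (1 + δ) * ‖x‖ := by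
  by_cases hx : x = 0
  · subst hx
    rw [gaua_hom0 hk.hom]
    simp
  · have h1 := hN _ (gaua_unit x hx)
    rw [abs_le] at h1
    have h2 : 0 ≤ ‖x‖ := norm_nonneg x
    rw [gaua_scale hk.hom x hx]
    constructor <;> nlinarith

theorem SL.lip {h : E n → ℝ} {δ : ℝ} (hh : SL h) (hN : Near δ h) (x y : E n) :
    |h x - h y| ≤ (1 + δ) * ‖x - y‖ := by
  have key : ∀ a b : E n, h a - h b ≤ (1 + δ) * ‖a - b‖ := by
    intro a b
    have h1 : h a ≤ h (a - b) + h b := by
      have := hh.sub (a - b) b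
      rwa [sub_add_cancel] at this
    have h2 := (Near.bound hh.p1 hN (a - b)).2
    linarith
  rw [abs_le]
  constructor
  · have := key y x
    rw [norm_sub_rev] at this
    linarith
  · exact key x y

/-- A subadditive, positively homogeneous function which is within `δ < 1` of the norm is
sublinear and positive. -/
theorem SL_of_near {h : E n → ℝ} {δ : ℝ} (hδ : δ < 1)
    (hom : ∀ t : ℝ, 0 ≤ t → ∀ x, h (t • x) = t * h x) (hsub : ∀ x y, h (x + y) ≤ h x + h y)
    (hN : Near δ h) : SL h := by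
  refine ⟨hom, hsub, ?_⟩
  intro x hx
  have h1 := hN _ (gaua_unit x hx)
  rw [abs_le] at h1
  rw [gaua_scale hom x hx]
  have h2 : 0 < ‖x‖ := norm_pos_iff.mpr hx
  have h3 : 0 < h (‖x‖⁻¹ • x) := by linarith
  positivity

theorem P1_of_near {h : E n → ℝ} {δ : ℝ} (hδ : δ < 1) (hh : H1 h) (hN : Near δ h) : P1 h := by
  refine ⟨hh.hom, hh.cont, ?_⟩
  intro x hx
  have h1 := hN _ (gaua_unit x hx)
  rw [abs_le] at h1
  rw [gaua_scale hh.hom x hx]
  have h2 : 0 < ‖x‖ := norm_pos_iff.mpr hx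
  have h3 : 0 < h (‖x‖⁻¹ • x) := by linarith
  positivity

theorem gaua_nonempty (hn : 1 ≤ n) : Nonempty (sphere (0 : E n) 1) := by
  refine ⟨⟨EuclideanSpace.single (⟨0, by omega⟩ : Fin n) (1 : ℝ), ?_⟩⟩
  simp

theorem gaua_max (hn : 1 ≤ n) {k : E n → ℝ} (hk : P1 k) (x : E n) :
    ∃ u : sphere (0 : E n) 1, ∀ v : sphere (0 : E n) 1,
      inner ℝ x (v : E n) / k (v : E n) ≤ inner ℝ x (u : E n) / k (u : E n) := by
  haveI := gaua_nonempty hn
  have hc : Continuous (fun u : sphere (0 : E n) 1 => inner ℝ x (u : E n) / k (u : E n)) := by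
    refine Continuous.div ?_ ?_ ?_
    · fun_prop
    · exact hk.cont.comp continuous_subtype_val
    · intro u
      exact (hk.pos u (ne_zero_of_mem_unit_sphere u)).ne'
  obtain ⟨u, -, hu⟩ := isCompact_univ.exists_isMaxOn univ_nonempty hc.continuousOn
  exact ⟨u, fun v => hu (mem_univ v)⟩

theorem gaua_bdd (hn : 1 ≤ n) {k : E n → ℝ} (hk : P1 k) (x : E n) :
    BddAbove (range (fun u : sphere (0 : E n) 1 => inner ℝ x (u : E n) / k (u : E n))) := by
  obtain ⟨u, hu⟩ := gaua_max hn hk x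
  refine ⟨inner ℝ x (u : E n) / k (u : E n), ?_⟩
  rintro _ ⟨v, rfl⟩
  exact hu v

theorem gau_le (hn : 1 ≤ n) {k : E n → ℝ} (hk : P1 k) (x u : E n) :
    inner ℝ x u ≤ gau k x * k u := by
  by_cases hu : u = 0
  · subst hu
    rw [gaua_hom0 hk.hom]
    simp
  · have h1 := gaua_unit u hu
    have h2 : inner ℝ x (‖u‖⁻¹ • u) / k (‖u‖⁻¹ • u) ≤ gau k x := by
      have := le_ciSup (gaua_bdd hn hk x) ⟨‖u‖⁻¹ • u, by simpa using h1⟩
      exact this
    have h3 : 0 < k (‖u‖⁻¹ • u) := by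
      apply hk.pos
      intro h
      rw [h, norm_zero] at h1
      exact zero_ne_one h1
    rw [div_le_iff₀ h3, inner_smul_right] at h2
    have h4 : 0 < ‖u‖ := norm_pos_iff.mpr hu
    rw [gaua_scale hk.hom u hu]
    have h5 : ‖u‖ * (‖u‖⁻¹ * inner ℝ x u) ≤ ‖u‖ * (gau k x * k (‖u‖⁻¹ • u)) :=
      mul_le_mul_of_nonneg_left h2 h4.le
    rw [← mul_assoc, mul_inv_cancel₀ h4.ne', one_mul] at h5
    calc inner ℝ x u ≤ ‖u‖ * (gau k x * k (‖u‖⁻¹ • u)) := h5
      _ = gau k x * (‖u‖ * k (‖u‖⁻¹ • u)) := by ring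

theorem gau_att (hn : 1 ≤ n) {k : E n → ℝ} (hk : P1 k) (x : E n) :
    ∃ u : E n, ‖u‖ = 1 ∧ inner ℝ x u = gau k x * k u := by
  haveI := gaua_nonempty hn
  obtain ⟨u, hu⟩ := gaua_max hn hk x
  refine ⟨(u : E n), by simp, ?_⟩
  have h1 : gau k x = inner ℝ x (u : E n) / k (u : E n) := by
    apply le_antisymm
    · exact ciSup_le hu
    · exact le_ciSup (gaua_bdd hn hk x) u
  have h2 : 0 < k (u : E n) := hk.pos u (ne_zero_of_mem_unit_sphere u)
  rw [h1, div_mul_cancel₀ _ h2.ne']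

/-- To bound the gauge from above. -/
theorem gau_le_of (hn : 1 ≤ n) {k : E n → ℝ} (hk : P1 k) {x : E n} {c : ℝ}
    (h : ∀ u : E n, ‖u‖ = 1 → inner ℝ x u ≤ c * k u) : gau k x ≤ c := by
  haveI := gaua_nonempty hn
  refine ciSup_le ?_
  intro u
  have h2 : 0 < k (u : E n) := hk.pos u (ne_zero_of_mem_unit_sphere u)
  rw [div_le_iff₀ h2]
  exact h u (by simp)

theorem gau_SL (hn : 1 ≤ n) {k : E n → ℝ} (hk : P1 k) : SL (gau k) := by
  refine ⟨?_, ?_, ?_⟩
  · intro t ht x
    rw [gau, gau, Real.mul_iSup_of_nonneg ht]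
    congr 1
    funext u
    rw [real_inner_smul_left, mul_div_assoc]
  · intro x y
    apply gau_le_of hn hk
    intro u _
    rw [inner_add_left, add_mul]
    exact add_le_add (gau_le hn hk x u) (gau_le hn hk y u)
  · intro x hx
    have h1 := gau_le hn hk x x
    rw [real_inner_self_eq_norm_sq] at h1
    have h2 : 0 < ‖x‖ ^ 2 := by
      have := norm_pos_iff.mpr hx
      positivity
    have h3 := hk.pos x hx
    by_contra hcon
    push Not at hcon
    nlinarith

theorem gaua_nonneg (hn : 1 ≤ n) {k : E n → ℝ} (hk : P1 k) (x : E n) : 0 ≤ gau k x := by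
  by_cases hx : x = 0
  · subst hx
    rw [gaua_hom0 (gau_SL hn hk).hom]
  · exact ((gau_SL hn hk).pos x hx).le

theorem mem_wulff (hn : 1 ≤ n) {k : E n → ℝ} (hk : P1 k) (x : E n) :
    x ∈ wulff k ↔ gau k x ≤ 1 := by
  constructor
  · intro h
    apply gau_le_of hn hk
    intro u hu
    rw [one_mul]
    exact h u hu
  · intro h u hu
    have h1 := gau_le hn hk x u
    have h2 : 0 < k u := by
      apply hk.pos
      intro h
      rw [h, norm_zero] at hu
      exact zero_ne_one hu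
    nlinarith

theorem gau_anti (hn : 1 ≤ n) {k l : E n → ℝ} (hk : P1 k) (hl : P1 l)
    (h : ∀ x, ‖x‖ = 1 → k x ≤ l x) (x : E n) : gau l x ≤ gau k x := by
  apply gau_le_of hn hl
  intro u hu
  exact (gau_le hn hk x u).trans (mul_le_mul_of_nonneg_left (h u hu) (gaua_nonneg hn hk x))

theorem gau_smul (hn : 1 ≤ n) {k : E n → ℝ} (hk : P1 k) {t : ℝ} (ht : 0 < t) (x : E n) :
    gau (fun y => t * k y) x = t⁻¹ * gau k x := by
  have _ := hn
  have _ := hk
  rw [gau, gau, Real.mul_iSup_of_nonneg (inv_nonneg.mpr ht.le)]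
  congr 1
  funext u
  rw [mul_comm t (k (u : E n)), ← div_div, div_eq_mul_inv _ t, mul_comm]

theorem gaua_norm_p1 : P1 (fun y : E n => ‖y‖) := by
  refine ⟨?_, continuous_norm, ?_⟩
  · intro t ht x
    rw [norm_smul, Real.norm_eq_abs, abs_of_nonneg ht]
  · intro x hx
    exact norm_pos_iff.mpr hx

theorem gau_norm (hn : 1 ≤ n) (x : E n) : gau (fun y : E n => ‖y‖) x = ‖x‖ := by
  apply le_antisymm
  · apply gau_le_of hn gaua_norm_p1
    intro u _
    exact real_inner_le_norm x u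
  · by_cases hx : x = 0
    · subst hx
      rw [norm_zero]
      exact gaua_nonneg hn gaua_norm_p1 0
    · have h1 := gau_le hn gaua_norm_p1 x x
      rw [real_inner_self_eq_norm_sq, pow_two] at h1
      exact le_of_mul_le_mul_right h1 (norm_pos_iff.mpr hx)

theorem hull_le (hn : 1 ≤ n) {k : E n → ℝ} (hk : P1 k) (x : E n) : gau (gau k) x ≤ k x := by
  apply gau_le_of hn (gau_SL hn hk).p1
  intro u _
  have := gau_le hn hk u x
  rw [real_inner_comm, mul_comm]
  exact this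

theorem gaua_hb {h : E n → ℝ} (hh : SL h) (u : E n) (hu : u ≠ 0) :
    ∃ x : E n, (∀ v, inner ℝ x v ≤ h v) ∧ inner ℝ x u = h u := by
  obtain ⟨g, hg1, hg2⟩ := exists_extension_of_le_sublinear
    (LinearPMap.mkSpanSingleton u (h u) hu) h
    (fun c hc x => hh.hom c hc.le x) hh.sub (by
      rintro ⟨y, hy⟩
      obtain ⟨c, rfl⟩ := Submodule.mem_span_singleton.mp hy
      have h0 : LinearPMap.mkSpanSingleton u (h u) hu ⟨c • u, hy⟩ = c * h u :=
        LinearPMap.mkSpanSingleton'_apply u (h u) _ c hy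
      rw [h0]
      change c * h u ≤ h (c • u)
      rcases le_total 0 c with hc | hc
      · rw [hh.hom c hc]
      · have h1 : 0 ≤ h (c • u) := by
          by_cases hcu : c • u = 0
          · rw [hcu, gaua_hom0 hh.hom]
          · exact (hh.pos _ hcu).le
        have h2 := hh.pos u hu
        nlinarith)
  refine ⟨(InnerProductSpace.toDual ℝ (E n)).symm (LinearMap.toContinuousLinearMap g), ?_, ?_⟩
  · intro v
    rw [InnerProductSpace.toDual_symm_apply]
    exact hg2 v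
  · rw [InnerProductSpace.toDual_symm_apply]
    have h3 := hg1 ⟨u, Submodule.mem_span_singleton_self u⟩
    have h4 := LinearPMap.mkSpanSingleton_apply ℝ ℝ (σ := RingHom.id ℝ) hu (h u)
    exact h3.trans h4

theorem gau_gau (hn : 1 ≤ n) {h : E n → ℝ} (hh : SL h) : gau (gau h) = h := by
  funext u
  apply le_antisymm
  · exact hull_le hn hh.p1 u
  · by_cases hu : u = 0
    · subst hu
      rw [gaua_hom0 hh.hom]
      exact gaua_nonneg hn (gau_SL hn hh.p1).p1 0
    · obtain ⟨x, hx1, hx2⟩ := gaua_hb hh u hu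
      have h1 : gau h x ≤ 1 := by
        apply gau_le_of hn hh.p1
        intro v _
        rw [one_mul]
        exact hx1 v
      have h2 := gau_le hn (gau_SL hn hh.p1).p1 u x
      rw [real_inner_comm, hx2] at h2
      have h3 := gaua_nonneg hn (gau_SL hn hh.p1).p1 u
      nlinarith

theorem le_hull (hn : 1 ≤ n) {k l : E n → ℝ} (hk : P1 k) (hl : SL l)
    (h : ∀ x, ‖x‖ = 1 → l x ≤ k x) (x : E n) : l x ≤ gau (gau k) x := by
  have h1 : ∀ y : E n, ‖y‖ = 1 → gau k y ≤ gau l y := fun y _ => gau_anti hn hl.p1 hk h y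
  have h2 := gau_anti hn (gau_SL hn hk).p1 (gau_SL hn hl.p1).p1 h1 x
  rwa [gau_gau hn hl] at h2

end Pool.Agent.H35.CA
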