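import Pool.Agent.H35.CA.SphB
import Pool.Agent.H35.CA.GauA

/-!
# Job GAUB: the normalised volume `vv`

Proof hints.  `wulff k = {gau k ≤ 1}` (`mem_wulff`) and `vol_sub` for `gau k`
(`gau_SL`, `SL.p1`) give `vol_wulff`.
`vv_mono`, `vv_smul`: from `gau_anti`, `gau_smul`.
`vv_near`: compare with `(1 ± δ) * ‖x‖`.
`vv_trans`: `wulff (h - ⟨z,·⟩)` is the translate of `wulff h` by `-z`; volume is translation
invariant.
`vv_lin`: `gau (h ∘ A) x = gau h (A' x)` where `A'` is the inverse of the adjoint of `A`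
(substitute `u ↦ A u`, both sides homogeneous), then `lin_cov` with `F = 1`, `g = gau h` and
the map `A'`, whose determinant is the inverse of that of `A`.
`vv_hull`: `gau (gau (gau k)) = gau k` by `gau_gau` applied to `gau k`.
`MM_lin`: with `k x = h (A x) - ⟨A* z, x⟩ = (h - ⟨z,·⟩) (A x)`; `A*` is the adjoint; use
`vv_trans`, `vv_lin`, and `lin_cov` with `g = h - ⟨z,·⟩`.
`GG_cont_bound`: pointwise `|a^(-n) - b^(-n)| ≤ n 4^(n+1) |a - b|` for `a, b ≥ 1/4`.
-/

namespace Pool.Agent.H35.CA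

open MeasureTheory Metric Set

variable {n : ℕ}

theorem gauB_wulff (hn : 1 ≤ n) {k : E n → ℝ} (hk : P1 k) : wulff k = {x | gau k x ≤ 1} := by
  ext x
  exact mem_wulff hn hk x

theorem gauB_ne {x : E n} (hx : ‖x‖ = 1) : x ≠ 0 := by
  intro h
  rw [h, norm_zero] at hx
  exact zero_ne_one hx

theorem gauB_ex (hn : 1 ≤ n) : ∃ x : E n, ‖x‖ = 1 := by
  have : Nonempty (Fin n) := ⟨⟨0, hn⟩⟩
  have hnt : Nontrivial (E n) := inferInstance
  exact exists_norm_eq (E n) zero_le_one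

theorem gauB_cont {g : E n → ℝ} (hg : P1 g) :
    ContinuousOn (fun x => (g x ^ n)⁻¹) (sphere (0 : E n) 1) := by
  refine ContinuousOn.inv₀ (hg.cont.continuousOn.pow n) ?_
  intro x hx
  have h1 : ‖x‖ = 1 := by simpa using hx
  exact (pow_pos (hg.pos x (gauB_ne h1)) n).ne'

theorem vol_wulff (hn : 1 ≤ n) {k : E n → ℝ} (hk : P1 k) :
    volume (wulff k) ≠ ⊤ ∧ (volume (wulff k)).toReal = om n * vv k := by
  rw [gauB_wulff hn hk]
  exact vol_sub hn (gau_SL hn hk).p1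

theorem vv_pos (hn : 1 ≤ n) {k : E n → ℝ} (hk : P1 k) : 0 < vv k := by
  have hg := (gau_SL hn hk).p1
  have h1 : ∀ x : E n, ‖x‖ = 1 → 0 < (gau k x ^ n)⁻¹ := fun x hx =>
    inv_pos.mpr (pow_pos (hg.pos x (gauB_ne hx)) n)
  have h2 : 0 ≤ vv k := by
    have h3 := int_mono hn (F := fun _ => 0) continuousOn_const (gauB_cont hg)
      (fun x hx => (h1 x hx).le)
    rwa [int_const hn] at h3
  refine lt_of_le_of_ne h2 (fun h => ?_)
  obtain ⟨x, hx⟩ := gauB_ex hn
  have h4 := mu_full hn (gauB_cont hg) (fun x hx => (h1 x hx).le) h.symm x hx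
  exact (h1 x hx).ne' h4

theorem vv_mono (hn : 1 ≤ n) {k l : E n → ℝ} (hk : P1 k) (hl : P1 l)
    (h : ∀ x, ‖x‖ = 1 → k x ≤ l x) : vv k ≤ vv l := by
  have hgk := (gau_SL hn hk).p1
  have hgl := (gau_SL hn hl).p1
  refine int_mono hn (gauB_cont hgk) (gauB_cont hgl) (fun x hx => ?_)
  have h1 := hgl.pos x (gauB_ne hx)
  exact inv_anti₀ (pow_pos h1 n) (pow_le_pow_left₀ h1.le (gau_anti hn hk hl h x) n)

theorem gauB_P1_smul {k : E n → ℝ} (hk : P1 k) {t : ℝ} (ht : 0 < t) : P1 (fun x => t * k x) := by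
  refine ⟨fun s hs x => ?_, hk.cont.const_mul t, fun x hx => mul_pos ht (hk.pos x hx)⟩
  rw [hk.hom s hs]
  ring

theorem gauB_P1_norm : P1 (fun x : E n => ‖x‖) := by
  refine ⟨fun s hs x => ?_, continuous_norm, fun x hx => norm_pos_iff.mpr hx⟩
  rw [norm_smul, Real.norm_of_nonneg hs]

theorem vv_smul (hn : 1 ≤ n) {k : E n → ℝ} (hk : P1 k) {t : ℝ} (ht : 0 < t) :
    vv (fun x => t * k x) = t ^ n * vv k := by
  unfold vv
  rw [← integral_const_mul]
  refine int_congr hn (fun x _ => ?_)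
  rw [gau_smul hn hk ht, mul_pow, mul_inv, inv_pow, inv_inv]

theorem vv_norm (hn : 1 ≤ n) : vv (fun x : E n => ‖x‖) = 1 := by
  unfold vv
  rw [int_congr hn (G := fun _ => 1) (fun x hx => ?_), int_const hn]
  rw [gau_norm hn, hx, one_pow, inv_one]

theorem vv_near (hn : 1 ≤ n) {k : E n → ℝ} (hk : P1 k) {δ : ℝ} (h0 : 0 ≤ δ) (h1 : δ < 1)
    (hN : Near δ k) : (1 - δ) ^ n ≤ vv k ∧ vv k ≤ (1 + δ) ^ n := by
  have ha : 0 < 1 - δ := by linarith
  have hb : 0 < 1 + δ := by linarith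
  constructor
  · have h2 := vv_mono hn (gauB_P1_smul gauB_P1_norm ha) hk (fun x hx => by
      have := abs_le.mp (hN x hx)
      rw [hx]
      linarith [this.1])
    rwa [vv_smul hn gauB_P1_norm ha, vv_norm hn, mul_one] at h2
  · have h2 := vv_mono hn hk (gauB_P1_smul gauB_P1_norm hb) (fun x hx => by
      have := abs_le.mp (hN x hx)
      rw [hx]
      linarith [this.2])
    rwa [vv_smul hn gauB_P1_norm hb, vv_norm hn, mul_one] at h2

/-- Continuity of `vv` for the uniform distance. -/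
theorem vv_close (hn : 1 ≤ n) {k l : E n → ℝ} (hk : P1 k) (hl : P1 l) {η : ℝ} (h0 : 0 ≤ η)
    (h1 : η ≤ 1 / 4) (hkN : Near (1 / 2) k) (h : ∀ x, ‖x‖ = 1 → |l x - k x| ≤ η) :
    (1 - 2 * η) ^ n * vv k ≤ vv l ∧ vv l ≤ (1 + 2 * η) ^ n * vv k := by
  have ha : 0 < 1 - 2 * η := by linarith
  have hb : 0 < 1 + 2 * η := by linarith
  constructor
  · have h2 := vv_mono hn (gauB_P1_smul hk ha) hl (fun x hx => by
      have h3 := abs_le.mp (h x hx)
      have h4 := abs_le.mp (hkN x hx)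
      nlinarith [h3.1, h4.1])
    rwa [vv_smul hn hk ha] at h2
  · have h2 := vv_mono hn hl (gauB_P1_smul hk hb) (fun x hx => by
      have h3 := abs_le.mp (h x hx)
      have h4 := abs_le.mp (hkN x hx)
      nlinarith [h3.2, h4.1])
    rwa [vv_smul hn hk hb] at h2

theorem gauB_P1_sub {h : E n → ℝ} (hh : P1 h) {z : E n}
    (hz : ∀ x, x ≠ 0 → inner ℝ z x < h x) : P1 (fun x => h x - inner ℝ z x) := by
  refine ⟨fun s hs x => ?_, hh.cont.sub (continuous_const.inner continuous_id), fun x hx => ?_⟩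
  · rw [hh.hom s hs, inner_smul_right]
    ring
  · have := hz x hx
    linarith

theorem vv_trans (hn : 1 ≤ n) {h : E n → ℝ} (hh : P1 h) {z : E n}
    (hz : ∀ x, x ≠ 0 → inner ℝ z x < h x) : vv (fun x => h x - inner ℝ z x) = vv h := by
  have h1 := (vol_wulff hn (gauB_P1_sub hh hz)).2
  have h2 := (vol_wulff hn hh).2
  have h3 : wulff (fun x => h x - inner ℝ z x) = (fun x => x + z) ⁻¹' (wulff h) := by
    ext x
    simp only [wulff, mem_preimage, mem_ofPred_eq]
    constructor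
    · intro h4 u hu
      have := h4 u hu
      rw [inner_add_left]
      linarith
    · intro h4 u hu
      have := h4 u hu
      rw [inner_add_left] at this
      linarith
  rw [h3, measure_preimage_add_right, h2] at h1
  exact (mul_left_cancel₀ (om_pos n).ne' h1).symm

theorem gauB_wulff_all {k : E n → ℝ} (hk : P1 k) (x : E n) :
    x ∈ wulff k ↔ ∀ u : E n, inner ℝ x u ≤ k u := by
  constructor
  · intro h u
    by_cases hu : u = 0
    · have h0 := hk.hom 0 le_rfl 0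
      rw [zero_smul, zero_mul] at h0
      rw [hu, inner_zero_right, h0]
    · have h1 := h (un u) (sphA_un_norm hu)
      unfold un at h1
      have hp := norm_pos_iff.mpr hu
      rw [hk.hom _ (inv_nonneg.mpr hp.le), inner_smul_right] at h1
      exact le_of_mul_le_mul_left h1 (inv_pos.mpr hp)
  · intro h u _
    exact h u

theorem gauB_P1_comp {h : E n → ℝ} (hh : P1 h) (A : E n ≃L[ℝ] E n) : P1 (fun x => h (A x)) := by
  refine ⟨fun t ht x => ?_, hh.cont.comp A.continuous, fun x hx => ?_⟩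
  · rw [map_smul, hh.hom t ht]
  · exact hh.pos _ (fun h => hx ((map_eq_zero_iff A A.injective).mp h))

theorem gauB_det_adj (f : E n →ₗ[ℝ] E n) : LinearMap.det (LinearMap.adjoint f) = LinearMap.det f := by
  have h := LinearMap.toMatrix_adjoint (EuclideanSpace.basisFun (Fin n) ℝ)
    (EuclideanSpace.basisFun (Fin n) ℝ) f
  rw [← LinearMap.det_toMatrix (EuclideanSpace.basisFun (Fin n) ℝ).toBasis (LinearMap.adjoint f), h,
    Matrix.det_conjTranspose, LinearMap.det_toMatrix]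
  exact star_trivial _

theorem vv_lin (hn : 1 ≤ n) {h : E n → ℝ} (hh : P1 h) (A : E n ≃L[ℝ] E n) :
    vv (fun x => h (A x)) = |(A : E n →L[ℝ] E n).det| * vv h := by
  have hk := gauB_P1_comp hh A
  have h1 := (vol_wulff hn hk).2
  have h2 := (vol_wulff hn hh).2
  set B : E n →ₗ[ℝ] E n := LinearMap.adjoint ((A.symm : E n ≃L[ℝ] E n) : E n →ₗ[ℝ] E n) with hB
  have h3 : wulff (fun x => h (A x)) = B ⁻¹' (wulff h) := by
    ext x
    rw [mem_preimage, gauB_wulff_all hk, gauB_wulff_all hh]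
    have h4 : ∀ u, inner ℝ (B x) u = inner ℝ x (A.symm u) := by
      intro u
      rw [hB, LinearMap.adjoint_inner_left]
      rfl
    constructor
    · intro h5 u
      rw [h4]
      have := h5 (A.symm u)
      rwa [A.apply_symm_apply] at this
    · intro h5 u
      have := h5 (A u)
      rwa [h4, A.symm_apply_apply] at this
  have hdA : LinearMap.det ((A : E n →L[ℝ] E n) : E n →ₗ[ℝ] E n) *
      LinearMap.det ((A.symm : E n ≃L[ℝ] E n) : E n →ₗ[ℝ] E n) = 1 := by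
    rw [← LinearMap.det_comp]
    have h5 : ((A : E n →L[ℝ] E n) : E n →ₗ[ℝ] E n) ∘ₗ
        ((A.symm : E n ≃L[ℝ] E n) : E n →ₗ[ℝ] E n) = LinearMap.id :=
      LinearMap.ext fun x => A.apply_symm_apply x
    rw [h5, LinearMap.det_id]
  have hdB : LinearMap.det B = (LinearMap.det ((A : E n →L[ℝ] E n) : E n →ₗ[ℝ] E n))⁻¹ := by
    rw [hB, gauB_det_adj]
    exact eq_inv_of_mul_eq_one_right hdA
  have hd0 : LinearMap.det ((A : E n →L[ℝ] E n) : E n →ₗ[ℝ] E n) ≠ 0 := left_ne_zero_of_mul_eq_one hdA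
  rw [h3, Measure.addHaar_preimage_linearMap _ (by rw [hdB]; exact inv_ne_zero hd0),
    ENNReal.toReal_mul, ENNReal.toReal_ofReal (abs_nonneg _), hdB, inv_inv, h2] at h1
  have h6 : om n * vv (fun x => h (A x)) = om n * (|(A : E n →L[ℝ] E n).det| * vv h) := by
    rw [← h1]
    change |LinearMap.det ((A : E n →L[ℝ] E n) : E n →ₗ[ℝ] E n)| * _ =
      om n * (|LinearMap.det ((A : E n →L[ℝ] E n) : E n →ₗ[ℝ] E n)| * vv h)
    ring
  exact mul_left_cancel₀ (om_pos n).ne' h6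

theorem vv_hull (hn : 1 ≤ n) {k : E n → ℝ} (hk : P1 k) : vv (gau (gau k)) = vv k := by
  unfold vv
  rw [gau_gau hn (gau_SL hn hk)]

/-- Invariance of the functional under linear maps (here for symmetric ones). -/
theorem MM_lin (hn : 1 ≤ n) {F h : E n → ℝ} (hF : H0 F) (hh : P1 h) (A : E n ≃L[ℝ] E n)
    (hA : ∀ x y, inner ℝ (A x) y = inner ℝ x (A y)) {z : E n}
    (hz : ∀ x, x ≠ 0 → inner ℝ z x < h x) :
    MM (fun x => F (A x)) (fun x => h (A x) - inner ℝ (A z) x) 0 = MM F h z := by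
  have hg := gauB_P1_sub hh hz
  have h1 : (fun x => h (A x) - inner ℝ (A z) x) =
      fun x => (fun y => h y - inner ℝ z y) (A x) := by
    funext x
    simp only
    rw [hA]
  have h2 := vv_lin hn hg A
  have h3 := lin_cov hn A hF hg
  have hd : |(A : E n →L[ℝ] E n).det| ≠ 0 := by
    rw [abs_ne_zero]
    exact (A.toLinearEquiv.isUnit_det').ne_zero
  unfold MM
  have h4 : GG (fun x => F (A x)) (fun x => h (A x) - inner ℝ (A z) x) 0 =
      |(A : E n →L[ℝ] E n).det|⁻¹ * GG F h z := by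
    unfold GG
    rw [h1]
    simp only [inner_zero_left, sub_zero]
    exact h3
  rw [h4, h1, h2, vv_trans hn hh hz]
  field_simp

theorem gauB_pow (m : ℕ) {p q : ℝ} (hp : 0 ≤ p) (hq : 0 ≤ q) (hp4 : p ≤ 4) (hq4 : q ≤ 4) :
    4 * |p ^ m - q ^ m| ≤ m * 4 ^ m * |p - q| := by
  induction m with
  | zero => simp
  | succ m ih =>
    have h1 : p ^ (m + 1) - q ^ (m + 1) = p * (p ^ m - q ^ m) + (p - q) * q ^ m := by ring
    have h2 : q ^ m ≤ 4 ^ m := pow_le_pow_left₀ hq hq4 m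
    have h3 : |p ^ (m + 1) - q ^ (m + 1)| ≤ 4 * |p ^ m - q ^ m| + |p - q| * 4 ^ m := by
      rw [h1]
      refine (abs_add_le _ _).trans (add_le_add ?_ ?_)
      · rw [abs_mul, abs_of_nonneg hp]
        exact mul_le_mul_of_nonneg_right hp4 (abs_nonneg _)
      · rw [abs_mul, abs_of_nonneg (pow_nonneg hq m)]
        exact mul_le_mul_of_nonneg_left h2 (abs_nonneg _)
    push_cast
    rw [pow_succ (4 : ℝ) m]
    nlinarith [h3, ih]

/-- Continuity of `GG` in the body and the shift. -/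
theorem GG_close (hn : 1 ≤ n) {F : E n → ℝ} (hF : H0 F) {b : ℝ} (hb : ∀ x, x ≠ 0 → |F x| ≤ b)
    {h l : E n → ℝ} (hh : P1 h) (hl : P1 l) {z y : E n}
    (h1 : ∀ x, ‖x‖ = 1 → 1 / 4 ≤ h x - inner ℝ z x)
    (h2 : ∀ x, ‖x‖ = 1 → 1 / 4 ≤ l x - inner ℝ y x) {η : ℝ}
    (h3 : ∀ x, ‖x‖ = 1 → |(h x - inner ℝ z x) - (l x - inner ℝ y x)| ≤ η) :
    |GG F h z - GG F l y| ≤ b * (n * 4 ^ (n + 1)) * η := by
  have hFc : ContinuousOn F (sphere (0 : E n) 1) := hF.cont.mono (by
    intro x hx h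
    exact gauB_ne (by simpa using hx) h)
  have hc : ∀ {h : E n → ℝ} (_ : P1 h) (z : E n) (_ : ∀ x, ‖x‖ = 1 → 1 / 4 ≤ h x - inner ℝ z x),
      ContinuousOn (fun x => F x * ((h x - inner ℝ z x) ^ n)⁻¹) (sphere (0 : E n) 1) := by
    intro h hh z h1
    refine hFc.mul (ContinuousOn.inv₀ ((hh.cont.sub
      (continuous_const.inner continuous_id)).continuousOn.pow n) ?_)
    intro x hx
    have h4 := h1 x (by simpa using hx)
    exact (pow_pos (by linarith) n).ne'
  unfold GG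
  rw [← integral_sub (integrable_mu hn (hc hh z h1)) (integrable_mu hn (hc hl y h2))]
  refine int_abs_le hn (fun x hx => ?_)
  have ha := h1 x hx
  have hd := h2 x hx
  have he := h3 x hx
  have hf := hb x (gauB_ne hx)
  set a := h x - inner ℝ z x
  set c := l x - inner ℝ y x
  have ha0 : 0 < a := by linarith
  have hc0 : 0 < c := by linarith
  have hp : a⁻¹ ≤ 4 := by
    rw [inv_le_comm₀ ha0 (by norm_num)]
    linarith
  have hq : c⁻¹ ≤ 4 := by
    rw [inv_le_comm₀ hc0 (by norm_num)]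
    linarith
  have h5 := gauB_pow n (inv_nonneg.mpr ha0.le) (inv_nonneg.mpr hc0.le) hp hq
  have h6 : |a⁻¹ - c⁻¹| ≤ 16 * η := by
    have h7 : a⁻¹ - c⁻¹ = (c - a) * (a⁻¹ * c⁻¹) := by
      field_simp
    rw [h7, abs_mul, abs_of_nonneg (by positivity : 0 ≤ a⁻¹ * c⁻¹), abs_sub_comm]
    have h8 : a⁻¹ * c⁻¹ ≤ 16 := by
      have := mul_le_mul hp hq (inv_nonneg.mpr hc0.le) (by norm_num)
      linarith
    calc |a - c| * (a⁻¹ * c⁻¹) ≤ |a - c| * 16 := mul_le_mul_of_nonneg_left h8 (abs_nonneg _)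
      _ ≤ 16 * η := by linarith
  have h9 : |(a⁻¹) ^ n - (c⁻¹) ^ n| ≤ n * 4 ^ (n + 1) * η := by
    have h10 : (n : ℝ) * 4 ^ n * |a⁻¹ - c⁻¹| ≤ n * 4 ^ n * (16 * η) :=
      mul_le_mul_of_nonneg_left h6 (by positivity)
    rw [pow_succ]
    nlinarith [h5, h10]
  rw [← mul_sub, abs_mul, ← inv_pow, ← inv_pow, mul_assoc]
  exact mul_le_mul hf h9 (abs_nonneg _) ((abs_nonneg _).trans hf)

end Pool.Agent.H35.CA
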