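import Pool.Agent.H35.CA.GauB
import Pool.Agent.H35.CA.Cov

/-!
# Job LOW: smooth perturbations of the norm

Notation: `h' = hh k = ‖x‖ + k x`, `V = (h')^2 / 2`, `T = TT k = h' ∇h' = ∇V` (off 0).
Proof hints.
(1) Off the origin `Z x := T x - x = (k x / ‖x‖) x + ‖x‖ ∇k x + k x ∇k x`
(and `Z 0 = 0`, as `hh k 0 = 0`); `k` is 1-homogeneous, `∇k` 0-homogeneous, so `Z` is
1-homogeneous, `C^2` off 0, with `‖fderiv Z x‖ ≤ 10 c` on the sphere when `c ≤ 1`; so `Disp Z` for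
`c ≤ 1/20`.  `fderiv T x = 1 + fderiv Z x` off 0, so `dens k x = det (1 + fderiv Z x)`, which is
0-homogeneous and `C^1` off 0; it is within 1/10 of 1 for `c` small (depending on `n`) by
continuity of `det` at `1`.
(2) Euler: `⟨∇h' x, x⟩ = h' x`, so `⟨T x, x⟩ = (h' x)^2`.
(3) `V` is `C^1` on `E n` with `∇V = T` (at 0 too, as `V` is 2-homogeneous and bounded by
`C ‖x‖^2`), and `⟨T x - T y, x - y⟩ ≥ ‖x-y‖^2 / 2`; so `V` is convex:
`V y ≥ V x + ⟨T x, y - x⟩ = V x + ⟨T x, y⟩ - (h' x)^2`.  For `x, y ≠ 0` rescale `y` so that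
`h' y = h' x`: this gives `⟨T x, y⟩ ≤ h' x * h' y` (field `inner_le`).
(4) `SL (hh k)`: `h' (x + y) * h' (x+y) = ⟨T (x+y), x + y⟩ ≤ h' (x+y) * (h' x + h' y)`.
(5) `T_lower`: with unit vectors `v`, `y`, `‖y - v‖ ≤ 1/2`.  On the segment from `v` to `y` the
norm is at least `0.96`, and `‖fderiv (fderiv h') x‖ ≤ (1 + c)/‖x‖` (for the norm itself the
second derivative has norm `1/‖x‖`), so by Taylor
`h' y - ⟨∇h' v, y⟩ = h' y - h' v - ⟨∇h' v, y - v⟩ ≤ 0.6 ‖y-v‖^2`
for small `c`, while `h' y * (1 - exp (-d)) ≥ 0.9 * 0.875 * d` for `d = ‖y - v‖^2 ≤ 1/4`.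
Multiply by `h' v`.
(6) `cov`: from the lemma `cov`.
-/

namespace Pool.Agent.H35.CA

open MeasureTheory Metric Set

variable {n : ℕ}

/-- The properties of a small smooth perturbation of the norm that are used later. -/
structure LowGood (k : E n → ℝ) : Prop where
  sl : SL (hh k)
  smooth : ContDiffOn ℝ 3 (hh k) {0}ᶜ
  T_cont : Continuous (TT k)
  T_hom : ∀ t : ℝ, 0 ≤ t → ∀ x, TT k (t • x) = t • TT k x
  T_ne : ∀ x, x ≠ 0 → TT k x ≠ 0
  T_smooth : ContDiffOn ℝ 2 (TT k) {0}ᶜ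
  inner_self : ∀ x, inner ℝ (TT k x) x = hh k x ^ 2
  inner_le : ∀ x y, inner ℝ (TT k x) y ≤ hh k x * hh k y
  T_lower : ∀ v y : E n, ‖v‖ = 1 → ‖y‖ = 1 → ‖y - v‖ ≤ 1 / 2 →
    hh k v * hh k y * Real.exp (-‖y - v‖ ^ 2) ≤ inner ℝ (TT k v) y
  dens_hom : ∀ t : ℝ, 0 < t → ∀ x, dens k (t • x) = dens k x
  dens_smooth : ContDiffOn ℝ 1 (dens k) {0}ᶜ
  dens_bd : ∀ x, x ≠ 0 → 9 / 10 ≤ dens k x ∧ dens k x ≤ 11 / 10
  cov : ∀ g : E n → ℝ, P1 g →
    ∫ x, (g x ^ n)⁻¹ ∂(mu n) = ∫ x, dens k x * (g (TT k x) ^ n)⁻¹ ∂(mu n)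

/-! ### Auxiliary lemmas -/

theorem low_fd_hom1 {F : Type} [NormedAddCommGroup F] [NormedSpace ℝ F] {f : E n → F}
    (hf : ∀ t : ℝ, 0 < t → ∀ x, f (t • x) = t • f x) {t : ℝ} (ht : 0 < t) (x : E n) :
    fderiv ℝ f (t • x) = fderiv ℝ f x := by
  have h1 : (fun y : E n => f (t • y)) = fun y => t • f y := funext fun y => hf t ht y
  have h2 := fderiv_comp_smul (𝕜 := ℝ) (f := f) (x := x) t
  rw [h1] at h2
  have h3 : fderiv ℝ (fun y => t • f y) x = t • fderiv ℝ f x :=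
    congrFun (fderiv_const_smul_field (𝕜 := ℝ) (f := f) t) x
  rw [h3] at h2
  have h4 := congrArg (fun A => t⁻¹ • A) h2
  simp only [smul_smul, inv_mul_cancel₀ ht.ne', one_smul] at h4
  exact h4.symm

theorem low_fd_hom0 {F : Type} [NormedAddCommGroup F] [NormedSpace ℝ F] {f : E n → F}
    (hf : ∀ t : ℝ, 0 < t → ∀ x, f (t • x) = f x) {t : ℝ} (ht : 0 < t) (x : E n) :
    fderiv ℝ f (t • x) = t⁻¹ • fderiv ℝ f x := by
  have h1 : (fun y : E n => f (t • y)) = fun y => f y := funext fun y => hf t ht y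
  have h2 := fderiv_comp_smul (𝕜 := ℝ) (f := f) (x := x) t
  rw [h1] at h2
  have h4 := congrArg (fun A => t⁻¹ • A) h2
  simp only [smul_smul, inv_mul_cancel₀ ht.ne', one_smul] at h4
  exact h4.symm

theorem low_norm_hasFD {x : E n} (hx : x ≠ 0) :
    HasFDerivAt (fun y : E n => ‖y‖) (‖x‖⁻¹ • innerSL ℝ x) x := by
  have h1 : HasFDerivAt (fun y : E n => ‖y‖ ^ 2) (2 • innerSL ℝ x) x :=
    (hasStrictFDerivAt_norm_sq x).hasFDerivAt
  have h0 : ‖x‖ ^ 2 ≠ 0 := by positivity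
  have h2 := h1.sqrt h0
  have h3 : (fun y : E n => Real.sqrt (‖y‖ ^ 2)) = fun y => ‖y‖ := by
    funext y; exact Real.sqrt_sq (norm_nonneg y)
  rw [h3] at h2
  refine h2.congr_fderiv ?_
  rw [Real.sqrt_sq (norm_nonneg x)]
  have h5 : ‖x‖ ≠ 0 := norm_ne_zero_iff.mpr hx
  ext v
  simp only [smul_apply, smul_eq_mul, nsmul_eq_mul, Nat.cast_ofNat]
  field_simp


theorem low_euler {f : E n → ℝ} (hf : ∀ t : ℝ, 0 ≤ t → ∀ x, f (t • x) = t * f x) {x : E n}
    (hd : DifferentiableAt ℝ f x) : fderiv ℝ f x x = f x := by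
  have h1 : HasDerivAt (fun t : ℝ => f (t • x)) (fderiv ℝ f x x) 1 := by
    have h2 : HasDerivAt (fun t : ℝ => t • x) x 1 := by
      simpa using (hasDerivAt_id (1 : ℝ)).smul_const x
    have h3 : HasFDerivAt f (fderiv ℝ f x) ((1 : ℝ) • x) := by
      rw [one_smul]; exact hd.hasFDerivAt
    exact h3.comp_hasDerivAt (1 : ℝ) h2
  have h4 : HasDerivAt (fun t : ℝ => t * f x) (f x) 1 := by
    simpa using (hasDerivAt_id (1 : ℝ)).mul_const (f x)
  have h5 : (fun t : ℝ => f (t • x)) =ᶠ[nhds 1] fun t => t * f x := by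
    filter_upwards [lt_mem_nhds (zero_lt_one : (0 : ℝ) < 1)] with t ht
    exact hf t ht.le x
  exact h1.unique (h4.congr_of_eventuallyEq h5)

/-- The Riesz isometry, as a real linear map. -/
noncomputable def lowR (n : ℕ) : (E n →L[ℝ] ℝ) →ₗᵢ[ℝ] E n where
  toFun A := (InnerProductSpace.toDual ℝ (E n)).symm A
  map_add' A B := map_add _ A B
  map_smul' c A := by simp
  norm_map' A := (InnerProductSpace.toDual ℝ (E n)).symm.norm_map A

theorem lowR_inner (A : E n →L[ℝ] ℝ) (v : E n) : inner ℝ (lowR n A) v = A v := by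
  show inner ℝ ((InnerProductSpace.toDual ℝ (E n)).symm A) v = A v
  exact InnerProductSpace.toDual_symm_apply

theorem low_grad (f : E n → ℝ) (x : E n) : gradient f x = lowR n (fderiv ℝ f x) := rfl

section Aux

variable {c : ℝ} {k : E n → ℝ}

theorem low_open : IsOpen ({0}ᶜ : Set (E n)) := isOpen_compl_singleton

theorem Small.low_cd (hk : Small c k) {x : E n} (hx : x ≠ 0) : ContDiffAt ℝ 3 k x :=
  hk.smooth.contDiffAt (low_open.mem_nhds hx)

theorem Small.low_d (hk : Small c k) {x : E n} (hx : x ≠ 0) : DifferentiableAt ℝ k x :=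
  (hk.low_cd hx).differentiableAt (by norm_num)

theorem Small.low_cfd (hk : Small c k) : ContDiffOn ℝ 2 (fderiv ℝ k) {0}ᶜ :=
  hk.smooth.fderiv_of_isOpen low_open (by norm_num)

theorem Small.low_dd (hk : Small c k) {x : E n} (hx : x ≠ 0) :
    DifferentiableAt ℝ (fderiv ℝ k) x :=
  (hk.low_cfd.contDiffAt (low_open.mem_nhds hx)).differentiableAt (by norm_num)

theorem Small.low_zero (hk : Small c k) : k 0 = 0 := by
  have := hk.hom 0 le_rfl 0
  rwa [zero_smul, zero_mul] at this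

theorem Small.low_hh0 (hk : Small c k) : hh k 0 = 0 := by
  simp [hh, hk.low_zero]

theorem Small.low_hhom (hk : Small c k) (t : ℝ) (ht : 0 ≤ t) (x : E n) :
    hh k (t • x) = t * hh k x := by
  unfold hh
  rw [hk.hom t ht, norm_smul, Real.norm_of_nonneg ht]; ring

theorem Small.low_hfd (hk : Small c k) {x : E n} (hx : x ≠ 0) :
    HasFDerivAt (hh k) (‖x‖⁻¹ • innerSL ℝ x + fderiv ℝ k x) x :=
  (low_norm_hasFD hx).add (hk.low_d hx).hasFDerivAt

theorem Small.low_gradh (hk : Small c k) {x : E n} (hx : x ≠ 0) :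
    gradient (hh k) x = ‖x‖⁻¹ • x + gradient k x := by
  rw [low_grad, (hk.low_hfd hx).fderiv, map_add, ← low_grad]
  congr 1
  refine ext_inner_right ℝ fun v => ?_
  rw [lowR_inner]
  simp [inner_smul_left]

/-- The displacement. -/
noncomputable def lowZ (k : E n → ℝ) (x : E n) : E n := TT k x - x

theorem Small.low_TT0 (hk : Small c k) : TT k 0 = 0 := by
  unfold TT; rw [hk.low_hh0, zero_smul]

theorem Small.low_Z (hk : Small c k) {x : E n} (hx : x ≠ 0) :
    lowZ k x = (k x * ‖x‖⁻¹) • x + hh k x • gradient k x := by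
  have h0 : ‖x‖ ≠ 0 := norm_ne_zero_iff.mpr hx
  unfold lowZ TT
  rw [hk.low_gradh hx, smul_add, smul_smul]
  have h1 : hh k x * ‖x‖⁻¹ = 1 + k x * ‖x‖⁻¹ := by
    unfold hh; field_simp
  rw [h1, add_smul, one_smul]
  abel

theorem Small.low_bk (hk : Small c k) (x : E n) : |k x| ≤ c * ‖x‖ := by
  by_cases hx : x = 0
  · rw [hx, hk.low_zero]; simp
  · have h0 : 0 < ‖x‖ := norm_pos_iff.mpr hx
    have h1 : x = ‖x‖ • (‖x‖⁻¹ • x) := by
      rw [smul_smul, mul_inv_cancel₀ h0.ne', one_smul]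
    have h2 : ‖(‖x‖⁻¹ • x : E n)‖ = 1 := by
      rw [norm_smul, norm_inv, norm_norm, inv_mul_cancel₀ h0.ne']
    have h3 := hk.b0 _ h2
    rw [h1, hk.hom _ h0.le, abs_mul, abs_of_pos h0, ← h1, mul_comm]
    exact mul_le_mul_of_nonneg_right h3 h0.le

theorem Small.low_bfd (hk : Small c k) {x : E n} (hx : x ≠ 0) : ‖fderiv ℝ k x‖ ≤ c := by
  have h0 : 0 < ‖x‖ := norm_pos_iff.mpr hx
  have h1 : x = ‖x‖ • (‖x‖⁻¹ • x) := by
    rw [smul_smul, mul_inv_cancel₀ h0.ne', one_smul]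
  have h2 : ‖(‖x‖⁻¹ • x : E n)‖ = 1 := by
    rw [norm_smul, norm_inv, norm_norm, inv_mul_cancel₀ h0.ne']
  have h3 := hk.b1 _ h2
  have h4 := low_fd_hom1 (f := k) (fun t ht x => hk.hom t ht.le x) h0 (‖x‖⁻¹ • x)
  rw [← h1] at h4
  rw [h4]; exact h3

theorem Small.low_bfdd (hk : Small c k) {x : E n} (hx : x ≠ 0) :
    ‖fderiv ℝ (fderiv ℝ k) x‖ ≤ c * ‖x‖⁻¹ := by
  have h0 : 0 < ‖x‖ := norm_pos_iff.mpr hx
  have h1 : x = ‖x‖ • (‖x‖⁻¹ • x) := by
    rw [smul_smul, mul_inv_cancel₀ h0.ne', one_smul]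
  have h2 : ‖(‖x‖⁻¹ • x : E n)‖ = 1 := by
    rw [norm_smul, norm_inv, norm_norm, inv_mul_cancel₀ h0.ne']
  have h3 := hk.b2 _ h2
  have h4 := low_fd_hom0 (f := fderiv ℝ k)
    (fun t ht x => low_fd_hom1 (f := k) (fun t ht x => hk.hom t ht.le x) ht x) h0 (‖x‖⁻¹ • x)
  rw [← h1] at h4
  rw [h4]
  have h5 : ‖(‖x‖⁻¹ • fderiv ℝ (fderiv ℝ k) (‖x‖⁻¹ • x) : E n →L[ℝ] E n →L[ℝ] ℝ)‖
      ≤ ‖‖x‖⁻¹‖ * ‖fderiv ℝ (fderiv ℝ k) (‖x‖⁻¹ • x)‖ :=
    ContinuousLinearMap.opNorm_smul_le _ _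
  rw [norm_inv, norm_norm] at h5
  refine h5.trans ?_
  rw [mul_comm]
  exact mul_le_mul_of_nonneg_right h3 (inv_nonneg.mpr h0.le)

theorem Small.low_Thom (hk : Small c k) (t : ℝ) (ht : 0 ≤ t) (x : E n) :
    TT k (t • x) = t • TT k x := by
  rcases ht.eq_or_lt with h0 | h0
  · rw [← h0, zero_smul, zero_smul, hk.low_TT0]
  · unfold TT
    rw [hk.low_hhom t ht, low_grad, low_grad,
      low_fd_hom1 (f := hh k) (fun t ht x => hk.low_hhom t ht.le x) h0 x, smul_smul]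

theorem Small.low_Zhom (hk : Small c k) (t : ℝ) (ht : 0 ≤ t) (x : E n) :
    lowZ k (t • x) = t • lowZ k x := by
  unfold lowZ
  rw [hk.low_Thom t ht, smul_sub]

theorem Small.low_hsm (hk : Small c k) : ContDiffOn ℝ 3 (hh k) {0}ᶜ := by
  refine ContDiffOn.add ?_ hk.smooth
  intro x hx
  exact (contDiffAt_norm ℝ hx).contDiffWithinAt

theorem Small.low_Tsm (hk : Small c k) : ContDiffOn ℝ 2 (TT k) {0}ᶜ := by
  have h1 : ContDiffOn ℝ 2 (hh k) {0}ᶜ := hk.low_hsm.of_le (by norm_num)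
  have h2 : ContDiffOn ℝ 2 (fderiv ℝ (hh k)) {0}ᶜ :=
    hk.low_hsm.fderiv_of_isOpen low_open (by norm_num)
  have h3 : ContDiffOn ℝ 2 (fun x => lowR n (fderiv ℝ (hh k) x)) {0}ᶜ :=
    (lowR n).contDiff.comp_contDiffOn h2
  exact h1.smul h3

theorem Small.low_Zfd (hk : Small c k) {x : E n} (hx : x ≠ 0) :
    HasFDerivAt (lowZ k)
      (((k x * ‖x‖⁻¹) • ContinuousLinearMap.id ℝ (E n) +
        ((k x • (-(‖x‖ ^ 2)⁻¹ • (‖x‖⁻¹ • innerSL ℝ x)) + ‖x‖⁻¹ • fderiv ℝ k x)).smulRight x) +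
       (hh k x • ((lowR n).toContinuousLinearMap.comp (fderiv ℝ (fderiv ℝ k) x)) +
        (‖x‖⁻¹ • innerSL ℝ x + fderiv ℝ k x).smulRight (gradient k x))) x := by
  have h0 : ‖x‖ ≠ 0 := norm_ne_zero_iff.mpr hx
  have e1 : (lowZ k) =ᶠ[nhds x] fun y => (k y * ‖y‖⁻¹) • y + hh k y • gradient k y := by
    filter_upwards [low_open.mem_nhds hx] with y hy
    exact hk.low_Z hy
  refine HasFDerivAt.congr_of_eventuallyEq ?_ e1
  have hn1 : HasFDerivAt (fun y : E n => ‖y‖⁻¹) (-(‖x‖ ^ 2)⁻¹ • (‖x‖⁻¹ • innerSL ℝ x)) x :=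
    (hasDerivAt_inv h0).comp_hasFDerivAt x (low_norm_hasFD hx)
  have hk1 := (hk.low_d hx).hasFDerivAt
  have ha : HasFDerivAt (fun y : E n => k y * ‖y‖⁻¹)
      (k x • (-(‖x‖ ^ 2)⁻¹ • (‖x‖⁻¹ • innerSL ℝ x)) + ‖x‖⁻¹ • fderiv ℝ k x) x := hk1.mul hn1
  have hg : HasFDerivAt (fun y : E n => gradient k y)
      ((lowR n).toContinuousLinearMap.comp (fderiv ℝ (fderiv ℝ k) x)) x :=
    (lowR n).toContinuousLinearMap.hasFDerivAt.comp x (hk.low_dd hx).hasFDerivAt
  exact (ha.smul (hasFDerivAt_id x)).add ((hk.low_hfd hx).smul hg)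

theorem Small.low_Zbd (hk : Small c k) (hc : c ≤ 1) {x : E n} (hx : ‖x‖ = 1) :
    ‖fderiv ℝ (lowZ k) x‖ ≤ 7 * c := by
  have hc0 : 0 ≤ c := (abs_nonneg _).trans (hk.b0 x hx)
  have hx0 : x ≠ 0 := by rintro rfl; simp at hx
  rw [(hk.low_Zfd hx0).fderiv]
  refine ContinuousLinearMap.opNorm_le_bound _ (by positivity) fun v => ?_
  have hv := norm_nonneg v
  have e0 : |inner ℝ x v| ≤ ‖v‖ := by
    have := abs_real_inner_le_norm x v
    rwa [hx, one_mul] at this
  have e1 : |fderiv ℝ k x v| ≤ c * ‖v‖ :=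
    ((fderiv ℝ k x).le_opNorm v).trans (mul_le_mul_of_nonneg_right (hk.b1 x hx) hv)
  have e2 : ‖lowR n (fderiv ℝ (fderiv ℝ k) x v)‖ ≤ c * ‖v‖ := by
    rw [(lowR n).norm_map]
    exact ((fderiv ℝ (fderiv ℝ k) x).le_opNorm v).trans
      (mul_le_mul_of_nonneg_right (hk.b2 x hx) hv)
  have e3 : ‖gradient k x‖ ≤ c := by
    rw [low_grad, (lowR n).norm_map]; exact hk.b1 x hx
  have e5 : |k x| ≤ c := hk.b0 x hx
  have e4 : |hh k x| ≤ 2 := by
    unfold hh; rw [hx]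
    have := abs_add_le 1 (k x)
    rw [abs_one] at this
    linarith
  have ev : ((((k x * ‖x‖⁻¹) • ContinuousLinearMap.id ℝ (E n) +
        ((k x • (-(‖x‖ ^ 2)⁻¹ • (‖x‖⁻¹ • innerSL ℝ x)) + ‖x‖⁻¹ • fderiv ℝ k x)).smulRight x) +
       (hh k x • ((lowR n).toContinuousLinearMap.comp (fderiv ℝ (fderiv ℝ k) x)) +
        (‖x‖⁻¹ • innerSL ℝ x + fderiv ℝ k x).smulRight (gradient k x))) : E n →L[ℝ] E n) v =
      (k x • v + (-(k x * inner ℝ x v) + fderiv ℝ k x v) • x) +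
      (hh k x • lowR n (fderiv ℝ (fderiv ℝ k) x v) +
        (inner ℝ x v + fderiv ℝ k x v) • gradient k x) := by
    simp [hx]
  rw [ev]
  have f1 : ‖k x • v‖ ≤ c * ‖v‖ := by
    rw [norm_smul, Real.norm_eq_abs]
    exact mul_le_mul_of_nonneg_right e5 hv
  have f2 : ‖(-(k x * inner ℝ x v) + fderiv ℝ k x v) • x‖ ≤ c * ‖v‖ + c * ‖v‖ := by
    rw [norm_smul, Real.norm_eq_abs, hx, mul_one]
    refine (abs_add_le _ _).trans (add_le_add ?_ e1)
    rw [abs_neg, abs_mul]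
    exact mul_le_mul e5 e0 (abs_nonneg _) hc0
  have f3 : ‖hh k x • lowR n (fderiv ℝ (fderiv ℝ k) x v)‖ ≤ 2 * (c * ‖v‖) := by
    rw [norm_smul, Real.norm_eq_abs]
    exact mul_le_mul e4 e2 (norm_nonneg _) (by norm_num)
  have f4 : ‖(inner ℝ x v + fderiv ℝ k x v) • gradient k x‖ ≤ (‖v‖ + c * ‖v‖) * c := by
    rw [norm_smul, Real.norm_eq_abs]
    exact mul_le_mul ((abs_add_le _ _).trans (add_le_add e0 e1)) e3 (norm_nonneg _)
      (by positivity)
  have f5 : c * ‖v‖ * c ≤ c * ‖v‖ := by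
    have := mul_le_mul_of_nonneg_left hc (by positivity : 0 ≤ c * ‖v‖)
    linarith
  refine (norm_add_le _ _).trans ?_
  refine (add_le_add (norm_add_le _ _) (norm_add_le _ _)).trans ?_
  nlinarith [f1, f2, f3, f4, f5]

theorem Small.low_disp (hk : Small c k) (hc : c ≤ 1 / 20) : Disp (lowZ k) where
  hom := hk.low_Zhom
  smooth := (hk.low_Tsm.of_le one_le_two).sub contDiffOn_id
  bd := fun x hx => by
    have := hk.low_Zbd (by linarith) hx
    linarith

theorem Small.low_Tfd (hk : Small c k) {x : E n} (hx : x ≠ 0) :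
    fderiv ℝ (TT k) x = 1 + fderiv ℝ (lowZ k) x := by
  have h1 : TT k = fun y => y + lowZ k y := by funext y; unfold lowZ; abel
  conv_lhs => rw [h1]
  exact ((hasFDerivAt_id x).add (hk.low_Zfd hx).differentiableAt.hasFDerivAt).fderiv

theorem low_det_near (n : ℕ) : ∃ δ : ℝ, 0 < δ ∧ ∀ L : E n →L[ℝ] E n, ‖L‖ < δ →
    |(1 + L).det - 1| < 1 / 10 := by
  have h1 : ContinuousAt (fun f : E n →L[ℝ] E n => f.det) 1 :=
    ContinuousLinearMap.continuous_det.continuousAt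
  rw [Metric.continuousAt_iff] at h1
  obtain ⟨δ, hδ, h2⟩ := h1 (1 / 10) (by norm_num)
  refine ⟨δ, hδ, fun L hL => ?_⟩
  have h3 := h2 (x := 1 + L) (by rw [dist_eq_norm, add_sub_cancel_left]; exact hL)
  rw [Real.dist_eq] at h3
  have h4 : (1 : E n →L[ℝ] E n).det = 1 := by
    simp [ContinuousLinearMap.det]
  rwa [h4] at h3

theorem low_det_cd (n : ℕ) : ContDiff ℝ 1 (fun f : E n →L[ℝ] E n => f.det) := by
  have h1 : (fun f : E n →L[ℝ] E n => f.det) = fun f =>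
      ∑ σ : Equiv.Perm (Fin n), ((Equiv.Perm.sign σ : ℤ) : ℝ) *
        ∏ i, (f (EuclideanSpace.single i 1)) (σ i) := by
    funext f
    show LinearMap.det (f : E n →ₗ[ℝ] E n) = _
    rw [← LinearMap.det_toMatrix (EuclideanSpace.basisFun (Fin n) ℝ).toBasis, Matrix.det_apply']
    refine Finset.sum_congr rfl fun σ _ => ?_
    congr 1
  rw [h1]
  refine ContDiff.sum fun σ _ => ContDiff.mul contDiff_const ?_
  refine contDiff_prod fun i _ => ?_
  exact (EuclideanSpace.proj (σ i) : E n →L[ℝ] ℝ).contDiff.comp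
    (ContinuousLinearMap.apply ℝ (E n) (EuclideanSpace.single i (1 : ℝ))).contDiff

theorem Small.low_dens_sm (hk : Small c k) : ContDiffOn ℝ 1 (dens k) {0}ᶜ :=
  (low_det_cd n).comp_contDiffOn (hk.low_Tsm.fderiv_of_isOpen low_open (by norm_num))

theorem Small.low_dens_hom (hk : Small c k) (t : ℝ) (ht : 0 < t) (x : E n) :
    dens k (t • x) = dens k x := by
  unfold dens
  rw [low_fd_hom1 (f := TT k) (fun t ht x => hk.low_Thom t ht.le x) ht x]

theorem Small.low_Tcont (hk : Small c k) (hc : c ≤ 1 / 20) : Continuous (TT k) := by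
  have h1 : TT k = fun y => y + lowZ k y := by funext y; unfold lowZ; abel
  have h2 : LipschitzWith (1 / 2) (lowZ k) := by
    refine LipschitzWith.of_dist_le_mul fun x y => ?_
    rw [dist_eq_norm, dist_eq_norm]
    have := (hk.low_disp hc).lip x y
    simpa using this
  rw [h1]
  exact continuous_id.add h2.continuous

theorem Small.low_fdh (hk : Small c k) {x : E n} (hx : x ≠ 0) (v : E n) :
    fderiv ℝ (hh k) x v = ‖x‖⁻¹ * inner ℝ x v + fderiv ℝ k x v := by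
  rw [(hk.low_hfd hx).fderiv]; simp

theorem Small.low_innT (_hk : Small c k) (x v : E n) :
    inner ℝ (TT k x) v = hh k x * fderiv ℝ (hh k) x v := by
  unfold TT
  rw [real_inner_smul_left, low_grad, lowR_inner]

theorem Small.low_self (hk : Small c k) (x : E n) : inner ℝ (TT k x) x = hh k x ^ 2 := by
  rw [hk.low_innT]
  by_cases hx : x = 0
  · rw [hx, hk.low_hh0]; simp
  · rw [low_euler hk.low_hhom (hk.low_hfd hx).differentiableAt]; ring

theorem Small.low_hge (hk : Small c k) (hc : c ≤ 1 / 20) (x : E n) :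
    19 / 20 * ‖x‖ ≤ hh k x := by
  have h1 := hk.low_bk x
  have h2 := (abs_le.mp h1).1
  have h3 : c * ‖x‖ ≤ 1 / 20 * ‖x‖ := mul_le_mul_of_nonneg_right hc (norm_nonneg x)
  unfold hh; linarith

theorem Small.low_hle (hk : Small c k) (hc : c ≤ 1 / 20) (x : E n) :
    hh k x ≤ 2 * ‖x‖ := by
  have h1 := hk.low_bk x
  have h2 := (abs_le.mp h1).2
  have h3 : c * ‖x‖ ≤ 1 / 20 * ‖x‖ := mul_le_mul_of_nonneg_right hc (norm_nonneg x)
  have := norm_nonneg x
  unfold hh; linarith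

theorem Small.low_hpos (hk : Small c k) (hc : c ≤ 1 / 20) {x : E n} (hx : x ≠ 0) :
    0 < hh k x := by
  have h1 := hk.low_hge hc x
  have h0 : 0 < ‖x‖ := norm_pos_iff.mpr hx
  linarith

theorem Small.low_hnn (hk : Small c k) (hc : c ≤ 1 / 20) (x : E n) :
    0 ≤ hh k x := by
  have h1 := hk.low_hge hc x
  have h0 : 0 ≤ ‖x‖ := norm_nonneg x
  linarith

/-- The potential. -/
noncomputable def lowV (k : E n → ℝ) (x : E n) : ℝ := hh k x ^ 2 / 2

theorem Small.low_Vfd (hk : Small c k) (hc : c ≤ 1 / 20) (x : E n) :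
    HasFDerivAt (lowV k) (innerSL ℝ (TT k x)) x := by
  by_cases hx : x = 0
  · subst hx
    rw [hk.low_TT0, map_zero]
    refine Asymptotics.IsBigO.hasFDerivAt (n := 2) ?_ one_lt_two
    refine Asymptotics.IsBigO.of_bound 2 (Filter.Eventually.of_forall fun y => ?_)
    rw [sub_zero]
    unfold lowV
    rw [Real.norm_of_nonneg (by positivity), Real.norm_of_nonneg (by positivity)]
    have h1 := hk.low_hle hc y
    have h2 := hk.low_hnn hc y
    have h3 := norm_nonneg y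
    nlinarith
  · have h1 := (hk.low_hfd hx).differentiableAt.hasFDerivAt
    have h2 : HasFDerivAt (fun y => hh k y * hh k y)
        (hh k x • fderiv ℝ (hh k) x + hh k x • fderiv ℝ (hh k) x) x := h1.mul h1
    have h3 := h2.mul_const (1 / 2)
    have h4 : (fun y => hh k y * hh k y * (1 / 2)) = lowV k := by
      funext y; unfold lowV; ring
    rw [h4] at h3
    refine h3.congr_fderiv ?_
    ext v
    rw [innerSL_apply_apply, hk.low_innT]
    simp
    ring

theorem Small.low_mono (hk : Small c k) (hc : c ≤ 1 / 20) (x y : E n) :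
    0 ≤ inner ℝ (TT k x - TT k y) (x - y) := by
  have h1 := (hk.low_disp hc).lip x y
  have h2 : TT k x - TT k y = (x - y) + (lowZ k x - lowZ k y) := by unfold lowZ; abel
  rw [h2, inner_add_left, real_inner_self_eq_norm_sq]
  have h3 := abs_real_inner_le_norm (lowZ k x - lowZ k y) (x - y)
  have h4 := (abs_le.mp h3).1
  have h5 := norm_nonneg (x - y)
  nlinarith

theorem Small.low_conv (hk : Small c k) (hc : c ≤ 1 / 20) (x y : E n) :
    lowV k x + inner ℝ (TT k x) (y - x) ≤ lowV k y := by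
  have hd : ∀ t : ℝ, HasDerivAt (fun t : ℝ => lowV k (x + t • (y - x)) -
      t * inner ℝ (TT k x) (y - x))
      (inner ℝ (TT k (x + t • (y - x))) (y - x) - inner ℝ (TT k x) (y - x)) t := by
    intro t
    have h1 : HasDerivAt (fun t : ℝ => x + t • (y - x)) (y - x) t := by
      simpa using ((hasDerivAt_id t).smul_const (y - x)).const_add x
    have h2 := (hk.low_Vfd hc (x + t • (y - x))).comp_hasDerivAt t h1
    have h3 : HasDerivAt (fun t : ℝ => t * inner ℝ (TT k x) (y - x))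
        (inner ℝ (TT k x) (y - x)) t := by
      simpa using (hasDerivAt_id t).mul_const (inner ℝ (TT k x) (y - x))
    have h4 := h2.sub h3
    rw [innerSL_apply_apply] at h4
    exact h4
  have hm : MonotoneOn (fun t : ℝ => lowV k (x + t • (y - x)) -
      t * inner ℝ (TT k x) (y - x)) (Icc 0 1) := by
    refine monotoneOn_of_deriv_nonneg (convex_Icc 0 1)
      (fun t _ => (hd t).continuousAt.continuousWithinAt)
      (fun t _ => (hd t).differentiableAt.differentiableWithinAt) fun t ht => ?_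
    rw [interior_Icc] at ht
    rw [(hd t).deriv]
    have h1 := hk.low_mono hc (x + t • (y - x)) x
    rw [add_sub_cancel_left, inner_smul_right, inner_sub_left] at h1
    exact (mul_nonneg_iff_of_pos_left ht.1).mp h1
  have h1 := hm (left_mem_Icc.mpr zero_le_one) (right_mem_Icc.mpr zero_le_one) zero_le_one
  simp only [zero_smul, add_zero, zero_mul, sub_zero, one_smul, one_mul,
    add_sub_cancel] at h1
  linarith

theorem Small.low_le (hk : Small c k) (hc : c ≤ 1 / 20) (x y : E n) :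
    inner ℝ (TT k x) y ≤ hh k x * hh k y := by
  by_cases hx : x = 0
  · rw [hx, hk.low_TT0, hk.low_hh0]; simp
  by_cases hy : y = 0
  · rw [hy, hk.low_hh0]; simp
  have px := hk.low_hpos hc hx
  have py := hk.low_hpos hc hy
  have h1 := hk.low_conv hc x ((hh k x / hh k y) • y)
  have h2 : hh k ((hh k x / hh k y) • y) = hh k x := by
    rw [hk.low_hhom _ (by positivity)]; field_simp
  unfold lowV at h1
  rw [h2, inner_sub_right, hk.low_self, real_inner_smul_right] at h1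
  have h3 : hh k x / hh k y * inner ℝ (TT k x) y ≤ hh k x ^ 2 := by linarith
  rw [div_mul_eq_mul_div, div_le_iff₀ py] at h3
  have h4 : hh k x * inner ℝ (TT k x) y ≤ hh k x * (hh k x * hh k y) := by
    nlinarith
  exact le_of_mul_le_mul_left h4 px

theorem Small.low_sl (hk : Small c k) (hc : c ≤ 1 / 20) : SL (hh k) where
  hom := hk.low_hhom
  sub := fun x y => by
    by_cases h0 : x + y = 0
    · rw [h0, hk.low_hh0]
      exact add_nonneg (hk.low_hnn hc x) (hk.low_hnn hc y)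
    · have hp := hk.low_hpos hc h0
      have h1 := hk.low_self (x + y)
      rw [inner_add_right] at h1
      have h2 := hk.low_le hc (x + y) x
      have h3 := hk.low_le hc (x + y) y
      have h4 : hh k (x + y) * hh k (x + y) ≤ hh k (x + y) * (hh k x + hh k y) := by
        nlinarith
      exact le_of_mul_le_mul_left h4 hp
  pos := fun x hx => hk.low_hpos hc hx

theorem Small.low_tay (hk : Small c k) {v y : E n} (hv : ‖v‖ = 1) (hd : ‖y - v‖ ≤ 1 / 2) :
    k y - 2 * c * ‖y - v‖ ^ 2 ≤ fderiv ℝ k v y := by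
  have hc0 : 0 ≤ c := (abs_nonneg _).trans (hk.b0 v hv)
  have hv0 : v ≠ 0 := by rintro rfl; simp at hv
  set s : Set (E n) := closedBall v ‖y - v‖ with hs
  have hsc : Convex ℝ s := convex_closedBall v _
  have hsv : v ∈ s := mem_closedBall_self (norm_nonneg _)
  have hsy : y ∈ s := by rw [hs, mem_closedBall, dist_eq_norm]
  have hsn : ∀ z ∈ s, 1 / 2 ≤ ‖z‖ := by
    intro z hz
    rw [hs, mem_closedBall, dist_eq_norm] at hz
    have h1 : ‖v‖ ≤ ‖z‖ + ‖z - v‖ := by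
      have := norm_sub_le z (z - v)
      simpa using this
    linarith
  have hs0 : ∀ z ∈ s, z ≠ 0 := by
    intro z hz h0
    have := hsn z hz
    rw [h0, norm_zero] at this
    linarith
  have hb : ∀ z ∈ s, ‖fderiv ℝ (fderiv ℝ k) z‖ ≤ 2 * c := by
    intro z hz
    have h1 := hk.low_bfdd (hs0 z hz)
    have h2 : ‖z‖⁻¹ ≤ 2 := by
      have h3 := inv_anti₀ (by norm_num) (hsn z hz)
      simpa using h3
    have h3 := mul_le_mul_of_nonneg_left h2 hc0
    linarith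
  have h1 : ∀ z ∈ s, ‖fderiv ℝ k z - fderiv ℝ k v‖ ≤ 2 * c * ‖y - v‖ := by
    intro z hz
    have h2 := hsc.norm_image_sub_le_of_norm_fderiv_le (𝕜 := ℝ)
      (fun z hz => hk.low_dd (hs0 z hz)) hb hsv hz
    refine h2.trans ?_
    have h3 : ‖z - v‖ ≤ ‖y - v‖ := by
      rw [hs, mem_closedBall, dist_eq_norm] at hz; exact hz
    exact mul_le_mul_of_nonneg_left h3 (by positivity)
  have h2 := hsc.norm_image_sub_le_of_norm_fderiv_le' (𝕜 := ℝ) (φ := fderiv ℝ k v)
    (fun z hz => hk.low_d (hs0 z hz)) h1 hsv hsy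
  rw [map_sub, low_euler hk.hom (hk.low_d hv0)] at h2
  have h3 := (abs_le.mp h2).2
  nlinarith

theorem Small.low_Tl (hk : Small c k) (hc : c ≤ 1 / 20) (v y : E n) (hv : ‖v‖ = 1)
    (hy : ‖y‖ = 1) (hd : ‖y - v‖ ≤ 1 / 2) :
    hh k v * hh k y * Real.exp (-‖y - v‖ ^ 2) ≤ inner ℝ (TT k v) y := by
  have hv0 : v ≠ 0 := by rintro rfl; simp at hv
  have h1 := hk.low_tay hv hd
  rw [hk.low_innT, mul_assoc]
  refine mul_le_mul_of_nonneg_left ?_ (hk.low_hnn hc v)
  rw [hk.low_fdh hv0, hv, inv_one, one_mul]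
  have h2 : ‖y - v‖ ^ 2 = 2 - 2 * inner ℝ v y := by
    rw [norm_sub_sq_real, hy, hv, real_inner_comm]; ring
  have hg := hk.low_hge hc y
  rw [hy, mul_one] at hg
  have hky : hh k y = 1 + k y := by unfold hh; rw [hy]
  set d := ‖y - v‖ ^ 2 with hdd
  have hd0 : 0 ≤ d := by positivity
  have hd1 : d ≤ 1 / 4 := by
    have := norm_nonneg (y - v)
    rw [hdd]; nlinarith
  have h3 : Real.exp (-d) ≤ 1 - 4 / 5 * d := by
    rw [Real.exp_neg]
    have h4 : 1 + d ≤ Real.exp d := by linarith [Real.add_one_le_exp d]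
    have h5 := inv_anti₀ (by linarith) h4
    refine h5.trans ?_
    rw [inv_le_iff_one_le_mul₀ (by linarith)]
    nlinarith
  have h6 : hh k y * Real.exp (-d) ≤ hh k y * (1 - 4 / 5 * d) :=
    mul_le_mul_of_nonneg_left h3 (by linarith)
  have h7 : 2 * c * d ≤ 1 / 10 * d := by nlinarith
  have h8 : 19 / 20 * (4 / 5 * d) ≤ hh k y * (4 / 5 * d) :=
    mul_le_mul_of_nonneg_right hg (by positivity)
  nlinarith


end Aux

theorem low_good (hn : 1 ≤ n) : ∃ c0 : ℝ, 0 < c0 ∧ c0 ≤ 1 / 20 ∧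
    ∀ k : E n → ℝ, Small c0 k → LowGood k := by
  obtain ⟨δ, hδ, hdet⟩ := low_det_near n
  refine ⟨min (1 / 20) (δ / 14), lt_min (by norm_num) (by positivity), min_le_left _ _,
    fun k hk => ?_⟩
  have hc : min (1 / 20) (δ / 14) ≤ 1 / 20 := min_le_left _ _
  have hc2 : min (1 / 20) (δ / 14) ≤ δ / 14 := min_le_right _ _
  generalize min (1 / 20) (δ / 14) = c at hk hc hc2
  refine ⟨hk.low_sl hc, hk.low_hsm, hk.low_Tcont hc, hk.low_Thom, ?_, hk.low_Tsm, hk.low_self,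
    hk.low_le hc, hk.low_Tl hc, hk.low_dens_hom, hk.low_dens_sm, ?_, ?_⟩
  · intro x hx h0
    have h1 := hk.low_self x
    rw [h0, inner_zero_left] at h1
    have h2 := hk.low_hpos hc hx
    have h3 : 0 < hh k x ^ 2 := by positivity
    linarith
  · intro x hx
    have h0 : 0 < ‖x‖ := norm_pos_iff.mpr hx
    have h1 : x = ‖x‖ • (‖x‖⁻¹ • x) := by
      rw [smul_smul, mul_inv_cancel₀ h0.ne', one_smul]
    have h2 : ‖(‖x‖⁻¹ • x : E n)‖ = 1 := by
      rw [norm_smul, norm_inv, norm_norm, inv_mul_cancel₀ h0.ne']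
    have h3 : ‖x‖⁻¹ • x ≠ 0 := by
      intro h4
      rw [h4, norm_zero] at h2
      exact zero_ne_one h2
    rw [h1, hk.low_dens_hom _ h0]
    unfold dens
    rw [hk.low_Tfd h3]
    have h4 := hdet (fderiv ℝ (lowZ k) (‖x‖⁻¹ • x)) (by
      have := hk.low_Zbd (by linarith) h2
      linarith)
    rw [abs_lt] at h4
    constructor <;> linarith [h4.1, h4.2]
  · intro g hg
    rw [cov hn (hk.low_disp hc) hg]
    refine int_congr hn fun x hx => ?_
    have hx0 : x ≠ 0 := by rintro rfl; simp at hx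
    unfold dens
    rw [hk.low_Tfd hx0]
    have h1 : x + lowZ k x = TT k x := by unfold lowZ; abel
    rw [h1]

/-- The exact formula for the volume. -/
theorem LowGood.vol (hn : 1 ≤ n) {k : E n → ℝ} (hk : LowGood k) {h : E n → ℝ} (hh' : P1 h) :
    vv h = ∫ x, dens k x * (gau h (TT k x) ^ n)⁻¹ ∂(mu n) :=
  hk.cov (gau h) (gau_SL hn hh').p1

/-- The dual bound. -/
theorem LowGood.dual (hn : 1 ≤ n) {k : E n → ℝ} (hk : LowGood k) {h : E n → ℝ} (hh' : P1 h) :
    vv h ≤ ∫ x, dens k x * (h x / hh k x ^ 2) ^ n ∂(mu n) := by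
  have hs : ∀ x ∈ sphere (0 : E n) 1, x ≠ 0 := by
    intro x hx h0
    rw [h0, mem_sphere_zero_iff_norm, norm_zero] at hx
    exact zero_ne_one hx
  have hG := gau_SL hn hh'
  have hd : ContinuousOn (dens k) (sphere (0 : E n) 1) :=
    hk.dens_smooth.continuousOn.mono fun x hx => hs x hx
  have hhc : ContinuousOn (hh k) (sphere (0 : E n) 1) :=
    hk.smooth.continuousOn.mono fun x hx => hs x hx
  rw [hk.vol hn hh']
  refine int_mono hn ?_ ?_ ?_
  · refine hd.mul (ContinuousOn.inv₀ ?_ ?_)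
    · exact ((hG.p1.cont.comp hk.T_cont).pow n).continuousOn
    · intro x hx
      exact pow_ne_zero n (hG.pos _ (hk.T_ne x (hs x hx))).ne'
  · refine hd.mul (ContinuousOn.pow (ContinuousOn.div hh'.cont.continuousOn (hhc.pow 2) ?_) n)
    intro x hx
    exact pow_ne_zero 2 (hk.sl.pos x (hs x hx)).ne'
  · intro x hx
    have hx0 : x ≠ 0 := by rintro rfl; simp at hx
    have h1 := gau_le hn hh' (TT k x) x
    rw [hk.inner_self] at h1
    have h2 := hG.pos _ (hk.T_ne x hx0)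
    have h3 := hk.sl.pos x hx0
    have h4 := (hk.dens_bd x hx0).1
    refine mul_le_mul_of_nonneg_left ?_ (by linarith)
    rw [← inv_pow]
    refine pow_le_pow_left₀ (inv_nonneg.mpr h2.le) ?_ n
    rw [inv_eq_one_div, div_le_div_iff₀ h2 (by positivity), one_mul, mul_comm]
    exact h1

/-- Equality in the dual bound for `h = hh k`. -/
theorem LowGood.self (hn : 1 ≤ n) {k : E n → ℝ} (hk : LowGood k) :
    vv (hh k) = ∫ x, dens k x * (hh k x ^ n)⁻¹ ∂(mu n) := by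
  rw [hk.vol hn hk.sl.p1]
  refine int_congr hn fun x hx => ?_
  have hx0 : x ≠ 0 := by rintro rfl; simp at hx
  have h3 := hk.sl.pos x hx0
  have h1 : gau (hh k) (TT k x) ≤ hh k x :=
    gau_le_of hn hk.sl.p1 fun u _ => hk.inner_le x u
  have h2 : hh k x ≤ gau (hh k) (TT k x) := by
    have h4 := gau_le hn hk.sl.p1 (TT k x) x
    rw [hk.inner_self, pow_two] at h4
    exact le_of_mul_le_mul_right h4 h3
  rw [le_antisymm h1 h2]

end Pool.Agent.H35.CA
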