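import Pool.Agent.H35.CA.Key1
import Pool.Agent.H35.CA.Low
import Pool.Agent.H35.CA.Circ

/-!
# Job KEY: the concavity estimate for rough bodies

Notation: `h' = hh k`, `T = TT k`, `L y = n * log (h y / h' y)` (0-homogeneous, `C^2` off 0),
`a = XX J L`, `s = 1/(4n)`.

`key`.  Step 1.  For `‖y‖ = 1` and `b = s * a y`, `|b| ≤ 1/2` (for small `c0`, `δ0`), and with
`v = rot J b y`, `‖y - v‖ ≤ |b|`: by `gau_le` and `T_lower`,
`gau h (T v) ≥ ⟨T v, y⟩ / h y ≥ h' v * h' y * exp (-b²) / h y`, so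
`(gau h (T v) ^ n)⁻¹ ≤ exp (L y) * exp (n b²) * (h' v ^ n)⁻¹`.
Step 2.  `vv h = ∫ G dmu`, `G v = dens k v * (gau h (T v) ^ n)⁻¹` (`LowGood.vol`).  By
`circ_avg`, and for fixed `y` by `circ_change` for `g b = G (rot J b y)` and
`b ↦ s * a (rot J b y)` (note `rot J (b + c) y = rot J c (rot J b y)`):
`vv h = (1/2π) ∫∫ G (rot J (s * a (y_b)) y_b) (1 + s * XX J a (y_b)) db dmu`, `y_b = rot J b y`.
Step 3.  `1 + s * XX J a ≥ 0`: `XX J a = n (X²h/h - (Xh/h)² - X²h'/h' + (Xh'/h')²)`, and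
`X h' = X k`, `X² h' = X² k` are small, `X²h/h ≥ -(1+δ)/(1-δ)`, `(Xh)² ≤ 4 δ`; so
`XX J a ≥ - 2 n` for small `c0`, `δ0`.
Step 4.  So with `ρ v = dens k v * (h' v ^ n)⁻¹` and `Θ = 2 n` the integrand on the circle is at
most the integrand of `circle_ineq` for `b ↦ L (rot J b y)` and `b ↦ ρ (rot J b y)`
(`deriv` of the first is `a (rot J b y)`), and `Θ s = 1/2`, `exp L * ρ ≥ 1/2` for small
constants.  Apply `circle_ineq` for each `y` and integrate over `y` with `circ_avg`.
Note `exp (L y) * ρ y = dens k y * (h y / h' y ^ 2) ^ n`, and `s / 4 = 1 / (16 n)`.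
-/

namespace Pool.Agent.H35.CA

open MeasureTheory Metric Set

variable {n : ℕ}

theorem key_rot_ne {J : E n →L[ℝ] E n} (hJ : Gen J) {x : E n} (hx : x ≠ 0) (b : ℝ) :
    rot J b x ≠ 0 := by
  intro h0
  have h1 := norm_rot hJ b x
  rw [h0, norm_zero] at h1
  exact hx (norm_eq_zero.mp h1.symm)

theorem key_rot_smooth (J : E n →L[ℝ] E n) {m : WithTop ℕ∞} (x : E n) :
    ContDiff ℝ m (fun b : ℝ => rot J b x) := by
  unfold rot
  have h1 : ContDiff ℝ m Real.sin := Real.contDiff_sin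
  have h2 : ContDiff ℝ m Real.cos := Real.contDiff_cos
  exact (contDiff_const.add (h1.smul contDiff_const)).add
    ((contDiff_const.sub h2).smul contDiff_const)

/-- Smoothness along a rotation curve. -/
theorem key_curve {J : E n →L[ℝ] E n} (hJ : Gen J) {m : WithTop ℕ∞} {F : E n → ℝ}
    (hF : ContDiffOn ℝ m F {0}ᶜ) {x : E n} (hx : x ≠ 0) :
    ContDiff ℝ m (fun b : ℝ => F (rot J b x)) :=
  hF.comp_contDiff (key_rot_smooth J x) (fun b => by
    simpa using key_rot_ne hJ hx b)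

theorem key_diffAt {F : E n → ℝ} (hF : ContDiffOn ℝ 1 F {0}ᶜ) {y : E n} (hy : y ≠ 0) :
    DifferentiableAt ℝ F y :=
  (hF.differentiableOn (by norm_num)).differentiableAt
    (isOpen_compl_singleton.mem_nhds (by simpa using hy))

/-- The derivative along a rotation curve. -/
theorem key_curve_deriv {J : E n →L[ℝ] E n} (hJ : Gen J) {F : E n → ℝ}
    (hF : ContDiffOn ℝ 1 F {0}ᶜ) {x : E n} (hx : x ≠ 0) (b : ℝ) :
    HasDerivAt (fun b : ℝ => F (rot J b x)) (XX J F (rot J b x)) b := by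
  have h1 := (key_diffAt hF (key_rot_ne hJ hx b)).hasFDerivAt
  exact h1.comp_hasDerivAt b (rot_deriv hJ b x)

theorem key_XX_smooth {J : E n →L[ℝ] E n} {m r : WithTop ℕ∞} {F : E n → ℝ}
    (hF : ContDiffOn ℝ r F {0}ᶜ) (hm : m + 1 ≤ r) : ContDiffOn ℝ m (XX J F) {0}ᶜ := by
  have h1 := hF.fderiv_of_isOpen isOpen_compl_singleton hm
  exact h1.clm_apply J.contDiff.contDiffOn

/-- The pointwise bound. -/
theorem key_pt (hn : 1 ≤ n) {k : E n → ℝ} (hk : LowGood k) {h : E n → ℝ} (hh' : SL h)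
    {J : E n →L[ℝ] E n} (hJ : Gen J) {y : E n} (hy : ‖y‖ = 1) {β : ℝ} (hβ : |β| ≤ 1 / 2) :
    dens k (rot J β y) * (gau h (TT k (rot J β y)) ^ n)⁻¹ ≤
      Real.exp ((n : ℝ) * Real.log (h y / hh k y) + n * β ^ 2) *
        (dens k (rot J β y) * (hh k (rot J β y) ^ n)⁻¹) := by
  set v := rot J β y with hv
  have hvn : ‖v‖ = 1 := by rw [hv, norm_rot hJ, hy]
  have hy0 : y ≠ 0 := by
    intro h0; rw [h0, norm_zero] at hy; norm_num at hy
  have hv0 : v ≠ 0 := by
    intro h0; rw [h0, norm_zero] at hvn; norm_num at hvn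
  have hP : P1 h := hh'.p1
  have hg : 0 < gau h (TT k v) := (gau_SL hn hP).pos _ (hk.T_ne v hv0)
  have h1 : 0 < h y := hh'.pos y hy0
  have h2 : 0 < hh k y := hk.sl.pos y hy0
  have h3 : 0 < hh k v := hk.sl.pos v hv0
  have hd : 0 < dens k v := lt_of_lt_of_le (by norm_num) (hk.dens_bd v hv0).1
  have hyv : ‖y - v‖ ≤ |β| := by
    have := norm_rot_sub hJ β y
    rw [hy, mul_one] at this
    rw [norm_sub_rev]
    exact this
  have h4 : hh k v * hh k y * Real.exp (-‖y - v‖ ^ 2) ≤ inner ℝ (TT k v) y :=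
    hk.T_lower v y hvn hy (hyv.trans hβ)
  have h5 : Real.exp (-β ^ 2) ≤ Real.exp (-‖y - v‖ ^ 2) := by
    apply Real.exp_le_exp.mpr
    have : ‖y - v‖ ^ 2 ≤ |β| ^ 2 := pow_le_pow_left₀ (norm_nonneg _) hyv 2
    rw [sq_abs] at this
    linarith
  have h6 : hh k v * hh k y * Real.exp (-β ^ 2) ≤ gau h (TT k v) * h y :=
    (mul_le_mul_of_nonneg_left h5 (by positivity)).trans
      (h4.trans (gau_le hn hP (TT k v) y))
  have h7 : hh k v * (hh k y / h y) * Real.exp (-β ^ 2) ≤ gau h (TT k v) := by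
    have : hh k v * (hh k y / h y) * Real.exp (-β ^ 2)
        = hh k v * hh k y * Real.exp (-β ^ 2) / h y := by
      field_simp
    rw [this, div_le_iff₀ h1]
    exact h6
  have h8 : 0 < hh k v * (hh k y / h y) * Real.exp (-β ^ 2) := by positivity
  have h9 : (gau h (TT k v) ^ n)⁻¹ ≤ ((hh k v * (hh k y / h y) * Real.exp (-β ^ 2)) ^ n)⁻¹ := by
    apply inv_anti₀ (by positivity)
    exact pow_le_pow_left₀ h8.le h7 n
  have h10 : ((hh k v * (hh k y / h y) * Real.exp (-β ^ 2)) ^ n)⁻¹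
      = Real.exp ((n : ℝ) * Real.log (h y / hh k y) + n * β ^ 2) * (hh k v ^ n)⁻¹ := by
    rw [Real.exp_add, Real.exp_nat_mul, Real.exp_log (by positivity), Real.exp_nat_mul]
    rw [mul_pow, mul_pow, mul_inv, mul_inv, ← inv_pow, ← inv_pow (hh k y / h y), inv_div,
      ← inv_pow (Real.exp (-β ^ 2)), ← Real.exp_neg, neg_neg]
    ring
  calc dens k v * (gau h (TT k v) ^ n)⁻¹
      ≤ dens k v * (Real.exp ((n : ℝ) * Real.log (h y / hh k y) + n * β ^ 2)
          * (hh k v ^ n)⁻¹) := by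
        rw [← h10]; exact mul_le_mul_of_nonneg_left h9 hd.le
    _ = _ := by ring

theorem key_XX_congr {J : E n →L[ℝ] E n} {F G : E n → ℝ} (h : ∀ y, y ≠ 0 → F y = G y)
    {y : E n} (hy : y ≠ 0) : XX J F y = XX J G y := by
  unfold XX
  have : F =ᶠ[nhds y] G := by
    filter_upwards [isOpen_compl_singleton.mem_nhds (show y ∈ ({0}ᶜ : Set (E n)) by simpa using hy)]
      with z hz
    exact h z (by simpa using hz)
  rw [this.fderiv_eq]

theorem key_XX_hh {k : E n → ℝ} {c : ℝ} (hk : Small c k) (hl : LowGood k)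
    {J : E n →L[ℝ] E n} (hJ : Gen J) {y : E n} (hy : y ≠ 0) : XX J (hh k) y = XX J k y := by
  have h1 := key_curve_deriv hJ (hl.smooth.of_le (by norm_num)) hy 0
  have h2 := (key_curve_deriv hJ (hk.smooth.of_le (by norm_num)) hy 0).const_add ‖y‖
  have h3 : (fun b : ℝ => hh k (rot J b y)) = fun b : ℝ => ‖y‖ + k (rot J b y) := by
    funext b
    unfold hh
    rw [norm_rot hJ]
  rw [h3] at h1
  have h4 := h1.unique h2
  rwa [rot_zero] at h4

theorem key_XXk_bound {k : E n → ℝ} {c : ℝ} (hk : Small c k)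
    {J : E n →L[ℝ] E n} (hJ : Gen J) {y : E n} (hy : ‖y‖ = 1) :
    |XX J k y| ≤ c ∧ |XX J (XX J k) y| ≤ 2 * c := by
  have hy0 : y ≠ 0 := by
    intro h0; rw [h0, norm_zero] at hy; norm_num at hy
  have hJy : ‖J y‖ ≤ 1 := hy ▸ norm_J_le hJ y
  have hJJy : ‖J (J y)‖ ≤ 1 := (norm_J_le hJ (J y)).trans hJy
  have hc : 0 ≤ c := (norm_nonneg _).trans (hk.b1 y hy)
  refine ⟨?_, ?_⟩
  · unfold XX
    rw [← Real.norm_eq_abs]
    calc ‖fderiv ℝ k y (J y)‖ ≤ ‖fderiv ℝ k y‖ * ‖J y‖ := ContinuousLinearMap.le_opNorm _ _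
      _ ≤ c * 1 := mul_le_mul (hk.b1 y hy) hJy (norm_nonneg _) hc
      _ = c := mul_one c
  · have hd : DifferentiableAt ℝ (fderiv ℝ k) y := by
      have h1 : ContDiffOn ℝ 1 (fderiv ℝ k) {0}ᶜ :=
        hk.smooth.fderiv_of_isOpen isOpen_compl_singleton (by norm_num)
      exact (h1.differentiableOn (by norm_num)).differentiableAt
        (isOpen_compl_singleton.mem_nhds (by simpa using hy0))
    have h2 : HasFDerivAt (fun z => fderiv ℝ k z (J z)) _ y :=
      hd.hasFDerivAt.clm_apply J.hasFDerivAt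
    have h3 : XX J (XX J k) y = fderiv ℝ k y (J (J y)) + fderiv ℝ (fderiv ℝ k) y (J y) (J y) := by
      have : XX J (XX J k) y = fderiv ℝ (fun z => fderiv ℝ k z (J z)) y (J y) := rfl
      rw [this, h2.fderiv]
      simp
    rw [h3, ← Real.norm_eq_abs]
    have h4 : ‖fderiv ℝ k y (J (J y))‖ ≤ c * 1 :=
      (ContinuousLinearMap.le_opNorm _ _).trans
        (mul_le_mul (hk.b1 y hy) hJJy (norm_nonneg _) hc)
    have h5 : ‖fderiv ℝ (fderiv ℝ k) y (J y) (J y)‖ ≤ c * 1 * 1 := by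
      refine (ContinuousLinearMap.le_opNorm _ _).trans ?_
      refine mul_le_mul ?_ hJy (norm_nonneg _) (by positivity)
      exact (ContinuousLinearMap.le_opNorm _ _).trans
        (mul_le_mul (hk.b2 y hy) hJy (norm_nonneg _) hc)
    calc _ ≤ ‖fderiv ℝ k y (J (J y))‖ + ‖fderiv ℝ (fderiv ℝ k) y (J y) (J y)‖ := norm_add_le _ _
      _ ≤ 2 * c := by linarith

/-- The logarithm of the quotient. -/
noncomputable def keyL (h k : E n → ℝ) (y : E n) : ℝ := (n : ℝ) * Real.log (h y / hh k y)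

theorem keyL_smooth {h k : E n → ℝ} (hh' : SL h) (hs : ContDiffOn ℝ 2 h {0}ᶜ)
    (hl : LowGood k) : ContDiffOn ℝ 2 (keyL h k) {0}ᶜ := by
  unfold keyL
  refine contDiffOn_const.mul (ContDiffOn.log ?_ ?_)
  · refine hs.div (hl.smooth.of_le (by norm_num)) ?_
    intro x hx
    exact (hl.sl.pos x (by simpa using hx)).ne'
  · intro x hx
    have h1 := hl.sl.pos x (by simpa using hx)
    have h2 := hh'.pos x (by simpa using hx)
    positivity

theorem keyL_X {h k : E n → ℝ} (hh' : SL h) (hs : ContDiffOn ℝ 2 h {0}ᶜ)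
    {c : ℝ} (hk : Small c k) (hl : LowGood k) {J : E n →L[ℝ] E n} (hJ : Gen J) {y : E n}
    (hy : y ≠ 0) :
    XX J (keyL h k) y = (n : ℝ) * (XX J h y / h y - XX J k y / hh k y) := by
  have h1 := key_curve_deriv hJ ((keyL_smooth hh' hs hl).of_le (by norm_num)) hy 0
  have h2 := key_curve_deriv hJ (hs.of_le (by norm_num)) hy 0
  have h3 := key_curve_deriv hJ (hl.smooth.of_le (by norm_num)) hy 0
  have hp1 := hh'.pos y hy
  have hp2 := hl.sl.pos y hy
  rw [rot_zero] at h1 h2 h3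
  rw [key_XX_hh hk hl hJ hy] at h3
  have h4 := ((h2.div h3 (by rw [rot_zero]; exact hp2.ne')).log
    (by simp only [Pi.div_apply, rot_zero]; positivity)).const_mul (n : ℝ)
  have h5 := h1.unique h4
  rw [h5]
  simp only [Pi.div_apply, rot_zero]
  field_simp

theorem keyL_XX {h k : E n → ℝ} (hh' : SL h) (hs : ContDiffOn ℝ 2 h {0}ᶜ)
    {c : ℝ} (hk : Small c k) (hl : LowGood k) {J : E n →L[ℝ] E n} (hJ : Gen J) {y : E n}
    (hy : y ≠ 0) :
    XX J (XX J (keyL h k)) y = (n : ℝ) *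
      ((XX J (XX J h) y * h y - XX J h y * XX J h y) / h y ^ 2 -
        (XX J (XX J k) y * hh k y - XX J k y * XX J k y) / hh k y ^ 2) := by
  have h0 : ContDiffOn ℝ 1 (XX J (keyL h k)) {0}ᶜ :=
    key_XX_smooth (keyL_smooth hh' hs hl) (by norm_num)
  have h1 := key_curve_deriv hJ h0 hy 0
  have h2 := key_curve_deriv hJ (hs.of_le (by norm_num)) hy 0
  have h3 := key_curve_deriv hJ (hl.smooth.of_le (by norm_num)) hy 0
  have h2' := key_curve_deriv hJ (key_XX_smooth (J := J) (m := 1) hs (by norm_num)) hy 0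
  have h3' := key_curve_deriv hJ (key_XX_smooth (J := J) (m := 1) hk.smooth (by norm_num)) hy 0
  have hp1 := hh'.pos y hy
  have hp2 := hl.sl.pos y hy
  rw [rot_zero] at h1 h2 h3 h2' h3'
  rw [key_XX_hh hk hl hJ hy] at h3
  have h4 := ((h2'.div h2 (by rw [rot_zero]; exact hp1.ne')).sub
    (h3'.div h3 (by rw [rot_zero]; exact hp2.ne'))).const_mul (n : ℝ)
  have h6 : (fun b : ℝ => XX J (keyL h k) (rot J b y)) =
      fun b : ℝ => (n : ℝ) * (XX J h (rot J b y) / h (rot J b y) -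
        XX J k (rot J b y) / hh k (rot J b y)) := by
    funext b
    exact keyL_X hh' hs hk hl hJ (key_rot_ne hJ hy b)
  rw [h6] at h1
  have h5 := h1.unique h4
  rw [h5]
  simp only [rot_zero]

/-- Size of the derivatives of `keyL`. -/
theorem keyL_bounds (hn : 1 ≤ n) {h k : E n → ℝ} (hh' : SL h) (hs : ContDiffOn ℝ 2 h {0}ᶜ)
    {c δ : ℝ} (hk : Small c k) (hl : LowGood k) (hc : c ≤ 1 / 20) (hδ0 : 0 ≤ δ)
    (hδ : δ ≤ 1 / 40) (hN : Near δ h)
    {J : E n →L[ℝ] E n} (hJ : Gen J) {y : E n} (hy : ‖y‖ = 1) :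
    |XX J (keyL h k) y| ≤ (n : ℝ) * (1 / 2) ∧ -(2 * (n : ℝ)) ≤ XX J (XX J (keyL h k)) y := by
  have hy0 : y ≠ 0 := by
    intro h0; rw [h0, norm_zero] at hy; norm_num at hy
  obtain ⟨hb1, hb2⟩ := key_XXk_bound hk hJ hy
  have hc0 : 0 ≤ c := (abs_nonneg _).trans hb1
  obtain ⟨hv1, hv2⟩ := conv_bounds hn hh' hs hδ0 (by linarith) hN hJ hy
  have hN' := hN y hy
  rw [abs_le] at hN'
  have hk0 := hk.b0 y hy
  rw [abs_le] at hk0
  have hhk : hh k y = 1 + k y := by unfold hh; rw [hy]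
  set A := XX J h y with hA
  set B := XX J k y with hB
  set A2 := XX J (XX J h) y with hA2
  set B2 := XX J (XX J k) y with hB2
  set p := h y with hp
  set q := hh k y with hq
  have hp1 : 39 / 40 ≤ p := by linarith
  have hq1 : 19 / 20 ≤ q := by linarith
  have hn0 : (0 : ℝ) ≤ n := Nat.cast_nonneg n
  have hA' : |A| ≤ 1 / 3 := by
    apply abs_le_of_sq_le_sq _ (by norm_num)
    nlinarith
  have hq2 : q ≤ 21 / 20 := by linarith
  have hp2 : p ≤ 41 / 40 := by linarith
  have hAp : |A / p| ≤ 1 / 3 / (39 / 40) := by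
    rw [abs_div, abs_of_pos (by linarith : (0:ℝ) < p)]
    exact div_le_div₀ (by norm_num) hA' (by norm_num) hp1
  have hBq : |B / q| ≤ 1 / 20 / (19 / 20) := by
    rw [abs_div, abs_of_pos (by linarith : (0:ℝ) < q)]
    exact div_le_div₀ (by norm_num) (hb1.trans hc) (by norm_num) hq1
  refine ⟨?_, ?_⟩
  · rw [keyL_X hh' hs hk hl hJ hy0, abs_mul, abs_of_nonneg hn0]
    refine mul_le_mul_of_nonneg_left ?_ hn0
    refine (abs_sub _ _).trans ?_
    refine (add_le_add hAp hBq).trans ?_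
    norm_num
  · rw [keyL_XX hh' hs hk hl hJ hy0]
    have e1 : (A2 * p - A * A) / p ^ 2 = A2 / p - (A / p) ^ 2 := by
      field_simp
    have e2 : (B2 * q - B * B) / q ^ 2 = B2 / q - (B / q) ^ 2 := by
      field_simp
    rw [e1, e2]
    have i1 : -((41 / 40) / (39 / 40)) ≤ A2 / p := by
      rw [neg_le, ← neg_div]
      rw [div_le_div_iff₀ (by linarith) (by norm_num)]
      nlinarith
    have i2 : (A / p) ^ 2 ≤ (1 / 3 / (39 / 40)) ^ 2 := by
      rw [← sq_abs (A / p)]
      exact pow_le_pow_left₀ (abs_nonneg _) hAp 2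
    have i3 : B2 / q ≤ (1 / 10) / (19 / 20) := by
      refine div_le_div₀ (by norm_num) ?_ (by norm_num) hq1
      exact (le_abs_self _).trans (hb2.trans (by linarith))
    have i4 : 0 ≤ (B / q) ^ 2 := sq_nonneg _
    have i5 : -2 ≤ A2 / p - (A / p) ^ 2 - (B2 / q - (B / q) ^ 2) := by
      norm_num at i1 i2 i3
      linarith
    nlinarith

/-- The bound on one circle. -/
theorem key_circle (hn : 2 ≤ n) {h k : E n → ℝ} (hh' : SL h) (hs : ContDiffOn ℝ 2 h {0}ᶜ)
    {c δ : ℝ} (hk : Small c k) (hl : LowGood k) (hc : c ≤ 1 / (20 * n)) (hδ0 : 0 ≤ δ)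
    (hδ : δ ≤ 1 / (20 * n)) (hN : Near δ h)
    {J : E n →L[ℝ] E n} (hJ : Gen J) {x : E n} (hx : ‖x‖ = 1) :
    ∫ b in (0 : ℝ)..(2 * Real.pi), dens k (rot J b x) * (gau h (TT k (rot J b x)) ^ n)⁻¹ ≤
      (∫ b in (0 : ℝ)..(2 * Real.pi),
        dens k (rot J b x) * (h (rot J b x) / hh k (rot J b x) ^ 2) ^ n) -
      1 / (16 * (n : ℝ)) * ∫ b in (0 : ℝ)..(2 * Real.pi), (XX J (keyL h k) (rot J b x)) ^ 2 := by
  have hx0 : x ≠ 0 := by
    intro h0; rw [h0, norm_zero] at hx; norm_num at hx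
  have hn1 : 1 ≤ n := by omega
  have hnR : (2 : ℝ) ≤ n := by exact_mod_cast hn
  have hP : P1 h := hh'.p1
  have hgS : SL (gau h) := gau_SL hn1 hP
  have hgP : P1 (gau h) := hgS.p1
  have hn20 : 1 / (20 * (n : ℝ)) ≤ 1 / 40 := by
    apply one_div_le_one_div_of_le (by norm_num); linarith
  have hrn : ∀ b, ‖rot J b x‖ = 1 := fun b => by rw [norm_rot hJ, hx]
  have hr0 : ∀ b, rot J b x ≠ 0 := key_rot_ne hJ hx0
  have hc0 : 0 ≤ c := (norm_nonneg _).trans (hk.b1 x hx)
  -- the functions on the circle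
  set s : ℝ := 1 / (4 * n) with hsdef
  set G : ℝ → ℝ := fun b => dens k (rot J b x) * (gau h (TT k (rot J b x)) ^ n)⁻¹ with hG
  set T : ℝ → ℝ := fun b => keyL h k (rot J b x) with hT
  set ρ : ℝ → ℝ := fun b => dens k (rot J b x) * (hh k (rot J b x) ^ n)⁻¹ with hρ
  have hTs : ContDiff ℝ 2 T := key_curve hJ (keyL_smooth hh' hs hl) hx0
  have hρs : ContDiff ℝ 1 ρ := by
    refine (key_curve hJ hl.dens_smooth hx0).mul (ContDiff.inv ?_ ?_)
    · exact (key_curve hJ (hl.smooth.of_le (by norm_num)) hx0).pow n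
    · intro b
      exact (pow_pos (hl.sl.pos _ (hr0 b)) n).ne'
  have hdc : Continuous fun b => dens k (rot J b x) := (key_curve hJ hl.dens_smooth hx0).continuous
  have hGc : Continuous G := by
    refine hdc.mul (Continuous.inv₀ ?_ ?_)
    · exact (hgP.cont.comp (hl.T_cont.comp (key_rot_smooth (m := 0) J x).continuous)).pow n
    · intro b
      exact (pow_pos (hgS.pos _ (hl.T_ne _ (hr0 b))) n).ne'
  have hTd : deriv T = fun b => XX J (keyL h k) (rot J b x) := by
    funext b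
    exact (key_curve_deriv hJ ((keyL_smooth hh' hs hl).of_le (by norm_num)) hx0 b).deriv
  have hTdd : deriv (deriv T) = fun b => XX J (XX J (keyL h k)) (rot J b x) := by
    funext b
    rw [hTd]
    exact (key_curve_deriv hJ (key_XX_smooth (keyL_smooth hh' hs hl) (by norm_num)) hx0 b).deriv
  have hp2 : ∀ b, rot J (b + 2 * Real.pi) x = rot J b x := fun b => rot_two_pi J b x
  have pT : ∀ b, T (b + 2 * Real.pi) = T b := fun b => by simp only [hT, hp2]
  have pρ : ∀ b, ρ (b + 2 * Real.pi) = ρ b := fun b => by simp only [hρ, hp2]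
  have pG : ∀ b, G (b + 2 * Real.pi) = G b := fun b => by simp only [hG, hp2]
  have hTs' : ContDiff ℝ 1 (deriv T) := by
    have : ContDiff ℝ (1 + 1) T := by simpa using hTs.of_le (by norm_num)
    exact (contDiff_succ_iff_deriv.mp this).2.2
  set a : ℝ → ℝ := fun b => s * deriv T b with ha
  have has : ContDiff ℝ 1 a := contDiff_const.mul hTs'
  have pa : ∀ b, a (b + 2 * Real.pi) = a b := fun b => by
    simp only [ha, hTd, hp2]
  have had : ∀ b, deriv a b = s * deriv (deriv T) b := fun b => by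
    simp only [ha]
    exact deriv_const_mul _ ((hTs'.differentiable (by norm_num)) b)
  have hchg := circ_change G a hGc has pG pa
  have hs0 : 0 ≤ s := by positivity
  have hbd : ∀ b, |deriv T b| ≤ (n : ℝ) * (1 / 2) ∧ -(2 * (n : ℝ)) ≤ deriv (deriv T) b := by
    intro b
    rw [hTdd, hTd]
    exact keyL_bounds hn1 hh' hs hk hl (by linarith) hδ0 (by linarith) hN hJ (hrn b)
  have hineq := circle_ineq T ρ hTs hρs pT pρ (s := s) (Θ := 2 * n) hs0 (by positivity)
    (by rw [hsdef]; apply le_of_eq; field_simp; ring) (by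
      intro b b'
      have j1 : Real.exp (T b) = (h (rot J b x) / hh k (rot J b x)) ^ n := by
        simp only [hT, keyL]
        rw [Real.exp_nat_mul, Real.exp_log]
        exact div_pos (hh'.pos _ (hr0 b)) (hl.sl.pos _ (hr0 b))
      have j2 : (1 - δ) / (1 + c) ≤ h (rot J b x) / hh k (rot J b x) := by
        refine div_le_div₀ (hh'.pos _ (hr0 b)).le ?_ (hl.sl.pos _ (hr0 b)) ?_
        · have := hN _ (hrn b); rw [abs_le] at this; linarith
        · have := hk.b0 _ (hrn b); rw [abs_le] at this; unfold hh; rw [hrn b]; linarith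
      have j3 : 9 / 10 * ((1 + c) ^ n)⁻¹ ≤ ρ b' := by
        simp only [hρ]
        refine mul_le_mul (hl.dens_bd _ (hr0 b')).1 ?_ (by positivity)
          (le_trans (by norm_num) (hl.dens_bd _ (hr0 b')).1)
        apply inv_anti₀ (pow_pos (hl.sl.pos _ (hr0 b')) n)
        refine pow_le_pow_left₀ (hl.sl.pos _ (hr0 b')).le ?_ n
        have := hk.b0 _ (hrn b'); rw [abs_le] at this; unfold hh; rw [hrn b']; linarith
      have j4 : (0 : ℝ) ≤ (1 - δ) / (1 + c) := div_nonneg (by linarith) (by linarith)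
      rw [j1]
      have j5 : 1 - δ - 2 * c ≤ (1 - δ) / (1 + c) ^ 2 := by
        rw [le_div_iff₀ (by positivity)]
        nlinarith [mul_nonneg hc0 hc0, mul_nonneg hc0 hδ0, mul_nonneg (mul_nonneg hc0 hc0) hc0]
      have j6 : (17 : ℝ) / 20 ≤ (1 - δ - 2 * c) ^ n := by
        have := one_add_mul_le_pow (a := -δ - 2 * c) (by linarith) n
        have e : 1 + (-δ - 2 * c) = 1 - δ - 2 * c := by ring
        rw [e] at this
        refine le_trans ?_ this
        have e2 : (n : ℝ) * (1 / (20 * n)) = 1 / 20 := by field_simp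
        nlinarith [mul_le_mul_of_nonneg_left hc (Nat.cast_nonneg n : (0 : ℝ) ≤ n),
          mul_le_mul_of_nonneg_left hδ (Nat.cast_nonneg n : (0 : ℝ) ≤ n)]
      have j7 : (17 : ℝ) / 20 ≤ ((1 - δ) / (1 + c)) ^ n * ((1 + c) ^ n)⁻¹ := by
        refine j6.trans ?_
        have e : ((1 - δ) / (1 + c)) ^ n * ((1 + c) ^ n)⁻¹ = ((1 - δ) / (1 + c) ^ 2) ^ n := by
          rw [div_pow, div_pow, ← pow_mul, mul_comm 2 n, pow_mul]
          field_simp
        rw [e]
        exact pow_le_pow_left₀ (by linarith) j5 n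
      calc (1 : ℝ) / 2 ≤ 9 / 10 * (17 / 20) := by norm_num
        _ ≤ 9 / 10 * (((1 - δ) / (1 + c)) ^ n * ((1 + c) ^ n)⁻¹) := by
            exact mul_le_mul_of_nonneg_left j7 (by norm_num)
        _ = ((1 - δ) / (1 + c)) ^ n * (9 / 10 * ((1 + c) ^ n)⁻¹) := by ring
        _ ≤ _ := mul_le_mul (pow_le_pow_left₀ j4 j2 n) j3 (by positivity)
            (pow_nonneg (j4.trans j2) n))
  -- the pointwise comparison
  have hpt : ∀ b, G (b + a b) * (1 + deriv a b) ≤
      Real.exp (T b + 2 * (n : ℝ) / 2 * s ^ 2 * (deriv T b) ^ 2) *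
        ρ (b + s * deriv T b) * (1 + s * deriv (deriv T) b) := by
    intro b
    rw [had]
    have hb := hbd b
    have hpos : 0 ≤ 1 + s * deriv (deriv T) b := by
      have := mul_le_mul_of_nonneg_left hb.2 hs0
      have e : s * -(2 * (n : ℝ)) = -(1 / 2) := by rw [hsdef]; field_simp; norm_num
      rw [e] at this
      linarith
    refine mul_le_mul_of_nonneg_right ?_ hpos
    have hβ : |a b| ≤ 1 / 2 := by
      simp only [ha]
      rw [abs_mul, abs_of_nonneg hs0]
      have := mul_le_mul_of_nonneg_left hb.1 hs0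
      have e : s * ((n : ℝ) * (1 / 2)) = 1 / 8 := by rw [hsdef]; field_simp; norm_num
      rw [e] at this
      linarith
    have hmain := key_pt hn1 hl hh' hJ (hrn b) hβ
    have e1 : rot J (a b) (rot J b x) = rot J (b + a b) x := by
      rw [add_comm b, rot_add hJ]
    rw [e1] at hmain
    have e2 : (n : ℝ) * (a b) ^ 2 = 2 * (n : ℝ) / 2 * s ^ 2 * (deriv T b) ^ 2 := by
      simp only [ha]; ring
    rw [e2] at hmain
    simpa only [ha, hT, keyL] using hmain
  have hcG : Continuous fun b => G (b + a b) * (1 + deriv a b) :=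
    (hGc.comp (continuous_id.add has.continuous)).mul
      (continuous_const.add (has.continuous_deriv le_rfl))
  have hcR : Continuous fun b => Real.exp (T b + 2 * (n : ℝ) / 2 * s ^ 2 * (deriv T b) ^ 2) *
        ρ (b + s * deriv T b) * (1 + s * deriv (deriv T) b) := by
    have c1 : Continuous (deriv T) := hTs'.continuous
    have c2 : Continuous (deriv (deriv T)) := hTs'.continuous_deriv le_rfl
    have c3 : Continuous T := hTs.continuous
    have c4 : Continuous ρ := hρs.continuous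
    have c5 : Continuous fun b => ρ (b + s * deriv T b) :=
      c4.comp (continuous_id.add (continuous_const.mul c1))
    exact ((Real.continuous_exp.comp
      (c3.add (continuous_const.mul (c1.pow 2)))).mul c5).mul
        (continuous_const.add (continuous_const.mul c2))
  have hle := intervalIntegral.integral_mono (μ := volume) (by positivity : (0 : ℝ) ≤ 2 * Real.pi)
    (hcG.intervalIntegrable 0 (2 * Real.pi)) (hcR.intervalIntegrable 0 (2 * Real.pi)) hpt
  rw [hchg] at hle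
  refine hle.trans (hineq.trans (le_of_eq ?_))
  have e1 : ∀ b, Real.exp (T b) * ρ b =
      dens k (rot J b x) * (h (rot J b x) / hh k (rot J b x) ^ 2) ^ n := by
    intro b
    simp only [hT, hρ, keyL]
    have p1 := hh'.pos _ (hr0 b)
    have p2 := hl.sl.pos _ (hr0 b)
    rw [Real.exp_nat_mul, Real.exp_log (div_pos p1 p2), div_pow, div_pow, ← pow_mul,
      mul_comm 2 n, pow_mul]
    field_simp
  have e2 : s / 4 = 1 / (16 * (n : ℝ)) := by rw [hsdef]; field_simp; norm_num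
  rw [e2, hTd]
  simp only [e1]

theorem key (hn : 2 ≤ n) : ∃ c0 : ℝ, 0 < c0 ∧ ∃ δ0 : ℝ, 0 < δ0 ∧
    ∀ k : E n → ℝ, Small c0 k → ∀ h : E n → ℝ, SL h → ContDiffOn ℝ 2 h {0}ᶜ → Near δ0 h →
    ∀ J : E n →L[ℝ] E n, Gen J →
    vv h ≤ (∫ x, dens k x * (h x / hh k x ^ 2) ^ n ∂(mu n)) -
      1 / (16 * (n : ℝ)) *
        ∫ x, (XX J (fun y => (n : ℝ) * Real.log (h y / hh k y)) x) ^ 2 ∂(mu n) := by
  have hn1 : 1 ≤ n := by omega
  have hnR : (2 : ℝ) ≤ n := by exact_mod_cast hn
  obtain ⟨c1, hc1, hc1', hlow⟩ := low_good hn1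
  refine ⟨min c1 (1 / (20 * n)), lt_min hc1 (by positivity), 1 / (20 * n), by positivity, ?_⟩
  intro k hk h hh' hs hN J hJ
  have hk1 : Small c1 k := ⟨hk.hom, hk.smooth, fun x hx => (hk.b0 x hx).trans (min_le_left _ _),
    fun x hx => (hk.b1 x hx).trans (min_le_left _ _),
    fun x hx => (hk.b2 x hx).trans (min_le_left _ _)⟩
  have hl : LowGood k := hlow k hk1
  have hP : P1 h := hh'.p1
  have hgS : SL (gau h) := gau_SL hn1 hP
  have hgP : P1 (gau h) := hgS.p1
  have hsub : (sphere (0 : E n) 1) ⊆ ({0}ᶜ : Set (E n)) := by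
    intro x hx
    have hx1 : ‖x‖ = 1 := by simpa using hx
    intro h0
    rw [mem_singleton_iff] at h0
    rw [h0, norm_zero] at hx1
    norm_num at hx1
  have hdc : ContinuousOn (dens k) (sphere 0 1) := hl.dens_smooth.continuousOn.mono hsub
  have hGc : ContinuousOn (fun v => dens k v * (gau h (TT k v) ^ n)⁻¹) (sphere 0 1) := by
    refine hdc.mul (ContinuousOn.inv₀ ?_ ?_)
    · exact ((hgP.cont.comp hl.T_cont).pow n).continuousOn
    · intro x hx
      exact (pow_pos (hgS.pos _ (hl.T_ne _ (by simpa using hsub hx))) n).ne'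
  have hRc : ContinuousOn (fun v => dens k v * (h v / hh k v ^ 2) ^ n) (sphere 0 1) := by
    refine hdc.mul (ContinuousOn.pow (ContinuousOn.div hP.cont.continuousOn
      (hl.sl.p1.cont.continuousOn.pow 2) ?_) n)
    intro x hx
    exact (pow_pos (hl.sl.pos _ (by simpa using hsub hx)) 2).ne'
  have hAc : ContinuousOn (fun v => (XX J (keyL h k) v) ^ 2) (sphere 0 1) := by
    refine ContinuousOn.pow ?_ 2
    exact ((key_XX_smooth (J := J) (m := 1) (keyL_smooth hh' hs hl)
      (by norm_num)).continuousOn).mono hsub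
  set D : E n → ℝ := fun v => dens k v * (h v / hh k v ^ 2) ^ n -
      1 / (16 * (n : ℝ)) * (XX J (keyL h k) v) ^ 2 -
      dens k v * (gau h (TT k v) ^ n)⁻¹ with hD
  have hDc : ContinuousOn D (sphere 0 1) := (hRc.sub (continuousOn_const.mul hAc)).sub hGc
  have hcirc := circ_avg hn1 hJ hDc
  have hnonneg : 0 ≤ ∫ x, (∫ b in (0 : ℝ)..(2 * Real.pi), D (rot J b x)) ∂(mu n) := by
    apply integral_nonneg_of_ae
    filter_upwards [mu_ae hn1] with x hx
    have hx0 : x ≠ 0 := by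
      intro h0; rw [h0, norm_zero] at hx; norm_num at hx
    have hmain := key_circle hn hh' hs hk hl (min_le_right _ _) (by positivity) le_rfl hN hJ hx
    have hmaps : ∀ b : ℝ, rot J b x ∈ sphere (0 : E n) 1 := fun b => by
      simp [norm_rot hJ, hx]
    have hrc : Continuous fun b : ℝ => rot J b x := (key_rot_smooth (m := 0) J x).continuous
    have i1 : IntervalIntegrable
        (fun b => dens k (rot J b x) * (h (rot J b x) / hh k (rot J b x) ^ 2) ^ n)
        volume 0 (2 * Real.pi) :=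
      (hRc.comp_continuous hrc hmaps).intervalIntegrable 0 (2 * Real.pi)
    have i2 : IntervalIntegrable (fun b => 1 / (16 * (n : ℝ)) * (XX J (keyL h k) (rot J b x)) ^ 2)
        volume 0 (2 * Real.pi) :=
      ((hAc.comp_continuous hrc hmaps).intervalIntegrable 0 (2 * Real.pi)).const_mul _
    have i3 : IntervalIntegrable
        (fun b => dens k (rot J b x) * (gau h (TT k (rot J b x)) ^ n)⁻¹)
        volume 0 (2 * Real.pi) :=
      (hGc.comp_continuous hrc hmaps).intervalIntegrable 0 (2 * Real.pi)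
    simp only [hD, Pi.zero_apply]
    rw [intervalIntegral.integral_sub (i1.sub i2) i3,
      intervalIntegral.integral_sub i1 i2, intervalIntegral.integral_const_mul]
    linarith
  rw [hcirc] at hnonneg
  have hpos : 0 ≤ ∫ x, D x ∂(mu n) := by
    by_contra hneg
    push Not at hneg
    have := mul_neg_of_pos_of_neg (by positivity : (0 : ℝ) < 2 * Real.pi) hneg
    linarith
  have i1 := integrable_mu hn1 hRc
  have i2 : Integrable (fun v => 1 / (16 * (n : ℝ)) * (XX J (keyL h k) v) ^ 2) (mu n) :=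
    (integrable_mu hn1 hAc).const_mul _
  have i3 := integrable_mu hn1 hGc
  have i12 : Integrable (fun v => dens k v * (h v / hh k v ^ 2) ^ n -
      1 / (16 * (n : ℝ)) * (XX J (keyL h k) v) ^ 2) (mu n) := i1.sub i2
  simp only [hD] at hpos
  rw [integral_sub i12 i3, integral_sub i1 i2, integral_const_mul] at hpos
  rw [hl.vol hn1 hP]
  change _ ≤ _ - _ * ∫ x, (XX J (keyL h k) x) ^ 2 ∂(mu n)
  linarith

end Pool.Agent.H35.CA
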