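import Pool.Agent.H35.CA.SphC
import Pool.Agent.H35.CA.GauA

/-!
# Job KEY1: bounds for the derivatives of a convex function along rotations

Notation: `X F = XX J F` is the derivative of `F` along the rotation field.
`conv_bounds` (`‖x‖ = 1`, `Near δ h`): `⟨∇h x, y⟩ ≤ h y` for all `y` (convexity and
homogeneity), so `‖∇h x‖ ≤ 1 + δ`; `⟨∇h x, x⟩ = h x ≥ 1 - δ`; `J x ⊥ x`, `‖J x‖ ≤ 1`; so
`(XX J h x)^2 ≤ (1+δ)^2 - (1-δ)^2 = 4 δ`.  And `XX J (XX J h) x` is the second derivative of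
`b ↦ h (rot J b x)` at 0, that is `D²h (Jx, Jx) + Dh (J J x) ≥ - ‖∇h x‖ ≥ - (1 + δ)`.
-/

namespace Pool.Agent.H35.CA

open MeasureTheory Metric Set

variable {n : ℕ}

theorem key1_line {h : E n → ℝ} {x : E n} (hd : DifferentiableAt ℝ h x) (y : E n) :
    Filter.Tendsto (fun t : ℝ => t⁻¹ * (h (x + t • y) - h x)) (nhdsWithin 0 (Set.Ioi 0))
      (nhds (fderiv ℝ h x y)) := by
  have h3 : HasDerivAt (fun t : ℝ => h (x + t • y)) (fderiv ℝ h x y) 0 := by
    have h4 : HasDerivAt (fun t : ℝ => x + t • y) y 0 := by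
      have := ((hasDerivAt_id (0 : ℝ)).smul_const y).const_add x
      simpa using this
    have h5 : HasFDerivAt h (fderiv ℝ h x) (x + (0 : ℝ) • y) := by
      simpa using hd.hasFDerivAt
    exact h5.comp_hasDerivAt (0 : ℝ) h4
  have h6 := h3.tendsto_slope_zero_right
  simpa using h6

theorem key1_first {h : E n → ℝ} (hh' : SL h) {δ : ℝ} (h0 : 0 ≤ δ) (h1 : δ ≤ 1 / 2)
    (hN : Near δ h) {x v : E n} (hx : ‖x‖ = 1) (hd : DifferentiableAt ℝ h x)
    (hv : ‖v‖ ≤ 1) (hxv : inner ℝ x v = 0) : (fderiv ℝ h x v) ^ 2 ≤ 4 * δ := by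
  have hb := fun y => (Near.bound hh'.p1 hN y).2
  have hle : ∀ y, fderiv ℝ h x y ≤ h y := by
    intro y
    apply le_of_tendsto (key1_line hd y)
    filter_upwards [self_mem_nhdsWithin] with t ht
    have ht' : (0 : ℝ) < t := ht
    have h3 := hh'.sub x (t • y)
    rw [hh'.hom t ht'.le y] at h3
    rw [inv_mul_le_iff₀ ht']
    linarith
  have heul : fderiv ℝ h x x = h x := by
    apply tendsto_nhds_unique (key1_line hd x)
    apply tendsto_const_nhds.congr'
    filter_upwards [self_mem_nhdsWithin] with t ht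
    have ht' : (0 : ℝ) < t := ht
    have h3 : x + t • x = (1 + t) • x := by rw [add_smul, one_smul]
    rw [h3, hh'.hom (1 + t) (by linarith) x]
    field_simp
    ring
  have ha : 1 - δ ≤ fderiv ℝ h x x := by
    rw [heul]
    have := hN x hx
    rw [abs_le] at this
    linarith [this.1]
  set a := fderiv ℝ h x x with hadef
  set c := fderiv ℝ h x v with hcdef
  have hD : fderiv ℝ h x (a • x + c • v) = a ^ 2 + c ^ 2 := by
    rw [map_add, map_smul, map_smul, ← hadef, ← hcdef]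
    simp only [smul_eq_mul]
    ring
  have hnorm : ‖a • x + c • v‖ ^ 2 ≤ a ^ 2 + c ^ 2 := by
    rw [norm_add_sq_real, norm_smul, norm_smul, inner_smul_left, inner_smul_right, hxv, hx]
    simp only [mul_zero, Real.norm_eq_abs, mul_pow, sq_abs, one_pow, mul_one, add_zero]
    have : ‖v‖ ^ 2 ≤ 1 := by
      have := norm_nonneg v
      nlinarith
    nlinarith [sq_nonneg c]
  have h3 := (hle (a • x + c • v)).trans (hb _)
  rw [hD] at h3
  have hN0 := norm_nonneg (a • x + c • v)
  set N := ‖a • x + c • v‖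
  have hS : 0 < a ^ 2 + c ^ 2 := by nlinarith [sq_nonneg c]
  have h4 : (a ^ 2 + c ^ 2) ^ 2 ≤ (1 + δ) ^ 2 * (a ^ 2 + c ^ 2) := by
    have h5 : (a ^ 2 + c ^ 2) ^ 2 ≤ ((1 + δ) * N) ^ 2 := pow_le_pow_left₀ hS.le h3 2
    rw [mul_pow] at h5
    exact h5.trans (mul_le_mul_of_nonneg_left hnorm (sq_nonneg _))
  have h6 : a ^ 2 + c ^ 2 ≤ (1 + δ) ^ 2 := by
    by_contra hcon
    push Not at hcon
    nlinarith
  nlinarith

/-- Second order condition at a minimum. -/
theorem key1_second {f g : ℝ → ℝ} {c : ℝ} (hf : ∀ b, HasDerivAt f (g b) b)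
    (hg : HasDerivAt g c 0) (hg0 : g 0 = 0) (hf0 : f 0 = 0) (hpos : ∀ b, 0 ≤ f b) : 0 ≤ c := by
  by_contra hc
  push Not at hc
  have hd : deriv f = g := by
    funext b
    exact (hf b).deriv
  have h1 : IsLocalMax f 0 := by
    apply isLocalMax_of_deriv_deriv_neg
    · rw [hd, hg.deriv]
      exact hc
    · rw [hd]
      exact hg0
    · exact (hf 0).continuousAt
  have h2 : f =ᶠ[nhds 0] fun _ => (0 : ℝ) := by
    have h3 : ∀ᶠ b in nhds 0, f b ≤ f 0 := h1
    filter_upwards [h3] with b hb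
    rw [hf0] at hb
    exact le_antisymm hb (hpos b)
  have h4 : g =ᶠ[nhds 0] fun _ => (0 : ℝ) := by
    have h5 := h2.deriv
    rw [hd] at h5
    simpa using h5
  have h6 : deriv g 0 = 0 := by
    have := h4.deriv_eq
    simpa using this
  rw [hg.deriv] at h6
  linarith

theorem conv_bounds (hn : 1 ≤ n) {h : E n → ℝ} (hh' : SL h) (hs : ContDiffOn ℝ 2 h {0}ᶜ)
    {δ : ℝ} (h0 : 0 ≤ δ) (h1 : δ ≤ 1 / 2) (hN : Near δ h) {J : E n →L[ℝ] E n} (hJ : Gen J)
    {x : E n} (hx : ‖x‖ = 1) :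
    (XX J h x) ^ 2 ≤ 4 * δ ∧ -(1 + δ) ≤ XX J (XX J h) x := by
  have hne : ∀ y : E n, ‖y‖ = 1 → y ≠ 0 := by
    intro y hy h0
    rw [h0, norm_zero] at hy
    exact zero_ne_one hy
  have hopen : IsOpen ({0}ᶜ : Set (E n)) := isOpen_compl_singleton
  have hdiff : ∀ y : E n, y ≠ 0 → DifferentiableAt ℝ h y := fun y hy =>
    (hs.contDiffAt (hopen.mem_nhds hy)).differentiableAt (by norm_num)
  have hdiff2 : ∀ y : E n, y ≠ 0 → DifferentiableAt ℝ (XX J h) y := by
    intro y hy
    have h3 : ContDiffOn ℝ 1 (fderiv ℝ h) ({0}ᶜ : Set (E n)) :=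
      hs.fderiv_of_isOpen hopen (by norm_num)
    have h4 : DifferentiableAt ℝ (fderiv ℝ h) y :=
      (h3.contDiffAt (hopen.mem_nhds hy)).differentiableAt (by norm_num)
    exact h4.clm_apply J.differentiableAt
  constructor
  · refine key1_first hh' h0 h1 hN hx (hdiff x (hne x hx)) ?_ ?_
    · rw [← hx]
      exact norm_J_le hJ x
    · rw [real_inner_comm]
      exact inner_J_self hJ x
  · have hrn : ∀ b, rot J b x ≠ 0 := by
      intro b
      apply hne
      rw [norm_rot hJ, hx]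
    have hphi : ∀ b, HasDerivAt (fun b => h (rot J b x)) (XX J h (rot J b x)) b := by
      intro b
      exact (hdiff _ (hrn b)).hasFDerivAt.comp_hasDerivAt b (rot_deriv hJ b x)
    have hphi2 : ∀ b, HasDerivAt (fun b => XX J h (rot J b x)) (XX J (XX J h) (rot J b x)) b := by
      intro b
      exact (hdiff2 _ (hrn b)).hasFDerivAt.comp_hasDerivAt b (rot_deriv hJ b x)
    have hneg : ∀ b : ℝ, HasDerivAt (fun b : ℝ => -b) (-1) b := fun b => hasDerivAt_neg b
    have h3 := key1_second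
      (f := fun b => h (rot J b x) + h (rot J (-b) x) - 2 * h x + (1 + δ) * b ^ 2)
      (g := fun b => XX J h (rot J b x) - XX J h (rot J (-b) x) + (1 + δ) * (2 * b))
      (c := 2 * XX J (XX J h) x + 2 * (1 + δ)) ?_ ?_ ?_ ?_ ?_
    · linarith
    · intro b
      have e1 := hphi b
      have e2 : HasDerivAt (fun b => h (rot J (-b) x)) (XX J h (rot J (-b) x) * (-1)) b :=
        (hphi (-b)).comp b (hneg b)
      have e3 : HasDerivAt (fun b : ℝ => (1 + δ) * b ^ 2) ((1 + δ) * (2 * b)) b := by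
        have := (hasDerivAt_pow 2 b).const_mul (1 + δ)
        simpa using this
      have e4 := ((e1.add e2).sub_const (2 * h x)).add e3
      refine e4.congr_deriv ?_
      ring
    · have e1 := hphi2 0
      have e2 : HasDerivAt (fun b => XX J h (rot J (-b) x))
          (XX J (XX J h) (rot J (-(0 : ℝ)) x) * (-1)) 0 :=
        (hphi2 (-0)).comp 0 (hneg 0)
      have e3 : HasDerivAt (fun b : ℝ => (1 + δ) * (2 * b)) ((1 + δ) * (2 * 1)) 0 :=
        ((hasDerivAt_id (0 : ℝ)).const_mul 2).const_mul (1 + δ)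
      have e4 := (e1.sub e2).add e3
      rw [neg_zero, rot_zero] at e4
      refine e4.congr_deriv ?_
      ring
    · simp
    · simp only [neg_zero, rot_zero]
      ring
    · intro b
      have hsum : rot J b x + rot J (-b) x = (2 : ℝ) • (x + (1 - Real.cos b) • J (J x)) := by
        simp only [rot, Real.sin_neg, Real.cos_neg, neg_smul]
        module
      have e1 := hh'.sub (rot J b x) (rot J (-b) x)
      rw [hsum, hh'.hom 2 (by norm_num)] at e1
      have e2 := hh'.sub (x + (1 - Real.cos b) • J (J x)) (-((1 - Real.cos b) • J (J x)))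
      rw [add_neg_cancel_right] at e2
      have e3 := (Near.bound hh'.p1 hN (-((1 - Real.cos b) • J (J x)))).2
      have hcos : 0 ≤ 1 - Real.cos b := by linarith [Real.cos_le_one b]
      have hcos2 : 1 - Real.cos b ≤ b ^ 2 / 2 := by linarith [Real.one_sub_sq_div_two_le_cos (x := b)]
      have e4 : ‖-((1 - Real.cos b) • J (J x))‖ ≤ b ^ 2 / 2 := by
        rw [norm_neg, norm_smul, Real.norm_eq_abs, abs_of_nonneg hcos]
        have e5 : ‖J (J x)‖ ≤ 1 := by
          rw [← hx]
          exact (norm_J_le hJ _).trans (norm_J_le hJ x)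
        have := norm_nonneg (J (J x))
        nlinarith
      have e6 : (1 + δ) * ‖-((1 - Real.cos b) • J (J x))‖ ≤ (1 + δ) * (b ^ 2 / 2) :=
        mul_le_mul_of_nonneg_left e4 (by linarith)
      nlinarith

end Pool.Agent.H35.CA
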