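import Pool.Agent.H35.CA.ShA

/-!
# Job SHE: existence of the family of spherical harmonics

Proof hints.
`exists_SH`: in `Lp ℝ 2 (mu n)` let `W K` be the finite-dimensional space of the classes of
`ev P`, `P.totalDegree ≤ K` (for instance the image of
`MvPolynomial.restrictTotalDegree (Fin n) ℝ K`), and for each `K` choose an orthonormal basis
of `W K ⊓ (W (K-1))ᗮ` (for `K = 0` of `W 0`), each basis vector represented by a polynomial of
total degree at most `K`.  Two polynomials with the same class agree on the unit sphere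
(`mu_full`).  `eig`: let `Y` be one of them.  Write `Y = Y_K + lower`, `Y_K` homogeneous of
degree `K`.  By `lap_hom`, `lapP Y + lam n K * Y` agrees on the sphere with a polynomial `R` of
degree `≤ K - 1` (on the sphere `|x|^2 = 1`).  For `Q` of degree `≤ K-1`,
`∫ R Q = ∫ Y lapP Q + lam ∫ Y Q = 0`; so `∫ R^2 = 0` and `R = 0` on the sphere.
`span`: induction on `K`.
-/

namespace Pool.Agent.H35.CA

open MeasureTheory Metric Set

variable {n : ℕ}

/-- Orthonormal bases adapted to an increasing sequence of finite-dimensional subspaces. -/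
theorem shE_abs {H : Type} [NormedAddCommGroup H] [InnerProductSpace ℝ H]
    (V : ℕ → Submodule ℝ H) (h0 : V 0 = ⊥) (hm : ∀ k, V k ≤ V (k + 1))
    (hfd : ∀ k, FiniteDimensional ℝ (V k)) :
    ∃ (m : ℕ → ℕ) (b : (k : ℕ) → Fin (m k) → H), (∀ k i, b k i ∈ V (k + 1)) ∧
      (∀ k i, ∀ f ∈ V k, inner ℝ f (b k i) = 0) ∧
      (∀ k i j, inner ℝ (b k i) (b k j) = if i = j then (1 : ℝ) else 0) ∧
      ∀ K, ∀ f ∈ V K, f = ∑ k ∈ Finset.range K, ∑ i, inner ℝ (b k i) f • b k i := by
  have hmono : Monotone V := monotone_nat_of_le_succ hm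
  let U : ℕ → Submodule ℝ H := fun k => (V k)ᗮ ⊓ V (k + 1)
  have hU : ∀ k, FiniteDimensional ℝ (U k) := fun k =>
    Submodule.finiteDimensional_of_le inf_le_right
  let bb : (k : ℕ) → OrthonormalBasis (Fin (Module.finrank ℝ (U k))) ℝ (U k) :=
    fun k => stdOrthonormalBasis ℝ (U k)
  refine ⟨fun k => Module.finrank ℝ (U k), fun k i => ((bb k i : U k) : H), fun k i => ?_,
    fun k i f hf => ?_, fun k i j => ?_, ?_⟩
  · exact (bb k i).2.2
  · exact (bb k i).2.1 f hf
  · have h1 := orthonormal_iff_ite.mp (bb k).orthonormal i j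
    rw [← h1]
    rfl
  · intro K
    induction K with
    | zero =>
      intro f hf
      rw [h0, Submodule.mem_bot] at hf
      rw [hf, Finset.range_zero, Finset.sum_empty]
    | succ K ih =>
      intro f hf
      have h1 : V K ⊔ (V K)ᗮ ⊓ V (K + 1) = V (K + 1) :=
        Submodule.sup_orthogonal_inf_of_hasOrthogonalProjection (hm K)
      rw [← h1, Submodule.mem_sup] at hf
      obtain ⟨g, hg, h, hh, rfl⟩ := hf
      rw [Finset.sum_range_succ]
      have e1 : ∑ k ∈ Finset.range K, ∑ i, inner ℝ ((bb k i : U k) : H) (g + h) •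
          ((bb k i : U k) : H) = g := by
        conv_rhs => rw [ih g hg]
        refine Finset.sum_congr rfl fun k hk => Finset.sum_congr rfl fun i _ => ?_
        have hk' : V (k + 1) ≤ V K := hmono (Finset.mem_range.mp hk)
        have h2 : inner ℝ ((bb k i : U k) : H) h = (0 : ℝ) := hh.1 _ (hk' (bb k i).2.2)
        rw [inner_add_right, h2, add_zero]
      have e2 : ∑ i, inner ℝ ((bb K i : U K) : H) (g + h) • ((bb K i : U K) : H) = h := by
        have h3 := (bb K).sum_repr' (⟨h, hh⟩ : U K)
        have h4 := congrArg (fun z : U K => (z : H)) h3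
        simp only [Submodule.coe_sum, Submodule.coe_smul] at h4
        conv_rhs => rw [← h4]
        refine Finset.sum_congr rfl fun i _ => ?_
        have h5 : inner ℝ ((bb K i : U K) : H) g = (0 : ℝ) := by
          rw [real_inner_comm]
          exact (bb K i).2.1 g hg
        rw [inner_add_right, h5, zero_add]
        rfl
      rw [e1, e2]

theorem shE_cont (P : Pol n) : ContinuousOn (ev P) (sphere (0 : E n) 1) :=
  (ev_smooth P).continuous.continuousOn

theorem shE_memLp (hn : 1 ≤ n) (P : Pol n) : MemLp (ev P) 2 (mu n) := by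
  have := mu_prob hn
  obtain ⟨C, hC⟩ := (isCompact_sphere (0 : E n) 1).exists_bound_of_continuousOn (shE_cont P)
  refine MemLp.of_bound (ev_smooth P).continuous.aestronglyMeasurable C ?_
  filter_upwards [mu_ae hn] with x hx
  exact hC x (by simpa using hx)

/-- The class of a polynomial in `L²`. -/
noncomputable def shEphi (hn : 1 ≤ n) : Pol n →ₗ[ℝ] Lp ℝ 2 (mu n) where
  toFun P := (shE_memLp hn P).toLp (ev P)
  map_add' P Q := by
    rw [← MemLp.toLp_add]
    exact MemLp.toLp_congr _ _ (Filter.Eventually.of_forall fun x => ev_add P Q x)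
  map_smul' c P := by
    rw [RingHom.id_apply, ← MemLp.toLp_const_smul]
    exact MemLp.toLp_congr _ _ (Filter.Eventually.of_forall fun x => ev_smul c P x)

theorem shE_inner (hn : 1 ≤ n) (P Q : Pol n) :
    inner ℝ (shEphi hn P) (shEphi hn Q) = ∫ x, ev P x * ev Q x ∂(mu n) := by
  rw [L2.inner_def]
  refine integral_congr_ae ?_
  filter_upwards [(shE_memLp hn P).coeFn_toLp, (shE_memLp hn Q).coeFn_toLp] with x hx hy
  change inner ℝ ((shE_memLp hn P).toLp (ev P) x) ((shE_memLp hn Q).toLp (ev Q) x) = _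
  rw [hx, hy]
  simp [mul_comm]

theorem shE_sphere (hn : 1 ≤ n) {P : Pol n} (h : ∫ x, ev P x * ev P x ∂(mu n) = 0) :
    ∀ x : E n, ‖x‖ = 1 → ev P x = 0 := by
  intro x hx
  have h1 := mu_full hn (F := fun x => ev P x * ev P x) ((shE_cont P).mul (shE_cont P))
    (fun x _ => mul_self_nonneg _) h x hx
  exact mul_self_eq_zero.mp h1

theorem shE_eq (hn : 1 ≤ n) {P Q : Pol n} (h : shEphi hn P = shEphi hn Q) :
    ∀ x : E n, ‖x‖ = 1 → ev P x = ev Q x := by
  have h1 : shEphi hn (P - Q) = 0 := by rw [map_sub, h, sub_self]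
  have h2 := shE_inner hn (P - Q) (P - Q)
  rw [h1, inner_zero_left] at h2
  intro x hx
  have h3 := shE_sphere hn h2.symm x hx
  rw [ev_sub, sub_eq_zero] at h3
  exact h3

/-- The classes of the polynomials of degree `< K`. -/
noncomputable def shEV (hn : 1 ≤ n) : ℕ → Submodule ℝ (Lp ℝ 2 (mu n))
  | 0 => ⊥
  | K + 1 => (MvPolynomial.restrictTotalDegree (Fin n) ℝ K).map (shEphi hn)

theorem shE_mem (hn : 1 ≤ n) (K : ℕ) (f : Lp ℝ 2 (mu n)) :
    f ∈ shEV hn (K + 1) ↔ ∃ P : Pol n, P.totalDegree ≤ K ∧ shEphi hn P = f := by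
  rw [shEV, Submodule.mem_map]
  simp only [MvPolynomial.mem_restrictTotalDegree]

theorem shE_mono (hn : 1 ≤ n) (k : ℕ) : shEV hn k ≤ shEV hn (k + 1) := by
  cases k with
  | zero => exact bot_le
  | succ k =>
    intro f hf
    obtain ⟨P, hP, rfl⟩ := (shE_mem hn k f).mp hf
    exact (shE_mem hn (k + 1) _).mpr ⟨P, hP.trans (Nat.le_succ k), rfl⟩

theorem shE_fd (hn : 1 ≤ n) (k : ℕ) : FiniteDimensional ℝ (shEV hn k) := by
  cases k with
  | zero =>
    rw [shEV]
    infer_instance
  | succ k =>
    rw [shEV]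
    infer_instance

theorem shE_lapP_zero : lapP (0 : Pol n) = 0 := by
  have h := lapP_smul (0 : ℝ) (0 : Pol n)
  rwa [zero_smul, zero_smul] at h

theorem shE_lapP_sum (s : Finset ℕ) (f : ℕ → Pol n) :
    lapP (∑ j ∈ s, f j) = ∑ j ∈ s, lapP (f j) := by
  classical
  induction s using Finset.induction_on with
  | empty => rw [Finset.sum_empty, Finset.sum_empty, shE_lapP_zero]
  | insert a s ha ih => rw [Finset.sum_insert ha, Finset.sum_insert ha, lapP_add, ih]

/-- The sum of the squares of the variables is `1` on the sphere. -/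
theorem shE_q {x : E n} (hx : ‖x‖ = 1) : ev (∑ i : Fin n, MvPolynomial.X i ^ 2 : Pol n) x = 1 := by
  rw [ev_sum]
  have h1 : ‖x‖ ^ 2 = ∑ i, ‖x i‖ ^ 2 := EuclideanSpace.norm_sq_eq x
  rw [hx, one_pow] at h1
  rw [h1]
  refine Finset.sum_congr rfl fun i _ => ?_
  unfold ev
  rw [map_pow, MvPolynomial.eval_X, Real.norm_eq_abs, sq_abs]

/-- The Laplacian of the variables. -/
noncomputable def shED (P : Pol n) : Pol n :=
  ∑ i, MvPolynomial.pderiv i (MvPolynomial.pderiv i P)

/-- Reduction of `lapP Y + lam Y` on the sphere to lower degree. -/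
theorem shE_red (k : ℕ) (P : Pol n) (hP : P.totalDegree ≤ k + 1) :
    ∃ R : Pol n, R.totalDegree ≤ k ∧
      ∀ x : E n, ‖x‖ = 1 → ev R x = ev (lapP P) x + lam n (k + 1) * ev P x := by
  have hs : P = ∑ j ∈ Finset.range (k + 1 + 1), MvPolynomial.homogeneousComponent j P := by
    conv_lhs => rw [← MvPolynomial.sum_homogeneousComponent P]
    refine Finset.sum_subset (Finset.range_subset_range.mpr (Nat.succ_le_succ hP)) ?_
    intro j _ hj
    rw [Finset.mem_range, not_lt] at hj
    exact MvPolynomial.homogeneousComponent_eq_zero _ _ (Nat.lt_of_succ_le hj)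
  refine ⟨∑ j ∈ Finset.range (k + 1 + 1), (shED (MvPolynomial.homogeneousComponent j P) +
    (lam n (k + 1) - lam n j) • MvPolynomial.homogeneousComponent j P), ?_, ?_⟩
  · refine MvPolynomial.totalDegree_finsetSum_le fun j hj => ?_
    rw [Finset.mem_range] at hj
    have hh := MvPolynomial.homogeneousComponent_isHomogeneous j P
    refine (MvPolynomial.totalDegree_add _ _).trans (max_le ?_ ?_)
    · refine MvPolynomial.totalDegree_finsetSum_le fun i _ => ?_
      refine (hh.pderiv.pderiv).totalDegree_le.trans ?_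
      omega
    · rcases Nat.lt_or_ge j (k + 1) with hjk | hjk
      · refine (MvPolynomial.totalDegree_smul_le _ _).trans (hh.totalDegree_le.trans ?_)
        omega
      · have : j = k + 1 := by omega
        rw [this, sub_self, zero_smul, MvPolynomial.totalDegree_zero]
        exact Nat.zero_le k
  · intro x hx
    have e1 : ∀ j, lapP (MvPolynomial.homogeneousComponent j P) =
        (∑ i, MvPolynomial.X i ^ 2) * shED (MvPolynomial.homogeneousComponent j P)
          - (lam n j) • MvPolynomial.homogeneousComponent j P := fun j =>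
      lap_hom _ j (MvPolynomial.homogeneousComponent_isHomogeneous j P)
    conv_rhs => rw [hs]
    rw [shE_lapP_sum, ev_sum, ev_sum, ev_sum, Finset.mul_sum, ← Finset.sum_add_distrib]
    refine Finset.sum_congr rfl fun j _ => ?_
    rw [e1, ev_add, ev_sub, ev_mul, shE_q hx, ev_smul, ev_smul]
    ring

theorem exists_SH (hn : 2 ≤ n) : Nonempty (SHFam n) := by
  have hn1 : 1 ≤ n := by omega
  obtain ⟨m, b, hb1, hb2, hb3, hb4⟩ := shE_abs (shEV hn1) rfl (shE_mono hn1) (shE_fd hn1)
  have hrep : ∀ k (i : Fin (m k)), ∃ P : Pol n, P.totalDegree ≤ k ∧ shEphi hn1 P = b k i :=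
    fun k i => (shE_mem hn1 k _).mp (hb1 k i)
  choose Y hYd hY using hrep
  have hmono : Monotone (shEV hn1) := monotone_nat_of_le_succ (shE_mono hn1)
  have hperp : ∀ (k : ℕ) (i : Fin (m (k + 1))) (Q : Pol n), Q.totalDegree ≤ k →
      ∫ x, ev Q x * ev (Y (k + 1) i) x ∂(mu n) = 0 := by
    intro k i Q hQ
    rw [← shE_inner hn1, hY]
    exact hb2 (k + 1) i _ ((shE_mem hn1 k _).mpr ⟨Q, hQ, rfl⟩)
  have hdiff : ∀ k l (i : Fin (m k)) (j : Fin (m l)), k < l →
      ∫ x, ev (Y k i) x * ev (Y l j) x ∂(mu n) = 0 := by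
    intro k l i j hkl
    rw [← shE_inner hn1, hY, hY]
    exact hb2 l j _ (hmono hkl (hb1 k i))
  refine ⟨{ m := m, Y := Y, deg := hYd, ortho_self := ?_, ortho_same := ?_, ortho_diff := ?_,
            eig := ?_, span := ?_ }⟩
  · intro k i
    rw [← shE_inner hn1, hY, hb3, if_pos rfl]
  · intro k i j hij
    rw [← shE_inner hn1, hY, hY, hb3, if_neg hij]
  · intro k l i j hkl
    rcases lt_or_gt_of_ne hkl with h | h
    · exact hdiff k l i j h
    · rw [← hdiff l k j i h]
      exact integral_congr_ae (Filter.Eventually.of_forall fun x => mul_comm _ _)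
  · intro k i x hx
    cases k with
    | zero =>
      have h1 := Nat.le_zero.mp (hYd 0 i)
      rw [MvPolynomial.totalDegree_eq_zero_iff_eq_C] at h1
      have h2 : lapP (Y 0 i) = 0 := by
        rw [h1, lap_hom _ 0 (MvPolynomial.isHomogeneous_C _ _)]
        simp [lam]
      rw [h2]
      have h3 : lam n 0 = 0 := by simp [lam]
      rw [h3]
      simp [ev]
    | succ k =>
      obtain ⟨R, hR, hRx⟩ := shE_red k (Y (k + 1) i) (hYd (k + 1) i)
      have h1 : ∫ x, ev R x * ev R x ∂(mu n) = 0 := by
        have e1 : ∫ x, ev R x * ev R x ∂(mu n) =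
            ∫ x, (ev (lapP (Y (k + 1) i)) x * ev R x +
              lam n (k + 1) * (ev R x * ev (Y (k + 1) i) x)) ∂(mu n) := by
          refine int_congr hn1 fun x hx => ?_
          conv_lhs => rw [hRx x hx]
          rw [hRx x hx]
          ring
        have i1 : Integrable (fun x => ev (lapP (Y (k + 1) i)) x * ev R x) (mu n) :=
          integrable_mu hn1 ((shE_cont _).mul (shE_cont _))
        have i2 : Integrable (fun x => lam n (k + 1) * (ev R x * ev (Y (k + 1) i) x)) (mu n) :=
          integrable_mu hn1 (continuousOn_const.mul ((shE_cont _).mul (shE_cont _)))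
        rw [e1, integral_add i1 i2, integral_const_mul, hperp k i R hR, lap_symm hn1]
        have e2 : ∫ x, ev (Y (k + 1) i) x * ev (lapP R) x ∂(mu n) = 0 := by
          rw [← hperp k i (lapP R) ((lapP_deg R).trans hR)]
          exact integral_congr_ae (Filter.Eventually.of_forall fun x => mul_comm _ _)
        rw [e2]
        ring
      have h2 := shE_sphere hn1 h1 x hx
      rw [hRx x hx] at h2
      linarith
  · intro K P hP
    refine ⟨fun k i => inner ℝ (b k i) (shEphi hn1 P), ?_⟩
    have h1 := hb4 (K + 1) (shEphi hn1 P) ((shE_mem hn1 K _).mpr ⟨P, hP, rfl⟩)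
    have h2 : shEphi hn1 P = shEphi hn1 (∑ k ∈ Finset.range (K + 1), ∑ i,
        (inner ℝ (b k i) (shEphi hn1 P) : ℝ) • Y k i) := by
      conv_lhs => rw [h1]
      rw [map_sum]
      refine Finset.sum_congr rfl fun k _ => ?_
      rw [map_sum]
      refine Finset.sum_congr rfl fun i _ => ?_
      rw [map_smul, hY]
    intro x hx
    rw [shE_eq hn1 h2 x hx, ev_sum]
    refine Finset.sum_congr rfl fun k _ => ?_
    rw [ev_sum]
    refine Finset.sum_congr rfl fun i _ => ?_
    rw [ev_smul]

end Pool.Agent.H35.CA
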