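import Pool.Agent.H35.CA.ShA

/-!
# Job UAA: the functions `uA`

Proof hints.  `Y3 = Re (x_0 + i x_1)^3`, so `|ev Y3 v| ≤ (v_0² + v_1²)^(3/2) ≤ 1` on the unit
sphere.
`uA_odd`, `uA_int`: `Y3` is odd (`int_odd`).
-/

namespace Pool.Agent.H35.CA

open MeasureTheory Metric Set

variable {n : ℕ}

theorem uaA_un_smul {t : ℝ} (ht : 0 < t) (x : E n) : un (t • x) = un x := by
  unfold un
  rw [norm_smul, Real.norm_of_nonneg ht.le, smul_smul, mul_inv, mul_comm t⁻¹, mul_assoc,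
    inv_mul_cancel₀ ht.ne', mul_one]

theorem uaA_un_neg (x : E n) : un (-x) = - un x := by
  unfold un
  rw [norm_neg, smul_neg]

theorem uaA_un_norm (x : E n) : ‖un x‖ ≤ 1 := by
  unfold un
  rw [norm_smul, norm_inv, norm_norm]
  exact inv_mul_le_one

theorem uaA_ev (hn : 2 ≤ n) (v : E n) : ev (Y3 n hn) v =
    v (⟨0, by omega⟩ : Fin n) ^ 3 -
      3 * v (⟨0, by omega⟩ : Fin n) * v (⟨1, by omega⟩ : Fin n) ^ 2 := by
  simp [ev, Y3]

theorem uaA_ev_abs (hn : 2 ≤ n) (v : E n) (hv : ‖v‖ ≤ 1) : |ev (Y3 n hn) v| ≤ 1 := by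
  rw [uaA_ev]
  set a := v (⟨0, by omega⟩ : Fin n) with ha
  set b := v (⟨1, by omega⟩ : Fin n) with hb
  have h1 : a ^ 2 + b ^ 2 ≤ 1 := by
    have h2 : ‖v‖ ^ 2 = ∑ i, v i ^ 2 := EuclideanSpace.real_norm_sq_eq v
    have h3 : ∑ i ∈ ({⟨0, by omega⟩, ⟨1, by omega⟩} : Finset (Fin n)), v i ^ 2 ≤
        ∑ i, v i ^ 2 :=
      Finset.sum_le_sum_of_subset_of_nonneg (Finset.subset_univ _) fun i _ _ => sq_nonneg _
    have h4 : (⟨0, by omega⟩ : Fin n) ≠ ⟨1, by omega⟩ := by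
      intro h
      have h5 := congrArg Fin.val h
      simp at h5
    rw [Finset.sum_pair h4] at h3
    have h5 : ‖v‖ ^ 2 ≤ 1 := by
      have := norm_nonneg v
      nlinarith
    linarith
  have h2 : (a ^ 3 - 3 * a * b ^ 2) ^ 2 + (3 * a ^ 2 * b - b ^ 3) ^ 2 =
      (a ^ 2 + b ^ 2) ^ 3 := by ring
  have h3 : (a ^ 2 + b ^ 2) ^ 3 ≤ 1 := pow_le_one₀ (by positivity) h1
  have h4 : (a ^ 3 - 3 * a * b ^ 2) ^ 2 ≤ 1 := by
    have := sq_nonneg (3 * a ^ 2 * b - b ^ 3)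
    linarith
  rw [← sq_le_one_iff_abs_le_one]
  exact h4

theorem uA_smooth (hn : 2 ≤ n) (A : E n ≃L[ℝ] E n) :
    ContDiffOn ℝ (⊤ : ℕ∞) (uA hn A) {0}ᶜ := by
  have h1 : ContDiffOn ℝ (⊤ : ℕ∞) (fun x => un (A x)) ({0}ᶜ : Set (E n)) := by
    refine un_smooth.comp A.contDiff.contDiffOn ?_
    intro x hx h
    apply hx
    have h2 : A x = 0 := h
    exact (map_eq_zero_iff A A.injective).1 h2
  exact (ev_smooth (Y3 n hn)).comp_contDiffOn h1

theorem uA_H0 (hn : 2 ≤ n) (A : E n ≃L[ℝ] E n) : H0 (uA hn A) where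
  hom t ht x := by
    unfold uA
    rw [map_smul, uaA_un_smul ht]
  cont := (uA_smooth hn A).continuousOn

theorem uA_abs (hn : 2 ≤ n) (A : E n → E n) (x : E n) : |uA hn A x| ≤ 1 :=
  uaA_ev_abs hn _ (uaA_un_norm _)

theorem uA_odd (hn : 2 ≤ n) (A : E n ≃L[ℝ] E n) (x : E n) : uA hn A (-x) = - uA hn A x := by
  unfold uA
  rw [map_neg, uaA_un_neg, uaA_ev, uaA_ev, PiLp.neg_apply, PiLp.neg_apply]
  ring

theorem uA_int (hn : 2 ≤ n) (A : E n ≃L[ℝ] E n) : ∫ x, uA hn A x ∂(mu n) = 0 :=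
  int_odd (by omega) (uA_odd hn A)

theorem uA_scale (hn : 2 ≤ n) (A B : E n → E n) {c : ℝ} (hc : 0 < c)
    (h : ∀ x, B x = c • A x) : uA hn B = uA hn A := by
  funext x
  unfold uA
  rw [h, uaA_un_smul hc]

/-- The model function at `A x`. -/
theorem psi_uA (hn : 2 ≤ n) (ε : ℝ) (A : E n ≃L[ℝ] E n) (x : E n) :
    psi ε (uA hn (fun y => y)) (A x) = psi ε (uA hn A) x := rfl

theorem psi_H0 (ε : ℝ) {u : E n → ℝ} (hu : H0 u) : H0 (psi ε u) where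
  hom t ht x := by
    unfold psi
    rw [hu.hom t ht x]
  cont := by
    unfold psi
    exact (continuousOn_const.add (continuousOn_const.mul hu.cont)).sub
      (continuousOn_const.mul (hu.cont.pow 2))

end Pool.Agent.H35.CA
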