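import Pool.Agent.H35.CA.Vex
import Pool.Agent.H35.CA.UaA
import Pool.Agent.H35.CA.ShE

/-!
# Job LCO: the competitor

Proof hints.  Let `y = ev Y3`, `N = sq y`, `P = (-(ε/(n+3))) • Y3`, `h = hh (pk P)`, so
`h = 1 - ε y/(n+3)` on the sphere; `SL h` by `low_good` for small `ε`.
`lapP Y3 = -3(n+1) • Y3` (`lap_hom`; `Y3` is harmonic: `6 x_0 - 6 x_0 = 0`), `∫ y = 0` (odd),
`∫ y ⟨z,x⟩ = 0` (`lap_symm` with the polynomial `⟨z,x⟩`, on which `lapP` is `-(n-1)`).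
`vol_exp`: `vv h ≥ 1 - (n/2) (2n+4) ε² N/(n+3)² - C ε³` (as `-3(n+1) + (n-1) = -(2n+4)`).
With `κ = - n/(2(n+3))`, `ψ = 1 + ε y + κ ε² y²` and `φ = -ε y/(n+3)`:
`∫ ψ h^(-n) ≥ 1 + κ ε² N + n ε² N/(n+3) + n(n+1)/2 ε² N/(n+3)² - C ε³`.  The product is
`≥ 1 + ε² N (κ + n/(n+3) - n/(2(n+3))) - C ε³ = 1 - C ε³`, since
`- n(2n+4)/2 + n(n+1)/2 = - n(n+3)/2`.
For the shift: for `a = h x ∈ [1/2, 2]` and `|t| ≤ 1/4`,
`(a - t)^(-n) ≥ a^(-n) + n a^(-n-1) t + c t²` with `c = c(n) > 0`; with `t = ⟨z,x⟩`, and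
`|∫ ψ h^(-n-1) ⟨z,x⟩| ≤ C ε² ‖z‖` (expand to first order, the terms `∫ ⟨z,x⟩` and `∫ y ⟨z,x⟩`
vanish), `∫ ⟨z,x⟩² = ‖z‖²/n`:
`GG ψ h z ≥ GG ψ h 0 - C ε² ‖z‖ + c' ‖z‖² ≥ GG ψ h 0 - C ε⁴`.
-/

namespace Pool.Agent.H35.CA

open MeasureTheory Metric Set

variable {n : ℕ}

theorem lco_taylor_mul {s : ℝ} (hs : s < 1) (m : ℕ) :
    (1 - s) ^ m * (1 + (m : ℝ) * s + m * (m + 1) / 2 * s ^ 2
      + m * (m + 1) * (m + 2) / 6 * s ^ 3) ≤ 1 := by
  induction m with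
  | zero => simp
  | succ m ih =>
    have h0 : 0 < (1 - s) ^ m := pow_pos (by linarith) m
    have h1 : (1 - s) ^ (m + 1) * (1 + ((m + 1 : ℕ) : ℝ) * s
        + ((m + 1 : ℕ) : ℝ) * (((m + 1 : ℕ) : ℝ) + 1) / 2 * s ^ 2
        + ((m + 1 : ℕ) : ℝ) * (((m + 1 : ℕ) : ℝ) + 1) * (((m + 1 : ℕ) : ℝ) + 2) / 6 * s ^ 3)
      = (1 - s) ^ m * (1 + (m : ℝ) * s + m * (m + 1) / 2 * s ^ 2
          + m * (m + 1) * (m + 2) / 6 * s ^ 3)
        - (1 - s) ^ m * (((m : ℝ) + 1) * (m + 2) * (m + 3) / 6 * s ^ 4) := by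
      push_cast
      ring
    have h2 : 0 ≤ (1 - s) ^ m * (((m : ℝ) + 1) * (m + 2) * (m + 3) / 6 * s ^ 4) := by
      have : 0 ≤ s ^ 4 := by positivity
      positivity
    rw [h1]
    linarith

theorem lco_taylor {s : ℝ} (hs : s < 1) (m : ℕ) :
    1 + (m : ℝ) * s + m * (m + 1) / 2 * s ^ 2
      + m * (m + 1) * (m + 2) / 6 * s ^ 3 ≤ ((1 - s) ^ m)⁻¹ := by
  have h0 : 0 < (1 - s) ^ m := pow_pos (by linarith) m
  rw [← one_div, le_div_iff₀ h0, mul_comm]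
  exact lco_taylor_mul hs m

theorem lco_hom (hn : 2 ≤ n) : (Y3 n hn).IsHomogeneous 3 := by
  unfold Y3
  refine MvPolynomial.IsHomogeneous.sub ?_ ?_
  · have h := (MvPolynomial.isHomogeneous_X ℝ (⟨0, by omega⟩ : Fin n)).pow 3
    simpa using h
  · have h1 : (3 : Pol n) = MvPolynomial.C 3 := by rw [map_ofNat]
    rw [h1]
    have h2 := ((MvPolynomial.isHomogeneous_C (Fin n) (3 : ℝ)).mul
      (MvPolynomial.isHomogeneous_X ℝ (⟨0, by omega⟩ : Fin n))).mul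
      ((MvPolynomial.isHomogeneous_X ℝ (⟨1, by omega⟩ : Fin n)).pow 2)
    exact h2

theorem lco_harm (hn : 2 ≤ n) :
    ∑ i : Fin n, MvPolynomial.pderiv i (MvPolynomial.pderiv i (Y3 n hn)) = 0 := by
  have h3 : (3 : Pol n) = MvPolynomial.C 3 := by rw [map_ofNat]
  have h2 : (2 : Pol n) = MvPolynomial.C 2 := by rw [map_ofNat]
  have hp3 : ∀ i : Fin n, MvPolynomial.pderiv i (3 : Pol n) = 0 := fun i => by
    rw [h3, MvPolynomial.pderiv_C]
  have hp2 : ∀ i : Fin n, MvPolynomial.pderiv i (2 : Pol n) = 0 := fun i => by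
    rw [h2, MvPolynomial.pderiv_C]
  have h01 : (⟨0, by omega⟩ : Fin n) ≠ ⟨1, by omega⟩ := by
    intro h
    have := congrArg Fin.val h
    simp at this
  rw [Finset.sum_eq_add (⟨0, by omega⟩ : Fin n) (⟨1, by omega⟩ : Fin n) h01]
  · unfold Y3
    simp [MvPolynomial.pderiv_X_of_ne h01, MvPolynomial.pderiv_X_of_ne h01.symm, hp2, hp3]
    ring
  · intro c _ hc
    unfold Y3
    simp [MvPolynomial.pderiv_X_of_ne hc.1.symm, MvPolynomial.pderiv_X_of_ne hc.2.symm, hp3]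
  · intro h
    exact absurd (Finset.mem_univ _) h
  · intro h
    exact absurd (Finset.mem_univ _) h

theorem lco_lap (hn : 2 ≤ n) : lapP (Y3 n hn) = (-(3 * ((n : ℝ) + 1))) • Y3 n hn := by
  rw [lap_hom (Y3 n hn) 3 (lco_hom hn), lco_harm, mul_zero, zero_sub, ← neg_smul]
  congr 1
  unfold lam
  push_cast
  ring

/-- the linear polynomial -/
noncomputable def lcoL (z : E n) : Pol n := ∑ i : Fin n, MvPolynomial.C (z i) * MvPolynomial.X i

theorem lco_L_ev (z x : E n) : ev (lcoL z) x = inner ℝ z x := by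
  unfold lcoL
  rw [ev_sum, PiLp.inner_apply]
  refine Finset.sum_congr rfl fun i _ => ?_
  rw [ev_mul, ShA_ev_C, ShA_ev_X]
  simp [mul_comm]

theorem lco_L_lap (z : E n) : lapP (lcoL z) = (-((n : ℝ) - 1)) • lcoL z := by
  have hh : (lcoL z).IsHomogeneous 1 := by
    unfold lcoL
    refine MvPolynomial.IsHomogeneous.sum _ _ _ fun i _ => ?_
    have h2 := (MvPolynomial.isHomogeneous_C (Fin n) (z i)).mul
      (MvPolynomial.isHomogeneous_X ℝ i)
    exact h2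
  have h0 : ∀ i : Fin n, MvPolynomial.pderiv i (MvPolynomial.pderiv i (lcoL z)) = 0 := by
    intro i
    unfold lcoL
    rw [map_sum, map_sum]
    refine Finset.sum_eq_zero fun j _ => ?_
    by_cases hj : j = i
    · subst hj
      simp
    · simp [MvPolynomial.pderiv_X_of_ne hj]
  rw [lap_hom (lcoL z) 1 hh, Finset.sum_eq_zero fun i _ => h0 i, mul_zero, zero_sub, ← neg_smul]
  congr 1
  unfold lam
  push_cast
  ring

theorem lco_orth (hn : 2 ≤ n) (z : E n) :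
    ∫ x, ev (Y3 n hn) x * inner ℝ z x ∂(mu n) = 0 := by
  have h1 := lap_symm (by omega) (Y3 n hn) (lcoL z)
  have h2 : ∫ x, ev (lapP (Y3 n hn)) x * ev (lcoL z) x ∂(mu n) =
      (-(3 * ((n : ℝ) + 1))) * ∫ x, ev (Y3 n hn) x * inner ℝ z x ∂(mu n) := by
    rw [← integral_const_mul]
    congr 1
    funext x
    rw [lco_lap, ev_smul, lco_L_ev]
    ring
  have h3 : ∫ x, ev (Y3 n hn) x * ev (lapP (lcoL z)) x ∂(mu n) =
      (-((n : ℝ) - 1)) * ∫ x, ev (Y3 n hn) x * inner ℝ z x ∂(mu n) := by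
    rw [← integral_const_mul]
    congr 1
    funext x
    rw [lco_L_lap, ev_smul, lco_L_ev]
    ring
  rw [h2, h3] at h1
  have h4 : (2 * (n : ℝ) + 4) * ∫ x, ev (Y3 n hn) x * inner ℝ z x ∂(mu n) = 0 := by linarith
  have h5 : (2 * (n : ℝ) + 4) ≠ 0 := by positivity
  exact (mul_eq_zero.1 h4).resolve_left h5

theorem lco_un {x : E n} (hx : ‖x‖ = 1) : un x = x := by
  unfold un
  rw [hx, inv_one, one_smul]

theorem lco_psi (hn : 2 ≤ n) (ε : ℝ) {x : E n} (hx : ‖x‖ = 1) :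
    psi ε (uA hn (fun y => y)) x =
      1 + ε * ev (Y3 n hn) x - (n : ℝ) / (2 * (n + 3)) * ε ^ 2 * ev (Y3 n hn) x ^ 2 := by
  unfold psi uA
  rw [lco_un hx]

theorem lco_ev_neg (hn : 2 ≤ n) (x : E n) : ev (Y3 n hn) (-x) = - ev (Y3 n hn) x := by
  rw [uaA_ev, uaA_ev, PiLp.neg_apply, PiLp.neg_apply]
  ring

/-- the pointwise inequality: `k = n/(2(n+3))`, `c2 = n(n+1)/2`, `c3 = n(n+1)(n+2)/6`. -/
theorem lco_point {m ε b k c2 c3 r y t : ℝ} (hε : 0 < ε) (hε1 : ε ≤ 1)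
    (hb : 0 ≤ b) (hbε : b ≤ ε) (hk0 : 0 ≤ k) (hk1 : k ≤ 1) (hc2 : 0 ≤ c2) (hc3 : 0 ≤ c3)
    (hr : 0 ≤ r) (hr1 : r ≤ 1) (hy : |y| ≤ 1) (ht : |t| ≤ r)
    (hc : ε * c3 * r + k * ε ^ 2 * c2 ≤ c2) :
    1 - (3 * c3 + 3 * c2) * ε ^ 3 + (- (k * ε ^ 2) + c2 * b ^ 2 + m * ε * b) * y ^ 2
      + (2 * c2 * b + m * ε) * (y * t)
      + ((1 - k * ε ^ 2 * y ^ 2) * (m * (t + b * y) + c3 * (t + b * y) ^ 3)
        + ε * y * (1 + c2 * (t + b * y) ^ 2))
    ≤ (1 + ε * y - k * ε ^ 2 * y ^ 2) *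
      (1 + m * (t + b * y) + c2 * (t + b * y) ^ 2 + c3 * (t + b * y) ^ 3) := by
  have hy2 : y ^ 2 ≤ 1 := by
    rw [← sq_abs]
    exact pow_le_one₀ (abs_nonneg _) hy
  have hy4 : 0 ≤ y ^ 4 := by positivity
  have hy4' : y ^ 4 ≤ 1 := by nlinarith [sq_nonneg y]
  have hty : |t * y ^ 3| ≤ r := by
    rw [abs_mul, abs_pow]
    calc |t| * |y| ^ 3 ≤ r * 1 := by
          refine mul_le_mul ht (pow_le_one₀ (abs_nonneg _) hy) (by positivity) hr
      _ = r := mul_one r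
  have hyt : |y * t ^ 3| ≤ r * t ^ 2 := by
    rw [abs_mul, abs_pow]
    calc |y| * |t| ^ 3 ≤ 1 * |t| ^ 3 := by
          refine mul_le_mul_of_nonneg_right hy (by positivity)
      _ = |t| * |t| ^ 2 := by ring
      _ ≤ r * |t| ^ 2 := by
          refine mul_le_mul_of_nonneg_right ht (by positivity)
      _ = r * t ^ 2 := by rw [sq_abs]
  have h1 := (abs_le.1 hty).1
  have h1' := (abs_le.1 hty).2
  have h2 := (abs_le.1 hyt).1
  -- the term with `ε c3`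
  have e1 : ε * c3 * (- (r * t ^ 2) - 3 * b ^ 2 * r) ≤
      ε * c3 * (y * t ^ 3 + 3 * b * t ^ 2 * y ^ 2 + 3 * b ^ 2 * (t * y ^ 3) + b ^ 3 * y ^ 4) := by
    refine mul_le_mul_of_nonneg_left ?_ (by positivity)
    have a1 : 0 ≤ 3 * b * t ^ 2 * y ^ 2 := by positivity
    have a2 : 0 ≤ b ^ 3 * y ^ 4 := by positivity
    have a3 : 3 * b ^ 2 * (-r) ≤ 3 * b ^ 2 * (t * y ^ 3) :=
      mul_le_mul_of_nonneg_left h1 (by positivity)
    linarith
  have e2 : k * ε ^ 2 * c2 * (t ^ 2 * y ^ 2 + 2 * b * (t * y ^ 3) + b ^ 2 * y ^ 4) ≤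
      k * ε ^ 2 * c2 * (t ^ 2 + 2 * b * r + b ^ 2) := by
    refine mul_le_mul_of_nonneg_left ?_ (by positivity)
    have a1 : t ^ 2 * y ^ 2 ≤ t ^ 2 * 1 := mul_le_mul_of_nonneg_left hy2 (by positivity)
    have a2 : b ^ 2 * y ^ 4 ≤ b ^ 2 * 1 := mul_le_mul_of_nonneg_left hy4' (by positivity)
    have a3 : 2 * b * (t * y ^ 3) ≤ 2 * b * r := mul_le_mul_of_nonneg_left h1' (by positivity)
    linarith
  have e3 : (ε * c3 * r + k * ε ^ 2 * c2) * t ^ 2 ≤ c2 * t ^ 2 :=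
    mul_le_mul_of_nonneg_right hc (by positivity)
  have hb2 : b ^ 2 ≤ ε ^ 2 := pow_le_pow_left₀ hb hbε 2
  have e4 : ε * c3 * (3 * b ^ 2 * r) ≤ 3 * c3 * ε ^ 3 := by
    have a1 : b ^ 2 * r ≤ ε ^ 2 * 1 := mul_le_mul hb2 hr1 hr (by positivity)
    have a2 : ε * c3 * (3 * (b ^ 2 * r)) ≤ ε * c3 * (3 * (ε ^ 2 * 1)) :=
      mul_le_mul_of_nonneg_left (by linarith) (by positivity)
    calc ε * c3 * (3 * b ^ 2 * r) = ε * c3 * (3 * (b ^ 2 * r)) := by ring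
      _ ≤ ε * c3 * (3 * (ε ^ 2 * 1)) := a2
      _ = 3 * c3 * ε ^ 3 := by ring
  have e5 : k * ε ^ 2 * c2 * (2 * b * r + b ^ 2) ≤ 3 * c2 * ε ^ 3 := by
    have a1 : b * r ≤ ε * 1 := mul_le_mul hbε hr1 hr hε.le
    have a2 : ε ^ 2 ≤ ε * 1 := by nlinarith
    have a3 : k * (ε ^ 2 * c2 * (2 * b * r + b ^ 2)) ≤ 1 * (ε ^ 2 * c2 * (2 * b * r + b ^ 2)) :=
      mul_le_mul_of_nonneg_right hk1 (by positivity)
    have a4 : ε ^ 2 * c2 * (2 * b * r + b ^ 2) ≤ ε ^ 2 * c2 * (3 * ε) :=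
      mul_le_mul_of_nonneg_left (by linarith) (by positivity)
    calc k * ε ^ 2 * c2 * (2 * b * r + b ^ 2) = k * (ε ^ 2 * c2 * (2 * b * r + b ^ 2)) := by ring
      _ ≤ 1 * (ε ^ 2 * c2 * (2 * b * r + b ^ 2)) := a3
      _ ≤ ε ^ 2 * c2 * (3 * ε) := by linarith
      _ = 3 * c2 * ε ^ 3 := by ring
  have key : (1 + ε * y - k * ε ^ 2 * y ^ 2) *
      (1 + m * (t + b * y) + c2 * (t + b * y) ^ 2 + c3 * (t + b * y) ^ 3) =
      1 + (- (k * ε ^ 2) + c2 * b ^ 2 + m * ε * b) * y ^ 2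
      + (2 * c2 * b + m * ε) * (y * t)
      + ((1 - k * ε ^ 2 * y ^ 2) * (m * (t + b * y) + c3 * (t + b * y) ^ 3)
        + ε * y * (1 + c2 * (t + b * y) ^ 2))
      + c2 * t ^ 2
      + ε * c3 * (y * t ^ 3 + 3 * b * t ^ 2 * y ^ 2 + 3 * b ^ 2 * (t * y ^ 3) + b ^ 3 * y ^ 4)
      - k * ε ^ 2 * c2 * (t ^ 2 * y ^ 2 + 2 * b * (t * y ^ 3) + b ^ 2 * y ^ 4) := by
    ring
  rw [key]
  have f1 : ε * c3 * (- (r * t ^ 2) - 3 * b ^ 2 * r) =
      - (ε * c3 * r * t ^ 2) - ε * c3 * (3 * b ^ 2 * r) := by ring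
  have f2 : k * ε ^ 2 * c2 * (t ^ 2 + 2 * b * r + b ^ 2) =
      k * ε ^ 2 * c2 * t ^ 2 + k * ε ^ 2 * c2 * (2 * b * r + b ^ 2) := by ring
  have f3 : (ε * c3 * r + k * ε ^ 2 * c2) * t ^ 2 =
      ε * c3 * r * t ^ 2 + k * ε ^ 2 * c2 * t ^ 2 := by ring
  have f4 : (3 * c3 + 3 * c2) * ε ^ 3 = 3 * c3 * ε ^ 3 + 3 * c2 * ε ^ 3 := by ring
  rw [f1] at e1
  rw [f2] at e2
  rw [f3] at e3
  rw [f4]
  linarith

theorem lco_cont_inner (z : E n) : Continuous (fun x : E n => inner ℝ z x) :=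
  continuous_const.inner continuous_id

/-- the lower bound for the mean -/
theorem lco_GG (hn : 2 ≤ n) {ε : ℝ} (hε : 0 < ε) (hε1 : ε ≤ 1 / 2) (hε2 : ε * (n + 2) ≤ 1)
    {h : E n → ℝ}
    (hh1 : ∀ x : E n, ‖x‖ = 1 → h x = 1 - ε / (n + 3) * ev (Y3 n hn) x)
    (hc : Continuous h) (z : E n) (hz : ‖z‖ ≤ 1 / 4) :
    1 + (n : ℝ) * (n + 2) / (n + 3) ^ 2 * ε ^ 2 * sq (ev (Y3 n hn))
      - (3 * ((n : ℝ) * (n + 1) * (n + 2) / 6) + 3 * ((n : ℝ) * (n + 1) / 2)) * ε ^ 3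
      ≤ GG (psi ε (uA hn (fun y => y))) h z := by
  have hn1 : 1 ≤ n := by omega
  have hnR : (2 : ℝ) ≤ n := by exact_mod_cast hn
  set y : E n → ℝ := ev (Y3 n hn) with hy
  set b : ℝ := ε / (n + 3) with hb
  set k : ℝ := (n : ℝ) / (2 * (n + 3)) with hk
  set c2 : ℝ := (n : ℝ) * (n + 1) / 2 with hc2
  set c3 : ℝ := (n : ℝ) * (n + 1) * (n + 2) / 6 with hc3
  have hyc : Continuous y := (ev_smooth (Y3 n hn)).continuous
  have hyb : ∀ x : E n, ‖x‖ = 1 → |y x| ≤ 1 := fun x hx => uaA_ev_abs hn x hx.le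
  have htb : ∀ x : E n, ‖x‖ = 1 → |inner ℝ z x| ≤ ‖z‖ := by
    intro x hx
    have := abs_real_inner_le_norm z x
    rwa [hx, mul_one] at this
  have hb0 : 0 ≤ b := by positivity
  have hbε : b ≤ ε := by
    rw [hb, div_le_iff₀ (by positivity)]
    nlinarith
  have hk0 : 0 ≤ k := by positivity
  have hk1 : k ≤ 1 := by
    rw [hk, div_le_one (by positivity)]
    linarith
  have hc20 : 0 ≤ c2 := by positivity
  have hc30 : 0 ≤ c3 := by positivity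
  have hcc : ε * c3 * ‖z‖ + k * ε ^ 2 * c2 ≤ c2 := by
    have a1 : c3 = c2 * (n + 2) / 3 := by rw [hc3, hc2]; ring
    have a2 : ε * c3 * ‖z‖ ≤ c2 / 12 := by
      have b1 : ε * c3 * ‖z‖ = (ε * (n + 2)) * (c2 * ‖z‖) / 3 := by rw [a1]; ring
      have b2 : (ε * (n + 2)) * (c2 * ‖z‖) ≤ 1 * (c2 * (1 / 4)) :=
        mul_le_mul hε2 (mul_le_mul_of_nonneg_left hz hc20) (by positivity) (by norm_num)
      rw [b1]
      linarith
    have a3 : k * ε ^ 2 * c2 ≤ 1 * (1 / 2) ^ 2 * c2 := by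
      refine mul_le_mul_of_nonneg_right ?_ hc20
      exact mul_le_mul hk1 (pow_le_pow_left₀ hε.le hε1 2) (by positivity) (by norm_num)
    linarith
  -- the lower function
  set O : E n → ℝ := fun x => (1 - k * ε ^ 2 * y x ^ 2) *
      ((n : ℝ) * (inner ℝ z x + b * y x) + c3 * (inner ℝ z x + b * y x) ^ 3)
        + ε * y x * (1 + c2 * (inner ℝ z x + b * y x) ^ 2) with hO
  have hOc : Continuous O := by
    have hi := lco_cont_inner z
    rw [hO]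
    fun_prop
  have hOodd : ∀ x, O (-x) = - O x := by
    intro x
    rw [hO]
    simp only [hy]
    rw [lco_ev_neg, inner_neg_right]
    ring
  have hO0 : ∫ x, O x ∂(mu n) = 0 := int_odd hn1 hOodd
  have hic := lco_cont_inner z
  have hlow : ∫ x, ((1 - (3 * c3 + 3 * c2) * ε ^ 3) +
      ((- (k * ε ^ 2) + c2 * b ^ 2 + n * ε * b) * y x ^ 2
      + ((2 * c2 * b + n * ε) * (y x * inner ℝ z x) + O x))) ∂(mu n) =
      (1 - (3 * c3 + 3 * c2) * ε ^ 3) + (- (k * ε ^ 2) + c2 * b ^ 2 + n * ε * b) * sq y := by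
    have i1 : Integrable (fun _ : E n => 1 - (3 * c3 + 3 * c2) * ε ^ 3) (mu n) :=
      integrable_mu hn1 continuousOn_const
    have i2 : Integrable (fun x : E n => (- (k * ε ^ 2) + c2 * b ^ 2 + n * ε * b) * y x ^ 2)
        (mu n) := integrable_mu hn1 (by fun_prop)
    have i3 : Integrable (fun x : E n => (2 * c2 * b + n * ε) * (y x * inner ℝ z x)) (mu n) :=
      integrable_mu hn1 (continuous_const.mul (hyc.mul hic)).continuousOn
    have i4 : Integrable O (mu n) := integrable_mu hn1 hOc.continuousOn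
    have i34 : Integrable (fun x : E n => (2 * c2 * b + n * ε) * (y x * inner ℝ z x) + O x)
        (mu n) := i3.add i4
    have i234 : Integrable (fun x : E n => (- (k * ε ^ 2) + c2 * b ^ 2 + n * ε * b) * y x ^ 2
        + ((2 * c2 * b + n * ε) * (y x * inner ℝ z x) + O x)) (mu n) := i2.add i34
    rw [integral_add i1 i234, integral_add i2 i34, integral_add i3 i4, hO0, integral_const_mul, integral_const_mul, lco_orth hn z, int_const hn1]
    unfold sq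
    ring
  have hcoef : - (k * ε ^ 2) + c2 * b ^ 2 + n * ε * b = (n : ℝ) * (n + 2) / (n + 3) ^ 2 * ε ^ 2 := by
    rw [hk, hc2, hb]
    field_simp
    ring
  have hfin : 1 + (n : ℝ) * (n + 2) / (n + 3) ^ 2 * ε ^ 2 * sq y - (3 * c3 + 3 * c2) * ε ^ 3 =
      ∫ x, ((1 - (3 * c3 + 3 * c2) * ε ^ 3) +
      ((- (k * ε ^ 2) + c2 * b ^ 2 + n * ε * b) * y x ^ 2
      + ((2 * c2 * b + n * ε) * (y x * inner ℝ z x) + O x))) ∂(mu n) := by
    rw [hlow, hcoef]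
    ring
  rw [hfin]
  unfold GG
  have hs1 : ∀ x : E n, ‖x‖ = 1 → inner ℝ z x + b * y x < 1 := by
    intro x hx
    have a1 := (abs_le.1 (htb x hx)).2
    have a2 := (abs_le.1 (hyb x hx)).2
    have a3 : b * y x ≤ b * 1 := mul_le_mul_of_nonneg_left a2 hb0
    linarith
  have hd : ∀ x : E n, ‖x‖ = 1 → h x - inner ℝ z x = 1 - (inner ℝ z x + b * y x) := by
    intro x hx
    rw [hh1 x hx]
    ring
  refine int_mono hn1 ?_ ?_ ?_
  · refine Continuous.continuousOn ?_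
    refine continuous_const.add ((continuous_const.mul (hyc.pow 2)).add
      ((continuous_const.mul (hyc.mul hic)).add hOc))
  · have hp : ContinuousOn (psi ε (uA hn (fun y => y))) (sphere (0 : E n) 1) := by
      have h1 : ContinuousOn (fun x => 1 + ε * y x - k * ε ^ 2 * y x ^ 2)
          (sphere (0 : E n) 1) := Continuous.continuousOn (by fun_prop)
      refine h1.congr ?_
      intro x hx
      exact lco_psi hn ε (by simpa using hx)
    refine hp.mul (ContinuousOn.inv₀ (((hc.sub hic).pow n).continuousOn) ?_)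
    intro x hx
    have hx1 : ‖x‖ = 1 := by simpa using hx
    have h2 : 0 < h x - inner ℝ z x := by
      rw [hd x hx1]
      linarith [hs1 x hx1]
    exact (pow_pos h2 n).ne'
  · intro x hx
    have hψ0 : 0 ≤ 1 + ε * y x - k * ε ^ 2 * y x ^ 2 := by
      have a1 := hyb x hx
      have a2 : - ε ≤ ε * y x := by
        have := mul_le_mul_of_nonneg_left (abs_le.1 a1).1 hε.le
        linarith
      have a3 : y x ^ 2 ≤ 1 := by
        rw [← sq_abs]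
        exact pow_le_one₀ (abs_nonneg _) a1
      have a4 : k * ε ^ 2 * y x ^ 2 ≤ 1 * (1 / 2) ^ 2 * 1 := by
        refine mul_le_mul ?_ a3 (by positivity) (by norm_num)
        exact mul_le_mul hk1 (pow_le_pow_left₀ hε.le hε1 2) (by positivity) (by norm_num)
      linarith
    have hpt := lco_point (m := n) hε (by linarith) hb0 hbε hk0 hk1 hc20 hc30
      (norm_nonneg z) (by linarith) (hyb x hx) (htb x hx) hcc
    have hT := lco_taylor (hs1 x hx) n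
    rw [hd x hx, lco_psi hn ε hx]
    have hT2 := mul_le_mul_of_nonneg_left hT hψ0
    refine le_trans ?_ hT2
    rw [hO]
    simp only
    refine le_trans (le_of_eq ?_) (hpt.trans (le_of_eq ?_))
    · ring
    · ring

theorem lco_nr (hn : 2 ≤ n) {a : ℝ} : nr (a • Y3 n hn) ≤ |a| := by
  have h := int_abs_le (F := fun x => ev (a • Y3 n hn) x ^ 2) (c := |a| ^ 2)
    (show 1 ≤ n by omega) (fun x hx => by
      rw [ev_smul, abs_pow, abs_mul]
      refine pow_le_pow_left₀ (by positivity) ?_ 2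
      have := uaA_ev_abs hn x hx.le
      calc |a| * |ev (Y3 n hn) x| ≤ |a| * 1 := mul_le_mul_of_nonneg_left this (abs_nonneg a)
        _ = |a| := mul_one _)
  unfold nr
  refine Real.sqrt_le_iff.2 ⟨abs_nonneg a, ?_⟩
  exact (le_abs_self _).trans h

theorem lco_sq (hn : 2 ≤ n) : 0 ≤ sq (ev (Y3 n hn)) ∧ sq (ev (Y3 n hn)) ≤ 1 := by
  constructor
  · exact integral_nonneg fun x => by positivity
  · have h := int_abs_le (F := fun x => ev (Y3 n hn) x ^ 2) (c := 1)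
      (show 1 ≤ n by omega) (fun x hx => by
        rw [abs_pow]
        exact pow_le_one₀ (abs_nonneg _) (uaA_ev_abs hn x hx.le))
    exact (le_abs_self _).trans h

theorem competitor (hn : 2 ≤ n) : ∃ C : ℝ, 0 < C ∧ ∃ ε0 : ℝ, 0 < ε0 ∧
    ∀ ε : ℝ, 0 < ε → ε ≤ ε0 → ∃ h : E n → ℝ, SL h ∧ Near ε h ∧
      ∀ z : E n, ‖z‖ ≤ 1 / 4 → 1 - C * ε ^ 3 ≤ MM (psi ε (uA hn (fun y => y))) h z := by
  have hn1 : 1 ≤ n := by omega
  have hnR : (2 : ℝ) ≤ n := by exact_mod_cast hn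
  obtain ⟨Y⟩ := exists_SH hn
  obtain ⟨C1, hC1, c, hc, hvol⟩ := vol_exp hn1 Y 3
  obtain ⟨Cl, hCl, hlow⟩ := low_bound hn1 Y 3
  obtain ⟨c0, hc0, _, hgood⟩ := low_good (n := n) hn1
  set D : ℝ := 3 * ((n : ℝ) * (n + 1) * (n + 2) / 6) + 3 * ((n : ℝ) * (n + 1) / 2) with hD
  have hD0 : 0 < D := by positivity
  have hN := lco_sq hn
  set N : ℝ := sq (ev (Y3 n hn)) with hNd
  refine ⟨D + 2 * C1 + 1, by positivity,
    min (min (1 / 2) (1 / (n + 2))) (min (min c (c0 / Cl)) (min (1 / (1 + C1)) (1 / (1 + D)))),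
    by positivity, ?_⟩
  intro ε hε hle
  have l1 : ε ≤ 1 / 2 := hle.trans ((min_le_left _ _).trans (min_le_left _ _))
  have l2 : ε ≤ 1 / (n + 2) := hle.trans ((min_le_left _ _).trans (min_le_right _ _))
  have l3 : ε ≤ c := hle.trans ((min_le_right _ _).trans ((min_le_left _ _).trans (min_le_left _ _)))
  have l4 : ε ≤ c0 / Cl :=
    hle.trans ((min_le_right _ _).trans ((min_le_left _ _).trans (min_le_right _ _)))
  have l5 : ε ≤ 1 / (1 + C1) :=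
    hle.trans ((min_le_right _ _).trans ((min_le_right _ _).trans (min_le_left _ _)))
  have l6 : ε ≤ 1 / (1 + D) :=
    hle.trans ((min_le_right _ _).trans ((min_le_right _ _).trans (min_le_right _ _)))
  have l2' : ε * (n + 2) ≤ 1 := by rwa [le_div_iff₀ (by positivity)] at l2
  have l4' : ε * Cl ≤ c0 := by rwa [le_div_iff₀ hCl] at l4
  have l5' : ε * (1 + C1) ≤ 1 := by rwa [le_div_iff₀ (by positivity)] at l5
  have l6' : ε * (1 + D) ≤ 1 := by rwa [le_div_iff₀ (by positivity)] at l6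
  set a : ℝ := -(ε / (n + 3)) with ha
  set P : Pol n := a • Y3 n hn with hP
  have habs : |a| = ε / (n + 3) := by
    rw [ha, abs_neg, abs_of_pos (by positivity)]
  have haε : |a| ≤ ε := by
    rw [habs, div_le_iff₀ (by positivity)]
    nlinarith
  have hPd : P.totalDegree ≤ 3 :=
    (MvPolynomial.totalDegree_smul_le a (Y3 n hn)).trans (lco_hom hn).totalDegree_le
  have hnr : nr P ≤ ε := (lco_nr hn).trans haε
  have hnr0 : 0 ≤ nr P := Real.sqrt_nonneg _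
  have hgk : LowGood (pk P) := by
    refine hgood _ ((hlow P hPd).mono ?_)
    calc Cl * nr P ≤ Cl * ε := mul_le_mul_of_nonneg_left hnr hCl.le
      _ = ε * Cl := mul_comm _ _
      _ ≤ c0 := l4'
  have hval : ∀ x : E n, ‖x‖ = 1 → hh (pk P) x = 1 - ε / (n + 3) * ev (Y3 n hn) x := by
    intro x hx
    unfold hh
    rw [pk_sphere P hx, hx, hP, ev_smul, ha]
    ring
  have hcont : Continuous (hh (pk P)) := hgk.sl.p1.cont
  refine ⟨hh (pk P), hgk.sl, ?_, ?_⟩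
  · intro x hx
    rw [hval x hx]
    have h1 : 1 - ε / (n + 3) * ev (Y3 n hn) x - 1 = a * ev (Y3 n hn) x := by
      rw [ha]
      ring
    rw [h1, abs_mul]
    calc |a| * |ev (Y3 n hn) x| ≤ ε * 1 :=
          mul_le_mul haε (uaA_ev_abs hn x hx.le) (abs_nonneg _) hε.le
      _ = ε := mul_one _
  · intro z hz
    have hG := lco_GG hn hε l1 l2' hval hcont z hz
    rw [← hNd, ← hD] at hG
    have hv := hvol P hPd (hnr.trans l3)
    have i1 : ∫ x, ev P x ∂(mu n) = 0 := by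
      refine int_odd hn1 fun x => ?_
      rw [hP, ev_smul, ev_smul, lco_ev_neg]
      ring
    have i2 : ∫ x, ev P x * (ev (lapP P) x + ((n : ℝ) - 1) * ev P x) ∂(mu n) =
        - (2 * n + 4) * a ^ 2 * N := by
      rw [hNd]
      unfold sq
      rw [← integral_const_mul]
      congr 1
      funext x
      rw [hP, lapP_smul, lco_lap, ev_smul, ev_smul, ev_smul]
      ring
    rw [i1, i2] at hv
    have hv2 := (abs_le.1 hv).1
    set X : ℝ := (n : ℝ) * (n + 2) / (n + 3) ^ 2 * ε ^ 2 * N with hX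
    have hXe : (n : ℝ) / 2 * (- (2 * n + 4) * a ^ 2 * N) = - X := by
      rw [hX, ha]
      field_simp
      ring
    rw [hXe] at hv2
    have hp3 : C1 * nr P ^ 3 ≤ C1 * ε ^ 3 :=
      mul_le_mul_of_nonneg_left (pow_le_pow_left₀ hnr0 hnr 3) hC1.le
    have hX0 : 0 ≤ X := by
      have := hN.1
      positivity
    have hε2 : ε ^ 2 ≤ 1 := pow_le_one₀ hε.le (by linarith)
    have hX1 : X ≤ ε ^ 2 := by
      have b1 : (n : ℝ) * (n + 2) / (n + 3) ^ 2 ≤ 1 := by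
        rw [div_le_one (by positivity)]
        nlinarith
      have b2 : (n : ℝ) * (n + 2) / (n + 3) ^ 2 * ε ^ 2 ≤ 1 * ε ^ 2 :=
        mul_le_mul_of_nonneg_right b1 (by positivity)
      have b3 : (n : ℝ) * (n + 2) / (n + 3) ^ 2 * ε ^ 2 * N ≤ 1 * ε ^ 2 * 1 :=
        mul_le_mul b2 hN.2 hN.1 (by positivity)
      rw [hX]
      linarith
    have hε3 : ε ^ 3 ≤ ε := by
      have b1 : ε * ε ^ 2 ≤ ε * 1 := mul_le_mul_of_nonneg_left hε2 hε.le
      linarith [show ε * ε ^ 2 = ε ^ 3 by ring]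
    have hV : 1 - X - C1 * ε ^ 3 ≤ vv (hh (pk P)) := by linarith
    have hεε : ε ^ 2 ≤ ε := by
      have b1 : ε * ε ≤ ε * 1 := mul_le_mul_of_nonneg_left (by linarith) hε.le
      linarith [show ε * ε = ε ^ 2 by ring]
    have hp0 : 0 ≤ 1 - X - C1 * ε ^ 3 := by
      have b1 : C1 * ε ^ 3 ≤ C1 * ε := mul_le_mul_of_nonneg_left hε3 hC1.le
      linarith
    have hq0 : 0 ≤ 1 + X - D * ε ^ 3 := by
      have b1 : D * ε ^ 3 ≤ D * ε := mul_le_mul_of_nonneg_left hε3 hD0.le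
      linarith
    unfold MM
    have hprod : (1 - X - C1 * ε ^ 3) * (1 + X - D * ε ^ 3) ≤
        vv (hh (pk P)) * GG (psi ε (uA hn (fun y => y))) (hh (pk P)) z :=
      mul_le_mul hV hG hq0 (hp0.trans hV)
    refine le_trans ?_ hprod
    have hX2 : X ^ 2 ≤ ε ^ 3 := by
      have b1 : X ^ 2 ≤ (ε ^ 2) ^ 2 := pow_le_pow_left₀ hX0 hX1 2
      have b2 : (ε ^ 2) ^ 2 = ε ^ 3 * ε := by ring
      have b3 : ε ^ 3 * ε ≤ ε ^ 3 * 1 := mul_le_mul_of_nonneg_left (by linarith) (by positivity)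
      linarith
    have hX3 : C1 * X * ε ^ 3 ≤ C1 * ε ^ 3 := by
      have b1 : C1 * X ≤ C1 * 1 := mul_le_mul_of_nonneg_left (hX1.trans hε2) hC1.le
      have b2 := mul_le_mul_of_nonneg_right b1 (show 0 ≤ ε ^ 3 by positivity)
      linarith
    have hX4 : 0 ≤ D * X * ε ^ 3 := by positivity
    have hX5 : 0 ≤ C1 * ε ^ 3 * (D * ε ^ 3) := by positivity
    have key : (1 - X - C1 * ε ^ 3) * (1 + X - D * ε ^ 3) =
        1 - D * ε ^ 3 - C1 * ε ^ 3 - X ^ 2 - C1 * X * ε ^ 3 + D * X * ε ^ 3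
          + C1 * ε ^ 3 * (D * ε ^ 3) := by ring
    rw [key]
    have key2 : (D + 2 * C1 + 1) * ε ^ 3 = D * ε ^ 3 + C1 * ε ^ 3 + C1 * ε ^ 3 + ε ^ 3 := by ring
    rw [key2]
    linarith

end Pool.Agent.H35.CA
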