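import Pool.Agent.H35.CA.RtA
import Pool.Agent.H35.CA.Cpt
import Pool.Agent.H35.CA.Dif

/-!
# Job RT: robust existence

Proof hints.

`RT`.  (1) For `h` `SL`, `Near δ`, `‖z‖ ≤ 1/4`: `|MM F h z - MM ψ h z| ≤ C1 η`.
(2) Let `m h = inf_{‖z‖ ≤ 1/4} MM F h z`, a continuous function of `h` for the uniform distance
(`vv_close`, `GG_close`); by `seq_cpt` it attains its maximum over `{h | SL h, Near δ h}` at
some `k`.
(3) `m k ≥ m h1 ≥ m1 - C1 η`, hence `MM ψ k z ≥ m1 - 2 C1 η ≥ m2` for `‖z‖ ≤ 1/4`, if `η` is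
small; so by hypothesis there are `l > 0`, `z0` with `k' x = l * k x - ⟨z0,x⟩`, `Near (δ/4) k'`.
(4) By `GG_min` and `GG_convex` (with `l = h`) the minimum over the ball is the minimum over all
`z` with `h - ⟨z,·⟩` positive off 0; `MM F k' z = MM F k ((z0 + z)/l)` (`vv_smul`, `vv_trans`),
so `m k' = m k`.
(5) Let `z*` be the minimiser for `k'`, `G* = GG F k' z*`, `φ` in `H1`, and
`I = ∫ F φ (k' - ⟨z*,x⟩)^(-n-1)`.  For `|s|` small `k_s = k' + s φ` is `P1` and
`Near (δ/2)`; its hull `g = gau (gau k_s)` is `SL`, `Near δ` (between `(1 - δ/2)‖x‖` and `k_s`),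
`vv g = vv k_s`, and `g ≤ k_s` gives `GG F g z ≥ GG F k_s z ≥ G* - n s I` for all `‖z‖ ≤ 1/4`
(`GG_convex`).  So `vv k_s * (G* - n s I) ≤ m g ≤ m k' = vv k' * G*`.
(6) `s ↦ vv k_s` is differentiable at 0 (`vv_diff`) with derivative `D`; the function
`vv k_s * (G* - n s I)` has a local maximum at `s = 0`: `D G* = n vv k' I`.
(7) `h x = k' x - ⟨z*,x⟩`; `vv (h + s φ) = vv k_s` for small `s` (`vv_trans`); `h` is `SL`,
`Near (1/2)`, and `c = n * vv k' / G*`.
-/

namespace Pool.Agent.H35.CA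

open MeasureTheory Metric Set

variable {n : ℕ}

/-- The critical shifts. -/
def RtC (F h : E n → ℝ) (z : E n) : Prop := ‖z‖ < 1 / 4 ∧
  ∀ y : E n, ∫ x, F x * inner ℝ y x * ((h x - inner ℝ z x) ^ (n + 1))⁻¹ ∂(mu n) = 0

theorem rt_inner {z x : E n} {c : ℝ} (hz : ‖z‖ ≤ c) (hx : ‖x‖ = 1) : |inner ℝ z x| ≤ c := by
  have := abs_real_inner_le_norm z x
  rw [hx, mul_one] at this
  exact this.trans hz

theorem rt_pos {h : E n → ℝ} {δ : ℝ} (hh : P1 h) (hN : Near δ h) (hδ : δ < 3 / 4) {z : E n}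
    (hz : ‖z‖ ≤ 1 / 4) : ∀ x, x ≠ 0 → inner ℝ z x < h x := by
  intro x hx
  have h1 := (Near.bound hh hN x).1
  have h2 : inner ℝ z x ≤ ‖z‖ * ‖x‖ := real_inner_le_norm z x
  have h3 : 0 < ‖x‖ := norm_pos_iff.mpr hx
  have h4 : ‖z‖ * ‖x‖ ≤ 1 / 4 * ‖x‖ := mul_le_mul_of_nonneg_right hz h3.le
  nlinarith

theorem rt_low {h : E n → ℝ} {δ : ℝ} (hN : Near δ h) (hδ : δ ≤ 1 / 4) {z : E n}
    (hz : ‖z‖ ≤ 1 / 4) : ∀ x, ‖x‖ = 1 → 1 / 2 ≤ h x - inner ℝ z x := by
  intro x hx
  have h1 := hN x hx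
  have h2 := rt_inner hz hx
  rw [abs_le] at h1 h2
  linarith [h1.1, h2.2]

theorem rt_near {a b : ℝ} {h : E n → ℝ} (hN : Near a h) (hab : a ≤ b) : Near b h :=
  fun x hx => (hN x hx).trans hab

theorem rt_Fcont {F : E n → ℝ} (hF : H0 F) : ContinuousOn F (sphere 0 1) := by
  refine hF.cont.mono (fun x hx => ?_)
  rw [mem_sphere_zero_iff_norm] at hx
  intro h0
  rw [mem_singleton_iff] at h0
  rw [h0, norm_zero] at hx
  exact zero_ne_one hx

theorem rt_ne {x : E n} (hx : ‖x‖ = 1) : x ≠ 0 := by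
  intro h0
  rw [h0, norm_zero] at hx
  exact zero_ne_one hx

theorem rt_icont {h : E n → ℝ} (hh : P1 h) {z : E n} (hz : ∀ x, x ≠ 0 → inner ℝ z x < h x)
    (m : ℕ) : ContinuousOn (fun x => ((h x - inner ℝ z x) ^ m)⁻¹) (sphere 0 1) := by
  have h1 : Continuous (fun x : E n => (h x - inner ℝ z x) ^ m) :=
    (hh.cont.sub (continuous_const.inner continuous_id)).pow m
  refine ContinuousOn.inv₀ h1.continuousOn (fun x hx => ?_)
  rw [mem_sphere_zero_iff_norm] at hx
  have := hz x (rt_ne hx)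
  exact pow_ne_zero _ (by linarith)

theorem rt_min (hn : 1 ≤ n) {F : E n → ℝ} (hF : H0 F) (hpos : ∀ x, x ≠ 0 → 0 < F x)
    {h : E n → ℝ} (hh : P1 h) {z : E n} (hz : ∀ x, x ≠ 0 → inner ℝ z x < h x)
    (hc : RtC F h z) {w : E n} (hw : ∀ x, x ≠ 0 → inner ℝ w x < h x) :
    GG F h z ≤ GG F h w := by
  have := GG_convex hn hF hpos hh hz hc.2 hh hw
  simpa using this

theorem rt_GG_pos (hn : 1 ≤ n) {F : E n → ℝ} (hF : H0 F) (hpos : ∀ x, x ≠ 0 → 0 < F x)
    {h : E n → ℝ} (hh : P1 h) {z : E n} (hz : ∀ x, x ≠ 0 → inner ℝ z x < h x) :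
    0 < GG F h z := by
  have hc : ContinuousOn (fun x => F x * ((h x - inner ℝ z x) ^ n)⁻¹) (sphere 0 1) :=
    (rt_Fcont hF).mul (rt_icont hh hz n)
  have hpp : ∀ x, ‖x‖ = 1 → 0 < F x * ((h x - inner ℝ z x) ^ n)⁻¹ := by
    intro x hx
    have h1 := hz x (rt_ne hx)
    have h2 : 0 < h x - inner ℝ z x := by linarith
    have := hpos x (rt_ne hx)
    positivity
  have h0 : 0 ≤ GG F h z := by
    unfold GG
    have := int_mono hn (continuousOn_const (c := (0 : ℝ))) hc (fun x hx => (hpp x hx).le)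
    rwa [int_const hn] at this
  rcases h0.lt_or_eq with h1 | h1
  · exact h1
  · exfalso
    have h2 := mu_full hn hc (fun x hx => (hpp x hx).le) h1.symm
    have : Nonempty (Fin n) := ⟨⟨0, hn⟩⟩
    have : Nontrivial (E n) := inferInstance
    obtain ⟨x, hx⟩ := NormedSpace.sphere_nonempty (x := (0 : E n)).mpr (zero_le_one (α := ℝ))
    rw [mem_sphere_zero_iff_norm] at hx
    have := hpp x hx
    rw [h2 x hx] at this
    exact lt_irrefl _ this

/-- Comparison of the functionals of `F` and `ψ`. -/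
theorem rt_cmp (hn : 1 ≤ n) {F ψ : E n → ℝ} (hF : H0 F) (hψ : H0 ψ) {η : ℝ}
    (hη : ∫ x, |F x - ψ x| ∂(mu n) ≤ η) {δ : ℝ} (hδ0 : 0 ≤ δ) (hδ : δ ≤ 1 / 8)
    {h : E n → ℝ} (hh : SL h) (hN : Near δ h) {z : E n} (hz : ‖z‖ ≤ 1 / 4) :
    |MM F h z - MM ψ h z| ≤ 4 ^ n * η := by
  have hp := hh.p1
  have hlt := rt_pos hp hN (by linarith) hz
  have hlow := rt_low hN (by linarith) hz
  have hi := rt_icont hp hlt n
  have hFc := rt_Fcont hF
  have hψc := rt_Fcont hψ
  have hdc : ContinuousOn (fun x => |F x - ψ x|) (sphere 0 1) := (hFc.sub hψc).abs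
  have hη0 : 0 ≤ η := le_trans (integral_nonneg (fun x => abs_nonneg _)) hη
  have h1 : GG F h z - GG ψ h z =
      ∫ x, (F x - ψ x) * ((h x - inner ℝ z x) ^ n)⁻¹ ∂(mu n) := by
    unfold GG
    have i1 : Integrable (fun x => F x * ((h x - inner ℝ z x) ^ n)⁻¹) (mu n) :=
      integrable_mu hn (hFc.mul hi)
    have i2 : Integrable (fun x => ψ x * ((h x - inner ℝ z x) ^ n)⁻¹) (mu n) :=
      integrable_mu hn (hψc.mul hi)
    rw [← integral_sub i1 i2]
    refine integral_congr_ae (Filter.Eventually.of_forall (fun x => ?_))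
    simp only
    ring
  have h2 : |GG F h z - GG ψ h z| ≤ 2 ^ n * η := by
    rw [h1]
    have h3 : |∫ x, (F x - ψ x) * ((h x - inner ℝ z x) ^ n)⁻¹ ∂(mu n)| ≤
        ∫ x, |(F x - ψ x) * ((h x - inner ℝ z x) ^ n)⁻¹| ∂(mu n) := abs_integral_le_integral_abs
    refine h3.trans ?_
    have h4 : ∫ x, |(F x - ψ x) * ((h x - inner ℝ z x) ^ n)⁻¹| ∂(mu n) ≤
        ∫ x, 2 ^ n * |F x - ψ x| ∂(mu n) := by
      apply int_mono hn ((hFc.sub hψc).mul hi).abs (continuousOn_const.mul hdc)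
      intro x hx
      have h5 := hlow x hx
      change |(F x - ψ x) * ((h x - inner ℝ z x) ^ n)⁻¹| ≤ 2 ^ n * |F x - ψ x|
      rw [abs_mul, mul_comm]
      apply mul_le_mul_of_nonneg_right _ (abs_nonneg _)
      have h6 : (1 / 2 : ℝ) ^ n ≤ (h x - inner ℝ z x) ^ n :=
        pow_le_pow_left₀ (by norm_num) h5 n
      have h7 : 0 < (h x - inner ℝ z x) ^ n := by
        apply pow_pos
        linarith
      rw [abs_of_pos (inv_pos.mpr h7)]
      have h8 : (2 : ℝ) ^ n = ((1 / 2 : ℝ) ^ n)⁻¹ := by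
        rw [← inv_pow]
        norm_num
      rw [h8]
      exact inv_anti₀ (by positivity) h6
    refine h4.trans ?_
    rw [integral_const_mul]
    exact mul_le_mul_of_nonneg_left hη (by positivity)
  have h3 : MM F h z - MM ψ h z = vv h * (GG F h z - GG ψ h z) := by
    unfold MM
    ring
  have h4 : vv h ≤ 2 ^ n := by
    refine (vv_near hn hp hδ0 (by linarith) hN).2.trans ?_
    exact pow_le_pow_left₀ (by linarith) (by linarith) n
  have h5 := vv_pos hn hp
  rw [h3, abs_mul, abs_of_pos h5]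
  calc vv h * |GG F h z - GG ψ h z| ≤ 2 ^ n * (2 ^ n * η) := by
        apply mul_le_mul h4 h2 (abs_nonneg _) (by positivity)
    _ = 4 ^ n * η := by
        rw [← mul_assoc, ← mul_pow]
        norm_num

theorem rt_Fbd (hn : 1 ≤ n) {F : E n → ℝ} (hF : H0 F) : ∃ b : ℝ, 0 ≤ b ∧
    ∀ x, x ≠ 0 → |F x| ≤ b := by
  obtain ⟨C, hC⟩ := sphA_bdd hn hF
  have : Nonempty (Fin n) := ⟨⟨0, hn⟩⟩
  have : Nontrivial (E n) := inferInstance
  obtain ⟨x, hx⟩ := NormedSpace.sphere_nonempty (x := (0 : E n)).mpr (zero_le_one (α := ℝ))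
  rw [mem_sphere_zero_iff_norm] at hx
  exact ⟨C, (abs_nonneg _).trans (hC x (rt_ne hx)), hC⟩

/-- The maximiser. -/
theorem rt_max (hn : 1 ≤ n) {F : E n → ℝ} (hF : H0 F) (hpos : ∀ x, x ≠ 0 → 0 < F x)
    {δ : ℝ} (hδ0 : 0 < δ) (hδ : δ ≤ 1 / 8)
    (hcrit : ∀ h : E n → ℝ, P1 h → Near δ h → ∃ z, RtC F h z) :
    ∃ k : E n → ℝ, SL k ∧ Near δ k ∧ ∃ zk, RtC F k zk ∧
      ∀ h z, SL h → Near δ h → RtC F h z → MM F h z ≤ MM F k zk := by
  obtain ⟨b, hb0, hb⟩ := rt_Fbd hn hF
  set T : Set ℝ := {v | ∃ h z, SL h ∧ Near δ h ∧ RtC F h z ∧ v = MM F h z} with hT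
  have hGb : ∀ h z, SL h → Near δ h → RtC F h z → MM F h z ≤ 2 ^ n * (b * 2 ^ n) := by
    intro h z hh hN hz
    have hp := hh.p1
    have hlt := rt_pos hp hN (by linarith) hz.1.le
    have hlow := rt_low hN (by linarith) hz.1.le
    have h4 : vv h ≤ 2 ^ n := by
      refine (vv_near hn hp hδ0.le (by linarith) hN).2.trans ?_
      exact pow_le_pow_left₀ (by linarith) (by linarith) n
    have h5 : |GG F h z| ≤ b * 2 ^ n := by
      apply int_abs_le hn
      intro x hx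
      rw [abs_mul]
      apply mul_le_mul (hb x (rt_ne hx)) _ (abs_nonneg _) hb0
      have h6 : (1 / 2 : ℝ) ^ n ≤ (h x - inner ℝ z x) ^ n :=
        pow_le_pow_left₀ (by norm_num) (hlow x hx) n
      have h7 : 0 < (h x - inner ℝ z x) ^ n := by
        apply pow_pos
        linarith [hlow x hx]
      rw [abs_of_pos (inv_pos.mpr h7)]
      have h8 : (2 : ℝ) ^ n = ((1 / 2 : ℝ) ^ n)⁻¹ := by
        rw [← inv_pow]
        norm_num
      rw [h8]
      exact inv_anti₀ (by positivity) h6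
    unfold MM
    apply mul_le_mul h4 ((le_abs_self _).trans h5) (rt_GG_pos hn hF hpos hp hlt).le (by positivity)
  have hTb : BddAbove T := by
    refine ⟨2 ^ n * (b * 2 ^ n), ?_⟩
    rintro v ⟨h, z, hh, hN, hz, rfl⟩
    exact hGb h z hh hN hz
  have hnorm : SL (fun x : E n => ‖x‖) :=
    ⟨fun t ht x => by rw [norm_smul, Real.norm_of_nonneg ht], fun x y => norm_add_le x y,
      fun x hx => norm_pos_iff.mpr hx⟩
  have hnN : Near δ (fun x : E n => ‖x‖) := by
    intro x hx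
    simp only [hx, sub_self, abs_zero]
    exact hδ0.le
  have hTne : T.Nonempty := by
    obtain ⟨z, hz⟩ := hcrit _ hnorm.p1 hnN
    exact ⟨_, _, z, hnorm, hnN, hz, rfl⟩
  have hex : ∀ j : ℕ, ∃ h z, SL h ∧ Near δ h ∧ RtC F h z ∧ sSup T - 1 / ((j : ℝ) + 1) < MM F h z := by
    intro j
    have h1 : sSup T - 1 / ((j : ℝ) + 1) < sSup T := by
      have : (0 : ℝ) < 1 / ((j : ℝ) + 1) := by positivity
      linarith
    obtain ⟨v, ⟨h, z, hh, hN, hz, rfl⟩, hlt⟩ := exists_lt_of_lt_csSup hTne h1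
    exact ⟨h, z, hh, hN, hz, hlt⟩
  choose H Z hH hHN hZ hHZ using hex
  obtain ⟨k, hk, hkN, s, hs, hu⟩ := seq_cpt hn (by linarith : δ < 1) H hH hHN
  obtain ⟨zk, hzk⟩ := hcrit k hk.p1 hkN
  have hkp := hk.p1
  have hklt := rt_pos hkp hkN (by linarith) hzk.1.le
  have hS : sSup T ≤ MM F k zk := by
    set C : ℝ := b * (n * 4 ^ (n + 1)) with hC
    have hC0 : 0 ≤ C := by positivity
    -- for every small e
    have h1 : ∀ e : ℝ, 0 < e → e ≤ 1 / 4 →
        sSup T ≤ ((1 + 2 * e) ^ n * vv k) * (GG F k zk + C * e) := by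
      intro e he0 he1
      apply le_of_forall_pos_le_add
      intro r hr
      obtain ⟨N, hN⟩ := exists_nat_one_div_lt hr
      obtain ⟨J, hJ⟩ := hu e he0
      set j := max N J with hj
      have h2 := hJ j (le_max_right _ _)
      have hp := (hH (s j)).p1
      have hlt1 := rt_pos hp (hHN (s j)) (by linarith) (hZ (s j)).1.le
      have hlt2 := rt_pos hp (hHN (s j)) (by linarith) hzk.1.le
      have h3 : GG F (H (s j)) (Z (s j)) ≤ GG F (H (s j)) zk :=
        rt_min hn hF hpos hp hlt1 (hZ (s j)) hlt2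
      have h4 : |GG F (H (s j)) zk - GG F k zk| ≤ C * e := by
        apply GG_close hn hF hb hp hkp
        · intro x hx
          linarith [rt_low (hHN (s j)) (by linarith) hzk.1.le x hx]
        · intro x hx
          linarith [rt_low hkN (by linarith) hzk.1.le x hx]
        · intro x hx
          have := h2 x hx
          have h5 : (H (s j) x - inner ℝ zk x) - (k x - inner ℝ zk x) = H (s j) x - k x := by ring
          rw [h5]
          exact this
      have h5 : vv (H (s j)) ≤ (1 + 2 * e) ^ n * vv k :=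
        (vv_close hn hkp hp he0.le he1 (rt_near hkN (by linarith)) (fun x hx => h2 x hx)).2
      have h6 := hHZ (s j)
      have h7 : 1 / ((s j : ℝ) + 1) ≤ 1 / ((N : ℝ) + 1) := by
        have : (N : ℝ) ≤ (s j : ℝ) := by
          have : N ≤ s j := (le_max_left N J).trans (hs.id_le j)
          exact_mod_cast this
        exact one_div_le_one_div_of_le (by positivity) (by linarith)
      have h8 : MM F (H (s j)) (Z (s j)) ≤ ((1 + 2 * e) ^ n * vv k) * (GG F k zk + C * e) := by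
        unfold MM
        apply mul_le_mul h5 _ (rt_GG_pos hn hF hpos hp hlt1).le
          (mul_nonneg (by positivity) (vv_pos hn hkp).le)
        rw [abs_le] at h4
        linarith [h4.2]
      linarith
    have h2 : Filter.Tendsto (fun e : ℝ => ((1 + 2 * e) ^ n * vv k) * (GG F k zk + C * e))
        (nhdsWithin 0 (Ioi 0)) (nhds (((1 + 2 * 0) ^ n * vv k) * (GG F k zk + C * 0))) := by
      have : Continuous (fun e : ℝ => ((1 + 2 * e) ^ n * vv k) * (GG F k zk + C * e)) := by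
        fun_prop
      exact (this.tendsto 0).mono_left nhdsWithin_le_nhds
    have h3 : sSup T ≤ ((1 + 2 * 0) ^ n * vv k) * (GG F k zk + C * 0) := by
      apply ge_of_tendsto h2
      filter_upwards [Ioc_mem_nhdsGT (show (0 : ℝ) < 1 / 4 by norm_num)] with e he
      exact h1 e he.1 he.2
    unfold MM
    simpa using h3
  refine ⟨k, hk, hkN, zk, hzk, ?_⟩
  intro h z hh hN hz
  exact (le_csSup hTb ⟨h, z, hh, hN, hz, rfl⟩).trans hS

theorem rt_SL_affine {k : E n → ℝ} (hk : SL k) {l : ℝ} (hl : 0 < l) (z0 : E n) {a : ℝ}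
    (ha : a < 1) (hN : Near a (fun x => l * k x - inner ℝ z0 x)) :
    SL (fun x => l * k x - inner ℝ z0 x) := by
  apply SL_of_near ha _ _ hN
  · intro t ht x
    rw [hk.hom t ht, inner_smul_right]
    ring
  · intro x y
    rw [inner_add_right]
    have := mul_le_mul_of_nonneg_left (hk.sub x y) hl.le
    linarith

/-- The functional is invariant under `h ↦ l * h - ⟨z0,·⟩`. -/
theorem rt_MM_affine (hn : 1 ≤ n) {F k : E n → ℝ} (hk : P1 k) {l : ℝ} (hl : 0 < l) {z0 z : E n}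
    (h0 : ∀ x, x ≠ 0 → inner ℝ z0 x < l * k x) :
    MM F (fun x => l * k x - inner ℝ z0 x) z = MM F k (l⁻¹ • (z0 + z)) := by
  have hlk : P1 (fun x => l * k x) :=
    ⟨fun t ht x => by rw [hk.hom t ht]; ring, continuous_const.mul hk.cont,
      fun x hx => mul_pos hl (hk.pos x hx)⟩
  unfold MM
  rw [vv_trans hn hlk h0, vv_smul hn hk hl]
  have h1 : GG F (fun x => l * k x - inner ℝ z0 x) z = (l ^ n)⁻¹ * GG F k (l⁻¹ • (z0 + z)) := by
    unfold GG
    rw [← integral_const_mul]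
    refine integral_congr_ae (Filter.Eventually.of_forall (fun x => ?_))
    simp only
    have h2 : l * k x - inner ℝ z0 x - inner ℝ z x = l * (k x - inner ℝ (l⁻¹ • (z0 + z)) x) := by
      rw [inner_smul_left, inner_add_left]
      simp only [map_inv₀, conj_trivial]
      field_simp
      ring
    rw [h2, mul_pow, mul_inv]
    ring
  rw [h1]
  have : l ^ n ≠ 0 := (pow_pos hl n).ne'
  field_simp

theorem rt_phi_bd (hn : 1 ≤ n) {φ : E n → ℝ} (hφ : H1 φ) : ∃ M : ℝ, 0 < M ∧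
    ∀ x, ‖x‖ = 1 → |φ x| ≤ M := by
  obtain ⟨C, hC⟩ := (isCompact_sphere (0 : E n) 1).exists_bound_of_continuousOn
    hφ.cont.continuousOn
  refine ⟨|C| + 1, by positivity, fun x hx => ?_⟩
  have := hC x (by rwa [mem_sphere_zero_iff_norm])
  rw [Real.norm_eq_abs] at this
  linarith [le_abs_self C]

theorem RT (hn : 1 ≤ n) : ∃ δ1 : ℝ, 0 < δ1 ∧ ∀ δ : ℝ, 0 < δ → δ ≤ δ1 →
    ∀ ψ : E n → ℝ, H0 ψ → (∀ x, x ≠ 0 → |ψ x - 1| ≤ δ1) → ∀ m1 m2 : ℝ, m2 < m1 →
    (∃ h : E n → ℝ, SL h ∧ Near δ h ∧ ∀ z : E n, ‖z‖ ≤ 1 / 4 → m1 ≤ MM ψ h z) →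
    (∀ h : E n → ℝ, SL h → Near δ h → (∀ z : E n, ‖z‖ ≤ 1 / 4 → m2 ≤ MM ψ h z) →
      ∃ l : ℝ, 0 < l ∧ ∃ z0 : E n, Near (δ / 4) (fun x => l * h x - inner ℝ z0 x)) →
    ∃ η : ℝ, 0 < η ∧ ∀ F : E n → ℝ, H0 F → (∀ x, x ≠ 0 → 0 < F x) →
      ∫ x, |F x - ψ x| ∂(mu n) ≤ η →
      ∃ h : E n → ℝ, SL h ∧ Near (1 / 2) h ∧ ∃ c : ℝ, 0 < c ∧ ∀ φ : E n → ℝ, H1 φ →
        HasDerivAt (fun s : ℝ => vv (fun x => h x + s * φ x))
          (c * ∫ x, F x * φ x * (h x ^ (n + 1))⁻¹ ∂(mu n)) 0 := by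
  obtain ⟨δ1, hδ1, hδ18, hGm⟩ := GG_min hn
  refine ⟨δ1, hδ1, ?_⟩
  intro δ hδ0 hδ ψ hψ hψ1 m1 m2 hm hA hB
  obtain ⟨h1, hh1, hN1, hm1⟩ := hA
  refine ⟨min δ1 ((m1 - m2) / (2 * 4 ^ n)), lt_min hδ1 (by
    apply div_pos (by linarith) (by positivity)), ?_⟩
  intro F hF hpos hint
  set η := min δ1 ((m1 - m2) / (2 * 4 ^ n)) with hη
  have hδ8 : δ ≤ 1 / 8 := hδ.trans hδ18
  have hη2 : 2 * (4 ^ n * η) ≤ m1 - m2 := by
    have h2 : η ≤ (m1 - m2) / (2 * 4 ^ n) := min_le_right _ _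
    have h3 : (0 : ℝ) < 2 * 4 ^ n := by positivity
    rw [le_div_iff₀ h3] at h2
    linarith
  have hcrit : ∀ h : E n → ℝ, P1 h → Near δ h → ∃ z, RtC F h z := by
    intro h hh hN
    obtain ⟨z, hz, hz2⟩ := hGm F hF hpos ψ hψ hψ1 (hint.trans (min_le_left _ _)) h hh
      (rt_near hN hδ)
    exact ⟨z, hz, hz2⟩
  obtain ⟨k, hk, hkN, zk, hzk, hmax⟩ := rt_max hn hF hpos hδ0 hδ8 hcrit
  have hkp := hk.p1
  have hklt := rt_pos hkp hkN (by linarith) hzk.1.le
  -- step 3
  have hlow : ∀ z : E n, ‖z‖ ≤ 1 / 4 → m2 ≤ MM ψ k z := by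
    intro z hz
    have hkz := rt_pos hkp hkN (by linarith) hz
    have h2 : MM F k zk ≤ MM F k z := by
      unfold MM
      exact mul_le_mul_of_nonneg_left (rt_min hn hF hpos hkp hklt hzk hkz) (vv_pos hn hkp).le
    obtain ⟨z1, hz1⟩ := hcrit h1 hh1.p1 hN1
    have h3 := hmax h1 z1 hh1 hN1 hz1
    have h4 := rt_cmp hn hF hψ hint hδ0.le hδ8 hh1 hN1 hz1.1.le
    have h5 := rt_cmp hn hF hψ hint hδ0.le hδ8 hk hkN hz
    have h6 := hm1 z1 hz1.1.le
    rw [abs_le] at h4 h5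
    linarith [h4.1, h5.2]
  obtain ⟨l, hl, z0, hN0⟩ := hB k hk hkN hlow
  set k' : E n → ℝ := fun x => l * k x - inner ℝ z0 x with hk'
  have hk'SL : SL k' := rt_SL_affine hk hl z0 (by linarith) hN0
  have hk'p := hk'SL.p1
  have hN' : Near δ k' := rt_near hN0 (by linarith)
  have hz0lt : ∀ x, x ≠ 0 → inner ℝ z0 x < l * k x := by
    intro x hx
    have := hk'SL.pos x hx
    simp only [hk'] at this
    linarith
  obtain ⟨zs, hzs⟩ := hcrit k' hk'p hN'
  have hzslt := rt_pos hk'p hN' (by linarith) hzs.1.le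
  -- step 4
  have hmax' : ∀ h z, SL h → Near δ h → RtC F h z → MM F h z ≤ MM F k' zs := by
    intro h z hh hN hz
    refine (hmax h z hh hN hz).trans ?_
    rw [hk', rt_MM_affine hn hkp hl hz0lt]
    unfold MM
    refine mul_le_mul_of_nonneg_left (rt_min hn hF hpos hkp hklt hzk ?_) (vv_pos hn hkp).le
    intro x hx
    have h2 := hzslt x hx
    simp only [hk'] at h2
    rw [inner_smul_left, inner_add_left]
    simp only [map_inv₀, conj_trivial]
    rw [inv_mul_lt_iff₀ hl]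
    linarith
  set G := GG F k' zs with hG
  have hGpos : 0 < G := rt_GG_pos hn hF hpos hk'p hzslt
  have hVpos := vv_pos hn hk'p
  -- the solution
  set h : E n → ℝ := fun x => k' x - inner ℝ zs x with hh
  have hhN : Near (1 / 2) h := by
    intro x hx
    have h2 := hN0 x hx
    have h3 := rt_inner hzs.1.le hx
    change |k' x - 1| ≤ δ / 4 at h2
    simp only [hh]
    rw [abs_le] at h2 h3 ⊢
    constructor <;> linarith [h2.1, h2.2, h3.1, h3.2]
  have hhSL : SL h := by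
    apply SL_of_near (by norm_num : (1 / 2 : ℝ) < 1) _ _ hhN
    · intro t ht x
      simp only [hh]
      rw [hk'SL.hom t ht, inner_smul_right]
      ring
    · intro x y
      simp only [hh]
      rw [inner_add_right]
      linarith [hk'SL.sub x y]
  have hn0 : (0 : ℝ) < n := by exact_mod_cast hn
  refine ⟨h, hhSL, hhN, n * vv k' / G, by positivity, ?_⟩
  intro φ hφ
  obtain ⟨M, hM0, hM⟩ := rt_phi_bd hn hφ
  obtain ⟨D, hD⟩ := vv_diff hn hk'SL hφ
  set I := ∫ x, F x * φ x * ((k' x - inner ℝ zs x) ^ (n + 1))⁻¹ ∂(mu n) with hI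
  -- the perturbed functions
  have hks : ∀ s : ℝ, |s| ≤ δ / (4 * M) → P1 (fun x => k' x + s * φ x) ∧
      Near (δ / 2) (fun x => k' x + s * φ x) := by
    intro s hs
    have h2 : Near (δ / 2) (fun x => k' x + s * φ x) := by
      intro x hx
      have h3 := hN0 x hx
      change |k' x - 1| ≤ δ / 4 at h3
      have h4 : |s * φ x| ≤ δ / 4 := by
        rw [abs_mul]
        calc |s| * |φ x| ≤ δ / (4 * M) * M :=
              mul_le_mul hs (hM x hx) (abs_nonneg _) (by positivity)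
          _ = δ / 4 := by
              field_simp
      simp only
      rw [abs_le] at h3 h4 ⊢
      constructor <;> linarith [h3.1, h3.2, h4.1, h4.2]
    refine ⟨P1_of_near (by linarith) ⟨?_, ?_⟩ h2, h2⟩
    · intro t ht x
      rw [hk'SL.hom t ht, hφ.hom t ht]
      ring
    · exact hk'p.cont.add (continuous_const.mul hφ.cont)
  -- step 5
  have h5 : ∀ s : ℝ, |s| ≤ δ / (4 * M) →
      vv (fun x => k' x + s * φ x) * (G - n * (s * I)) ≤ vv k' * G := by
    intro s hs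
    obtain ⟨hsP, hsN⟩ := hks s hs
    set ks : E n → ℝ := fun x => k' x + s * φ x with hksd
    set g : E n → ℝ := gau (gau ks) with hg
    have hgSL : SL g := gau_SL hn (gau_SL hn hsP).p1
    have hgle : ∀ x, g x ≤ ks x := fun x => hull_le hn hsP x
    have hgN : Near δ g := by
      intro x hx
      have h2 := hsN x hx
      have h3 := hgle x
      have h4 : (1 - δ / 2) * ‖x‖ ≤ g x := by
        apply le_hull hn hsP (l := fun x => (1 - δ / 2) * ‖x‖)
        · refine ⟨fun t ht x => ?_, fun x y => ?_, fun x hx => ?_⟩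
          · rw [norm_smul, Real.norm_of_nonneg ht]
            ring
          · have h5 := norm_add_le x y
            have h6 : (0 : ℝ) ≤ 1 - δ / 2 := by linarith
            nlinarith
          · have h6 : (0 : ℝ) < 1 - δ / 2 := by linarith
            have := norm_pos_iff.mpr hx
            positivity
        · intro y hy
          have h5 := hsN y hy
          rw [hy, mul_one]
          rw [abs_le] at h5
          linarith [h5.1]
      rw [hx, mul_one] at h4
      rw [abs_le] at h2 ⊢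
      constructor <;> linarith [h2.2]
    obtain ⟨zg, hzg⟩ := hcrit g hgSL.p1 hgN
    have hglt := rt_pos hgSL.p1 hgN (by linarith) hzg.1.le
    have h2 := hmax' g zg hgSL hgN hzg
    have h3 := GG_convex hn hF hpos hk'p hzslt hzs.2 hgSL.p1 hglt
    have hkc : ContinuousOn k' (sphere 0 1) := hk'p.cont.continuousOn
    have hic := rt_icont hk'p hzslt (n + 1)
    have h4 : ∫ x, F x * (g x - k' x) * ((k' x - inner ℝ zs x) ^ (n + 1))⁻¹ ∂(mu n) ≤ s * I := by
      rw [hI, ← integral_const_mul]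
      apply int_mono hn
      · exact ((rt_Fcont hF).mul (hgSL.p1.cont.continuousOn.sub hkc)).mul hic
      · exact continuousOn_const.mul (((rt_Fcont hF).mul hφ.cont.continuousOn).mul hic)
      · intro x hx
        have h5 := hgle x
        simp only [hksd] at h5
        have h6 := hpos x (rt_ne hx)
        have h7 : 0 < ((k' x - inner ℝ zs x) ^ (n + 1))⁻¹ := by
          apply inv_pos.mpr (pow_pos _ _)
          linarith [hzslt x (rt_ne hx)]
        have h8 : F x * (g x - k' x) ≤ F x * (s * φ x) :=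
          mul_le_mul_of_nonneg_left (by linarith) h6.le
        have h9 := mul_le_mul_of_nonneg_right h8 h7.le
        calc F x * (g x - k' x) * ((k' x - inner ℝ zs x) ^ (n + 1))⁻¹
            ≤ F x * (s * φ x) * ((k' x - inner ℝ zs x) ^ (n + 1))⁻¹ := h9
          _ = s * (F x * φ x * ((k' x - inner ℝ zs x) ^ (n + 1))⁻¹) := by ring
    have h6 : G - n * (s * I) ≤ GG F g zg := by
      have := mul_le_mul_of_nonneg_left h4 hn0.le
      linarith
    have h7 : vv ks = vv g := (vv_hull hn hsP).symm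
    calc vv ks * (G - n * (s * I)) ≤ vv ks * GG F g zg :=
          mul_le_mul_of_nonneg_left h6 (vv_pos hn hsP).le
      _ = MM F g zg := by
          rw [h7]
          rfl
      _ ≤ MM F k' zs := h2
      _ = vv k' * G := rfl
  -- step 6
  have hr : 0 < δ / (4 * M) := by positivity
  have hv0 : vv (fun x => k' x + 0 * φ x) = vv k' := by
    congr 1
    funext x
    ring
  have h6 : HasDerivAt (fun s : ℝ => vv (fun x => k' x + s * φ x) * (G - n * (s * I)))
      (D * (G - n * (0 * I)) + vv (fun x => k' x + 0 * φ x) * (-(n * I))) 0 := by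
    apply HasDerivAt.mul hD
    have h7 : HasDerivAt (fun s : ℝ => (n : ℝ) * (s * I)) (n * I) 0 := by
      have h8 : HasDerivAt (fun s : ℝ => s * I) I 0 := by
        simpa using (hasDerivAt_id (0 : ℝ)).mul_const I
      exact h8.const_mul (n : ℝ)
    simpa using h7.const_sub G
  have h7 : IsLocalMax (fun s : ℝ => vv (fun x => k' x + s * φ x) * (G - n * (s * I))) 0 := by
    have : ∀ᶠ s : ℝ in nhds 0, |s| ≤ δ / (4 * M) := by
      filter_upwards [Metric.ball_mem_nhds (0 : ℝ) hr] with s hs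
      rw [Metric.mem_ball, dist_zero_right, Real.norm_eq_abs] at hs
      exact hs.le
    filter_upwards [this] with s hs
    have h8 := h5 s hs
    simp only [hv0]
    simpa using h8
  have h8 := h7.hasDerivAt_eq_zero h6
  rw [hv0] at h8
  have h9 : D = n * vv k' / G * I := by
    field_simp
    linarith
  rw [← h9]
  -- step 7
  refine hD.congr_of_eventuallyEq ?_
  filter_upwards [Metric.ball_mem_nhds (0 : ℝ) hr] with s hs
  rw [Metric.mem_ball, dist_zero_right, Real.norm_eq_abs] at hs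
  obtain ⟨hsP, hsN⟩ := hks s hs.le
  have h11 := vv_trans hn hsP (rt_pos hsP hsN (by linarith) hzs.1.le)
  rw [← h11]
  congr 1
  funext x
  simp only [hh]
  ring

end Pool.Agent.H35.CA
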