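import Pool.Agent.H35.CA.GauB

/-!
# Job TRFA: transfer of solutions

Proof hints.
`transfer`: put `k x = κ * h (B⁻¹ x)`, `κ > 0` to be chosen.  For `φ` in `H1`,
`k + s φ = κ (h + (s/κ) φ∘B) ∘ B⁻¹`, so by `vv_smul`, `vv_lin` (valid for `P1` functions, and
`k + s φ` is `P1` for small `|s|`) `vv (k + s φ) = κ^n |det B|⁻¹ vv (h + (s/κ) φ∘B)`; derivative
at 0: `κ^(n-1) |det B|⁻¹ (c/a) ∫ g(Bx) φ(Bx) h(x)^(-n-1) dmu`.  By `lin_cov` for the map `B`, with
`F = g φ / (h∘B⁻¹)` (0-homogeneous, continuous off 0) and the function `h ∘ B⁻¹`: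
`∫ (g φ)(Bx) h(x)^(-n-1) dmu = |det B|⁻¹ ∫ g φ (h∘B⁻¹)^(-n-1) dmu
 = |det B|⁻¹ κ^(n+1) ∫ g φ k^(-n-1) dmu`.  So choose `κ` with
`κ^(2n) |det B|⁻² c / a = n`.
-/

namespace Pool.Agent.H35.CA

open MeasureTheory Metric Set

variable {n : ℕ}

theorem trfA_lower (hn : 1 ≤ n) {k : E n → ℝ} (hk : P1 k) :
    ∃ m : ℝ, 0 < m ∧ ∀ x : E n, m * ‖x‖ ≤ k x := by
  have : Nonempty (Fin n) := ⟨⟨0, hn⟩⟩
  have hne : (sphere (0 : E n) 1).Nonempty := by
    obtain ⟨x, hx⟩ := gauB_ex hn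
    exact ⟨x, by simpa using hx⟩
  obtain ⟨x₀, hx₀, hmin⟩ := (isCompact_sphere (0 : E n) 1).exists_isMinOn hne hk.cont.continuousOn
  refine ⟨k x₀, hk.pos x₀ (gauB_ne (by simpa using hx₀)), fun x => ?_⟩
  by_cases hx : x = 0
  · subst hx
    rw [gaua_hom0 hk.hom]
    simp
  · rw [gaua_scale hk.hom x hx, mul_comm]
    refine mul_le_mul_of_nonneg_left ?_ (norm_nonneg x)
    exact hmin (show ‖x‖⁻¹ • x ∈ sphere (0 : E n) 1 by simpa using gaua_unit x hx)

theorem trfA_upper {k : E n → ℝ} (hk : H1 k) :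
    ∃ C : ℝ, 0 < C ∧ ∀ x : E n, |k x| ≤ C * ‖x‖ := by
  obtain ⟨C, hC⟩ := (isCompact_sphere (0 : E n) 1).exists_bound_of_continuousOn
    hk.cont.continuousOn
  refine ⟨max C 1, by positivity, fun x => ?_⟩
  by_cases hx : x = 0
  · subst hx
    rw [gaua_hom0 hk.hom]
    simp
  · rw [gaua_scale hk.hom x hx, abs_mul, abs_norm, mul_comm]
    refine mul_le_mul_of_nonneg_right ?_ (norm_nonneg x)
    have := hC (‖x‖⁻¹ • x) (by simpa using gaua_unit x hx)
    rw [Real.norm_eq_abs] at this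
    exact this.trans (le_max_left _ _)

theorem trfA_P1 (hn : 1 ≤ n) {k : E n → ℝ} (hk : P1 k) {φ : E n → ℝ} (hφ : H1 φ) :
    ∀ᶠ s : ℝ in nhds 0, P1 (fun x => k x + s * φ x) := by
  obtain ⟨m, hm, hm'⟩ := trfA_lower hn hk
  obtain ⟨C, hC, hC'⟩ := trfA_upper hφ
  have h1 : ∀ᶠ s : ℝ in nhds 0, |s| < m / C := by
    have := Metric.ball_mem_nhds (0 : ℝ) (div_pos hm hC)
    filter_upwards [this] with s hs
    simpa [Real.dist_eq] using hs
  filter_upwards [h1] with s hs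
  refine ⟨fun t ht x => ?_, hk.cont.add (hφ.cont.const_mul s), fun x hx => ?_⟩
  · rw [hk.hom t ht, hφ.hom t ht]
    ring
  · have hx' : 0 < ‖x‖ := norm_pos_iff.mpr hx
    have h2 : |s * φ x| < m * ‖x‖ := by
      rw [abs_mul]
      calc |s| * |φ x| ≤ |s| * (C * ‖x‖) := mul_le_mul_of_nonneg_left (hC' x) (abs_nonneg s)
        _ = |s| * C * ‖x‖ := by ring
        _ < m * ‖x‖ := by
          refine mul_lt_mul_of_pos_right ?_ hx'
          rwa [lt_div_iff₀ hC] at hs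
    have h3 := hm' x
    have h4 := (abs_lt.mp h2).1
    linarith

theorem transfer (hn : 1 ≤ n) {g : E n → ℝ} (hg : H0 g) (B : E n ≃L[ℝ] E n)
    {h : E n → ℝ} (hh' : SL h) {c a : ℝ} (hc : 0 < c) (ha : 0 < a)
    (hEL : ∀ φ : E n → ℝ, H1 φ → HasDerivAt (fun s : ℝ => vv (fun x => h x + s * φ x))
      (c * ∫ x, g (B x) / a * φ x * (h x ^ (n + 1))⁻¹ ∂(mu n)) 0) :
    ∃ κ : ℝ, 0 < κ ∧ SL (fun x => κ * h (B.symm x)) ∧ ∀ φ : E n → ℝ, H1 φ →
      HasDerivAt (fun s : ℝ => vv (fun x => κ * h (B.symm x) + s * φ x))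
        ((n : ℝ) * ∫ x, g x * φ x * ((κ * h (B.symm x)) ^ (n + 1))⁻¹ ∂(mu n)) 0 := by
  have hh := hh'.p1
  set D : ℝ := |(B : E n →L[ℝ] E n).det| with hD
  have hD0 : 0 < D := by
    rw [hD, abs_pos]
    exact (B.toLinearEquiv.isUnit_det').ne_zero
  have hn0 : (0 : ℝ) < n := Nat.cast_pos.mpr hn
  obtain ⟨κ, hκ, hκe⟩ : ∃ κ : ℝ, 0 < κ ∧ κ ^ (2 * n) = n * a * D ^ 2 / c := by
    have hr : (0 : ℝ) < n * a * D ^ 2 / c := by positivity
    exact ⟨(n * a * D ^ 2 / c) ^ (((2 * n : ℕ) : ℝ))⁻¹, Real.rpow_pos_of_pos hr _,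
      Real.rpow_inv_natCast_pow hr.le (by omega)⟩
  have hkP : P1 (fun x => κ * h (B.symm x)) := gauB_P1_smul (gauB_P1_comp hh B.symm) hκ
  refine ⟨κ, hκ, ⟨hkP.hom, fun x y => ?_, hkP.pos⟩, fun φ hφ => ?_⟩
  · rw [map_add, ← mul_add]
    exact mul_le_mul_of_nonneg_left (hh'.sub _ _) hκ.le
  have hφB : H1 (fun x => φ (B x)) := by
    refine ⟨fun t ht x => ?_, hφ.cont.comp B.continuous⟩
    rw [map_smul, hφ.hom t ht]
  have h1 := hEL _ hφB
  have h2 : HasDerivAt (fun s : ℝ => vv (fun x => h x + s / κ * φ (B x)))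
      ((c * ∫ x, g (B x) / a * φ (B x) * (h x ^ (n + 1))⁻¹ ∂(mu n)) * (1 / κ)) 0 := by
    have h3 : HasDerivAt (fun s : ℝ => s / κ) (1 / κ) 0 := (hasDerivAt_id (0 : ℝ)).div_const κ
    have h4 : HasDerivAt (fun s : ℝ => vv (fun x => h x + s * φ (B x)))
      (c * ∫ x, g (B x) / a * φ (B x) * (h x ^ (n + 1))⁻¹ ∂(mu n)) ((fun s : ℝ => s / κ) 0) := by
      simpa using h1
    exact HasDerivAt.comp (0 : ℝ) h4 h3
  have h5 := h2.const_mul (κ ^ n * D⁻¹)
  have h6 : (fun s : ℝ => vv (fun x => κ * h (B.symm x) + s * φ x)) =ᶠ[nhds 0]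
      fun s : ℝ => κ ^ n * D⁻¹ * vv (fun x => h x + s / κ * φ (B x)) := by
    have e2 : ∀ᶠ s : ℝ in nhds 0, P1 (fun x => h x + s / κ * φ (B x)) := by
      have h7 := trfA_P1 hn hh hφB
      have h8 : Filter.Tendsto (fun s : ℝ => s / κ) (nhds 0) (nhds 0) := by
        have := (continuous_id.div_const κ).tendsto (0 : ℝ)
        simpa using this
      exact h8.eventually h7
    filter_upwards [trfA_P1 hn hkP hφ, e2] with s hs1 hs2
    have h7 := vv_lin hn hs1 B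
    have h8 := vv_smul hn hs2 hκ
    have h9 : (fun x => κ * (h x + s / κ * φ (B x))) =
        fun x => κ * h (B.symm (B x)) + s * φ (B x) := by
      funext x
      rw [B.symm_apply_apply]
      field_simp
    rw [h9] at h8
    rw [h8] at h7
    rw [← hD] at h7
    have h10 : D⁻¹ * (D * vv (fun x => κ * h (B.symm x) + s * φ x)) =
        vv (fun x => κ * h (B.symm x) + s * φ x) := by
      rw [← mul_assoc, inv_mul_cancel₀ hD0.ne', one_mul]
    rw [← h10, ← h7]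
    ring
  refine (h5.congr_of_eventuallyEq h6).congr_deriv ?_
  set J : ℝ := ∫ x, g x * φ x * (h (B.symm x) ^ (n + 1))⁻¹ ∂(mu n) with hJ
  have h11 : ∫ x, g (B x) / a * φ (B x) * (h x ^ (n + 1))⁻¹ ∂(mu n) = a⁻¹ * (D⁻¹ * J) := by
    have hF : H0 (fun y => g y * φ y * (h (B.symm y))⁻¹) := by
      have hpos : ∀ x : E n, x ≠ 0 → 0 < h (B.symm x) := (gauB_P1_comp hh B.symm).pos
      refine ⟨fun t ht x => ?_, ?_⟩
      · have e1 := (gauB_P1_comp hh B.symm).hom t ht.le x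
        rw [hg.hom t ht, hφ.hom t ht.le, e1, mul_inv]
        field_simp
      · refine (hg.cont.mul hφ.cont.continuousOn).mul (ContinuousOn.inv₀
          (gauB_P1_comp hh B.symm).cont.continuousOn ?_)
        intro x hx
        exact (hpos x hx).ne'
    have h12 := lin_cov hn B hF (gauB_P1_comp hh B.symm)
    rw [← hD] at h12
    have h13 : ∫ x, g x * φ x * (h (B.symm x))⁻¹ * (h (B.symm x) ^ n)⁻¹ ∂(mu n) = J := by
      rw [hJ]
      refine int_congr hn (fun x _ => ?_)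
      rw [pow_succ, mul_inv]
      ring
    rw [h13] at h12
    rw [← h12, ← integral_const_mul]
    refine int_congr hn (fun x _ => ?_)
    rw [B.symm_apply_apply, pow_succ, mul_inv]
    ring
  have h14 : ∫ x, g x * φ x * ((κ * h (B.symm x)) ^ (n + 1))⁻¹ ∂(mu n) =
      (κ ^ (n + 1))⁻¹ * J := by
    rw [hJ, ← integral_const_mul]
    refine int_congr hn (fun x _ => ?_)
    rw [mul_pow, mul_inv]
    ring
  rw [h11, h14]
  have h15 : κ ^ n * κ ^ n * c = n * a * D ^ 2 := by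
    have : κ ^ n * κ ^ n = n * a * D ^ 2 / c := by
      rw [← hκe, two_mul, pow_add]
    rw [this]
    field_simp
  rw [pow_succ]
  field_simp
  linear_combination J * h15

end Pool.Agent.H35.CA
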