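import Pool.Agent.H35.CA.GauB

/-!
# Job TRFB: from the variational equation to solutions

Proof hints.
`isSol_of`: `K = wulff k`, compact (closed and bounded), convex, `0` in the interior;
`supp K u = k u` for all `u` (bipolar: `gau_gau`, or see the hints in the file `Den`).  For a
compact convex nonempty `L`, `supp L` is `H1` and for `s ≥ 0`
`K + s • L = wulff (k + s * supp L)` (both are compact convex sets with the same support
function; Hahn-Banach separation), so `vol (K + s L) = om n * vv (k + s * supp L)` for small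
`s ≥ 0` (`vol_wulff`), and `toSphere_int` converts the integral:
`om n * n * ∫ .. dmu = ∫ .. dσ`.
-/

namespace Pool.Agent.H35.CA

open MeasureTheory Metric Set

variable {n : ℕ}

/-! ### Support functions of compact sets -/

theorem trfb_bdd {K : Set (E n)} (hK : IsCompact K) (u : E n) :
    BddAbove ((fun x => inner ℝ x u) '' K) :=
  (hK.image_of_continuousOn (by fun_prop)).bddAbove

theorem trfb_le {K : Set (E n)} (hK : IsCompact K) {x : E n} (hx : x ∈ K) (u : E n) :
    inner ℝ x u ≤ supp K u :=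
  le_csSup (trfb_bdd hK u) (mem_image_of_mem _ hx)

theorem trfb_att {K : Set (E n)} (hK : IsCompact K) (hne : K.Nonempty) (u : E n) :
    ∃ x ∈ K, inner ℝ x u = supp K u := by
  have hc : ContinuousOn (fun x : E n => inner ℝ x u) K := by fun_prop
  obtain ⟨x, hx, hm⟩ := hK.exists_isMaxOn hne hc
  refine ⟨x, hx, le_antisymm (trfb_le hK hx u) (csSup_le (hne.image _) ?_)⟩
  rintro _ ⟨y, hy, rfl⟩
  exact hm hy

theorem trfb_bd {K : Set (E n)} (hK : IsCompact K) :
    ∃ R : ℝ, 0 ≤ R ∧ ∀ x ∈ K, ‖x‖ ≤ R := by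
  obtain ⟨R, hR⟩ := hK.isBounded.exists_norm_le
  exact ⟨max R 0, le_max_right _ _, fun x hx => (hR x hx).trans (le_max_left _ _)⟩

theorem trfb_supp_add {K : Set (E n)} (hK : IsCompact K) (hne : K.Nonempty) (u v : E n) :
    supp K (u + v) ≤ supp K u + supp K v := by
  obtain ⟨x, hx, h⟩ := trfb_att hK hne (u + v)
  rw [← h, inner_add_right]
  exact add_le_add (trfb_le hK hx u) (trfb_le hK hx v)

theorem trfb_supp_norm {K : Set (E n)} (hK : IsCompact K) (hne : K.Nonempty) {R : ℝ}
    (hR : ∀ x ∈ K, ‖x‖ ≤ R) (u : E n) : |supp K u| ≤ R * ‖u‖ := by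
  obtain ⟨x, hx, h⟩ := trfb_att hK hne u
  rw [← h]
  exact (abs_real_inner_le_norm x u).trans (mul_le_mul_of_nonneg_right (hR x hx) (norm_nonneg u))

theorem trfb_H1 {K : Set (E n)} (hK : IsCompact K) (hne : K.Nonempty) : H1 (supp K) := by
  refine ⟨?_, ?_⟩
  · intro t ht u
    apply le_antisymm
    · obtain ⟨x, hx, h⟩ := trfb_att hK hne (t • u)
      rw [← h, inner_smul_right]
      exact mul_le_mul_of_nonneg_left (trfb_le hK hx u) ht
    · obtain ⟨x, hx, h⟩ := trfb_att hK hne u
      rw [← h]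
      have h1 := trfb_le hK hx (t • u)
      rw [inner_smul_right] at h1
      exact h1
  · obtain ⟨R, hR0, hR⟩ := trfb_bd hK
    have h1 : LipschitzWith (Real.toNNReal R) (supp K) := by
      apply LipschitzWith.of_le_add_mul
      intro u v
      have h2 := trfb_supp_add hK hne v (u - v)
      rw [add_sub_cancel] at h2
      have h3 := (abs_le.mp (trfb_supp_norm hK hne hR (u - v))).2
      rw [dist_eq_norm, Real.coe_toNNReal R hR0]
      linarith
    exact h1.continuous

open scoped Pointwise in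
theorem trfb_supp_sum {K L : Set (E n)} (hK : IsCompact K) (hKne : K.Nonempty)
    (hL : IsCompact L) (hLne : L.Nonempty) {s : ℝ} (hs : 0 ≤ s) (u : E n) :
    supp (K + s • L) u = supp K u + s * supp L u := by
  have hc : IsCompact (K + s • L) := hK.add (hL.smul s)
  have hne : (K + s • L).Nonempty := hKne.add (hLne.smul_set)
  apply le_antisymm
  · obtain ⟨z, hz, h⟩ := trfb_att hc hne u
    obtain ⟨x, hx, y, hy, rfl⟩ := Set.mem_add.mp hz
    obtain ⟨w, hw, rfl⟩ := Set.mem_smul_set.mp hy
    rw [← h, inner_add_left, real_inner_smul_left]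
    exact add_le_add (trfb_le hK hx u) (mul_le_mul_of_nonneg_left (trfb_le hL hw u) hs)
  · obtain ⟨x, hx, h1⟩ := trfb_att hK hKne u
    obtain ⟨w, hw, h2⟩ := trfb_att hL hLne u
    have h3 := trfb_le hc (Set.add_mem_add hx (Set.smul_mem_smul_set (a := s) hw)) u
    rw [inner_add_left, real_inner_smul_left, h1, h2] at h3
    exact h3

/-- A compact convex set is determined by its support function. -/
theorem trfb_mem {A : Set (E n)} (hA : IsCompact A) (hc : Convex ℝ A) (hne : A.Nonempty)
    (x : E n) : x ∈ A ↔ ∀ u : E n, inner ℝ x u ≤ supp A u := by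
  constructor
  · intro hx u
    exact trfb_le hA hx u
  · intro h
    by_contra hx
    obtain ⟨f, c, h1, h2⟩ := geometric_hahn_banach_closed_point hc hA.isClosed hx
    set w : E n := (InnerProductSpace.toDual ℝ (E n)).symm f with hw
    have hf : ∀ y : E n, f y = inner ℝ y w := by
      intro y
      rw [real_inner_comm, hw, InnerProductSpace.toDual_symm_apply]
    obtain ⟨y, hy, h3⟩ := trfb_att hA hne w
    have h4 := h1 y hy
    rw [hf, h3] at h4
    rw [hf] at h2
    have h5 := h w
    linarith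

/-! ### Wulff shapes -/

theorem trfb_compact (hn : 1 ≤ n) {k : E n → ℝ} (hk : P1 k) : IsCompact (wulff k) := by
  have hg := (gau_SL hn hk).p1
  obtain ⟨m, hm, hb⟩ := sphA_lower hn hg
  rw [gauB_wulff hn hk]
  refine Metric.isCompact_of_isClosed_isBounded (isClosed_le hg.cont continuous_const) ?_
  refine (Metric.isBounded_closedBall (x := (0 : E n)) (r := 1 / m)).subset ?_
  intro x hx
  rw [mem_closedBall_zero_iff, le_div_iff₀ hm, mul_comm]
  exact (hb x).trans hx

theorem trfb_convex (k : E n → ℝ) : Convex ℝ (wulff k) := by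
  intro x hx y hy a b ha hb hab u hu
  rw [inner_add_left, real_inner_smul_left, real_inner_smul_left]
  have h1 := mul_le_mul_of_nonneg_left (hx u hu) ha
  have h2 := mul_le_mul_of_nonneg_left (hy u hu) hb
  calc a * inner ℝ x u + b * inner ℝ y u ≤ a * k u + b * k u := add_le_add h1 h2
    _ = (a + b) * k u := by ring
    _ = k u := by rw [hab, one_mul]

theorem trfb_zero (hn : 1 ≤ n) {k : E n → ℝ} (hk : P1 k) : (0 : E n) ∈ interior (wulff k) := by
  have hg := (gau_SL hn hk).p1
  rw [gauB_wulff hn hk]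
  refine mem_interior.mpr ⟨{x | gau k x < 1}, fun x (hx : gau k x < 1) => ?_,
    isOpen_lt hg.cont continuous_const, ?_⟩
  · exact hx.le
  change gau k 0 < 1
  rw [gaua_hom0 hg.hom]
  exact zero_lt_one

theorem supp_wulff (hn : 1 ≤ n) {k : E n → ℝ} (hk : SL k) (u : E n) :
    supp (wulff k) u = k u := by
  have hc := trfb_compact hn hk.p1
  have hne : (wulff k).Nonempty := ⟨0, interior_subset (trfb_zero hn hk.p1)⟩
  apply le_antisymm
  · obtain ⟨x, hx, h⟩ := trfb_att hc hne u
    rw [← h]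
    exact (gauB_wulff_all hk.p1 x).mp hx u
  · by_cases hu : u = 0
    · subst hu
      rw [gaua_hom0 hk.hom]
      have h := trfb_le hc (interior_subset (trfb_zero hn hk.p1)) (0 : E n)
      rwa [inner_zero_right] at h
    · obtain ⟨x, hx1, hx2⟩ := gaua_hb hk u hu
      rw [← hx2]
      exact trfb_le hc ((gauB_wulff_all hk.p1 x).mpr hx1) u

open scoped Pointwise in
theorem trfb_sum_eq (hn : 1 ≤ n) {k : E n → ℝ} (hk : SL k) {L : Set (E n)} (hL : IsCompact L)
    (hLc : Convex ℝ L) (hLne : L.Nonempty) {s : ℝ} (hs : 0 ≤ s)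
    (hP : P1 (fun x => k x + s * supp L x)) :
    wulff k + s • L = wulff (fun x => k x + s * supp L x) := by
  have hc := trfb_compact hn hk.p1
  have hne : (wulff k).Nonempty := ⟨0, interior_subset (trfb_zero hn hk.p1)⟩
  ext x
  rw [trfb_mem (hc.add (hL.smul s)) ((trfb_convex k).add (hLc.smul s))
    (hne.add (hLne.smul_set)) x, gauB_wulff_all hP x]
  refine forall_congr' fun u => ?_
  rw [trfb_supp_sum hc hne hL hLne hs u, supp_wulff hn hk u]

theorem trfb_P1 (hn : 1 ≤ n) {k : E n → ℝ} (hk : SL k) {L : Set (E n)} (hL : IsCompact L)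
    (hLne : L.Nonempty) :
    ∃ ε : ℝ, 0 < ε ∧ ∀ s : ℝ, 0 ≤ s → s < ε → P1 (fun x => k x + s * supp L x) := by
  obtain ⟨m, hm, hb⟩ := sphA_lower hn hk.p1
  obtain ⟨R, hR0, hR⟩ := trfb_bd hL
  have hH := trfb_H1 hL hLne
  refine ⟨m / (R + 1), by positivity, fun s hs0 hs => ⟨?_, ?_, ?_⟩⟩
  · intro t ht x
    change k (t • x) + s * supp L (t • x) = t * (k x + s * supp L x)
    rw [hk.hom t ht, hH.hom t ht]
    ring
  · exact hk.p1.cont.add (continuous_const.mul hH.cont)
  · intro x hx
    have h1 := hb x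
    have h2 := (abs_le.mp (trfb_supp_norm hL hLne hR x)).1
    have h3 : 0 < ‖x‖ := norm_pos_iff.mpr hx
    have h4 : s * (R + 1) < m := by
      rwa [lt_div_iff₀ (by linarith)] at hs
    have h5 : s * (-(R * ‖x‖)) ≤ s * supp L x := mul_le_mul_of_nonneg_left h2 hs0
    have h6 : s * R < m := by nlinarith
    change 0 < k x + s * supp L x
    nlinarith

open scoped Pointwise in
theorem isSol_of (hn : 1 ≤ n) {g : E n → ℝ} (hg : H0 g) {k : E n → ℝ} (hk : SL k)
    (hEL : ∀ φ : E n → ℝ, H1 φ → HasDerivAt (fun s : ℝ => vv (fun x => k x + s * φ x))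
      ((n : ℝ) * ∫ x, g x * φ x * (k x ^ (n + 1))⁻¹ ∂(mu n)) 0) :
    IsSolution (fun u : sphere (0 : E n) 1 => g u) (wulff k) := by
  have _ := hg
  refine ⟨trfb_compact hn hk.p1, trfb_convex k, trfb_zero hn hk.p1, ?_⟩
  intro L hL hLc hLne
  obtain ⟨ε, hε, hP⟩ := trfb_P1 hn hk hL hLne
  have h1 := (hEL (supp L) (trfb_H1 hL hLne)).const_mul (om n)
  have h2 : (∫ u : sphere (0 : E n) 1, supp L u * (g u * (supp (wulff k) u ^ (n + 1))⁻¹)
        ∂(volume : Measure (E n)).toSphere) =
      om n * ((n : ℝ) * ∫ x, g x * supp L x * (k x ^ (n + 1))⁻¹ ∂(mu n)) := by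
    rw [toSphere_int hn (fun x => supp L x * (g x * (supp (wulff k) x ^ (n + 1))⁻¹))]
    have h3 : (fun x : E n => supp L x * (g x * (supp (wulff k) x ^ (n + 1))⁻¹)) =
        fun x => g x * supp L x * (k x ^ (n + 1))⁻¹ := by
      funext x
      rw [supp_wulff hn hk x]
      ring
    rw [h3]
    ring
  rw [h2]
  have h4 : ∀ s : ℝ, 0 ≤ s → s < ε →
      (volume (wulff k + s • L)).toReal = om n * vv (fun x => k x + s * supp L x) := by
    intro s hs0 hs
    rw [trfb_sum_eq hn hk hL hLc hLne hs0 (hP s hs0 hs)]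
    exact (vol_wulff hn (hP s hs0 hs)).2
  refine h1.hasDerivWithinAt.congr_of_eventuallyEq ?_ (h4 0 le_rfl hε)
  have h5 : ∀ᶠ s in nhdsWithin (0 : ℝ) (Ici 0), s < ε :=
    nhdsWithin_le_nhds (Iio_mem_nhds hε)
  filter_upwards [h5, self_mem_nhdsWithin] with s hs hs0
  exact h4 s hs0 hs

end Pool.Agent.H35.CA
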