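import Pool.Agent.H35.CA.Mt
import Pool.Agent.H35.CA.Rt
import Pool.Agent.H35.CA.Conc
import Pool.Agent.H35.CA.TrfA
import Pool.Agent.H35.CA.TrfB

/-!
# Job LOC: the local theorem

`local_solv`: let `δ1` be from `RT`, `δ` from `model`, and then `ψ`, `m1`, `m2` for
`ε1 = min δ1 (ε / (2 a)) (1/2)` (`a = f w`; also `ε1 ≤ (min f) / (2 a)`, so that `g > 0`), `η`
from `RT`, `χ` from `conc`, `t ≥ max (3 M) 1` large, so that the integral in `conc` is
`≤ a η / 2`.  `G x = a * χ x * (ψ (Bt w t⁻¹ x) - 1)`, smooth (`χ` vanishes near 0), supported in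
`U`, `|G| ≤ a ε1 ≤ ε`.  For unit `u`: `G u = a χ u (ψ (B⁻¹ u) - 1)`.  Let `r = min (a η / 2)`,
(something keeping `g'` positive: `(min f)/4`).  For `g'` in `H0` with `|g' - f - G| ≤ r` on the
sphere, put `F x = g' (B x) / a`: for `x` in the sphere, with `y = un (B x)`, `B⁻¹ y` is a positive
multiple of `x`, so `g' (B x) = g' y = f y + a χ y (ψ x - 1) + O(r)`, hence
`∫ |F - ψ| ≤ η`.  `F` is `H0`, positive.  Apply `RT`, then `transfer` (with `g'`), `isSol_of`.
Eccentricity: `k x = κ h (B⁻¹ x)`, `B⁻¹ w = w/t`, `B⁻¹ v = v` for a unit `v ⊥ w` (exists as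
`2 ≤ n`), so the width in direction `w` is `≤ 3 κ / t` and in direction `v` it is `≥ κ`.
-/

namespace Pool.Agent.H35.CA

open MeasureTheory Metric Set

variable {n : ℕ}

theorem loc_un_norm {x : E n} (hx : x ≠ 0) : ‖un x‖ = 1 := by
  unfold un
  rw [norm_smul, norm_inv, norm_norm]
  exact inv_mul_cancel₀ (norm_ne_zero_iff.2 hx)

theorem loc_un_hom {F : E n → ℝ} (hF : ∀ t : ℝ, 0 < t → ∀ x, F (t • x) = F x) {x : E n}
    (hx : x ≠ 0) : F (un x) = F x := by
  unfold un
  exact hF _ (inv_pos.2 (norm_pos_iff.2 hx)) x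

/-- A unit vector orthogonal to a given vector. -/
theorem loc_orth (hn : 2 ≤ n) (w : E n) : ∃ v : E n, ‖v‖ = 1 ∧ inner ℝ w v = 0 := by
  have hd : 1 < Module.finrank ℝ (E n) := by
    rw [finrank_euclideanSpace_fin]; omega
  have h1 : Module.finrank ℝ (ℝ ∙ w) ≤ 1 := by
    have := finrank_span_le_card (R := ℝ) ({w} : Set (E n))
    simpa using this
  have h2 : Module.finrank ℝ (ℝ ∙ w) + Module.finrank ℝ ((ℝ ∙ w)ᗮ : Submodule ℝ (E n))
      = Module.finrank ℝ (E n) := Submodule.finrank_add_finrank_orthogonal _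
  have h3 : 0 < Module.finrank ℝ ((ℝ ∙ w)ᗮ : Submodule ℝ (E n)) := by omega
  have h4 : Nontrivial ((ℝ ∙ w)ᗮ : Submodule ℝ (E n)) := Module.nontrivial_of_finrank_pos h3
  obtain ⟨⟨v, hv⟩, hv0⟩ := exists_ne (0 : ((ℝ ∙ w)ᗮ : Submodule ℝ (E n)))
  have hv1 : v ≠ 0 := fun h => hv0 (Subtype.ext h)
  refine ⟨‖v‖⁻¹ • v, ?_, ?_⟩
  · rw [norm_smul, norm_inv, norm_norm]
    exact inv_mul_cancel₀ (norm_ne_zero_iff.2 hv1)
  · rw [real_inner_smul_right]
    have : inner ℝ w v = 0 := Submodule.mem_orthogonal_singleton_iff_inner_right.1 hv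
    rw [this, mul_zero]

theorem local_solv (hn : 2 ≤ n) {f : E n → ℝ} (hf : H0 f) (hpos : ∀ x, x ≠ 0 → 0 < f x)
    {w : E n} (hw : ‖w‖ = 1) (hsym : f (-w) = f w) {U : Set (E n)} (hU : IsOpen U)
    (hw1 : w ∈ U) (hw2 : -w ∈ U) {ε : ℝ} (hε : 0 < ε) (M : ℝ) :
    ∃ G : E n → ℝ, ContDiff ℝ (⊤ : ℕ∞) G ∧ tsupport G ⊆ U ∧ (∀ x, ‖x‖ = 1 → |G x| ≤ ε) ∧
      ∃ r : ℝ, 0 < r ∧ ∀ g : E n → ℝ, H0 g → (∀ x, ‖x‖ = 1 → |g x - (f x + G x)| ≤ r) →
        (∀ x, x ≠ 0 → 0 < g x) ∧
        ∃ K : Set (E n), IsSolution (fun u : sphere (0 : E n) 1 => g u) K ∧ Ecc M K := by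
  have hn1 : 1 ≤ n := by omega
  have hw0 : w ≠ 0 := by
    intro h; rw [h, norm_zero] at hw; exact zero_ne_one hw
  have hne_of : ∀ x : E n, ‖x‖ = 1 → x ≠ 0 := by
    intro x hx h; rw [h, norm_zero] at hx; exact zero_ne_one hx
  -- minimum of f
  obtain ⟨fm, hfm, hfmin⟩ : ∃ fm : ℝ, 0 < fm ∧ ∀ x, ‖x‖ = 1 → fm ≤ f x := by
    have hc : ContinuousOn f (sphere (0 : E n) 1) := by
      apply hf.cont.mono
      intro x hx
      exact hne_of x (mem_sphere_zero_iff_norm.1 hx)
    obtain ⟨x0, hx0, hmin⟩ := (isCompact_sphere (0 : E n) 1).exists_isMinOn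
      ⟨w, mem_sphere_zero_iff_norm.2 hw⟩ hc
    refine ⟨f x0, hpos x0 (hne_of x0 (mem_sphere_zero_iff_norm.1 hx0)), ?_⟩
    intro x hx
    exact hmin (mem_sphere_zero_iff_norm.2 hx)
  set a : ℝ := f w with ha
  have hapos : 0 < a := hpos w hw0
  obtain ⟨δ1, hδ1, hRT⟩ := RT (n := n) hn1
  obtain ⟨δ, hδ, hδle, hmodel⟩ := model hn δ1 hδ1
  set ε1 : ℝ := min δ1 (min (ε / a) (fm / (2 * a))) with hε1
  have hε1pos : 0 < ε1 := by
    rw [hε1]; exact lt_min hδ1 (lt_min (by positivity) (by positivity))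
  have b1 : ε1 ≤ δ1 := min_le_left _ _
  have b2 : ε1 ≤ ε / a := le_trans (min_le_right _ _) (min_le_left _ _)
  have b3 : ε1 ≤ fm / (2 * a) := le_trans (min_le_right _ _) (min_le_right _ _)
  obtain ⟨ψ, hψ, hψs, hψb, m1, m2, hm, hcomp, hmax⟩ := hmodel ε1 hε1pos
  obtain ⟨η, hη, hRT2⟩ := hRT δ hδ hδle ψ hψ (fun x hx => le_trans (hψb x hx) b1) m1 m2 hm
    hcomp hmax
  obtain ⟨χ, hχs, hχb, hχsupp, hχ0, hconc⟩ := conc hn1 hf hw (a := a) rfl hsym hU hw1 hw2
  obtain ⟨t0, ht0⟩ := hconc ψ hψ (a * η / 2) (by positivity)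
  set t : ℝ := max t0 (max 1 (3 * M)) with ht
  have ht1 : 1 ≤ t := le_trans (le_max_left _ _) (le_max_right _ _)
  have ht2 : t0 ≤ t := le_max_left _ _
  have ht3 : 3 * M ≤ t := le_trans (le_max_right _ _) (le_max_right _ _)
  have htpos : 0 < t := by linarith
  obtain ⟨B, hB, hBs⟩ := BtE hw htpos
  have hBs0 : ∀ x : E n, x ≠ 0 → Bt w t⁻¹ x ≠ 0 := by
    intro x hx h
    rw [← hBs] at h
    exact hx ((map_eq_zero_iff B.symm B.symm.injective).1 h)
  have hB0 : ∀ x : E n, x ≠ 0 → B x ≠ 0 := by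
    intro x hx h
    exact hx ((map_eq_zero_iff B B.injective).1 h)
  set G : E n → ℝ := fun x => a * χ x * (ψ (Bt w t⁻¹ x) - 1) with hG
  have hBsm : ContDiff ℝ (⊤ : ℕ∞) (fun x : E n => Bt w t⁻¹ x) := by
    have : (fun x : E n => Bt w t⁻¹ x) = B.symm := by
      funext x; rw [hBs]
    rw [this]
    exact B.symm.contDiff
  have hGb : ∀ x, x ≠ 0 → |G x| ≤ a * ε1 := by
    intro x hx
    rw [hG]
    simp only
    rw [abs_mul, abs_mul, abs_of_pos hapos, abs_of_nonneg (hχb x).1]
    have h1 : |ψ (Bt w t⁻¹ x) - 1| ≤ ε1 := hψb _ (hBs0 x hx)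
    have h2 : a * χ x ≤ a := mul_le_of_le_one_right hapos.le (hχb x).2
    exact mul_le_mul h2 h1 (abs_nonneg _) hapos.le
  refine ⟨G, ?_, ?_, ?_, min (a * η / 2) (fm / 4), lt_min (by positivity) (by positivity), ?_⟩
  · -- smoothness
    rw [contDiff_iff_contDiffAt]
    intro x
    by_cases hx : x ∈ tsupport χ
    · have hx0 : x ≠ 0 := by
        intro h; rw [h] at hx; exact hχ0 hx
      have h1 : ContDiffAt ℝ (⊤ : ℕ∞) ψ (Bt w t⁻¹ x) :=
        hψs.contDiffAt (isOpen_compl_singleton.mem_nhds (hBs0 x hx0))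
      have h2 : ContDiffAt ℝ (⊤ : ℕ∞) (fun x => ψ (Bt w t⁻¹ x)) x :=
        ContDiffAt.comp (g := ψ) (f := fun x : E n => Bt w t⁻¹ x) x h1 hBsm.contDiffAt
      exact (contDiffAt_const.mul hχs.contDiffAt).mul (h2.sub contDiffAt_const)
    · have h1 : χ =ᶠ[nhds x] 0 := notMem_tsupport_iff_eventuallyEq.1 hx
      have h2 : G =ᶠ[nhds x] fun _ => 0 := by
        filter_upwards [h1] with y hy
        simp [hG, hy]
      exact contDiffAt_const.congr_of_eventuallyEq h2
  · refine subset_trans ?_ hχsupp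
    apply closure_mono
    intro x hx
    rw [Function.mem_support] at hx ⊢
    intro h
    apply hx
    simp [hG, h]
  · intro x hx
    refine le_trans (hGb x (hne_of x hx)) ?_
    calc a * ε1 ≤ a * (ε / a) := mul_le_mul_of_nonneg_left b2 hapos.le
      _ = ε := by field_simp
  · intro g hg hgr
    have hgpos : ∀ x, x ≠ 0 → 0 < g x := by
      intro x hx
      have hux : ‖un x‖ = 1 := loc_un_norm hx
      have h1 := hgr (un x) hux
      have h2 := hfmin (un x) hux
      have h3 := hGb (un x) (hne_of _ hux)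
      have h4 : a * ε1 ≤ fm / 2 := by
        calc a * ε1 ≤ a * (fm / (2 * a)) := mul_le_mul_of_nonneg_left b3 hapos.le
          _ = fm / 2 := by field_simp
      have h5 : |g (un x) - (f (un x) + G (un x))| ≤ fm / 4 := le_trans h1 (min_le_right _ _)
      rw [← loc_un_hom hg.hom hx]
      have h6 := (abs_le.1 h5).1
      have h7 := (abs_le.1 h3).1
      linarith
    refine ⟨hgpos, ?_⟩
    -- the function F
    set F : E n → ℝ := fun x => g (B x) / a with hF
    have hFH : H0 F := by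
      constructor
      · intro s hs x
        simp only [hF]
        rw [map_smul, hg.hom s hs]
      · have : ContinuousOn (fun x => g (B x)) {0}ᶜ := by
          apply hg.cont.comp B.continuous.continuousOn
          intro x hx
          exact hB0 x hx
        exact this.div_const a
    have hFpos : ∀ x, x ≠ 0 → 0 < F x := fun x hx => div_pos (hgpos _ (hB0 x hx)) hapos
    have hsub : sphere (0 : E n) 1 ⊆ {0}ᶜ := by
      intro x hx
      exact hne_of x (mem_sphere_zero_iff_norm.1 hx)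
    have hfB : ContinuousOn (fun x => f (B x)) (sphere (0 : E n) 1) := by
      apply hf.cont.comp B.continuous.continuousOn
      intro x hx
      exact hB0 x (hsub hx)
    have hun : ContinuousOn (un : E n → E n) {0}ᶜ := by
      have h3 : ContinuousOn (fun y : E n => ‖y‖⁻¹) {0}ᶜ :=
        ContinuousOn.inv₀ continuous_norm.continuousOn (fun y hy => norm_ne_zero_iff.2 hy)
      exact h3.smul continuousOn_id
    have hχB : ContinuousOn (fun x => χ (un (B x))) (sphere (0 : E n) 1) := by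
      apply hχs.continuous.comp_continuousOn
      apply hun.comp B.continuous.continuousOn
      intro x hx
      exact hB0 x (hsub hx)
    have hψc : ContinuousOn ψ (sphere (0 : E n) 1) := hψ.cont.mono hsub
    have hint : ∫ x, |F x - ψ x| ∂(mu n) ≤ η := by
      set Q : E n → ℝ := fun x => |f (B x) + a * χ (un (B x)) * (ψ x - 1) - a * ψ x| with hQ
      have hQc : ContinuousOn Q (sphere (0 : E n) 1) := by
        apply ContinuousOn.abs
        exact (hfB.add ((continuousOn_const.mul hχB).mul (hψc.sub continuousOn_const))).sub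
          (continuousOn_const.mul hψc)
      have hQi : ∫ x, Q x ∂(mu n) ≤ a * η / 2 := by
        have h1 := ht0 t ht2 ht1
        have h2 : (fun x => |f (Bt w t x) + a * χ (un (Bt w t x)) * (ψ x - 1) - a * ψ x|) = Q := by
          funext x
          rw [hQ]
          simp only [hB]
        rw [h2] at h1
        exact h1
      have hpt : ∀ x : E n, ‖x‖ = 1 → |F x - ψ x| ≤ a⁻¹ * Q x + η / 2 := by
        intro x hx
        have hx0 := hne_of x hx
        have hy0 : B x ≠ 0 := hB0 x hx0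
        have hy : ‖un (B x)‖ = 1 := loc_un_norm hy0
        have h1 := hgr (un (B x)) hy
        rw [loc_un_hom hg.hom hy0, loc_un_hom hf.hom hy0] at h1
        have h2 : G (un (B x)) = a * χ (un (B x)) * (ψ x - 1) := by
          simp only [hG]
          have h3 : Bt w t⁻¹ (un (B x)) = ‖B x‖⁻¹ • x := by
            rw [← hBs]
            unfold un
            rw [map_smul, B.symm_apply_apply]
          rw [h3, hψ.hom _ (inv_pos.2 (norm_pos_iff.2 hy0))]
        rw [h2] at h1
        have h4 : |g (B x) - (f (B x) + a * χ (un (B x)) * (ψ x - 1))| ≤ a * η / 2 :=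
          le_trans h1 (min_le_left _ _)
        have h5 : |g (B x) - a * ψ x| ≤ Q x + a * η / 2 := by
          have : g (B x) - a * ψ x = (g (B x) - (f (B x) + a * χ (un (B x)) * (ψ x - 1))) +
            (f (B x) + a * χ (un (B x)) * (ψ x - 1) - a * ψ x) := by ring
          rw [this]
          refine le_trans (abs_add_le _ _) ?_
          rw [add_comm]
          exact add_le_add le_rfl h4
        have h6 : F x - ψ x = a⁻¹ * (g (B x) - a * ψ x) := by
          simp only [hF]
          field_simp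
        rw [h6, abs_mul, abs_of_pos (inv_pos.2 hapos)]
        calc a⁻¹ * |g (B x) - a * ψ x| ≤ a⁻¹ * (Q x + a * η / 2) :=
            mul_le_mul_of_nonneg_left h5 (inv_pos.2 hapos).le
          _ = a⁻¹ * Q x + η / 2 := by field_simp
      have hFc : ContinuousOn (fun x => |F x - ψ x|) (sphere (0 : E n) 1) :=
        ((hFH.cont.mono hsub).sub hψc).abs
      have hRc : ContinuousOn (fun x => a⁻¹ * Q x + η / 2) (sphere (0 : E n) 1) :=
        (continuousOn_const.mul hQc).add continuousOn_const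
      refine le_trans (int_mono hn1 hFc hRc hpt) ?_
      have := mu_prob (n := n) hn1
      rw [integral_add ((integrable_mu hn1 hQc).const_mul _) (integrable_const _),
        integral_const_mul, int_const hn1]
      have : a⁻¹ * (∫ x, Q x ∂(mu n)) ≤ a⁻¹ * (a * η / 2) :=
        mul_le_mul_of_nonneg_left hQi (inv_pos.2 hapos).le
      have h8 : a⁻¹ * (a * η / 2) = η / 2 := by field_simp
      linarith
    obtain ⟨h, hSL, hN, c, hc, hEL⟩ := hRT2 F hFH hFpos hint
    obtain ⟨κ, hκ, hkSL, hkEL⟩ := transfer hn1 hg B hSL hc hapos hEL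
    refine ⟨wulff (fun x => κ * h (B.symm x)), isSol_of hn1 hg hkSL hkEL, ?_⟩
    obtain ⟨v, hv, hwv⟩ := loc_orth hn w
    refine ⟨w, v, hw, hv, ?_, ?_⟩
    · rw [supp_wulff hn1 hkSL, supp_wulff hn1 hkSL]
      exact add_pos (hkSL.pos w hw0) (hkSL.pos (-w) (neg_ne_zero.2 hw0))
    · rw [supp_wulff hn1 hkSL, supp_wulff hn1 hkSL, supp_wulff hn1 hkSL, supp_wulff hn1 hkSL]
      have e1 : B.symm w = t⁻¹ • w := by
        rw [hBs]
        unfold Bt
        rw [real_inner_self_eq_norm_sq, hw]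
        module
      have e2 : B.symm (-w) = t⁻¹ • (-w) := by
        rw [map_neg, e1, smul_neg]
      have e3 : B.symm v = v := by
        rw [hBs]
        unfold Bt
        rw [hwv, mul_zero, zero_smul, add_zero]
      have e4 : B.symm (-v) = -v := by rw [map_neg, e3]
      rw [e1, e2, e3, e4, hSL.hom _ (inv_pos.2 htpos).le, hSL.hom _ (inv_pos.2 htpos).le]
      have n1 := (abs_le.1 (hN w hw)).2
      have n2 := (abs_le.1 (hN (-w) (by rw [norm_neg]; exact hw))).2
      have n3 := (abs_le.1 (hN v hv)).1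
      have n4 := (abs_le.1 (hN (-v) (by rw [norm_neg]; exact hv))).1
      have p1 : 0 < h w := hSL.pos w hw0
      have p2 : 0 < h (-w) := hSL.pos _ (neg_ne_zero.2 hw0)
      have q1 : κ * (t⁻¹ * h w) + κ * (t⁻¹ * h (-w)) ≤ κ * (t⁻¹ * 3) := by
        have : κ * (t⁻¹ * h w) + κ * (t⁻¹ * h (-w)) = κ * (t⁻¹ * (h w + h (-w))) := by ring
        rw [this]
        gcongr
        linarith
      have q0 : 0 < κ * (t⁻¹ * h w) + κ * (t⁻¹ * h (-w)) := by positivity
      have q2 : κ ≤ κ * h v + κ * h (-v) := by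
        have : κ * h v + κ * h (-v) = κ * (h v + h (-v)) := by ring
        rw [this]
        nlinarith
      refine le_trans ?_ q2
      rcases le_or_gt M 0 with hM | hM
      · have : M * (κ * (t⁻¹ * h w) + κ * (t⁻¹ * h (-w))) ≤ 0 :=
          mul_nonpos_of_nonpos_of_nonneg hM q0.le
        linarith
      · calc M * (κ * (t⁻¹ * h w) + κ * (t⁻¹ * h (-w))) ≤ M * (κ * (t⁻¹ * 3)) :=
              mul_le_mul_of_nonneg_left q1 hM.le
          _ = κ * (3 * M / t) := by field_simp
          _ ≤ κ * 1 := by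
              apply mul_le_mul_of_nonneg_left _ hκ.le
              rw [div_le_one htpos]
              exact ht3
          _ = κ := mul_one κ

end Pool.Agent.H35.CA
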