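import Pool.Agent.H35.CA.MtA
import Pool.Agent.H35.CA.Lco

/-!
# Job MT: the model theorem

`model`: `ψ = psi ε (uA id)` for `ε` small, `m1 = 1 - C_L ε³`, `m2 = 1 - 2 C_L ε³`.
-/

namespace Pool.Agent.H35.CA

open MeasureTheory Metric Set

variable {n : ℕ}

theorem model (hn : 2 ≤ n) (δ1 : ℝ) (hδ1 : 0 < δ1) : ∃ δ : ℝ, 0 < δ ∧ δ ≤ δ1 ∧
    ∀ ε1 : ℝ, 0 < ε1 → ∃ ψ : E n → ℝ, H0 ψ ∧ ContDiffOn ℝ (⊤ : ℕ∞) ψ {0}ᶜ ∧
      (∀ x, x ≠ 0 → |ψ x - 1| ≤ ε1) ∧ ∃ m1 m2 : ℝ, m2 < m1 ∧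
      (∃ h : E n → ℝ, SL h ∧ Near δ h ∧ ∀ z : E n, ‖z‖ ≤ 1 / 4 → m1 ≤ MM ψ h z) ∧
      ∀ h : E n → ℝ, SL h → Near δ h → (∀ z : E n, ‖z‖ ≤ 1 / 4 → m2 ≤ MM ψ h z) →
        ∃ l : ℝ, 0 < l ∧ ∃ z0 : E n, Near (δ / 4) (fun x => l * h x - inner ℝ z0 x) := by
  obtain ⟨CL, hCL, ε0, hε0, hcomp⟩ := competitor hn
  obtain ⟨δ, hδ, hδ1', ε2, hε2, hmax⟩ := near_max hn (2 * CL) (by positivity) δ1 hδ1
  refine ⟨δ, hδ, hδ1', ?_⟩
  intro ε1 hε1
  set ε : ℝ := min (min ε0 ε2) (min δ (min (ε1 / 2) 1)) with hεdef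
  have hεpos : 0 < ε := by
    rw [hεdef]
    refine lt_min (lt_min hε0 hε2) (lt_min hδ (lt_min (by linarith) one_pos))
  have e1 : ε ≤ ε0 := le_trans (min_le_left _ _) (min_le_left _ _)
  have e2 : ε ≤ ε2 := le_trans (min_le_left _ _) (min_le_right _ _)
  have e3 : ε ≤ δ := le_trans (min_le_right _ _) (min_le_left _ _)
  have e4 : ε ≤ ε1 / 2 := le_trans (min_le_right _ _) (le_trans (min_le_right _ _) (min_le_left _ _))
  have e5 : ε ≤ 1 := le_trans (min_le_right _ _) (le_trans (min_le_right _ _) (min_le_right _ _))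
  have hH : H0 (uA hn (fun y : E n => y)) := by
    have := uA_H0 hn (ContinuousLinearEquiv.refl ℝ (E n))
    exact this
  have hsm : ContDiffOn ℝ (⊤ : ℕ∞) (uA hn (fun y : E n => y)) {0}ᶜ := by
    have := uA_smooth hn (ContinuousLinearEquiv.refl ℝ (E n))
    exact this
  refine ⟨psi ε (uA hn (fun y => y)), psi_H0 ε hH, ?_, ?_, 1 - CL * ε ^ 3,
    1 - 2 * CL * ε ^ 3, ?_, ?_, ?_⟩
  · unfold psi
    exact (contDiffOn_const.add (contDiffOn_const.mul hsm)).sub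
      (contDiffOn_const.mul (hsm.pow 2))
  · intro x _
    unfold psi
    set u := uA hn (fun y : E n => y) x with hu
    have hub : |u| ≤ 1 := uA_abs hn _ x
    have hu2 : u ^ 2 ≤ 1 := by
      rw [← sq_abs]
      exact pow_le_one₀ (abs_nonneg _) hub
    have hc0 : 0 ≤ (n : ℝ) / (2 * (n + 3)) := by positivity
    have hc1 : (n : ℝ) / (2 * (n + 3)) ≤ 1 := by
      rw [div_le_one (by positivity)]
      have : (0 : ℝ) ≤ n := Nat.cast_nonneg n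
      linarith
    have h1 : |ε * u| ≤ ε := by
      rw [abs_mul, abs_of_pos hεpos]
      exact mul_le_of_le_one_right hεpos.le hub
    have h2 : 0 ≤ (n : ℝ) / (2 * (n + 3)) * ε ^ 2 * u ^ 2 := by positivity
    have h3 : (n : ℝ) / (2 * (n + 3)) * ε ^ 2 * u ^ 2 ≤ ε := by
      have a1 : (n : ℝ) / (2 * (n + 3)) * ε ^ 2 * u ^ 2 ≤ 1 * ε ^ 2 * 1 := by gcongr
      have a2 : ε ^ 2 ≤ ε := by nlinarith
      linarith
    rw [abs_le] at h1 ⊢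
    constructor
    · linarith [h1.1]
    · linarith [h1.2]
  · have : 0 < CL * ε ^ 3 := by positivity
    linarith
  · obtain ⟨h, hSL, hN, hz⟩ := hcomp ε hεpos e1
    exact ⟨h, hSL, fun x hx => le_trans (hN x hx) e3, hz⟩
  · intro h hSL hN hz
    exact hmax ε hεpos e2 h hSL hN hz

end Pool.Agent.H35.CA
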