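import Pool.Agent.H35.CA.ShA

/-!
# Job SHB: Fourier analysis on the sphere

Proof hints.
`parseval`: Bessel gives summability with sum at most `sq f`; for `ε > 0` Stone-Weierstrass
(polynomials are dense in `C(sphere)`; for instance
`ContinuousMap.subalgebra_topologicalClosure_eq_top_of_separatesPoints` on the compact sphere)
gives a polynomial `P` with `|f - ev P| ≤ ε` on the sphere; by `span` and the best
approximation property `sq f - ∑_{k ≤ deg P} en Y f k ≤ ε^2`.
All functions matter only through their values on the unit sphere.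
-/

namespace Pool.Agent.H35.CA

open MeasureTheory Metric Set

variable {n : ℕ}

theorem ShB_ev_cont (P : Pol n) : ContinuousOn (ev P) (sphere (0 : E n) 1) :=
  (ev_smooth P).continuous.continuousOn

/-- linear combinations of the family -/
noncomputable def ShB_S (Y : SHFam n) (c : (k : ℕ) → Fin (Y.m k) → ℝ) (K : ℕ) (x : E n) : ℝ :=
  ∑ k ∈ Finset.range K, ∑ i, c k i * ev (Y.Y k i) x

theorem ShB_S_cont (Y : SHFam n) (c : (k : ℕ) → Fin (Y.m k) → ℝ) (K : ℕ) :
    ContinuousOn (ShB_S Y c K) (sphere (0 : E n) 1) := by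
  unfold ShB_S
  exact continuousOn_finsetSum _ fun k _ => continuousOn_finsetSum _ fun i _ =>
    continuousOn_const.mul (ShB_ev_cont _)

theorem ShB_int_S (hn : 1 ≤ n) (Y : SHFam n) {f : E n → ℝ} (hf : ContinuousOn f (sphere 0 1))
    (c : (k : ℕ) → Fin (Y.m k) → ℝ) (K : ℕ) :
    ∫ x, f x * ShB_S Y c K x ∂(mu n) = ∑ k ∈ Finset.range K, ∑ i, c k i * cf Y f k i := by
  have h1 : ∀ x, f x * ShB_S Y c K x =
      ∑ k ∈ Finset.range K, ∑ i, c k i * (f x * ev (Y.Y k i) x) := by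
    intro x
    unfold ShB_S
    rw [Finset.mul_sum]
    refine Finset.sum_congr rfl fun k _ => ?_
    rw [Finset.mul_sum]
    refine Finset.sum_congr rfl fun i _ => ?_
    ring
  have hi : ∀ k i, Integrable (fun x => c k i * (f x * ev (Y.Y k i) x)) (mu n) := fun k i =>
    integrable_mu hn (continuousOn_const.mul (hf.mul (ShB_ev_cont _)))
  simp_rw [h1]
  rw [integral_finsetSum _ fun k _ => integrable_finsetSum _ fun i _ => hi k i]
  refine Finset.sum_congr rfl fun k _ => ?_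
  rw [integral_finsetSum _ fun i _ => hi k i]
  refine Finset.sum_congr rfl fun i _ => ?_
  rw [integral_const_mul]
  rfl

theorem ShB_cf_S (hn : 1 ≤ n) (Y : SHFam n) (c : (k : ℕ) → Fin (Y.m k) → ℝ) (K : ℕ) (k : ℕ)
    (hk : k < K) (j : Fin (Y.m k)) : cf Y (ShB_S Y c K) k j = c k j := by
  have h1 : cf Y (ShB_S Y c K) k j = ∫ x, ev (Y.Y k j) x * ShB_S Y c K x ∂(mu n) := by
    unfold cf
    refine integral_congr_ae (Filter.Eventually.of_forall fun x => ?_)
    exact mul_comm _ _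
  rw [h1, ShB_int_S hn Y (ShB_ev_cont _), Finset.sum_eq_single k, Finset.sum_eq_single j]
  · have h2 : cf Y (ev (Y.Y k j)) k j = 1 := Y.ortho_self k j
    rw [h2, mul_one]
  · intro i _ hi
    have h2 : cf Y (ev (Y.Y k j)) k i = 0 := Y.ortho_same k j i (Ne.symm hi)
    rw [h2, mul_zero]
  · intro h
    exact absurd (Finset.mem_univ j) h
  · intro l _ hl
    refine Finset.sum_eq_zero fun i _ => ?_
    have h2 : cf Y (ev (Y.Y k j)) l i = 0 := Y.ortho_diff k l j i (Ne.symm hl)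
    rw [h2, mul_zero]
  · intro h
    exact absurd (Finset.mem_range.2 hk) h

theorem ShB_ev_pr (Y : SHFam n) (f : E n → ℝ) (K : ℕ) (x : E n) :
    ev (prP Y f K) x = ShB_S Y (cf Y f) (K + 1) x := by
  unfold prP ShB_S
  rw [ev_sum]
  refine Finset.sum_congr rfl fun k _ => ?_
  rw [ev_sum]
  refine Finset.sum_congr rfl fun i _ => ?_
  rw [ev_smul]

theorem ShB_cf_sub (hn : 1 ≤ n) (Y : SHFam n) {f g : E n → ℝ} (hf : ContinuousOn f (sphere 0 1))
    (hg : ContinuousOn g (sphere 0 1)) (k : ℕ) (i : Fin (Y.m k)) :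
    cf Y (fun x => f x - g x) k i = cf Y f k i - cf Y g k i := by
  unfold cf
  have i1 : Integrable (fun x => f x * ev (Y.Y k i) x) (mu n) :=
    integrable_mu hn (hf.mul (ShB_ev_cont _))
  have i2 : Integrable (fun x => g x * ev (Y.Y k i) x) (mu n) :=
    integrable_mu hn (hg.mul (ShB_ev_cont _))
  rw [← integral_sub i1 i2]
  refine integral_congr_ae (Filter.Eventually.of_forall fun x => ?_)
  change (f x - g x) * _ = _
  ring

theorem ShB_sq_nonneg (f : E n → ℝ) : 0 ≤ sq f :=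
  integral_nonneg fun x => sq_nonneg (f x)

theorem en_nonneg (Y : SHFam n) (f : E n → ℝ) (k : ℕ) : 0 ≤ en Y f k := by
  exact Finset.sum_nonneg fun i _ => sq_nonneg _

theorem cf_congr (hn : 1 ≤ n) (Y : SHFam n) {f g : E n → ℝ} (h : ∀ x, ‖x‖ = 1 → f x = g x)
    (k : ℕ) (i : Fin (Y.m k)) : cf Y f k i = cf Y g k i := by
  unfold cf
  refine int_congr hn fun x hx => ?_
  rw [h x hx]

theorem en_congr (hn : 1 ≤ n) (Y : SHFam n) {f g : E n → ℝ} (h : ∀ x, ‖x‖ = 1 → f x = g x)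
    (k : ℕ) : en Y f k = en Y g k := by
  unfold en
  refine Finset.sum_congr rfl fun i _ => ?_
  rw [cf_congr hn Y h]

theorem ShB_cf_pr (hn : 1 ≤ n) (Y : SHFam n) (f : E n → ℝ) (K : ℕ) (k : ℕ)
    (hk : k ≤ K) (j : Fin (Y.m k)) : cf Y (ev (prP Y f K)) k j = cf Y f k j := by
  rw [cf_congr hn Y (fun x _ => ShB_ev_pr Y f K x), ShB_cf_S hn Y _ _ k (by omega)]

theorem ShB_perp (hn : 1 ≤ n) (Y : SHFam n) {f : E n → ℝ} (hf : ContinuousOn f (sphere 0 1))
    (K : ℕ) (Q : Pol n) (hQ : Q.totalDegree ≤ K) :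
    ∫ x, (f x - ev (prP Y f K) x) * ev Q x ∂(mu n) = 0 := by
  obtain ⟨q, hq⟩ := Y.span K Q hQ
  have h1 : ∫ x, (f x - ev (prP Y f K) x) * ev Q x ∂(mu n) =
      ∫ x, (f x - ev (prP Y f K) x) * ShB_S Y q (K + 1) x ∂(mu n) := by
    refine int_congr hn fun x hx => ?_
    rw [hq x hx]
    rfl
  rw [h1, ShB_int_S hn Y (f := fun x => f x - ev (prP Y f K) x)
    (hf.sub (ShB_ev_cont _)) q (K + 1)]
  refine Finset.sum_eq_zero fun k hk => Finset.sum_eq_zero fun i _ => ?_
  rw [ShB_cf_sub hn Y hf (ShB_ev_cont _), ShB_cf_pr hn Y f K k (by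
    have := Finset.mem_range.1 hk
    omega), sub_self, mul_zero]

theorem pr_deg (Y : SHFam n) (f : E n → ℝ) (K : ℕ) : (prP Y f K).totalDegree ≤ K := by
  unfold prP
  refine MvPolynomial.totalDegree_finsetSum_le fun k hk => ?_
  refine MvPolynomial.totalDegree_finsetSum_le fun i _ => ?_
  refine (MvPolynomial.totalDegree_smul_le _ _).trans ((Y.deg k i).trans ?_)
  have := Finset.mem_range.1 hk
  omega

theorem ShB_sq_S (hn : 1 ≤ n) (Y : SHFam n) (c : (k : ℕ) → Fin (Y.m k) → ℝ) (K : ℕ) :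
    ∫ x, ShB_S Y c K x * ShB_S Y c K x ∂(mu n) = ∑ k ∈ Finset.range K, ∑ i, c k i ^ 2 := by
  rw [ShB_int_S hn Y (ShB_S_cont Y c K)]
  refine Finset.sum_congr rfl fun k hk => Finset.sum_congr rfl fun i _ => ?_
  rw [ShB_cf_S hn Y c K k (Finset.mem_range.1 hk), pow_two]

theorem pr_nr (hn : 1 ≤ n) (Y : SHFam n) (f : E n → ℝ) (K : ℕ) :
    nr (prP Y f K) ^ 2 = ∑ k ∈ Finset.range (K + 1), en Y f k := by
  unfold nr
  rw [Real.sq_sqrt (integral_nonneg fun x => sq_nonneg _)]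
  have h := ShB_sq_S hn Y (cf Y f) (K + 1)
  have h1 : ∫ x, ev (prP Y f K) x ^ 2 ∂(mu n) =
      ∫ x, ShB_S Y (cf Y f) (K + 1) x * ShB_S Y (cf Y f) (K + 1) x ∂(mu n) := by
    refine int_congr hn fun x _ => ?_
    rw [ShB_ev_pr, pow_two]
  rw [h1, h]
  rfl

theorem pr_perp (hn : 1 ≤ n) (Y : SHFam n) {f : E n → ℝ} (hf : ContinuousOn f (sphere 0 1))
    (K : ℕ) (Q : Pol n) (hQ : Q.totalDegree ≤ K) :
    ∫ x, (f x - ev (prP Y f K) x) * ev Q x ∂(mu n) = 0 := by
  exact ShB_perp hn Y hf K Q hQ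

theorem pr_int (hn : 1 ≤ n) (Y : SHFam n) {f : E n → ℝ} (hf : ContinuousOn f (sphere 0 1))
    (K : ℕ) : ∫ x, ev (prP Y f K) x ∂(mu n) = ∫ x, f x ∂(mu n) := by
  have h := ShB_perp hn Y hf K 1 (by rw [MvPolynomial.totalDegree_one]; exact Nat.zero_le _)
  have h1 : ∀ x : E n, ev (1 : Pol n) x = 1 := fun x => map_one _
  simp_rw [h1, mul_one] at h
  rw [integral_sub (integrable_mu hn hf) (integrable_mu hn (ShB_ev_cont _))] at h
  linarith

/-- `lapP` as a linear map -/
noncomputable def ShB_lapL (n : ℕ) : Pol n →ₗ[ℝ] Pol n where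
  toFun := lapP
  map_add' := lapP_add
  map_smul' := lapP_smul

theorem pr_lap (hn : 1 ≤ n) (Y : SHFam n) (f : E n → ℝ) (K : ℕ) :
    ∫ x, ev (prP Y f K) x * ev (lapP (prP Y f K)) x ∂(mu n)
      = - ∑ k ∈ Finset.range (K + 1), lam n k * en Y f k := by
  have h1 : lapP (prP Y f K) =
      ∑ k ∈ Finset.range (K + 1), ∑ i, cf Y f k i • lapP (Y.Y k i) := by
    have h : ShB_lapL n (prP Y f K) = _ := rfl
    unfold prP at h
    rw [map_sum] at h
    have h2 : lapP (prP Y f K) = ShB_lapL n (prP Y f K) := rfl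
    rw [h2]
    unfold prP
    rw [map_sum]
    refine Finset.sum_congr rfl fun k _ => ?_
    rw [map_sum]
    refine Finset.sum_congr rfl fun i _ => ?_
    rw [map_smul]
    rfl
  have h3 : ∫ x, ev (prP Y f K) x * ev (lapP (prP Y f K)) x ∂(mu n) =
      ∫ x, ShB_S Y (cf Y f) (K + 1) x *
        ShB_S Y (fun k i => - lam n k * cf Y f k i) (K + 1) x ∂(mu n) := by
    refine int_congr hn fun x hx => ?_
    rw [ShB_ev_pr, h1, ev_sum]
    congr 1
    unfold ShB_S
    refine Finset.sum_congr rfl fun k _ => ?_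
    rw [ev_sum]
    refine Finset.sum_congr rfl fun i _ => ?_
    rw [ev_smul, Y.eig k i x hx]
    ring
  rw [h3, ShB_int_S hn Y (ShB_S_cont Y _ _), ← Finset.sum_neg_distrib]
  refine Finset.sum_congr rfl fun k hk => ?_
  unfold en
  rw [Finset.mul_sum, ← Finset.sum_neg_distrib]
  refine Finset.sum_congr rfl fun i _ => ?_
  rw [ShB_cf_S hn Y _ _ k (Finset.mem_range.1 hk)]
  ring

theorem sq_pr (hn : 1 ≤ n) (Y : SHFam n) {f : E n → ℝ} (hf : ContinuousOn f (sphere 0 1))
    (K : ℕ) : sq (fun x => f x - ev (prP Y f K) x)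
      = sq f - ∑ k ∈ Finset.range (K + 1), en Y f k := by
  have hp := ShB_ev_cont (prP Y f K)
  have i1 : Integrable (fun x => f x ^ 2 - f x * ev (prP Y f K) x) (mu n) :=
    integrable_mu hn ((hf.pow 2).sub (hf.mul hp))
  have i2 : Integrable (fun x => (f x - ev (prP Y f K) x) * ev (prP Y f K) x) (mu n) :=
    integrable_mu hn ((hf.sub hp).mul hp)
  have i3 : Integrable (fun x => f x ^ 2) (mu n) := integrable_mu hn (hf.pow 2)
  have i4 : Integrable (fun x => f x * ev (prP Y f K) x) (mu n) :=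
    integrable_mu hn (hf.mul hp)
  have h1 := ShB_perp hn Y hf K (prP Y f K) (pr_deg Y f K)
  have h2 : sq (fun x => f x - ev (prP Y f K) x) =
      ∫ x, (f x ^ 2 - f x * ev (prP Y f K) x) ∂(mu n) -
      ∫ x, (f x - ev (prP Y f K) x) * ev (prP Y f K) x ∂(mu n) := by
    unfold sq
    rw [← integral_sub i1 i2]
    refine integral_congr_ae (Filter.Eventually.of_forall fun x => ?_)
    change (f x - ev (prP Y f K) x) ^ 2 = _
    ring
  rw [h2, h1, sub_zero, integral_sub i3 i4]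
  congr 1
  have h3 : ∫ x, f x * ev (prP Y f K) x ∂(mu n) =
      ∫ x, f x * ShB_S Y (cf Y f) (K + 1) x ∂(mu n) := by
    refine int_congr hn fun x _ => ?_
    rw [ShB_ev_pr]
  rw [h3, ShB_int_S hn Y hf]
  refine Finset.sum_congr rfl fun k _ => ?_
  unfold en
  refine Finset.sum_congr rfl fun i _ => ?_
  rw [pow_two]

theorem bessel (hn : 1 ≤ n) (Y : SHFam n) {f : E n → ℝ} (hf : ContinuousOn f (sphere 0 1))
    (K : ℕ) : ∑ k ∈ Finset.range K, en Y f k ≤ sq f := by
  cases K with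
  | zero =>
    rw [Finset.range_zero, Finset.sum_empty]
    exact ShB_sq_nonneg f
  | succ K =>
    have h := sq_pr hn Y hf K
    have h1 := ShB_sq_nonneg (fun x => f x - ev (prP Y f K) x)
    linarith

theorem ShB_best (hn : 1 ≤ n) (Y : SHFam n) {f : E n → ℝ} (hf : ContinuousOn f (sphere 0 1))
    (K : ℕ) (P : Pol n) (hP : P.totalDegree ≤ K) :
    sq (fun x => f x - ev (prP Y f K) x) ≤ sq (fun x => f x - ev P x) := by
  have hp := ShB_ev_cont (prP Y f K)
  have hq := ShB_ev_cont P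
  have hd : (prP Y f K - P).totalDegree ≤ K :=
    (MvPolynomial.totalDegree_sub _ _).trans (max_le (pr_deg Y f K) hP)
  have h1 := ShB_perp hn Y hf K (prP Y f K - P) hd
  have hr := ShB_ev_cont (prP Y f K - P)
  have i1 : Integrable (fun x => 2 * ((f x - ev (prP Y f K) x) * ev (prP Y f K - P) x)) (mu n) :=
    integrable_mu hn (continuousOn_const.mul ((hf.sub hp).mul hr))
  have i2 : Integrable (fun x => ev (prP Y f K - P) x ^ 2) (mu n) := integrable_mu hn (hr.pow 2)
  have i3 : Integrable (fun x => (f x - ev (prP Y f K) x) ^ 2) (mu n) :=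
    integrable_mu hn ((hf.sub hp).pow 2)
  have h2 : sq (fun x => f x - ev P x) = sq (fun x => f x - ev (prP Y f K) x) +
      (2 * ∫ x, (f x - ev (prP Y f K) x) * ev (prP Y f K - P) x ∂(mu n) +
        ∫ x, ev (prP Y f K - P) x ^ 2 ∂(mu n)) := by
    unfold sq
    have i4 : Integrable (fun x => 2 * ((f x - ev (prP Y f K) x) * ev (prP Y f K - P) x) +
        ev (prP Y f K - P) x ^ 2) (mu n) := i1.add i2
    rw [← integral_const_mul, ← integral_add i1 i2]
    refine Eq.trans ?_ (integral_add i3 i4)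
    refine integral_congr_ae (Filter.Eventually.of_forall fun x => ?_)
    change (f x - ev P x) ^ 2 = (f x - ev (prP Y f K) x) ^ 2 +
      (2 * ((f x - ev (prP Y f K) x) * ev (prP Y f K - P) x) + ev (prP Y f K - P) x ^ 2)
    rw [ev_sub]
    ring
  rw [h2, h1, mul_zero, zero_add]
  have h3 : 0 ≤ ∫ x, ev (prP Y f K - P) x ^ 2 ∂(mu n) := integral_nonneg fun x => sq_nonneg _
  linarith

/-- Stone-Weierstrass. -/
theorem ShB_sw {f : E n → ℝ} (hf : ContinuousOn f (sphere 0 1)) {ε : ℝ} (hε : 0 < ε) :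
    ∃ P : Pol n, ∀ x : E n, ‖x‖ = 1 → |f x - ev P x| < ε := by
  classical
  let φ : Pol n →ₐ[ℝ] C(sphere (0 : E n) 1, ℝ) :=
    MvPolynomial.aeval fun i => ⟨fun x => (x : E n) i, by fun_prop⟩
  have hφ : ∀ (P : Pol n) (x : sphere (0 : E n) 1), φ P x = ev P (x : E n) := by
    intro P x
    have h1 : (ContinuousMap.evalAlgHom ℝ ℝ x).comp φ =
        MvPolynomial.aeval (fun i => (x : E n) i) := by
      ext i
      simp [φ]
    have h2 := DFunLike.congr_fun h1 P
    have h3 : (MvPolynomial.aeval (fun i => (x : E n) i)) P = ev P (x : E n) := by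
      unfold ev
      exact DFunLike.congr_fun (MvPolynomial.coe_aeval_eq_eval (fun i => (x : E n) i)) P
    rw [← h3, ← h2]
    rfl
  have hsep : φ.range.SeparatesPoints := by
    intro x y hxy
    have h1 : ∃ i, (x : E n) i ≠ (y : E n) i := by
      by_contra h
      push Not at h
      exact hxy (Subtype.ext (PiLp.ext h))
    obtain ⟨i, hi⟩ := h1
    refine ⟨φ (MvPolynomial.X i), ⟨φ (MvPolynomial.X i), ⟨MvPolynomial.X i, rfl⟩, rfl⟩, ?_⟩
    rw [hφ, hφ]
    unfold ev
    rw [MvPolynomial.eval_X, MvPolynomial.eval_X]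
    exact hi
  obtain ⟨g, hg⟩ := ContinuousMap.exists_mem_subalgebra_near_continuous_of_separatesPoints
    φ.range hsep (fun x : sphere (0 : E n) 1 => f x) hf.domRestrict ε hε
  obtain ⟨P, hP⟩ := g.2
  refine ⟨P, fun x hx => ?_⟩
  have h1 := hg ⟨x, mem_sphere_zero_iff_norm.2 hx⟩
  have h2 : (g : C(sphere (0 : E n) 1, ℝ)) ⟨x, mem_sphere_zero_iff_norm.2 hx⟩ = ev P x := by
    rw [← hP]
    exact hφ P _
  rw [h2, Real.norm_eq_abs, abs_sub_comm] at h1
  exact h1

theorem parseval (hn : 1 ≤ n) (Y : SHFam n) {f : E n → ℝ}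
    (hf : ContinuousOn f (sphere 0 1)) : HasSum (fun k => en Y f k) (sq f) := by
  rw [hasSum_iff_tendsto_nat_of_nonneg (en_nonneg Y f)]
  rw [Metric.tendsto_atTop]
  intro ε hε
  obtain ⟨P, hP⟩ := ShB_sw hf (Real.sqrt_pos.2 (half_pos hε))
  refine ⟨P.totalDegree + 1, fun N hN => ?_⟩
  obtain ⟨M, rfl⟩ : ∃ M, N = M + 1 := ⟨N - 1, by omega⟩
  have h1 := bessel hn Y hf (M + 1)
  have h2 := sq_pr hn Y hf M
  have h3 := ShB_best hn Y hf M P (by omega)
  have h4 : |sq (fun x => f x - ev P x)| ≤ ε / 2 := by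
    unfold sq
    refine int_abs_le hn fun x hx => ?_
    rw [abs_of_nonneg (sq_nonneg _), ← Real.sq_sqrt (half_pos hε).le, ← sq_abs]
    exact pow_le_pow_left₀ (abs_nonneg _) (hP x hx).le 2
  have h5 := (abs_le.1 h4).2
  rw [Real.dist_eq, abs_lt]
  constructor <;> linarith

theorem en_sub_pr (hn : 1 ≤ n) (Y : SHFam n) {f : E n → ℝ}
    (hf : ContinuousOn f (sphere 0 1)) (K k : ℕ) (hk : k ≤ K) :
    en Y (fun x => f x - ev (prP Y f K) x) k = 0 := by
  unfold en
  refine Finset.sum_eq_zero fun i _ => ?_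
  rw [ShB_cf_sub hn Y hf (ShB_ev_cont _), ShB_cf_pr hn Y f K k hk, sub_self]
  norm_num

/-- Continuity of the energies for the uniform distance on the sphere. -/
theorem en_close (hn : 1 ≤ n) (Y : SHFam n) {f g : E n → ℝ}
    (hf : ContinuousOn f (sphere 0 1)) (hg : ContinuousOn g (sphere 0 1)) (k : ℕ) :
    |Real.sqrt (en Y f k) - Real.sqrt (en Y g k)| ≤ Real.sqrt (sq (fun x => f x - g x)) := by
  have hnorm : ∀ h : E n → ℝ, Real.sqrt (en Y h k) =
      ‖(WithLp.toLp 2 (fun i => cf Y h k i) : EuclideanSpace ℝ (Fin (Y.m k)))‖ := by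
    intro h
    rw [EuclideanSpace.norm_eq]
    unfold en
    congr 1
    refine Finset.sum_congr rfl fun i _ => ?_
    rw [Real.norm_eq_abs, sq_abs]
  have h1 : Real.sqrt (en Y (fun x => f x - g x) k) ≤ Real.sqrt (sq (fun x => f x - g x)) := by
    refine Real.sqrt_le_sqrt ?_
    refine le_trans ?_ (bessel hn Y (f := fun x => f x - g x) (hf.sub hg) (k + 1))
    exact Finset.single_le_sum (fun l _ => en_nonneg Y _ l) (Finset.self_mem_range_succ k)
  refine le_trans ?_ h1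
  rw [hnorm, hnorm, hnorm]
  refine (abs_norm_sub_norm_le _ _).trans (le_of_eq ?_)
  congr 1
  ext i
  change cf Y f k i - cf Y g k i = cf Y (fun x => f x - g x) k i
  rw [ShB_cf_sub hn Y hf hg]

end Pool.Agent.H35.CA
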