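import Pool.Agent.H35.CA.SliA
import Pool.Agent.H35.CA.ShB
import Pool.Agent.H35.CA.GauB

/-!
# Job SLI: slices of the action of linear maps and translations

Proof hints.  Use `quad_lower`, `diff_near`.
Step 1.  Minimise `G (S,z) = ∫ (h ((1+S) x) - ⟨z,x⟩ - 1)² dmu` over symmetric `S`, and `z`,
with `‖S‖ ≤ ρ1`, `‖z‖ ≤ ρ1`, `ρ1 = min ρ ρmax`.  The integrand is
`(⟨x,Sx⟩ - ⟨z,x⟩ + O(‖S‖² + δ))²`, so on the boundary `sqrt G ≥ c1 ρ1 - C (ρ1² + δ)`, while
`sqrt (G (0,0)) ≤ δ`; for `ρmax`, and then `δ`, small the minimum is not on the boundary.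
Let `A = 1 + S`, `z` be the minimiser, `h^ x = h (A x) - ⟨z,x⟩`, `φ = h^ - 1`.
Step 2.  Varying `z`: `∫ φ ⟨y,x⟩ = 0`.
Step 3.  `h^` is subadditive and 1-homogeneous.  Let `Near δ' h^`.  Convexity of
`s ↦ h^ (x + s ξ)` and `| h^ - ‖·‖ | ≤ δ' ‖·‖` give, for `‖x‖ = 1`, `‖ξ‖ ≤ 2`,
`0 < s ≤ sqrt δ'`: `|h^ (x + s ξ) - h^ x - s ⟨x,ξ⟩| ≤ C s sqrt δ'` (compare the slope over `[0,s]`
with that over `[0, sqrt δ']` and `[- sqrt δ', 0]`; if `δ' = 0` then `h^` is the norm).
Step 4.  For symmetric `T` and `W = A⁻¹ T`: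
`h ((A + s T) x) - ⟨z,x⟩ = h^ (x + s W x) + s ⟨z, W x⟩`.
As `G (S + sT, z) ≥ G (S,z)` for small `s > 0`, Step 3 gives
`∫ φ (⟨x,Wx⟩ + ⟨z,Wx⟩) ≥ - C sqrt δ' ∫ |φ|`, and `∫ φ ⟨z,Wx⟩ = 0` by Step 2; with `-T` too:
`|∫ φ ⟨x,Wx⟩| ≤ C sqrt δ' sqrt (sq φ) ‖T‖`.
The map `T ↦ (A⁻¹ T + T A⁻¹)/2` on symmetric operators is close to the identity, so every
symmetric `T'` is of this form with `‖T‖ ≤ 2 ‖T'‖`, and `⟨x,Wx⟩ = ⟨x,T'x⟩`.
Step 5.  Let `Q = prP Y φ 2`.  On the sphere `ev Q x = ⟨b,x⟩ + ⟨x,T'x⟩` with `T'` symmetric (put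
the constant in `T'`), `e2 Y φ = nr Q ^ 2 = ∫ φ ev Q = ∫ φ ⟨x,T'x⟩` (`pr_perp`, `pr_nr`, Step 2)
and `c ‖T'‖² ≤ nr Q ^2`; so `nr Q ≤ C sqrt δ' sqrt (sq φ)`.
-/

namespace Pool.Agent.H35.CA

open MeasureTheory Metric Set

variable {n : ℕ}

/-! ### The norm near the unit sphere -/

theorem slic_norm {x v : E n} (hx : ‖x‖ = 1) :
    1 + inner ℝ x v ≤ ‖x + v‖ ∧ ‖x + v‖ ≤ 1 + inner ℝ x v + ‖v‖ ^ 2 / 2 := by
  constructor
  · have h1 := real_inner_le_norm x (x + v)
    rw [inner_add_right, real_inner_self_eq_norm_sq, hx] at h1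
    linarith
  · have h1 : ‖x + v‖ ^ 2 = 1 + 2 * inner ℝ x v + ‖v‖ ^ 2 := by
      rw [norm_add_sq_real, hx]; ring
    have h2 : |inner ℝ x v| ≤ ‖v‖ := by
      have := abs_real_inner_le_norm x v
      rwa [hx, one_mul] at this
    have h3 := abs_le.1 h2
    have h4 : 0 ≤ 1 + inner ℝ x v + ‖v‖ ^ 2 / 2 := by
      nlinarith [sq_nonneg (‖v‖ - 1)]
    refine abs_le_of_sq_le_sq' ?_ h4 |>.2
    rw [h1]
    nlinarith [sq_nonneg (inner ℝ x v + ‖v‖ ^ 2 / 2)]

/-- Uniform one-sided differences of a sublinear function near the norm. -/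
theorem slic_diff {l : E n → ℝ} (hom : ∀ t : ℝ, 0 ≤ t → ∀ x, l (t • x) = t * l x)
    (sub : ∀ x y, l (x + y) ≤ l x + l y) (hcl : P1 l) {δ : ℝ} (hδ0 : 0 ≤ δ)
    (hN : Near δ l) {x ξ : E n} (hx : ‖x‖ = 1) (hξ : ‖ξ‖ ≤ 2) {r : ℝ} (hr0 : 0 < r) (hr1 : r ≤ 1)
    (hδr : δ ≤ r ^ 2) {s : ℝ} (hs0 : 0 < s) (hsr : s ≤ r) :
    |l (x + s • ξ) - l x - s * inner ℝ x ξ| ≤ 6 * s * r := by
  have hlx : |l x - 1| ≤ δ := hN x hx
  have hlx' := abs_le.1 hlx
  have hξ2 : ‖ξ‖ ^ 2 ≤ 4 := by nlinarith [norm_nonneg ξ]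
  -- a bound for `l (x + t • ξ)` with `|t| = r`
  have key : ∀ t : ℝ, |t| = r → l (x + t • ξ) - l x ≤ t * inner ℝ x ξ + 6 * r ^ 2 := by
    intro t ht
    have ht2 : t ^ 2 = r ^ 2 := by rw [← ht, sq_abs]
    have h1 := (Near.bound hcl hN (x + t • ξ)).2
    have h2 := (slic_norm (x := x) (v := t • ξ) hx).2
    rw [inner_smul_right, norm_smul, mul_pow, Real.norm_eq_abs, sq_abs, ht2] at h2
    have h3 : ‖x + t • ξ‖ ≤ 3 := by
      have := norm_add_le x (t • ξ)
      rw [norm_smul, Real.norm_eq_abs, ht, hx] at this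
      nlinarith [norm_nonneg ξ]
    have h4 : (1 + δ) * ‖x + t • ξ‖ ≤ ‖x + t • ξ‖ + 3 * δ := by nlinarith
    nlinarith
  rw [abs_le]
  constructor
  · -- lower bound
    have h1 : (1 + s / r) * l x ≤ l (x + s • ξ) + s / r * l (x + (-r) • ξ) := by
      have hsr0 : 0 ≤ s / r := by positivity
      have h2 : (x + s • ξ) + (s / r) • (x + (-r) • ξ) = (1 + s / r) • x := by
        have : s / r * r = s := by field_simp
        rw [smul_add, smul_smul]
        rw [show s / r * -r = -s by linarith]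
        module
      rw [← hom _ (by positivity), ← h2, ← hom _ hsr0]
      exact sub _ _
    have h2 := key (-r) (by rw [abs_neg, abs_of_pos hr0])
    have h3 : s / r * (l (x + (-r) • ξ) - l x) ≤ s / r * (-r * inner ℝ x ξ + 6 * r ^ 2) :=
      mul_le_mul_of_nonneg_left h2 (by positivity)
    have h4 : s / r * (-r * inner ℝ x ξ + 6 * r ^ 2) = -(s * inner ℝ x ξ) + 6 * s * r := by
      field_simp
    rw [h4] at h3
    linarith
  · have h1 : l (x + s • ξ) ≤ (1 - s / r) * l x + s / r * l (x + r • ξ) := by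
      have hsr0 : 0 ≤ s / r := by positivity
      have hsr1 : s / r ≤ 1 := (div_le_one hr0).2 hsr
      have h2 : x + s • ξ = (1 - s / r) • x + (s / r) • (x + r • ξ) := by
        have : s / r * r = s := by field_simp
        rw [smul_add, smul_smul, this]
        module
      rw [h2, ← hom _ (by linarith), ← hom _ hsr0]
      exact sub _ _
    have h2 := key r (abs_of_pos hr0)
    have h3 : s / r * (l (x + r • ξ) - l x) ≤ s / r * (r * inner ℝ x ξ + 6 * r ^ 2) :=
      mul_le_mul_of_nonneg_left h2 (by positivity)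
    have h4 : s / r * (r * inner ℝ x ξ + 6 * r ^ 2) = s * inner ℝ x ξ + 6 * s * r := by
      field_simp
    rw [h4] at h3
    linarith

/-! ### Polynomials of degree at most two -/

theorem slic_ev_X (i : Fin n) (x : E n) : ev (MvPolynomial.X i) x = x i := by
  simp [ev]

theorem slic_quadpoly (T : E n →L[ℝ] E n) :
    ∃ P : Pol n, P.totalDegree ≤ 2 ∧ ∀ x, ev P x = inner ℝ x (T x) := by
  refine ⟨∑ i, ∑ j, (T (EuclideanSpace.single j 1) i) • (MvPolynomial.X i * MvPolynomial.X j), ?_, ?_⟩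
  · refine MvPolynomial.totalDegree_finsetSum_le fun i _ => ?_
    refine MvPolynomial.totalDegree_finsetSum_le fun j _ => ?_
    refine (MvPolynomial.totalDegree_smul_le _ _).trans ?_
    refine (MvPolynomial.totalDegree_mul _ _).trans ?_
    rw [MvPolynomial.totalDegree_X, MvPolynomial.totalDegree_X]
  · intro x
    have hx : x = ∑ j, x j • EuclideanSpace.single j (1 : ℝ) := by
      ext i
      simp [Pi.single_apply]
    have hT : ∀ i, T x i = ∑ j, x j * T (EuclideanSpace.single j 1) i := by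
      intro i
      conv_lhs => rw [hx]
      rw [map_sum]
      simp
    rw [ev_sum, PiLp.inner_apply]
    refine Finset.sum_congr rfl fun i _ => ?_
    rw [ev_sum, hT i]
    simp only [RCLike.inner_apply, conj_trivial]
    rw [Finset.sum_mul]
    refine Finset.sum_congr rfl fun j _ => ?_
    rw [ev_smul, ev_mul, slic_ev_X, slic_ev_X]
    ring

/-- quadratic forms on the sphere -/
def slicGood (F : E n → ℝ) : Prop := ∃ (b : E n) (T : E n →L[ℝ] E n),
  (∀ x y, inner ℝ (T x) y = inner ℝ x (T y)) ∧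
    ∀ x : E n, ‖x‖ = 1 → F x = inner ℝ b x + inner ℝ x (T x)

theorem slicGood_add {F G : E n → ℝ} (hF : slicGood F) (hG : slicGood G) :
    slicGood (fun x => F x + G x) := by
  obtain ⟨b, T, hT, h⟩ := hF
  obtain ⟨b', T', hT', h'⟩ := hG
  refine ⟨b + b', T + T', fun x y => ?_, fun x hx => ?_⟩
  · simp only [add_apply, inner_add_left, inner_add_right, hT, hT']
  · simp only [add_apply, inner_add_left, inner_add_right, h x hx, h' x hx]
    ring

theorem slicGood_smul {F : E n → ℝ} (c : ℝ) (hF : slicGood F) :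
    slicGood (fun x => c * F x) := by
  obtain ⟨b, T, hT, h⟩ := hF
  refine ⟨c • b, c • T, fun x y => ?_, fun x hx => ?_⟩
  · simp only [smul_apply, inner_smul_left, inner_smul_right, hT]
    simp
  · simp only [smul_apply, inner_smul_left, inner_smul_right, h x hx]
    simp
    ring

theorem slicGood_congr {F G : E n → ℝ} (h : ∀ x, ‖x‖ = 1 → G x = F x) (hF : slicGood F) :
    slicGood G := by
  obtain ⟨b, T, hT, hF⟩ := hF
  exact ⟨b, T, hT, fun x hx => by rw [h x hx, hF x hx]⟩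

theorem slicGood_sum {ι : Type*} (s : Finset ι) {F : ι → E n → ℝ} (hF : ∀ i ∈ s, slicGood (F i)) :
    slicGood (fun x => ∑ i ∈ s, F i x) := by
  classical
  induction s using Finset.induction_on with
  | empty =>
    refine ⟨0, 0, fun x y => by simp, fun x hx => by simp⟩
  | insert a s ha ih =>
    have h1 := hF a (Finset.mem_insert_self a s)
    have h2 := ih fun i hi => hF i (Finset.mem_insert_of_mem hi)
    refine slicGood_congr (fun x _ => ?_) (slicGood_add h1 h2)
    rw [Finset.sum_insert ha]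

theorem slicGood_one : slicGood (fun _ : E n => (1 : ℝ)) := by
  refine ⟨0, ContinuousLinearMap.id ℝ _, fun x y => rfl, fun x hx => ?_⟩
  rw [inner_zero_left, ContinuousLinearMap.id_apply, real_inner_self_eq_norm_sq, hx]
  norm_num

theorem slicGood_X (i : Fin n) : slicGood (fun x : E n => x i) := by
  refine ⟨EuclideanSpace.single i 1, 0, fun x y => by simp, fun x hx => ?_⟩
  simp [EuclideanSpace.inner_single_left]

theorem slicGood_XX (i j : Fin n) : slicGood (fun x : E n => x i * x j) := by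
  refine ⟨0, (1 / 2 : ℝ) • ((EuclideanSpace.proj i : E n →L[ℝ] ℝ).smulRight
    (EuclideanSpace.single j (1 : ℝ)) +
    (EuclideanSpace.proj j : E n →L[ℝ] ℝ).smulRight (EuclideanSpace.single i (1 : ℝ))),
    fun x y => ?_, fun x hx => ?_⟩
  · simp [inner_add_left, inner_add_right, inner_smul_left, inner_smul_right,
      EuclideanSpace.inner_single_left, EuclideanSpace.inner_single_right]
    ring
  · simp [inner_add_right, inner_smul_right, EuclideanSpace.inner_single_right]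
    ring

theorem slic_single {m : Fin n →₀ ℕ} (hm : m ≠ 0) :
    ∃ (i : Fin n) (m' : Fin n →₀ ℕ), m = m' + Finsupp.single i 1 := by
  obtain ⟨i, hi⟩ := Finsupp.ne_iff.1 hm
  refine ⟨i, m - Finsupp.single i 1, ?_⟩
  rw [tsub_add_cancel_of_le]
  rw [Finsupp.single_le_iff]
  simpa [Nat.one_le_iff_ne_zero] using hi

theorem slicGood_monomial (m : Fin n →₀ ℕ) (hm : m.degree ≤ 2) :
    slicGood (fun x : E n => ev (MvPolynomial.monomial m 1) x) := by
  by_cases h0 : m = 0
  · subst h0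
    refine slicGood_congr (fun x _ => ?_) slicGood_one
    simp [ev]
  obtain ⟨i, m', rfl⟩ := slic_single h0
  by_cases h1 : m' = 0
  · subst h1
    refine slicGood_congr (fun x _ => ?_) (slicGood_X i)
    rw [zero_add, ← slic_ev_X i]
    rfl
  obtain ⟨j, m'', rfl⟩ := slic_single h1
  have h2 : m'' = 0 := by
    rw [map_add, map_add, Finsupp.degree_single, Finsupp.degree_single] at hm
    have : m''.degree = 0 := by omega
    exact (Finsupp.degree_eq_zero_iff m'').1 this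
  subst h2
  refine slicGood_congr (fun x _ => ?_) (slicGood_XX j i)
  rw [zero_add, ← slic_ev_X j, ← slic_ev_X i, ← ev_mul]
  congr 1
  rw [MvPolynomial.X, MvPolynomial.X, MvPolynomial.monomial_mul, one_mul]

theorem slicGood_poly {P : Pol n} (hP : P.totalDegree ≤ 2) : slicGood (ev P) := by
  have h1 : ∀ x, ev P x = ∑ m ∈ P.support, P.coeff m * ev (MvPolynomial.monomial m 1) x := by
    intro x
    conv_lhs => rw [P.as_sum]
    rw [ev_sum]
    refine Finset.sum_congr rfl fun m _ => ?_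
    rw [← ev_smul, MvPolynomial.smul_monomial, smul_eq_mul, mul_one]
  refine slicGood_congr (fun x _ => h1 x) (slicGood_sum _ fun m hm => slicGood_smul _ ?_)
  refine slicGood_monomial m ?_
  have := MvPolynomial.le_totalDegree hm
  have h2 : m.degree = m.sum fun _ e => e := by
    rw [Finsupp.degree_eq_sum, Finsupp.sum_fintype]
    intro i; rfl
  omega

/-! ### The functional -/

/-- the function `h ((1 + S) x) - ⟨z, x⟩ - 1` -/
noncomputable def slicPhi (h : E n → ℝ) (S : E n →L[ℝ] E n) (z x : E n) : ℝ :=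
  h (x + S x) - inner ℝ z x - 1

theorem slicPhi_cont {h : E n → ℝ} (hh : Continuous h) (S : E n →L[ℝ] E n) (z : E n) :
    Continuous (slicPhi h S z) := by
  unfold slicPhi
  fun_prop

theorem slic_restrict (hn : 1 ≤ n) : (mu n).restrict (sphere 0 1) = mu n := by
  refine Measure.restrict_eq_self_of_ae_mem ?_
  filter_upwards [mu_ae hn] with x hx
  rw [mem_sphere_zero_iff_norm]
  exact hx

theorem slicG_cont (hn : 1 ≤ n) {h : E n → ℝ} (hh : Continuous h) :
    Continuous fun p : (E n →L[ℝ] E n) × E n => sq (slicPhi h p.1 p.2) := by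
  have := mu_prob hn
  have : ProperSpace ((E n →L[ℝ] E n) × E n) := FiniteDimensional.proper ℝ _
  have hc : Continuous (Function.uncurry
      fun (p : (E n →L[ℝ] E n) × E n) (x : E n) => slicPhi h p.1 p.2 x ^ 2) := by
    unfold slicPhi Function.uncurry
    have h1 : Continuous fun q : ((E n →L[ℝ] E n) × E n) × E n => q.1.1 q.2 := by fun_prop
    fun_prop
  have := continuous_parametric_integral_of_continuous (μ := mu n) hc (isCompact_sphere (0 : E n) 1)
  rw [slic_restrict hn] at this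
  exact this

theorem slicK_compact (ρ : ℝ) : IsCompact {p : (E n →L[ℝ] E n) × E n |
    (∀ x y, inner ℝ (p.1 x) y = inner ℝ x (p.1 y)) ∧ ‖p.1‖ ≤ ρ ∧ ‖p.2‖ ≤ ρ} := by
  have : ProperSpace ((E n →L[ℝ] E n) × E n) := FiniteDimensional.proper ℝ _
  have h1 : IsClosed {p : (E n →L[ℝ] E n) × E n |
    (∀ x y, inner ℝ (p.1 x) y = inner ℝ x (p.1 y)) ∧ ‖p.1‖ ≤ ρ ∧ ‖p.2‖ ≤ ρ} := by
    refine IsClosed.and ?_ (IsClosed.and ?_ ?_)
    · simp only [Set.ofPred_forall]
      refine isClosed_iInter fun x => isClosed_iInter fun y => isClosed_eq ?_ ?_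
      · fun_prop
      · fun_prop
    · exact isClosed_le (by fun_prop) continuous_const
    · exact isClosed_le (by fun_prop) continuous_const
  refine (isCompact_closedBall (0 : (E n →L[ℝ] E n) × E n) ρ).of_isClosed_subset h1 ?_
  rintro p ⟨-, h2, h3⟩
  rw [mem_closedBall_zero_iff, Prod.norm_def]
  exact max_le h2 h3

theorem slic_lim {a b t0 : ℝ} (ht0 : 0 < t0) (h : ∀ t, 0 < t → t ≤ t0 → a ≤ t * b) : a ≤ 0 := by
  by_contra hneg
  push Not at hneg
  have h1 := h t0 ht0 le_rfl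
  have hb : 0 < b := by
    by_contra hb
    push Not at hb
    nlinarith
  have h2 := h (min t0 (a / (2 * b))) (lt_min ht0 (by positivity)) (min_le_left _ _)
  have h3 : min t0 (a / (2 * b)) * b ≤ a / (2 * b) * b :=
    mul_le_mul_of_nonneg_right (min_le_right _ _) hb.le
  have h4 : a / (2 * b) * b = a / 2 := by field_simp
  linarith

/-- Variation of the translation. -/
theorem slic_varz (hn : 1 ≤ n) {φ : E n → ℝ} (hφ : Continuous φ) (y : E n) {t0 : ℝ} (ht0 : 0 < t0)
    (h : ∀ t : ℝ, |t| ≤ t0 → sq φ ≤ sq (fun x => φ x - t * inner ℝ y x)) :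
    ∫ x, φ x * inner ℝ y x ∂(mu n) = 0 := by
  have hc : Continuous fun x : E n => inner ℝ y x := by fun_prop
  have hexp : ∀ t : ℝ, sq (fun x => φ x - t * inner ℝ y x) =
      sq φ - 2 * t * (∫ x, φ x * inner ℝ y x ∂(mu n)) + t ^ 2 * sq (fun x => inner ℝ y x) := by
    intro t
    unfold sq
    rw [← integral_const_mul, ← integral_const_mul, ← integral_sub, ← integral_add]
    · refine integral_congr_ae (Filter.Eventually.of_forall fun x => ?_)
      simp only
      ring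
    · exact (integrable_mu hn (hφ.pow 2).continuousOn).sub
        ((integrable_mu hn (hφ.mul hc).continuousOn).const_mul _)
    · exact (integrable_mu hn (hc.pow 2).continuousOn).const_mul _
    · exact integrable_mu hn (hφ.pow 2).continuousOn
    · exact (integrable_mu hn (hφ.mul hc).continuousOn).const_mul _
  have h1 : 2 * (∫ x, φ x * inner ℝ y x ∂(mu n)) ≤ 0 := by
    refine slic_lim ht0 (b := sq fun x => inner ℝ y x) fun t ht htt => ?_
    have := h t (by rwa [abs_of_pos ht])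
    rw [hexp t] at this
    have h2 : t * (2 * (∫ x, φ x * inner ℝ y x ∂(mu n))) ≤ t * (t * sq fun x => inner ℝ y x) := by
      linarith
    exact le_of_mul_le_mul_left h2 ht
  have h2 : -(2 * (∫ x, φ x * inner ℝ y x ∂(mu n))) ≤ 0 := by
    refine slic_lim ht0 (b := sq fun x => inner ℝ y x) fun t ht htt => ?_
    have := h (-t) (by rwa [abs_neg, abs_of_pos ht])
    rw [hexp (-t)] at this
    have h2 : t * (-(2 * (∫ x, φ x * inner ℝ y x ∂(mu n)))) ≤
        t * (t * sq fun x => inner ℝ y x) := by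
      linarith
    exact le_of_mul_le_mul_left h2 ht
  linarith

theorem slic_abs_le (hn : 1 ≤ n) {φ : E n → ℝ} (hφ : Continuous φ) :
    (∫ x, |φ x| ∂(mu n)) ^ 2 ≤ sq φ := by
  have h := int_cs hn (F := fun x => |φ x|) (G := fun _ => 1) hφ.abs.continuousOn
    continuousOn_const
  simp only [mul_one] at h
  have h1 : sq (fun _ : E n => (1 : ℝ)) = 1 := by
    unfold sq
    simp only [one_pow]
    exact int_const hn 1
  have h2 : sq (fun x => |φ x|) = sq φ := by
    unfold sq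
    simp only [sq_abs]
  rw [h1, h2, mul_one] at h
  exact h

/-- Variation of the linear map, one side. -/
theorem slic_varT (hn : 1 ≤ n) {φ m : E n → ℝ} (hφ : Continuous φ) (hm : Continuous m)
    (ψ : ℝ → E n → ℝ) (hψ : ∀ s, Continuous (ψ s)) {r s0 : ℝ} (hs0 : 0 < s0)
    (hb : ∀ s, 0 < s → s ≤ s0 → ∀ x, ‖x‖ = 1 → |ψ s x - φ x - s * m x| ≤ 6 * s * r)
    (hr1 : r ≤ 1) (hm4 : ∀ x, ‖x‖ = 1 → |m x| ≤ 4)
    (h : ∀ s, 0 < s → s ≤ s0 → sq φ ≤ sq (ψ s)) :
    -(6 * r * ∫ x, |φ x| ∂(mu n)) ≤ ∫ x, φ x * m x ∂(mu n) := by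
  have h1 : -(2 * (∫ x, φ x * m x ∂(mu n)) + 12 * r * ∫ x, |φ x| ∂(mu n)) ≤ 0 := by
    refine slic_lim hs0 (b := 100) fun s hs hss => ?_
    have h2 : sq (ψ s) ≤ sq φ + s * (2 * (∫ x, φ x * m x ∂(mu n)) +
        12 * r * ∫ x, |φ x| ∂(mu n)) + 100 * s ^ 2 := by
      have h3 : sq (ψ s) ≤ ∫ x, (φ x ^ 2 + s * (2 * (φ x * m x) + 12 * r * |φ x|) +
          100 * s ^ 2) ∂(mu n) := by
        refine int_mono hn ((hψ s).pow 2).continuousOn
          (Continuous.continuousOn (by fun_prop)) fun x hx => ?_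
        have h4 := abs_le.1 (hb s hs hss x hx)
        have h5 := abs_le.1 (hm4 x hx)
        obtain ⟨R, hR⟩ : ∃ R, R = ψ s x - φ x - s * m x := ⟨_, rfl⟩
        have h6 : ψ s x = φ x + s * m x + R := by rw [hR]; ring
        rw [← hR] at h4
        have hRabs : |R| ≤ 6 * s * r := abs_le.2 h4
        have h7 : φ x * R ≤ |φ x| * (6 * s * r) := by
          calc φ x * R ≤ |φ x * R| := le_abs_self _
            _ = |φ x| * |R| := abs_mul _ _
            _ ≤ _ := mul_le_mul_of_nonneg_left hRabs (abs_nonneg _)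
        have h8 : |s * m x + R| ≤ 10 * s := by
          rw [abs_le]
          have h9 : s * m x ≤ s * 4 := mul_le_mul_of_nonneg_left h5.2 hs.le
          have h10 : s * (-4) ≤ s * m x := mul_le_mul_of_nonneg_left h5.1 hs.le
          have h11 : 6 * s * r ≤ 6 * s := by nlinarith
          constructor <;> linarith
        have h12 : (s * m x + R) ^ 2 ≤ (10 * s) ^ 2 :=
          sq_le_sq' (abs_le.1 h8).1 (abs_le.1 h8).2
        rw [h6]
        have h13 : (φ x + s * m x + R) ^ 2 =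
            φ x ^ 2 + 2 * s * (φ x * m x) + 2 * (φ x * R) + (s * m x + R) ^ 2 := by ring
        rw [h13]
        nlinarith
      refine h3.trans (le_of_eq ?_)
      have i1 : Integrable (fun x => φ x ^ 2) (mu n) := integrable_mu hn (hφ.pow 2).continuousOn
      have i2 : Integrable (fun x => φ x * m x) (mu n) := integrable_mu hn (hφ.mul hm).continuousOn
      have i3 : Integrable (fun x => |φ x|) (mu n) := integrable_mu hn hφ.abs.continuousOn
      have i4 : Integrable (fun _ : E n => 100 * s ^ 2) (mu n) :=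
        integrable_mu hn continuousOn_const
      have i5 : Integrable (fun x => 2 * (φ x * m x) + 12 * r * |φ x|) (mu n) :=
        (i2.const_mul 2).add (i3.const_mul (12 * r))
      have i6 : Integrable (fun x => s * (2 * (φ x * m x) + 12 * r * |φ x|)) (mu n) :=
        i5.const_mul s
      have i7 : Integrable (fun x => φ x ^ 2 + s * (2 * (φ x * m x) + 12 * r * |φ x|)) (mu n) :=
        i1.add i6
      rw [integral_add i7 i4, integral_add i1 i6, integral_const_mul,
        integral_add (i2.const_mul 2) (i3.const_mul (12 * r)),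
        integral_const_mul, integral_const_mul, int_const hn]
      rfl
    have h3 := h s hs hss
    have h4 : s * (-(2 * (∫ x, φ x * m x ∂(mu n)) + 12 * r * ∫ x, |φ x| ∂(mu n))) ≤
        s * (s * 100) := by linarith
    exact le_of_mul_le_mul_left h4 hs
  linarith

theorem slic_G0 (hn : 1 ≤ n) {h : E n → ℝ} (hh : SL h) {δ : ℝ} (hN : Near δ h) :
    sq (slicPhi h 0 0) ≤ δ ^ 2 := by
  have h1 : sq (slicPhi h 0 0) ≤ ∫ _x, δ ^ 2 ∂(mu n) := by
    refine int_mono hn ((slicPhi_cont hh.p1.cont 0 0).pow 2).continuousOn continuousOn_const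
      fun x hx => ?_
    have h2 := hN x hx
    have h3 : slicPhi h 0 0 x = h x - 1 := by simp [slicPhi]
    rw [h3]
    exact sq_le_sq' (abs_le.1 h2).1 (abs_le.1 h2).2
  rwa [int_const hn] at h1

theorem slic_low (hn : 1 ≤ n) {h : E n → ℝ} (hh : SL h) {δ c ρ : ℝ} (hδ0 : 0 ≤ δ)
    (hN : Near δ h)
    (hc : ∀ S : E n →L[ℝ] E n, (∀ x y, inner ℝ (S x) y = inner ℝ x (S y)) → ∀ z : E n,
      c * (‖S‖ ^ 2 + ‖z‖ ^ 2) ≤ sq (fun x => inner ℝ x (S x) - inner ℝ z x))
    {S : E n →L[ℝ] E n} (hS : ∀ x y, inner ℝ (S x) y = inner ℝ x (S y)) (z : E n)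
    (hSn : ‖S‖ ≤ ρ) (hρ : ρ ≤ 1) :
    c * (‖S‖ ^ 2 + ‖z‖ ^ 2) ≤ 2 * sq (slicPhi h S z) + 2 * (2 * δ + ρ ^ 2 / 2) ^ 2 := by
  refine (hc S hS z).trans ?_
  have h1 : sq (fun x => inner ℝ x (S x) - inner ℝ z x) ≤
      ∫ x, (2 * slicPhi h S z x ^ 2 + 2 * (2 * δ + ρ ^ 2 / 2) ^ 2) ∂(mu n) := by
    have hcφ := slicPhi_cont hh.p1.cont S z
    refine int_mono hn (Continuous.continuousOn (by fun_prop)) (Continuous.continuousOn (by fun_prop))
      fun x hx => ?_
    have hSx : ‖S x‖ ≤ ρ := by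
      have := S.le_opNorm x
      rw [hx, mul_one] at this
      exact this.trans hSn
    have h2 := Near.bound hh.p1 hN (x + S x)
    have h3 := slic_norm (v := S x) hx
    have h4 : ‖x + S x‖ ≤ 2 := by
      have := norm_add_le x (S x)
      rw [hx] at this
      linarith
    have h5 : ‖S x‖ ^ 2 ≤ ρ ^ 2 := pow_le_pow_left₀ (norm_nonneg _) hSx 2
    have h6 : 0 ≤ ‖S x‖ ^ 2 := sq_nonneg _
    obtain ⟨D, hD⟩ : ∃ D, D = h (x + S x) - 1 - inner ℝ x (S x) := ⟨_, rfl⟩
    have h7 : inner ℝ x (S x) - inner ℝ z x = slicPhi h S z x - D := by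
      rw [hD, slicPhi]; ring
    have h8 : |D| ≤ 2 * δ + ρ ^ 2 / 2 := by
      rw [hD, abs_le]
      have h9 : δ * ‖x + S x‖ ≤ δ * 2 := mul_le_mul_of_nonneg_left h4 hδ0
      constructor <;> nlinarith
    have h9 : D ^ 2 ≤ (2 * δ + ρ ^ 2 / 2) ^ 2 := sq_le_sq' (abs_le.1 h8).1 (abs_le.1 h8).2
    simp only [h7]
    nlinarith [sq_nonneg (slicPhi h S z x + D)]
  refine h1.trans (le_of_eq ?_)
  have hcφ := slicPhi_cont hh.p1.cont S z
  rw [integral_add (integrable_mu hn (Continuous.continuousOn (by fun_prop)))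
    (integrable_mu hn continuousOn_const), integral_const_mul, int_const hn]
  rfl

theorem slic_N {k N r J ρ t : ℝ} (hk : 0 < k) (hN : 0 ≤ N) (hr : 0 ≤ r) (hJ : 0 ≤ J) (hρ : 0 ≤ ρ)
    (hρk : ρ ≤ k / 4) (hkt : k * t ≤ N)
    (h : N ^ 2 ≤ 6 * r * J * t + N * (2 * ρ * t)) : k ^ 2 * N ^ 2 ≤ 144 * (r ^ 2 * J ^ 2) := by
  rcases hN.eq_or_lt with h0 | h0
  · rw [← h0]
    have : 0 ≤ 144 * (r ^ 2 * J ^ 2) := by positivity
    simpa using this
  have h1 : k * N ^ 2 ≤ 6 * r * J * N + (k / 2) * N ^ 2 := by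
    have h2 : k * N ^ 2 ≤ 6 * r * J * (k * t) + N * (2 * ρ) * (k * t) := by nlinarith
    have h3 : 6 * r * J * (k * t) ≤ 6 * r * J * N := mul_le_mul_of_nonneg_left hkt (by positivity)
    have h4 : N * (2 * ρ) * (k * t) ≤ N * (2 * ρ) * N :=
      mul_le_mul_of_nonneg_left hkt (by positivity)
    have h5 : N * (2 * ρ) * N ≤ k / 2 * N ^ 2 := by nlinarith [sq_nonneg N]
    linarith
  have h2 : k * N ≤ 12 * r * J := by
    have : (k * N) * N ≤ (12 * r * J) * N := by nlinarith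
    exact le_of_mul_le_mul_right this h0
  have h3 : (k * N) ^ 2 ≤ (12 * r * J) ^ 2 := pow_le_pow_left₀ (by positivity) h2 2
  nlinarith

theorem slic_fin (hn : 1 ≤ n) (Y : SHFam n) {c : ℝ} (hc0 : 0 < c)
    (hc : ∀ S : E n →L[ℝ] E n, (∀ x y, inner ℝ (S x) y = inner ℝ x (S y)) → ∀ z : E n,
      c * (‖S‖ ^ 2 + ‖z‖ ^ 2) ≤ sq (fun x => inner ℝ x (S x) - inner ℝ z x))
    {ρ : ℝ} (hρ0 : 0 < ρ) (hρ4 : ρ ≤ 1 / 4) (hρc : ρ ≤ Real.sqrt c / 4)
    {h : E n → ℝ} (hh : SL h) (A : E n ≃L[ℝ] E n) {S : E n →L[ℝ] E n} {z : E n}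
    (hA : ∀ x, A x = x + S x) (hS : ∀ x y, inner ℝ (S x) y = inner ℝ x (S y))
    (hSn : ‖S‖ < ρ) (hzn : ‖z‖ ≤ 1)
    (hmin : ∀ S' : E n →L[ℝ] E n, (∀ x y, inner ℝ (S' x) y = inner ℝ x (S' y)) → ‖S'‖ ≤ ρ →
      sq (slicPhi h S z) ≤ sq (slicPhi h S' z))
    (hz : ∀ y, ∫ x, slicPhi h S z x * inner ℝ y x ∂(mu n) = 0)
    {δ : ℝ} (hδ0 : 0 ≤ δ) (hδ1 : δ < 1) (hN : Near δ (fun x => h (A x) - inner ℝ z x))
    {r : ℝ} (hr0 : 0 < r) (hr1 : r ≤ 1) (hδr : δ ≤ r ^ 2) :
    e2 Y (slicPhi h S z) ≤ 144 / c * r ^ 2 * sq (slicPhi h S z) := by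
  have hφc := slicPhi_cont hh.p1.cont S z
  have hφh : ∀ x, slicPhi h S z x = (h (A x) - inner ℝ z x) - 1 := fun x => by
    rw [slicPhi, hA]
  -- properties of `l = h^`
  have homl : ∀ t : ℝ, 0 ≤ t → ∀ x, (fun x => h (A x) - inner ℝ z x) (t • x) =
      t * (fun x => h (A x) - inner ℝ z x) x := by
    intro t ht x
    simp only [map_smul, hh.hom t ht, inner_smul_right]
    ring
  have subl : ∀ x y, (fun x => h (A x) - inner ℝ z x) (x + y) ≤
      (fun x => h (A x) - inner ℝ z x) x + (fun x => h (A x) - inner ℝ z x) y := by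
    intro x y
    simp only [map_add, inner_add_right]
    linarith [hh.sub (A x) (A y)]
  have hlc : Continuous (fun x => h (A x) - inner ℝ z x) := by
    have := hh.p1.cont
    have h2 : Continuous (A : E n → E n) := A.continuous
    exact (this.comp h2).sub (by fun_prop)
  have hP1 : P1 (fun x => h (A x) - inner ℝ z x) := P1_of_near hδ1 ⟨homl, hlc⟩ hN
  -- the inverse of `A`
  have hAinv : ∀ y, ‖A.symm y‖ ≤ 2 * ‖y‖ := by
    intro y
    have h1 : y = A.symm y + S (A.symm y) := by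
      rw [← hA, ContinuousLinearEquiv.apply_symm_apply]
    have h2 : ‖S (A.symm y)‖ ≤ ‖S‖ * ‖A.symm y‖ := S.le_opNorm _
    have h3 : ‖A.symm y‖ ≤ ‖y‖ + ‖S (A.symm y)‖ := by
      have : A.symm y = y - S (A.symm y) := by
        rw [eq_sub_iff_add_eq]; exact h1.symm
      calc ‖A.symm y‖ = ‖y - S (A.symm y)‖ := by rw [← this]
        _ ≤ _ := norm_sub_le _ _
    nlinarith [norm_nonneg (A.symm y)]
  have hAdiff : ∀ y, ‖A.symm y - y‖ ≤ 2 * ρ * ‖y‖ := by
    intro y
    have h1 : A.symm y - y = A.symm (-S y) := by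
      rw [map_neg, eq_neg_iff_add_eq_zero, sub_add_eq_add_sub, ← map_add, ← hA,
        ContinuousLinearEquiv.symm_apply_apply, sub_self]
    rw [h1]
    refine (hAinv _).trans ?_
    rw [norm_neg]
    have := S.le_opNorm y
    nlinarith [norm_nonneg y]
  set J : ℝ := ∫ x, |slicPhi h S z x| ∂(mu n) with hJ
  have hJ0 : 0 ≤ J := integral_nonneg fun x => abs_nonneg _
  have hJ2 : J ^ 2 ≤ sq (slicPhi h S z) := slic_abs_le hn hφc
  -- one-sided variation
  have hvar1 : ∀ T : E n →L[ℝ] E n, (∀ x y, inner ℝ (T x) y = inner ℝ x (T y)) → ‖T‖ ≤ 1 →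
      -(6 * r * J) ≤ ∫ x, slicPhi h S z x * inner ℝ x (A.symm (T x)) ∂(mu n) := by
    intro T hT hT1
    set W : E n →L[ℝ] E n := (A.symm : E n →L[ℝ] E n).comp T with hW
    have hWx : ∀ x, W x = A.symm (T x) := fun x => rfl
    have hW2 : ∀ x, ‖x‖ = 1 → ‖W x‖ ≤ 2 := by
      intro x hx
      have h1 := T.le_opNorm x
      rw [hx, mul_one] at h1
      have h2 := hAinv (T x)
      rw [hWx]
      linarith
    have hmc : Continuous fun x => inner ℝ x (W x) + inner ℝ z (W x) := by fun_prop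
    have h1 := slic_varT hn (m := fun x => inner ℝ x (W x) + inner ℝ z (W x)) hφc hmc
      (fun s => slicPhi h (S + s • T) z) (fun s => slicPhi_cont hh.p1.cont _ _)
      (r := r) (s0 := min r (ρ - ‖S‖)) (lt_min hr0 (by linarith)) ?_ hr1 ?_ ?_
    · have h2 : ∫ x, slicPhi h S z x * (inner ℝ x (W x) + inner ℝ z (W x)) ∂(mu n) =
          ∫ x, slicPhi h S z x * inner ℝ x (W x) ∂(mu n) := by
        have h3 := hz (ContinuousLinearMap.adjoint W z)
        have h4 : ∫ x, slicPhi h S z x * (inner ℝ x (W x) + inner ℝ z (W x)) ∂(mu n) =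
            ∫ x, slicPhi h S z x * inner ℝ x (W x) ∂(mu n) +
            ∫ x, slicPhi h S z x * inner ℝ (ContinuousLinearMap.adjoint W z) x ∂(mu n) := by
          rw [← integral_add (integrable_mu hn (Continuous.continuousOn (by fun_prop)))
            (integrable_mu hn (Continuous.continuousOn (by fun_prop)))]
          refine integral_congr_ae (Filter.Eventually.of_forall fun x => ?_)
          simp only [ContinuousLinearMap.adjoint_inner_left]
          ring
        rw [h4, h3, add_zero]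
      rw [h2] at h1
      exact h1
    · intro s hs hss x hx
      have h2 := slic_diff homl subl hP1 hδ0 hN hx (hW2 x hx) hr0 hr1 hδr hs
        (hss.trans (min_le_left _ _))
      have h3 : slicPhi h (S + s • T) z x - slicPhi h S z x -
          s * (inner ℝ x (W x) + inner ℝ z (W x)) =
          (fun x => h (A x) - inner ℝ z x) (x + s • W x) - (fun x => h (A x) - inner ℝ z x) x -
            s * inner ℝ x (W x) := by
        have h4 : x + (S + s • T) x = A (x + s • W x) := by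
          rw [map_add, map_smul, hWx, ContinuousLinearEquiv.apply_symm_apply, hA]
          simp only [add_apply, smul_apply]
          abel
        rw [slicPhi, hφh, h4]
        simp only [inner_add_right, inner_smul_right]
        ring
      rw [h3]
      exact h2
    · intro x hx
      have h2 := abs_real_inner_le_norm x (W x)
      have h3 := abs_real_inner_le_norm z (W x)
      have h4 := hW2 x hx
      rw [hx, one_mul] at h2
      have h5 : ‖z‖ * ‖W x‖ ≤ 1 * 2 := mul_le_mul hzn h4 (norm_nonneg _) zero_le_one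
      exact (abs_add_le _ _).trans (by linarith)
    · intro s hs hss
      refine hmin (S + s • T) (fun x y => ?_) ?_
      · simp only [add_apply, smul_apply, inner_add_left, inner_add_right, inner_smul_left,
          inner_smul_right, hS, hT, conj_trivial]
      · have h2 : ‖s • T‖ ≤ s := by
          rw [norm_smul, Real.norm_eq_abs, abs_of_pos hs]
          nlinarith
        have h3 := norm_add_le S (s • T)
        have h4 := hss.trans (min_le_right _ _)
        linarith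
  have hvar2 : ∀ T : E n →L[ℝ] E n, (∀ x y, inner ℝ (T x) y = inner ℝ x (T y)) →
      ∫ x, slicPhi h S z x * inner ℝ x (A.symm (T x)) ∂(mu n) ≤ 6 * r * J * ‖T‖ := by
    intro T hT
    by_cases hT0 : T = 0
    · subst hT0
      simp
    have hTpos : 0 < ‖T‖ := norm_pos_iff.2 hT0
    have h1 := hvar1 ((-‖T‖⁻¹) • T) (fun x y => by
      simp only [smul_apply, inner_smul_left, inner_smul_right, hT, conj_trivial]) (by
      rw [norm_smul, norm_neg, norm_inv, norm_norm, inv_mul_cancel₀ hTpos.ne'])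
    have h2 : ∫ x, slicPhi h S z x * inner ℝ x (A.symm (((-‖T‖⁻¹) • T) x)) ∂(mu n) =
        (-‖T‖⁻¹) * ∫ x, slicPhi h S z x * inner ℝ x (A.symm (T x)) ∂(mu n) := by
      rw [← integral_const_mul]
      refine integral_congr_ae (Filter.Eventually.of_forall fun x => ?_)
      simp only [smul_apply, map_smul, inner_smul_right]
      ring
    rw [h2] at h1
    have h3 := mul_le_mul_of_nonneg_left h1 hTpos.le
    have h4 : ‖T‖ * (-‖T‖⁻¹ * ∫ x, slicPhi h S z x * inner ℝ x (A.symm (T x)) ∂(mu n)) =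
        -∫ x, slicPhi h S z x * inner ℝ x (A.symm (T x)) ∂(mu n) := by
      field_simp
    rw [h4] at h3
    linarith
  -- the projection to degree two
  set Q : Pol n := prP Y (slicPhi h S z) 2 with hQdef
  obtain ⟨b, T, hT, hQ⟩ := slicGood_poly (P := Q) (pr_deg Y _ 2)
  have hevc : ∀ P : Pol n, Continuous (ev P) := fun P => (ev_smooth P).continuous
  have hN0 : 0 ≤ nr Q := Real.sqrt_nonneg _
  have hN2 : nr Q ^ 2 = sq (ev Q) := by
    rw [nr, Real.sq_sqrt (integral_nonneg fun x => sq_nonneg _)]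
    rfl
  have he2 : e2 Y (slicPhi h S z) = nr Q ^ 2 := (pr_nr hn Y _ 2).symm
  have hperp : ∀ P : Pol n, P.totalDegree ≤ 2 →
      ∫ x, slicPhi h S z x * ev P x ∂(mu n) = ∫ x, ev Q x * ev P x ∂(mu n) := by
    intro P hP
    have h1 := pr_perp hn Y hφc.continuousOn 2 P hP
    have hPc := hevc P
    have hQc := hevc Q
    have h2 : ∫ x, (slicPhi h S z x - ev Q x) * ev P x ∂(mu n) =
        ∫ x, slicPhi h S z x * ev P x ∂(mu n) - ∫ x, ev Q x * ev P x ∂(mu n) := by
      rw [← integral_sub (integrable_mu hn (Continuous.continuousOn (by fun_prop)))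
        (integrable_mu hn (Continuous.continuousOn (by fun_prop)))]
      refine integral_congr_ae (Filter.Eventually.of_forall fun x => ?_)
      simp only
      ring
    rw [h2] at h1
    linarith
  have hQQ : ∫ x, slicPhi h S z x * inner ℝ x (T x) ∂(mu n) = nr Q ^ 2 := by
    have h1 := hperp Q (pr_deg Y _ 2)
    have h2 : ∫ x, slicPhi h S z x * ev Q x ∂(mu n) =
        ∫ x, slicPhi h S z x * inner ℝ b x ∂(mu n) +
        ∫ x, slicPhi h S z x * inner ℝ x (T x) ∂(mu n) := by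
      rw [← integral_add (integrable_mu hn (Continuous.continuousOn (by fun_prop)))
        (integrable_mu hn (Continuous.continuousOn (by fun_prop)))]
      refine int_congr hn fun x hx => ?_
      rw [hQ x hx]
      ring
    have h3 : ∫ x, ev Q x * ev Q x ∂(mu n) = nr Q ^ 2 := by
      rw [hN2, sq]
      refine integral_congr_ae (Filter.Eventually.of_forall fun x => ?_)
      simp only
      ring
    rw [h2, hz b, zero_add, h3] at h1
    exact h1
  have hTN : c * ‖T‖ ^ 2 ≤ nr Q ^ 2 := by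
    have h1 := hc T hT (-b)
    have h2 : sq (fun x => inner ℝ x (T x) - inner ℝ (-b) x) = nr Q ^ 2 := by
      rw [hN2]
      unfold sq
      refine int_congr hn fun x hx => ?_
      simp only [hQ x hx, inner_neg_left]
      ring
    rw [h2] at h1
    nlinarith [sq_nonneg ‖b‖]
  -- the error term
  set W : E n →L[ℝ] E n := (A.symm : E n →L[ℝ] E n).comp T with hW
  obtain ⟨P, hP, hPe⟩ := slic_quadpoly (W - T)
  have hPe' : ∀ x, ev P x = inner ℝ x (A.symm (T x)) - inner ℝ x (T x) := by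
    intro x
    rw [hPe, sub_apply, inner_sub_right]
    rfl
  have hPs : sq (ev P) ≤ (2 * ρ * ‖T‖) ^ 2 := by
    have h1 : sq (ev P) ≤ ∫ _x, (2 * ρ * ‖T‖) ^ 2 ∂(mu n) := by
      refine int_mono hn ((hevc P).pow 2).continuousOn continuousOn_const fun x hx => ?_
      have h2 : |ev P x| ≤ 2 * ρ * ‖T‖ := by
        rw [hPe', ← inner_sub_right]
        have h3 := abs_real_inner_le_norm x (A.symm (T x) - T x)
        rw [hx, one_mul] at h3
        have h4 := hAdiff (T x)
        have h5 := T.le_opNorm x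
        rw [hx, mul_one] at h5
        nlinarith
      exact sq_le_sq' (abs_le.1 h2).1 (abs_le.1 h2).2
    rwa [int_const hn] at h1
  have herr : -(∫ x, slicPhi h S z x * ev P x ∂(mu n)) ≤ nr Q * (2 * ρ * ‖T‖) := by
    rw [hperp P hP]
    have h1 := int_cs hn (hevc Q).continuousOn (hevc P).continuousOn
    rw [← hN2] at h1
    have h2 : (∫ x, ev Q x * ev P x ∂(mu n)) ^ 2 ≤ (nr Q * (2 * ρ * ‖T‖)) ^ 2 := by
      rw [mul_pow]
      exact h1.trans (mul_le_mul_of_nonneg_left hPs (sq_nonneg _))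
    have h3 := abs_le_of_sq_le_sq h2 (by positivity)
    linarith [(abs_le.1 h3).1]
  have hsplit : ∫ x, slicPhi h S z x * ev P x ∂(mu n) =
      ∫ x, slicPhi h S z x * inner ℝ x (A.symm (T x)) ∂(mu n) -
      ∫ x, slicPhi h S z x * inner ℝ x (T x) ∂(mu n) := by
    have hc1 : Continuous fun x => A.symm (T x) := A.symm.continuous.comp T.continuous
    rw [← integral_sub (integrable_mu hn (Continuous.continuousOn (by fun_prop)))
      (integrable_mu hn (Continuous.continuousOn (by fun_prop)))]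
    refine integral_congr_ae (Filter.Eventually.of_forall fun x => ?_)
    simp only [hPe']
    ring
  have hmain : nr Q ^ 2 ≤ 6 * r * J * ‖T‖ + nr Q * (2 * ρ * ‖T‖) := by
    have h1 := hvar2 T hT
    rw [hsplit, hQQ] at herr
    linarith
  have hk : 0 < Real.sqrt c := Real.sqrt_pos.2 hc0
  have hkt : Real.sqrt c * ‖T‖ ≤ nr Q := by
    refine abs_le_of_sq_le_sq' ?_ hN0 |>.2
    rw [mul_pow, Real.sq_sqrt hc0.le]
    exact hTN
  have hfin := slic_N hk hN0 hr0.le hJ0 hρ0.le hρc hkt hmain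
  rw [Real.sq_sqrt hc0.le] at hfin
  rw [he2, div_mul_eq_mul_div, div_mul_eq_mul_div, le_div_iff₀ hc0]
  have h9 : r ^ 2 * J ^ 2 ≤ r ^ 2 * sq (slicPhi h S z) :=
    mul_le_mul_of_nonneg_left hJ2 (sq_nonneg r)
  nlinarith

theorem slice (hn : 2 ≤ n) (Y : SHFam n) : ∃ C : ℝ, 0 < C ∧ ∀ ρ : ℝ, 0 < ρ →
    ∃ δ : ℝ, 0 < δ ∧ ∀ h : E n → ℝ, SL h → Near δ h →
      ∃ (A : E n ≃L[ℝ] E n) (z : E n),
        (∀ x y, inner ℝ (A x) y = inner ℝ x (A y)) ∧
        ‖(A : E n →L[ℝ] E n) - 1‖ ≤ ρ ∧ ‖z‖ ≤ ρ ∧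
        (∀ y, ∫ x, (h (A x) - inner ℝ z x - 1) * inner ℝ y x ∂(mu n) = 0) ∧
        ∀ δ' : ℝ, 0 ≤ δ' → δ' ≤ 1 / 2 → Near δ' (fun x => h (A x) - inner ℝ z x) →
          e2 Y (fun x => h (A x) - inner ℝ z x - 1)
            ≤ C * δ' * sq (fun x => h (A x) - inner ℝ z x - 1) := by
  have hn1 : 1 ≤ n := by omega
  obtain ⟨c, hc0, hc⟩ := quad_lower hn1
  refine ⟨144 / c, by positivity, fun ρ hρ => ?_⟩
  have hk : 0 < Real.sqrt c := Real.sqrt_pos.2 hc0
  obtain ⟨ρ1, hρ1⟩ : ∃ ρ1, ρ1 = min ρ (min (1 / 4) (Real.sqrt c / 4)) := ⟨_, rfl⟩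
  have hρ10 : 0 < ρ1 := by rw [hρ1]; positivity
  have hρ1ρ : ρ1 ≤ ρ := by rw [hρ1]; exact min_le_left _ _
  have hρ14 : ρ1 ≤ 1 / 4 := by rw [hρ1]; exact (min_le_right _ _).trans (min_le_left _ _)
  have hρ1c : ρ1 ≤ Real.sqrt c / 4 := by
    rw [hρ1]; exact (min_le_right _ _).trans (min_le_right _ _)
  have hρ1c2 : ρ1 ^ 2 ≤ c / 16 := by
    have h1 : ρ1 ^ 2 ≤ (Real.sqrt c / 4) ^ 2 := pow_le_pow_left₀ hρ10.le hρ1c 2
    rw [div_pow, Real.sq_sqrt hc0.le] at h1
    linarith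
  refine ⟨ρ1 ^ 2 / 4, by positivity, fun h hh hN => ?_⟩
  obtain ⟨p, hpK, hmin⟩ := (slicK_compact (n := n) ρ1).exists_isMinOn
    ⟨0, by simp [hρ10.le]⟩ (slicG_cont hn1 hh.p1.cont).continuousOn
  obtain ⟨S, z⟩ := p
  obtain ⟨hS, hSn, hzn⟩ := hpK
  simp only at hS hSn hzn
  have hmin' : ∀ (S' : E n →L[ℝ] E n) (z' : E n), (∀ x y, inner ℝ (S' x) y = inner ℝ x (S' y)) →
      ‖S'‖ ≤ ρ1 → ‖z'‖ ≤ ρ1 → sq (slicPhi h S z) ≤ sq (slicPhi h S' z') :=
    fun S' z' h1 h2 h3 => hmin (a := (S', z')) ⟨h1, h2, h3⟩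
  have hlow := slic_low hn1 hh (by positivity) hN hc hS z hSn (by linarith)
  have hG0 := (hmin' 0 0 (fun x y => by simp) (by simpa using hρ10.le)
    (by simpa using hρ10.le)).trans (slic_G0 hn1 hh hN)
  have hlt : ‖S‖ ^ 2 + ‖z‖ ^ 2 < ρ1 ^ 2 := by
    have h1 : c * (‖S‖ ^ 2 + ‖z‖ ^ 2) ≤ 17 / 8 * ρ1 ^ 4 := by nlinarith
    have h2 : ρ1 ^ 4 ≤ c / 16 * ρ1 ^ 2 := by nlinarith [sq_nonneg ρ1]
    have h3 : c * (‖S‖ ^ 2 + ‖z‖ ^ 2) < c * ρ1 ^ 2 := by
      have : 0 < c * ρ1 ^ 2 := by positivity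
      nlinarith
    exact lt_of_mul_lt_mul_left h3 hc0.le
  have hSlt : ‖S‖ < ρ1 := by
    refine lt_of_pow_lt_pow_left₀ 2 hρ10.le ?_
    nlinarith [sq_nonneg ‖z‖]
  have hzlt : ‖z‖ < ρ1 := by
    refine lt_of_pow_lt_pow_left₀ 2 hρ10.le ?_
    nlinarith [sq_nonneg ‖S‖]
  have hu : ‖-S‖ < 1 := by rw [norm_neg]; linarith
  set A : E n ≃L[ℝ] E n := ContinuousLinearEquiv.unitsEquiv ℝ (E n) (Units.oneSub (-S) hu) with hAdef
  have hA : ∀ x, A x = x + S x := by
    intro x
    rw [hAdef, ContinuousLinearEquiv.unitsEquiv_apply, Units.val_oneSub, sub_neg_eq_add]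
    simp
  have hφc := slicPhi_cont hh.p1.cont S z
  have hφh : (fun x => h (A x) - inner ℝ z x - 1) = slicPhi h S z := by
    funext x
    rw [slicPhi, hA]
  have hz : ∀ y, ∫ x, slicPhi h S z x * inner ℝ y x ∂(mu n) = 0 := by
    intro y
    have ht0 : 0 < (ρ1 - ‖z‖) / (‖y‖ + 1) := by
      have : 0 < ‖y‖ + 1 := by positivity
      exact div_pos (by linarith) this
    refine slic_varz hn1 hφc y ht0 fun t ht => ?_
    have h1 : (fun x => slicPhi h S z x - t * inner ℝ y x) = slicPhi h S (z + t • y) := by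
      funext x
      rw [slicPhi, slicPhi, inner_add_left, inner_smul_left]
      simp only [conj_trivial]
      ring
    rw [h1]
    refine hmin' S _ hS hSn ?_
    have h2 := norm_add_le z (t • y)
    rw [norm_smul, Real.norm_eq_abs] at h2
    have h3 : |t| * (‖y‖ + 1) ≤ ρ1 - ‖z‖ := by
      rwa [le_div_iff₀ (by positivity)] at ht
    nlinarith [abs_nonneg t]
  refine ⟨A, z, ?_, ?_, ?_, ?_, ?_⟩
  · intro x y
    rw [hA, hA, inner_add_left, inner_add_right, hS]
  · have h1 : (A : E n →L[ℝ] E n) - 1 = S := by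
      ext1 x
      rw [sub_apply]
      simp [hA]
    rw [h1]
    linarith
  · linarith
  · intro y
    have h1 : ∀ x, h (A x) - inner ℝ z x - 1 = slicPhi h S z x := fun x => congrFun hφh x
    simp only [h1]
    exact hz y
  · intro δ' hδ0 hδ1 hNe
    rw [hφh]
    have hgen : ∀ r : ℝ, 0 < r → r ≤ 1 → δ' ≤ r ^ 2 →
        e2 Y (slicPhi h S z) ≤ 144 / c * r ^ 2 * sq (slicPhi h S z) := fun r hr0 hr1 hδr =>
      slic_fin hn1 Y hc0 hc hρ10 hρ14 hρ1c hh A hA hS hSlt (by linarith)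
        (fun S' h1 h2 => hmin' S' z h1 h2 hzn) hz hδ0 (by linarith) hNe hr0 hr1 hδr
    rcases hδ0.eq_or_lt with h0 | h0
    · rw [← h0, mul_zero, zero_mul]
      refine slic_lim (b := 144 / c * sq (slicPhi h S z)) one_pos fun t ht0 ht1 => ?_
      have h1 := hgen t ht0 ht1 (by rw [← h0]; positivity)
      refine h1.trans ?_
      have h2 : 0 ≤ sq (slicPhi h S z) := integral_nonneg fun x => sq_nonneg _
      have h3 : t ^ 2 ≤ t := by nlinarith
      have h4 : 144 / c * t ^ 2 * sq (slicPhi h S z) = t ^ 2 * (144 / c * sq (slicPhi h S z)) := by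
        ring
      rw [h4]
      exact mul_le_mul_of_nonneg_right h3 (by positivity)
    · have h1 := hgen (Real.sqrt δ') (Real.sqrt_pos.2 h0)
        (Real.sqrt_le_one.2 (by linarith)) (by rw [Real.sq_sqrt hδ0])
      rwa [Real.sq_sqrt hδ0] at h1

end Pool.Agent.H35.CA
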