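import Pool.Agent.H35.CA.UaA
import Pool.Agent.H35.CA.ShB

/-!
# Job UAS: distance of the functions `uA` to polynomials of degree 3

Proof hints.
`uA_bound`: for symmetric `S` with trace 0 and small norm, `A = 1 + S`, on the unit sphere
`uA A x = Y3 (x + S x) / |x + S x|^3 = Y3 x + D_S x + O(‖S‖²)`, uniformly, where
`D_S x = DY3(x)(S x) - 3 Y3 x ⟨x, S x⟩`.  `Y3` and `x ↦ DY3(x)(S x)` are polynomials of degree 3.
Let `dist(f)^2 = sq f - e3 Y f = sq (f - ev (prP Y f 3))`, the squared distance to polynomials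
of degree `≤ 3` (a seminorm squared, vanishing exactly on functions which agree on the sphere
with a polynomial of degree `≤ 3`).  So `dist(uA A) ≥ 3 dist(m_S Y3) - C ‖S‖²`, with
`m_S x = ⟨x, S x⟩`.  It suffices that `dist(m_S Y3) ≥ c ‖S‖` for symmetric trace-free `S`.  By
compactness of the unit sphere of this space it suffices that `dist(m_S Y3) = 0` implies
`S = 0`.  Suppose `m_S Y3 = Q` on the unit sphere, `deg Q ≤ 3`.  The left side is odd, so we may
take `Q` odd (replace `Q x` by `(Q x - Q (-x))/2`), `Q = Q_1 + Q_3`; homogenising,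
`m_S Y3 = |x|^4 Q_1 + |x|^2 Q_3` on `E n`.  Let `w` be a unit vector orthogonal to `e_0` and
restrict to `x = e_0 + t w`: with `a = ⟨e_0,S e_0⟩`, `b = ⟨e_0,S w⟩`, `c = ⟨w,S w⟩`, `w_1` the
coordinate, `(a + 2 b t + c t²)(1 - 3 w_1² t²) = (1 + t²) q(t)` for real `t`, `q` a polynomial;
hence for `t = i`: `(a - c + 2 b i)(1 + 3 w_1²) = 0`, so `b = 0`, `c = a`.  So `S = a I` (all `w`;
the form is `a` on all unit vectors orthogonal to `e_0`, and the mixed terms vanish), and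
`S = 0` as the trace is 0.
-/

namespace Pool.Agent.H35.CA

open MeasureTheory Metric Set

variable {n : ℕ}

/-! ### Linear and quadratic forms as polynomials -/

/-- The linear form `⟨v, ·⟩` as a polynomial. -/
noncomputable def uasL (v : E n) : Pol n :=
  ∑ j, MvPolynomial.C (v j) * MvPolynomial.X j

theorem uas_L_ev (v x : E n) : ev (uasL v) x = inner ℝ v x := by
  rw [uasL, ev_sum, PiLp.inner_apply]
  refine Finset.sum_congr rfl (fun j _ => ?_)
  simp [ev, mul_comm]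

theorem uas_L_deg (v : E n) : (uasL v).totalDegree ≤ 1 := by
  unfold uasL
  refine MvPolynomial.totalDegree_finsetSum_le (fun j _ => ?_)
  refine (MvPolynomial.totalDegree_mul _ _).trans ?_
  rw [MvPolynomial.totalDegree_C, MvPolynomial.totalDegree_X]

/-- The quadratic form of a symmetric operator, as a polynomial. -/
noncomputable def uasM (S : E n →L[ℝ] E n) : Pol n :=
  ∑ i, MvPolynomial.X i * uasL (S (EuclideanSpace.single i (1 : ℝ)))

theorem uas_coord (S : E n →L[ℝ] E n) (hS : ∀ x y, inner ℝ (S x) y = inner ℝ x (S y))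
    (i : Fin n) (x : E n) : inner ℝ (S (EuclideanSpace.single i (1 : ℝ))) x = (S x) i := by
  rw [hS, EuclideanSpace.inner_single_left]
  simp

theorem uas_M_ev (S : E n →L[ℝ] E n) (hS : ∀ x y, inner ℝ (S x) y = inner ℝ x (S y))
    (x : E n) : ev (uasM S) x = inner ℝ x (S x) := by
  rw [uasM, ev_sum, PiLp.inner_apply]
  refine Finset.sum_congr rfl (fun i _ => ?_)
  rw [ev_mul, uas_L_ev, uas_coord S hS]
  simp [ev, mul_comm]

/-- The squared norm as a polynomial. -/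
noncomputable def uasN (n : ℕ) : Pol n := ∑ i, MvPolynomial.X i ^ 2

theorem uas_N_ev (x : E n) : ev (uasN n) x = ‖x‖ ^ 2 := by
  rw [uasN, ev_sum, EuclideanSpace.real_norm_sq_eq]
  refine Finset.sum_congr rfl (fun i _ => ?_)
  simp [ev]

/-! ### Values at complex points -/

theorem uas_csum (a b c d : E n) :
    ∑ i, (((a i : ℝ) : ℂ) + ((b i : ℝ) : ℂ) * Complex.I) *
      (((c i : ℝ) : ℂ) + ((d i : ℝ) : ℂ) * Complex.I)
      = ((inner ℝ a c - inner ℝ b d : ℝ) : ℂ)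
        + ((inner ℝ a d + inner ℝ b c : ℝ) : ℂ) * Complex.I := by
  rw [PiLp.inner_apply, PiLp.inner_apply, PiLp.inner_apply, PiLp.inner_apply,
    ← Finset.sum_sub_distrib, ← Finset.sum_add_distrib, Complex.ofReal_sum, Complex.ofReal_sum,
    Finset.sum_mul, ← Finset.sum_add_distrib]
  refine Finset.sum_congr rfl (fun i _ => ?_)
  simp only [RCLike.inner_apply, conj_trivial]
  push_cast
  linear_combination (((b i : ℝ) : ℂ) * ((d i : ℝ) : ℂ)) * Complex.I_sq

/-- Value of a real polynomial at the complex point `x + i y`. -/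
noncomputable def uasC (P : Pol n) (x y : E n) : ℂ :=
  MvPolynomial.aeval (fun i => ((x i : ℝ) : ℂ) + ((y i : ℝ) : ℂ) * Complex.I) P

theorem uas_C_L (v x y : E n) :
    uasC (uasL v) x y = ((inner ℝ v x : ℝ) : ℂ) + ((inner ℝ v y : ℝ) : ℂ) * Complex.I := by
  have h := uas_csum v 0 x y
  rw [inner_zero_left, inner_zero_left, sub_zero, add_zero] at h
  rw [← h, uasC, uasL, map_sum]
  refine Finset.sum_congr rfl (fun j _ => ?_)
  simp

theorem uas_C_M (S : E n →L[ℝ] E n) (hS : ∀ x y, inner ℝ (S x) y = inner ℝ x (S y))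
    (x y : E n) : uasC (uasM S) x y = ((inner ℝ x (S x) - inner ℝ y (S y) : ℝ) : ℂ)
      + ((2 * inner ℝ x (S y) : ℝ) : ℂ) * Complex.I := by
  have h := uas_csum x y (S x) (S y)
  have h2 : inner ℝ y (S x) = inner ℝ x (S y) := by
    rw [← hS, real_inner_comm]
  rw [h2, ← two_mul] at h
  rw [← h, uasC, uasM, map_sum]
  refine Finset.sum_congr rfl (fun i _ => ?_)
  rw [map_mul]
  have h3 := uas_C_L (S (EuclideanSpace.single i (1 : ℝ))) x y
  rw [uasC, uas_coord S hS, uas_coord S hS] at h3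
  rw [h3, MvPolynomial.aeval_X]

theorem uas_C_N (x y : E n) (h1 : ‖x‖ = ‖y‖) (h2 : inner ℝ x y = 0) :
    uasC (uasN n) x y = 0 := by
  have h := uas_csum x y x y
  have h2' : inner ℝ y x = 0 := by
    rw [real_inner_comm]
    exact h2
  rw [real_inner_self_eq_norm_sq, real_inner_self_eq_norm_sq, h1, sub_self, h2, h2'] at h
  have h3 : uasC (uasN n) x y = ∑ i, (((x i : ℝ) : ℂ) + ((y i : ℝ) : ℂ) * Complex.I) *
      (((x i : ℝ) : ℂ) + ((y i : ℝ) : ℂ) * Complex.I) := by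
    rw [uasC, uasN, map_sum]
    refine Finset.sum_congr rfl (fun i _ => ?_)
    rw [map_pow, MvPolynomial.aeval_X, pow_two]
  rw [h3, h]
  simp

theorem uas_C_Y3 (hn : 2 ≤ n) (x y : E n) (h1 : x (⟨1, by omega⟩ : Fin n) = 0)
    (h2 : y (⟨0, by omega⟩ : Fin n) = 0) : uasC (Y3 n hn) x y
      = ((x (⟨0, by omega⟩ : Fin n) * (x (⟨0, by omega⟩ : Fin n) ^ 2 +
        3 * y (⟨1, by omega⟩ : Fin n) ^ 2) : ℝ) : ℂ) := by
  rw [uasC, Y3]
  simp only [map_sub, map_pow, map_mul, MvPolynomial.aeval_X, map_ofNat]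
  rw [h1, h2]
  push_cast
  linear_combination (-3 * ((x (⟨0, by omega⟩ : Fin n) : ℝ) : ℂ) *
    ((y (⟨1, by omega⟩ : Fin n) : ℝ) : ℂ) ^ 2) * Complex.I_sq

/-! ### Homogeneous components -/

theorem uas_hom (P : Pol n) (k : ℕ) (hP : P.IsHomogeneous k) (t : ℝ) (x : E n) :
    ev P (t • x) = t ^ k * ev P x := by
  unfold ev
  rw [MvPolynomial.eval_eq', MvPolynomial.eval_eq', Finset.mul_sum]
  refine Finset.sum_congr rfl (fun d hd => ?_)
  have h0 := hP (MvPolynomial.mem_support_iff.mp hd)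
  have h1 : ∑ i, d i = k := by
    rw [← Finsupp.degree_eq_sum, Finsupp.degree_eq_weight_one]
    exact h0
  have h2 : ∏ i, (t • x) i ^ d i = t ^ k * ∏ i, x i ^ d i := by
    rw [← h1, ← Finset.prod_pow_eq_pow_sum, ← Finset.prod_mul_distrib]
    refine Finset.prod_congr rfl (fun i _ => ?_)
    rw [PiLp.smul_apply, smul_eq_mul, mul_pow]
  rw [h2]
  ring

theorem uas_comp (Q : Pol n) (hQ : Q.totalDegree ≤ 3) (x : E n) :
    ev Q x = ev (MvPolynomial.homogeneousComponent 0 Q) x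
      + ev (MvPolynomial.homogeneousComponent 1 Q) x
      + ev (MvPolynomial.homogeneousComponent 2 Q) x
      + ev (MvPolynomial.homogeneousComponent 3 Q) x := by
  have h1 : ∑ k ∈ Finset.range 4, MvPolynomial.homogeneousComponent k Q = Q := by
    conv_rhs => rw [← MvPolynomial.sum_homogeneousComponent Q]
    symm
    apply Finset.sum_subset
    · intro k hk
      rw [Finset.mem_range] at hk ⊢
      omega
    · intro k _ hk
      rw [Finset.mem_range, not_lt] at hk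
      exact MvPolynomial.homogeneousComponent_eq_zero _ _ (by omega)
  have h2 : ev Q x = ∑ k ∈ Finset.range 4, ev (MvPolynomial.homogeneousComponent k Q) x := by
    rw [← ev_sum, h1]
  rw [h2, Finset.sum_range_succ, Finset.sum_range_succ, Finset.sum_range_succ,
    Finset.sum_range_one]

theorem uas_Y3_hom (hn : 2 ≤ n) (t : ℝ) (x : E n) :
    ev (Y3 n hn) (t • x) = t ^ 3 * ev (Y3 n hn) x := by
  rw [uaA_ev, uaA_ev, PiLp.smul_apply, PiLp.smul_apply, smul_eq_mul, smul_eq_mul]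
  ring

theorem uas_poly (hn : 2 ≤ n) (S : E n →L[ℝ] E n)
    (hS : ∀ x y, inner ℝ (S x) y = inner ℝ x (S y)) (Q : Pol n) (hQ : Q.totalDegree ≤ 3)
    (h : ∀ x : E n, ‖x‖ = 1 → inner ℝ x (S x) * ev (Y3 n hn) x = ev Q x) :
    uasM S * Y3 n hn = uasN n ^ 2 * MvPolynomial.homogeneousComponent 1 Q
      + uasN n * MvPolynomial.homogeneousComponent 3 Q := by
  have key : ∀ x : E n, ev (uasM S * Y3 n hn) x
      = ev (uasN n ^ 2 * MvPolynomial.homogeneousComponent 1 Q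
        + uasN n * MvPolynomial.homogeneousComponent 3 Q) x := by
    intro x
    rw [ev_add, ev_mul, ev_mul, ev_mul, pow_two, ev_mul, uas_N_ev, uas_M_ev S hS]
    by_cases hx : x = 0
    · subst hx
      rw [norm_zero, inner_zero_left]
      ring
    · have ht : 0 < ‖x‖ := norm_pos_iff.mpr hx
      set u : E n := ‖x‖⁻¹ • x with hu
      have hu1 : ‖u‖ = 1 := by
        rw [hu, norm_smul, norm_inv, norm_norm, inv_mul_cancel₀ ht.ne']
      have hxu : x = ‖x‖ • u := by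
        rw [hu, smul_smul, mul_inv_cancel₀ ht.ne', one_smul]
      have h1 := h u hu1
      have h2 := h ((-1 : ℝ) • u) (by rw [norm_smul, hu1]; norm_num)
      rw [uas_comp Q hQ] at h1 h2
      rw [map_smul, real_inner_smul_left, real_inner_smul_right, uas_Y3_hom,
        uas_hom _ 0 (MvPolynomial.homogeneousComponent_isHomogeneous 0 Q),
        uas_hom _ 1 (MvPolynomial.homogeneousComponent_isHomogeneous 1 Q),
        uas_hom _ 2 (MvPolynomial.homogeneousComponent_isHomogeneous 2 Q),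
        uas_hom _ 3 (MvPolynomial.homogeneousComponent_isHomogeneous 3 Q)] at h2
      have h3 : inner ℝ x (S x) * ev (Y3 n hn) x
          = ‖x‖ ^ 5 * (inner ℝ u (S u) * ev (Y3 n hn) u) := by
        conv_lhs => rw [hxu]
        rw [map_smul, real_inner_smul_left, real_inner_smul_right, uas_Y3_hom]
        ring
      have h4 : ev (MvPolynomial.homogeneousComponent 1 Q) x
          = ‖x‖ * ev (MvPolynomial.homogeneousComponent 1 Q) u := by
        conv_lhs => rw [hxu]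
        rw [uas_hom _ 1 (MvPolynomial.homogeneousComponent_isHomogeneous 1 Q), pow_one]
      have h5 : ev (MvPolynomial.homogeneousComponent 3 Q) x
          = ‖x‖ ^ 3 * ev (MvPolynomial.homogeneousComponent 3 Q) u := by
        conv_lhs => rw [hxu]
        rw [uas_hom _ 3 (MvPolynomial.homogeneousComponent_isHomogeneous 3 Q)]
      rw [h3, h4, h5]
      linear_combination (‖x‖ ^ 5 / 2) * h1 - (‖x‖ ^ 5 / 2) * h2
  apply MvPolynomial.funext
  intro x
  exact key (WithLp.toLp 2 x)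

theorem uas_alg (hn : 2 ≤ n) (S : E n →L[ℝ] E n)
    (hS : ∀ x y, inner ℝ (S x) y = inner ℝ x (S y)) (Q : Pol n) (hQ : Q.totalDegree ≤ 3)
    (h : ∀ x : E n, ‖x‖ = 1 → inner ℝ x (S x) * ev (Y3 n hn) x = ev Q x) (x w : E n)
    (hx1 : x (⟨1, by omega⟩ : Fin n) = 0) (hw0 : w (⟨0, by omega⟩ : Fin n) = 0)
    (hxw : inner ℝ x w = 0) (hxn : ‖x‖ = ‖w‖) (hx0 : x (⟨0, by omega⟩ : Fin n) ≠ 0) :
    inner ℝ x (S x) = inner ℝ w (S w) ∧ inner ℝ x (S w) = 0 := by
  have h1 := congrArg (fun P => uasC P x w) (uas_poly hn S hS Q hQ h)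
  have h2 : uasC (uasM S) x w * uasC (Y3 n hn) x w = 0 := by
    have h3 := uas_C_N x w hxn hxw
    simp only [uasC, map_mul, map_add, map_pow] at h1 h3 ⊢
    rw [h1, h3]
    ring
  have h4 : uasC (Y3 n hn) x w ≠ 0 := by
    rw [uas_C_Y3 hn x w hx1 hw0, Complex.ofReal_ne_zero]
    have h5 : 0 < x (⟨0, by omega⟩ : Fin n) ^ 2 := by positivity
    have h6 : 0 ≤ w (⟨1, by omega⟩ : Fin n) ^ 2 := sq_nonneg _
    refine mul_ne_zero hx0 ?_
    linarith
  have h5 := (mul_eq_zero.mp h2).resolve_right h4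
  rw [uas_C_M S hS, Complex.ext_iff] at h5
  simp only [Complex.add_re, Complex.add_im, Complex.mul_re, Complex.mul_im,
    Complex.ofReal_re, Complex.ofReal_im, Complex.I_re, Complex.I_im, Complex.zero_re,
    Complex.zero_im, mul_zero, mul_one, sub_zero, zero_mul, add_zero, zero_add] at h5
  constructor <;> linarith [h5.1, h5.2]

theorem uas_S0 (hn : 2 ≤ n) (S : E n →L[ℝ] E n)
    (hS : ∀ x y, inner ℝ (S x) y = inner ℝ x (S y))
    (htr : LinearMap.trace ℝ (E n) S.toLinearMap = 0) (Q : Pol n) (hQ : Q.totalDegree ≤ 3)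
    (h : ∀ x : E n, ‖x‖ = 1 → inner ℝ x (S x) * ev (Y3 n hn) x = ev Q x) : S = 0 := by
  set i0 : Fin n := ⟨0, by omega⟩ with hi0
  set i1 : Fin n := ⟨1, by omega⟩ with hi1
  have hi01 : i0 ≠ i1 := by
    intro h
    have h5 := congrArg Fin.val h
    simp [hi0, hi1] at h5
  set e0 : E n := EuclideanSpace.single i0 (1 : ℝ) with he0
  have he0n : ‖e0‖ = 1 := by simp [he0]
  set a : ℝ := inner ℝ e0 (S e0) with ha
  have h1 : ∀ w : E n, w i0 = 0 → inner ℝ w (S w) = a * ‖w‖ ^ 2 ∧ inner ℝ e0 (S w) = 0 := by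
    intro w hw
    by_cases hw0 : w = 0
    · subst hw0
      simp
    · have ht : 0 < ‖w‖ := norm_pos_iff.mpr hw0
      have h2 := uas_alg hn S hS Q hQ h (‖w‖ • e0) w
        (by
          rw [PiLp.smul_apply, he0, EuclideanSpace.single_apply, if_neg (Ne.symm hi01)]
          simp)
        hw
        (by
          rw [real_inner_smul_left, he0, EuclideanSpace.inner_single_left, hw]
          simp)
        (by rw [norm_smul, norm_norm, he0n, mul_one])
        (by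
          rw [PiLp.smul_apply, he0, EuclideanSpace.single_apply, if_pos rfl]
          simpa using ht.ne')
      rw [map_smul, real_inner_smul_left, real_inner_smul_right, real_inner_smul_left] at h2
      constructor
      · rw [← h2.1, ha]
        ring
      · exact (mul_eq_zero.mp h2.2).resolve_left ht.ne'
  have h2 : ∀ x : E n, inner ℝ x (S x) = a * ‖x‖ ^ 2 := by
    intro x
    set w : E n := x - x i0 • e0 with hw
    have hw0 : w i0 = 0 := by
      rw [hw, PiLp.sub_apply, PiLp.smul_apply, he0, EuclideanSpace.single_apply, if_pos rfl]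
      simp
    have hx : x = x i0 • e0 + w := by
      rw [hw]
      abel
    have h3 := h1 w hw0
    have h4 : inner ℝ w (S e0) = 0 := by
      rw [← hS, real_inner_comm]
      exact h3.2
    have h5 : inner ℝ e0 w = 0 := by
      rw [he0, EuclideanSpace.inner_single_left, hw0]
      simp
    have h6 : ‖x‖ ^ 2 = (x i0) ^ 2 + ‖w‖ ^ 2 := by
      conv_lhs => rw [hx]
      rw [norm_add_sq_real, norm_smul, he0n, real_inner_smul_left, h5, mul_one,
        Real.norm_eq_abs, sq_abs]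
      ring
    rw [h6]
    conv_lhs => rw [hx]
    rw [map_add, map_smul, inner_add_left, inner_add_right, inner_add_right,
      real_inner_smul_left, real_inner_smul_left, real_inner_smul_right, real_inner_smul_right,
      h3.1, h3.2, h4, ← ha]
    ring
  have h3 : (n : ℝ) * a = 0 := by
    rw [LinearMap.trace_eq_sum_inner _ (EuclideanSpace.basisFun (Fin n) ℝ)] at htr
    have h4 : ∀ i : Fin n, inner ℝ (EuclideanSpace.basisFun (Fin n) ℝ i)
        (S.toLinearMap (EuclideanSpace.basisFun (Fin n) ℝ i)) = a := by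
      intro i
      have h5 := h2 (EuclideanSpace.basisFun (Fin n) ℝ i)
      rw [OrthonormalBasis.norm_eq_one] at h5
      rw [one_pow, mul_one] at h5
      exact h5
    rw [Finset.sum_congr rfl (fun i _ => h4 i)] at htr
    simpa using htr
  have hn0 : (n : ℝ) ≠ 0 := by
    have : n ≠ 0 := by omega
    exact_mod_cast this
  have h4 : a = 0 := (mul_eq_zero.mp h3).resolve_left hn0
  have h5 : ∀ x : E n, inner ℝ x (S x) = 0 := by
    intro x
    rw [h2 x, h4, zero_mul]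
  ext1 y
  have h6 := h5 (S y + y)
  rw [map_add, inner_add_left, inner_add_right, inner_add_right, h5, h5, ← hS y (S y)] at h6
  have h7 : inner ℝ (S y) (S y) = 0 := by linarith
  rw [inner_self_eq_zero] at h7
  rw [h7]
  rfl

/-! ### Distance to polynomials of degree at most 3 -/

theorem uas_evc (P : Pol n) : ContinuousOn (ev P) (sphere 0 1) :=
  (ev_smooth P).continuous.continuousOn

theorem uas_dist (hn : 1 ≤ n) (Y : SHFam n) {f : E n → ℝ} (hf : ContinuousOn f (sphere 0 1)) :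
    sq f - e3 Y f = sq (fun x => f x - ev (prP Y f 3) x) := (sq_pr hn Y hf 3).symm

theorem uas_best (hn : 1 ≤ n) (Y : SHFam n) {f : E n → ℝ} (hf : ContinuousOn f (sphere 0 1))
    (Q : Pol n) (hQ : Q.totalDegree ≤ 3) :
    sq f - e3 Y f ≤ sq (fun x => f x - ev Q x) := by
  rw [uas_dist hn Y hf]
  set P := prP Y f 3 with hP
  have h1 : (P - Q).totalDegree ≤ 3 :=
    (MvPolynomial.totalDegree_sub _ _).trans (max_le (pr_deg Y f 3) hQ)
  have h2 := pr_perp hn Y hf 3 (P - Q) h1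
  rw [← hP] at h2
  have hc1 : ContinuousOn (fun x => f x - ev P x) (sphere 0 1) := hf.sub (uas_evc P)
  have hc2 := uas_evc (P - Q)
  have h3 : sq (fun x => f x - ev Q x) = sq (fun x => f x - ev P x)
      + 2 * (∫ x, (f x - ev P x) * ev (P - Q) x ∂(mu n)) + sq (ev (P - Q)) := by
    have i1 : Integrable (fun x => (f x - ev P x) ^ 2) (mu n) := integrable_mu hn (hc1.pow 2)
    have i2 : Integrable (fun x => 2 * ((f x - ev P x) * ev (P - Q) x)) (mu n) :=
      (integrable_mu hn (hc1.mul hc2)).const_mul 2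
    have i3 : Integrable (fun x => ev (P - Q) x ^ 2) (mu n) := integrable_mu hn (hc2.pow 2)
    have i4 : Integrable (fun x => (f x - ev P x) ^ 2 + 2 * ((f x - ev P x) * ev (P - Q) x))
      (mu n) := i1.add i2
    unfold sq
    rw [← integral_const_mul, ← integral_add i1 i2, ← integral_add i4 i3]
    congr 1
    funext x
    rw [ev_sub]
    ring
  have h4 : 0 ≤ sq (ev (P - Q)) := integral_nonneg (fun x => sq_nonneg _)
  rw [h3, h2]
  linarith

theorem uas_dist_nonneg (hn : 1 ≤ n) (Y : SHFam n) {f : E n → ℝ}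
    (hf : ContinuousOn f (sphere 0 1)) : 0 ≤ sq f - e3 Y f := by
  rw [uas_dist hn Y hf]
  exact integral_nonneg (fun x => sq_nonneg _)

theorem uas_dist_zero (hn : 1 ≤ n) (Y : SHFam n) {f : E n → ℝ}
    (hf : ContinuousOn f (sphere 0 1)) (h : sq f - e3 Y f = 0) :
    ∃ Q : Pol n, Q.totalDegree ≤ 3 ∧ ∀ x, ‖x‖ = 1 → f x = ev Q x := by
  rw [uas_dist hn Y hf] at h
  refine ⟨prP Y f 3, pr_deg Y f 3, ?_⟩
  intro x hx
  have h1 := mu_full hn (F := fun x => (f x - ev (prP Y f 3) x) ^ 2)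
    ((hf.sub (uas_evc _)).pow 2) (fun x _ => sq_nonneg _) h x hx
  have h2 := pow_eq_zero_iff (two_ne_zero) |>.mp h1
  linarith

/-- The function `⟨x, S x⟩ Y3 x`. -/
noncomputable def uasF (hn : 2 ≤ n) (S : E n →L[ℝ] E n) (x : E n) : ℝ :=
  inner ℝ x (S x) * ev (Y3 n hn) x

theorem uas_F_cont (hn : 2 ≤ n) (S : E n →L[ℝ] E n) : Continuous (uasF hn S) := by
  have h1 : Continuous (fun x : E n => inner ℝ x (S x)) := by fun_prop
  exact h1.mul (ev_smooth (Y3 n hn)).continuous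

theorem uas_F_smul (hn : 2 ≤ n) (S : E n →L[ℝ] E n) (t : ℝ) :
    uasF hn (t • S) = fun x => t * uasF hn S x := by
  funext x
  rw [uasF, uasF, ContinuousLinearMap.smul_apply, real_inner_smul_right]
  ring

theorem uas_F_abs (hn : 2 ≤ n) (S : E n →L[ℝ] E n) (x : E n) (hx : ‖x‖ = 1) :
    |uasF hn S x| ≤ ‖S‖ := by
  rw [uasF, abs_mul]
  have h1 : |inner ℝ x (S x)| ≤ ‖S‖ := by
    refine (abs_real_inner_le_norm _ _).trans ?_
    rw [hx, one_mul]
    have := S.le_opNorm x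
    rwa [hx, mul_one] at this
  have h2 := uaA_ev_abs hn x hx.le
  calc |inner ℝ x (S x)| * |ev (Y3 n hn) x| ≤ ‖S‖ * 1 :=
        mul_le_mul h1 h2 (abs_nonneg _) (norm_nonneg _)
    _ = ‖S‖ := mul_one _

theorem uas_dist_smul (Y : SHFam n) (f : E n → ℝ) (t : ℝ) :
    sq (fun x => t * f x) - e3 Y (fun x => t * f x) = t ^ 2 * (sq f - e3 Y f) := by
  have h1 : sq (fun x => t * f x) = t ^ 2 * sq f := by
    unfold sq
    rw [← integral_const_mul]
    congr 1
    funext x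
    ring
  have h2 : ∀ k i, cf Y (fun x => t * f x) k i = t * cf Y f k i := by
    intro k i
    unfold cf
    rw [← integral_const_mul]
    congr 1
    funext x
    ring
  have h3 : ∀ k, en Y (fun x => t * f x) k = t ^ 2 * en Y f k := by
    intro k
    unfold en
    rw [Finset.mul_sum]
    refine Finset.sum_congr rfl (fun i _ => ?_)
    rw [h2]
    ring
  have h4 : e3 Y (fun x => t * f x) = t ^ 2 * e3 Y f := by
    unfold e3
    rw [Finset.mul_sum]
    exact Finset.sum_congr rfl (fun k _ => h3 k)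
  rw [h1, h4]
  ring

/-! ### Compactness -/

/-- Symmetric trace-free operators of norm 1. -/
def uasK (n : ℕ) : Set (E n →L[ℝ] E n) :=
  sphere 0 1 ∩ ({S | ∀ x y, inner ℝ (S x) y = inner ℝ x (S y)} ∩
    {S | LinearMap.trace ℝ (E n) S.toLinearMap = 0})

theorem uas_K_compact (n : ℕ) : IsCompact (uasK n) := by
  haveI : ProperSpace (E n →L[ℝ] E n) := FiniteDimensional.proper ℝ _
  refine (isCompact_sphere _ _).inter_right (IsClosed.inter ?_ ?_)
  · simp only [setOf_forall]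
    refine isClosed_iInter (fun x => isClosed_iInter (fun y => ?_))
    refine isClosed_eq ?_ ?_
    · fun_prop
    · fun_prop
  · refine isClosed_eq ?_ continuous_const
    have h1 : (fun S : E n →L[ℝ] E n => LinearMap.trace ℝ (E n) S.toLinearMap)
        = fun S => ∑ i, inner ℝ (EuclideanSpace.basisFun (Fin n) ℝ i)
          (S (EuclideanSpace.basisFun (Fin n) ℝ i)) := by
      funext S
      rw [LinearMap.trace_eq_sum_inner _ (EuclideanSpace.basisFun (Fin n) ℝ)]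
      rfl
    rw [h1]
    fun_prop

theorem uas_int_cont (hn : 2 ≤ n) {g : E n → ℝ} (hg : Continuous g) (m : ℕ) :
    ContinuousOn (fun S : E n →L[ℝ] E n => ∫ x, uasF hn S x ^ m * g x ∂(mu n)) (uasK n) := by
  haveI := mu_prob (n := n) (by omega)
  obtain ⟨B, hB⟩ := (isCompact_sphere (0 : E n) 1).exists_bound_of_continuousOn hg.continuousOn
  refine continuousOn_of_dominated (bound := fun _ => B) ?_ ?_ ?_ ?_
  · intro S _
    exact (((uas_F_cont hn S).pow m).mul hg).aestronglyMeasurable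
  · intro S hS
    filter_upwards [mu_ae (n := n) (by omega)] with x hx
    have h1 := uas_F_abs hn S x hx
    have h2 : ‖S‖ = 1 := by simpa using hS.1
    rw [h2] at h1
    have h3 := hB x (by simpa using hx)
    rw [norm_mul, norm_pow]
    have h4 : ‖uasF hn S x‖ ^ m ≤ 1 := pow_le_one₀ (norm_nonneg _) h1
    calc ‖uasF hn S x‖ ^ m * ‖g x‖ ≤ 1 * ‖g x‖ :=
          mul_le_mul_of_nonneg_right h4 (norm_nonneg _)
      _ ≤ B := by rw [one_mul]; exact h3
  · exact integrable_const _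
  · refine Filter.Eventually.of_forall (fun x => ?_)
    have h1 : Continuous (fun S : E n →L[ℝ] E n => uasF hn S x) := by
      unfold uasF
      fun_prop
    exact ((h1.pow m).mul continuous_const).continuousOn

theorem uas_min (hn : 2 ≤ n) (Y : SHFam n) : ∃ c : ℝ, 0 < c ∧ ∀ S : E n →L[ℝ] E n,
    (∀ x y, inner ℝ (S x) y = inner ℝ x (S y)) →
    LinearMap.trace ℝ (E n) S.toLinearMap = 0 →
      c * ‖S‖ ^ 2 ≤ sq (uasF hn S) - e3 Y (uasF hn S) := by
  have hn1 : 1 ≤ n := by omega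
  have hpos : ∀ S ∈ uasK n, 0 < sq (uasF hn S) - e3 Y (uasF hn S) := by
    intro S hS
    have h1 := uas_dist_nonneg hn1 Y (uas_F_cont hn S).continuousOn
    rcases h1.lt_or_eq with h2 | h2
    · exact h2
    · exfalso
      obtain ⟨Q, hQ, hQ2⟩ := uas_dist_zero hn1 Y (uas_F_cont hn S).continuousOn h2.symm
      have h3 := uas_S0 hn S hS.2.1 hS.2.2 Q hQ hQ2
      have h4 : ‖S‖ = 1 := by simpa using hS.1
      rw [h3, norm_zero] at h4
      exact zero_ne_one h4
  have hcont : ContinuousOn (fun S : E n →L[ℝ] E n => sq (uasF hn S) - e3 Y (uasF hn S))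
      (uasK n) := by
    have h1 : ContinuousOn (fun S : E n →L[ℝ] E n => sq (uasF hn S)) (uasK n) := by
      have := uas_int_cont hn (g := fun _ => (1 : ℝ)) continuous_const 2
      simpa [sq] using this
    refine h1.sub ?_
    unfold e3 en
    refine continuousOn_finset_sum _ (fun k _ => continuousOn_finset_sum _ (fun i _ => ?_))
    refine ContinuousOn.pow ?_ 2
    have := uas_int_cont hn (g := ev (Y.Y k i)) (ev_smooth _).continuous 1
    simpa [cf] using this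
  have hall : ∃ c : ℝ, 0 < c ∧ ∀ S ∈ uasK n, c ≤ sq (uasF hn S) - e3 Y (uasF hn S) := by
    rcases (uasK n).eq_empty_or_nonempty with h0 | h0
    · refine ⟨1, one_pos, ?_⟩
      intro S hS
      rw [h0] at hS
      exact absurd hS (notMem_empty S)
    · obtain ⟨T, hT, hT2⟩ := (uas_K_compact n).exists_isMinOn h0 hcont
      exact ⟨_, hpos T hT, fun S hS => hT2 hS⟩
  obtain ⟨c, hc, hc2⟩ := hall
  refine ⟨c, hc, ?_⟩
  intro S hS htr
  by_cases h0 : S = 0
  · subst h0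
    rw [norm_zero]
    have := uas_dist_nonneg hn1 Y (uas_F_cont hn (0 : E n →L[ℝ] E n)).continuousOn
    simpa using this
  · have ht : 0 < ‖S‖ := norm_pos_iff.mpr h0
    have h1 : ‖S‖⁻¹ • S ∈ uasK n := by
      refine ⟨?_, ?_, ?_⟩
      · rw [mem_sphere_zero_iff_norm, norm_smul, norm_inv, norm_norm, inv_mul_cancel₀ ht.ne']
      · intro x y
        rw [ContinuousLinearMap.smul_apply, ContinuousLinearMap.smul_apply,
          real_inner_smul_left, real_inner_smul_right, hS]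
      · change LinearMap.trace ℝ (E n) (‖S‖⁻¹ • S.toLinearMap) = 0
        rw [map_smul, htr, smul_zero]
    have h2 := hc2 _ h1
    rw [uas_F_smul, uas_dist_smul] at h2
    have h3 : ‖S‖ ^ 2 * c ≤ ‖S‖ ^ 2 * (‖S‖⁻¹ ^ 2 * (sq (uasF hn S) - e3 Y (uasF hn S))) :=
      mul_le_mul_of_nonneg_left h2 (by positivity)
    rw [← mul_assoc, ← mul_pow, mul_inv_cancel₀ ht.ne', one_pow, one_mul] at h3
    linarith

/-! ### Taylor expansion -/

theorem uas_inv {d : ℝ} (h1 : -(1 / 2) ≤ d) (h2 : d ≤ 1 / 2) :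
    |((1 + d) ^ 3)⁻¹ - (1 - 3 * d)| ≤ 100 * d ^ 2 := by
  have h3 : (1 / 8 : ℝ) ≤ (1 + d) ^ 3 := by
    have h4 : (1 / 2 : ℝ) ≤ 1 + d := by linarith
    calc (1 / 8 : ℝ) = (1 / 2) ^ 3 := by norm_num
      _ ≤ (1 + d) ^ 3 := pow_le_pow_left₀ (by norm_num) h4 3
  have h4 : 0 < (1 + d) ^ 3 := by linarith
  have h5 : ((1 + d) ^ 3)⁻¹ - (1 - 3 * d)
      = (6 + 8 * d + 3 * d ^ 2) * d ^ 2 * ((1 + d) ^ 3)⁻¹ := by
    have h9 : (1 + d) ^ 3 * ((1 + d) ^ 3)⁻¹ = 1 := mul_inv_cancel₀ h4.ne'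
    generalize ((1 + d) ^ 3)⁻¹ = I at h9
    linear_combination (1 - 3 * d) * h9
  have h6 : ((1 + d) ^ 3)⁻¹ ≤ 8 := by
    rw [inv_le_comm₀ h4 (by norm_num)]
    linarith
  have h7 : 0 ≤ 6 + 8 * d + 3 * d ^ 2 := by nlinarith
  have h8 : 6 + 8 * d + 3 * d ^ 2 ≤ 12 := by nlinarith
  rw [h5, abs_of_nonneg (by positivity)]
  calc (6 + 8 * d + 3 * d ^ 2) * d ^ 2 * ((1 + d) ^ 3)⁻¹ ≤ (12 * d ^ 2) * 8 := by
        refine mul_le_mul ?_ h6 (by positivity) (by positivity)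
        exact mul_le_mul_of_nonneg_right h8 (sq_nonneg d)
    _ ≤ 100 * d ^ 2 := by nlinarith [sq_nonneg d]

theorem uas_cub {x0 x1 y0 y1 s : ℝ} (hs : s ≤ 1 / 2) (h0 : |x0| ≤ 1) (h1 : |x1| ≤ 1)
    (g0 : |y0| ≤ s) (g1 : |y1| ≤ s) :
    |((x0 + y0) ^ 3 - 3 * (x0 + y0) * (x1 + y1) ^ 2)| ≤ 14 ∧
    |((x0 + y0) ^ 3 - 3 * (x0 + y0) * (x1 + y1) ^ 2) - (x0 ^ 3 - 3 * x0 * x1 ^ 2)| ≤ 20 * s := by
  have hs0 : 0 ≤ s := (abs_nonneg _).trans g0
  have v0 : |x0 + y0| ≤ 3 / 2 := (abs_add_le _ _).trans (by linarith)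
  have v1 : |x1 + y1| ≤ 3 / 2 := (abs_add_le _ _).trans (by linarith)
  have v00 : 0 ≤ |x0 + y0| := abs_nonneg _
  have v10 : 0 ≤ |x1 + y1| := abs_nonneg _
  have x00 : 0 ≤ |x0| := abs_nonneg _
  have x10 : 0 ≤ |x1| := abs_nonneg _
  have y00 : 0 ≤ |y0| := abs_nonneg _
  have y10 : 0 ≤ |y1| := abs_nonneg _
  constructor
  · calc |((x0 + y0) ^ 3 - 3 * (x0 + y0) * (x1 + y1) ^ 2)|
        ≤ |(x0 + y0) ^ 3| + |3 * (x0 + y0) * (x1 + y1) ^ 2| := abs_sub _ _
      _ = |x0 + y0| ^ 3 + 3 * |x0 + y0| * |x1 + y1| ^ 2 := by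
          rw [abs_pow, abs_mul, abs_mul, abs_pow]
          norm_num
      _ ≤ (3 / 2) ^ 3 + 3 * (3 / 2) * (3 / 2) ^ 2 := by gcongr
      _ ≤ 14 := by norm_num
  · have e1 : ((x0 + y0) ^ 3 - 3 * (x0 + y0) * (x1 + y1) ^ 2) - (x0 ^ 3 - 3 * x0 * x1 ^ 2)
        = y0 * ((x0 + y0) ^ 2 + (x0 + y0) * x0 + x0 ^ 2)
          - 3 * (y0 * (x1 + y1) ^ 2 + x0 * y1 * ((x1 + y1) + x1)) := by ring
    rw [e1]
    have a1 : |(x0 + y0) ^ 2 + (x0 + y0) * x0 + x0 ^ 2| ≤ 19 / 4 := by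
      calc |(x0 + y0) ^ 2 + (x0 + y0) * x0 + x0 ^ 2|
          ≤ |(x0 + y0) ^ 2| + |(x0 + y0) * x0| + |x0 ^ 2| := abs_add_three _ _ _
        _ = |x0 + y0| ^ 2 + |x0 + y0| * |x0| + |x0| ^ 2 := by
            rw [abs_pow, abs_mul, abs_pow]
        _ ≤ (3 / 2) ^ 2 + (3 / 2) * 1 + 1 ^ 2 := by gcongr
        _ = 19 / 4 := by norm_num
    have a2 : |y0 * (x1 + y1) ^ 2| ≤ s * (9 / 4) := by
      rw [abs_mul, abs_pow]
      calc |y0| * |x1 + y1| ^ 2 ≤ s * (3 / 2) ^ 2 := by gcongr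
        _ = s * (9 / 4) := by norm_num
    have a3 : |x0 * y1 * ((x1 + y1) + x1)| ≤ s * (5 / 2) := by
      rw [abs_mul, abs_mul]
      have a4 : |(x1 + y1) + x1| ≤ 5 / 2 := (abs_add_le _ _).trans (by linarith)
      calc |x0| * |y1| * |x1 + y1 + x1| ≤ 1 * s * (5 / 2) := by gcongr
        _ = s * (5 / 2) := by ring
    have a5 : |y0 * ((x0 + y0) ^ 2 + (x0 + y0) * x0 + x0 ^ 2)| ≤ s * (19 / 4) := by
      rw [abs_mul]
      gcongr
    calc |y0 * ((x0 + y0) ^ 2 + (x0 + y0) * x0 + x0 ^ 2)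
          - 3 * (y0 * (x1 + y1) ^ 2 + x0 * y1 * ((x1 + y1) + x1))|
        ≤ |y0 * ((x0 + y0) ^ 2 + (x0 + y0) * x0 + x0 ^ 2)|
          + |3 * (y0 * (x1 + y1) ^ 2 + x0 * y1 * ((x1 + y1) + x1))| := abs_sub _ _
      _ ≤ s * (19 / 4) + 3 * (s * (9 / 4) + s * (5 / 2)) := by
          rw [abs_mul (3 : ℝ), abs_of_pos (by norm_num : (0 : ℝ) < 3)]
          have := (abs_add_le (y0 * (x1 + y1) ^ 2) (x0 * y1 * ((x1 + y1) + x1)))
          linarith
      _ ≤ 20 * s := by linarith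

theorem uas_taylor (hn : 2 ≤ n) (S : E n →L[ℝ] E n) (hSn : ‖S‖ ≤ 1 / 2) (x : E n)
    (hx : ‖x‖ = 1) :
    |ev (Y3 n hn) (un (x + S x)) - (ev (Y3 n hn) (x + S x) - 3 * uasF hn S x)|
      ≤ 2000 * ‖S‖ ^ 2 := by
  set s : ℝ := ‖S‖ with hs
  have hs0 : 0 ≤ s := norm_nonneg _
  set y : E n := S x with hy
  have hyn : ‖y‖ ≤ s := by
    have := S.le_opNorm x
    rwa [hx, mul_one] at this
  set v : E n := x + y with hv
  set r : ℝ := ‖v‖ with hr
  set p : ℝ := inner ℝ x y with hp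
  have hp1 : |p| ≤ s := by
    refine (abs_real_inner_le_norm _ _).trans ?_
    rw [hx, one_mul]
    exact hyn
  have hd : |r - 1| ≤ s := by
    have h1 := abs_norm_sub_norm_le v x
    rw [hx, hv, add_sub_cancel_left, ← hv, ← hr] at h1
    exact h1.trans hyn
  have hr2 : r ^ 2 = 1 + 2 * p + ‖y‖ ^ 2 := by
    rw [hr, hv, norm_add_sq_real, hx, ← hp]
    ring
  have hy0 : 0 ≤ ‖y‖ := norm_nonneg _
  have hy2 : ‖y‖ ^ 2 ≤ s ^ 2 := pow_le_pow_left₀ hy0 hyn 2
  have hd2 : (r - 1) ^ 2 ≤ s ^ 2 := by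
    rw [← sq_abs]
    exact pow_le_pow_left₀ (abs_nonneg _) hd 2
  rw [abs_le] at hd
  have hinv := uas_inv (d := r - 1) (by linarith) (by linarith)
  have hr1 : 1 + (r - 1) = r := by ring
  rw [hr1] at hinv
  have heps : |(r ^ 3)⁻¹ - (1 - 3 * p)| ≤ 102 * s ^ 2 := by
    have h1 : (r ^ 3)⁻¹ - (1 - 3 * p)
        = ((r ^ 3)⁻¹ - (1 - 3 * (r - 1))) + (3 / 2) * ((r - 1) ^ 2 - ‖y‖ ^ 2) := by
      linear_combination (-3 / 2) * hr2
    rw [h1]
    have h2 : |(3 / 2) * ((r - 1) ^ 2 - ‖y‖ ^ 2)| ≤ (3 / 2) * s ^ 2 := by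
      rw [abs_mul, abs_of_pos (by norm_num : (0 : ℝ) < 3 / 2)]
      refine mul_le_mul_of_nonneg_left ?_ (by norm_num)
      rw [abs_le]
      have := sq_nonneg (r - 1)
      have := sq_nonneg (‖y‖)
      constructor <;> linarith
    calc |((r ^ 3)⁻¹ - (1 - 3 * (r - 1))) + (3 / 2) * ((r - 1) ^ 2 - ‖y‖ ^ 2)|
        ≤ |(r ^ 3)⁻¹ - (1 - 3 * (r - 1))| + |(3 / 2) * ((r - 1) ^ 2 - ‖y‖ ^ 2)| :=
          abs_add_le _ _
      _ ≤ 100 * (r - 1) ^ 2 + (3 / 2) * s ^ 2 := add_le_add hinv h2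
      _ ≤ 102 * s ^ 2 := by nlinarith [sq_nonneg s]
  have hc : ∀ i : Fin n, |x i| ≤ 1 := by
    intro i
    have := PiLp.norm_apply_le x i
    rwa [hx, Real.norm_eq_abs] at this
  have hcy : ∀ i : Fin n, |y i| ≤ s := by
    intro i
    have := PiLp.norm_apply_le y i
    rw [Real.norm_eq_abs] at this
    exact this.trans hyn
  have hcub := uas_cub hSn (hc ⟨0, by omega⟩) (hc ⟨1, by omega⟩) (hcy ⟨0, by omega⟩)
    (hcy ⟨1, by omega⟩)
  have hYv : ev (Y3 n hn) v = (x ⟨0, by omega⟩ + y ⟨0, by omega⟩) ^ 3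
      - 3 * (x ⟨0, by omega⟩ + y ⟨0, by omega⟩) * (x ⟨1, by omega⟩ + y ⟨1, by omega⟩) ^ 2 := by
    rw [uaA_ev, hv, PiLp.add_apply, PiLp.add_apply]
  rw [← hYv, ← uaA_ev hn x] at hcub
  obtain ⟨hc1, hc2⟩ := hcub
  have hun : ev (Y3 n hn) (un v) = (r ^ 3)⁻¹ * ev (Y3 n hn) v := by
    unfold un
    rw [uas_Y3_hom, ← hr, inv_pow]
  have hF : uasF hn S x = p * ev (Y3 n hn) x := rfl
  rw [hun, hF]
  have e1 : (r ^ 3)⁻¹ * ev (Y3 n hn) v - (ev (Y3 n hn) v - 3 * (p * ev (Y3 n hn) x))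
      = ((r ^ 3)⁻¹ - (1 - 3 * p)) * ev (Y3 n hn) v
        - 3 * p * (ev (Y3 n hn) v - ev (Y3 n hn) x) := by ring
  rw [e1]
  calc |((r ^ 3)⁻¹ - (1 - 3 * p)) * ev (Y3 n hn) v
        - 3 * p * (ev (Y3 n hn) v - ev (Y3 n hn) x)|
      ≤ |((r ^ 3)⁻¹ - (1 - 3 * p)) * ev (Y3 n hn) v|
        + |3 * p * (ev (Y3 n hn) v - ev (Y3 n hn) x)| := abs_sub _ _
    _ = |(r ^ 3)⁻¹ - (1 - 3 * p)| * |ev (Y3 n hn) v|
        + 3 * |p| * |ev (Y3 n hn) v - ev (Y3 n hn) x| := by
        rw [abs_mul, abs_mul, abs_mul]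
        norm_num
    _ ≤ (102 * s ^ 2) * 14 + 3 * s * (20 * s) := by
        gcongr
    _ ≤ 2000 * s ^ 2 := by nlinarith [sq_nonneg s]

/-- The polynomial `x ↦ Y3 (A x)`, for `A` symmetric. -/
noncomputable def uasQ (hn : 2 ≤ n) (A : E n →L[ℝ] E n) : Pol n :=
  uasL (A (EuclideanSpace.single (⟨0, by omega⟩ : Fin n) (1 : ℝ))) ^ 3 -
    3 * uasL (A (EuclideanSpace.single (⟨0, by omega⟩ : Fin n) (1 : ℝ))) *
      uasL (A (EuclideanSpace.single (⟨1, by omega⟩ : Fin n) (1 : ℝ))) ^ 2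

theorem uas_Q_ev (hn : 2 ≤ n) (A : E n →L[ℝ] E n)
    (hA : ∀ x y, inner ℝ (A x) y = inner ℝ x (A y)) (x : E n) :
    ev (uasQ hn A) x = ev (Y3 n hn) (A x) := by
  have h3 : ev (3 : Pol n) x = 3 := by simp [ev]
  rw [uaA_ev, uasQ, ev_sub, ev_mul, ev_mul, h3, pow_succ, pow_two, ev_mul, ev_mul, pow_two,
    ev_mul, uas_L_ev, uas_L_ev, uas_coord A hA, uas_coord A hA]
  ring

theorem uas_Q_deg (hn : 2 ≤ n) (A : E n →L[ℝ] E n) : (uasQ hn A).totalDegree ≤ 3 := by
  have h0 := uas_L_deg (A (EuclideanSpace.single (⟨0, by omega⟩ : Fin n) (1 : ℝ)))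
  have h1 := uas_L_deg (A (EuclideanSpace.single (⟨1, by omega⟩ : Fin n) (1 : ℝ)))
  have h3 : (3 : Pol n).totalDegree = 0 := by
    have h9 : (3 : Pol n) = MvPolynomial.C 3 := (map_ofNat MvPolynomial.C 3).symm
    rw [h9, MvPolynomial.totalDegree_C]
  unfold uasQ
  refine (MvPolynomial.totalDegree_sub _ _).trans (max_le ?_ ?_)
  · refine (MvPolynomial.totalDegree_pow _ _).trans ?_
    omega
  · refine (MvPolynomial.totalDegree_mul _ _).trans ?_
    have h4 := MvPolynomial.totalDegree_mul (3 : Pol n)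
      (uasL (A (EuclideanSpace.single (⟨0, by omega⟩ : Fin n) (1 : ℝ))))
    have h5 := MvPolynomial.totalDegree_pow
      (uasL (A (EuclideanSpace.single (⟨1, by omega⟩ : Fin n) (1 : ℝ)))) 2
    omega

theorem uA_bound (hn : 2 ≤ n) (Y : SHFam n) : ∃ c : ℝ, 0 < c ∧ ∃ ρ : ℝ, 0 < ρ ∧
    ∀ A : E n ≃L[ℝ] E n, (∀ x y, inner ℝ (A x) y = inner ℝ x (A y)) →
      LinearMap.trace ℝ (E n) (A : E n →L[ℝ] E n).toLinearMap = (n : ℝ) →
      ‖(A : E n →L[ℝ] E n) - 1‖ ≤ ρ →
        c * ‖(A : E n →L[ℝ] E n) - 1‖ ^ 2 ≤ sq (uA hn A) - e3 Y (uA hn A) := by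
  have hn1 : 1 ≤ n := by omega
  obtain ⟨c, hc, hmin⟩ := uas_min hn Y
  obtain ⟨ρ, hρ0, hρ1, hρ2⟩ : ∃ ρ : ℝ, 0 < ρ ∧ ρ ≤ 1 / 2 ∧ 2 * 2000 ^ 2 * ρ ^ 2 ≤ c := by
    refine ⟨min (1 / 2) (Real.sqrt (c / (2 * 2000 ^ 2))), ?_, min_le_left _ _, ?_⟩
    · exact lt_min (by norm_num) (Real.sqrt_pos.mpr (by positivity))
    · have h1 : min (1 / 2) (Real.sqrt (c / (2 * 2000 ^ 2))) ≤ Real.sqrt (c / (2 * 2000 ^ 2)) :=
        min_le_right _ _
      have h2 : 0 ≤ min (1 / 2) (Real.sqrt (c / (2 * 2000 ^ 2))) :=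
        le_min (by norm_num) (Real.sqrt_nonneg _)
      have h3 := pow_le_pow_left₀ h2 h1 2
      rw [Real.sq_sqrt (by positivity)] at h3
      calc 2 * 2000 ^ 2 * (min (1 / 2) (Real.sqrt (c / (2 * 2000 ^ 2)))) ^ 2
          ≤ 2 * 2000 ^ 2 * (c / (2 * 2000 ^ 2)) := by gcongr
        _ = c := by field_simp
  refine ⟨c, hc, ρ, hρ0, ?_⟩
  intro A hA htr hAρ
  set S : E n →L[ℝ] E n := (A : E n →L[ℝ] E n) - 1 with hSdef
  have hSx : ∀ x, S x = A x - x := by
    intro x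
    rw [hSdef]
    rfl
  have hS : ∀ x y, inner ℝ (S x) y = inner ℝ x (S y) := by
    intro x y
    rw [hSx, hSx, inner_sub_left, inner_sub_right, hA]
  have hStr : LinearMap.trace ℝ (E n) S.toLinearMap = 0 := by
    have h1 : S.toLinearMap = (A : E n →L[ℝ] E n).toLinearMap - LinearMap.id := by
      ext1 x
      exact hSx x
    rw [h1, map_sub, htr, LinearMap.trace_id]
    simp
  have h1 := hmin S hS hStr
  have huc : ContinuousOn (uA hn A) (sphere 0 1) :=
    (uA_H0 hn A).cont.mono (fun x hx h => by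
      rw [mem_singleton_iff] at h
      subst h
      simp at hx)
  set P := prP Y (uA hn A) 3 with hP
  have hdist := uas_dist hn1 Y huc
  rw [← hP] at hdist
  have hQdeg : ((1 / 3 : ℝ) • (uasQ hn (A : E n →L[ℝ] E n) - P)).totalDegree ≤ 3 :=
    (MvPolynomial.totalDegree_smul_le _ _).trans
      ((MvPolynomial.totalDegree_sub _ _).trans (max_le (uas_Q_deg hn _) (pr_deg Y _ 3)))
  have h2 := uas_best hn1 Y (uas_F_cont hn S).continuousOn _ hQdeg
  have hFc := (uas_F_cont hn S).continuousOn (s := sphere (0 : E n) 1)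
  have hPc := uas_evc P
  have h3 : sq (fun x => uasF hn S x
      - ev ((1 / 3 : ℝ) • (uasQ hn (A : E n →L[ℝ] E n) - P)) x)
      ≤ (2 / 9) * sq (fun x => uA hn A x - ev P x) + (2 / 9) * (2000 * ‖S‖ ^ 2) ^ 2 := by
    have hc1 : ContinuousOn (fun x => (uasF hn S x
        - ev ((1 / 3 : ℝ) • (uasQ hn (A : E n →L[ℝ] E n) - P)) x) ^ 2) (sphere 0 1) :=
      (hFc.sub (uas_evc _)).pow 2
    have hc2 : ContinuousOn (fun x => (2 / 9) * (uA hn A x - ev P x) ^ 2
        + (2 / 9) * (2000 * ‖S‖ ^ 2) ^ 2) (sphere 0 1) :=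
      (continuousOn_const.mul ((huc.sub hPc).pow 2)).add continuousOn_const
    have h4 := int_mono hn1 hc1 hc2 (fun x hx => by
      have h5 := uas_taylor hn S (hAρ.trans hρ1) x hx
      have h6 : x + S x = A x := by
        rw [hSx]
        abel
      rw [h6] at h5
      have h7 : ev (Y3 n hn) (un (A x)) = uA hn A x := rfl
      have h8 : ev (Y3 n hn) (A x) = ev (uasQ hn (A : E n →L[ℝ] E n)) x :=
        (uas_Q_ev hn (A : E n →L[ℝ] E n) hA x).symm
      rw [h7, h8] at h5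
      rw [ev_smul, ev_sub]
      set q := ev (uasQ hn (A : E n →L[ℝ] E n)) x
      set u := uA hn A x
      set f := uasF hn S x
      set z := ev P x
      set C := 2000 * ‖S‖ ^ 2
      have h9 : (u - (q - 3 * f)) ^ 2 ≤ C ^ 2 := by
        rw [← sq_abs]
        exact pow_le_pow_left₀ (abs_nonneg _) h5 2
      nlinarith [sq_nonneg ((u - z) + (u - (q - 3 * f)))])
    have h5 : ∫ x, ((2 / 9) * (uA hn A x - ev P x) ^ 2
        + (2 / 9) * (2000 * ‖S‖ ^ 2) ^ 2) ∂(mu n)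
        = (2 / 9) * sq (fun x => uA hn A x - ev P x) + (2 / 9) * (2000 * ‖S‖ ^ 2) ^ 2 := by
      have i1 : Integrable (fun x => (uA hn A x - ev P x) ^ 2) (mu n) :=
        integrable_mu hn1 ((huc.sub hPc).pow 2)
      have i2 : Integrable (fun x => (2 / 9) * (uA hn A x - ev P x) ^ 2) (mu n) :=
        i1.const_mul _
      have i3 : Integrable (fun _ : E n => (2 / 9) * (2000 * ‖S‖ ^ 2) ^ 2) (mu n) :=
        integrable_mu hn1 continuousOn_const
      rw [integral_add i2 i3, integral_const_mul, int_const hn1]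
      rfl
    rw [h5] at h4
    exact h4
  have hS0 : 0 ≤ ‖S‖ := norm_nonneg _
  have h6 : ‖S‖ ^ 2 ≤ ρ ^ 2 := pow_le_pow_left₀ hS0 hAρ 2
  have h7 : 0 ≤ ‖S‖ ^ 2 := sq_nonneg _
  have h8 : 2 * (2000 * ‖S‖ ^ 2) ^ 2 ≤ c * ‖S‖ ^ 2 := by
    have h9 : 2 * (2000 * ‖S‖ ^ 2) ^ 2 = (2 * 2000 ^ 2 * ‖S‖ ^ 2) * ‖S‖ ^ 2 := by ring
    rw [h9]
    refine mul_le_mul_of_nonneg_right ?_ h7
    linarith
  have h9 := h1.trans (h2.trans h3)
  rw [hdist]
  set D := sq (fun x => uA hn A x - ev P x)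
  have h10 : 0 ≤ D := integral_nonneg (fun x => sq_nonneg _)
  linarith

end Pool.Agent.H35.CA
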