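import Pool.Agent.H35.CA.U2
import Pool.Agent.H35.CA.Sli
import Pool.Agent.H35.CA.Uas
import Pool.Agent.H35.CA.Cpt
import Pool.Agent.H35.CA.ShE

/-!
# Job MTA: near-maximisers of the model functional

`near_max`.  Below `2 C_L` stands for the given constant `C1`.  Let `δ0, ε0, C_U` be those of `U2`,
`C_S` that of `slice`, `c_A, ρ_A` those of `uA_bound`.  Fix small `δ^` (depending on all of them,
`δ^ ≤ min (δ0, 1/4)`, `C_S δ^ ≤ 1/2`), then `ρ ≤ min (ρ_A/4, 1/8)` with `4 ρ ≤ δ^/2`, then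
`δ ≤ δ^/8` from `slice` for `ρ`.
Let `h` be `SL`, `Near δ`, and `MM ψ h z ≥ 1 - 2 C_L ε³` for `‖z‖ ≤ 1/4`, with `ψ = psi ε (uA id)`.
Take `A, z` from `slice`, `g x = h (A x) - ⟨z,x⟩`, `φ = g - 1`, `u = uA A`.  `g` is `SL`,
`Near δ^`.  By `MM_lin` (with the vector `z' = A⁻¹ z`, `‖z'‖ ≤ 1/4`) and `psi_uA`,
`MM (psi ε u) g 0 = MM ψ h z' ≥ 1 - 2 C_L ε³`.
Let `θ ≤ δ^` be with `Near θ g`.  Put `q = ev (prP Y φ 2)`, `r = φ - q`, `w² = sq φ - e3 Y φ`,
`X² = sq (r + ε u/(n+3))`.  `q` is even on the sphere (its degree 1 part vanishes, because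
`∫ φ ⟨y,x⟩ = 0`), so `∫ u q = 0` and `∫ u φ = ∫ u r`.  `U2` with the identity
`n(n+3)/2 X² = n(n+3)/2 sq r + n ε ∫ u r + n/(2(n+3)) ε² sq u` gives
`n(n+3)/2 X² + w² ≤ n² e2 + C_U (ε + θ) sq φ + (C_U + 2 C_L) ε³`, `e2 = sq q ≤ C_S θ sq φ`.
Then `sq φ ≤ 2 sq r ≤ 4 X² + 4 ε²` (`sq u ≤ 1`), so for `δ^`, `ε` small
`X² + w² ≤ C (ε + θ) ε²` and `sq φ ≤ C ε²`.
By `l2_sup`, `θ` may be taken as small as desired when `ε → 0`.
The function `ε u/(n+3) = (r + ε u/(n+3)) - r` has distance to polynomials of degree `≤ 3` at most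
`X + w` (`sq f - e3 Y f` is the squared distance), so
`sq u - e3 Y u ≤ C (ε + θ)`.
Write `A = c B`, `c = trace A / n` close to 1, `B` symmetric with trace
`n`, `‖B - 1‖ ≤ ρ_A`; `uA A = uA B` (`uA_scale`), so `c_A ‖B - 1‖² ≤ C (ε + θ)`: `B` is close to
the identity for small `ε`.
With `l = c`: `c * (h x - ⟨z', x⟩) = c * g (A⁻¹ x) = g (B⁻¹ x)`, within
`θ (1 + small) + 2 ‖B - 1‖ ≤ δ/4` of `1` on the sphere, for `ε` small (depending on `δ`).
-/

namespace Pool.Agent.H35.CA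

open MeasureTheory Metric Set

variable {n : ℕ}

/-- Parity of homogeneous polynomials. -/
theorem mta_parity (P : Pol n) {k : ℕ} (hP : P.IsHomogeneous k) (x : E n) :
    ev P (-x) = (-1) ^ k * ev P x := by
  unfold ev
  rw [MvPolynomial.eval_eq', MvPolynomial.eval_eq', Finset.mul_sum]
  apply Finset.sum_congr rfl
  intro d hd
  have h1 : ∑ i, d i = k := by
    have h2 := hP.degree_eq_sum_deg_support hd
    rw [h2]
    symm
    apply Finset.sum_subset (Finset.subset_univ _)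
    intro i _ hi
    exact Finsupp.notMem_support_iff.1 hi
  have h3 : ∏ i, ((-x) i) ^ d i = (-1) ^ k * ∏ i, (x i) ^ d i := by
    rw [← h1, ← Finset.prod_pow_eq_pow_sum, ← Finset.prod_mul_distrib]
    apply Finset.prod_congr rfl
    intro i _
    rw [← mul_pow]
    simp
  rw [h3]
  ring

/-- Homogeneous polynomials of degree 1 are linear. -/
theorem mta_linear (P : Pol n) (hP : P.IsHomogeneous 1) :
    ∃ b : E n, ∀ x, ev P x = inner ℝ b x := by
  have h1 : P ∈ Submodule.span ℝ (Set.range (MvPolynomial.X : Fin n → Pol n)) := by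
    rw [← MvPolynomial.homogeneousSubmodule_one_eq_span_X]
    exact hP
  clear hP
  induction h1 using Submodule.span_induction with
  | mem p hp =>
    obtain ⟨i, rfl⟩ := hp
    refine ⟨EuclideanSpace.single i 1, fun x => ?_⟩
    unfold ev
    rw [MvPolynomial.eval_X, EuclideanSpace.inner_single_left]
    simp
  | zero => exact ⟨0, fun x => by simp [ev]⟩
  | add p q _ _ hp hq =>
    obtain ⟨b, hb⟩ := hp
    obtain ⟨c, hc⟩ := hq
    exact ⟨b + c, fun x => by rw [ev_add, hb, hc, inner_add_left]⟩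
  | smul a p _ hp =>
    obtain ⟨b, hb⟩ := hp
    exact ⟨a • b, fun x => by rw [ev_smul, hb, real_inner_smul_left]⟩

theorem mta_evc (P : Pol n) : ContinuousOn (ev P) (sphere (0 : E n) 1) :=
  (ev_smooth P).continuous.continuousOn

theorem mta_comp_cont {K : ℕ} (i : ℕ) (Q : Pol n) (_h : i ≤ K) :
    ContinuousOn (ev (MvPolynomial.homogeneousComponent i Q)) (sphere (0 : E n) 1) :=
  mta_evc _

/-- If `φ` is orthogonal to linear functions and `u` is odd, then `u` is orthogonal to the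
projection of `φ` to polynomials of degree at most 2. -/
theorem mta_even (hn : 1 ≤ n) (Y : SHFam n) {φ u : E n → ℝ}
    (hφ : ContinuousOn φ (sphere 0 1))
    (hodd : ∀ x, u (-x) = - u x) (h1 : ∀ y : E n, ∫ x, φ x * inner ℝ y x ∂(mu n) = 0) :
    ∫ x, u x * ev (prP Y φ 2) x ∂(mu n) = 0 := by
  set Q := prP Y φ 2 with hQ
  have hdeg : Q.totalDegree ≤ 2 := pr_deg Y φ 2
  set Q0 := MvPolynomial.homogeneousComponent 0 Q with hQ0
  set Q1 := MvPolynomial.homogeneousComponent 1 Q with hQ1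
  set Q2 := MvPolynomial.homogeneousComponent 2 Q with hQ2
  have hsum : Q = Q0 + Q1 + Q2 := by
    have h2 := MvPolynomial.sum_homogeneousComponent Q
    have h3 : ∑ i ∈ Finset.range 3, MvPolynomial.homogeneousComponent i Q = Q := by
      have h4 : ∑ i ∈ Finset.range (Q.totalDegree + 1), MvPolynomial.homogeneousComponent i Q
          = ∑ i ∈ Finset.range 3, MvPolynomial.homogeneousComponent i Q := by
        apply Finset.sum_subset
        · intro i hi
          rw [Finset.mem_range] at hi ⊢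
          omega
        · intro i _ hi
          apply MvPolynomial.homogeneousComponent_eq_zero
          rw [Finset.mem_range] at hi
          omega
      rw [← h4, h2]
    rw [Finset.sum_range_succ, Finset.sum_range_succ, Finset.sum_range_one] at h3
    exact h3.symm
  have p0 : ∀ x, ev Q0 (-x) = ev Q0 x := by
    intro x
    have := mta_parity Q0 (MvPolynomial.homogeneousComponent_isHomogeneous 0 Q) x
    rw [this]; norm_num
  have p1 : ∀ x, ev Q1 (-x) = - ev Q1 x := by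
    intro x
    have := mta_parity Q1 (MvPolynomial.homogeneousComponent_isHomogeneous 1 Q) x
    rw [this]; norm_num
  have p2 : ∀ x, ev Q2 (-x) = ev Q2 x := by
    intro x
    have := mta_parity Q2 (MvPolynomial.homogeneousComponent_isHomogeneous 2 Q) x
    rw [this]; norm_num
  have hev : ∀ x, ev Q x = ev Q0 x + ev Q1 x + ev Q2 x := by
    intro x
    conv_lhs => rw [hsum]
    rw [ev_add, ev_add]
  obtain ⟨b, hb⟩ := mta_linear Q1 (MvPolynomial.homogeneousComponent_isHomogeneous 1 Q)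
  have hI : ∀ {F : E n → ℝ}, ContinuousOn F (sphere 0 1) → Integrable F (mu n) :=
    fun h => integrable_mu hn h
  have c0 := mta_evc Q0
  have c1 := mta_evc Q1
  have c2 := mta_evc Q2
  have cQ := mta_evc Q
  -- the linear part vanishes
  have hperp := pr_perp hn Y hφ 2 Q1 (le_trans
    (MvPolynomial.IsHomogeneous.totalDegree_le
      (MvPolynomial.homogeneousComponent_isHomogeneous 1 Q)) (by norm_num))
  rw [← hQ] at hperp
  have hφ1 : ∫ x, φ x * ev Q1 x ∂(mu n) = 0 := by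
    have : (fun x => φ x * ev Q1 x) = fun x => φ x * inner ℝ b x := by
      funext x; rw [hb]
    rw [this]; exact h1 b
  have hQQ1 : ∫ x, ev Q x * ev Q1 x ∂(mu n) = 0 := by
    have e1 : ∫ x, (φ x - ev Q x) * ev Q1 x ∂(mu n)
        = (∫ x, φ x * ev Q1 x ∂(mu n)) - ∫ x, ev Q x * ev Q1 x ∂(mu n) := by
      have i1 : Integrable (fun x => φ x * ev Q1 x) (mu n) := hI (hφ.mul c1)
      have i2 : Integrable (fun x => ev Q x * ev Q1 x) (mu n) := hI (cQ.mul c1)
      rw [← integral_sub i1 i2]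
      apply integral_congr_ae
      filter_upwards with x
      ring
    rw [hperp, hφ1] at e1
    linarith
  have hodd1 : ∫ x, (ev Q0 x + ev Q2 x) * ev Q1 x ∂(mu n) = 0 := by
    apply int_odd hn
    intro x
    rw [p0, p1, p2]; ring
  have hsq : ∫ x, ev Q1 x * ev Q1 x ∂(mu n) = 0 := by
    have e1 : ∫ x, ev Q x * ev Q1 x ∂(mu n)
        = (∫ x, (ev Q0 x + ev Q2 x) * ev Q1 x ∂(mu n)) + ∫ x, ev Q1 x * ev Q1 x ∂(mu n) := by
      have i1 : Integrable (fun x => (ev Q0 x + ev Q2 x) * ev Q1 x) (mu n) :=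
        hI ((c0.add c2).mul c1)
      have i2 : Integrable (fun x => ev Q1 x * ev Q1 x) (mu n) := hI (c1.mul c1)
      rw [← integral_add i1 i2]
      apply integral_congr_ae
      filter_upwards with x
      rw [hev]; ring
    rw [hQQ1, hodd1] at e1
    linarith
  have hz : ∀ x, ‖x‖ = 1 → ev Q1 x * ev Q1 x = 0 :=
    mu_full hn (c1.mul c1) (fun x _ => mul_self_nonneg _) hsq
  have hodd2 : ∫ x, u x * (ev Q0 x + ev Q2 x) ∂(mu n) = 0 := by
    apply int_odd hn
    intro x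
    rw [p0, p2, hodd]; ring
  rw [← hodd2]
  apply int_congr hn
  intro x hx
  have : ev Q1 x = 0 := mul_self_eq_zero.1 (hz x hx)
  rw [hev, this]; ring

/-- Best approximation. -/
theorem mta_best (hn : 1 ≤ n) (Y : SHFam n) {f : E n → ℝ}
    (hf : ContinuousOn f (sphere 0 1)) (P : Pol n) (hP : P.totalDegree ≤ 3) :
    sq f - e3 Y f ≤ sq (fun x => f x - ev P x) := by
  have h1 := sq_pr hn Y hf 3
  unfold e3
  rw [← h1]
  set R := prP Y f 3 with hR
  have cR := mta_evc R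
  have cP := mta_evc P
  have hI : ∀ {F : E n → ℝ}, ContinuousOn F (sphere 0 1) → Integrable F (mu n) :=
    fun h => integrable_mu hn h
  have hperp := pr_perp hn Y hf 3 (R - P) (le_trans (MvPolynomial.totalDegree_sub _ _)
    (max_le (pr_deg Y f 3) hP))
  rw [← hR] at hperp
  have e1 : sq (fun x => f x - ev P x) = sq (fun x => f x - ev R x)
      + 2 * (∫ x, (f x - ev R x) * ev (R - P) x ∂(mu n)) + sq (fun x => ev (R - P) x) := by
    unfold sq
    have a1 : Integrable (fun x => (f x - ev R x) ^ 2) (mu n) := hI ((hf.sub cR).pow 2)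
    have a2 : Integrable (fun x => (f x - ev R x) * ev (R - P) x) (mu n) :=
      hI ((hf.sub cR).mul (mta_evc _))
    have a3 : Integrable (fun x => ev (R - P) x ^ 2) (mu n) := hI ((mta_evc _).pow 2)
    have a4 : Integrable (fun x => (f x - ev R x) ^ 2 + 2 * ((f x - ev R x) * ev (R - P) x))
      (mu n) := a1.add (a2.const_mul 2)
    rw [← integral_const_mul, ← integral_add a1 (a2.const_mul 2), ← integral_add a4 a3]
    apply integral_congr_ae
    filter_upwards with x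
    rw [ev_sub]; ring
  rw [e1, hperp]
  have : 0 ≤ sq (fun x => ev (R - P) x) := integral_nonneg (fun x => sq_nonneg _)
  linarith

theorem mta_sq_add (hn : 1 ≤ n) {F G : E n → ℝ} (hF : ContinuousOn F (sphere 0 1))
    (hG : ContinuousOn G (sphere 0 1)) (c : ℝ) :
    sq (fun x => F x + c * G x) = sq F + 2 * c * (∫ x, F x * G x ∂(mu n)) + c ^ 2 * sq G := by
  have hI : ∀ {F : E n → ℝ}, ContinuousOn F (sphere 0 1) → Integrable F (mu n) :=
    fun h => integrable_mu hn h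
  unfold sq
  have a1 : Integrable (fun x => F x ^ 2) (mu n) := hI (hF.pow 2)
  have a2 : Integrable (fun x => F x * G x) (mu n) := hI (hF.mul hG)
  have a3 : Integrable (fun x => G x ^ 2) (mu n) := hI (hG.pow 2)
  have a4 : Integrable (fun x => F x ^ 2 + 2 * c * (F x * G x)) (mu n) :=
    a1.add (a2.const_mul (2 * c))
  rw [← integral_const_mul, ← integral_const_mul, ← integral_add a1 (a2.const_mul (2 * c)),
    ← integral_add a4 (a3.const_mul (c ^ 2))]
  apply integral_congr_ae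
  filter_upwards with x
  ring

theorem mta_sq_sub_le (hn : 1 ≤ n) {F G : E n → ℝ} (hF : ContinuousOn F (sphere 0 1))
    (hG : ContinuousOn G (sphere 0 1)) :
    sq (fun x => F x - G x) ≤ 2 * sq F + 2 * sq G := by
  have hI : ∀ {F : E n → ℝ}, ContinuousOn F (sphere 0 1) → Integrable F (mu n) :=
    fun h => integrable_mu hn h
  unfold sq
  have a1 : Integrable (fun x => F x ^ 2) (mu n) := hI (hF.pow 2)
  have a3 : Integrable (fun x => G x ^ 2) (mu n) := hI (hG.pow 2)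
  rw [← integral_const_mul, ← integral_const_mul,
    ← integral_add (a1.const_mul 2) (a3.const_mul 2)]
  have a2 : Integrable (fun x => (F x - G x) ^ 2) (mu n) := hI ((hF.sub hG).pow 2)
  have a4 : Integrable (fun x => 2 * F x ^ 2 + 2 * G x ^ 2) (mu n) :=
    (a1.const_mul 2).add (a3.const_mul 2)
  refine integral_mono a2 a4 ?_
  intro x
  have := sq_nonneg (F x + G x)
  change (F x - G x) ^ 2 ≤ 2 * F x ^ 2 + 2 * G x ^ 2
  nlinarith

theorem mta_sq_mul (c : ℝ) (F : E n → ℝ) : sq (fun x => c * F x) = c ^ 2 * sq F := by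
  unfold sq
  rw [← integral_const_mul]
  congr 1
  funext x
  ring

theorem mta_sq_nonneg (F : E n → ℝ) : 0 ≤ sq F := integral_nonneg (fun _ => sq_nonneg _)

theorem mta_core (hn : 2 ≤ n) (Y : SHFam n) {CU CS C1 ε θ : ℝ} (hCU : 0 < CU) (hCS : 0 < CS)
    (hC1 : 0 < C1) (hε : 0 < ε) (hθ : 0 ≤ θ) {φ u : E n → ℝ}
    (hφ : ContinuousOn φ (sphere 0 1)) (hu : ContinuousOn u (sphere 0 1))
    (hodd : ∀ x, u (-x) = - u x) (hub : ∀ x, ‖x‖ = 1 → |u x| ≤ 1)
    (h1 : ∀ y : E n, ∫ x, φ x * inner ℝ y x ∂(mu n) = 0)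
    (h2 : e2 Y φ ≤ CS * θ * sq φ)
    (hU : 1 - C1 * ε ^ 3 ≤ 1 - (n : ℝ) / (2 * (n + 3)) * ε ^ 2 * sq u
        - (n : ℝ) * ε * (∫ x, u x * φ x ∂(mu n))
        - (n : ℝ) * (n + 3) / 2 * (sq φ - e2 Y φ) - (sq φ - e3 Y φ)
        + (n : ℝ) ^ 2 * e2 Y φ + CU * (ε + θ) * sq φ + CU * ε ^ 3)
    (hs1 : ((n : ℝ) ^ 2 * CS + CU + C1) * (ε + θ) ≤ 1) (hs2 : CS * θ ≤ 1 / 2) :
    sq φ ≤ 14 * ε ^ 2 ∧
      sq u - e3 Y u ≤ 6 * ((n : ℝ) + 3) ^ 2 * ((n : ℝ) ^ 2 * CS + CU + C1) * (ε + θ) := by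
  have hn1 : 1 ≤ n := by omega
  have hN : (2 : ℝ) ≤ n := by exact_mod_cast hn
  have hA : (5 : ℝ) ≤ (n : ℝ) * (n + 3) / 2 := by nlinarith
  have h25 : (2 : ℝ) ≤ ((n : ℝ) + 3) ^ 2 := by nlinarith
  set N : ℝ := (n : ℝ) with hNdef
  have hI : ∀ {F : E n → ℝ}, ContinuousOn F (sphere 0 1) → Integrable F (mu n) :=
    fun h => integrable_mu hn1 h
  set Q := prP Y φ 2 with hQ
  set P3 := prP Y φ 3 with hP3
  have cQ := mta_evc Q
  have cP := mta_evc P3
  set c : ℝ := ε / (N + 3) with hc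
  have hcpos : 0 < c := by rw [hc]; positivity
  set s := sq φ with hs
  have hs0 : 0 ≤ s := mta_sq_nonneg φ
  have hR2 : sq (fun x => φ x - ev Q x) = s - e2 Y φ := by
    have := sq_pr hn1 Y hφ 2
    unfold e2
    exact this
  have hw2 : sq (fun x => φ x - ev P3 x) = s - e3 Y φ := by
    have := sq_pr hn1 Y hφ 3
    unfold e3
    exact this
  have hq : ∫ x, u x * ev Q x ∂(mu n) = 0 := mta_even hn1 Y hφ hodd h1
  have hur : ∫ x, (φ x - ev Q x) * u x ∂(mu n) = ∫ x, u x * φ x ∂(mu n) := by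
    have i1 : Integrable (fun x => u x * φ x) (mu n) := hI (hu.mul hφ)
    have i2 : Integrable (fun x => u x * ev Q x) (mu n) := hI (hu.mul cQ)
    have e1 : ∫ x, (φ x - ev Q x) * u x ∂(mu n)
        = (∫ x, u x * φ x ∂(mu n)) - ∫ x, u x * ev Q x ∂(mu n) := by
      rw [← integral_sub i1 i2]
      apply integral_congr_ae
      filter_upwards with x
      ring
    rw [e1, hq, sub_zero]
  have cr : ContinuousOn (fun x => φ x - ev Q x) (sphere (0 : E n) 1) := hφ.sub cQ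
  have cX : ContinuousOn (fun x => (φ x - ev Q x) + c * u x) (sphere (0 : E n) 1) :=
    cr.add (continuousOn_const.mul hu)
  set X2 := sq (fun x => (φ x - ev Q x) + c * u x) with hX2
  have hX2e : X2 = (s - e2 Y φ) + 2 * c * (∫ x, u x * φ x ∂(mu n)) + c ^ 2 * sq u := by
    rw [hX2, mta_sq_add hn1 cr hu c, hR2, hur]
  have hX0 : 0 ≤ X2 := mta_sq_nonneg _
  have hw0 : 0 ≤ s - e3 Y φ := by rw [← hw2]; exact mta_sq_nonneg _
  have hsu1 : sq u ≤ 1 := by
    unfold sq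
    rw [← int_const hn1 (1 : ℝ)]
    refine int_mono hn1 (F := fun x => u x ^ 2) (G := fun _ => 1) (hu.pow 2)
      continuousOn_const ?_
    intro x hx
    rw [← sq_abs]
    exact pow_le_one₀ (abs_nonneg _) (hub x hx)
  have hsu0 : 0 ≤ sq u := mta_sq_nonneg u
  set K1 : ℝ := N ^ 2 * CS + CU + C1 with hK1
  have hK1pos : 0 < K1 := by rw [hK1]; positivity
  have h20 : 0 ≤ e2 Y φ := by
    unfold e2
    exact Finset.sum_nonneg (fun k _ => en_nonneg Y φ k)
  -- main inequality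
  have hmain : N * (N + 3) / 2 * X2 + (s - e3 Y φ)
      ≤ N ^ 2 * e2 Y φ + CU * (ε + θ) * s + (CU + C1) * ε ^ 3 := by
    have e1 : N * (N + 3) / 2 * X2 = N * (N + 3) / 2 * (s - e2 Y φ)
        + N * ε * (∫ x, u x * φ x ∂(mu n)) + N / (2 * (N + 3)) * ε ^ 2 * sq u := by
      rw [hX2e, hc]
      field_simp
    rw [e1]
    linarith
  have hb1 : N ^ 2 * e2 Y φ ≤ N ^ 2 * (CS * θ * s) :=
    mul_le_mul_of_nonneg_left h2 (by positivity)
  have hε3 : ε ^ 3 = ε * ε ^ 2 := by ring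
  have hmain2 : N * (N + 3) / 2 * X2 + (s - e3 Y φ) ≤ K1 * (ε + θ) * s + K1 * (ε + θ) * ε ^ 2 := by
    have t1 : N ^ 2 * (CS * θ * s) ≤ N ^ 2 * CS * (ε + θ) * s := by
      have : N ^ 2 * (CS * θ * s) = N ^ 2 * CS * θ * s := by ring
      rw [this]
      gcongr
      linarith
    have t2 : (CU + C1) * ε ^ 3 ≤ K1 * (ε + θ) * ε ^ 2 := by
      rw [hε3, ← mul_assoc]
      gcongr
      · rw [hK1]
        have : 0 ≤ N ^ 2 * CS := by positivity
        linarith
      · linarith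
    have t3 : 0 ≤ C1 * (ε + θ) * s := by positivity
    have t4 : K1 * (ε + θ) * s = N ^ 2 * CS * (ε + θ) * s + CU * (ε + θ) * s
        + C1 * (ε + θ) * s := by rw [hK1]; ring
    linarith
  -- s in terms of X2
  have hrle : s - e2 Y φ ≤ 2 * X2 + ε ^ 2 := by
    have e1 : sq (fun x => ((φ x - ev Q x) + c * u x) - c * u x) ≤ 2 * X2
        + 2 * sq (fun x => c * u x) := mta_sq_sub_le hn1 cX (continuousOn_const.mul hu)
    have e2' : (fun x => ((φ x - ev Q x) + c * u x) - c * u x) = fun x => φ x - ev Q x := by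
      funext x; ring
    rw [e2', hR2, mta_sq_mul] at e1
    have e3' : 2 * (c ^ 2 * sq u) ≤ ε ^ 2 := by
      have hc2 : 2 * c ^ 2 ≤ ε ^ 2 := by
        rw [hc, div_pow, mul_div_assoc', div_le_iff₀ (by positivity)]
        have h26 := mul_le_mul_of_nonneg_left h25 (sq_nonneg ε)
        linarith
      calc 2 * (c ^ 2 * sq u) = 2 * c ^ 2 * sq u := by ring
        _ ≤ 2 * c ^ 2 * 1 := by gcongr
        _ ≤ ε ^ 2 := by linarith
    linarith
  have hsle : s ≤ 4 * X2 + 2 * ε ^ 2 := by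
    have : e2 Y φ ≤ 1 / 2 * s := le_trans h2 (mul_le_mul_of_nonneg_right hs2 hs0)
    linarith
  set k : ℝ := K1 * (ε + θ) with hk
  have hk0 : 0 ≤ k := by rw [hk]; positivity
  have hfin : X2 + (s - e3 Y φ) ≤ 3 * k * ε ^ 2 := by
    have t1 : 5 * X2 ≤ N * (N + 3) / 2 * X2 := mul_le_mul_of_nonneg_right hA hX0
    have t2 : k * s ≤ k * (4 * X2 + 2 * ε ^ 2) := mul_le_mul_of_nonneg_left hsle hk0
    have t3 : k * (4 * X2) ≤ 1 * (4 * X2) :=
      mul_le_mul_of_nonneg_right hs1 (by positivity)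
    have t4 : k * (4 * X2 + 2 * ε ^ 2) = k * (4 * X2) + 2 * (k * ε ^ 2) := by ring
    have t5 : 3 * k * ε ^ 2 = 3 * (k * ε ^ 2) := by ring
    rw [t5]
    linarith
  constructor
  · have t1 : X2 ≤ 3 * ε ^ 2 := by
      have : 3 * k * ε ^ 2 ≤ 3 * 1 * ε ^ 2 := by gcongr
      linarith
    linarith
  · -- distance of u to cubics
    have hPdeg : (c⁻¹ • (Q - P3)).totalDegree ≤ 3 := by
      refine le_trans (MvPolynomial.totalDegree_smul_le _ _) ?_
      refine le_trans (MvPolynomial.totalDegree_sub _ _) ?_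
      exact max_le (le_trans (pr_deg Y φ 2) (by norm_num)) (pr_deg Y φ 3)
    refine le_trans (mta_best hn1 Y hu _ hPdeg) ?_
    have e1 : (fun x => u x - ev (c⁻¹ • (Q - P3)) x)
        = fun x => c⁻¹ * (((φ x - ev Q x) + c * u x) - (φ x - ev P3 x)) := by
      funext x
      rw [ev_smul, ev_sub]
      field_simp
      ring
    rw [e1, mta_sq_mul]
    have e2' : sq (fun x => ((φ x - ev Q x) + c * u x) - (φ x - ev P3 x))
        ≤ 2 * X2 + 2 * (s - e3 Y φ) := by
      rw [← hw2]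
      exact mta_sq_sub_le hn1 cX (hφ.sub cP)
    calc c⁻¹ ^ 2 * sq (fun x => ((φ x - ev Q x) + c * u x) - (φ x - ev P3 x))
        ≤ c⁻¹ ^ 2 * (2 * X2 + 2 * (s - e3 Y φ)) := by gcongr
      _ ≤ c⁻¹ ^ 2 * (6 * k * ε ^ 2) := by
          gcongr
          linarith
      _ = 6 * (N + 3) ^ 2 * K1 * (ε + θ) := by
          rw [hc, hk]
          field_simp

theorem mta_trace (S : E n →L[ℝ] E n) :
    |LinearMap.trace ℝ (E n) S.toLinearMap| ≤ (n : ℝ) * ‖S‖ := by
  rw [LinearMap.trace_eq_sum_inner S.toLinearMap (EuclideanSpace.basisFun (Fin n) ℝ)]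
  refine le_trans (Finset.abs_sum_le_sum_abs _ _) ?_
  have h1 : ∀ i ∈ (Finset.univ : Finset (Fin n)),
      |inner ℝ ((EuclideanSpace.basisFun (Fin n) ℝ) i)
        (S.toLinearMap ((EuclideanSpace.basisFun (Fin n) ℝ) i))| ≤ ‖S‖ := by
    intro i _
    refine le_trans (abs_real_inner_le_norm _ _) ?_
    have h2 : ‖(EuclideanSpace.basisFun (Fin n) ℝ) i‖ = 1 :=
      (EuclideanSpace.basisFun (Fin n) ℝ).norm_eq_one i
    rw [h2, one_mul]
    have h3 := S.le_opNorm ((EuclideanSpace.basisFun (Fin n) ℝ) i)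
    rw [h2, mul_one] at h3
    exact h3
  refine le_trans (Finset.sum_le_sum h1) ?_
  simp

/-- The scaling of a continuous linear equivalence. -/
theorem mta_scale (A : E n ≃L[ℝ] E n) {c : ℝ} (hc : c ≠ 0) :
    ∃ B : E n ≃L[ℝ] E n, (∀ x, B x = c • A x) ∧ (∀ x, B.symm x = c⁻¹ • A.symm x) ∧
      (B : E n →L[ℝ] E n) = c • (A : E n →L[ℝ] E n) := by
  refine ⟨A.trans (ContinuousLinearEquiv.smulLeft (Units.mk0 c hc)), ?_, ?_, ?_⟩
  · intro x
    rfl
  · intro x
    rw [ContinuousLinearEquiv.symm_trans_apply]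
    have : (ContinuousLinearEquiv.smulLeft (R₁ := ℝ) (M₁ := E n) (Units.mk0 c hc)).symm x
        = c⁻¹ • x := rfl
    rw [this, map_smul]
  · ext1 x
    rfl

/-- Normalisation of the trace. -/
theorem mta_norm (hn : 1 ≤ n) (A : E n ≃L[ℝ] E n)
    (hAs : ∀ x y, inner ℝ (A x) y = inner ℝ x (A y)) {ρ : ℝ} (hρ : ρ ≤ 1 / 8)
    (hA1 : ‖(A : E n →L[ℝ] E n) - 1‖ ≤ ρ) :
    ∃ c : ℝ, 0 < c ∧ ∃ B : E n ≃L[ℝ] E n, (∀ x, B x = c⁻¹ • A x) ∧
      (∀ x, B.symm x = c • A.symm x) ∧ (∀ x y, inner ℝ (B x) y = inner ℝ x (B y)) ∧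
      LinearMap.trace ℝ (E n) (B : E n →L[ℝ] E n).toLinearMap = (n : ℝ) ∧
      ‖(B : E n →L[ℝ] E n) - 1‖ ≤ 4 * ρ := by
  have hNpos : (0 : ℝ) < n := by exact_mod_cast (by omega : 0 < n)
  have hρ0 : 0 ≤ ρ := le_trans (norm_nonneg _) hA1
  set c : ℝ := LinearMap.trace ℝ (E n) (A : E n →L[ℝ] E n).toLinearMap / n with hc
  have hc1 : |c - 1| ≤ ρ := by
    have e1 := mta_trace ((A : E n →L[ℝ] E n) - 1)
    have e2 : LinearMap.trace ℝ (E n) ((A : E n →L[ℝ] E n) - 1).toLinearMap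
        = LinearMap.trace ℝ (E n) (A : E n →L[ℝ] E n).toLinearMap - n := by
      have : ((A : E n →L[ℝ] E n) - 1).toLinearMap
          = (A : E n →L[ℝ] E n).toLinearMap - 1 := rfl
      rw [this, map_sub]
      congr 1
      rw [LinearMap.trace_one, finrank_euclideanSpace_fin]
    rw [e2] at e1
    have e3 : c - 1 = (LinearMap.trace ℝ (E n) (A : E n →L[ℝ] E n).toLinearMap - n) / n := by
      rw [hc]; field_simp
    rw [e3, abs_div, abs_of_pos hNpos, div_le_iff₀ hNpos]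
    calc _ ≤ (n : ℝ) * ‖(A : E n →L[ℝ] E n) - 1‖ := e1
      _ ≤ (n : ℝ) * ρ := mul_le_mul_of_nonneg_left hA1 hNpos.le
      _ = ρ * n := mul_comm _ _
  have hc2 := abs_le.1 hc1
  have hcpos : 0 < c := by linarith
  have hcinv : c⁻¹ ≤ 2 := by
    rw [inv_le_comm₀ hcpos (by norm_num)]
    linarith
  obtain ⟨B, hB1, hB2, hB3⟩ := mta_scale A (inv_pos.2 hcpos).ne'
  refine ⟨c, hcpos, B, hB1, ?_, ?_, ?_, ?_⟩
  · intro x
    rw [hB2, inv_inv]
  · intro x y
    rw [hB1, hB1, real_inner_smul_left, real_inner_smul_right, hAs]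
  · have : (B : E n →L[ℝ] E n).toLinearMap = c⁻¹ • (A : E n →L[ℝ] E n).toLinearMap := by
      rw [hB3]; rfl
    rw [this, map_smul, smul_eq_mul]
    have e1 : LinearMap.trace ℝ (E n) (A : E n →L[ℝ] E n).toLinearMap = c * n := by
      rw [hc]; field_simp
    rw [e1]
    field_simp
  · have e1 : (B : E n →L[ℝ] E n) - 1 = c⁻¹ • (((A : E n →L[ℝ] E n) - 1) - (c - 1) • 1) := by
      rw [hB3]
      ext1 x
      change c⁻¹ • A x - x = c⁻¹ • ((A x - x) - (c - 1) • x)
      have e2 : c⁻¹ • ((A x - x) - (c - 1) • x) = c⁻¹ • A x - (c⁻¹ * c) • x := by module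
      rw [e2, inv_mul_cancel₀ hcpos.ne', one_smul]
    rw [e1, norm_smul, norm_inv, Real.norm_of_nonneg hcpos.le]
    have e2 : ‖((A : E n →L[ℝ] E n) - 1) - (c - 1) • (1 : E n →L[ℝ] E n)‖ ≤ 2 * ρ := by
      refine le_trans (norm_sub_le _ _) ?_
      have e3 : ‖(c - 1) • (1 : E n →L[ℝ] E n)‖ ≤ ρ := by
        rw [norm_smul, Real.norm_eq_abs]
        calc |c - 1| * ‖(1 : E n →L[ℝ] E n)‖ ≤ ρ * 1 := by
              apply mul_le_mul hc1 _ (norm_nonneg _) hρ0
              exact ContinuousLinearMap.norm_id_le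
          _ = ρ := mul_one ρ
      linarith
    calc c⁻¹ * ‖((A : E n →L[ℝ] E n) - 1) - (c - 1) • (1 : E n →L[ℝ] E n)‖
        ≤ 2 * (2 * ρ) := mul_le_mul hcinv e2 (norm_nonneg _) (by norm_num)
      _ = 4 * ρ := by ring

/-- The final closeness estimate. -/
theorem mta_concl {h : E n → ℝ} (A B : E n ≃L[ℝ] E n) {z : E n} {c θ β δ : ℝ}
    (hAs : ∀ x y, inner ℝ (A x) y = inner ℝ x (A y))
    (hB2 : ∀ x, B.symm x = c • A.symm x)
    (hgc : ∀ x, h (A (c • x)) - inner ℝ z (c • x) = c * (h (A x) - inner ℝ z x))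
    (hgb : ∀ y, (1 - θ) * ‖y‖ ≤ h (A y) - inner ℝ z y ∧ h (A y) - inner ℝ z y ≤ (1 + θ) * ‖y‖)
    (hθ0 : 0 ≤ θ) (hβ0 : 0 ≤ β) (hB : ‖(B : E n →L[ℝ] E n) - 1‖ ≤ β) (hβ : β ≤ δ / 16)
    (hθ : θ ≤ δ / 16) (hδ : δ ≤ 1) :
    Near (δ / 4) (fun x => c * h x - inner ℝ (c • A.symm z) x) := by
  intro x hx
  set y := B.symm x with hy
  have hBy : B y = x := B.apply_symm_apply x
  have e1 : c * h x - inner ℝ (c • A.symm z) x = h (A y) - inner ℝ z y := by
    have hyx : y = c • A.symm x := by rw [hy, hB2]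
    have h2 : inner ℝ (A.symm z) x = inner ℝ z (A.symm x) := by
      have := hAs (A.symm z) (A.symm x)
      rw [A.apply_symm_apply, A.apply_symm_apply] at this
      exact this.symm
    rw [hyx, hgc, real_inner_smul_left, h2, A.apply_symm_apply]
    ring
  change |c * h x - inner ℝ (c • A.symm z) x - 1| ≤ δ / 4
  rw [e1]
  have hyn : |‖y‖ - 1| ≤ β * ‖y‖ := by
    have h1 : ‖x - y‖ ≤ β * ‖y‖ := by
      have : x - y = ((B : E n →L[ℝ] E n) - 1) y := by
        rw [← hBy]; rfl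
      rw [this]
      exact le_trans (((B : E n →L[ℝ] E n) - 1).le_opNorm y)
        (mul_le_mul_of_nonneg_right hB (norm_nonneg _))
    have h2 := abs_norm_sub_norm_le x y
    rw [hx, abs_sub_comm] at h2
    exact le_trans h2 h1
  have hyn2 := abs_le.1 hyn
  have hy2 : ‖y‖ ≤ 2 := by
    have h3 := norm_nonneg y
    have h4 : β * ‖y‖ ≤ 1 / 16 * ‖y‖ := mul_le_mul_of_nonneg_right (by linarith) h3
    linarith
  have hgy := hgb y
  have hθy : θ * ‖y‖ ≤ θ * 2 := mul_le_mul_of_nonneg_left hy2 hθ0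
  have hβy : β * ‖y‖ ≤ β * 2 := mul_le_mul_of_nonneg_left hy2 hβ0
  rw [abs_le]
  constructor
  · linarith [hgy.1, hyn2.1]
  · linarith [hgy.2, hyn2.2]

theorem near_max (hn : 2 ≤ n) (C1 : ℝ) (hC1 : 0 < C1) (δ1 : ℝ) (hδ1 : 0 < δ1) :
    ∃ δ : ℝ, 0 < δ ∧ δ ≤ δ1 ∧ ∃ ε0 : ℝ, 0 < ε0 ∧ ∀ ε : ℝ, 0 < ε → ε ≤ ε0 →
      ∀ h : E n → ℝ, SL h → Near δ h →
        (∀ z : E n, ‖z‖ ≤ 1 / 4 → 1 - C1 * ε ^ 3 ≤ MM (psi ε (uA hn (fun y => y))) h z) →
        ∃ l : ℝ, 0 < l ∧ ∃ z0 : E n, Near (δ / 4) (fun x => l * h x - inner ℝ z0 x) := by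
  have hn1 : 1 ≤ n := by omega
  obtain ⟨Y⟩ := exists_SH hn
  obtain ⟨δ0, hδ0, εU, hεU, CU, hCU, hU2⟩ := U2 hn Y
  obtain ⟨CS, hCS, hslice⟩ := slice hn Y
  obtain ⟨cA, hcA, ρA, hρA, huA⟩ := uA_bound hn Y
  have hNpos : (0 : ℝ) < n := by exact_mod_cast (by omega : 0 < n)
  set K1 : ℝ := (n : ℝ) ^ 2 * CS + CU + C1 with hK1
  have hK1pos : 0 < K1 := by rw [hK1]; positivity
  -- the constant δ^
  set d : ℝ := min (min δ0 (1 / 4)) (min (1 / (2 * CS)) (1 / (2 * K1))) with hd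
  have hdpos : 0 < d := by
    rw [hd]
    exact lt_min (lt_min hδ0 (by norm_num)) (lt_min (by positivity) (by positivity))
  have d1 : d ≤ δ0 := le_trans (min_le_left _ _) (min_le_left _ _)
  have d2 : d ≤ 1 / 4 := le_trans (min_le_left _ _) (min_le_right _ _)
  have d3 : CS * d ≤ 1 / 2 := by
    have : d ≤ 1 / (2 * CS) := le_trans (min_le_right _ _) (min_le_left _ _)
    calc CS * d ≤ CS * (1 / (2 * CS)) := mul_le_mul_of_nonneg_left this hCS.le
      _ = 1 / 2 := by field_simp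
  have d4 : K1 * d ≤ 1 / 2 := by
    have : d ≤ 1 / (2 * K1) := le_trans (min_le_right _ _) (min_le_right _ _)
    calc K1 * d ≤ K1 * (1 / (2 * K1)) := mul_le_mul_of_nonneg_left this hK1pos.le
      _ = 1 / 2 := by field_simp
  set ρ : ℝ := min (ρA / 4) (min (1 / 8) (d / 8)) with hρ
  have hρpos : 0 < ρ := by
    rw [hρ]; exact lt_min (by positivity) (lt_min (by norm_num) (by positivity))
  have r1 : ρ ≤ ρA / 4 := min_le_left _ _
  have r2 : ρ ≤ 1 / 8 := le_trans (min_le_right _ _) (min_le_left _ _)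
  have r3 : ρ ≤ d / 8 := le_trans (min_le_right _ _) (min_le_right _ _)
  obtain ⟨δs, hδs, hsl⟩ := hslice ρ hρpos
  set δ : ℝ := min (min δs δ1) (d / 8) with hδ
  have hδpos : 0 < δ := lt_min (lt_min hδs hδ1) (by positivity)
  have s1 : δ ≤ δs := le_trans (min_le_left _ _) (min_le_left _ _)
  have s2 : δ ≤ δ1 := le_trans (min_le_left _ _) (min_le_right _ _)
  have s3 : δ ≤ d / 8 := min_le_right _ _
  refine ⟨δ, hδpos, s2, ?_⟩
  -- the small constant θ
  set K2 : ℝ := 12 * ((n : ℝ) + 3) ^ 2 * K1 / cA with hK2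
  have hK2pos : 0 < K2 := by rw [hK2]; positivity
  set θ : ℝ := min (min d (δ / 16)) ((δ / 16) ^ 2 / K2) with hθ
  have hθpos : 0 < θ := lt_min (lt_min hdpos (by positivity)) (by positivity)
  have t1 : θ ≤ d := le_trans (min_le_left _ _) (min_le_left _ _)
  have t2 : θ ≤ δ / 16 := le_trans (min_le_left _ _) (min_le_right _ _)
  have t3 : K2 * θ ≤ (δ / 16) ^ 2 := by
    have : θ ≤ (δ / 16) ^ 2 / K2 := min_le_right _ _
    calc K2 * θ ≤ K2 * ((δ / 16) ^ 2 / K2) := mul_le_mul_of_nonneg_left this hK2pos.le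
      _ = (δ / 16) ^ 2 := by field_simp
  obtain ⟨ρ2, hρ2, hl2⟩ := l2_sup (n := n) hn1 θ hθpos
  refine ⟨min (min εU θ) (min (1 / (2 * K1)) (min 1 (ρ2 / 14))),
    lt_min (lt_min hεU hθpos) (lt_min (by positivity) (lt_min one_pos (by positivity))), ?_⟩
  intro ε hε hεle h hSL hN hM
  have f1 : ε ≤ εU := le_trans hεle (le_trans (min_le_left _ _) (min_le_left _ _))
  have f2 : ε ≤ θ := le_trans hεle (le_trans (min_le_left _ _) (min_le_right _ _))
  have f3 : K1 * ε ≤ 1 / 2 := by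
    have : ε ≤ 1 / (2 * K1) := le_trans hεle (le_trans (min_le_right _ _) (min_le_left _ _))
    calc K1 * ε ≤ K1 * (1 / (2 * K1)) := mul_le_mul_of_nonneg_left this hK1pos.le
      _ = 1 / 2 := by field_simp
  have f4 : ε ≤ 1 := le_trans hεle (le_trans (min_le_right _ _)
    (le_trans (min_le_right _ _) (min_le_left _ _)))
  have f5 : 14 * ε ≤ ρ2 := by
    have : ε ≤ ρ2 / 14 := le_trans hεle (le_trans (min_le_right _ _)
      (le_trans (min_le_right _ _) (min_le_right _ _)))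
    linarith
  obtain ⟨A, z, hAs, hA1, hz, hlin, he2⟩ := hsl h hSL (fun x hx => le_trans (hN x hx) s1)
  set g : E n → ℝ := fun x => h (A x) - inner ℝ z x with hg
  -- elementary bounds
  have hAx : ∀ x : E n, ‖A x - x‖ ≤ ρ * ‖x‖ := by
    intro x
    have e1 : A x - x = ((A : E n →L[ℝ] E n) - 1) x := rfl
    rw [e1]
    exact le_trans (((A : E n →L[ℝ] E n) - 1).le_opNorm x)
      (mul_le_mul_of_nonneg_right hA1 (norm_nonneg _))
  have hP1 : P1 h := hSL.p1
  have hnh := Near.bound hP1 hN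
  have hδ32 : δ ≤ 1 / 32 := by linarith
  have hgN : Near d g := by
    intro x hx
    have e1 : |‖A x‖ - 1| ≤ ρ := by
      have := abs_norm_sub_norm_le (A x) x
      rw [hx] at this
      have h3 := hAx x
      rw [hx, mul_one] at h3
      exact le_trans this h3
    have e2 := abs_le.1 e1
    have e3 := hnh (A x)
    have e4 : |inner ℝ z x| ≤ ρ := by
      refine le_trans (abs_real_inner_le_norm z x) ?_
      rw [hx, mul_one]; exact hz
    have e5 := abs_le.1 e4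
    have e6 : ‖A x‖ ≤ 9 / 8 := by linarith
    have e7 : δ * ‖A x‖ ≤ 2 * δ := by
      have := norm_nonneg (A x)
      nlinarith
    simp only [hg]
    rw [abs_le]
    constructor
    · linarith [e3.1, e2.1, e5.2]
    · linarith [e3.2, e2.2, e5.1]
  have hghom : ∀ t : ℝ, 0 ≤ t → ∀ x, g (t • x) = t * g x := by
    intro t ht x
    simp only [hg]
    rw [map_smul, hSL.hom t ht, real_inner_smul_right]
    ring
  have hgsub : ∀ x y, g (x + y) ≤ g x + g y := by
    intro x y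
    simp only [hg]
    rw [map_add, inner_add_right]
    have := hSL.sub (A x) (A y)
    linarith
  have hd1 : d < 1 := by linarith
  have hgSL : SL g := SL_of_near hd1 hghom hgsub hgN
  have hgP : P1 g := hgSL.p1
  -- the functional
  set u : E n → ℝ := uA hn A with hu
  have huH : H0 u := uA_H0 hn A
  have hub : ∀ x, x ≠ 0 → |u x| ≤ 1 := fun x _ => uA_abs hn A x
  have hsph : ∀ x ∈ sphere (0 : E n) 1, x ∈ ({0}ᶜ : Set (E n)) := by
    intro x hx hx0
    rw [mem_singleton_iff] at hx0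
    rw [hx0, mem_sphere_zero_iff_norm, norm_zero] at hx
    exact zero_ne_one hx
  have hMM : 1 - C1 * ε ^ 3 ≤ MM (psi ε u) g 0 := by
    set z' := A.symm z with hz'
    have hAz : A z' = z := A.apply_symm_apply z
    have hz'n : ‖z'‖ ≤ 1 / 4 := by
      have e1 := hAx z'
      rw [hAz] at e1
      have e2 : ‖z'‖ ≤ ‖z - z'‖ + ‖z‖ := by
        have := norm_sub_norm_le z' z
        rw [norm_sub_rev] at this
        linarith
      have e3 : ρ * ‖z'‖ ≤ 1 / 8 * ‖z'‖ := mul_le_mul_of_nonneg_right r2 (norm_nonneg _)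
      linarith
    have e1 := hM z' hz'n
    have e2 : MM (fun x => psi ε (uA hn (fun y => y)) (A x))
        (fun x => h (A x) - inner ℝ (A z') x) 0 = MM (psi ε (uA hn (fun y => y))) h z' := by
      apply MM_lin hn1 (psi_H0 ε (uA_H0 hn (ContinuousLinearEquiv.refl ℝ (E n)))) hP1 A hAs
      intro x hx
      have h1 : inner ℝ z' x ≤ 1 / 4 * ‖x‖ := le_trans (real_inner_le_norm z' x)
        (mul_le_mul_of_nonneg_right hz'n (norm_nonneg _))
      have h2 := (hnh x).1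
      have h3 : 0 < ‖x‖ := norm_pos_iff.2 hx
      nlinarith
    rw [hAz] at e2
    have e3 : (fun x => psi ε (uA hn (fun y => y)) (A x)) = psi ε u := by
      funext x
      rw [psi_uA]
    rw [e3] at e2
    rw [← e2] at e1
    exact e1
  set φ : E n → ℝ := fun x => g x - 1 with hφ
  have hφc : ContinuousOn φ (sphere (0 : E n) 1) :=
    (hgP.cont.sub continuous_const).continuousOn
  have huc : ContinuousOn u (sphere (0 : E n) 1) := huH.cont.mono (fun x hx => hsph x hx)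
  have huodd : ∀ x, u (-x) = - u x := uA_odd hn A
  have hone : ∀ x : E n, ‖x‖ = 1 → |u x| ≤ 1 := fun x _ => uA_abs hn A x
  have core : ∀ τ : ℝ, 0 ≤ τ → τ ≤ d → Near τ g →
      sq φ ≤ 14 * ε ^ 2 ∧ sq u - e3 Y u ≤ 6 * ((n : ℝ) + 3) ^ 2 * K1 * (ε + τ) := by
    intro τ hτ0 hτd hNτ
    have hU := hU2 τ hτ0 (le_trans hτd d1) ε hε f1 g hgSL hNτ u huH hub (uA_int hn A)
    refine mta_core hn Y hCU hCS hC1 hε hτ0 hφc huc huodd hone hlin
      (he2 τ hτ0 (by linarith) hNτ) (le_trans hMM hU) ?_ ?_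
    · have : K1 * τ ≤ K1 * d := mul_le_mul_of_nonneg_left hτd hK1pos.le
      have e1 : K1 * (ε + τ) = K1 * ε + K1 * τ := by ring
      rw [← hK1, e1]
      linarith
    · have : CS * τ ≤ CS * d := mul_le_mul_of_nonneg_left hτd hCS.le
      linarith
  have hNθ : Near θ g := by
    apply hl2 g hgSL (fun x hx => le_trans (hgN x hx) (by linarith))
    have h1 := (core d hdpos.le le_rfl hgN).1
    have h2 : 14 * ε ^ 2 ≤ ρ2 := by
      have : ε ^ 2 ≤ ε := by nlinarith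
      linarith
    exact le_trans h1 h2
  have hD := (core θ hθpos.le t1 hNθ).2
  -- normalise the trace
  obtain ⟨c, hcpos, B, hB1, hB2, hBs, hBt, hB4⟩ := mta_norm hn1 A hAs r2 hA1
  have hBρ : ‖(B : E n →L[ℝ] E n) - 1‖ ≤ ρA := le_trans hB4 (by linarith)
  have huB : uA hn B = u := by
    rw [hu]
    exact uA_scale hn A B (inv_pos.2 hcpos) hB1
  have hfinal := huA B hBs hBt hBρ
  rw [huB] at hfinal
  set β : ℝ := ‖(B : E n →L[ℝ] E n) - 1‖ with hβ
  have hβ0 : 0 ≤ β := norm_nonneg _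
  have hβle : β ≤ δ / 16 := by
    have e1 : cA * β ^ 2 ≤ 6 * ((n : ℝ) + 3) ^ 2 * K1 * (ε + θ) := le_trans hfinal hD
    have e2 : 6 * ((n : ℝ) + 3) ^ 2 * K1 * (ε + θ) ≤ 6 * ((n : ℝ) + 3) ^ 2 * K1 * (2 * θ) := by
      gcongr
      linarith
    have e3 : 6 * ((n : ℝ) + 3) ^ 2 * K1 * (2 * θ) = cA * (K2 * θ) := by
      rw [hK2]; field_simp; ring
    have e4 : cA * β ^ 2 ≤ cA * (δ / 16) ^ 2 := by
      calc cA * β ^ 2 ≤ cA * (K2 * θ) := by rw [← e3]; exact le_trans e1 e2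
        _ ≤ cA * (δ / 16) ^ 2 := mul_le_mul_of_nonneg_left t3 hcA.le
    have e5 : β ^ 2 ≤ (δ / 16) ^ 2 := le_of_mul_le_mul_left e4 hcA
    exact (pow_le_pow_iff_left₀ hβ0 (by positivity) two_ne_zero).1 e5
  -- conclusion
  refine ⟨c, hcpos, c • A.symm z, ?_⟩
  refine mta_concl A B hAs hB2 ?_ (Near.bound hgP hNθ) hθpos.le hβ0 le_rfl hβle t2
    (by linarith)
  intro x
  exact hghom c hcpos.le x

end Pool.Agent.H35.CA
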