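import Pool.Agent.H35.CA.Low
import Pool.Agent.H35.CA.ShB

/-!
# Job PK: polynomial perturbations of the norm

Proof hints.
`low_bound`: on the sphere `P = ∑_{k ≤ K} ∑_i c k i Y k i` (field `span`), so
`pk P = ∑ c k i • pk (Y k i)`, with `∑ c^2 = nr P ^ 2` by orthonormality; each `pk (Y k i)` is
smooth off 0 and its derivatives up to order 2 are bounded on the (compact) sphere.
-/

namespace Pool.Agent.H35.CA

open MeasureTheory Metric Set

variable {n : ℕ}

theorem pk_un_smul {t : ℝ} (ht : 0 < t) (x : E n) : un (t • x) = un x := by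
  unfold un
  rw [norm_smul, Real.norm_of_nonneg ht.le, mul_inv, smul_smul]
  congr 1
  field_simp

theorem pk_un_self {x : E n} (hx : ‖x‖ = 1) : un x = x := by
  unfold un
  rw [hx, inv_one, one_smul]

theorem pk_hom (P : Pol n) : ∀ t : ℝ, 0 ≤ t → ∀ x : E n, pk P (t • x) = t * pk P x := by
  intro t ht x
  rcases ht.eq_or_lt with h | h
  · rw [← h, zero_smul, zero_mul]
    unfold pk
    rw [norm_zero, zero_mul]
  · unfold pk
    rw [pk_un_smul h, norm_smul, Real.norm_of_nonneg ht, mul_assoc]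

theorem pk_sphere (P : Pol n) {x : E n} (hx : ‖x‖ = 1) : pk P x = ev P x := by
  unfold pk
  rw [pk_un_self hx, hx, one_mul]

theorem pk_smooth (P : Pol n) : ContDiffOn ℝ (⊤ : ℕ∞) (pk P) {0}ᶜ := by
  have h1 : ContDiffOn ℝ (⊤ : ℕ∞) (fun x : E n => ‖x‖) {0}ᶜ := fun x hx =>
    (contDiffAt_norm ℝ hx).contDiffWithinAt
  have h2 : ContDiffOn ℝ (⊤ : ℕ∞) (fun x : E n => ev P (un x)) {0}ᶜ :=
    (ev_smooth P).comp_contDiffOn un_smooth
  exact h1.mul h2

theorem pk_smul (c : ℝ) (P : Pol n) (x : E n) : pk (c • P) x = c * pk P x := by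
  unfold pk
  rw [ev_smul]
  ring

theorem Small.mono {c c' : ℝ} {k : E n → ℝ} (hk : Small c k) (h : c ≤ c') : Small c' k :=
  ⟨hk.hom, hk.smooth, fun x hx => (hk.b0 x hx).trans h, fun x hx => (hk.b1 x hx).trans h,
    fun x hx => (hk.b2 x hx).trans h⟩

theorem pk_ne {x : E n} (hx : ‖x‖ = 1) : x ∈ ({0}ᶜ : Set (E n)) := by
  intro h
  rw [mem_singleton_iff] at h
  rw [h, norm_zero] at hx
  exact zero_ne_one hx

theorem pk_open : IsOpen ({0}ᶜ : Set (E n)) := isOpen_compl_singleton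

theorem pk_diff {k : E n → ℝ} (hk : ContDiffOn ℝ 3 k {0}ᶜ) {x : E n}
    (hx : x ∈ ({0}ᶜ : Set (E n))) : DifferentiableAt ℝ k x :=
  (hk.contDiffAt (pk_open.mem_nhds hx)).differentiableAt (by norm_num)

theorem pk_diff2 {k : E n → ℝ} (hk : ContDiffOn ℝ 3 k {0}ᶜ) {x : E n}
    (hx : x ∈ ({0}ᶜ : Set (E n))) : DifferentiableAt ℝ (fderiv ℝ k) x :=
  ((hk.contDiffAt (pk_open.mem_nhds hx)).fderiv_right (m := 2) (by norm_num)).differentiableAt
    (by norm_num)

section
variable {V : Type*} [NormedAddCommGroup V] [NormedSpace ℝ V]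
variable {F : Type*} [NormedAddCommGroup F] [NormedSpace ℝ F]

theorem pkF_add {k l : V → F} {x : V} {a b : ℝ}
    (h3 : DifferentiableAt ℝ k x) (h4 : DifferentiableAt ℝ l x)
    (ha : ‖fderiv ℝ k x‖ ≤ a) (hb : ‖fderiv ℝ l x‖ ≤ b) :
    ‖fderiv ℝ (fun x => k x + l x) x‖ ≤ a + b := by
  rw [fderiv_fun_add h3 h4]
  exact (norm_add_le _ _).trans (add_le_add ha hb)

theorem pkF_smul {k : V → F} {x : V} {a : ℝ} (c : ℝ)
    (h3 : DifferentiableAt ℝ k x)
    (ha : ‖fderiv ℝ k x‖ ≤ a) :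
    ‖fderiv ℝ (fun x => c • k x) x‖ ≤ |c| * a := by
  rw [fderiv_fun_const_smul h3, norm_smul, Real.norm_eq_abs]
  exact mul_le_mul_of_nonneg_left ha (abs_nonneg c)

theorem pkF_zero (x : V) : ‖fderiv ℝ (fun _ : V => (0 : F)) x‖ ≤ 0 := by
  rw [fderiv_fun_const]
  simp

theorem pkF_bdd {S : Set V} (hS : IsCompact S) {U : Set V} (hU : IsOpen U) (hSU : S ⊆ U)
    {k : V → F} (hk : ContDiffOn ℝ 2 k U) :
    ∃ M : ℝ, 0 < M ∧ ∀ x ∈ S, ‖fderiv ℝ k x‖ ≤ M := by
  have h2 : ContinuousOn (fderiv ℝ k) S := fun x hx => by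
    have h4 : ContDiffAt ℝ 1 (fderiv ℝ k) x :=
      (hk.contDiffAt (hU.mem_nhds (hSU hx))).fderiv_right (m := 1) (by norm_num)
    exact h4.continuousAt.continuousWithinAt
  obtain ⟨M, hM⟩ := hS.exists_bound_of_continuousOn h2
  exact ⟨max M 1, by positivity, fun x hx => (hM x hx).trans (le_max_left _ _)⟩
end
section
variable {V : Type*} [NormedAddCommGroup V] [NormedSpace ℝ V]

theorem pkV_zero (x : V) : ‖fderiv ℝ (fderiv ℝ (fun _ : V => (0 : ℝ))) x‖ ≤ 0 := by
  have h1 : fderiv ℝ (fun _ : V => (0 : ℝ)) = fun _ => 0 := by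
    funext y
    exact fderiv_const_apply (0 : ℝ)
  rw [h1]
  exact pkF_zero x

theorem pkV_add {k l : V → ℝ} {x : V} {a b : ℝ}
    (h1 : ∀ᶠ y in nhds x, DifferentiableAt ℝ k y) (h2 : ∀ᶠ y in nhds x, DifferentiableAt ℝ l y)
    (h3 : DifferentiableAt ℝ (fderiv ℝ k) x) (h4 : DifferentiableAt ℝ (fderiv ℝ l) x)
    (ha : ‖fderiv ℝ (fderiv ℝ k) x‖ ≤ a) (hb : ‖fderiv ℝ (fderiv ℝ l) x‖ ≤ b) :
    ‖fderiv ℝ (fderiv ℝ (fun x => k x + l x)) x‖ ≤ a + b := by
  have h5 : fderiv ℝ (fun x => k x + l x) =ᶠ[nhds x] fun x => fderiv ℝ k x + fderiv ℝ l x := by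
    filter_upwards [h1, h2] with y hy hy'
    exact fderiv_fun_add hy hy'
  rw [h5.fderiv_eq]
  exact pkF_add h3 h4 ha hb

theorem pkV_smul {k : V → ℝ} {x : V} {a : ℝ} (c : ℝ)
    (h1 : ∀ᶠ y in nhds x, DifferentiableAt ℝ k y)
    (h3 : DifferentiableAt ℝ (fderiv ℝ k) x)
    (ha : ‖fderiv ℝ (fderiv ℝ k) x‖ ≤ a) :
    ‖fderiv ℝ (fderiv ℝ (fun x => c * k x)) x‖ ≤ |c| * a := by
  have h5 : fderiv ℝ (fun x => c * k x) =ᶠ[nhds x] fun x => c • fderiv ℝ k x := by
    filter_upwards [h1] with y hy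
    exact fderiv_const_mul hy c
  rw [h5.fderiv_eq]
  exact pkF_smul c h3 ha

theorem pkV_bdd {S : Set V} (hS : IsCompact S) {U : Set V} (hU : IsOpen U) (hSU : S ⊆ U)
    {k : V → ℝ} (hk : ContDiffOn ℝ 3 k U) :
    ∃ M : ℝ, 0 < M ∧ ∀ x ∈ S, ‖fderiv ℝ (fderiv ℝ k) x‖ ≤ M := by
  have h2 : ContDiffOn ℝ 2 (fderiv ℝ k) U := hk.fderiv_of_isOpen hU (by norm_num)
  exact pkF_bdd hS hU hSU h2

end

theorem pk_small_zero : Small (n := n) 0 (fun _ => 0) := by
  refine ⟨fun t _ x => by simp, contDiffOn_const, fun x _ => by simp, fun x _ => ?_,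
    fun x _ => pkV_zero x⟩
  rw [fderiv_fun_const]
  simp

theorem pk_small_add {a b : ℝ} {k l : E n → ℝ} (hk : Small a k) (hl : Small b l) :
    Small (a + b) (fun x => k x + l x) := by
  have h1 : ∀ x ∈ ({0}ᶜ : Set (E n)), fderiv ℝ (fun x => k x + l x) x =
      fderiv ℝ k x + fderiv ℝ l x := fun x hx =>
    fderiv_fun_add (pk_diff hk.smooth hx) (pk_diff hl.smooth hx)
  refine ⟨fun t ht x => by rw [hk.hom t ht, hl.hom t ht]; ring, hk.smooth.add hl.smooth,
    fun x hx => ?_, fun x hx => ?_, fun x hx => ?_⟩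
  · exact (abs_add_le _ _).trans (add_le_add (hk.b0 x hx) (hl.b0 x hx))
  · rw [h1 x (pk_ne hx)]
    exact (norm_add_le _ _).trans (add_le_add (hk.b1 x hx) (hl.b1 x hx))
  · refine pkV_add ?_ ?_ (pk_diff2 hk.smooth (pk_ne hx)) (pk_diff2 hl.smooth (pk_ne hx))
      (hk.b2 x hx) (hl.b2 x hx)
    · filter_upwards [pk_open.mem_nhds (pk_ne hx)] with y hy
      exact pk_diff hk.smooth hy
    · filter_upwards [pk_open.mem_nhds (pk_ne hx)] with y hy
      exact pk_diff hl.smooth hy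

theorem pk_small_smul {a : ℝ} {k : E n → ℝ} (hk : Small a k) (c : ℝ) :
    Small (|c| * a) (fun x => c * k x) := by
  have h1 : ∀ x ∈ ({0}ᶜ : Set (E n)), fderiv ℝ (fun x => c * k x) x = c • fderiv ℝ k x :=
    fun x hx => fderiv_const_mul (pk_diff hk.smooth hx) c
  refine ⟨fun t ht x => by rw [hk.hom t ht]; ring, contDiffOn_const.mul hk.smooth,
    fun x hx => ?_, fun x hx => ?_, fun x hx => ?_⟩
  · rw [abs_mul]
    exact mul_le_mul_of_nonneg_left (hk.b0 x hx) (abs_nonneg c)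
  · rw [h1 x (pk_ne hx), norm_smul, Real.norm_eq_abs]
    exact mul_le_mul_of_nonneg_left (hk.b1 x hx) (abs_nonneg c)
  · refine pkV_smul c ?_ (pk_diff2 hk.smooth (pk_ne hx)) (hk.b2 x hx)
    filter_upwards [pk_open.mem_nhds (pk_ne hx)] with y hy
    exact pk_diff hk.smooth hy

theorem pk_small_sum {ι : Type*} (s : Finset ι) (f : ι → E n → ℝ) (a : ι → ℝ)
    (h : ∀ i ∈ s, Small (a i) (f i)) : Small (∑ i ∈ s, a i) (fun x => ∑ i ∈ s, f i x) := by
  classical
  induction s using Finset.induction_on with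
  | empty =>
    simp only [Finset.sum_empty]
    exact pk_small_zero
  | insert i s hi ih =>
    simp only [Finset.sum_insert hi]
    exact pk_small_add (h i (Finset.mem_insert_self i s))
      (ih fun j hj => h j (Finset.mem_insert_of_mem hj))

theorem pk_bdd {F : Type*} [NormedAddCommGroup F] {g : E n → F}
    (hg : ContinuousOn g {0}ᶜ) : ∃ M : ℝ, 0 < M ∧ ∀ x : E n, ‖x‖ = 1 → ‖g x‖ ≤ M := by
  have h1 : ContinuousOn g (sphere (0 : E n) 1) := hg.mono fun x hx =>
    pk_ne (by simpa using hx)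
  obtain ⟨M, hM⟩ := (isCompact_sphere (0 : E n) 1).exists_bound_of_continuousOn h1
  exact ⟨max M 1, by positivity, fun x hx => (hM x (by simpa using hx)).trans (le_max_left _ _)⟩

theorem pk_small (P : Pol n) : ∃ M : ℝ, 0 < M ∧ Small M (pk P) := by
  have hs : ContDiffOn ℝ 3 (pk P) {0}ᶜ :=
    (pk_smooth P).of_le (by norm_cast)
  have h1 : ContinuousOn (fderiv ℝ (pk P)) {0}ᶜ := fun x hx =>
    (pk_diff2 hs hx).continuousAt.continuousWithinAt
  obtain ⟨M0, hM0, h0⟩ := pk_bdd hs.continuousOn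
  obtain ⟨M1, hM1, h1⟩ := pk_bdd h1
  obtain ⟨M2, hM2, h2⟩ := pkV_bdd (isCompact_sphere (0 : E n) 1) pk_open
    (fun x hx => pk_ne (by simpa using hx)) hs
  refine ⟨M0 + M1 + M2, by positivity, pk_hom P, hs, fun x hx => ?_, fun x hx => ?_,
    fun x hx => ?_⟩
  · have := h0 x hx
    rw [Real.norm_eq_abs] at this
    linarith
  · linarith [h1 x hx]
  · have := h2 x (by simpa using hx)
    linarith

theorem pk_ev_cont (P : Pol n) : ContinuousOn (ev P) (sphere (0 : E n) 1) :=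
  (ev_smooth P).continuous.continuousOn

theorem pk_nr_nonneg (P : Pol n) : 0 ≤ nr P := Real.sqrt_nonneg _

/-- The coefficients are bounded by the norm. -/
theorem pk_coef (hn : 1 ≤ n) (Y : SHFam n) (K : ℕ) (P : Pol n)
    (c : (k : ℕ) → Fin (Y.m k) → ℝ)
    (hc : ∀ x : E n, ‖x‖ = 1 →
      ev P x = ∑ k ∈ Finset.range (K + 1), ∑ i, c k i * ev (Y.Y k i) x)
    (k : ℕ) (hk : k ∈ Finset.range (K + 1)) (i : Fin (Y.m k)) : |c k i| ≤ nr P := by
  have h1 : ∫ x, ev P x * ev (Y.Y k i) x ∂(mu n) = c k i := by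
    have h2 : ∫ x, ev P x * ev (Y.Y k i) x ∂(mu n) =
        ∫ x, ∑ l ∈ Finset.range (K + 1), ∑ j, c l j * (ev (Y.Y l j) x * ev (Y.Y k i) x)
          ∂(mu n) := by
      refine int_congr hn fun x hx => ?_
      rw [hc x hx, Finset.sum_mul]
      refine Finset.sum_congr rfl fun l _ => ?_
      rw [Finset.sum_mul]
      refine Finset.sum_congr rfl fun j _ => ?_
      ring
    have hint : ∀ l j, Integrable (fun x => c l j * (ev (Y.Y l j) x * ev (Y.Y k i) x)) (mu n) :=
      fun l j => integrable_mu hn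
        (continuousOn_const.mul ((pk_ev_cont _).mul (pk_ev_cont _)))
    rw [h2, integral_finsetSum _ fun l _ => integrable_finsetSum _ fun j _ => hint l j]
    rw [Finset.sum_eq_single k]
    · rw [integral_finsetSum _ fun j _ => hint k j]
      rw [Finset.sum_eq_single i]
      · rw [integral_const_mul, Y.ortho_self, mul_one]
      · intro j _ hj
        rw [integral_const_mul, Y.ortho_same k j i hj, mul_zero]
      · intro h
        exact absurd (Finset.mem_univ i) h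
    · intro l _ hl
      rw [integral_finsetSum _ fun j _ => hint l j]
      refine Finset.sum_eq_zero fun j _ => ?_
      rw [integral_const_mul, Y.ortho_diff l k j i hl, mul_zero]
    · intro h
      exact absurd hk h
  have h3 := int_cs hn (pk_ev_cont P) (pk_ev_cont (Y.Y k i))
  rw [h1] at h3
  have h4 : sq (ev (Y.Y k i)) = 1 := by
    unfold sq
    rw [← Y.ortho_self k i]
    refine integral_congr_ae (Filter.Eventually.of_forall fun x => ?_)
    simp only
    ring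
  rw [h4, mul_one] at h3
  have h5 : nr P = Real.sqrt (sq (ev P)) := rfl
  rw [h5]
  exact Real.abs_le_sqrt h3

theorem low_bound (hn : 1 ≤ n) (Y : SHFam n) (K : ℕ) : ∃ C : ℝ, 0 < C ∧
    ∀ P : Pol n, P.totalDegree ≤ K → Small (C * nr P) (pk P) := by
  choose M hM0 hM using fun (k : ℕ) (i : Fin (Y.m k)) => pk_small (Y.Y k i)
  have hS : 0 ≤ ∑ k ∈ Finset.range (K + 1), ∑ i, M k i :=
    Finset.sum_nonneg fun k _ => Finset.sum_nonneg fun i _ => (hM0 k i).le
  refine ⟨∑ k ∈ Finset.range (K + 1), ∑ i, M k i + 1, by linarith, fun P hP => ?_⟩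
  obtain ⟨c, hc⟩ := Y.span K P hP
  have h1 : pk P = fun x => ∑ k ∈ Finset.range (K + 1), ∑ i, c k i * pk (Y.Y k i) x := by
    funext x
    by_cases hx : x = 0
    · subst hx
      unfold pk
      simp
    · unfold pk
      rw [hc (un x) (sphA_un_norm hx), Finset.mul_sum]
      refine Finset.sum_congr rfl fun k _ => ?_
      rw [Finset.mul_sum]
      refine Finset.sum_congr rfl fun i _ => ?_
      ring
  have h2 : Small (∑ k ∈ Finset.range (K + 1), ∑ i, |c k i| * M k i) (pk P) := by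
    rw [h1]
    exact pk_small_sum _ _ _ fun k _ => pk_small_sum _ _ _ fun i _ => pk_small_smul (hM k i) _
  refine h2.mono ?_
  rw [add_mul, one_mul, Finset.sum_mul]
  have h3 : ∑ k ∈ Finset.range (K + 1), ∑ i, |c k i| * M k i ≤
      ∑ k ∈ Finset.range (K + 1), (∑ i, M k i) * nr P := by
    refine Finset.sum_le_sum fun k hk => ?_
    rw [Finset.sum_mul]
    refine Finset.sum_le_sum fun i _ => ?_
    rw [mul_comm]
    exact mul_le_mul_of_nonneg_left (pk_coef hn Y K P c hc k hk i) (hM0 k i).le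
  linarith [pk_nr_nonneg P]

theorem pk_XX_congr (i j : Fin n) {P Q : Pol n} (h : ∀ x : E n, ‖x‖ = 1 → ev P x = ev Q x)
    {x : E n} (hx : ‖x‖ = 1) : ev (Xp i j P) x = ev (Xp i j Q) x := by
  rw [← XX_ev_un i j P hx, ← XX_ev_un i j Q hx]
  unfold XX
  have h1 : (fun y : E n => ev P (un y)) =ᶠ[nhds x] fun y => ev Q (un y) := by
    filter_upwards [pk_open.mem_nhds (pk_ne hx)] with y hy
    exact h _ (sphA_un_norm hy)
  rw [h1.fderiv_eq]

theorem pk_lap_congr {P Q : Pol n} (h : ∀ x : E n, ‖x‖ = 1 → ev P x = ev Q x)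
    {x : E n} (hx : ‖x‖ = 1) : ev (lapP P) x = ev (lapP Q) x := by
  unfold lapP
  rw [ev_sum, ev_sum]
  refine Finset.sum_congr rfl fun q _ => ?_
  exact pk_XX_congr _ _ (fun y hy => pk_XX_congr _ _ h hy) hx

theorem pk_lap_sum {ι : Type*} (s : Finset ι) (f : ι → Pol n) :
    lapP (∑ i ∈ s, f i) = ∑ i ∈ s, lapP (f i) := by
  classical
  induction s using Finset.induction_on with
  | empty =>
    simp only [Finset.sum_empty]
    have := lapP_smul (0 : ℝ) (0 : Pol n)
    rwa [zero_smul, zero_smul] at this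
  | insert i s hi ih =>
    simp only [Finset.sum_insert hi]
    rw [lapP_add, ih]

/-- Bounds for the polynomial and its spherical Laplacian. -/
theorem ev_bound (hn : 1 ≤ n) (Y : SHFam n) (K : ℕ) : ∃ C : ℝ, 0 < C ∧
    ∀ P : Pol n, P.totalDegree ≤ K → ∀ x : E n, ‖x‖ = 1 →
      |ev P x| ≤ C * nr P ∧ |ev (lapP P) x| ≤ C * nr P := by
  choose M hM0 hM using fun (k : ℕ) (i : Fin (Y.m k)) =>
    pk_bdd (ev_smooth (Y.Y k i)).continuous.continuousOn
  set A : ℝ := ∑ k ∈ Finset.range (K + 1), ∑ i, M k i with hA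
  set B : ℝ := ∑ k ∈ Finset.range (K + 1), ∑ i, |lam n k| * M k i with hB
  have hA0 : 0 ≤ A := Finset.sum_nonneg fun k _ => Finset.sum_nonneg fun i _ => (hM0 k i).le
  have hB0 : 0 ≤ B := Finset.sum_nonneg fun k _ => Finset.sum_nonneg fun i _ =>
    mul_nonneg (abs_nonneg _) (hM0 k i).le
  refine ⟨A + B + 1, by linarith, fun P hP x hx => ?_⟩
  obtain ⟨c, hc⟩ := Y.span K P hP
  have hnr := pk_nr_nonneg P
  have hco := pk_coef hn Y K P c hc
  constructor
  · have h1 : |ev P x| ≤ A * nr P := by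
      rw [hc x hx, hA, Finset.sum_mul]
      refine (Finset.abs_sum_le_sum_abs _ _).trans (Finset.sum_le_sum fun k hk => ?_)
      rw [Finset.sum_mul]
      refine (Finset.abs_sum_le_sum_abs _ _).trans (Finset.sum_le_sum fun i _ => ?_)
      rw [abs_mul, mul_comm]
      have := hM k i x hx
      rw [Real.norm_eq_abs] at this
      exact mul_le_mul this (hco k hk i) (abs_nonneg _) (hM0 k i).le
    nlinarith [mul_nonneg hB0 hnr]
  · have h2 : ev (lapP P) x =
        ∑ k ∈ Finset.range (K + 1), ∑ i, c k i * (- lam n k * ev (Y.Y k i) x) := by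
      have h3 : ∀ y : E n, ‖y‖ = 1 → ev P y =
          ev (∑ k ∈ Finset.range (K + 1), ∑ i, c k i • Y.Y k i) y := by
        intro y hy
        rw [hc y hy, ev_sum]
        refine Finset.sum_congr rfl fun k _ => ?_
        rw [ev_sum]
        refine Finset.sum_congr rfl fun i _ => ?_
        rw [ev_smul]
      rw [pk_lap_congr h3 hx, pk_lap_sum, ev_sum]
      refine Finset.sum_congr rfl fun k _ => ?_
      rw [pk_lap_sum, ev_sum]
      refine Finset.sum_congr rfl fun i _ => ?_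
      rw [lapP_smul, ev_smul, Y.eig k i x hx]
    have h1 : |ev (lapP P) x| ≤ B * nr P := by
      rw [h2, hB, Finset.sum_mul]
      refine (Finset.abs_sum_le_sum_abs _ _).trans (Finset.sum_le_sum fun k hk => ?_)
      rw [Finset.sum_mul]
      refine (Finset.abs_sum_le_sum_abs _ _).trans (Finset.sum_le_sum fun i _ => ?_)
      rw [abs_mul, abs_mul, abs_neg, mul_comm]
      have := hM k i x hx
      rw [Real.norm_eq_abs] at this
      exact mul_le_mul (mul_le_mul_of_nonneg_left this (abs_nonneg _)) (hco k hk i)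
        (abs_nonneg _) (mul_nonneg (abs_nonneg _) (hM0 k i).le)
    nlinarith [mul_nonneg hA0 hnr]

end Pool.Agent.H35.CA
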