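import Pool.Agent.H35.CA.ShA

/-!
# Job PKT: the Laplacian of the 2-homogeneous extension of a polynomial

Proof hints.
`lap_trace`: let `F y = ‖y‖^2 * ev P (un y)`, smooth off 0 and 2-homogeneous.  For any `C^2`
function, with `J_ij` the generators,
`∑_{i<j} XX J_ij (XX J_ij F) x = |x|² ΔF x - D²F(x,x) - (n-1) DF(x)(x)`,
because `∑_{i<j} J_ij x ⊗ J_ij x = |x|² - x ⊗ x` and `∑_{i<j} J_ij J_ij x = -(n-1) x`.
Homogeneity: `D²F (x,x) = 2 F x`, `DF(x)(x) = 2 F x`.  And `XX` commutes with multiplication by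
`‖·‖²`, so for `|x| = 1` the left side is `ev (lapP P) x` (`XX_ev_un` twice).  Hence
`ΔF x = 2 n * ev P x + ev (lapP P) x`.
-/

namespace Pool.Agent.H35.CA

open MeasureTheory Metric Set

variable {n : ℕ}

/-- the 0-homogeneous extension -/
noncomputable def pktG (P : Pol n) (y : E n) : ℝ := ev P (un y)

theorem pkt_un {t : ℝ} (ht : 0 < t) (y : E n) : un (t • y) = un y := by
  rw [un, un, norm_smul, Real.norm_eq_abs, abs_of_pos ht, smul_smul, mul_inv, mul_comm t⁻¹,
    mul_assoc, inv_mul_cancel₀ ht.ne', mul_one]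

theorem pkt_hom (P : Pol n) {t : ℝ} (ht : 0 < t) (y : E n) : pktG P (t • y) = pktG P y := by
  rw [pktG, pktG, pkt_un ht]

theorem pkt_smooth (P : Pol n) {y : E n} (hy : y ≠ 0) : ContDiffAt ℝ (⊤ : ℕ∞) (pktG P) y := by
  have h1 : ContDiffOn ℝ (⊤ : ℕ∞) (pktG P) {0}ᶜ :=
    (ev_smooth P).comp_contDiffOn un_smooth
  exact h1.contDiffAt (isOpen_compl_singleton.mem_nhds hy)

theorem pkt_diff (P : Pol n) {y : E n} (hy : y ≠ 0) : DifferentiableAt ℝ (pktG P) y :=
  (pkt_smooth P hy).differentiableAt (by simp)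

theorem pkt_diff2 (P : Pol n) {y : E n} (hy : y ≠ 0) :
    DifferentiableAt ℝ (fderiv ℝ (pktG P)) y := by
  have h1 : ContDiffAt ℝ 1 (fderiv ℝ (pktG P)) y :=
    (pkt_smooth P hy).fderiv_right (m := 1) (by
      rw [one_add_one_eq_two]
      exact WithTop.coe_le_coe.2 (le_top : (2 : ℕ∞) ≤ ⊤))
  exact h1.differentiableAt (by simp)

theorem pkt_euler (P : Pol n) {y : E n} (hy : y ≠ 0) : fderiv ℝ (pktG P) y y = 0 := by
  have h1 : HasFDerivAt (pktG P) (fderiv ℝ (pktG P) y) ((1 : ℝ) • y) := by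
    rw [one_smul]
    exact (pkt_diff P hy).hasFDerivAt
  have h2 : HasDerivAt (fun t : ℝ => t • y) ((1 : ℝ) • y) 1 := (hasDerivAt_id (1 : ℝ)).smul_const y
  have h3 := h1.comp_hasDerivAt (1 : ℝ) h2
  have h4 : HasDerivAt (pktG P ∘ fun t : ℝ => t • y) 0 1 := by
    refine (hasDerivAt_const (1 : ℝ) (pktG P y)).congr_of_eventuallyEq ?_
    filter_upwards [lt_mem_nhds (zero_lt_one : (0 : ℝ) < 1)] with t ht
    exact pkt_hom P ht y
  have h5 := h3.unique h4
  rw [one_smul] at h5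
  exact h5

theorem pkt_euler2 (P : Pol n) {x : E n} (hx : x ≠ 0) :
    fderiv ℝ (fderiv ℝ (pktG P)) x x x = 0 := by
  have h1 : HasFDerivAt (fun y => (fderiv ℝ (pktG P) y) y)
      ((fderiv ℝ (pktG P) x).comp (ContinuousLinearMap.id ℝ (E n)) +
        (fderiv ℝ (fderiv ℝ (pktG P)) x).flip x) x :=
    (pkt_diff2 P hx).hasFDerivAt.clm_apply (hasFDerivAt_id x)
  have h2 : HasFDerivAt (fun y => (fderiv ℝ (pktG P) y) y) (0 : E n →L[ℝ] ℝ) x := by
    refine (hasFDerivAt_const (0 : ℝ) x).congr_of_eventuallyEq ?_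
    filter_upwards [isOpen_compl_singleton.mem_nhds hx] with y hy
    exact pkt_euler P hy
  have h3 := congrArg (fun L : E n →L[ℝ] ℝ => L x) (h1.unique h2)
  have h4 : (fderiv ℝ (pktG P) x) x + fderiv ℝ (fderiv ℝ (pktG P)) x x x = 0 := h3
  rw [pkt_euler P hx, zero_add] at h4
  exact h4

theorem pkt_XX (i j : Fin n) (P : Pol n) {y : E n} (hy : y ≠ 0) :
    XX (Jij i j) (pktG P) y = pktG (Xp i j P) y := by
  have hn : 0 < ‖y‖ := norm_pos_iff.2 hy
  have hu : ‖un y‖ = 1 := by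
    rw [un, norm_smul, norm_inv, norm_norm, inv_mul_cancel₀ hn.ne']
  have hy2 : ‖y‖ • un y = y := by
    rw [un, smul_smul, mul_inv_cancel₀ hn.ne', one_smul]
  have hne : un y ≠ 0 := by
    rw [← norm_pos_iff, hu]
    exact one_pos
  rw [pktG, ← XX_ev_un i j P hu]
  have h1 : HasFDerivAt (pktG P) (fderiv ℝ (pktG P) y) (‖y‖ • un y) := by
    rw [hy2]
    exact (pkt_diff P hy).hasFDerivAt
  have h2 : HasFDerivAt (fun z : E n => ‖y‖ • z) (‖y‖ • ContinuousLinearMap.id ℝ (E n)) (un y) :=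
    (hasFDerivAt_id (un y)).const_smul ‖y‖
  have h3 := h1.comp (un y) h2
  have h4 : pktG P ∘ (fun z : E n => ‖y‖ • z) = pktG P := by
    funext z
    exact pkt_hom P hn z
  rw [h4] at h3
  have h5 : XX (Jij i j) (fun z => ev P (un z)) (un y) = fderiv ℝ (pktG P) (un y) (Jij i j (un y)) :=
    rfl
  rw [h5, h3.fderiv]
  change fderiv ℝ (pktG P) y (Jij i j y) = fderiv ℝ (pktG P) y (‖y‖ • (Jij i j (un y)))
  rw [← ContinuousLinearMap.map_smul, hy2]

theorem pkt_XX2 (i j : Fin n) (P : Pol n) {x : E n} (hx : ‖x‖ = 1) :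
    ev (Xp i j (Xp i j P)) x =
      fderiv ℝ (fderiv ℝ (pktG P)) x (Jij i j x) (Jij i j x) +
        fderiv ℝ (pktG P) x (Jij i j (Jij i j x)) := by
  have hx0 : x ≠ 0 := by
    rw [← norm_pos_iff, hx]
    exact one_pos
  rw [← XX_ev_un i j (Xp i j P) hx]
  have h1 : XX (Jij i j) (fun y => ev (Xp i j P) (un y)) x =
      fderiv ℝ (XX (Jij i j) (pktG P)) x (Jij i j x) := by
    change fderiv ℝ (fun y => ev (Xp i j P) (un y)) x (Jij i j x) = _
    congr 1
    refine (Filter.EventuallyEq.fderiv_eq ?_).symm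
    filter_upwards [isOpen_compl_singleton.mem_nhds hx0] with y hy
    exact pkt_XX i j P hy
  rw [h1]
  have h2 : HasFDerivAt (fun y => (fderiv ℝ (pktG P) y) (Jij i j y))
      ((fderiv ℝ (pktG P) x).comp (Jij i j) +
        (fderiv ℝ (fderiv ℝ (pktG P)) x).flip (Jij i j x)) x :=
    (pkt_diff2 P hx0).hasFDerivAt.clm_apply (Jij i j).hasFDerivAt
  have h3 : XX (Jij i j) (pktG P) = fun y => (fderiv ℝ (pktG P) y) (Jij i j y) := rfl
  rw [h3, h2.fderiv, add_comm]
  rfl

theorem pkt_Jij (i j : Fin n) (x : E n) : Jij i j x =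
    x i • EuclideanSpace.single j (1 : ℝ) - x j • EuclideanSpace.single i (1 : ℝ) := rfl

theorem pkt_JJ {i j : Fin n} (h : i < j) (x : E n) : Jij i j (Jij i j x) =
    - (x i • EuclideanSpace.single i (1 : ℝ)) - x j • EuclideanSpace.single j (1 : ℝ) := by
  have hi : (Jij i j x) i = - x j := by
    rw [pkt_Jij]
    simp [h.ne]
  have hj : (Jij i j x) j = x i := by
    rw [pkt_Jij]
    simp [h.ne']
  rw [pkt_Jij i j (Jij i j x), hi, hj, neg_smul]
  abel

/-- sum over pairs -/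
theorem pkt_pairs (f : Fin n → Fin n → ℝ) (hs : ∀ i j, f i j = f j i) :
    2 * ∑ q ∈ prs n, f q.1 q.2 = (∑ i, ∑ j, f i j) - ∑ i, f i i := by
  classical
  have h1 : ∑ i, ∑ j, f i j = ∑ q : Fin n × Fin n, f q.1 q.2 := by
    rw [Fintype.sum_prod_type]
  have h2 : ∑ q : Fin n × Fin n, f q.1 q.2 =
      ∑ q ∈ Finset.univ.filter (fun q : Fin n × Fin n => q.1 < q.2), f q.1 q.2 +
      ∑ q ∈ Finset.univ.filter (fun q : Fin n × Fin n => ¬ q.1 < q.2), f q.1 q.2 :=
    (Finset.sum_filter_add_sum_filter_not _ _ _).symm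
  have h3 : ∑ q ∈ Finset.univ.filter (fun q : Fin n × Fin n => ¬ q.1 < q.2), f q.1 q.2 =
      ∑ q ∈ Finset.univ.filter (fun q : Fin n × Fin n => q.2 < q.1), f q.1 q.2 +
      ∑ q ∈ Finset.univ.filter (fun q : Fin n × Fin n => q.1 = q.2), f q.1 q.2 := by
    rw [← Finset.sum_filter_add_sum_filter_not
      (Finset.univ.filter (fun q : Fin n × Fin n => ¬ q.1 < q.2))
      (fun q : Fin n × Fin n => q.2 < q.1), Finset.filter_filter, Finset.filter_filter]
    congr 1
    · refine Finset.sum_congr ?_ fun _ _ => rfl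
      ext q
      simp only [Finset.mem_filter, Finset.mem_univ, true_and]
      omega
    · refine Finset.sum_congr ?_ fun _ _ => rfl
      ext q
      simp only [Finset.mem_filter, Finset.mem_univ, true_and]
      omega
  have h4 : ∑ q ∈ Finset.univ.filter (fun q : Fin n × Fin n => q.2 < q.1), f q.1 q.2 =
      ∑ q ∈ Finset.univ.filter (fun q : Fin n × Fin n => q.1 < q.2), f q.1 q.2 := by
    refine Finset.sum_bij' (fun q _ => (q.2, q.1)) (fun q _ => (q.2, q.1)) ?_ ?_ ?_ ?_ ?_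
    · intro q hq
      simpa using hq
    · intro q hq
      simpa using hq
    · intro q _
      rfl
    · intro q _
      rfl
    · intro q _
      exact hs _ _
  have h5 : ∑ q ∈ Finset.univ.filter (fun q : Fin n × Fin n => q.1 = q.2), f q.1 q.2 =
      ∑ i, f i i := by
    refine Finset.sum_bij' (fun q _ => q.1) (fun i _ => (i, i)) ?_ ?_ ?_ ?_ ?_
    · intro q _
      exact Finset.mem_univ _
    · intro i _
      simp
    · intro q hq
      have : q.1 = q.2 := (Finset.mem_filter.1 hq).2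
      exact Prod.ext rfl this
    · intro i _
      rfl
    · intro q hq
      have : q.1 = q.2 := (Finset.mem_filter.1 hq).2
      rw [← this]
  rw [h1, h2, h3, h4, h5, prs]
  ring

theorem pkt_expand (x : E n) : x = ∑ i : Fin n, x i • (EuclideanSpace.single i (1 : ℝ) : E n) := by
  ext j
  simp [Finset.sum_apply, Pi.single_apply]

theorem pkt_lap (P : Pol n) {x : E n} (hx : ‖x‖ = 1) :
    ev (lapP P) x = ∑ i : Fin n, fderiv ℝ (fderiv ℝ (pktG P)) x
        (EuclideanSpace.single i (1 : ℝ)) (EuclideanSpace.single i (1 : ℝ)) := by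
  have hx0 : x ≠ 0 := by
    rw [← norm_pos_iff, hx]
    exact one_pos
  set H := fderiv ℝ (fderiv ℝ (pktG P)) x with hH
  set g := fderiv ℝ (pktG P) x with hg
  set e : Fin n → E n := fun i => EuclideanSpace.single i (1 : ℝ) with he
  have hgx : ∑ i, x i * g (e i) = 0 := by
    have h := pkt_euler P hx0
    rw [← hg] at h
    conv at h => lhs; arg 2; rw [pkt_expand x]
    rw [map_sum] at h
    rw [← h]
    exact Finset.sum_congr rfl fun i _ => by rw [map_smul, smul_eq_mul]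
  have hHx : ∑ i, ∑ j, x i * x j * H (e i) (e j) = 0 := by
    have h := pkt_euler2 P hx0
    rw [← hH] at h
    have hxe : ∑ i, x i • e i = x := (pkt_expand x).symm
    have h2 : H x x = ∑ i, ∑ j, x i * x j * H (e i) (e j) := by
      have h3 : H x x = H (∑ i, x i • e i) (∑ j, x j • e j) := by rw [hxe]
      rw [h3, map_sum, Finset.sum_comm]
      refine Finset.sum_congr rfl fun j _ => ?_
      rw [map_sum, _root_.sum_apply]
      refine Finset.sum_congr rfl fun i _ => ?_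
      rw [map_smul, map_smul, _root_.smul_apply, smul_eq_mul, smul_eq_mul]
      ring
    rw [← h2]
    exact h
  have hnorm : ∑ i, x i ^ 2 = 1 := by
    have h := EuclideanSpace.norm_sq_eq x
    rw [hx, one_pow] at h
    rw [h]
    exact Finset.sum_congr rfl fun i _ => by rw [Real.norm_eq_abs, sq_abs]
  rw [lapP, ev_sum]
  have h1 : ∀ q ∈ prs n, ev (Xp q.1 q.2 (Xp q.1 q.2 P)) x =
      (x q.1 ^ 2 * H (e q.2) (e q.2) - x q.1 * x q.2 * H (e q.2) (e q.1) -
        x q.1 * x q.2 * H (e q.1) (e q.2) + x q.2 ^ 2 * H (e q.1) (e q.1)) +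
      (- (x q.1 * g (e q.1)) - x q.2 * g (e q.2)) := by
    intro q hq
    have hlt : q.1 < q.2 := (Finset.mem_filter.1 hq).2
    rw [pkt_XX2 q.1 q.2 P hx, pkt_JJ hlt, pkt_Jij]
    simp only [map_sub, map_neg, map_smul, _root_.sub_apply,
      _root_.smul_apply, smul_eq_mul]
    ring
  rw [Finset.sum_congr rfl h1]
  have h2 := pkt_pairs (fun i j : Fin n =>
    (x i ^ 2 * H (e j) (e j) - x i * x j * H (e j) (e i) -
        x i * x j * H (e i) (e j) + x j ^ 2 * H (e i) (e i)) +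
      (- (x i * g (e i)) - x j * g (e j))) (fun i j => by ring)
  have h3 : ∑ i, ∑ j, ((x i ^ 2 * H (e j) (e j) - x i * x j * H (e j) (e i) -
        x i * x j * H (e i) (e j) + x j ^ 2 * H (e i) (e i)) +
      (- (x i * g (e i)) - x j * g (e j))) = 2 * ∑ i, H (e i) (e i) := by
    have a1 : ∑ i, ∑ j, x i ^ 2 * H (e j) (e j) = ∑ i, H (e i) (e i) := by
      rw [← Finset.sum_mul_sum, hnorm, one_mul]
    have a2 : ∑ i, ∑ j, x i * x j * H (e j) (e i) = 0 := by
      rw [Finset.sum_comm, ← hHx]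
      exact Finset.sum_congr rfl fun i _ => Finset.sum_congr rfl fun j _ => by ring
    have a3 : ∑ i, ∑ j, x j ^ 2 * H (e i) (e i) = ∑ i, H (e i) (e i) := by
      rw [Finset.sum_comm]
      exact a1
    have a4 : ∑ i, ∑ j : Fin n, x i * g (e i) = 0 := by
      simp only [Finset.sum_const, nsmul_eq_mul]
      rw [← Finset.mul_sum, hgx, mul_zero]
    have a5 : ∑ i : Fin n, ∑ j, x j * g (e j) = 0 := by
      rw [Finset.sum_comm]
      exact a4
    simp only [Finset.sum_add_distrib, Finset.sum_sub_distrib, Finset.sum_neg_distrib]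
    rw [a1, a2, hHx, a3, a4, a5]
    ring
  have h4 : ∑ i, ((x i ^ 2 * H (e i) (e i) - x i * x i * H (e i) (e i) -
        x i * x i * H (e i) (e i) + x i ^ 2 * H (e i) (e i)) +
      (- (x i * g (e i)) - x i * g (e i))) = 0 := by
    have b1 : ∀ i, ((x i ^ 2 * H (e i) (e i) - x i * x i * H (e i) (e i) -
        x i * x i * H (e i) (e i) + x i ^ 2 * H (e i) (e i)) +
      (- (x i * g (e i)) - x i * g (e i))) = (-2) * (x i * g (e i)) := fun i => by ring
    rw [Finset.sum_congr rfl (fun i _ => b1 i), ← Finset.mul_sum, hgx, mul_zero]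
  simp only [] at h2
  rw [h3, h4, sub_zero] at h2
  linarith

theorem lap_trace (hn : 1 ≤ n) (P : Pol n) {x : E n} (hx : ‖x‖ = 1) :
    ∑ i : Fin n, fderiv ℝ (fderiv ℝ (fun y : E n => ‖y‖ ^ 2 * ev P (un y))) x
        (EuclideanSpace.single i (1 : ℝ)) (EuclideanSpace.single i (1 : ℝ))
      = 2 * (n : ℝ) * ev P x + ev (lapP P) x := by
  have hx0 : x ≠ 0 := by
    rw [← norm_pos_iff, hx]
    exact one_pos
  have hev : ev P x = pktG P x := by
    rw [pktG, un, hx, inv_one, one_smul]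
  have hN : ∀ y : E n, HasFDerivAt (fun z : E n => ‖z‖ ^ 2) (2 • innerSL ℝ y) y :=
    fun y => (hasStrictFDerivAt_norm_sq y).hasFDerivAt
  have h1 : fderiv ℝ (fun y : E n => ‖y‖ ^ 2 * ev P (un y)) =ᶠ[nhds x]
      fun y => ‖y‖ ^ 2 • fderiv ℝ (pktG P) y + pktG P y • (2 • innerSL ℝ y) := by
    filter_upwards [isOpen_compl_singleton.mem_nhds hx0] with y hy
    exact ((hN y).mul (pkt_diff P hy).hasFDerivAt).fderiv
  have hL : HasFDerivAt (fun y : E n => (2 • innerSL ℝ y : E n →L[ℝ] ℝ)) (2 • innerSL ℝ) x :=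
    (innerSL ℝ).hasFDerivAt.const_smul (2 : ℕ)
  have h2 : HasFDerivAt (fun y : E n => ‖y‖ ^ 2 • fderiv ℝ (pktG P) y +
      pktG P y • (2 • innerSL ℝ y : E n →L[ℝ] ℝ))
      ((‖x‖ ^ 2 • fderiv ℝ (fderiv ℝ (pktG P)) x +
        (2 • innerSL ℝ x : E n →L[ℝ] ℝ).smulRight (fderiv ℝ (pktG P) x)) +
       (pktG P x • (2 • innerSL ℝ) +
        (fderiv ℝ (pktG P) x).smulRight (2 • innerSL ℝ x : E n →L[ℝ] ℝ))) x :=
    ((hN x).smul (pkt_diff2 P hx0).hasFDerivAt).add ((pkt_diff P hx0).hasFDerivAt.smul hL)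
  rw [h1.fderiv_eq, h2.fderiv, pkt_lap P hx, hev]
  have h3 : ∀ i : Fin n, (((‖x‖ ^ 2 • fderiv ℝ (fderiv ℝ (pktG P)) x +
        (2 • innerSL ℝ x : E n →L[ℝ] ℝ).smulRight (fderiv ℝ (pktG P) x)) +
       (pktG P x • (2 • innerSL ℝ) +
        (fderiv ℝ (pktG P) x).smulRight (2 • innerSL ℝ x : E n →L[ℝ] ℝ)) :
        E n →L[ℝ] E n →L[ℝ] ℝ) (EuclideanSpace.single i (1 : ℝ))) (EuclideanSpace.single i (1 : ℝ)) =
      fderiv ℝ (fderiv ℝ (pktG P)) x (EuclideanSpace.single i (1 : ℝ))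
        (EuclideanSpace.single i (1 : ℝ)) +
      4 * (x i * fderiv ℝ (pktG P) x (EuclideanSpace.single i (1 : ℝ))) + 2 * pktG P x := by
    intro i
    have c1 : inner ℝ x (EuclideanSpace.single i (1 : ℝ) : E n) = x i := by
      rw [EuclideanSpace.inner_single_right]
      simp
    have c2 : inner ℝ (EuclideanSpace.single i (1 : ℝ) : E n)
        (EuclideanSpace.single i (1 : ℝ) : E n) = (1 : ℝ) := by
      rw [EuclideanSpace.inner_single_right]
      simp
    rw [hx, one_pow, one_smul]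
    change fderiv ℝ (fderiv ℝ (pktG P)) x (EuclideanSpace.single i (1 : ℝ))
        (EuclideanSpace.single i (1 : ℝ)) +
      (2 • inner ℝ x (EuclideanSpace.single i (1 : ℝ) : E n)) *
        fderiv ℝ (pktG P) x (EuclideanSpace.single i (1 : ℝ)) +
      (pktG P x * (2 • inner ℝ (EuclideanSpace.single i (1 : ℝ) : E n)
        (EuclideanSpace.single i (1 : ℝ) : E n)) +
       fderiv ℝ (pktG P) x (EuclideanSpace.single i (1 : ℝ)) *
        (2 • inner ℝ x (EuclideanSpace.single i (1 : ℝ) : E n))) = _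
    rw [c1, c2, two_smul, two_smul]
    ring
  rw [Finset.sum_congr rfl (fun i _ => h3 i), Finset.sum_add_distrib, Finset.sum_add_distrib,
    ← Finset.mul_sum, Finset.sum_const, Finset.card_univ, Fintype.card_fin, nsmul_eq_mul]
  have h4 : ∑ i : Fin n, x i * fderiv ℝ (pktG P) x (EuclideanSpace.single i (1 : ℝ)) = 0 := by
    have h := pkt_euler P hx0
    conv at h => lhs; arg 2; rw [pkt_expand x]
    rw [map_sum] at h
    rw [← h]
    exact Finset.sum_congr rfl fun i _ => by rw [map_smul, smul_eq_mul]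
  rw [h4]
  ring

end Pool.Agent.H35.CA
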