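import Pool.Agent.H35.CA.Pk
import Pool.Agent.H35.CA.PkT

/-!
# Job PKD: first order expansion of the density

Proof hints.
`dens_exp`: with `k = pk P`, `hh k ^ 2 / 2 = ‖y‖²/2 + F y + k y ^2 / 2`, so
`fderiv (TT k) x = 1 + Hess F x + Hess (k²/2) x` (as operators), `Hess F = O(nr P)`,
`Hess (k²/2) = O(nr P ^2)`, and `det (1 + M) = 1 + tr M + O(‖M‖²)` (for `‖M‖ ≤ 1`; the
determinant is a polynomial in the entries; `Matrix.det_one_add_smul` or compactness).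
Then multiply by `(1 + p)^(-n-1) = 1 - (n+1) p + O(p²)`.
-/

namespace Pool.Agent.H35.CA

open MeasureTheory Metric Set

variable {n : ℕ}

theorem pkd_prod {ι : Type*} [DecidableEq ι] (s : Finset ι) (a : ι → ℝ) {t : ℝ} (h0 : 0 ≤ t)
    (h1 : t ≤ 1) (h : ∀ i ∈ s, |a i| ≤ t) :
    |∏ i ∈ s, (1 + a i) - 1 - ∑ i ∈ s, a i| ≤ 3 ^ s.card * t ^ 2 := by
  induction s using Finset.induction_on with
  | empty => simp; positivity
  | insert j s hj ih =>
    rw [Finset.prod_insert hj, Finset.sum_insert hj, Finset.card_insert_of_notMem hj]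
    have ih' := ih (fun i hi => h i (Finset.mem_insert_of_mem hi))
    have hjt := h j (Finset.mem_insert_self j s)
    have hS : |∑ i ∈ s, a i| ≤ s.card * t := by
      refine (Finset.abs_sum_le_sum_abs _ _).trans ?_
      refine (Finset.sum_le_card_nsmul s _ t (fun i hi => h i (Finset.mem_insert_of_mem hi))).trans ?_
      simp
    set P := ∏ i ∈ s, (1 + a i) with hP
    set S := ∑ i ∈ s, a i with hS'
    have hid : (1 + a j) * P - 1 - (a j + S) = (P - 1 - S) + a j * ((P - 1 - S) + S) := by ring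
    rw [hid]
    have hc : (s.card : ℝ) ≤ 3 ^ s.card := by
      have := (Nat.lt_pow_self (n := s.card) (by norm_num : 1 < 3)).le
      exact_mod_cast this
    have h3 : |a j * ((P - 1 - S) + S)| ≤ t * (3 ^ s.card * t ^ 2 + s.card * t) := by
      rw [abs_mul]
      refine mul_le_mul hjt ((abs_add_le _ _).trans (add_le_add ih' hS)) (abs_nonneg _) h0
    have h4 : t * (3 ^ s.card * t ^ 2) ≤ 3 ^ s.card * t ^ 2 := by
      have : 0 ≤ (3 : ℝ) ^ s.card * t ^ 2 := by positivity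
      nlinarith
    have h5 : t * (s.card * t) ≤ 3 ^ s.card * t ^ 2 := by
      have : 0 ≤ t ^ 2 := by positivity
      nlinarith
    calc |(P - 1 - S) + a j * ((P - 1 - S) + S)|
        ≤ |P - 1 - S| + |a j * ((P - 1 - S) + S)| := abs_add_le _ _
      _ ≤ 3 ^ s.card * t ^ 2 + t * (3 ^ s.card * t ^ 2 + s.card * t) := add_le_add ih' h3
      _ ≤ 3 ^ (s.card + 1) * t ^ 2 := by
        rw [pow_succ (3 : ℝ) s.card]; nlinarith

theorem pkd_perm (A : Matrix (Fin n) (Fin n) ℝ) {t : ℝ} (h0 : 0 ≤ t) (h1 : t ≤ 1)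
    (h : ∀ i j, |A i j| ≤ t) (σ : Equiv.Perm (Fin n)) (hσ : σ ≠ 1) :
    |∏ i, (1 + A) (σ i) i| ≤ 2 ^ n * t ^ 2 := by
  rw [Finset.abs_prod]
  have hle : ∀ i ∈ (Finset.univ : Finset (Fin n)), |(1 + A) (σ i) i| ≤
      if i ∈ σ.support then t else 2 := by
    intro i _
    by_cases hi : σ i = i
    · have : i ∉ σ.support := by simpa using hi
      rw [if_neg this, Matrix.add_apply, hi, Matrix.one_apply_eq]
      refine (abs_add_le _ _).trans ?_
      have := h i i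
      rw [abs_one]; linarith
    · have : i ∈ σ.support := by simpa using hi
      rw [if_pos this, Matrix.add_apply, Matrix.one_apply_ne hi, zero_add]
      exact h _ _
  refine (Finset.prod_le_prod (fun i _ => abs_nonneg _) hle).trans ?_
  rw [Finset.prod_ite, Finset.prod_const, Finset.prod_const, mul_comm]
  have hs := Equiv.Perm.two_le_card_support_of_ne_one hσ
  have e1 : (Finset.univ.filter (fun x => x ∈ σ.support)) = σ.support := by ext; simp
  rw [e1]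
  refine mul_le_mul ?_ ?_ (by positivity) (by positivity)
  · refine pow_le_pow_right₀ (by norm_num) ?_
    exact (Finset.card_filter_le _ _).trans (by simp)
  · exact pow_le_pow_of_le_one h0 h1 hs

theorem pkd_det (A : Matrix (Fin n) (Fin n) ℝ) {t : ℝ} (h0 : 0 ≤ t) (h1 : t ≤ 1)
    (h : ∀ i j, |A i j| ≤ t) :
    |(1 + A).det - 1 - ∑ i, A i i| ≤ (3 ^ n + n.factorial * 2 ^ n) * t ^ 2 := by
  rw [Matrix.det_apply]
  rw [← Finset.add_sum_erase _ _ (Finset.mem_univ (1 : Equiv.Perm (Fin n)))]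
  have e1 : (Equiv.Perm.sign (1 : Equiv.Perm (Fin n)) • ∏ i, (1 + A) ((1 : Equiv.Perm (Fin n)) i) i)
      = ∏ i, (1 + A i i) := by
    simp [Matrix.add_apply]
  rw [e1]
  have h2 := pkd_prod (Finset.univ : Finset (Fin n)) (fun i => A i i) h0 h1 (fun i _ => h i i)
  have h3 : |∑ σ ∈ (Finset.univ : Finset (Equiv.Perm (Fin n))).erase 1,
      (Equiv.Perm.sign σ • ∏ i, (1 + A) (σ i) i)| ≤ n.factorial * (2 ^ n * t ^ 2) := by
    refine (Finset.abs_sum_le_sum_abs _ _).trans ?_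
    have h4 : ∀ σ ∈ (Finset.univ : Finset (Equiv.Perm (Fin n))).erase 1,
        |Equiv.Perm.sign σ • ∏ i, (1 + A) (σ i) i| ≤ 2 ^ n * t ^ 2 := by
      intro σ hσ
      have h5 := pkd_perm A h0 h1 h σ (Finset.ne_of_mem_erase hσ)
      rcases Int.units_eq_one_or (Equiv.Perm.sign σ) with h6 | h6
      · rw [h6, one_smul]; exact h5
      · rw [h6, Units.neg_smul, one_smul, abs_neg]; exact h5
    refine (Finset.sum_le_card_nsmul _ _ _ h4).trans ?_
    rw [nsmul_eq_mul]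
    refine mul_le_mul_of_nonneg_right ?_ (by positivity)
    have : ((Finset.univ : Finset (Equiv.Perm (Fin n))).erase 1).card ≤ n.factorial := by
      refine (Finset.card_erase_le).trans ?_
      rw [Finset.card_univ, Fintype.card_perm, Fintype.card_fin]
    exact_mod_cast this
  simp only [Finset.card_univ, Fintype.card_fin] at h2
  have h6 : ∀ a b c : ℝ, a + b - 1 - c = (a - 1 - c) + b := by intros; ring
  rw [h6]
  refine (abs_add_le _ _).trans ?_
  nlinarith [h2, h3]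

/-- `det (1 + M) = 1 + tr M + O(‖M‖²)` for operators. -/
theorem pkd_opdet (M : E n →L[ℝ] E n) (hM : ‖M‖ ≤ 1) :
    |(1 + M).det - 1 - ∑ i : Fin n, (M (EuclideanSpace.single i (1 : ℝ))) i|
      ≤ (3 ^ n + n.factorial * 2 ^ n) * ‖M‖ ^ 2 := by
  set b := (EuclideanSpace.basisFun (Fin n) ℝ).toBasis with hb
  have hbi : ∀ i, b i = EuclideanSpace.single i (1 : ℝ) := by
    intro i
    rw [hb, OrthonormalBasis.coe_toBasis, EuclideanSpace.basisFun_apply]
  set A := LinearMap.toMatrix b b (M : E n →ₗ[ℝ] E n) with hA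
  have hAij : ∀ i j, A i j = (M (EuclideanSpace.single j (1 : ℝ))) i := by
    intro i j
    rw [hA, LinearMap.toMatrix_apply, hbi, hb, OrthonormalBasis.coe_toBasis_repr_apply,
      EuclideanSpace.basisFun_repr]
    rfl
  have hd : (1 + M).det = (1 + A).det := by
    rw [ContinuousLinearMap.det, ← LinearMap.det_toMatrix b, hA]
    congr 1
    have : ((1 + M : E n →L[ℝ] E n) : E n →ₗ[ℝ] E n) = 1 + (M : E n →ₗ[ℝ] E n) := rfl
    rw [this, map_add, LinearMap.toMatrix_one]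
  have hle : ∀ i j, |A i j| ≤ ‖M‖ := by
    intro i j
    rw [hAij]
    have h1 : ‖(M (EuclideanSpace.single j (1 : ℝ))) i‖ ≤ ‖M (EuclideanSpace.single j (1 : ℝ))‖ :=
      PiLp.norm_apply_le _ _
    have h2 := M.le_opNorm (EuclideanSpace.single j (1 : ℝ))
    have h3 : ‖(EuclideanSpace.single j (1 : ℝ) : E n)‖ = 1 := by simp
    rw [h3, mul_one] at h2
    exact (Real.norm_eq_abs _ ▸ h1).trans h2
  have h := pkd_det A (norm_nonneg M) hM hle
  rw [hd]
  simpa only [hAij] using h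

/-- The inverse of the Riesz isomorphism, as a linear map. -/
noncomputable def pkdL (n : ℕ) : (E n →L[ℝ] ℝ) →L[ℝ] E n :=
  ∑ i : Fin n, (ContinuousLinearMap.apply ℝ ℝ (EuclideanSpace.single i (1 : ℝ))).smulRight
    (EuclideanSpace.single i (1 : ℝ))

theorem pkdL_apply (l : E n →L[ℝ] ℝ) (i : Fin n) :
    (pkdL n l) i = l (EuclideanSpace.single i (1 : ℝ)) := by
  rw [pkdL, _root_.sum_apply]
  simp only [ContinuousLinearMap.smulRight_apply, ContinuousLinearMap.apply_apply]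
  rw [WithLp.ofLp_sum, Finset.sum_apply]
  simp [Finset.sum_ite_eq]

theorem pkdL_eq (l : E n →L[ℝ] ℝ) : (InnerProductSpace.toDual ℝ (E n)).symm l = pkdL n l := by
  ext i
  rw [pkdL_apply, ← InnerProductSpace.toDual_symm_apply (𝕜 := ℝ) (E := E n)
    (x := EuclideanSpace.single i (1 : ℝ)) (y := l), EuclideanSpace.inner_single_right]
  simp

theorem pkdL_norm (l : E n →L[ℝ] ℝ) : ‖pkdL n l‖ = ‖l‖ := by
  rw [← pkdL_eq, LinearIsometryEquiv.norm_map]

theorem pkd_grad (g : E n → ℝ) (y : E n) : gradient g y = pkdL n (fderiv ℝ g y) := by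
  rw [gradient, pkdL_eq]

theorem pkd_norm_cd {x : E n} (hx : x ≠ 0) : ContDiffAt ℝ 3 (norm : E n → ℝ) x :=
  contDiffAt_norm ℝ hx

/-- Second derivatives exist. -/
theorem pkd_hasF {g : E n → ℝ} {x : E n} (hg : ContDiffAt ℝ 2 g x) :
    HasFDerivAt g (fderiv ℝ g x) x ∧ HasFDerivAt (fderiv ℝ g) (fderiv ℝ (fderiv ℝ g) x) x := by
  refine ⟨(hg.differentiableAt (by norm_num)).hasFDerivAt, ?_⟩
  have := hg.fderiv_right (m := 1) (by norm_num)
  exact (this.differentiableAt (by norm_num)).hasFDerivAt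

theorem pkd_TT (k : E n → ℝ) {x : E n} (hk : ContDiffAt ℝ 2 (hh k) x) :
    fderiv ℝ (TT k) x = hh k x • (pkdL n).comp (fderiv ℝ (fderiv ℝ (hh k)) x)
      + (fderiv ℝ (hh k) x).smulRight (pkdL n (fderiv ℝ (hh k) x)) := by
  have e : TT k = fun y => hh k y • pkdL n (fderiv ℝ (hh k) y) := by
    funext y; rw [TT, pkd_grad]
  obtain ⟨h1, h2⟩ := pkd_hasF hk
  rw [e]
  exact (h1.smul ((pkdL n).hasFDerivAt.comp x h2)).fderiv

theorem pkd_sum {k : E n → ℝ} {x : E n} (hx : x ≠ 0) (hk : ContDiffOn ℝ 2 k {0}ᶜ) :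
    ContDiffAt ℝ 2 (hh k) x ∧ fderiv ℝ (hh k) x = fderiv ℝ norm x + fderiv ℝ k x ∧
    fderiv ℝ (fderiv ℝ (hh k)) x = fderiv ℝ (fderiv ℝ norm) x + fderiv ℝ (fderiv ℝ k) x := by
  have hk' : ∀ y : E n, y ≠ 0 → ContDiffAt ℝ 2 k y := fun y hy =>
    hk.contDiffAt (isOpen_compl_singleton.mem_nhds hy)
  have hN : ∀ y : E n, y ≠ 0 → ContDiffAt ℝ 2 (norm : E n → ℝ) y := fun y hy =>
    contDiffAt_norm ℝ hy
  have hs : ∀ y : E n, y ≠ 0 → fderiv ℝ (hh k) y = fderiv ℝ norm y + fderiv ℝ k y := by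
    intro y hy
    exact ((pkd_hasF (hN y hy)).1.add (pkd_hasF (hk' y hy)).1).fderiv
  refine ⟨(hN x hx).add (hk' x hx), hs x hx, ?_⟩
  have h1 : fderiv ℝ (hh k) =ᶠ[nhds x] fun y => fderiv ℝ norm y + fderiv ℝ k y := by
    filter_upwards [isOpen_compl_singleton.mem_nhds hx] with y hy using hs y hy
  rw [h1.fderiv_eq]
  exact ((pkd_hasF (hN x hx)).2.add (pkd_hasF (hk' x hx)).2).fderiv

theorem pkd_norm_id {x : E n} (hx : x ≠ 0) :
    ‖x‖ • (pkdL n).comp (fderiv ℝ (fderiv ℝ norm) x)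
      + (fderiv ℝ norm x).smulRight (pkdL n (fderiv ℝ norm x)) = ContinuousLinearMap.id ℝ (E n) := by
  have h0 : (hh (fun _ : E n => (0 : ℝ))) = norm := by funext y; simp [hh]
  have h1 := pkd_TT (fun _ : E n => (0 : ℝ)) (x := x) (by rw [h0]; exact contDiffAt_norm ℝ hx)
  rw [h0] at h1
  rw [← h1]
  have h2 : TT (fun _ : E n => (0 : ℝ)) =ᶠ[nhds x] id := by
    filter_upwards [isOpen_compl_singleton.mem_nhds hx] with y hy
    rw [TT, h0, pkd_grad, id_eq]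
    have h3 : HasFDerivAt (norm : E n → ℝ) (fderiv ℝ norm y) y :=
      (pkd_hasF (contDiffAt_norm ℝ hy)).1
    have h4 := (h3.mul h3).fderiv
    have h5 : fderiv ℝ (fun z : E n => ‖z‖ * ‖z‖) y = 2 • (innerSL ℝ y) := by
      have := (hasStrictFDerivAt_norm_sq y).hasFDerivAt.fderiv
      simpa only [pow_two] using this
    have h6 : ‖y‖ • fderiv ℝ norm y = innerSL ℝ y := by
      ext v
      have h7 := congrArg (fun l : E n →L[ℝ] ℝ => l v) (h4.symm.trans h5)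
      simp only [_root_.add_apply, _root_.smul_apply, smul_eq_mul, nsmul_eq_mul, Nat.cast_ofNat] at h7 ⊢
      linarith
    rw [← map_smul, h6, ← pkdL_eq]
    exact (InnerProductSpace.toDual ℝ (E n)).symm_apply_apply y
  rw [h2.fderiv_eq, fderiv_id]

theorem pkd_F {k : E n → ℝ} (hk : ContDiffOn ℝ 2 k {0}ᶜ) {x : E n} (hx : x ≠ 0) (v w : E n) :
    fderiv ℝ (fderiv ℝ (fun y : E n => ‖y‖ * k y)) x v w =
      ‖x‖ * fderiv ℝ (fderiv ℝ k) x v w + fderiv ℝ norm x v * fderiv ℝ k x w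
        + (k x * fderiv ℝ (fderiv ℝ norm) x v w + fderiv ℝ k x v * fderiv ℝ norm x w) := by
  have hk' : ∀ y : E n, y ≠ 0 → ContDiffAt ℝ 2 k y := fun y hy =>
    hk.contDiffAt (isOpen_compl_singleton.mem_nhds hy)
  have hN : ∀ y : E n, y ≠ 0 → ContDiffAt ℝ 2 (norm : E n → ℝ) y := fun y hy =>
    contDiffAt_norm ℝ hy
  have h1 : fderiv ℝ (fun y : E n => ‖y‖ * k y) =ᶠ[nhds x]
      fun y => ‖y‖ • fderiv ℝ k y + k y • fderiv ℝ norm y := by
    filter_upwards [isOpen_compl_singleton.mem_nhds hx] with y hy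
    exact ((pkd_hasF (hN y hy)).1.mul (pkd_hasF (hk' y hy)).1).fderiv
  rw [h1.fderiv_eq]
  obtain ⟨a1, a2⟩ := pkd_hasF (hN x hx)
  obtain ⟨b1, b2⟩ := pkd_hasF (hk' x hx)
  have h2 := ((a1.smul b2).add (b1.smul a2)).fderiv
  have h3 : (fun y : E n => ‖y‖ • fderiv ℝ k y + k y • fderiv ℝ norm y)
      = (fun y : E n => ‖y‖) • fderiv ℝ k + k • fderiv ℝ norm := rfl
  rw [h3, h2]
  simp only [_root_.add_apply, _root_.smul_apply, ContinuousLinearMap.smulRight_apply, smul_eq_mul]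

/-- `fderiv (TT k) x - 1` at a unit vector. -/
theorem pkd_M {k : E n → ℝ} (hk : ContDiffOn ℝ 2 k {0}ᶜ) {x : E n} (hx : ‖x‖ = 1) (v : E n) :
    (fderiv ℝ (TT k) x - 1) v = k x • pkdL n (fderiv ℝ (fderiv ℝ norm) x v)
      + (1 + k x) • pkdL n (fderiv ℝ (fderiv ℝ k) x v)
      + fderiv ℝ norm x v • pkdL n (fderiv ℝ k x)
      + fderiv ℝ k x v • pkdL n (fderiv ℝ norm x)
      + fderiv ℝ k x v • pkdL n (fderiv ℝ k x) := by
  have hx0 : x ≠ 0 := by intro h; rw [h, norm_zero] at hx; norm_num at hx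
  obtain ⟨h1, h2, h3⟩ := pkd_sum hx0 hk
  have h4 := pkd_norm_id hx0
  have h5 : (1 : E n →L[ℝ] E n) = ContinuousLinearMap.id ℝ (E n) := rfl
  rw [pkd_TT k h1, h2, h3, h5, ← h4]
  have h6 : hh k x = 1 + k x := by rw [hh, hx]
  rw [h6, hx]
  simp only [_root_.add_apply, _root_.sub_apply, _root_.smul_apply,
    ContinuousLinearMap.smulRight_apply, ContinuousLinearMap.comp_apply, map_add]
  module

theorem pkd_norm_deriv (x v : E n) : |fderiv ℝ (norm : E n → ℝ) x v| ≤ ‖v‖ := by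
  have h1 : ‖fderiv ℝ (norm : E n → ℝ) x‖ ≤ 1 := by
    have := norm_fderiv_le_of_lipschitz ℝ (x₀ := x) (lipschitzWith_one_norm (E := E n))
    simpa using this
  have h2 := (fderiv ℝ (norm : E n → ℝ) x).le_opNorm v
  rw [Real.norm_eq_abs] at h2
  nlinarith [norm_nonneg v]

theorem pkd_norm_second (n : ℕ) : ∃ B : ℝ, 0 ≤ B ∧ ∀ x : E n, ‖x‖ = 1 →
    ‖fderiv ℝ (fderiv ℝ (norm : E n → ℝ)) x‖ ≤ B := by
  have hc : ContinuousOn (fun x : E n => ‖fderiv ℝ (fderiv ℝ (norm : E n → ℝ)) x‖)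
      (sphere (0 : E n) 1) := by
    intro x hx
    have hx0 : x ≠ 0 := by
      intro h
      rw [mem_sphere_zero_iff_norm, h, norm_zero] at hx
      norm_num at hx
    have h3 : ContDiffAt ℝ 3 (norm : E n → ℝ) x := contDiffAt_norm ℝ hx0
    have h2 := h3.fderiv_right (m := 2) (by norm_num)
    have h1 := h2.fderiv_right (m := 1) (by norm_num)
    have h0 : ContinuousAt (fun x : E n => fderiv ℝ (fderiv ℝ (norm : E n → ℝ)) x) x :=
      h1.continuousAt
    have h00 : ContinuousAt (fun x : E n => ‖fderiv ℝ (fderiv ℝ (norm : E n → ℝ)) x‖) x :=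
      (continuous_norm (E := E n →L[ℝ] E n →L[ℝ] ℝ)).continuousAt.comp h0
    exact h00.continuousWithinAt
  obtain ⟨B, hB⟩ := (isCompact_sphere (0 : E n) 1).bddAbove_image hc
  refine ⟨max B 0, le_max_right _ _, fun x hx => ?_⟩
  refine le_trans (hB ?_) (le_max_left _ _)
  exact ⟨x, by simpa using hx, rfl⟩


theorem pkd_pow (m : ℕ) {p : ℝ} (hp : |p| ≤ 1 / 2) :
    |((1 + p) ^ m)⁻¹ - (1 - m * p)| ≤ 2 ^ m * (m ^ 2 + (1 + m) * 3 ^ m) * p ^ 2 := by
  have h1 := pkd_prod (Finset.univ : Finset (Fin m)) (fun _ => p) (abs_nonneg p) (by linarith)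
    (fun i _ => le_refl _)
  simp only [Finset.prod_const, Finset.card_univ, Fintype.card_fin, Finset.sum_const,
    nsmul_eq_mul, sq_abs] at h1
  have hp2 := abs_le.mp hp
  have hpos : 0 < (1 + p) ^ m := by apply pow_pos; linarith
  have hinv : ((1 + p) ^ m)⁻¹ ≤ 2 ^ m := by
    rw [← inv_pow]
    refine pow_le_pow_left₀ (by rw [inv_nonneg]; linarith) ?_ m
    rw [inv_le_comm₀ (by linarith) (by norm_num)]
    linarith
  set R := (1 + p) ^ m - 1 - m * p with hR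
  have hq : (1 + p) ^ m = 1 + m * p + R := by rw [hR]; ring
  have hid : ((1 + p) ^ m)⁻¹ - (1 - m * p)
      = ((1 + p) ^ m)⁻¹ * ((m : ℝ) ^ 2 * p ^ 2 - (1 - m * p) * R) := by
    have h2 : ((m : ℝ) ^ 2 * p ^ 2 - (1 - m * p) * R) = 1 - (1 - m * p) * (1 + p) ^ m := by
      rw [hq]; ring
    rw [h2]
    field_simp
  rw [hid, abs_mul, abs_of_pos (inv_pos.mpr hpos), mul_assoc]
  refine mul_le_mul hinv ?_ (abs_nonneg _) (by positivity)
  have h3 : |(1 - (m : ℝ) * p) * R| ≤ (1 + m) * (3 ^ m * p ^ 2) := by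
    rw [abs_mul]
    refine mul_le_mul ?_ h1 (abs_nonneg _) (by positivity)
    have h4 : |(m : ℝ) * p| ≤ m := by
      rw [abs_mul, abs_of_nonneg (Nat.cast_nonneg m)]
      nlinarith [(Nat.cast_nonneg m : (0 : ℝ) ≤ m)]
    have h5 := abs_le.mp h4
    rw [abs_le]; constructor <;> linarith
  calc |(m : ℝ) ^ 2 * p ^ 2 - (1 - m * p) * R|
      ≤ |(m : ℝ) ^ 2 * p ^ 2| + |(1 - m * p) * R| := abs_sub _ _
    _ ≤ (m : ℝ) ^ 2 * p ^ 2 + (1 + m) * (3 ^ m * p ^ 2) := by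
        refine add_le_add (le_of_eq (abs_of_nonneg (by positivity))) h3
    _ = (m ^ 2 + (1 + m) * 3 ^ m) * p ^ 2 := by ring

theorem pkd_final {C a b r1 r3 ν : ℝ} (hC : 0 ≤ C) (hν : 0 ≤ ν) (hν1 : ν ≤ 1)
    (ha : |a| ≤ C * ν) (hb : |b| ≤ C * ν) (h1 : |r1| ≤ C * ν ^ 2) (h3 : |r3| ≤ C * ν ^ 2) :
    |(1 + a + r1) * (1 + b + r3) - (1 + (a + b))| ≤ (4 * C ^ 2 + 2 * C) * ν ^ 2 := by
  have e : (1 + a + r1) * (1 + b + r3) - (1 + (a + b))
      = a * b + a * r3 + (r1 * b + r1 * r3) + (r1 + r3) := by ring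
  rw [e]
  have hCν : 0 ≤ C * ν := mul_nonneg hC hν
  have hCν2 : 0 ≤ C * ν ^ 2 := by positivity
  have k1 : |a * b| ≤ C ^ 2 * ν ^ 2 := by
    rw [abs_mul]
    calc |a| * |b| ≤ (C * ν) * (C * ν) := mul_le_mul ha hb (abs_nonneg _) hCν
      _ = _ := by ring
  have k2 : |a * r3| ≤ C ^ 2 * ν ^ 2 := by
    rw [abs_mul]
    calc |a| * |r3| ≤ (C * ν) * (C * ν ^ 2) := mul_le_mul ha h3 (abs_nonneg _) hCν
      _ = C ^ 2 * ν ^ 2 * ν := by ring
      _ ≤ C ^ 2 * ν ^ 2 * 1 := mul_le_mul_of_nonneg_left hν1 (by positivity)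
      _ = _ := by ring
  have k3 : |r1 * b| ≤ C ^ 2 * ν ^ 2 := by
    rw [abs_mul]
    calc |r1| * |b| ≤ (C * ν ^ 2) * (C * ν) := mul_le_mul h1 hb (abs_nonneg _) hCν2
      _ = C ^ 2 * ν ^ 2 * ν := by ring
      _ ≤ C ^ 2 * ν ^ 2 * 1 := mul_le_mul_of_nonneg_left hν1 (by positivity)
      _ = _ := by ring
  have k4 : |r1 * r3| ≤ C ^ 2 * ν ^ 2 := by
    rw [abs_mul]
    calc |r1| * |r3| ≤ (C * ν ^ 2) * (C * ν ^ 2) := mul_le_mul h1 h3 (abs_nonneg _) hCν2
      _ = C ^ 2 * ν ^ 2 * ν ^ 2 := by ring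
      _ ≤ C ^ 2 * ν ^ 2 * 1 := mul_le_mul_of_nonneg_left (pow_le_one₀ hν hν1) (by positivity)
      _ = _ := by ring
  calc |a * b + a * r3 + (r1 * b + r1 * r3) + (r1 + r3)|
      ≤ |a * b| + |a * r3| + (|r1 * b| + |r1 * r3|) + (|r1| + |r3|) := by
        refine (abs_add_le _ _).trans (add_le_add ?_ (abs_add_le _ _))
        exact (abs_add_le _ _).trans (add_le_add (abs_add_le _ _) (abs_add_le _ _))
    _ ≤ _ := by nlinarith

theorem dens_exp (hn : 1 ≤ n) (Y : SHFam n) (K : ℕ) : ∃ C : ℝ, 0 < C ∧ ∃ c : ℝ, 0 < c ∧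
    ∀ P : Pol n, P.totalDegree ≤ K → nr P ≤ c → ∀ x : E n, ‖x‖ = 1 →
      |dens (pk P) x * (hh (pk P) x ^ (n + 1))⁻¹
        - (1 + (ev (lapP P) x + ((n : ℝ) - 1) * ev P x))| ≤ C * nr P ^ 2 := by
  obtain ⟨C1, hC1, hlow⟩ := low_bound hn Y K
  obtain ⟨C2, hC2, hev⟩ := ev_bound hn Y K
  obtain ⟨B, hB, hBn⟩ := pkd_norm_second n
  -- main constants
  set D : ℝ := C1 * B + 5 * C1 with hD
  have hDpos : 0 < D := by positivity
  set c : ℝ := min 1 (min (1 / (2 * C1)) (1 / D)) with hc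
  have hcpos : 0 < c := by positivity
  set Cd : ℝ := 3 ^ n + n.factorial * 2 ^ n with hCd
  have hCdpos : 0 < Cd := by positivity
  set Cp : ℝ := 2 ^ (n + 1) * (((n + 1 : ℕ) : ℝ) ^ 2 + (1 + ((n + 1 : ℕ) : ℝ)) * 3 ^ (n + 1)) with hCp
  have hCppos : 0 < Cp := by positivity
  set G : ℝ := Cd * D ^ 2 + 2 * n * C1 ^ 2 + (2 * n + 1) * (C1 + C2)
    + (n + 1) * (C1 + C2) + Cp * C1 ^ 2 with hG
  have hGpos : 0 < G := by positivity
  refine ⟨4 * G ^ 2 + 2 * G, by positivity, c, hcpos, ?_⟩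
  intro P hP hnu x hx
  set ν := nr P with hν
  have hν0 : 0 ≤ ν := Real.sqrt_nonneg _
  have hν1 : ν ≤ 1 := hnu.trans (min_le_left _ _)
  have hνC1 : C1 * ν ≤ 1 / 2 := by
    have : ν ≤ 1 / (2 * C1) := hnu.trans ((min_le_right _ _).trans (min_le_left _ _))
    rw [le_div_iff₀ (by positivity)] at this
    linarith
  have hνD : D * ν ≤ 1 := by
    have : ν ≤ 1 / D := hnu.trans ((min_le_right _ _).trans (min_le_right _ _))
    rw [le_div_iff₀ (by positivity)] at this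
    linarith
  have hx0 : x ≠ 0 := by intro h; rw [h, norm_zero] at hx; norm_num at hx
  have hS := hlow P hP
  have hk : ContDiffOn ℝ 2 (pk P) {0}ᶜ := hS.smooth.of_le (by norm_num)
  set p := pk P x with hp
  have hpe : p = ev P x := pk_sphere P hx
  have b0 : |p| ≤ C1 * ν := hS.b0 x hx
  have b1 : ‖fderiv ℝ (pk P) x‖ ≤ C1 * ν := hS.b1 x hx
  have b2 : ‖fderiv ℝ (fderiv ℝ (pk P)) x‖ ≤ C1 * ν := hS.b2 x hx
  obtain ⟨e1, e2⟩ := hev P hP x hx
  set M := fderiv ℝ (TT (pk P)) x - 1 with hM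
  have hCν : 0 ≤ C1 * ν := by positivity
  -- norm of M
  have hMn : ‖M‖ ≤ D * ν := by
    refine ContinuousLinearMap.opNorm_le_bound _ (by positivity) (fun v => ?_)
    rw [hM, pkd_M hk hx v]
    have n1 : ‖p • pkdL n (fderiv ℝ (fderiv ℝ norm) x v)‖ ≤ (C1 * ν) * (B * ‖v‖) := by
      rw [norm_smul, pkdL_norm, Real.norm_eq_abs]
      refine mul_le_mul b0 ?_ (norm_nonneg _) hCν
      exact (ContinuousLinearMap.le_opNorm _ v).trans
        (mul_le_mul_of_nonneg_right (hBn x hx) (norm_nonneg _))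
    have n2 : ‖(1 + p) • pkdL n (fderiv ℝ (fderiv ℝ (pk P)) x v)‖ ≤ 2 * ((C1 * ν) * ‖v‖) := by
      rw [norm_smul, pkdL_norm, Real.norm_eq_abs]
      refine mul_le_mul ?_ ?_ (norm_nonneg _) (by norm_num)
      · have := abs_le.mp (b0.trans hνC1)
        rw [abs_le]; constructor <;> linarith
      · exact (ContinuousLinearMap.le_opNorm _ v).trans
          (mul_le_mul_of_nonneg_right b2 (norm_nonneg _))
    have n3 : ‖fderiv ℝ norm x v • pkdL n (fderiv ℝ (pk P) x)‖ ≤ ‖v‖ * (C1 * ν) := by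
      rw [norm_smul, pkdL_norm, Real.norm_eq_abs]
      exact mul_le_mul (pkd_norm_deriv x v) b1 (norm_nonneg _) (norm_nonneg _)
    have b1v : |fderiv ℝ (pk P) x v| ≤ (C1 * ν) * ‖v‖ := by
      rw [← Real.norm_eq_abs]
      exact (ContinuousLinearMap.le_opNorm _ v).trans
        (mul_le_mul_of_nonneg_right b1 (norm_nonneg _))
    have n4 : ‖fderiv ℝ (pk P) x v • pkdL n (fderiv ℝ norm x)‖ ≤ ((C1 * ν) * ‖v‖) * 1 := by
      rw [norm_smul, pkdL_norm, Real.norm_eq_abs]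
      refine mul_le_mul b1v ?_ (norm_nonneg _) (by positivity)
      have := norm_fderiv_le_of_lipschitz ℝ (x₀ := x) (lipschitzWith_one_norm (E := E n))
      simpa using this
    have n5 : ‖fderiv ℝ (pk P) x v • pkdL n (fderiv ℝ (pk P) x)‖ ≤ ((C1 * ν) * ‖v‖) * 1 := by
      rw [norm_smul, pkdL_norm, Real.norm_eq_abs]
      refine mul_le_mul b1v ?_ (norm_nonneg _) (by positivity)
      linarith
    refine (norm_add_le _ _).trans ?_
    refine (add_le_add_left (norm_add_le _ _) _).trans ?_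
    refine (add_le_add_left (add_le_add_left (norm_add_le _ _) _) _).trans ?_
    refine (add_le_add_left (add_le_add_left (add_le_add_left (norm_add_le _ _) _) _) _).trans ?_
    have : D * ν * ‖v‖ = (C1 * ν) * (B * ‖v‖) + 2 * ((C1 * ν) * ‖v‖) + ‖v‖ * (C1 * ν)
      + ((C1 * ν) * ‖v‖) * 1 + ((C1 * ν) * ‖v‖) * 1 := by rw [hD]; ring
    rw [this]
    linarith
  have hM1 : ‖M‖ ≤ 1 := hMn.trans hνD
  have hMsq : ‖M‖ ^ 2 ≤ D ^ 2 * ν ^ 2 := by
    rw [← mul_pow]; exact pow_le_pow_left₀ (norm_nonneg _) hMn 2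
  have hdet := pkd_opdet M hM1
  have hdens : dens (pk P) x = (1 + M).det := by
    rw [dens, hM]; congr 1; abel
  -- the trace
  set R2 : ℝ := ∑ i : Fin n, (p * fderiv ℝ (fderiv ℝ (pk P)) x (EuclideanSpace.single i (1 : ℝ))
      (EuclideanSpace.single i (1 : ℝ)) + fderiv ℝ (pk P) x (EuclideanSpace.single i (1 : ℝ)) ^ 2)
    with hR2
  have htr : ∑ i : Fin n, (M (EuclideanSpace.single i (1 : ℝ))) i
      = 2 * n * p + ev (lapP P) x + R2 := by
    have h1 := lap_trace hn P hx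
    have h2 : (fun y : E n => ‖y‖ ^ 2 * ev P (un y)) = fun y => ‖y‖ * pk P y := by
      funext y; rw [pk]; ring
    rw [h2] at h1
    rw [hpe, ← h1, hR2, ← Finset.sum_add_distrib]
    refine Finset.sum_congr rfl (fun i _ => ?_)
    rw [hM, pkd_M hk hx, pkd_F hk hx0, hx]
    simp only [PiLp.add_apply, PiLp.smul_apply, pkdL_apply, smul_eq_mul]
    rw [hp]
    ring
  have hR2b : |R2| ≤ 2 * n * C1 ^ 2 * ν ^ 2 := by
    refine (Finset.abs_sum_le_sum_abs _ _).trans ?_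
    have h1 : ∀ i ∈ (Finset.univ : Finset (Fin n)),
        |p * fderiv ℝ (fderiv ℝ (pk P)) x (EuclideanSpace.single i (1 : ℝ))
      (EuclideanSpace.single i (1 : ℝ)) + fderiv ℝ (pk P) x (EuclideanSpace.single i (1 : ℝ)) ^ 2|
        ≤ 2 * C1 ^ 2 * ν ^ 2 := by
      intro i _
      have hs : ‖(EuclideanSpace.single i (1 : ℝ) : E n)‖ = 1 := by simp
      have g1 : |fderiv ℝ (pk P) x (EuclideanSpace.single i (1 : ℝ))| ≤ C1 * ν := by
        rw [← Real.norm_eq_abs]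
        refine (ContinuousLinearMap.le_opNorm _ _).trans ?_
        rw [hs, mul_one]; exact b1
      have g2 : |fderiv ℝ (fderiv ℝ (pk P)) x (EuclideanSpace.single i (1 : ℝ))
          (EuclideanSpace.single i (1 : ℝ))| ≤ C1 * ν := by
        rw [← Real.norm_eq_abs]
        refine (ContinuousLinearMap.le_opNorm _ _).trans ?_
        rw [hs, mul_one]
        refine (ContinuousLinearMap.le_opNorm _ _).trans ?_
        rw [hs, mul_one]; exact b2
      refine (abs_add_le _ _).trans ?_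
      rw [abs_mul, abs_of_nonneg
        (sq_nonneg (fderiv ℝ (pk P) x (EuclideanSpace.single i (1 : ℝ))))]
      have g3 : |p| * |fderiv ℝ (fderiv ℝ (pk P)) x (EuclideanSpace.single i (1 : ℝ))
          (EuclideanSpace.single i (1 : ℝ))| ≤ (C1 * ν) * (C1 * ν) :=
        mul_le_mul b0 g2 (abs_nonneg _) hCν
      have g4 : fderiv ℝ (pk P) x (EuclideanSpace.single i (1 : ℝ)) ^ 2 ≤ (C1 * ν) ^ 2 := by
        rw [← sq_abs]; exact pow_le_pow_left₀ (abs_nonneg _) g1 2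
      refine (add_le_add g3 g4).trans (le_of_eq ?_)
      ring
    refine (Finset.sum_le_card_nsmul _ _ _ h1).trans ?_
    rw [Finset.card_univ, Fintype.card_fin, nsmul_eq_mul]
    apply le_of_eq; ring
  have hhx : hh (pk P) x = 1 + p := by rw [hh, hx]
  have hpow := pkd_pow (n + 1) (b0.trans hνC1)
  have hp2 : p ^ 2 ≤ C1 ^ 2 * ν ^ 2 := by
    rw [← sq_abs, ← mul_pow]; exact pow_le_pow_left₀ (abs_nonneg _) b0 2
  rw [hdens, hhx]
  have hν2 : 0 ≤ ν ^ 2 := sq_nonneg _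
  have hn0 : (0 : ℝ) ≤ n := Nat.cast_nonneg n
  set r1 : ℝ := (1 + M).det - 1 - (2 * n * p + ev (lapP P) x) with hr1
  set r3 : ℝ := ((1 + p) ^ (n + 1))⁻¹ - (1 - ((n + 1 : ℕ) : ℝ) * p) with hr3
  have q1 : |r1| ≤ G * ν ^ 2 := by
    have : r1 = ((1 + M).det - 1 - ∑ i : Fin n, (M (EuclideanSpace.single i (1 : ℝ))) i) + R2 := by
      rw [htr, hr1]; ring
    rw [this]
    refine (abs_add_le _ _).trans ?_
    have t1 : |(1 + M).det - 1 - ∑ i : Fin n, (M (EuclideanSpace.single i (1 : ℝ))) i|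
        ≤ Cd * (D ^ 2 * ν ^ 2) := hdet.trans (mul_le_mul_of_nonneg_left hMsq hCdpos.le)
    have t2 : Cd * D ^ 2 + 2 * n * C1 ^ 2 ≤ G := by
      rw [hG]
      have : 0 ≤ (2 * n + 1) * (C1 + C2) + (n + 1) * (C1 + C2) + Cp * C1 ^ 2 := by positivity
      linarith
    calc _ ≤ Cd * (D ^ 2 * ν ^ 2) + 2 * n * C1 ^ 2 * ν ^ 2 := add_le_add t1 hR2b
      _ = (Cd * D ^ 2 + 2 * n * C1 ^ 2) * ν ^ 2 := by ring
      _ ≤ G * ν ^ 2 := mul_le_mul_of_nonneg_right t2 hν2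
  have q3 : |r3| ≤ G * ν ^ 2 := by
    have t2 : Cp * C1 ^ 2 ≤ G := by
      rw [hG]
      have : 0 ≤ Cd * D ^ 2 + 2 * n * C1 ^ 2 + (2 * n + 1) * (C1 + C2) + (n + 1) * (C1 + C2) := by
        positivity
      linarith
    calc |r3| ≤ Cp * p ^ 2 := by rw [hr3, hCp]; exact hpow
      _ ≤ Cp * (C1 ^ 2 * ν ^ 2) := mul_le_mul_of_nonneg_left hp2 hCppos.le
      _ = Cp * C1 ^ 2 * ν ^ 2 := by ring
      _ ≤ G * ν ^ 2 := mul_le_mul_of_nonneg_right t2 hν2
  have qa : |2 * n * p + ev (lapP P) x| ≤ G * ν := by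
    have t2 : 2 * n * C1 + C2 ≤ G := by
      rw [hG]
      have : 0 ≤ Cd * D ^ 2 + 2 * n * C1 ^ 2 + (n + 1) * (C1 + C2) + Cp * C1 ^ 2
        + 2 * n * C2 + C1 := by positivity
      linarith
    refine (abs_add_le _ _).trans ?_
    rw [abs_mul, abs_of_nonneg (by positivity : (0 : ℝ) ≤ 2 * n)]
    calc 2 * n * |p| + |ev (lapP P) x| ≤ 2 * n * (C1 * ν) + C2 * ν :=
          add_le_add (mul_le_mul_of_nonneg_left b0 (by positivity)) e2
      _ = (2 * n * C1 + C2) * ν := by ring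
      _ ≤ G * ν := mul_le_mul_of_nonneg_right t2 hν0
  have qb : |-(((n + 1 : ℕ) : ℝ) * p)| ≤ G * ν := by
    have t2 : (n + 1) * C1 ≤ G := by
      rw [hG]
      have : 0 ≤ Cd * D ^ 2 + 2 * n * C1 ^ 2 + (2 * n + 1) * (C1 + C2) + Cp * C1 ^ 2
        + (n + 1) * C2 := by positivity
      linarith
    rw [abs_neg, abs_mul, abs_of_nonneg (by positivity : (0 : ℝ) ≤ ((n + 1 : ℕ) : ℝ))]
    push_cast
    calc ((n : ℝ) + 1) * |p| ≤ (n + 1) * (C1 * ν) := mul_le_mul_of_nonneg_left b0 (by positivity)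
      _ = ((n + 1) * C1) * ν := by ring
      _ ≤ G * ν := mul_le_mul_of_nonneg_right t2 hν0
  have hfin := pkd_final hGpos.le hν0 hν1 qa qb q1 q3
  have s1 : (1 + M).det = 1 + (2 * n * p + ev (lapP P) x) + r1 := by rw [hr1]; ring
  have s2 : ((1 + p) ^ (n + 1))⁻¹ = 1 + (-(((n + 1 : ℕ) : ℝ) * p)) + r3 := by rw [hr3]; ring
  have s3 : 1 + (ev (lapP P) x + ((n : ℝ) - 1) * ev P x)
      = 1 + (2 * n * p + ev (lapP P) x + -(((n + 1 : ℕ) : ℝ) * p)) := by
    rw [hpe]; push_cast; ring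
  rw [s1, s2, s3]
  exact hfin

end Pool.Agent.H35.CA
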