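import Pool.Agent.H35.CA.GauB

/-!
# Job RTA: the optimal shift

Proof hints.
`GG_min`: (convexity in the shift) `G z = GG F h z` is continuous on the ball `‖z‖ ≤ 1/4`.
`G 0 ≤ (1-δ)^(-n) (1 + δ1 + η)`, and for `‖z‖ = 1/4`
`G z ≥ ∫ F (1 + δ - ⟨z,x⟩)^(-n) ≥ (1 - δ1) ∫ (1 + δ - ⟨z,x⟩)^(-n) - 2^n η` and
`∫ (1 + δ - ⟨z,x⟩)^(-n) ≥ (1+δ)^(-n) (1 + c_n)` with `c_n > 0` because
`(1-t)^(-n) ≥ 1 + n t + c t²` for `|t| ≤ 1/4` and `∫ ⟨z,x⟩² = ‖z‖²/n`.  So for `δ, δ1, η` small
the minimum over the closed ball is attained at some `z*` with `‖z*‖ < 1/4`, where the gradient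
vanishes: `∫ F ⟨y,x⟩ (h - ⟨z*,x⟩)^(-n-1) = 0`.
Convexity of `t ↦ t^(-n)` on `t > 0`: `b^(-n) ≥ a^(-n) - n a^(-n-1) (b - a)`; with
`a = h x - ⟨z*,x⟩`, `b = l x - ⟨z,x⟩` and criticality this is `GG_convex`.
-/

namespace Pool.Agent.H35.CA

open MeasureTheory Metric Set

variable {n : ℕ}

theorem rtA_ne {x : E n} (hx : ‖x‖ = 1) : x ≠ 0 := by
  intro h
  rw [h, norm_zero] at hx
  exact zero_ne_one hx

theorem rtA_contF {F : E n → ℝ} (hF : H0 F) : ContinuousOn F (sphere (0 : E n) 1) :=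
  hF.cont.mono (by
    intro x hx h
    exact rtA_ne (by simpa using hx) h)

theorem rtA_cont_pow {h : E n → ℝ} (hh : P1 h) (z : E n) (m : ℕ)
    (hz : ∀ x, ‖x‖ = 1 → 0 < h x - inner ℝ z x) :
    ContinuousOn (fun x => ((h x - inner ℝ z x) ^ m)⁻¹) (sphere (0 : E n) 1) := by
  refine ContinuousOn.inv₀ ((hh.cont.sub
    (continuous_const.inner continuous_id)).continuousOn.pow m) ?_
  intro x hx
  exact (pow_pos (hz x (by simpa using hx)) m).ne'

theorem rtA_cont_inner (y : E n) : ContinuousOn (fun x => inner ℝ y x) (sphere (0 : E n) 1) :=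
  (continuous_const.inner continuous_id).continuousOn

/-- convexity of `t ↦ t^(-n)` -/
theorem rtA_conv (m : ℕ) {a b : ℝ} (ha : 0 < a) (hb : 0 < b) :
    (a ^ m)⁻¹ - m * (b - a) * (a ^ (m + 1))⁻¹ ≤ (b ^ m)⁻¹ := by
  have hs : -2 ≤ a / b - 1 := by
    have : 0 < a / b := by positivity
    linarith
  have h1 := one_add_mul_le_pow hs m
  have h2 : -((b - a) / a) ≤ a / b - 1 := by
    have h3 : a / b - 1 + (b - a) / a = (b - a) ^ 2 / (a * b) := by
      field_simp
      ring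
    have h4 : 0 ≤ (b - a) ^ 2 / (a * b) := by positivity
    linarith
  have h5 : 1 - m * ((b - a) / a) ≤ (a / b) ^ m := by
    have h6 : (m : ℝ) * (-((b - a) / a)) ≤ m * (a / b - 1) :=
      mul_le_mul_of_nonneg_left h2 (Nat.cast_nonneg m)
    have h7 : (1 + (a / b - 1)) ^ m = (a / b) ^ m := by
      congr 1
      ring
    rw [h7] at h1
    linarith
  have h8 := mul_le_mul_of_nonneg_right h5 (inv_nonneg.mpr (pow_nonneg ha.le m))
  have e1 : (a / b) ^ m * (a ^ m)⁻¹ = (b ^ m)⁻¹ := by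
    rw [div_pow]
    field_simp
  have e2 : (1 - m * ((b - a) / a)) * (a ^ m)⁻¹ =
      (a ^ m)⁻¹ - m * (b - a) * (a ^ (m + 1))⁻¹ := by
    rw [pow_succ]
    field_simp
  rw [e1, e2] at h8
  exact h8

/-- the second order Bernoulli inequality -/
theorem rtA_bern (m : ℕ) {t : ℝ} (h1 : -(1 / 4) ≤ t) (h2 : t ≤ 1 / 4) :
    1 + m * t + m * (4 / 5 * t ^ 2) ≤ ((1 - t) ^ m)⁻¹ := by
  have ha : 0 < 1 - t := by linarith
  have h3 : t + 4 / 5 * t ^ 2 ≤ (1 - t)⁻¹ - 1 := by
    have h4 : (1 - t)⁻¹ - 1 = t / (1 - t) := by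
      field_simp
      ring
    rw [h4, le_div_iff₀ ha]
    nlinarith [mul_nonneg (sq_nonneg t) (by linarith : 0 ≤ 1 + 4 * t)]
  have h5 : -2 ≤ (1 - t)⁻¹ - 1 := by
    have := inv_pos.mpr ha
    linarith
  have h6 := one_add_mul_le_pow h5 m
  have h7 : (1 + ((1 - t)⁻¹ - 1)) ^ m = ((1 - t) ^ m)⁻¹ := by
    rw [← inv_pow]
    congr 1
    ring
  rw [h7] at h6
  have h8 : (m : ℝ) * (t + 4 / 5 * t ^ 2) ≤ m * ((1 - t)⁻¹ - 1) :=
    mul_le_mul_of_nonneg_left h3 (Nat.cast_nonneg m)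
  linarith

theorem rtA_inner_le {y x : E n} (hx : ‖x‖ = 1) : |inner ℝ y x| ≤ ‖y‖ := by
  have := abs_real_inner_le_norm y x
  rwa [hx, mul_one] at this

/-- the choice of `δ1` -/
theorem rtA_delta (n : ℕ) : ∃ δ : ℝ, 0 < δ ∧ δ ≤ 1 / 8 ∧
    ((1 - δ) ^ n)⁻¹ * (1 + 2 * δ) < (1 - δ) * (((1 + δ) ^ n)⁻¹ * (33 / 32)) - 2 ^ n * δ := by
  have h1 : ContinuousAt (fun δ : ℝ => (1 - δ) * (((1 + δ) ^ n)⁻¹ * (33 / 32)) - 2 ^ n * δ -
      ((1 - δ) ^ n)⁻¹ * (1 + 2 * δ)) 0 := by
    have hp : ContinuousAt (fun δ : ℝ => ((1 + δ) ^ n)⁻¹) 0 :=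
      ContinuousAt.inv₀ (by fun_prop) (by norm_num)
    have hq : ContinuousAt (fun δ : ℝ => ((1 - δ) ^ n)⁻¹) 0 :=
      ContinuousAt.inv₀ (by fun_prop) (by norm_num)
    fun_prop
  have h2 : (0 : ℝ) < (1 - 0) * (((1 + 0) ^ n)⁻¹ * (33 / 32)) - 2 ^ n * 0 -
      ((1 - 0) ^ n)⁻¹ * (1 + 2 * 0) := by norm_num
  have h3 := h1.eventually (lt_mem_nhds h2)
  have h4 : ∀ᶠ δ : ℝ in nhds 0, δ < 1 / 8 := gt_mem_nhds (by norm_num)
  obtain ⟨ε, hε, h5⟩ := Metric.eventually_nhds_iff.mp (h3.and h4)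
  have h6 := h5 (y := ε / 2) (by
    rw [Real.dist_eq, sub_zero, abs_of_pos (by linarith)]
    linarith)
  exact ⟨ε / 2, by linarith, h6.2.le, by linarith [h6.1]⟩

/-- at an interior minimum the gradient vanishes -/
theorem rtA_grad (hn : 1 ≤ n) {F : E n → ℝ} (hF : H0 F) (hpos : ∀ x, x ≠ 0 → 0 < F x)
    {h : E n → ℝ} (hh : P1 h) (hN : ∀ x, ‖x‖ = 1 → 7 / 8 ≤ h x) {z : E n} (hz : ‖z‖ < 1 / 4)
    (hmin : ∀ w : E n, ‖w‖ ≤ 1 / 4 → GG F h z ≤ GG F h w) (y : E n) :
    0 ≤ ∫ x, F x * inner ℝ y x * ((h x - inner ℝ z x) ^ (n + 1))⁻¹ ∂(mu n) := by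
  obtain ⟨B, hB⟩ := sphA_bdd hn hF
  have hB0 : 0 ≤ B := by
    obtain ⟨x, hx⟩ := gauB_ex hn
    exact (abs_nonneg _).trans (hB x (rtA_ne hx))
  have hlow : ∀ w : E n, ‖w‖ ≤ 1 / 4 → ∀ x, ‖x‖ = 1 → 5 / 8 ≤ h x - inner ℝ w x := by
    intro w hw x hx
    have h1 := (abs_le.mp (rtA_inner_le (y := w) hx)).2
    have h2 := hN x hx
    linarith
  set I := ∫ x, F x * inner ℝ y x * ((h x - inner ℝ z x) ^ (n + 1))⁻¹ ∂(mu n) with hI
  set K : ℝ := B * ‖y‖ * (((n + 1 : ℕ) : ℝ) * 4 ^ (n + 1) * (16 * ‖y‖)) with hK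
  have hK0 : 0 ≤ K := by positivity
  -- for small `s` the inequality with an error `K s`
  have key : ∀ s : ℝ, 0 < s → ‖z‖ + s * ‖y‖ ≤ 1 / 4 → -(K * s) ≤ I := by
    intro s hs hsz
    have hw : ‖z + s • y‖ ≤ 1 / 4 := by
      refine (norm_add_le _ _).trans ?_
      rw [norm_smul, Real.norm_of_nonneg hs.le]
      exact hsz
    have hm := hmin _ hw
    have hFc := rtA_contF hF
    have hza := hlow z hz.le
    have hwa := hlow _ hw
    have ca := rtA_cont_pow hh z n (fun x hx => by linarith [hza x hx])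
    have cb := rtA_cont_pow hh (z + s • y) n (fun x hx => by linarith [hwa x hx])
    have ca1 := rtA_cont_pow hh z (n + 1) (fun x hx => by linarith [hza x hx])
    have cb1 := rtA_cont_pow hh (z + s • y) (n + 1) (fun x hx => by linarith [hwa x hx])
    have cy := rtA_cont_inner y
    have c1 : ContinuousOn (fun x => F x * ((h x - inner ℝ (z + s • y) x) ^ n)⁻¹)
        (sphere (0 : E n) 1) := hFc.mul cb
    have c2 : ContinuousOn (fun x => F x * ((h x - inner ℝ z x) ^ n)⁻¹)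
        (sphere (0 : E n) 1) := hFc.mul ca
    have c3 : ContinuousOn (fun x => F x * inner ℝ y x *
        ((h x - inner ℝ (z + s • y) x) ^ (n + 1))⁻¹) (sphere (0 : E n) 1) := (hFc.mul cy).mul cb1
    have c4 : ContinuousOn (fun x => F x * inner ℝ y x *
        ((h x - inner ℝ z x) ^ (n + 1))⁻¹) (sphere (0 : E n) 1) := (hFc.mul cy).mul ca1
    have h1 : GG F h (z + s • y) ≤ ∫ x, (F x * ((h x - inner ℝ z x) ^ n)⁻¹ +
        (n * s) * (F x * inner ℝ y x * ((h x - inner ℝ (z + s • y) x) ^ (n + 1))⁻¹)) ∂(mu n) := by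
      refine int_mono hn c1 (c2.add (continuousOn_const.mul c3)) (fun x hx => ?_)
      have hb := hwa x hx
      have ha := hza x hx
      have h2 := rtA_conv n (a := h x - inner ℝ (z + s • y) x) (b := h x - inner ℝ z x)
        (by linarith) (by linarith)
      have h3 : h x - inner ℝ z x - (h x - inner ℝ (z + s • y) x) = s * inner ℝ y x := by
        rw [inner_add_left, inner_smul_left]
        simp only [conj_trivial]
        ring
      rw [h3] at h2
      have hFx := hpos x (rtA_ne hx)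
      have h4 := mul_le_mul_of_nonneg_left h2 hFx.le
      linarith
    rw [integral_add (integrable_mu hn c2) ((integrable_mu hn c3).const_mul _),
      integral_const_mul] at h1
    have h2 : GG F h z = ∫ x, F x * ((h x - inner ℝ z x) ^ n)⁻¹ ∂(mu n) := rfl
    rw [← h2] at h1
    have h3 : 0 ≤ (n * s) *
        ∫ x, F x * inner ℝ y x * ((h x - inner ℝ (z + s • y) x) ^ (n + 1))⁻¹ ∂(mu n) := by
      linarith
    have hns : 0 < (n : ℝ) * s := mul_pos (by exact_mod_cast hn) hs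
    have h4 := nonneg_of_mul_nonneg_right h3 hns
    have h5 : |(∫ x, F x * inner ℝ y x * ((h x - inner ℝ z x) ^ (n + 1))⁻¹ ∂(mu n)) -
        ∫ x, F x * inner ℝ y x * ((h x - inner ℝ (z + s • y) x) ^ (n + 1))⁻¹ ∂(mu n)| ≤ K * s := by
      rw [← integral_sub (integrable_mu hn c4) (integrable_mu hn c3)]
      refine int_abs_le hn (fun x hx => ?_)
      have hb := hwa x hx
      have ha := hza x hx
      have hFx := hB x (rtA_ne hx)
      have hyx := rtA_inner_le (y := y) hx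
      have h3 : h x - inner ℝ (z + s • y) x = (h x - inner ℝ z x) - s * inner ℝ y x := by
        rw [inner_add_left, inner_smul_left]
        simp only [conj_trivial]
        ring
      set a := h x - inner ℝ z x
      set c := h x - inner ℝ (z + s • y) x
      have ha0 : 0 < a := by linarith
      have hc0 : 0 < c := by linarith
      have hp : a⁻¹ ≤ 4 := by
        rw [inv_le_comm₀ ha0 (by norm_num)]
        linarith
      have hq : c⁻¹ ≤ 4 := by
        rw [inv_le_comm₀ hc0 (by norm_num)]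
        linarith
      have h5 := gauB_pow (n + 1) (inv_nonneg.mpr ha0.le) (inv_nonneg.mpr hc0.le) hp hq
      have h6 : |a⁻¹ - c⁻¹| ≤ 16 * ‖y‖ * s := by
        have h7 : a⁻¹ - c⁻¹ = (c - a) * (a⁻¹ * c⁻¹) := by
          field_simp
        rw [h7, abs_mul, abs_of_nonneg (by positivity : 0 ≤ a⁻¹ * c⁻¹)]
        have h8 : a⁻¹ * c⁻¹ ≤ 16 := by
          have := mul_le_mul hp hq (inv_nonneg.mpr hc0.le) (by norm_num)
          linarith
        have h9 : |c - a| ≤ s * ‖y‖ := by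
          have : c - a = -(s * inner ℝ y x) := by linarith
          rw [this, abs_neg, abs_mul, abs_of_pos hs]
          exact mul_le_mul_of_nonneg_left hyx hs.le
        calc |c - a| * (a⁻¹ * c⁻¹) ≤ (s * ‖y‖) * 16 :=
              mul_le_mul h9 h8 (by positivity) (by positivity)
          _ = 16 * ‖y‖ * s := by ring
      have h9 : |(a⁻¹) ^ (n + 1) - (c⁻¹) ^ (n + 1)| ≤
          ((n + 1 : ℕ) : ℝ) * 4 ^ (n + 1) * (16 * ‖y‖) * s := by
        have h10 : ((n + 1 : ℕ) : ℝ) * 4 ^ (n + 1) * |a⁻¹ - c⁻¹| ≤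
            ((n + 1 : ℕ) : ℝ) * 4 ^ (n + 1) * (16 * ‖y‖ * s) :=
          mul_le_mul_of_nonneg_left h6 (by positivity)
        have h11 := abs_nonneg ((a⁻¹) ^ (n + 1) - (c⁻¹) ^ (n + 1))
        linarith
      rw [← mul_sub, abs_mul, ← inv_pow, ← inv_pow, abs_mul]
      calc |F x| * |inner ℝ y x| * |a⁻¹ ^ (n + 1) - c⁻¹ ^ (n + 1)| ≤
            (B * ‖y‖) * (((n + 1 : ℕ) : ℝ) * 4 ^ (n + 1) * (16 * ‖y‖) * s) := by
            refine mul_le_mul (mul_le_mul hFx hyx (abs_nonneg _) hB0) h9 (abs_nonneg _)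
              (by positivity)
        _ = K * s := by rw [hK]; ring
    have h6 := (abs_le.mp h5).1
    linarith
  -- let `s` tend to zero
  by_contra hneg
  have hneg' : I < 0 := not_le.mp hneg
  set r : ℝ := (1 / 4 - ‖z‖) / (‖y‖ + 1) with hr
  have hr0 : 0 < r := div_pos (by linarith) (by positivity)
  set s : ℝ := min r (-I / (2 * (K + 1))) with hs
  have hs0 : 0 < s := lt_min hr0 (div_pos (by linarith) (by positivity))
  have hs1 : ‖z‖ + s * ‖y‖ ≤ 1 / 4 := by
    have h1 : s * ‖y‖ ≤ r * (‖y‖ + 1) :=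
      mul_le_mul (min_le_left _ _) (by linarith) (norm_nonneg _) hr0.le
    have h2 : r * (‖y‖ + 1) = 1 / 4 - ‖z‖ := by
      rw [hr]
      exact div_mul_cancel₀ _ (by positivity)
    linarith
  have h1 := key s hs0 hs1
  have h2 : s ≤ -I / (2 * (K + 1)) := min_le_right _ _
  rw [le_div_iff₀ (by positivity)] at h2
  nlinarith

theorem GG_min (hn : 1 ≤ n) : ∃ δ1 : ℝ, 0 < δ1 ∧ δ1 ≤ 1 / 8 ∧ ∀ F : E n → ℝ, H0 F →
    (∀ x, x ≠ 0 → 0 < F x) → ∀ ψ : E n → ℝ, H0 ψ → (∀ x, x ≠ 0 → |ψ x - 1| ≤ δ1) →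
    ∫ x, |F x - ψ x| ∂(mu n) ≤ δ1 → ∀ h : E n → ℝ, P1 h → Near δ1 h →
      ∃ z : E n, ‖z‖ < 1 / 4 ∧
        (∀ y : E n, ∫ x, F x * inner ℝ y x * ((h x - inner ℝ z x) ^ (n + 1))⁻¹ ∂(mu n) = 0) := by
  obtain ⟨δ, hδ0, hδ1, hδ⟩ := rtA_delta n
  refine ⟨δ, hδ0, hδ1, ?_⟩
  intro F hF hpos ψ hψ hψ1 hI h hh hN
  have hprob := mu_prob hn
  have hup : ∀ x, ‖x‖ = 1 → h x ≤ 1 + δ := fun x hx => by
    have := (abs_le.mp (hN x hx)).2
    linarith
  have hlo : ∀ x, ‖x‖ = 1 → 1 - δ ≤ h x := fun x hx => by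
    have := (abs_le.mp (hN x hx)).1
    linarith
  have hlow : ∀ w : E n, ‖w‖ ≤ 1 / 4 → ∀ x, ‖x‖ = 1 → 5 / 8 ≤ h x - inner ℝ w x := by
    intro w hw x hx
    have h1 := (abs_le.mp (rtA_inner_le (y := w) hx)).2
    have h2 := hlo x hx
    linarith
  obtain ⟨B, hB⟩ := sphA_bdd hn hF
  have hB0 : 0 ≤ B := by
    obtain ⟨x, hx⟩ := gauB_ex hn
    exact (abs_nonneg _).trans (hB x (rtA_ne hx))
  have hcont : ContinuousOn (fun z => GG F h z) (closedBall (0 : E n) (1 / 4)) := by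
    rw [Metric.continuousOn_iff]
    intro z hz ε hε
    set L : ℝ := B * (n * 4 ^ (n + 1)) with hL
    have hL0 : 0 ≤ L := by positivity
    refine ⟨ε / (L + 1), by positivity, fun w hw hd => ?_⟩
    have hz' : ‖z‖ ≤ 1 / 4 := by simpa using hz
    have hw' : ‖w‖ ≤ 1 / 4 := by simpa using hw
    have h1 := GG_close hn hF hB hh hh (z := w) (y := z)
      (fun x hx => by linarith [hlow w hw' x hx]) (fun x hx => by linarith [hlow z hz' x hx])
      (η := ‖w - z‖) (fun x hx => by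
        have : (h x - inner ℝ w x) - (h x - inner ℝ z x) = - inner ℝ (w - z) x := by
          rw [inner_sub_left]
          ring
        rw [this, abs_neg]
        exact rtA_inner_le hx)
    rw [Real.dist_eq]
    rw [dist_eq_norm, lt_div_iff₀ (by positivity)] at hd
    refine lt_of_le_of_lt h1 ?_
    have := norm_nonneg (w - z)
    rw [← hL]
    nlinarith
  obtain ⟨z, hz, hzmin⟩ := (isCompact_closedBall (0 : E n) (1 / 4)).exists_isMinOn
    ⟨0, by simp⟩ hcont
  have hz' : ‖z‖ ≤ 1 / 4 := by simpa using hz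
  have hmin : ∀ w : E n, ‖w‖ ≤ 1 / 4 → GG F h z ≤ GG F h w := fun w hw =>
    hzmin (show w ∈ closedBall (0 : E n) (1 / 4) by simpa using hw)
  have hlt : ‖z‖ < 1 / 4 := by
    refine lt_of_le_of_ne hz' (fun hz1 => ?_)
    have hFc := rtA_contF hF
    have hψc := rtA_contF hψ
    have hd : ContinuousOn (fun x => |F x - ψ x|) (sphere (0 : E n) 1) := (hFc.sub hψc).abs
    -- upper bound at `0`
    have hG0 : GG F h 0 ≤ ((1 - δ) ^ n)⁻¹ * (1 + 2 * δ) := by
      have h1δ : 0 < 1 - δ := by linarith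
      have c0 := rtA_cont_pow hh 0 n (fun x hx => by linarith [hlow 0 (by simp) x hx])
      have h1 : GG F h 0 ≤ ∫ x, ((1 - δ) ^ n)⁻¹ * ((1 + δ) + |F x - ψ x|) ∂(mu n) := by
        refine int_mono hn (hFc.mul c0) (continuousOn_const.mul (continuousOn_const.add hd))
          (fun x hx => ?_)
        have hFx := hpos x (rtA_ne hx)
        have h2 : ((h x - inner ℝ 0 x) ^ n)⁻¹ ≤ ((1 - δ) ^ n)⁻¹ := by
          rw [inner_zero_left, sub_zero]
          exact inv_anti₀ (pow_pos h1δ n) (pow_le_pow_left₀ h1δ.le (hlo x hx) n)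
        have h3 : F x ≤ (1 + δ) + |F x - ψ x| := by
          have h4 := le_abs_self (F x - ψ x)
          have h5 := (abs_le.mp (hψ1 x (rtA_ne hx))).2
          linarith
        rw [mul_comm]
        exact mul_le_mul h2 h3 hFx.le (by positivity)
      rw [integral_const_mul, integral_add (integrable_const _) (integrable_mu hn hd),
        int_const hn] at h1
      refine h1.trans (mul_le_mul_of_nonneg_left (by linarith) (by positivity))
    -- lower bound at `z`
    have hGz : (1 - δ) * (((1 + δ) ^ n)⁻¹ * (33 / 32)) - 2 ^ n * δ ≤ GG F h z := by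
      have hp : ∀ x : E n, ‖x‖ = 1 → 3 / 4 ≤ 1 + δ - inner ℝ z x := fun x hx => by
        have h1 := (abs_le.mp (rtA_inner_le (y := z) hx)).2
        linarith
      have cz := rtA_cont_pow hh z n (fun x hx => by linarith [hlow z hz' x hx])
      have cq : ContinuousOn (fun x => ((1 + δ - inner ℝ z x) ^ n)⁻¹) (sphere (0 : E n) 1) := by
        refine ContinuousOn.inv₀ ((continuousOn_const.sub (rtA_cont_inner z)).pow n) ?_
        intro x hx
        have := hp x (by simpa using hx)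
        exact (pow_pos (by linarith) n).ne'
      have h1 : ∫ x, ((1 - δ) * ((1 + δ - inner ℝ z x) ^ n)⁻¹ - 2 ^ n * |F x - ψ x|) ∂(mu n) ≤
          GG F h z := by
        refine int_mono hn ((continuousOn_const.mul cq).sub (continuousOn_const.mul hd))
          (hFc.mul cz) (fun x hx => ?_)
        have hFx := hpos x (rtA_ne hx)
        have hpx := hp x hx
        have h2 : ((1 + δ - inner ℝ z x) ^ n)⁻¹ ≤ ((h x - inner ℝ z x) ^ n)⁻¹ := by
          have h3 := hlow z hz' x hx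
          have h4 := hup x hx
          exact inv_anti₀ (pow_pos (by linarith) n)
            (pow_le_pow_left₀ (by linarith) (by linarith) n)
        have h3 : ((1 + δ - inner ℝ z x) ^ n)⁻¹ ≤ 2 ^ n := by
          rw [← inv_pow]
          refine pow_le_pow_left₀ (inv_nonneg.mpr (by linarith)) ?_ n
          rw [inv_le_comm₀ (by linarith) (by norm_num)]
          linarith
        have h0 : 0 ≤ ((1 + δ - inner ℝ z x) ^ n)⁻¹ := inv_nonneg.mpr (pow_nonneg (by linarith) n)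
        have h4 : (1 - δ) - |F x - ψ x| ≤ F x := by
          have h4 := neg_abs_le (F x - ψ x)
          have h5 := (abs_le.mp (hψ1 x (rtA_ne hx))).1
          linarith
        have h5 : F x * ((1 + δ - inner ℝ z x) ^ n)⁻¹ ≤ F x * ((h x - inner ℝ z x) ^ n)⁻¹ :=
          mul_le_mul_of_nonneg_left h2 hFx.le
        have h6 : ((1 - δ) - |F x - ψ x|) * ((1 + δ - inner ℝ z x) ^ n)⁻¹ ≤
            F x * ((1 + δ - inner ℝ z x) ^ n)⁻¹ := mul_le_mul_of_nonneg_right h4 h0
        have h7 : |F x - ψ x| * ((1 + δ - inner ℝ z x) ^ n)⁻¹ ≤ |F x - ψ x| * 2 ^ n :=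
          mul_le_mul_of_nonneg_left h3 (abs_nonneg _)
        linarith
      rw [integral_sub ((integrable_mu hn cq).const_mul _) ((integrable_mu hn hd).const_mul _),
        integral_const_mul, integral_const_mul] at h1
      have h2 : (1 + δ) ^ n ≠ 0 := (pow_pos (by linarith) n).ne'
      have h3 : ((1 + δ) ^ n)⁻¹ * (33 / 32) ≤ ∫ x, ((1 + δ - inner ℝ z x) ^ n)⁻¹ ∂(mu n) := by
        have hδp : 0 < 1 + δ := by linarith
        set a : ℝ := ((1 + δ) ^ n)⁻¹ with ha
        set b : ℝ := a * (n * (1 + δ)⁻¹) with hb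
        set c : ℝ := a * (n * (4 / 5 * ((1 + δ)⁻¹) ^ 2)) with hc
        have ca : Continuous fun x : E n => inner ℝ z x := continuous_const.inner continuous_id
        have h4 : ∫ x, (a + b * inner ℝ z x + c * (inner ℝ z x) ^ 2) ∂(mu n) ≤
            ∫ x, ((1 + δ - inner ℝ z x) ^ n)⁻¹ ∂(mu n) := by
          refine int_mono hn (((continuous_const.add (continuous_const.mul ca)).add
            (continuous_const.mul (ca.pow 2))).continuousOn) cq (fun x hx => ?_)
          have h5 := abs_le.mp (rtA_inner_le (y := z) hx)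
          have h6 := rtA_bern n (t := inner ℝ z x * (1 + δ)⁻¹) (by
            rw [← div_eq_mul_inv, le_div_iff₀ hδp]
            nlinarith [h5.1]) (by
            rw [← div_eq_mul_inv, div_le_iff₀ hδp]
            nlinarith [h5.2])
          have h7 : 1 + δ - inner ℝ z x = (1 + δ) * (1 - inner ℝ z x * (1 + δ)⁻¹) := by
            field_simp
          have ha0 : 0 ≤ a := inv_nonneg.mpr (pow_nonneg hδp.le n)
          rw [h7, mul_pow, mul_inv, ← ha]
          refine le_trans (le_of_eq ?_) (mul_le_mul_of_nonneg_left h6 ha0)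
          rw [hb, hc]
          ring
        have i1 : Integrable (fun x : E n => a + b * inner ℝ z x) (mu n) :=
          integrable_mu hn (continuous_const.add (continuous_const.mul ca)).continuousOn
        have i2 : Integrable (fun x : E n => c * (inner ℝ z x) ^ 2) (mu n) :=
          integrable_mu hn (continuous_const.mul (ca.pow 2)).continuousOn
        have i3 : Integrable (fun x : E n => b * inner ℝ z x) (mu n) :=
          integrable_mu hn (continuous_const.mul ca).continuousOn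
        have hodd : ∫ x, inner ℝ z x ∂(mu n) = 0 := int_odd hn (fun x => inner_neg_right z x)
        rw [integral_add i1 i2, integral_add (integrable_const _) i3, int_const hn,
          integral_const_mul, integral_const_mul, hodd, int_inner_sq hn, hz1] at h4
        refine le_trans ?_ h4
        have hn0 : (n : ℝ) ≠ 0 := by
          have : 0 < n := hn
          exact_mod_cast this.ne'
        have e : a + b * 0 + c * ((1 / 4) ^ 2 / n) = a * (1 + 1 / 20 * ((1 + δ)⁻¹) ^ 2) := by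
          rw [hc]
          field_simp
          ring
        rw [e]
        refine mul_le_mul_of_nonneg_left ?_ (inv_nonneg.mpr (pow_nonneg hδp.le n))
        have h8 : 8 / 9 ≤ (1 + δ)⁻¹ := by
          rw [le_inv_comm₀ (by norm_num) hδp]
          linarith
        nlinarith
      have h4 : (1 - δ) * (((1 + δ) ^ n)⁻¹ * (33 / 32)) ≤
          (1 - δ) * ∫ x, ((1 + δ - inner ℝ z x) ^ n)⁻¹ ∂(mu n) :=
        mul_le_mul_of_nonneg_left h3 (by linarith)
      have h5 : (2 : ℝ) ^ n * ∫ x, |F x - ψ x| ∂(mu n) ≤ 2 ^ n * δ :=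
        mul_le_mul_of_nonneg_left hI (by positivity)
      linarith
    have := hmin 0 (by simp)
    linarith
  refine ⟨z, hlt, fun y => ?_⟩
  have hN' : ∀ x, ‖x‖ = 1 → 7 / 8 ≤ h x := fun x hx => by linarith [hlo x hx]
  have h1 := rtA_grad hn hF hpos hh hN' hlt hmin y
  have h2 := rtA_grad hn hF hpos hh hN' hlt hmin (-y)
  have h3 : ∫ x, F x * inner ℝ (-y) x * ((h x - inner ℝ z x) ^ (n + 1))⁻¹ ∂(mu n) =
      - ∫ x, F x * inner ℝ y x * ((h x - inner ℝ z x) ^ (n + 1))⁻¹ ∂(mu n) := by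
    rw [← integral_neg]
    refine integral_congr_ae (Filter.Eventually.of_forall fun x => ?_)
    simp only [inner_neg_left]
    ring
  rw [h3] at h2
  linarith

theorem GG_convex (hn : 1 ≤ n) {F : E n → ℝ} (hF : H0 F) (hpos : ∀ x, x ≠ 0 → 0 < F x)
    {h : E n → ℝ} (hh' : P1 h) {z : E n} (hz : ∀ x, x ≠ 0 → inner ℝ z x < h x)
    (hc : ∀ y : E n, ∫ x, F x * inner ℝ y x * ((h x - inner ℝ z x) ^ (n + 1))⁻¹ ∂(mu n) = 0)
    {l : E n → ℝ} (hl : P1 l) {w : E n} (hw : ∀ x, x ≠ 0 → inner ℝ w x < l x) :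
    GG F h z - (n : ℝ) * ∫ x, F x * (l x - h x) * ((h x - inner ℝ z x) ^ (n + 1))⁻¹ ∂(mu n)
      ≤ GG F l w := by
  have hFc := rtA_contF hF
  have hza : ∀ x, ‖x‖ = 1 → 0 < h x - inner ℝ z x := fun x hx => by
    have := hz x (rtA_ne hx)
    linarith
  have hwa : ∀ x, ‖x‖ = 1 → 0 < l x - inner ℝ w x := fun x hx => by
    have := hw x (rtA_ne hx)
    linarith
  have ca := rtA_cont_pow hh' z n hza
  have ca1 := rtA_cont_pow hh' z (n + 1) hza
  have cb := rtA_cont_pow hl w n hwa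
  have c1 : ContinuousOn (fun x => F x * ((h x - inner ℝ z x) ^ n)⁻¹)
      (sphere (0 : E n) 1) := hFc.mul ca
  have c2 : ContinuousOn (fun x => F x * (l x - h x) * ((h x - inner ℝ z x) ^ (n + 1))⁻¹)
      (sphere (0 : E n) 1) := (hFc.mul (hl.cont.sub hh'.cont).continuousOn).mul ca1
  have c3 : ContinuousOn (fun x => F x * inner ℝ (w - z) x *
      ((h x - inner ℝ z x) ^ (n + 1))⁻¹) (sphere (0 : E n) 1) :=
    (hFc.mul (rtA_cont_inner (w - z))).mul ca1
  have h1 : ∫ x, (F x * ((h x - inner ℝ z x) ^ n)⁻¹ -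
      n * (F x * (l x - h x) * ((h x - inner ℝ z x) ^ (n + 1))⁻¹) +
        n * (F x * inner ℝ (w - z) x * ((h x - inner ℝ z x) ^ (n + 1))⁻¹)) ∂(mu n) ≤ GG F l w := by
    refine int_mono hn ((c1.sub (continuousOn_const.mul c2)).add (continuousOn_const.mul c3))
      (hFc.mul cb) (fun x hx => ?_)
    have h2 := rtA_conv n (hza x hx) (hwa x hx)
    have hFx := hpos x (rtA_ne hx)
    have h4 := mul_le_mul_of_nonneg_left h2 hFx.le
    have h3 : l x - inner ℝ w x - (h x - inner ℝ z x) = (l x - h x) - inner ℝ (w - z) x := by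
      rw [inner_sub_left]
      ring
    rw [h3] at h4
    refine le_trans (le_of_eq ?_) h4
    ring
  have i2 := (integrable_mu hn c2).const_mul (n : ℝ)
  have i3 := (integrable_mu hn c3).const_mul (n : ℝ)
  have i4 : Integrable (fun x => F x * ((h x - inner ℝ z x) ^ n)⁻¹ -
      n * (F x * (l x - h x) * ((h x - inner ℝ z x) ^ (n + 1))⁻¹)) (mu n) :=
    (integrable_mu hn c1).sub i2
  rw [integral_add i4 i3, integral_sub (integrable_mu hn c1) i2, integral_const_mul,
    integral_const_mul, hc, mul_zero, add_zero] at h1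
  exact h1

end Pool.Agent.H35.CA
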