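import Pool.Agent.H35.CA.SphC

/-!
# Job SHA: polynomials on the sphere

Proof hints.
`XX_ev`: chain rule for polynomials (`MvPolynomial` induction; both sides are derivations in
`P`).  `XX_ev_un`: `x ↦ ev P (un x)` and `ev P` agree along the rotation orbit of a unit vector.
`lap_symm`: `XX_parts` twice for each pair.
`lap_hom`: on a homogeneous polynomial of degree `k`,
`∑_{i<j} (x_i ∂_j - x_j ∂_i)^2 = |x|^2 Δ - k (k + n - 2)`: expand
`2 ∑_{i<j} = ∑_{i,j}`, and use Euler's identity (`MvPolynomial.IsHomogeneous.sum_X_mul_pderiv`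
or similar).
-/

namespace Pool.Agent.H35.CA

open MeasureTheory Metric Set

variable {n : ℕ}

theorem ev_add (P Q : Pol n) (x : E n) : ev (P + Q) x = ev P x + ev Q x := by
  unfold ev
  rw [map_add]

theorem ev_sub (P Q : Pol n) (x : E n) : ev (P - Q) x = ev P x - ev Q x := by
  unfold ev
  rw [map_sub]

theorem ev_mul (P Q : Pol n) (x : E n) : ev (P * Q) x = ev P x * ev Q x := by
  unfold ev
  rw [map_mul]

theorem ev_smul (c : ℝ) (P : Pol n) (x : E n) : ev (c • P) x = c * ev P x := by
  unfold ev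
  rw [MvPolynomial.smul_eval]

theorem ev_sum {ι : Type*} (s : Finset ι) (f : ι → Pol n) (x : E n) :
    ev (∑ i ∈ s, f i) x = ∑ i ∈ s, ev (f i) x := by
  unfold ev
  rw [map_sum]

theorem ShA_ev_C (c : ℝ) : ev (MvPolynomial.C c : Pol n) = fun _ => c := by
  funext x
  unfold ev
  rw [MvPolynomial.eval_C]

theorem ShA_ev_X (i : Fin n) :
    ev (MvPolynomial.X i : Pol n) = fun x => (EuclideanSpace.proj i : E n →L[ℝ] ℝ) x := by
  funext x
  unfold ev
  rw [MvPolynomial.eval_X]
  rfl

theorem ShA_ev_zero (x : E n) : ev (0 : Pol n) x = 0 := by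
  unfold ev
  rw [map_zero]

theorem ev_smooth (P : Pol n) : ContDiff ℝ (⊤ : ℕ∞) (ev P) := by
  induction P using MvPolynomial.induction_on with
  | C a =>
    rw [ShA_ev_C]
    exact contDiff_const
  | add p q hp hq =>
    have : ev (p + q) = fun x => ev p x + ev q x := by
      funext x
      exact ev_add p q x
    rw [this]
    exact hp.add hq
  | mul_X p i hp =>
    have : ev (p * MvPolynomial.X i) =
        fun x => ev p x * (EuclideanSpace.proj i : E n →L[ℝ] ℝ) x := by
      funext x
      rw [ev_mul, ShA_ev_X]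
    rw [this]
    exact hp.mul (EuclideanSpace.proj i : E n →L[ℝ] ℝ).contDiff

theorem un_smooth : ContDiffOn ℝ (⊤ : ℕ∞) (un : E n → E n) {0}ᶜ := by
  intro x hx
  have hx0 : x ≠ 0 := hx
  have h1 : ContDiffAt ℝ (⊤ : ℕ∞) (fun y : E n => ‖y‖⁻¹ • y) x :=
    ((contDiffAt_norm ℝ hx0).inv (norm_ne_zero_iff.2 hx0)).smul contDiffAt_id
  exact h1.contDiffWithinAt

theorem ShA_ev_diff (P : Pol n) (x : E n) : DifferentiableAt ℝ (ev P) x :=
  (ev_smooth P).differentiable (by simp) x

theorem ShA_Xp_add (i j : Fin n) (P Q : Pol n) : Xp i j (P + Q) = Xp i j P + Xp i j Q := by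
  unfold Xp
  rw [map_add, map_add]
  ring

theorem ShA_Xp_sub (i j : Fin n) (P Q : Pol n) : Xp i j (P - Q) = Xp i j P - Xp i j Q := by
  unfold Xp
  rw [map_sub, map_sub]
  ring

theorem ShA_Xp_smul (i j : Fin n) (c : ℝ) (P : Pol n) : Xp i j (c • P) = c • Xp i j P := by
  unfold Xp
  rw [Derivation.map_smul, Derivation.map_smul, smul_sub, mul_smul_comm, mul_smul_comm]

theorem ShA_Xp_mul (i j : Fin n) (P Q : Pol n) :
    Xp i j (P * Q) = P * Xp i j Q + Q * Xp i j P := by
  unfold Xp
  rw [MvPolynomial.pderiv_mul, MvPolynomial.pderiv_mul]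
  ring

theorem ShA_Xp_C (i j : Fin n) (c : ℝ) : Xp i j (MvPolynomial.C c : Pol n) = 0 := by
  unfold Xp
  rw [MvPolynomial.pderiv_C, MvPolynomial.pderiv_C]
  ring

theorem ShA_Xp_swap (i j : Fin n) (P : Pol n) : Xp j i P = - Xp i j P := by
  unfold Xp
  ring

theorem ShA_Xp_self (i : Fin n) (P : Pol n) : Xp i i P = 0 := by
  unfold Xp
  ring

theorem XX_ev (i j : Fin n) (P : Pol n) (x : E n) :
    XX (Jij i j) (ev P) x = ev (Xp i j P) x := by
  induction P using MvPolynomial.induction_on with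
  | C a =>
    rw [ShA_Xp_C, ShA_ev_zero]
    unfold XX
    rw [ShA_ev_C]
    simp
  | add p q hp hq =>
    have h1 : ev (p + q) = fun x => ev p x + ev q x := by
      funext x
      exact ev_add p q x
    rw [ShA_Xp_add, ev_add, ← hp, ← hq]
    unfold XX
    rw [h1, fderiv_fun_add (ShA_ev_diff p x) (ShA_ev_diff q x)]
    rfl
  | mul_X p k hp =>
    have h1 : ev (p * MvPolynomial.X k) =
        fun x => ev p x * (EuclideanSpace.proj k : E n →L[ℝ] ℝ) x := by
      funext x
      rw [ev_mul, ShA_ev_X]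
    rw [ShA_Xp_mul, ev_add, ev_mul, ev_mul, ← hp]
    unfold XX
    rw [h1, fderiv_fun_mul (ShA_ev_diff p x)
      (EuclideanSpace.proj k : E n →L[ℝ] ℝ).differentiableAt]
    rw [ContinuousLinearMap.fderiv]
    have h2 : (EuclideanSpace.proj k : E n →L[ℝ] ℝ) (Jij i j x) =
        ev (Xp i j (MvPolynomial.X k)) x := by
      unfold Xp
      rw [ev_sub, ev_mul, ev_mul, ShA_ev_X, ShA_ev_X, SphC_Jij_apply, MvPolynomial.pderiv_X,
        MvPolynomial.pderiv_X]
      have h3 : ∀ a b : Fin n, ev (Pi.single (M := fun _ => Pol n) a 1 b) x =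
          if b = a then 1 else 0 := by
        intro a b
        by_cases h : b = a
        · subst h
          rw [Pi.single_eq_same, if_pos rfl]
          unfold ev
          rw [map_one]
        · rw [Pi.single_eq_of_ne h, if_neg h, ShA_ev_zero]
      rw [h3, h3]
      simp
    simp only [add_apply, smul_apply, smul_eq_mul]
    rw [h2, ShA_ev_X]

theorem XX_ev_un (i j : Fin n) (P : Pol n) {x : E n} (hx : ‖x‖ = 1) :
    XX (Jij i j) (fun y => ev P (un y)) x = ev (Xp i j P) x := by
  by_cases hij : i = j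
  · subst hij
    rw [ShA_Xp_self, ShA_ev_zero]
    unfold XX
    have : Jij i i x = 0 := by
      rw [SphC_Jij_apply, sub_self]
    rw [this, map_zero]
  · have hJ : Gen (Jij i j) := Gen_Jij hij
    rw [← XX_ev]
    have h0 : x ≠ 0 := by
      intro h
      rw [h, norm_zero] at hx
      exact zero_ne_one hx
    have h1 : DifferentiableAt ℝ (fun y => ev P (un y)) (rot (Jij i j) 0 x) := by
      rw [rot_zero]
      have h2 : DifferentiableAt ℝ (un : E n → E n) x :=
        (un_smooth.contDiffAt (isOpen_compl_singleton.mem_nhds h0)).differentiableAt (by simp)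
      exact (ShA_ev_diff P (un x)).comp x h2
    have h3 := h1.hasFDerivAt.comp_hasDerivAt (0 : ℝ) (rot_deriv hJ 0 x)
    have h4 := (ShA_ev_diff P (rot (Jij i j) 0 x)).hasFDerivAt.comp_hasDerivAt (0 : ℝ)
      (rot_deriv hJ 0 x)
    have h5 : ((fun y => ev P (un y)) ∘ fun b => rot (Jij i j) b x) =
        (ev P ∘ fun b => rot (Jij i j) b x) := by
      funext b
      change ev P (un (rot (Jij i j) b x)) = ev P (rot (Jij i j) b x)
      unfold un
      rw [norm_rot hJ, hx, inv_one, one_smul]
    rw [h5] at h3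
    have h6 := h3.unique h4
    rw [rot_zero] at h6
    exact h6

theorem ShA_deg_mono (i j : Fin n) (s : Fin n →₀ ℕ) (a : ℝ) :
    (MvPolynomial.X i * MvPolynomial.pderiv j (MvPolynomial.monomial s a)).totalDegree ≤
      s.sum fun _ e => e := by
  by_cases h : s j = 0
  · rw [MvPolynomial.pderiv_monomial, h, Nat.cast_zero, mul_zero, MvPolynomial.monomial_zero,
      mul_zero, MvPolynomial.totalDegree_zero]
    exact Nat.zero_le _
  · rw [MvPolynomial.pderiv_monomial, MvPolynomial.X, MvPolynomial.monomial_mul]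
    refine (MvPolynomial.totalDegree_monomial_le _ _).trans ?_
    have h1 : s = Finsupp.single j 1 + (s - Finsupp.single j 1) := by
      ext k
      by_cases hk : k = j
      · subst hk
        simp
        omega
      · simp [Ne.symm hk]
    have h2 : ∀ a b : Fin n →₀ ℕ, ((a + b).sum fun _ e => e) =
        (a.sum fun _ e => e) + (b.sum fun _ e => e) := by
      intro a b
      exact Finsupp.sum_add_index' (fun _ => rfl) (fun _ _ _ => rfl)
    change ((Finsupp.single i 1 + (s - Finsupp.single j 1)).sum fun _ e => e) ≤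
      s.sum fun _ e => e
    have h3 : (s.sum fun _ e => e) = ((Finsupp.single j 1).sum fun _ e => e) +
        ((s - Finsupp.single j 1).sum fun _ e => e) := by
      rw [← h2, ← h1]
    rw [h2, h3, Finsupp.sum_single_index rfl, Finsupp.sum_single_index rfl]

theorem ShA_deg_Xpd (i j : Fin n) (P : Pol n) :
    (MvPolynomial.X i * MvPolynomial.pderiv j P).totalDegree ≤ P.totalDegree := by
  conv_lhs => rw [MvPolynomial.as_sum P, map_sum, Finset.mul_sum]
  refine MvPolynomial.totalDegree_finsetSum_le (fun s hs => ?_)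
  exact (ShA_deg_mono i j s _).trans (MvPolynomial.le_totalDegree hs)

theorem Xp_deg (i j : Fin n) (P : Pol n) : (Xp i j P).totalDegree ≤ P.totalDegree :=
  (MvPolynomial.totalDegree_sub _ _).trans (max_le (ShA_deg_Xpd i j P) (ShA_deg_Xpd j i P))

theorem lapP_deg (P : Pol n) : (lapP P).totalDegree ≤ P.totalDegree :=
  MvPolynomial.totalDegree_finsetSum_le fun _ _ => (Xp_deg _ _ _).trans (Xp_deg _ _ _)

theorem lapP_add (P Q : Pol n) : lapP (P + Q) = lapP P + lapP Q := by
  unfold lapP
  rw [← Finset.sum_add_distrib]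
  refine Finset.sum_congr rfl fun q _ => ?_
  rw [ShA_Xp_add, ShA_Xp_add]

theorem lapP_smul (c : ℝ) (P : Pol n) : lapP (c • P) = c • lapP P := by
  unfold lapP
  rw [Finset.smul_sum]
  refine Finset.sum_congr rfl fun q _ => ?_
  rw [ShA_Xp_smul, ShA_Xp_smul]

theorem ShA_parts (hn : 1 ≤ n) {i j : Fin n} (hij : i ≠ j) (P Q : Pol n) :
    ∫ x, ev P x * ev (Xp i j Q) x ∂(mu n) = - ∫ x, ev (Xp i j P) x * ev Q x ∂(mu n) := by
  have h := XX_parts hn (Gen_Jij hij) (F := ev P) (G := ev Q)
    ((ev_smooth P).of_le (by simp)).contDiffOn ((ev_smooth Q).of_le (by simp)).contDiffOn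
  simp only [XX_ev] at h
  exact h

theorem ShA_int (hn : 1 ≤ n) (P Q : Pol n) : Integrable (fun x => ev P x * ev Q x) (mu n) :=
  integrable_mu hn ((ev_smooth P).continuous.mul (ev_smooth Q).continuous).continuousOn

theorem lap_symm (hn : 1 ≤ n) (P Q : Pol n) :
    ∫ x, ev (lapP P) x * ev Q x ∂(mu n) = ∫ x, ev P x * ev (lapP Q) x ∂(mu n) := by
  unfold lapP
  simp only [ev_sum, Finset.sum_mul, Finset.mul_sum]
  rw [integral_finsetSum _ (fun q _ => ShA_int hn _ _),
    integral_finsetSum _ (fun q _ => ShA_int hn _ _)]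
  refine Finset.sum_congr rfl fun q hq => ?_
  have hij : q.1 ≠ q.2 := ne_of_lt (Finset.mem_filter.1 hq).2
  have h1 := ShA_parts hn hij (Xp q.1 q.2 P) Q
  have h2 := ShA_parts hn hij P (Xp q.1 q.2 Q)
  linarith

theorem ShA_sum_prs (f : Fin n → Fin n → Pol n) (hs : ∀ i j, f j i = f i j)
    (hd : ∀ i, f i i = 0) : 2 * ∑ q ∈ prs n, f q.1 q.2 = ∑ i, ∑ j, f i j := by
  have h1 : ∑ i, ∑ j, f i j = ∑ q : Fin n × Fin n, f q.1 q.2 := by
    rw [Fintype.sum_prod_type]
  have h2 : ∑ q : Fin n × Fin n, f q.1 q.2 =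
      (∑ q : Fin n × Fin n, if q.1 < q.2 then f q.1 q.2 else 0) +
      (∑ q : Fin n × Fin n, if q.2 < q.1 then f q.1 q.2 else 0) := by
    rw [← Finset.sum_add_distrib]
    refine Finset.sum_congr rfl fun q _ => ?_
    rcases lt_trichotomy q.1 q.2 with h | h | h
    · rw [if_pos h, if_neg (not_lt.2 h.le), add_zero]
    · rw [h, if_neg (lt_irrefl _), hd, add_zero]
    · rw [if_neg (not_lt.2 h.le), if_pos h, zero_add]
  have h3 : (∑ q : Fin n × Fin n, if q.2 < q.1 then f q.1 q.2 else 0) =
      ∑ q : Fin n × Fin n, if q.1 < q.2 then f q.1 q.2 else 0 := by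
    refine Fintype.sum_equiv (Equiv.prodComm _ _) _ _ (fun q => ?_)
    change (if q.2 < q.1 then f q.1 q.2 else 0) = if q.2 < q.1 then f q.2 q.1 else 0
    rw [hs]
  rw [h1, h2, h3, prs, Finset.sum_filter, two_mul]

theorem ShA_Xp_sq (i j : Fin n) (P : Pol n) :
    Xp i j (Xp i j P) =
      MvPolynomial.X i ^ 2 * MvPolynomial.pderiv j (MvPolynomial.pderiv j P) +
      MvPolynomial.X j ^ 2 * MvPolynomial.pderiv i (MvPolynomial.pderiv i P) -
      MvPolynomial.X i * MvPolynomial.pderiv i P - MvPolynomial.X j * MvPolynomial.pderiv j P -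
      MvPolynomial.X i * (MvPolynomial.X j * MvPolynomial.pderiv j (MvPolynomial.pderiv i P)) -
      MvPolynomial.X j * (MvPolynomial.X i * MvPolynomial.pderiv i (MvPolynomial.pderiv j P)) +
      if i = j then 2 * (MvPolynomial.X i * MvPolynomial.pderiv i P) else 0 := by
  by_cases h : i = j
  · subst h
    rw [if_pos rfl, ShA_Xp_self]
    ring
  · rw [if_neg h]
    unfold Xp
    simp only [map_sub, MvPolynomial.pderiv_mul, MvPolynomial.pderiv_X_self,
      MvPolynomial.pderiv_X_of_ne h, MvPolynomial.pderiv_X_of_ne (Ne.symm h)]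
    ring

theorem ShA_comm (P : Pol n) (i j : Fin n) : MvPolynomial.pderiv i (MvPolynomial.pderiv j P) =
    MvPolynomial.pderiv j (MvPolynomial.pderiv i P) := by
  by_cases h : i = j
  · rw [h]
  · ext m
    rw [MvPolynomial.coeff_pderiv, MvPolynomial.coeff_pderiv, MvPolynomial.coeff_pderiv,
      MvPolynomial.coeff_pderiv, add_right_comm m]
    have h1 : (m + Finsupp.single i 1 : Fin n →₀ ℕ) j = m j := by
      simp [Ne.symm h]
    have h2 : (m + Finsupp.single j 1 : Fin n →₀ ℕ) i = m i := by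
      simp [h]
    rw [h1, h2]
    ring

theorem lap_hom (P : Pol n) (k : ℕ) (hP : P.IsHomogeneous k) :
    lapP P = (∑ i, MvPolynomial.X i ^ 2) * (∑ i, MvPolynomial.pderiv i (MvPolynomial.pderiv i P))
      - (lam n k) • P := by
  have hE : ∑ i : Fin n, MvPolynomial.X i * MvPolynomial.pderiv i P = (k : Pol n) * P := by
    rw [hP.sum_X_mul_pderiv, nsmul_eq_mul]
  have hE2 : ∑ i : Fin n, MvPolynomial.X i *
      (∑ j : Fin n, MvPolynomial.X j * MvPolynomial.pderiv i (MvPolynomial.pderiv j P)) =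
      (k : Pol n) * (k : Pol n) * P - (k : Pol n) * P := by
    have h1 : ∀ i : Fin n, MvPolynomial.X i *
        MvPolynomial.pderiv i (∑ j : Fin n, MvPolynomial.X j * MvPolynomial.pderiv j P) =
        MvPolynomial.X i * MvPolynomial.pderiv i P + MvPolynomial.X i *
        (∑ j : Fin n, MvPolynomial.X j * MvPolynomial.pderiv i (MvPolynomial.pderiv j P)) := by
      intro i
      rw [map_sum, ← mul_add]
      congr 1
      simp only [MvPolynomial.pderiv_mul]
      rw [Finset.sum_add_distrib]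
      congr 1
      rw [Finset.sum_eq_single i]
      · rw [MvPolynomial.pderiv_X_self, one_mul]
      · intro j _ hj
        rw [MvPolynomial.pderiv_X_of_ne hj, zero_mul]
      · intro h
        exact absurd (Finset.mem_univ i) h
    have h2 : ∑ i : Fin n, MvPolynomial.X i *
        MvPolynomial.pderiv i (∑ j : Fin n, MvPolynomial.X j * MvPolynomial.pderiv j P) =
        (k : Pol n) * (k : Pol n) * P := by
      rw [hE]
      have h3 : ∀ i : Fin n, MvPolynomial.X i * MvPolynomial.pderiv i ((k : Pol n) * P) =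
          (k : Pol n) * (MvPolynomial.X i * MvPolynomial.pderiv i P) := by
        intro i
        rw [MvPolynomial.pderiv_mul]
        have h4 : MvPolynomial.pderiv i (k : Pol n) = 0 := by
          exact Derivation.map_natCast _ k
        rw [h4]
        ring
      simp only [h3]
      rw [← Finset.mul_sum, hE]
      ring
    simp only [h1] at h2
    rw [Finset.sum_add_distrib, hE] at h2
    linear_combination h2
  have hsum := ShA_sum_prs (fun i j => Xp i j (Xp i j P))
    (fun i j => by
      rw [ShA_Xp_swap i j (Xp j i P), ShA_Xp_swap i j P]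
      unfold Xp
      rw [map_neg, map_neg]
      ring)
    (fun i => by simp only [ShA_Xp_self])
  have hcomm : ∀ i j : Fin n, MvPolynomial.pderiv i (MvPolynomial.pderiv j P) =
      MvPolynomial.pderiv j (MvPolynomial.pderiv i P) := ShA_comm P
  have s1 : ∑ i : Fin n, ∑ j : Fin n, (MvPolynomial.X i : Pol n) ^ 2 *
      MvPolynomial.pderiv j (MvPolynomial.pderiv j P) =
      (∑ i, MvPolynomial.X i ^ 2) *
        (∑ i, MvPolynomial.pderiv i (MvPolynomial.pderiv i P)) := by
    rw [Finset.sum_mul_sum]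
  have s2 : ∑ i : Fin n, ∑ j : Fin n, (MvPolynomial.X j : Pol n) ^ 2 *
      MvPolynomial.pderiv i (MvPolynomial.pderiv i P) =
      (∑ i, MvPolynomial.X i ^ 2) *
        (∑ i, MvPolynomial.pderiv i (MvPolynomial.pderiv i P)) := by
    rw [← s1, Finset.sum_comm]
  have s3 : ∑ i : Fin n, ∑ _j : Fin n, (MvPolynomial.X i : Pol n) *
      MvPolynomial.pderiv i P = (n : Pol n) * ((k : Pol n) * P) := by
    rw [Finset.sum_comm]
    simp only [hE]
    rw [Finset.sum_const, Finset.card_univ, Fintype.card_fin, nsmul_eq_mul]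
  have s4 : ∑ _i : Fin n, ∑ j : Fin n, (MvPolynomial.X j : Pol n) *
      MvPolynomial.pderiv j P = (n : Pol n) * ((k : Pol n) * P) := by
    simp only [hE]
    rw [Finset.sum_const, Finset.card_univ, Fintype.card_fin, nsmul_eq_mul]
  have s5 : ∑ i : Fin n, ∑ j : Fin n, (MvPolynomial.X i : Pol n) *
      (MvPolynomial.X j * MvPolynomial.pderiv j (MvPolynomial.pderiv i P)) =
      (k : Pol n) * (k : Pol n) * P - (k : Pol n) * P := by
    rw [← hE2]
    refine Finset.sum_congr rfl fun i _ => ?_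
    rw [Finset.mul_sum]
    refine Finset.sum_congr rfl fun j _ => ?_
    rw [hcomm j i]
  have s6 : ∑ i : Fin n, ∑ j : Fin n, (MvPolynomial.X j : Pol n) *
      (MvPolynomial.X i * MvPolynomial.pderiv i (MvPolynomial.pderiv j P)) =
      (k : Pol n) * (k : Pol n) * P - (k : Pol n) * P := by
    rw [← s5, Finset.sum_comm]
  have s7 : ∑ i : Fin n, ∑ j : Fin n, (if i = j then
      2 * ((MvPolynomial.X i : Pol n) * MvPolynomial.pderiv i P) else 0) =
      2 * ((k : Pol n) * P) := by
    rw [← hE, Finset.mul_sum]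
    refine Finset.sum_congr rfl fun i _ => ?_
    rw [Finset.sum_ite_eq Finset.univ i, if_pos (Finset.mem_univ i)]
  have htot : 2 * lapP P = 2 * ((∑ i, MvPolynomial.X i ^ 2) *
      (∑ i, MvPolynomial.pderiv i (MvPolynomial.pderiv i P)) - (lam n k) • P) := by
    have hL : (lam n k) • P = (k : Pol n) * ((k : Pol n) + (n : Pol n) - 2) * P := by
      rw [MvPolynomial.smul_eq_C_mul, lam, map_mul, map_sub, map_add, map_natCast, map_natCast]
      rw [show (MvPolynomial.C (2 : ℝ) : Pol n) = 2 from map_ofNat _ 2]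
    have h0 : 2 * lapP P = ∑ i : Fin n, ∑ j : Fin n, Xp i j (Xp i j P) := hsum
    rw [h0]
    simp only [ShA_Xp_sq, Finset.sum_add_distrib, Finset.sum_sub_distrib]
    rw [s1, s2, s3, s4, s5, s6, s7, hL]
    ring
  exact mul_left_cancel₀ two_ne_zero htot

end Pool.Agent.H35.CA
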