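import Pool.Agent.H35.CA.ShB

/-!
# Job SHG: the Dirichlet energy

Proof hints.
`sum_lap`: let `D τ = ∑_{q} XX J_q (XX J_q τ)`.  By `XX_parts`,
`∑_q ∫ (XX J_q τ)^2 = - ∫ τ D τ`, and `cf Y (D τ) k i = - lam n k * cf Y τ k i` (two
integrations by parts, `XX_ev`, `eig`).  By the polarised Parseval identity (apply `parseval`
to `τ`, `D τ`, `τ + D τ`) `- ∫ τ D τ = ∑_k lam n k * en Y τ k`.
`grad_energy`: `lam n k ≥ lam n (K+1)` for `k > K`, and `parseval`.
All functions matter only through their values on the unit sphere; `XX J τ` only involves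
tangential derivatives.
-/

namespace Pool.Agent.H35.CA

open MeasureTheory Metric Set

variable {n : ℕ}

theorem shg_sub : sphere (0 : E n) 1 ⊆ ({0}ᶜ : Set (E n)) := by
  intro x hx h
  rw [mem_singleton_iff] at h
  subst h
  simp at hx

theorem shg_XX {τ : E n → ℝ} (J : E n →L[ℝ] E n) {m l : WithTop ℕ∞}
    (hτ : ContDiffOn ℝ l τ {0}ᶜ) (hml : m + 1 ≤ l) : ContDiffOn ℝ m (XX J τ) {0}ᶜ := by
  have h1 : ContDiffOn ℝ m (fderiv ℝ τ) {0}ᶜ :=
    hτ.fderiv_of_isOpen isOpen_compl_singleton hml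
  exact h1.clm_apply J.contDiff.contDiffOn

theorem shg_cont {τ : E n → ℝ} {l : WithTop ℕ∞} (hτ : ContDiffOn ℝ l τ {0}ᶜ) :
    ContinuousOn τ (sphere 0 1) := hτ.continuousOn.mono shg_sub

theorem shg_ne {q : Fin n × Fin n} (hq : q ∈ prs n) : q.1 ≠ q.2 := by
  rw [prs, Finset.mem_filter] at hq
  exact ne_of_lt hq.2

/-- The spherical Laplacian of a function. -/
noncomputable def shgD (τ : E n → ℝ) (x : E n) : ℝ :=
  ∑ q ∈ prs n, XX (Jij q.1 q.2) (XX (Jij q.1 q.2) τ) x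

theorem shg_cD {τ : E n → ℝ} (hτ : ContDiffOn ℝ 2 τ {0}ᶜ) (J : E n →L[ℝ] E n) :
    ContinuousOn (XX J (XX J τ)) (sphere 0 1) := by
  have h1 : ContDiffOn ℝ 1 (XX J τ) {0}ᶜ := shg_XX J hτ (by norm_num)
  have h2 : ContDiffOn ℝ 0 (XX J (XX J τ)) {0}ᶜ := shg_XX J h1 (by norm_num)
  exact shg_cont h2

theorem shg_contD {τ : E n → ℝ} (hτ : ContDiffOn ℝ 2 τ {0}ᶜ) :
    ContinuousOn (shgD τ) (sphere 0 1) := by
  unfold shgD
  exact continuousOn_finset_sum _ (fun q _ => shg_cD hτ _)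

theorem shg_energy (hn : 1 ≤ n) {τ : E n → ℝ} (hτ : ContDiffOn ℝ 2 τ {0}ᶜ) :
    ∑ q ∈ prs n, ∫ x, (XX (Jij q.1 q.2) τ x) ^ 2 ∂(mu n) = - ∫ x, τ x * shgD τ x ∂(mu n) := by
  have h1 : ∫ x, τ x * shgD τ x ∂(mu n)
      = ∑ q ∈ prs n, ∫ x, τ x * XX (Jij q.1 q.2) (XX (Jij q.1 q.2) τ) x ∂(mu n) := by
    rw [← integral_finset_sum]
    · congr 1
      funext x
      rw [shgD, Finset.mul_sum]
    · intro q _
      exact integrable_mu hn ((shg_cont hτ).mul (shg_cD hτ _))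
  rw [h1, ← Finset.sum_neg_distrib]
  refine Finset.sum_congr rfl (fun q hq => ?_)
  have h2 := XX_parts hn (Gen_Jij (shg_ne hq)) (F := XX (Jij q.1 q.2) τ) (G := τ)
    (shg_XX _ hτ (by norm_num)) (hτ.of_le (by norm_num))
  have h3 : ∫ x, (XX (Jij q.1 q.2) τ x) ^ 2 ∂(mu n)
      = ∫ x, XX (Jij q.1 q.2) τ x * XX (Jij q.1 q.2) τ x ∂(mu n) := by
    congr 1
    funext x
    ring
  rw [h3, h2]
  congr 2
  funext x
  ring

theorem shg_XXev (i j : Fin n) (P : Pol n) : XX (Jij i j) (ev P) = ev (Xp i j P) := by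
  funext x
  exact XX_ev i j P x

theorem shg_cf (hn : 1 ≤ n) (Y : SHFam n) {τ : E n → ℝ} (hτ : ContDiffOn ℝ 2 τ {0}ᶜ)
    (k : ℕ) (i : Fin (Y.m k)) : cf Y (shgD τ) k i = - lam n k * cf Y τ k i := by
  have hev : ∀ P : Pol n, ∀ l : ℕ∞, ContDiffOn ℝ l (ev P) {0}ᶜ := fun P l =>
    ((ev_smooth P).of_le (by exact_mod_cast le_top)).contDiffOn
  have hevc : ∀ P : Pol n, ContinuousOn (ev P) (sphere 0 1) := fun P =>
    shg_cont (hev P 0)
  have h1 : cf Y (shgD τ) k i = ∑ q ∈ prs n,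
      ∫ x, XX (Jij q.1 q.2) (XX (Jij q.1 q.2) τ) x * ev (Y.Y k i) x ∂(mu n) := by
    rw [cf, ← integral_finset_sum]
    · congr 1
      funext x
      rw [shgD, Finset.sum_mul]
    · intro q _
      exact integrable_mu hn ((shg_cD hτ _).mul (hevc _))
  have h2 : ∀ q ∈ prs n,
      ∫ x, XX (Jij q.1 q.2) (XX (Jij q.1 q.2) τ) x * ev (Y.Y k i) x ∂(mu n)
        = ∫ x, τ x * ev (Xp q.1 q.2 (Xp q.1 q.2 (Y.Y k i))) x ∂(mu n) := by
    intro q hq
    have hJ := Gen_Jij (shg_ne hq)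
    have h3 := XX_parts hn hJ (F := XX (Jij q.1 q.2) τ) (G := ev (Y.Y k i))
      (shg_XX _ hτ (by norm_num)) (hev _ 1)
    have h4 := XX_parts hn hJ (F := τ) (G := ev (Xp q.1 q.2 (Y.Y k i)))
      (hτ.of_le (by norm_num)) (hev _ 1)
    rw [shg_XXev] at h3 h4
    linarith
  rw [h1, Finset.sum_congr rfl h2, ← integral_finset_sum]
  · rw [cf, ← integral_const_mul]
    apply int_congr hn
    intro x hx
    have h5 := Y.eig k i x hx
    rw [lapP, ev_sum] at h5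
    rw [← Finset.mul_sum, h5]
    ring
  · intro q _
    exact integrable_mu hn ((shg_cont hτ).mul (hevc _))

theorem shg_cf_add (hn : 1 ≤ n) (Y : SHFam n) {f g : E n → ℝ}
    (hf : ContinuousOn f (sphere 0 1)) (hg : ContinuousOn g (sphere 0 1)) (k : ℕ)
    (i : Fin (Y.m k)) : cf Y (fun x => f x + g x) k i = cf Y f k i + cf Y g k i := by
  have hevc : ContinuousOn (ev (Y.Y k i)) (sphere 0 1) :=
    (ev_smooth (Y.Y k i)).continuous.continuousOn
  have hif : Integrable (fun x => f x * ev (Y.Y k i) x) (mu n) :=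
    integrable_mu hn (hf.mul hevc)
  have hig : Integrable (fun x => g x * ev (Y.Y k i) x) (mu n) :=
    integrable_mu hn (hg.mul hevc)
  rw [cf, cf, cf, ← integral_add hif hig]
  congr 1
  funext x
  ring

theorem shg_polar (hn : 1 ≤ n) (Y : SHFam n) {f g : E n → ℝ}
    (hf : ContinuousOn f (sphere 0 1)) (hg : ContinuousOn g (sphere 0 1)) :
    HasSum (fun k => ∑ i, cf Y f k i * cf Y g k i) (∫ x, f x * g x ∂(mu n)) := by
  have h1 := parseval hn Y hf
  have h2 := parseval hn Y hg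
  have h3 := parseval hn Y (hf.add hg)
  have h4 := ((h3.sub h1).sub h2).mul_left (1 / 2)
  have h5 : (1 / 2 : ℝ) * (sq (f + g) - sq f - sq g) = ∫ x, f x * g x ∂(mu n) := by
    have h6 : sq (f + g) = sq f + 2 * (∫ x, f x * g x ∂(mu n)) + sq g := by
      rw [sq, sq, sq, ← integral_const_mul, ← integral_add, ← integral_add]
      · congr 1
        funext x
        simp only [Pi.add_apply]
        ring
      · exact (integrable_mu hn (hf.pow 2)).add ((integrable_mu hn (hf.mul hg)).const_mul 2)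
      · exact integrable_mu hn (hg.pow 2)
      · exact integrable_mu hn (hf.pow 2)
      · exact (integrable_mu hn (hf.mul hg)).const_mul 2
    rw [h6]
    ring
  rw [h5] at h4
  suffices hs : (fun k => ∑ i, cf Y f k i * cf Y g k i)
      = fun k => 1 / 2 * (en Y (f + g) k - en Y f k - en Y g k) by
    rw [hs]
    exact h4
  funext k
  have h7 : en Y (f + g) k = en Y f k + 2 * (∑ i, cf Y f k i * cf Y g k i) + en Y g k := by
    rw [en, en, en, Finset.mul_sum, ← Finset.sum_add_distrib, ← Finset.sum_add_distrib]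
    refine Finset.sum_congr rfl (fun i _ => ?_)
    have h8 : cf Y (f + g) k i = cf Y f k i + cf Y g k i := shg_cf_add hn Y hf hg k i
    rw [h8]
    ring
  rw [h7]
  ring

theorem sum_lap (hn : 1 ≤ n) (Y : SHFam n) {τ : E n → ℝ} (hτ : ContDiffOn ℝ 2 τ {0}ᶜ) :
    HasSum (fun k => lam n k * en Y τ k)
      (∑ q ∈ prs n, ∫ x, (XX (Jij q.1 q.2) τ x) ^ 2 ∂(mu n)) := by
  have h1 := (shg_polar hn Y (shg_cont hτ) (shg_contD hτ)).neg
  rw [shg_energy hn hτ]
  suffices hs : (fun k => lam n k * en Y τ k)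
      = fun k => - ∑ i, cf Y τ k i * cf Y (shgD τ) k i by
    rw [hs]
    exact h1
  funext k
  rw [en, Finset.mul_sum, ← Finset.sum_neg_distrib]
  refine Finset.sum_congr rfl (fun i _ => ?_)
  rw [shg_cf hn Y hτ]
  ring

theorem grad_energy (hn : 2 ≤ n) (Y : SHFam n) {τ : E n → ℝ} (hτ : ContDiffOn ℝ 2 τ {0}ᶜ)
    (K : ℕ) (hz : ∀ k ≤ K, en Y τ k = 0) :
    lam n (K + 1) * sq τ ≤ ∑ q ∈ prs n, ∫ x, (XX (Jij q.1 q.2) τ x) ^ 2 ∂(mu n) := by
  have hn1 : 1 ≤ n := by omega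
  have h1 := sum_lap hn1 Y hτ
  have h2 := (parseval hn1 Y (shg_cont hτ)).mul_left (lam n (K + 1))
  refine hasSum_le (fun k => ?_) h2 h1
  rcases Nat.lt_or_ge K k with hk | hk
  · have h3 := en_nonneg Y τ k
    refine mul_le_mul_of_nonneg_right ?_ h3
    have h4 : ((K + 1 : ℕ) : ℝ) ≤ (k : ℝ) := by exact_mod_cast hk
    have h5 : (2 : ℝ) ≤ (n : ℝ) := by exact_mod_cast hn
    have h6 : (0 : ℝ) ≤ ((K + 1 : ℕ) : ℝ) := Nat.cast_nonneg _
    rw [lam, lam]
    push_cast at h4 h6 ⊢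
    nlinarith
  · rw [hz k hk]
    simp

end Pool.Agent.H35.CA
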