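import Pool.Agent.H35.CA.SphB
import Pool.Agent.H35.CA.GauA

/-!
# Job SLIA: two lemmas for slices

Proof hints.
`quad_lower`: `∫ (⟨x,Sx⟩ - ⟨z,x⟩)² = ∫ ⟨x,Sx⟩² + ‖z‖²/n` (`int_odd`, `int_inner_sq`), and for
symmetric `S`, `∫ ⟨x, S x⟩² dmu ≥ c ‖S‖²` with `c = c(n) > 0` (continuous, homogeneous, and positive
for `S ≠ 0` by `mu_full` - a symmetric `S` with `⟨x,Sx⟩ = 0` for all `x` is 0 - on the compact unit
sphere of the finite-dimensional space of symmetric operators).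
`diff_near`: let `r' = min r 1`, so `δ < r'^2` and `r' > 0` (if `r > 1` then `δ ≤ 1/2 < 1`).  The
function `s ↦ l (x + s ξ)` is convex, so for `0 < s ≤ r'` its slope over `[0,s]` is at most the
slope over `[0,r']`, which is at most
`((1+δ) ‖x + r' ξ‖ - (1-δ))/r' ≤ ⟨x,ξ⟩ + r' ‖ξ‖²/2 + δ (2 + 2 r')/r' ≤ ⟨x,ξ⟩ + 6 r'`,
and at least the slope over `[-r',0]`, at least `⟨x,ξ⟩ - 6 r'`, in the same way
(`‖x + t ξ‖ ≤ 1 + t ⟨x,ξ⟩ + t² ‖ξ‖²/2` and `‖x‖ = 1`).
-/

namespace Pool.Agent.H35.CA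

open MeasureTheory Metric Set

variable {n : ℕ}

/-- The mean of the square of the quadratic form. -/
noncomputable def sliQ (S : E n →L[ℝ] E n) : ℝ := ∫ x, (inner ℝ x (S x)) ^ 2 ∂(mu n)

theorem sliQ_cont_aux (S T : E n →L[ℝ] E n) :
    ContinuousOn (fun x : E n => inner ℝ x (S x) * inner ℝ x (T x)) (sphere 0 1) :=
  ((continuous_id.inner S.continuous).mul (continuous_id.inner T.continuous)).continuousOn

theorem sliQ_cont_sq (S : E n →L[ℝ] E n) :
    ContinuousOn (fun x : E n => (inner ℝ x (S x)) ^ 2) (sphere 0 1) :=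
  ((continuous_id.inner S.continuous).pow 2).continuousOn

theorem sliQ_smul (t : ℝ) (S : E n →L[ℝ] E n) : sliQ (t • S) = t ^ 2 * sliQ S := by
  unfold sliQ
  rw [← integral_const_mul]
  congr 1
  funext x
  rw [smul_apply, inner_smul_right]
  ring

theorem sliQ_close (hn : 1 ≤ n) (S T : E n →L[ℝ] E n) :
    |sliQ S - sliQ T| ≤ (‖S‖ + ‖T‖) * ‖S - T‖ := by
  unfold sliQ
  rw [← integral_sub (integrable_mu hn (sliQ_cont_sq S)) (integrable_mu hn (sliQ_cont_sq T))]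
  apply int_abs_le hn
  intro x hx
  have h1 : (inner ℝ x (S x)) ^ 2 - (inner ℝ x (T x)) ^ 2 =
      (inner ℝ x (S x) + inner ℝ x (T x)) * inner ℝ x ((S - T) x) := by
    rw [sub_apply, inner_sub_right]
    ring
  have hb : ∀ R : E n →L[ℝ] E n, |inner ℝ x (R x)| ≤ ‖R‖ := by
    intro R
    have h2 := abs_real_inner_le_norm x (R x)
    have h3 := R.le_opNorm x
    rw [hx] at h2 h3
    linarith
  rw [h1, abs_mul]
  apply mul_le_mul _ (hb (S - T)) (abs_nonneg _) (by positivity)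
  exact (abs_add_le _ _).trans (add_le_add (hb S) (hb T))

theorem sliQ_continuous (hn : 1 ≤ n) : Continuous (sliQ : (E n →L[ℝ] E n) → ℝ) := by
  rw [continuous_iff_continuousAt]
  intro T
  rw [ContinuousAt, tendsto_iff_dist_tendsto_zero]
  apply squeeze_zero (fun _ => dist_nonneg) (g := fun S => (‖S‖ + ‖T‖) * ‖S - T‖)
  · intro S
    rw [Real.dist_eq]
    exact sliQ_close hn S T
  · have h1 : Continuous fun S : E n →L[ℝ] E n => (‖S‖ + ‖T‖) * ‖S - T‖ := by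
      fun_prop
    have h2 := h1.tendsto T
    simpa using h2

theorem sliQ_zero (hn : 1 ≤ n) {S : E n →L[ℝ] E n}
    (hS : ∀ x y, inner ℝ (S x) y = inner ℝ x (S y)) (h0 : sliQ S = 0) : S = 0 := by
  have h1 := mu_full hn (sliQ_cont_sq S) (fun x _ => sq_nonneg _) h0
  have h2 : ∀ x : E n, inner ℝ (S x) x = 0 := by
    intro x
    by_cases hx : x = 0
    · rw [hx]
      simp
    · have hnx : 0 < ‖x‖ := norm_pos_iff.mpr hx
      have h3 := h1 (‖x‖⁻¹ • x) (by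
        rw [norm_smul, norm_inv, norm_norm, inv_mul_cancel₀ hnx.ne'])
      rw [map_smul, inner_smul_left, inner_smul_right] at h3
      simp only [conj_trivial] at h3
      have h4 : ‖x‖⁻¹ * (‖x‖⁻¹ * inner ℝ x (S x)) = 0 := by
        simpa using h3
      rw [hS]
      have h5 : ‖x‖⁻¹ ≠ 0 := inv_ne_zero hnx.ne'
      rcases mul_eq_zero.mp h4 with h | h
      · exact absurd h h5
      · rcases mul_eq_zero.mp h with h | h
        · exact absurd h h5
        · exact h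
  have hsym : (S : E n →ₗ[ℝ] E n).IsSymmetric := fun x y => hS x y
  have h3 := hsym.inner_map_self_eq_zero.mp h2
  ext1 x
  have := LinearMap.congr_fun h3 x
  simpa using this

theorem sliQ_lower (hn : 1 ≤ n) : ∃ c : ℝ, 0 < c ∧ ∀ S : E n →L[ℝ] E n,
    (∀ x y, inner ℝ (S x) y = inner ℝ x (S y)) → c * ‖S‖ ^ 2 ≤ sliQ S := by
  classical
  have hprop : ProperSpace (E n →L[ℝ] E n) := FiniteDimensional.proper ℝ _
  set K : Set (E n →L[ℝ] E n) :=
    {S | ‖S‖ = 1 ∧ ∀ x y, inner ℝ (S x) y = inner ℝ x (S y)} with hK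
  have hclosed : IsClosed K := by
    have h1 : K = {S : E n →L[ℝ] E n | ‖S‖ = 1} ∩
        ⋂ x : E n, ⋂ y : E n, {S : E n →L[ℝ] E n | inner ℝ (S x) y = inner ℝ x (S y)} := by
      ext S
      simp [hK]
    rw [h1]
    apply IsClosed.inter
    · exact isClosed_eq continuous_norm continuous_const
    · refine isClosed_iInter (fun x => isClosed_iInter (fun y => ?_))
      have hx : ∀ x : E n, Continuous fun S : E n →L[ℝ] E n => S x := fun x =>
        (ContinuousLinearMap.apply ℝ (E n) x).continuous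
      exact isClosed_eq ((hx x).inner continuous_const) (continuous_const.inner (hx y))
  have hcpt : IsCompact K := by
    apply Metric.isCompact_of_isClosed_isBounded hclosed
    apply (Metric.isBounded_closedBall (x := (0 : E n →L[ℝ] E n)) (r := 1)).subset
    intro S hS
    rw [mem_closedBall_zero_iff]
    exact hS.1.le
  have hnonneg : ∀ S : E n →L[ℝ] E n, 0 ≤ sliQ S := fun S =>
    integral_nonneg (fun x => sq_nonneg _)
  have hmain : ∃ c : ℝ, 0 < c ∧ ∀ S ∈ K, c ≤ sliQ S := by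
    by_cases hne : K.Nonempty
    · obtain ⟨S0, hS0, hmin⟩ := hcpt.exists_isMinOn hne (sliQ_continuous hn).continuousOn
      refine ⟨sliQ S0, ?_, fun S hS => hmin hS⟩
      apply lt_of_le_of_ne (hnonneg S0)
      intro h0
      have h1 := sliQ_zero hn hS0.2 h0.symm
      have h2 := hS0.1
      rw [h1, norm_zero] at h2
      exact zero_ne_one h2
    · refine ⟨1, one_pos, fun S hS => absurd ⟨S, hS⟩ hne⟩
  obtain ⟨c, hc, hcK⟩ := hmain
  refine ⟨c, hc, fun S hS => ?_⟩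
  by_cases hS0 : S = 0
  · rw [hS0, norm_zero]
    have := hnonneg (0 : E n →L[ℝ] E n)
    simpa using this
  · have hnS : 0 < ‖S‖ := norm_pos_iff.mpr hS0
    have h1 : ‖S‖⁻¹ • S ∈ K := by
      refine ⟨?_, ?_⟩
      · rw [norm_smul, norm_inv, norm_norm, inv_mul_cancel₀ hnS.ne']
      · intro x y
        rw [smul_apply, smul_apply, inner_smul_left,
          inner_smul_right, hS x y]
        simp
    have h2 := hcK _ h1
    rw [sliQ_smul] at h2
    have h3 : ‖S‖ ^ 2 * (‖S‖⁻¹ ^ 2 * sliQ S) = sliQ S := by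
      field_simp
    have h4 : ‖S‖ ^ 2 * c ≤ ‖S‖ ^ 2 * (‖S‖⁻¹ ^ 2 * sliQ S) :=
      mul_le_mul_of_nonneg_left h2 (sq_nonneg _)
    rw [h3] at h4
    linarith

theorem quad_lower (hn : 1 ≤ n) : ∃ c : ℝ, 0 < c ∧ ∀ S : E n →L[ℝ] E n,
    (∀ x y, inner ℝ (S x) y = inner ℝ x (S y)) → ∀ z : E n,
      c * (‖S‖ ^ 2 + ‖z‖ ^ 2) ≤ sq (fun x => inner ℝ x (S x) - inner ℝ z x) := by
  obtain ⟨c, hc, hlow⟩ := sliQ_lower (n := n) hn
  have hnpos : (0 : ℝ) < n := by exact_mod_cast hn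
  refine ⟨min c (1 / n), lt_min hc (by positivity), fun S hS z => ?_⟩
  have hz : ContinuousOn (fun x : E n => (inner ℝ z x) ^ 2) (sphere 0 1) :=
    ((continuous_const.inner continuous_id).pow 2).continuousOn
  have hSz : ContinuousOn (fun x : E n => (-2) * (inner ℝ x (S x) * inner ℝ z x)) (sphere 0 1) :=
    (continuous_const.mul ((continuous_id.inner S.continuous).mul
      (continuous_const.inner continuous_id))).continuousOn
  have h1 : sq (fun x => inner ℝ x (S x) - inner ℝ z x) = sliQ S + ‖z‖ ^ 2 / n := by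
    have e1 : sq (fun x => inner ℝ x (S x) - inner ℝ z x) =
        ∫ x, ((inner ℝ x (S x)) ^ 2 + (-2) * (inner ℝ x (S x) * inner ℝ z x) +
          (inner ℝ z x) ^ 2) ∂(mu n) := by
      unfold sq
      congr 1
      funext x
      ring
    have hodd : ∫ x, (-2) * (inner ℝ x (S x) * inner ℝ z x) ∂(mu n) = 0 := by
      apply int_odd hn
      intro x
      simp only [map_neg, inner_neg_left, inner_neg_right]
      ring
    have i1 := integrable_mu hn (sliQ_cont_sq S)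
    have i2 := integrable_mu hn hSz
    have i3 := integrable_mu hn hz
    have i12 : Integrable (fun x : E n => (inner ℝ x (S x)) ^ 2 +
        (-2) * (inner ℝ x (S x) * inner ℝ z x)) (mu n) := i1.add i2
    rw [e1, integral_add i12 i3, integral_add i1 i2, hodd, int_inner_sq hn]
    unfold sliQ
    ring
  rw [h1]
  have h2 := hlow S hS
  have h3 : min c (1 / (n : ℝ)) * ‖S‖ ^ 2 ≤ c * ‖S‖ ^ 2 :=
    mul_le_mul_of_nonneg_right (min_le_left _ _) (sq_nonneg _)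
  have h4 : min c (1 / (n : ℝ)) * ‖z‖ ^ 2 ≤ 1 / n * ‖z‖ ^ 2 :=
    mul_le_mul_of_nonneg_right (min_le_right _ _) (sq_nonneg _)
  have h5 : 1 / (n : ℝ) * ‖z‖ ^ 2 = ‖z‖ ^ 2 / n := by ring
  linarith

theorem slia_norm {x ξ : E n} (hx : ‖x‖ = 1) (hξ : ‖ξ‖ ≤ 2) (r : ℝ) :
    ‖x + r • ξ‖ ≤ 1 + r * inner ℝ x ξ + 2 * r ^ 2 := by
  have h1 : ‖x + r • ξ‖ ^ 2 = 1 + 2 * (r * inner ℝ x ξ) + r ^ 2 * ‖ξ‖ ^ 2 := by
    rw [norm_add_sq_real, inner_smul_right, norm_smul, hx, mul_pow, Real.norm_eq_abs, sq_abs]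
    ring
  have h2 : ‖ξ‖ ^ 2 ≤ 4 := by
    have := norm_nonneg ξ
    nlinarith
  have h3 : r ^ 2 * ‖ξ‖ ^ 2 ≤ r ^ 2 * 4 := mul_le_mul_of_nonneg_left h2 (sq_nonneg _)
  nlinarith [sq_nonneg (‖x + r • ξ‖ - 1)]

/-- One-sided differences of a sublinear function near the norm. -/
theorem diff_near (hn : 1 ≤ n) : ∃ C : ℝ, 0 < C ∧ ∀ l : E n → ℝ,
    (∀ t : ℝ, 0 ≤ t → ∀ x, l (t • x) = t * l x) → (∀ x y, l (x + y) ≤ l x + l y) →
    ∀ δ : ℝ, 0 ≤ δ → δ ≤ 1 / 2 → Near δ l → ∀ x ξ : E n, ‖x‖ = 1 → ‖ξ‖ ≤ 2 →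
    ∀ r : ℝ, Real.sqrt δ < r → ∃ s0 : ℝ, 0 < s0 ∧ ∀ s : ℝ, 0 < s → s ≤ s0 →
      |l (x + s • ξ) - l x - s * inner ℝ x ξ| ≤ C * s * r := by
  refine ⟨7, by norm_num, ?_⟩
  intro l hom hsub δ hδ0 hδ1 hN x ξ hx hξ r hr
  have hSL : SL l := SL_of_near (by linarith) hom hsub hN
  have hb := fun y => (Near.bound hSL.p1 hN y).2
  have hlx : 1 - δ ≤ l x := by
    have := hN x hx
    rw [abs_le] at this
    linarith [this.1]
  have hsq : Real.sqrt δ < 1 := by
    rw [Real.sqrt_lt' one_pos]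
    linarith
  set ρ := min r 1 with hρ
  have hρ1 : Real.sqrt δ < ρ := lt_min hr hsq
  have hρpos : 0 < ρ := lt_of_le_of_lt (Real.sqrt_nonneg δ) hρ1
  have hρle : ρ ≤ 1 := min_le_right _ _
  have hρr : ρ ≤ r := min_le_left _ _
  have hδρ : δ ≤ ρ ^ 2 := by
    rw [Real.sqrt_lt' hρpos] at hρ1
    exact hρ1.le
  have hin : |inner ℝ x ξ| ≤ 2 := by
    have := abs_real_inner_le_norm x ξ
    rw [hx] at this
    linarith
  rw [abs_le] at hin
  -- bound for l (x + t • ξ) - l x, for t = ρ and t = -ρ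
  have key : ∀ t : ℝ, t ^ 2 = ρ ^ 2 → |t| = ρ →
      l (x + t • ξ) - l x ≤ t * inner ℝ x ξ + 7 * ρ ^ 2 := by
    intro t ht hta
    have h1 := hb (x + t • ξ)
    have h2 := slia_norm hx hξ t
    have h3 : (1 + δ) * ‖x + t • ξ‖ ≤ (1 + δ) * (1 + t * inner ℝ x ξ + 2 * t ^ 2) :=
      mul_le_mul_of_nonneg_left h2 (by linarith)
    have h4 : t * inner ℝ x ξ ≤ 2 * ρ := by
      have h5 : t * inner ℝ x ξ ≤ |t * inner ℝ x ξ| := le_abs_self _
      rw [abs_mul, hta] at h5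
      have h6 : |inner ℝ x ξ| ≤ 2 := abs_le.mpr hin
      nlinarith
    have h7 : δ * (t * inner ℝ x ξ) ≤ δ * (2 * ρ) := mul_le_mul_of_nonneg_left h4 hδ0
    have h8 : δ * (2 * ρ) ≤ 2 * ρ ^ 2 := by nlinarith
    rw [ht] at h3
    nlinarith
  have h1 := key ρ rfl (abs_of_pos hρpos)
  have h2 := key (-ρ) (by ring) (by rw [abs_neg, abs_of_pos hρpos])
  refine ⟨ρ, hρpos, fun s hs hsρ => ?_⟩
  have hrs : 7 * s * ρ ≤ 7 * s * r := by
    have : 0 ≤ 7 * s := by linarith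
    exact mul_le_mul_of_nonneg_left hρr this
  -- upper bound
  have hup : l (x + s • ξ) - l x ≤ s * inner ℝ x ξ + 7 * s * ρ := by
    have e1 : x + s • ξ = (1 - s / ρ) • x + (s / ρ) • (x + ρ • ξ) := by
      rw [smul_add, smul_smul, div_mul_cancel₀ s hρpos.ne', sub_smul, one_smul]
      abel
    have hsρ1 : s / ρ ≤ 1 := by
      rw [div_le_one hρpos]
      exact hsρ
    have hsρ0 : 0 ≤ s / ρ := by positivity
    have e2 := hsub ((1 - s / ρ) • x) ((s / ρ) • (x + ρ • ξ))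
    rw [← e1, hom _ (by linarith), hom _ hsρ0] at e2
    have e3 : (s / ρ) * (l (x + ρ • ξ) - l x) ≤ (s / ρ) * (ρ * inner ℝ x ξ + 7 * ρ ^ 2) :=
      mul_le_mul_of_nonneg_left h1 hsρ0
    have e4 : (s / ρ) * (ρ * inner ℝ x ξ + 7 * ρ ^ 2) = s * inner ℝ x ξ + 7 * s * ρ := by
      field_simp
    nlinarith
  -- lower bound
  have hlow : s * inner ℝ x ξ - 7 * s * ρ ≤ l (x + s • ξ) - l x := by
    have e1 : (s + ρ) • x = s • (x + (-ρ) • ξ) + ρ • (x + s • ξ) := by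
      rw [smul_add, smul_add, smul_smul, smul_smul, add_smul]
      have : s * -ρ = -(ρ * s) := by ring
      rw [this, neg_smul]
      abel
    have e2 := hsub (s • (x + (-ρ) • ξ)) (ρ • (x + s • ξ))
    rw [← e1, hom _ (by linarith), hom _ hs.le, hom _ hρpos.le] at e2
    have e3 : s * (l (x + (-ρ) • ξ) - l x) ≤ s * (-ρ * inner ℝ x ξ + 7 * ρ ^ 2) :=
      mul_le_mul_of_nonneg_left h2 hs.le
    have e4 : ρ * (s * inner ℝ x ξ - 7 * s * ρ) ≤ ρ * (l (x + s • ξ) - l x) := by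
      nlinarith
    exact le_of_mul_le_mul_left e4 hρpos
  rw [abs_le]
  constructor <;> linarith

end Pool.Agent.H35.CA
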