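import Pool.Agent.H35.CA.Defs

/-!
# Job SPHA: the measure `mu n`

Proof hints.  Mathlib file `MeasureTheory/Constructions/HaarToSphere`.
The key identity is `mu n = (n * om n)⁻¹ • map Subtype.val (volume.toSphere)`; all integral
formulas over the sphere follow (Subtype.val is a measurable embedding, so `toSphere_int` holds
for arbitrary `F`).

`polar`: polar coordinates (`measurePreserving_homeomorphUnitSphereProd`):
`∫_{g ≤ 1} F = ∫_S ∫_0^{1/g(u)} F(u) r^(n-1) dr dσ = (1/n) ∫_S F g^(-n) dσ`.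
`lin_cov`: apply `polar` to `F ∘ A`, `g ∘ A` and to `F`, `g`, and use that
`{g (A x) ≤ 1}` is the preimage of `{g ≤ 1}` under `A`.
`iso_inv`: a linear isometry equivalence preserves volume and the unit ball and commutes with
`un`; it is a measurable equivalence, so `integral_map_equiv` gives it for arbitrary `F`.
-/

namespace Pool.Agent.H35.CA

open MeasureTheory Metric Set

variable {n : ℕ}

theorem measurable_un : Measurable (un : E n → E n) := by
  unfold un
  exact (measurable_norm.inv).smul measurable_id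

theorem sphA_vol_pos (n : ℕ) : (volume (ball (0 : E n) 1)) ≠ 0 :=
  (measure_ball_pos volume (0 : E n) one_pos).ne'

theorem sphA_vol_top (n : ℕ) : (volume (ball (0 : E n) 1)) ≠ ⊤ :=
  (measure_ball_lt_top).ne

theorem om_pos (n : ℕ) : 0 < om n :=
  ENNReal.toReal_pos (sphA_vol_pos n) (sphA_vol_top n)

theorem sphA_mu_apply {s : Set (E n)} (hs : MeasurableSet s) :
    mu n s = (volume (ball (0 : E n) 1))⁻¹ * volume (un ⁻¹' s ∩ ball (0 : E n) 1) := by
  unfold mu
  rw [Measure.map_apply measurable_un hs, Measure.smul_apply, smul_eq_mul,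
    Measure.restrict_apply (measurable_un hs)]

theorem mu_prob (hn : 1 ≤ n) : IsProbabilityMeasure (mu n) := by
  constructor
  rw [sphA_mu_apply MeasurableSet.univ, preimage_univ, univ_inter]
  exact ENNReal.inv_mul_cancel (sphA_vol_pos n) (sphA_vol_top n)

theorem sphA_ae_ne (hn : 1 ≤ n) : ∀ᵐ x ∂(volume : Measure (E n)), x ≠ 0 := by
  have : Nonempty (Fin n) := ⟨⟨0, hn⟩⟩
  have h : (volume : Measure (E n)) {0} = 0 := measure_singleton _
  rw [ae_iff]
  simpa using h

theorem sphA_un_norm {x : E n} (hx : x ≠ 0) : ‖un x‖ = 1 := by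
  unfold un
  rw [norm_smul, norm_inv, norm_norm, inv_mul_cancel₀ (norm_ne_zero_iff.mpr hx)]

/-- Cones that are Lebesgue null are null for `mu n`. -/
theorem sphA_mu_ae (p : E n → Prop) (hm : MeasurableSet {x | p x})
    (hae : ∀ᵐ x ∂(volume : Measure (E n)), p (un x)) : ∀ᵐ x ∂(mu n), p x := by
  unfold mu
  rw [ae_map_iff measurable_un.aemeasurable hm]
  exact Measure.ae_smul_measure (ae_restrict_of_ae hae) _

theorem mu_ae (hn : 1 ≤ n) : ∀ᵐ x ∂(mu n), ‖x‖ = 1 := by
  refine sphA_mu_ae _ (measurableSet_eq_fun measurable_norm measurable_const) ?_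
  filter_upwards [sphA_ae_ne hn] with x hx
  exact sphA_un_norm hx

/-- Cones that are Lebesgue null are null for `mu n`. -/
theorem mu_null_of_cone (hn : 1 ≤ n) (p : E n → Prop) (hm : MeasurableSet {x | p x})
    (hp : ∀ t : ℝ, 0 < t → ∀ x, p (t • x) → p x) (hae : ∀ᵐ x ∂(volume : Measure (E n)), p x) :
    ∀ᵐ x ∂(mu n), p x := by
  refine sphA_mu_ae p hm ?_
  filter_upwards [sphA_ae_ne hn, hae] with x hx hpx
  refine hp ‖x‖ (norm_pos_iff.mpr hx) _ ?_
  unfold un
  rwa [smul_smul, mul_inv_cancel₀ (norm_ne_zero_iff.mpr hx), one_smul]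

open scoped Pointwise in
theorem sphA_set (s : Set (E n)) :
    Ioo (0 : ℝ) 1 • ((↑) '' ((↑) ⁻¹' s : Set (sphere (0 : E n) 1)) : Set (E n)) =
      (un ⁻¹' s ∩ ball (0 : E n) 1) \ {0} := by
  ext y
  rw [Set.mem_smul]
  constructor
  · rintro ⟨r, hr, x, ⟨u, hu, rfl⟩, rfl⟩
    have h1 : ‖(u : E n)‖ = 1 := by simpa using u.2
    have h2 : ‖r • (u : E n)‖ = r := by
      rw [norm_smul, h1, mul_one, Real.norm_of_nonneg hr.1.le]
    refine ⟨⟨?_, ?_⟩, ?_⟩
    · change un (r • (u : E n)) ∈ s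
      unfold un
      rw [h2, smul_smul, inv_mul_cancel₀ hr.1.ne', one_smul]
      exact hu
    · rw [mem_ball_zero_iff, h2]
      exact hr.2
    · intro h
      rw [mem_singleton_iff] at h
      rw [h, norm_zero] at h2
      exact hr.1.ne h2
  · rintro ⟨⟨h1, h2⟩, h3⟩
    rw [mem_singleton_iff] at h3
    rw [mem_ball_zero_iff] at h2
    refine ⟨‖y‖, ⟨norm_pos_iff.mpr h3, h2⟩, un y,
      ⟨⟨un y, by simpa using sphA_un_norm h3⟩, h1, rfl⟩, ?_⟩
    unfold un
    rw [smul_smul, mul_inv_cancel₀ (norm_ne_zero_iff.mpr h3), one_smul]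

theorem sphA_map (hn : 1 ≤ n) :
    Measure.map (Subtype.val : sphere (0 : E n) 1 → E n) (volume : Measure (E n)).toSphere =
      ((n : ENNReal) * volume (ball (0 : E n) 1)) • mu n := by
  ext s hs
  rw [Measure.map_apply measurable_subtype_coe hs,
    Measure.toSphere_apply' _ (measurable_subtype_coe hs), sphA_set, finrank_euclideanSpace_fin,
    Measure.smul_apply, sphA_mu_apply hs, smul_eq_mul, mul_assoc, ← mul_assoc (volume _),
    ENNReal.mul_inv_cancel (sphA_vol_pos n) (sphA_vol_top n), one_mul]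
  congr 1
  have : Nonempty (Fin n) := ⟨⟨0, hn⟩⟩
  exact measure_sdiff_null (measure_singleton _)

theorem toSphere_int (hn : 1 ≤ n) (F : E n → ℝ) :
    ∫ u : sphere (0 : E n) 1, F u ∂(volume : Measure (E n)).toSphere
      = (n : ℝ) * om n * ∫ x, F x ∂(mu n) := by
  have h1 : MeasurableEmbedding (Subtype.val : sphere (0 : E n) 1 → E n) :=
    MeasurableEmbedding.subtype_coe isClosed_sphere.measurableSet
  rw [← h1.integral_map (fun x => F x), sphA_map hn, integral_smul_measure, ENNReal.toReal_mul,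
    ENNReal.toReal_natCast, smul_eq_mul]
  rfl

theorem sphA_Iic (m : ℕ) (x : Ioi (0 : ℝ)) :
    Measure.volumeIoiPow m (Iic x) = ENNReal.ofReal (x.1 ^ (m + 1) / (m + 1)) := by
  rw [← Measure.volumeIoiPow_apply_Iio]
  have h1 : Measure.volumeIoiPow m {x} = 0 := by
    unfold Measure.volumeIoiPow
    refine (withDensity_absolutelyContinuous _ _) ?_
    rw [comap_subtype_coe_apply measurableSet_Ioi, image_singleton]
    exact measure_singleton _
  refine le_antisymm ?_ (measure_mono Iio_subset_Iic_self)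
  rw [← Iio_union_right]
  refine (measure_union_le _ _).trans ?_
  rw [h1, add_zero]

theorem sphA_bdd (hn : 1 ≤ n) {F : E n → ℝ} (hF : H0 F) : ∃ C, ∀ x : E n, x ≠ 0 → |F x| ≤ C := by
  have h1 : ContinuousOn F (sphere (0 : E n) 1) := hF.cont.mono (by
    intro x hx h
    rw [mem_singleton_iff] at h
    rw [h] at hx
    simp at hx)
  obtain ⟨C, hC⟩ := (isCompact_sphere (0 : E n) 1).exists_bound_of_continuousOn h1
  refine ⟨C, fun x hx => ?_⟩
  have h2 := hC (un x) (by simpa using sphA_un_norm hx)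
  unfold un at h2
  rw [hF.hom _ (inv_pos.mpr (norm_pos_iff.mpr hx))] at h2
  exact h2

theorem sphA_lower (hn : 1 ≤ n) {g : E n → ℝ} (hg : P1 g) : ∃ m, 0 < m ∧ ∀ x : E n, m * ‖x‖ ≤ g x := by
  have : Nonempty (Fin n) := ⟨⟨0, hn⟩⟩
  have : Nontrivial (E n) := inferInstance
  have h0 : (sphere (0 : E n) 1).Nonempty := NormedSpace.sphere_nonempty.mpr zero_le_one
  obtain ⟨z, hz, hm⟩ := (isCompact_sphere (0 : E n) 1).exists_isMinOn h0 hg.cont.continuousOn
  have hz1 : ‖z‖ = 1 := by simpa using hz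
  refine ⟨g z, hg.pos z (fun h => by rw [h, norm_zero] at hz1; exact zero_ne_one hz1), fun x => ?_⟩
  by_cases hx : x = 0
  · rw [hx, norm_zero, mul_zero]
    have := hg.hom 0 le_rfl 0
    rw [zero_smul, zero_mul] at this
    rw [this]
  · have h2 : g z ≤ g (un x) := hm (by simpa using sphA_un_norm hx)
    unfold un at h2
    rw [hg.hom _ (inv_nonneg.mpr (norm_nonneg x)), inv_mul_eq_div,
      le_div_iff₀ (norm_pos_iff.mpr hx)] at h2
    exact h2

theorem sphA_sub_ne_top (hn : 1 ≤ n) {g : E n → ℝ} (hg : P1 g) : volume {x | g x ≤ 1} ≠ ⊤ := by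
  obtain ⟨m, hm, h⟩ := sphA_lower hn hg
  refine ((measure_mono ?_).trans_lt (measure_closedBall_lt_top (x := (0 : E n)) (r := 1 / m))).ne
  intro x hx
  rw [mem_closedBall_zero_iff, le_div_iff₀ hm, mul_comm]
  exact (h x).trans hx

theorem sphA_meas {g : E n → ℝ} (hg : P1 g) : MeasurableSet {x | g x ≤ 1} :=
  (isClosed_le hg.cont continuous_const).measurableSet

theorem sphA_aesm (hn : 1 ≤ n) {F : E n → ℝ} (hF : H0 F) :
    AEStronglyMeasurable F (volume : Measure (E n)) := by
  have : Nonempty (Fin n) := ⟨⟨0, hn⟩⟩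
  have h := hF.cont.aestronglyMeasurable (μ := (volume : Measure (E n)))
    (measurableSet_singleton (0 : E n)).compl
  rwa [restrict_compl_singleton] at h

theorem sphA_intOn (hn : 1 ≤ n) {F g : E n → ℝ} (hF : H0 F) (hg : P1 g) :
    IntegrableOn F {x | g x ≤ 1} := by
  obtain ⟨C, hC⟩ := sphA_bdd hn hF
  refine Measure.integrableOn_of_bounded (M := C) (sphA_sub_ne_top hn hg) (sphA_aesm hn hF) ?_
  filter_upwards [ae_restrict_of_ae (sphA_ae_ne hn)] with x hx
  exact hC x hx

/-- Polar coordinates. -/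
theorem polar (hn : 1 ≤ n) {F g : E n → ℝ} (hF : H0 F) (hg : P1 g) :
    IntegrableOn F {x | g x ≤ 1} ∧
      ∫ x in {x | g x ≤ 1}, F x = om n * ∫ x, F x * (g x ^ n)⁻¹ ∂(mu n) := by
  have h0 := sphA_intOn hn hF hg
  refine ⟨h0, ?_⟩
  have : Nonempty (Fin n) := ⟨⟨0, hn⟩⟩
  have hnt : Nontrivial (E n) := inferInstance
  have hn0 : (n : ℝ) ≠ 0 := by exact_mod_cast (by omega : n ≠ 0)
  set f : E n → ℝ := {x | g x ≤ 1}.indicator F with hf
  have hfi : Integrable f (volume : Measure (E n)) := (integrable_indicator_iff (sphA_meas hg)).mpr h0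
  have hmp := (volume : Measure (E n)).measurePreserving_homeomorphUnitSphereProd
  have hemb : MeasurableEmbedding (homeomorphUnitSphereProd (E n)) :=
    (homeomorphUnitSphereProd (E n)).measurableEmbedding
  set G : sphere (0 : E n) 1 × Ioi (0 : ℝ) → ℝ := fun q => f ((q.2 : ℝ) • (q.1 : E n)) with hG
  have hGf : ∀ x : ({(0)}ᶜ : Set (E n)), G (homeomorphUnitSphereProd (E n) x) = f x := by
    intro x
    change f _ = f _
    congr 1
    rw [homeomorphUnitSphereProd_apply_snd_coe, homeomorphUnitSphereProd_apply_fst_coe, smul_smul,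
      mul_inv_cancel₀ (norm_ne_zero_iff.mpr x.2), one_smul]
  have hGi : Integrable G ((volume : Measure (E n)).toSphere.prod
      (Measure.volumeIoiPow (Module.finrank ℝ (E n) - 1))) := by
    rw [← hmp.integrable_comp_emb hemb]
    have h1 : G ∘ (homeomorphUnitSphereProd (E n)) = fun x : ({(0)}ᶜ : Set (E n)) => f x :=
      funext hGf
    rw [h1]
    have h2 : IntegrableOn f ({0}ᶜ : Set (E n)) := hfi.integrableOn
    rwa [integrableOn_iff_comap_subtypeVal (measurableSet_singleton _).compl] at h2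
  have e1 : ∫ x in {x | g x ≤ 1}, F x = ∫ x, f x := (integral_indicator (sphA_meas hg)).symm
  have e2 : ∫ x, f x = ∫ x : ({(0)}ᶜ : Set (E n)), f x ∂((volume : Measure (E n)).comap (↑)) := by
    rw [integral_subtype_comap (measurableSet_singleton _).compl fun x => f x,
      restrict_compl_singleton]
  have e3 : ∫ x : ({(0)}ᶜ : Set (E n)), f x ∂((volume : Measure (E n)).comap (↑)) =
      ∫ q, G q ∂((volume : Measure (E n)).toSphere.prod
      (Measure.volumeIoiPow (Module.finrank ℝ (E n) - 1))) := by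
    rw [← hmp.integral_comp hemb]
    exact integral_congr_ae (Filter.Eventually.of_forall fun x => (hGf x).symm)
  have e4 : ∀ u : sphere (0 : E n) 1, ∫ r, G (u, r) ∂(Measure.volumeIoiPow
      (Module.finrank ℝ (E n) - 1)) = (n : ℝ)⁻¹ * (F u * (g u ^ n)⁻¹) := by
    intro u
    have hu0 : (u : E n) ≠ 0 := by
      intro h
      have h1 : ‖(u : E n)‖ = 1 := by simpa using u.2
      rw [h, norm_zero] at h1
      exact zero_ne_one h1
    have hgu := hg.pos _ hu0
    have h1 : (fun r : Ioi (0 : ℝ) => G (u, r)) =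
        (Iic (⟨(g u)⁻¹, inv_pos.mpr hgu⟩ : Ioi (0 : ℝ))).indicator (fun _ => F u) := by
      funext r
      have hr : (0 : ℝ) < r := r.2
      have h2 : ((r : ℝ) • (u : E n) ∈ {x | g x ≤ 1}) ↔
          r ∈ Iic (⟨(g u)⁻¹, inv_pos.mpr hgu⟩ : Ioi (0 : ℝ)) := by
        rw [mem_ofPred_eq, hg.hom _ hr.le, mem_Iic, ← Subtype.coe_le_coe]
        exact (le_inv_mul_iff₀' hgu).symm.trans (by rw [mul_one]) 
      by_cases h3 : r ∈ Iic (⟨(g u)⁻¹, inv_pos.mpr hgu⟩ : Ioi (0 : ℝ))
      · rw [indicator_of_mem h3]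
        change f _ = _
        rw [hf, indicator_of_mem (h2.mpr h3), hF.hom _ hr]
      · rw [indicator_of_notMem h3]
        change f _ = _
        rw [hf, indicator_of_notMem (fun h => h3 (h2.mp h))]
    rw [h1, integral_indicator measurableSet_Iic, setIntegral_const, Measure.real, sphA_Iic,
      finrank_euclideanSpace_fin, ENNReal.toReal_ofReal (by positivity), smul_eq_mul,
      Nat.cast_sub hn, Nat.sub_add_cancel hn]
    push_cast
    rw [sub_add_cancel, inv_pow]
    ring
  rw [e1, e2, e3, integral_prod _ hGi, integral_congr_ae (Filter.Eventually.of_forall e4),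
    integral_const_mul, toSphere_int hn (fun x => F x * (g x ^ n)⁻¹)]
  field_simp

theorem vol_sub (hn : 1 ≤ n) {g : E n → ℝ} (hg : P1 g) :
    volume {x | g x ≤ 1} ≠ ⊤ ∧
      (volume {x | g x ≤ 1}).toReal = om n * ∫ x, (g x ^ n)⁻¹ ∂(mu n) := by
  refine ⟨sphA_sub_ne_top hn hg, ?_⟩
  have h := (polar hn (F := fun _ => 1) ⟨fun _ _ _ => rfl, continuousOn_const⟩ hg).2
  rw [setIntegral_const, smul_eq_mul, mul_one] at h
  simp only [one_mul] at h
  exact h

theorem lin_cov (hn : 1 ≤ n) (A : E n ≃L[ℝ] E n) {F g : E n → ℝ} (hF : H0 F) (hg : P1 g) :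
    ∫ x, F (A x) * (g (A x) ^ n)⁻¹ ∂(mu n)
      = |(A : E n →L[ℝ] E n).det|⁻¹ * ∫ x, F x * (g x ^ n)⁻¹ ∂(mu n) := by
  have hF' : H0 (fun x => F (A x)) := by
    refine ⟨fun t ht x => ?_, ?_⟩
    · rw [map_smul, hF.hom t ht]
    · refine hF.cont.comp A.continuous.continuousOn ?_
      intro x hx h
      rw [mem_singleton_iff] at h
      exact hx ((map_eq_zero_iff A A.injective).mp h)
  have hg' : P1 (fun x => g (A x)) := by
    refine ⟨fun t ht x => ?_, hg.cont.comp A.continuous, fun x hx => ?_⟩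
    · rw [map_smul, hg.hom t ht]
    · exact hg.pos _ (fun h => hx ((map_eq_zero_iff A A.injective).mp h))
  have h1 := (polar hn hF' hg').2
  have h2 := (polar hn hF hg).2
  have hdet : (LinearMap.det ((A : E n →L[ℝ] E n) : E n →ₗ[ℝ] E n)) ≠ 0 :=
    (A.toLinearEquiv.isUnit_det').ne_zero
  have h3 : ∫ x in {x | g (A x) ≤ 1}, F (A x) =
      |(A : E n →L[ℝ] E n).det|⁻¹ * ∫ x in {x | g x ≤ 1}, F x := by
    rw [← integral_indicator (sphA_meas hg'), ← integral_indicator (sphA_meas hg)]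
    have h4 : ({x | g (A x) ≤ 1}.indicator fun x => F (A x)) =
        fun x => ({x | g x ≤ 1}.indicator F) (A x) := by
      funext x
      rfl
    have h5 : MeasurableEmbedding (A : E n → E n) := A.toHomeomorph.measurableEmbedding
    rw [h4, ← h5.integral_map]
    have h6 := Measure.map_linearMap_addHaar_eq_smul_addHaar (volume : Measure (E n)) hdet
    have h7 : Measure.map (A : E n → E n) (volume : Measure (E n)) =
        ENNReal.ofReal |(LinearMap.det ((A : E n →L[ℝ] E n) : E n →ₗ[ℝ] E n))⁻¹| • volume := h6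
    rw [h7, integral_smul_measure, ENNReal.toReal_ofReal (abs_nonneg _), abs_inv, smul_eq_mul]
  rw [h1, h2] at h3
  have h4 := om_pos n
  have h5 : om n * ∫ x, F (A x) * (g (A x) ^ n)⁻¹ ∂(mu n) =
      om n * (|(A : E n →L[ℝ] E n).det|⁻¹ * ∫ x, F x * (g x ^ n)⁻¹ ∂(mu n)) := by
    rw [h3]
    ring
  exact mul_left_cancel₀ h4.ne' h5

theorem iso_inv (hn : 1 ≤ n) (A : E n ≃ₗᵢ[ℝ] E n) (F : E n → ℝ) :
    ∫ x, F (A x) ∂(mu n) = ∫ x, F x ∂(mu n) := by
  have h1 : MeasurableEmbedding (A : E n → E n) := A.toHomeomorph.measurableEmbedding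
  rw [← h1.integral_map]
  congr 1
  have h2 : (A : E n → E n) ∘ (un : E n → E n) = un ∘ A := by
    funext x
    change A (‖x‖⁻¹ • x) = ‖A x‖⁻¹ • A x
    rw [map_smul, A.norm_map]
  have h3 := (A.measurePreserving).restrict_preimage (measurableSet_ball (x := (0 : E n)) (ε := 1))
  have h4 : (A : E n → E n) ⁻¹' (ball (0 : E n) 1) = ball (0 : E n) 1 := by
    ext x
    rw [mem_preimage, mem_ball_zero_iff, mem_ball_zero_iff, A.norm_map]
  rw [h4] at h3
  unfold mu
  rw [Measure.map_map h1.measurable measurable_un, h2, ← Measure.map_map measurable_un h1.measurable,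
    Measure.map_smul, h3.map_eq]

end Pool.Agent.H35.CA
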