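import Pool.Agent.H35.CA.SphA

/-!
# Job SPHB: averages over the sphere

Proof hints.
`integrable_mu`: `mu n` is a probability measure carried by the unit sphere (`mu_ae`), which is
compact and measurable; `ContinuousOn.aestronglyMeasurable` for `(mu n).restrict (sphere 0 1)`,
which is `mu n`, and boundedness.
`mu_full`: full support, e.g. through `toSphere_int` or through the definition of `mu n`
(a continuous nonnegative function of `un x` on the ball with zero integral vanishes).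
`int_cs`: Cauchy-Schwarz, for instance from `0 ≤ ∫ (F - t G)^2` for all real `t`.
`int_inner_sq`: by `iso_inv` (swap coordinates, change sign of one coordinate), the integrals of
`x i * x j` vanish for `i ≠ j` and those of `x i ^ 2` are all equal, with sum 1.
-/

namespace Pool.Agent.H35.CA

open MeasureTheory Metric Set

variable {n : ℕ}

theorem integrable_mu (hn : 1 ≤ n) {F : E n → ℝ} (hF : ContinuousOn F (sphere 0 1)) :
    Integrable F (mu n) := by
  have := mu_prob hn
  have h : (mu n).restrict (sphere 0 1) = mu n := by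
    refine Measure.restrict_eq_self_of_ae_mem ?_
    filter_upwards [mu_ae hn] with x hx
    rw [mem_sphere_zero_iff_norm]
    exact hx
  rw [← h]
  exact hF.integrableOn_compact (isCompact_sphere 0 1)

theorem mu_full (hn : 1 ≤ n) {F : E n → ℝ} (hF : ContinuousOn F (sphere 0 1))
    (h0 : ∀ x, ‖x‖ = 1 → 0 ≤ F x) (hI : ∫ x, F x ∂(mu n) = 0) :
    ∀ x, ‖x‖ = 1 → F x = 0 := by
  have h1 := toSphere_int hn F
  rw [hI, mul_zero] at h1
  have hc : Continuous (fun u : sphere (0 : E n) 1 => F u) :=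
    continuousOn_iff_continuous_domRestrict.1 hF
  have hi : Integrable (fun u : sphere (0 : E n) 1 => F u) (volume : Measure (E n)).toSphere :=
    hc.integrable_of_hasCompactSupport (HasCompactSupport.of_compactSpace _)
  have hnn : 0 ≤ᵐ[(volume : Measure (E n)).toSphere] fun u : sphere (0 : E n) 1 => F u :=
    Filter.Eventually.of_forall (fun u => h0 u (mem_sphere_zero_iff_norm.1 u.2))
  have h2 := (integral_eq_zero_iff_of_nonneg_ae hnn hi).1 h1
  have h3 : (fun u : sphere (0 : E n) 1 => F u) = fun _ => (0 : ℝ) :=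
    (Continuous.ae_eq_iff_eq _ hc continuous_const).1 h2
  intro x hx
  exact congrFun h3 ⟨x, mem_sphere_zero_iff_norm.2 hx⟩

theorem int_congr (hn : 1 ≤ n) {F G : E n → ℝ} (h : ∀ x, ‖x‖ = 1 → F x = G x) :
    ∫ x, F x ∂(mu n) = ∫ x, G x ∂(mu n) := by
  refine integral_congr_ae ?_
  filter_upwards [mu_ae hn] with x hx
  exact h x hx

theorem int_mono (hn : 1 ≤ n) {F G : E n → ℝ} (hF : ContinuousOn F (sphere 0 1))
    (hG : ContinuousOn G (sphere 0 1)) (h : ∀ x, ‖x‖ = 1 → F x ≤ G x) :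
    ∫ x, F x ∂(mu n) ≤ ∫ x, G x ∂(mu n) := by
  refine integral_mono_ae (integrable_mu hn hF) (integrable_mu hn hG) ?_
  filter_upwards [mu_ae hn] with x hx
  exact h x hx

theorem int_const (hn : 1 ≤ n) (c : ℝ) : ∫ _x, c ∂(mu n) = c := by
  have := mu_prob hn
  rw [integral_const, probReal_univ, one_smul]

/-- The integral of a bounded function is bounded. -/
theorem int_abs_le (hn : 1 ≤ n) {F : E n → ℝ} {c : ℝ} (h : ∀ x, ‖x‖ = 1 → |F x| ≤ c) :
    |∫ x, F x ∂(mu n)| ≤ c := by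
  have := mu_prob hn
  have h1 : ∀ᵐ x ∂(mu n), ‖F x‖ ≤ c := by
    filter_upwards [mu_ae hn] with x hx
    exact h x hx
  have h2 := norm_integral_le_of_norm_le_const h1
  rw [probReal_univ, mul_one] at h2
  exact h2

/-- Cauchy-Schwarz. -/
theorem int_cs (hn : 1 ≤ n) {F G : E n → ℝ} (hF : ContinuousOn F (sphere 0 1))
    (hG : ContinuousOn G (sphere 0 1)) :
    (∫ x, F x * G x ∂(mu n)) ^ 2 ≤ sq F * sq G := by
  have hFF : Integrable (fun x => F x ^ 2) (mu n) := integrable_mu hn (hF.pow 2)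
  have hGG : Integrable (fun x => G x ^ 2) (mu n) := integrable_mu hn (hG.pow 2)
  have hFG : Integrable (fun x => F x * G x) (mu n) := integrable_mu hn (hF.mul hG)
  have key : ∀ t : ℝ, 0 ≤ sq G * (t * t) + (-(2 * ∫ x, F x * G x ∂(mu n))) * t + sq F := by
    intro t
    have h1 : 0 ≤ ∫ x, (F x - t * G x) ^ 2 ∂(mu n) := integral_nonneg fun x => sq_nonneg _
    have h2 : ∫ x, (F x - t * G x) ^ 2 ∂(mu n) =
        ∫ x, ((t * t) * G x ^ 2 + (-(2 * t)) * (F x * G x)) + F x ^ 2 ∂(mu n) := by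
      refine integral_congr_ae (Filter.Eventually.of_forall fun x => ?_)
      change (F x - t * G x) ^ 2 = ((t * t) * G x ^ 2 + (-(2 * t)) * (F x * G x)) + F x ^ 2
      ring
    have hA : Integrable (fun x => (t * t) * G x ^ 2) (mu n) := hGG.const_mul _
    have hB : Integrable (fun x => (-(2 * t)) * (F x * G x)) (mu n) := hFG.const_mul _
    have hAB : Integrable (fun x => (t * t) * G x ^ 2 + (-(2 * t)) * (F x * G x)) (mu n) :=
      hA.add hB
    rw [h2, integral_add hAB hFF, integral_add hA hB, integral_const_mul,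
      integral_const_mul] at h1
    have h3 : sq G * (t * t) + (-(2 * ∫ x, F x * G x ∂(mu n))) * t + sq F =
        t * t * (∫ x, G x ^ 2 ∂(mu n)) + -(2 * t) * (∫ x, F x * G x ∂(mu n)) +
          ∫ x, F x ^ 2 ∂(mu n) := by
      rw [sq, sq]
      ring
    rw [h3]
    exact h1
  have h4 := discrim_le_zero key
  rw [discrim] at h4
  nlinarith [h4]

theorem int_odd (hn : 1 ≤ n) {F : E n → ℝ} (h : ∀ x, F (-x) = - F x) :
    ∫ x, F x ∂(mu n) = 0 := by
  have h1 := iso_inv hn (LinearIsometryEquiv.neg ℝ : E n ≃ₗᵢ[ℝ] E n) F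
  have h2 : ∫ x, F ((LinearIsometryEquiv.neg ℝ : E n ≃ₗᵢ[ℝ] E n) x) ∂(mu n) =
      - ∫ x, F x ∂(mu n) := by
    rw [← integral_neg]
    refine integral_congr_ae (Filter.Eventually.of_forall fun x => ?_)
    exact h x
  rw [h2] at h1
  linarith

theorem sphB_inv (hn : 1 ≤ n) {z w : E n} (h : ‖z‖ = ‖w‖) :
    ∫ x, (inner ℝ z x) ^ 2 ∂(mu n) = ∫ x, (inner ℝ w x) ^ 2 ∂(mu n) := by
  rw [← iso_inv hn ((ℝ ∙ (z - w))ᗮ.reflection) (fun x => (inner ℝ w x) ^ 2)]
  refine integral_congr_ae (Filter.Eventually.of_forall fun x => ?_)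
  have h1 : ((ℝ ∙ (z - w))ᗮ.reflection) z = w := Submodule.reflection_sub h
  have h2 : inner ℝ w (((ℝ ∙ (z - w))ᗮ.reflection) x) = inner ℝ z x := by
    have h3 := LinearIsometryEquiv.inner_map_map ((ℝ ∙ (z - w))ᗮ.reflection) z x
    rw [h1] at h3
    exact h3
  change (inner ℝ z x) ^ 2 = (inner ℝ w (((ℝ ∙ (z - w))ᗮ.reflection) x)) ^ 2
  rw [h2]

theorem int_inner_sq (hn : 1 ≤ n) (z : E n) :
    ∫ x, (inner ℝ z x) ^ 2 ∂(mu n) = ‖z‖ ^ 2 / n := by
  have hcont : ∀ w : E n, ContinuousOn (fun x : E n => (inner ℝ w x) ^ 2) (sphere 0 1) :=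
    fun w => ((continuous_const.inner continuous_id).pow 2).continuousOn
  have hi : (0 : ℕ) < n := hn
  set i0 : Fin n := ⟨0, hi⟩
  have hM : ∀ i : Fin n, ∫ x, (inner ℝ (EuclideanSpace.single i (1 : ℝ) : E n) x) ^ 2 ∂(mu n) =
      ∫ x, (inner ℝ (EuclideanSpace.single i0 (1 : ℝ) : E n) x) ^ 2 ∂(mu n) := by
    intro i
    refine sphB_inv hn ?_
    rw [PiLp.norm_single, PiLp.norm_single]
  have hsum : ∑ i : Fin n, ∫ x, (inner ℝ (EuclideanSpace.single i (1 : ℝ) : E n) x) ^ 2 ∂(mu n) =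
      1 := by
    rw [← integral_finsetSum _ (fun i _ => integrable_mu hn (hcont _))]
    refine Eq.trans ?_ (int_const hn 1)
    refine int_congr hn fun x hx => ?_
    have h1 : ‖x‖ ^ 2 = 1 := by rw [hx, one_pow]
    refine Eq.trans ?_ h1
    rw [EuclideanSpace.norm_sq_eq]
    refine Finset.sum_congr rfl fun i _ => ?_
    have h2 : inner ℝ (EuclideanSpace.single i (1 : ℝ) : E n) x = x i := by
      rw [EuclideanSpace.inner_single_left]
      simp
    rw [h2, Real.norm_eq_abs, sq_abs]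
  rw [Finset.sum_congr rfl (fun i _ => hM i), Finset.sum_const, Finset.card_univ,
    Fintype.card_fin, nsmul_eq_mul] at hsum
  have hn0 : (n : ℝ) ≠ 0 := by
    have : (0 : ℝ) < n := by exact_mod_cast hi
    exact this.ne'
  have hz : ‖z‖ = ‖(‖z‖ • (EuclideanSpace.single i0 (1 : ℝ) : E n))‖ := by
    rw [norm_smul, PiLp.norm_single, norm_one, mul_one, norm_norm]
  rw [sphB_inv hn hz]
  have h5 : ∫ x, (inner ℝ (‖z‖ • (EuclideanSpace.single i0 (1 : ℝ) : E n)) x) ^ 2 ∂(mu n) =
      ‖z‖ ^ 2 * ∫ x, (inner ℝ (EuclideanSpace.single i0 (1 : ℝ) : E n) x) ^ 2 ∂(mu n) := by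
    rw [← integral_const_mul]
    refine integral_congr_ae (Filter.Eventually.of_forall fun x => ?_)
    change (inner ℝ (‖z‖ • (EuclideanSpace.single i0 (1 : ℝ) : E n)) x) ^ 2 =
      ‖z‖ ^ 2 * (inner ℝ (EuclideanSpace.single i0 (1 : ℝ) : E n) x) ^ 2
    rw [real_inner_smul_left, mul_pow]
  rw [h5, eq_div_iff hn0, mul_assoc, mul_comm _ (n : ℝ), hsum, mul_one]

end Pool.Agent.H35.CA
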