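import Pool.Agent.H35.CA.SphB

/-!
# Job SPHC: rotations

Proof hints.
Rotations: `Gen J` gives `J (J (J x)) = -J x`; everything about `rot` is algebra with
`sin_add`, `cos_add`.  `rot J b` is a linear isometry equivalence with inverse `rot J (-b)`, so
`rot_inv` follows from `iso_inv`.
`norm_J_le`: `-J∘J` is a symmetric idempotent.
`norm_rot_sub`: `‖rot J b x - x‖^2 = (sin b ^2 + (1 - cos b)^2) ‖J x‖^2 ≤ b^2 ‖x‖^2`.
`XX_int`: `b ↦ ∫ F (rot J b x) dmu` is constant; differentiate under the integral sign at 0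
(`hasDerivAt_integral_of_dominated_loc_of_deriv_le`), the derivative of
`F (rot J b x)` is `XX J F (rot J b x)`, bounded on the sphere.
`circ_avg`: Fubini and `rot_inv`.
-/

namespace Pool.Agent.H35.CA

open MeasureTheory Metric Set

variable {n : ℕ}

theorem SphC_Jij_apply (i j : Fin n) (x : E n) :
    Jij i j x = x i • EuclideanSpace.single j (1 : ℝ) - x j • EuclideanSpace.single i (1 : ℝ) :=
  rfl

theorem SphC_skew_self {J : E n →L[ℝ] E n} (hJ : Gen J) (x : E n) : inner ℝ x (J x) = 0 := by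
  have h := hJ.skew x x
  rw [real_inner_comm] at h
  linarith

theorem SphC_JJ {J : E n →L[ℝ] E n} (hJ : Gen J) (x : E n) :
    inner ℝ x (J (J x)) = - ‖J x‖ ^ 2 := by
  have h := hJ.skew x (J x)
  rw [real_inner_self_eq_norm_sq] at h
  linarith

theorem SphC_norm_JJ {J : E n →L[ℝ] E n} (hJ : Gen J) (x : E n) : ‖J (J x)‖ = ‖J x‖ := by
  have h := hJ.skew (J x) (J (J x))
  rw [hJ.cube, inner_neg_right, neg_neg, real_inner_self_eq_norm_sq,
    real_inner_self_eq_norm_sq] at h
  exact (sq_eq_sq₀ (norm_nonneg _) (norm_nonneg _)).1 h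

theorem Gen_Jij {i j : Fin n} (h : i ≠ j) : Gen (Jij i j) := by
  constructor
  · intro x y
    rw [SphC_Jij_apply, SphC_Jij_apply, inner_sub_left, inner_sub_right, inner_smul_left,
      inner_smul_left, inner_smul_right, inner_smul_right, EuclideanSpace.inner_single_left,
      EuclideanSpace.inner_single_left, EuclideanSpace.inner_single_right,
      EuclideanSpace.inner_single_right]
    simp
    ring
  · intro x
    have e1 : ∀ y : E n, (Jij i j y) i = - y j := by
      intro y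
      rw [SphC_Jij_apply]
      simp [h]
    have e2 : ∀ y : E n, (Jij i j y) j = y i := by
      intro y
      rw [SphC_Jij_apply]
      simp [h.symm]
    have e3 : Jij i j (Jij i j (Jij i j x)) =
        (Jij i j (Jij i j x)) i • EuclideanSpace.single j (1 : ℝ) -
          (Jij i j (Jij i j x)) j • EuclideanSpace.single i (1 : ℝ) := SphC_Jij_apply i j _
    rw [e1, e2, e2, e1] at e3
    rw [e3, SphC_Jij_apply i j x]
    module

theorem norm_J_le {J : E n →L[ℝ] E n} (hJ : Gen J) (x : E n) : ‖J x‖ ≤ ‖x‖ := by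
  have h1 := SphC_JJ hJ x
  have h2 := abs_real_inner_le_norm x (J (J x))
  rw [SphC_norm_JJ hJ, h1, abs_neg, abs_of_nonneg (sq_nonneg _), pow_two] at h2
  by_cases h : ‖J x‖ = 0
  · rw [h]
    exact norm_nonneg _
  · have h3 : 0 < ‖J x‖ := lt_of_le_of_ne (norm_nonneg _) (Ne.symm h)
    exact le_of_mul_le_mul_right h2 h3

theorem inner_J_self {J : E n →L[ℝ] E n} (hJ : Gen J) (x : E n) : inner ℝ (J x) x = 0 := by
  rw [real_inner_comm]
  exact SphC_skew_self hJ x

theorem norm_rot {J : E n →L[ℝ] E n} (hJ : Gen J) (b : ℝ) (x : E n) : ‖rot J b x‖ = ‖x‖ := by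
  have h1 : ‖rot J b x‖ ^ 2 = ‖x‖ ^ 2 := by
    unfold rot
    rw [norm_add_sq_real, norm_add_sq_real, inner_add_left, inner_smul_left, inner_smul_right,
      inner_smul_right, inner_smul_right, SphC_skew_self hJ, SphC_JJ hJ, SphC_skew_self hJ,
      norm_smul, norm_smul, SphC_norm_JJ hJ, mul_pow, mul_pow, Real.norm_eq_abs, Real.norm_eq_abs,
      sq_abs, sq_abs]
    simp only [conj_trivial]
    have := Real.sin_sq_add_cos_sq b
    linear_combination ‖J x‖ ^ 2 * this
  exact (sq_eq_sq₀ (norm_nonneg _) (norm_nonneg _)).1 h1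

theorem rot_zero (J : E n →L[ℝ] E n) (x : E n) : rot J 0 x = x := by
  simp [rot]

theorem SphC_J_rot {J : E n →L[ℝ] E n} (hJ : Gen J) (b : ℝ) (x : E n) :
    J (rot J b x) = Real.cos b • J x + Real.sin b • J (J x) := by
  unfold rot
  rw [map_add, map_add, map_smul, map_smul, hJ.cube]
  module

theorem rot_add {J : E n →L[ℝ] E n} (hJ : Gen J) (a b : ℝ) (x : E n) :
    rot J (a + b) x = rot J a (rot J b x) := by
  have h1 := SphC_J_rot hJ b x
  have h2 : J (J (rot J b x)) = Real.cos b • J (J x) - Real.sin b • J x := by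
    rw [h1, map_add, map_smul, map_smul, hJ.cube]
    module
  rw [show rot J a (rot J b x) = rot J b x + Real.sin a • J (rot J b x) +
    (1 - Real.cos a) • J (J (rot J b x)) from rfl, h2, h1]
  unfold rot
  rw [Real.sin_add, Real.cos_add]
  module

theorem rot_deriv {J : E n →L[ℝ] E n} (hJ : Gen J) (b : ℝ) (x : E n) :
    HasDerivAt (fun b => rot J b x) (J (rot J b x)) b := by
  rw [SphC_J_rot hJ]
  have h1 : HasDerivAt (fun b : ℝ => x + Real.sin b • J x + (1 - Real.cos b) • J (J x))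
      (0 + Real.cos b • J x + (0 - (- Real.sin b)) • J (J x)) b :=
    (((hasDerivAt_const b x).add ((Real.hasDerivAt_sin b).smul_const (J x)))).add
      (((hasDerivAt_const b (1 : ℝ)).sub (Real.hasDerivAt_cos b)).smul_const (J (J x)))
  exact h1.congr_deriv (by module)

theorem rot_two_pi (J : E n →L[ℝ] E n) (b : ℝ) (x : E n) :
    rot J (b + 2 * Real.pi) x = rot J b x := by
  simp [rot]

theorem rot_J {J : E n →L[ℝ] E n} (hJ : Gen J) (b : ℝ) (x : E n) :
    J (rot J b x) = rot J b (J x) := by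
  unfold rot
  rw [map_add, map_add, map_smul, map_smul]

theorem rot_smul (J : E n →L[ℝ] E n) (b t : ℝ) (x : E n) :
    rot J b (t • x) = t • rot J b x := by
  unfold rot
  rw [map_smul, map_smul]
  module

theorem norm_rot_sub {J : E n →L[ℝ] E n} (hJ : Gen J) (b : ℝ) (x : E n) :
    ‖rot J b x - x‖ ≤ |b| * ‖x‖ := by
  have h0 : rot J b x - x = Real.sin b • J x + (1 - Real.cos b) • J (J x) := by
    unfold rot
    abel
  have h1 : ‖rot J b x - x‖ ^ 2 ≤ (|b| * ‖x‖) ^ 2 := by
    rw [h0, norm_add_sq_real, inner_smul_left, inner_smul_right, SphC_skew_self hJ, norm_smul,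
      norm_smul, SphC_norm_JJ hJ, mul_pow, mul_pow, Real.norm_eq_abs, Real.norm_eq_abs, sq_abs,
      sq_abs, mul_pow, sq_abs]
    simp only [conj_trivial]
    have h2 := Real.sin_sq_add_cos_sq b
    have h3 := Real.one_sub_sq_div_two_le_cos (x := b)
    have h4 : ‖J x‖ ^ 2 ≤ ‖x‖ ^ 2 := by
      exact pow_le_pow_left₀ (norm_nonneg _) (norm_J_le hJ x) 2
    have h5 : Real.sin b ^ 2 * ‖J x‖ ^ 2 + 2 * (Real.sin b * ((1 - Real.cos b) * 0)) +
        (1 - Real.cos b) ^ 2 * ‖J x‖ ^ 2 = (2 - 2 * Real.cos b) * ‖J x‖ ^ 2 := by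
      linear_combination ‖J x‖ ^ 2 * h2
    rw [h5]
    have h6 : 0 ≤ ‖J x‖ ^ 2 := sq_nonneg _
    nlinarith [sq_nonneg b]
  exact (pow_le_pow_iff_left₀ (norm_nonneg _) (by positivity) two_ne_zero).1 h1

/-- the rotation as a linear isometry equivalence -/
noncomputable def SphC_iso {J : E n →L[ℝ] E n} (hJ : Gen J) (b : ℝ) : E n ≃ₗᵢ[ℝ] E n where
  toFun := rot J b
  invFun := rot J (-b)
  map_add' x y := by
    unfold rot
    rw [map_add, map_add]
    module
  map_smul' t x := by
    rw [rot_smul]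
    rfl
  left_inv x := by
    rw [← rot_add hJ, neg_add_cancel, rot_zero]
  right_inv x := by
    rw [← rot_add hJ, add_neg_cancel, rot_zero]
  norm_map' x := norm_rot hJ b x

theorem SphC_rot_cont (J : E n →L[ℝ] E n) : Continuous (fun q : E n × ℝ => rot J q.2 q.1) := by
  unfold rot
  fun_prop

theorem SphC_rot_sphere {J : E n →L[ℝ] E n} (hJ : Gen J) (b : ℝ) {x : E n} (hx : ‖x‖ = 1) :
    rot J b x ∈ sphere (0 : E n) 1 := by
  rw [mem_sphere_zero_iff_norm, norm_rot hJ, hx]

theorem SphC_XX_cont (J : E n →L[ℝ] E n) {F : E n → ℝ} (hF : ContDiffOn ℝ 1 F {0}ᶜ) :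
    ContinuousOn (XX J F) {0}ᶜ := by
  have h1 : ContinuousOn (fderiv ℝ F) {0}ᶜ :=
    hF.continuousOn_fderiv_of_isOpen isOpen_compl_singleton le_rfl
  exact h1.clm_apply J.continuous.continuousOn

theorem SphC_sphere_sub : sphere (0 : E n) 1 ⊆ {0}ᶜ := by
  intro x hx h0
  rw [mem_sphere_zero_iff_norm] at hx
  rw [mem_singleton_iff] at h0
  rw [h0, norm_zero] at hx
  exact zero_ne_one hx

theorem SphC_diffAt {F : E n → ℝ} (hF : ContDiffOn ℝ 1 F {0}ᶜ) {x : E n} (hx : x ≠ 0) :
    DifferentiableAt ℝ F x :=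
  (hF.contDiffAt (isOpen_compl_singleton.mem_nhds hx)).differentiableAt one_ne_zero

theorem rot_inv (hn : 1 ≤ n) {J : E n →L[ℝ] E n} (hJ : Gen J) (b : ℝ) (F : E n → ℝ) :
    ∫ x, F (rot J b x) ∂(mu n) = ∫ x, F x ∂(mu n) := by
  exact iso_inv hn (SphC_iso hJ b) F

theorem XX_int (hn : 1 ≤ n) {J : E n →L[ℝ] E n} (hJ : Gen J) {F : E n → ℝ}
    (hF : ContDiffOn ℝ 1 F {0}ᶜ) : ∫ x, XX J F x ∂(mu n) = 0 := by
  obtain ⟨C, hC⟩ := (isCompact_sphere (0 : E n) 1).exists_bound_of_continuousOn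
    ((SphC_XX_cont J hF).mono SphC_sphere_sub)
  haveI := mu_prob (n := n) hn
  have hcont : ∀ b, ContinuousOn (fun x => F (rot J b x)) (sphere (0 : E n) 1) := by
    intro b
    refine (hF.continuousOn.mono SphC_sphere_sub).comp ?_ ?_
    · exact ((SphC_rot_cont J).comp (Continuous.prodMk_left b)).continuousOn
    · intro x hx
      exact SphC_rot_sphere hJ b (mem_sphere_zero_iff_norm.1 hx)
  have hmain := hasDerivAt_integral_of_dominated_loc_of_deriv_le (μ := mu n)
    (F := fun (b : ℝ) (x : E n) => F (rot J b x)) (F' := fun b x => XX J F (rot J b x))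
    (x₀ := (0 : ℝ)) (s := univ) (bound := fun _ => C) Filter.univ_mem
    (Filter.Eventually.of_forall fun b => (integrable_mu hn (hcont b)).aestronglyMeasurable)
    (integrable_mu hn (hcont 0))
    (by
      have : (fun x => XX J F (rot J 0 x)) = XX J F := by
        funext x
        rw [rot_zero]
      rw [this]
      exact (integrable_mu hn ((SphC_XX_cont J hF).mono SphC_sphere_sub)).aestronglyMeasurable)
    (by
      filter_upwards [mu_ae (n := n) hn] with x hx b _
      exact hC _ (SphC_rot_sphere hJ b hx))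
    (integrable_const C)
    (by
      filter_upwards [mu_ae (n := n) hn] with x hx b _
      have h0 : rot J b x ≠ 0 := SphC_sphere_sub (SphC_rot_sphere hJ b hx)
      exact ((SphC_diffAt hF h0).hasFDerivAt).comp_hasDerivAt b (rot_deriv hJ b x))
  have h1 := hmain.2
  have h2 : (fun b : ℝ => ∫ x, F (rot J b x) ∂(mu n)) = fun _ => ∫ x, F x ∂(mu n) := by
    funext b
    exact rot_inv hn hJ b F
  rw [h2] at h1
  have h3 := h1.unique (hasDerivAt_const (0 : ℝ) _)
  rw [← h3]
  refine integral_congr_ae (Filter.Eventually.of_forall fun x => ?_)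
  change XX J F x = XX J F (rot J 0 x)
  rw [rot_zero]

theorem XX_parts (hn : 1 ≤ n) {J : E n →L[ℝ] E n} (hJ : Gen J) {F G : E n → ℝ}
    (hF : ContDiffOn ℝ 1 F {0}ᶜ) (hG : ContDiffOn ℝ 1 G {0}ᶜ) :
    ∫ x, F x * XX J G x ∂(mu n) = - ∫ x, XX J F x * G x ∂(mu n) := by
  have hFG : ContDiffOn ℝ 1 (fun x => F x * G x) {0}ᶜ := hF.mul hG
  have h1 := XX_int hn hJ hFG
  have h2 : ∫ x, XX J (fun x => F x * G x) x ∂(mu n) =
      ∫ x, (F x * XX J G x + XX J F x * G x) ∂(mu n) := by
    refine int_congr hn (fun x hx => ?_)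
    have h0 : x ≠ 0 := SphC_sphere_sub (mem_sphere_zero_iff_norm.2 hx)
    unfold XX
    rw [fderiv_fun_mul (SphC_diffAt hF h0) (SphC_diffAt hG h0)]
    simp only [add_apply, smul_apply, smul_eq_mul]
    ring
  have i1 : Integrable (fun x => F x * XX J G x) (mu n) :=
    integrable_mu hn ((hF.continuousOn.mul (SphC_XX_cont J hG)).mono SphC_sphere_sub)
  have i2 : Integrable (fun x => XX J F x * G x) (mu n) :=
    integrable_mu hn (((SphC_XX_cont J hF).mul hG.continuousOn).mono SphC_sphere_sub)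
  rw [h2, integral_add i1 i2] at h1
  linarith

theorem circ_avg (hn : 1 ≤ n) {J : E n →L[ℝ] E n} (hJ : Gen J) {G : E n → ℝ}
    (hG : ContinuousOn G (sphere 0 1)) :
    ∫ x, (∫ b in (0 : ℝ)..(2 * Real.pi), G (rot J b x)) ∂(mu n)
      = 2 * Real.pi * ∫ x, G x ∂(mu n) := by
  haveI := mu_prob (n := n) hn
  obtain ⟨g, hg⟩ := ContinuousMap.exists_restrict_eq (isClosed_sphere (x := (0 : E n)) (ε := 1))
    ⟨(sphere (0 : E n) 1).restrict G, hG.restrict⟩
  have hgG : ∀ x, ‖x‖ = 1 → g x = G x := by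
    intro x hx
    exact DFunLike.congr_fun hg ⟨x, mem_sphere_zero_iff_norm.2 hx⟩
  obtain ⟨C, hC⟩ := (isCompact_sphere (0 : E n) 1).exists_bound_of_continuousOn
    g.continuous.continuousOn
  have h1 : ∫ x, (∫ b in (0 : ℝ)..(2 * Real.pi), G (rot J b x)) ∂(mu n) =
      ∫ x, (∫ b in Ioc (0 : ℝ) (2 * Real.pi), g (rot J b x)) ∂(mu n) := by
    refine int_congr hn (fun x hx => ?_)
    rw [intervalIntegral.integral_of_le Real.two_pi_pos.le]
    refine integral_congr_ae (Filter.Eventually.of_forall fun b => ?_)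
    change G (rot J b x) = g (rot J b x)
    rw [hgG]
    rw [norm_rot hJ, hx]
  have h2 : Integrable (Function.uncurry fun (x : E n) (b : ℝ) => g (rot J b x))
      ((mu n).prod (volume.restrict (Ioc (0 : ℝ) (2 * Real.pi)))) := by
    refine Integrable.of_bound (C := C) ?_ ?_
    · exact (g.continuous.comp (SphC_rot_cont J)).aestronglyMeasurable
    · have h3 := Measure.quasiMeasurePreserving_fst
        (μ := mu n) (ν := volume.restrict (Ioc (0 : ℝ) (2 * Real.pi)))
      filter_upwards [h3.ae (mu_ae (n := n) hn)] with q hq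
      exact hC _ (SphC_rot_sphere hJ q.2 hq)
  rw [h1, integral_integral_swap h2]
  have h4 : ∀ b : ℝ, ∫ x, g (rot J b x) ∂(mu n) = ∫ x, G x ∂(mu n) := by
    intro b
    rw [rot_inv hn hJ b (fun x => g x)]
    exact int_congr hn hgG
  simp_rw [h4]
  rw [integral_const]
  simp [Real.two_pi_pos.le]

end Pool.Agent.H35.CA
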