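import Pool.Agent.H35.CA.Loc

/-!
# Project CAM: continuous functions on the sphere, density and genericity
-/

namespace Pool.Agent.H35.CA

open MeasureTheory Metric Set

variable {n : ℕ}

/-- The unit sphere. -/
abbrev Sph (n : ℕ) : Type := sphere (0 : E n) 1

theorem top_un_norm {x : E n} (hx : x ≠ 0) : ‖un x‖ = 1 := by
  unfold un
  rw [norm_smul, norm_inv, norm_norm]
  exact inv_mul_cancel₀ (norm_ne_zero_iff.2 hx)

theorem top_un_of_norm {x : E n} (hx : ‖x‖ = 1) : un x = x := by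
  unfold un
  rw [hx, inv_one, one_smul]

/-- The homogeneous extension of a function on the sphere. -/
noncomputable def extS (f : Sph n → ℝ) (x : E n) : ℝ :=
  open Classical in
  if h : x = 0 then 0 else f ⟨un x, by
    rw [mem_sphere_zero_iff_norm]; exact top_un_norm h⟩

theorem extS_of_ne (f : Sph n → ℝ) {x : E n} (hx : x ≠ 0) :
    extS f x = f ⟨un x, by rw [mem_sphere_zero_iff_norm]; exact top_un_norm hx⟩ := by
  unfold extS
  rw [dif_neg hx]

theorem extS_coe (f : Sph n → ℝ) (u : Sph n) : extS f (u : E n) = f u := by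
  have hu : ‖(u : E n)‖ = 1 := by
    have := u.2
    rwa [mem_sphere_zero_iff_norm] at this
  have h0 : (u : E n) ≠ 0 := by
    intro h
    rw [h, norm_zero] at hu
    exact zero_ne_one hu
  rw [extS_of_ne f h0]
  congr 1
  exact Subtype.ext (top_un_of_norm hu)

theorem extS_H0 (f : C(Sph n, ℝ)) : H0 (extS f) := by
  constructor
  · intro t ht x
    by_cases hx : x = 0
    · simp [hx]
    · have htx : t • x ≠ 0 := smul_ne_zero ht.ne' hx
      rw [extS_of_ne _ htx, extS_of_ne _ hx]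
      congr 1
      apply Subtype.ext
      change un (t • x) = un x
      unfold un
      rw [norm_smul, Real.norm_of_nonneg ht.le, smul_smul]
      congr 1
      field_simp
  · intro x hx
    have hx0 : x ≠ 0 := hx
    have hcont : ContinuousOn (un : E n → E n) {0}ᶜ := by
      have h3 : ContinuousOn (fun y : E n => ‖y‖⁻¹) {0}ᶜ :=
        ContinuousOn.inv₀ continuous_norm.continuousOn (fun y hy => norm_ne_zero_iff.2 hy)
      exact h3.smul continuousOn_id
    have h1 : Continuous (fun y : ({0}ᶜ : Set (E n)) =>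
        f ⟨un (y : E n), by
          rw [mem_sphere_zero_iff_norm]; exact top_un_norm y.2⟩) := by
      apply f.continuous.comp
      apply Continuous.subtype_mk
      exact continuousOn_iff_continuous_domRestrict.1 hcont
    have h2 : ContinuousOn (extS f) {0}ᶜ := by
      rw [continuousOn_iff_continuous_domRestrict]
      refine h1.congr ?_
      intro y
      have hy : (y : E n) ≠ 0 := y.2
      exact (extS_of_ne (f : Sph n → ℝ) hy).symm
    exact h2 x hx

theorem extS_pos {f : Sph n → ℝ} (hf : ∀ u, 0 < f u) {x : E n} (hx : x ≠ 0) :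
    0 < extS f x := by
  rw [extS_of_ne f hx]
  exact hf _

/-- The local theorem on the sphere. -/
theorem top_local (hn : 2 ≤ n) (f : C(Sph n, ℝ)) (hpos : ∀ u, 0 < f u) (w : Sph n)
    (hsym : f (-w) = f w) {U : Set (E n)} (hU : IsOpen U) (hw1 : (w : E n) ∈ U)
    (hw2 : -(w : E n) ∈ U) {ε : ℝ} (hε : 0 < ε) (M : ℝ) :
    ∃ G : E n → ℝ, ContDiff ℝ (⊤ : ℕ∞) G ∧ tsupport G ⊆ U ∧ (∀ u : Sph n, |G u| ≤ ε) ∧
      ∃ r : ℝ, 0 < r ∧ ∀ g : C(Sph n, ℝ), (∀ u : Sph n, |g u - (f u + G u)| ≤ r) →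
        (∀ u, 0 < g u) ∧ ∃ K : Set (E n), IsSolution g K ∧ Ecc M K := by
  have hw : ‖(w : E n)‖ = 1 := by
    have := w.2
    rwa [mem_sphere_zero_iff_norm] at this
  have hs : extS f (-(w : E n)) = extS f (w : E n) := by
    have h1 : (-(w : E n)) = ((-w : Sph n) : E n) := rfl
    rw [h1, extS_coe, extS_coe, hsym]
  obtain ⟨G, hG1, hG2, hG3, r, hr, hG4⟩ := local_solv hn (extS_H0 f)
    (fun x hx => extS_pos hpos hx) hw hs hU hw1 hw2 hε M
  refine ⟨G, hG1, hG2, fun u => hG3 _ (by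
    have := u.2; rwa [mem_sphere_zero_iff_norm] at this), r, hr, ?_⟩
  intro g hg
  have key := hG4 (extS g) (extS_H0 g) (fun x hx => by
    have h1 := hg ⟨x, by rw [mem_sphere_zero_iff_norm]; exact hx⟩
    have h2 := extS_coe (g : Sph n → ℝ) ⟨x, by rw [mem_sphere_zero_iff_norm]; exact hx⟩
    have h3 := extS_coe (f : Sph n → ℝ) ⟨x, by rw [mem_sphere_zero_iff_norm]; exact hx⟩
    simp only at h1 h2 h3
    rw [h2, h3]
    exact h1)
  obtain ⟨hp, K, hK1, hK2⟩ := key
  refine ⟨?_, K, ?_, hK2⟩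
  · intro u
    have hu : ‖(u : E n)‖ = 1 := by
      have := u.2
      rwa [mem_sphere_zero_iff_norm] at this
    have h0 : (u : E n) ≠ 0 := by
      intro h
      rw [h, norm_zero] at hu
      exact zero_ne_one hu
    have := hp _ h0
    rwa [extS_coe] at this
  · have : (fun u : Sph n => extS (g : Sph n → ℝ) (u : E n)) = (g : Sph n → ℝ) := by
      funext u
      exact extS_coe _ u
    rw [this] at hK1
    exact hK1

/-- Two antipodal points with the same value. -/
theorem top_exists_sym (hn : 2 ≤ n) (f : C(Sph n, ℝ)) : ∃ w : Sph n, f (-w) = f w := by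
  have hrank : 1 < Module.rank ℝ (E n) := by
    rw [← Module.finrank_eq_rank ℝ (E n), finrank_euclideanSpace_fin]
    exact_mod_cast hn
  have : PreconnectedSpace (Sph n) :=
    isPreconnected_iff_preconnectedSpace.1 (isPreconnected_sphere hrank 0 1)
  obtain ⟨u0⟩ : Nonempty (Sph n) := by
    refine ⟨⟨EuclideanSpace.single (⟨0, by omega⟩ : Fin n) (1 : ℝ), ?_⟩⟩
    rw [mem_sphere_zero_iff_norm]
    simp
  have hc : Continuous (fun u : Sph n => f (-u) - f u) :=
    (f.continuous.comp continuous_neg).sub f.continuous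
  by_cases h0 : f (-u0) - f u0 ≤ 0
  · have h1 : 0 ≤ f (-(-u0)) - f (-u0) := by
      rw [neg_neg]; linarith
    obtain ⟨w, hw⟩ := mem_range_of_exists_le_of_exists_ge hc ⟨u0, h0⟩ ⟨-u0, h1⟩
    exact ⟨w, by simp only at hw; linarith⟩
  · push Not at h0
    have h1 : f (-(-u0)) - f (-u0) ≤ 0 := by
      rw [neg_neg]; linarith
    obtain ⟨w, hw⟩ := mem_range_of_exists_le_of_exists_ge hc ⟨-u0, h1⟩ ⟨u0, h0.le⟩
    exact ⟨w, by simp only at hw; linarith⟩

/-- Hölder continuity with exponent `α` on the sphere. -/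
def HolS (α : ℝ) (f : Sph n → ℝ) : Prop :=
  ∃ C : ℝ, ∀ u v : Sph n, |f u - f v| ≤ C * ‖(u : E n) - (v : E n)‖ ^ α

theorem top_holder {α : ℝ} (h0 : 0 < α) (h1 : α ≤ 1) {f : Sph n → ℝ} (hf : HolS α f)
    {G : E n → ℝ} (hG : ContDiff ℝ (⊤ : ℕ∞) G) : HolS α (fun u : Sph n => f u + G u) := by
  obtain ⟨C, hC⟩ := hf
  obtain ⟨L, hL⟩ : ∃ L : ℝ, ∀ x ∈ closedBall (0 : E n) 1, ‖fderiv ℝ G x‖ ≤ L := by
    have hcont : Continuous (fun x => ‖fderiv ℝ G x‖) :=
      (hG.continuous_fderiv (by simp)).norm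
    obtain ⟨L, hL⟩ := (isCompact_closedBall (0 : E n) 1).bddAbove_image hcont.continuousOn
    exact ⟨L, fun x hx => hL ⟨x, hx, rfl⟩⟩
  have hlip : ∀ u v : Sph n, |G u - G v| ≤ L * ‖(u : E n) - (v : E n)‖ := by
    intro u v
    have hu : (u : E n) ∈ closedBall (0 : E n) 1 := sphere_subset_closedBall u.2
    have hv : (v : E n) ∈ closedBall (0 : E n) 1 := sphere_subset_closedBall v.2
    have := (convex_closedBall (0 : E n) 1).norm_image_sub_le_of_norm_fderiv_le
      (f := G) (C := L) (fun x _ => (hG.differentiable (by simp)) x) hL hv hu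
    simpa [Real.norm_eq_abs] using this
  have hL0 : 0 ≤ L := by
    have := hL 0 (by simp)
    exact le_trans (norm_nonneg _) this
  refine ⟨C + 2 * L, fun u v => ?_⟩
  have hd : ‖(u : E n) - (v : E n)‖ ≤ 2 := by
    have hu : ‖(u : E n)‖ = 1 := by
      have := u.2
      rwa [mem_sphere_zero_iff_norm] at this
    have hv : ‖(v : E n)‖ = 1 := by
      have := v.2
      rwa [mem_sphere_zero_iff_norm] at this
    calc ‖(u : E n) - (v : E n)‖ ≤ ‖(u : E n)‖ + ‖(v : E n)‖ := norm_sub_le _ _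
      _ = 2 := by rw [hu, hv]; norm_num
  have hpow : ‖(u : E n) - (v : E n)‖ ≤ 2 * ‖(u : E n) - (v : E n)‖ ^ α := by
    rcases (norm_nonneg ((u : E n) - (v : E n))).eq_or_lt with h | h
    · rw [← h, Real.zero_rpow h0.ne']
      norm_num
    · have e1 : ‖(u : E n) - (v : E n)‖ = ‖(u : E n) - (v : E n)‖ ^ (1 - α) *
          ‖(u : E n) - (v : E n)‖ ^ α := by
        rw [← Real.rpow_add h]
        norm_num
      have e2 : ‖(u : E n) - (v : E n)‖ ^ (1 - α) ≤ 2 := by
        calc ‖(u : E n) - (v : E n)‖ ^ (1 - α) ≤ 2 ^ (1 - α) :=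
              Real.rpow_le_rpow h.le hd (by linarith)
          _ ≤ 2 ^ (1 : ℝ) := Real.rpow_le_rpow_of_exponent_le (by norm_num) (by linarith)
          _ = 2 := Real.rpow_one 2
      calc ‖(u : E n) - (v : E n)‖ = ‖(u : E n) - (v : E n)‖ ^ (1 - α) *
          ‖(u : E n) - (v : E n)‖ ^ α := e1
        _ ≤ 2 * ‖(u : E n) - (v : E n)‖ ^ α :=
          mul_le_mul_of_nonneg_right e2 (Real.rpow_nonneg h.le _)
  calc |f u + G u - (f v + G v)| = |(f u - f v) + (G u - G v)| := by ring_nf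
    _ ≤ |f u - f v| + |G u - G v| := abs_add_le _ _
    _ ≤ C * ‖(u : E n) - (v : E n)‖ ^ α + L * ‖(u : E n) - (v : E n)‖ :=
      add_le_add (hC u v) (hlip u v)
    _ ≤ C * ‖(u : E n) - (v : E n)‖ ^ α + L * (2 * ‖(u : E n) - (v : E n)‖ ^ α) := by
      gcongr
    _ = (C + 2 * L) * ‖(u : E n) - (v : E n)‖ ^ α := by ring

/-- Width ratios of a convex body are bounded. -/
theorem top_ecc_bdd {K : Set (E n)} (hK : IsCompact K) (h0 : (0 : E n) ∈ interior K) :
    ∃ M0 : ℝ, ∀ M : ℝ, Ecc M K → M ≤ M0 := by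
  obtain ⟨ρ, hρ, hball⟩ := Metric.isOpen_iff.1 isOpen_interior 0 h0
  obtain ⟨R, hR⟩ := hK.isBounded.subset_closedBall (0 : E n)
  have hbdd : ∀ u : E n, BddAbove ((fun x => inner ℝ x u) '' K) := by
    intro u
    refine (hK.image (by fun_prop)).bddAbove
  have hlow : ∀ u : E n, ‖u‖ = 1 → ρ / 2 ≤ supp K u := by
    intro u hu
    have hmem : (ρ / 2) • u ∈ K := by
      apply interior_subset
      apply hball
      rw [mem_ball_zero_iff, norm_smul, hu, Real.norm_of_nonneg (by positivity)]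
      linarith
    have : inner ℝ ((ρ / 2) • u) u ≤ supp K u := le_csSup (hbdd u) ⟨_, hmem, rfl⟩
    rw [real_inner_smul_left, real_inner_self_eq_norm_sq, hu] at this
    linarith
  have hup : ∀ u : E n, ‖u‖ = 1 → supp K u ≤ R := by
    intro u hu
    apply csSup_le
    · exact ⟨_, 0, interior_subset h0, rfl⟩
    · rintro _ ⟨x, hx, rfl⟩
      have h1 : ‖x‖ ≤ R := by
        have := hR hx
        rwa [mem_closedBall_zero_iff] at this
      calc inner ℝ x u ≤ ‖x‖ * ‖u‖ := real_inner_le_norm x u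
        _ ≤ R := by rw [hu, mul_one]; exact h1
  refine ⟨2 * R / ρ, ?_⟩
  rintro M ⟨w, v, hw, hv, hpos, hM⟩
  have hw1 := hlow w hw
  have hw2 := hlow (-w) (by rw [norm_neg]; exact hw)
  have hv1 := hup v hv
  have hv2 := hup (-v) (by rw [norm_neg]; exact hv)
  have hR0 : 0 < R := by
    have := hlow v hv
    linarith
  rw [le_div_iff₀ hρ]
  rcases le_or_gt M 0 with h | h
  · nlinarith
  · nlinarith

/-- Positive functions. -/
def PosF (n : ℕ) : Set C(Sph n, ℝ) := {f | ∀ u, 0 < f u}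

/-- Admissible functions: positive functions for which there is a solution. -/
def Adm (n : ℕ) : Set C(Sph n, ℝ) := {f | (∀ u, 0 < f u) ∧ ∃ K : Set (E n), IsSolution f K}

/-- Functions all of whose neighbours have a solution of large eccentricity. -/
def OO (n : ℕ) (M : ℝ) : Set C(Sph n, ℝ) := {f | ∃ r : ℝ, 0 < r ∧ ∀ g : C(Sph n, ℝ),
  dist g f < r → (∀ u, 0 < g u) ∧ ∃ K : Set (E n), IsSolution g K ∧ Ecc M K}

theorem OO_isOpen (n : ℕ) (M : ℝ) : IsOpen (OO n M) := by
  rw [Metric.isOpen_iff]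
  rintro f ⟨r, hr, h⟩
  refine ⟨r / 2, by positivity, ?_⟩
  intro g hg
  refine ⟨r / 2, by positivity, ?_⟩
  intro g' hg'
  apply h
  have : dist g' f ≤ dist g' g + dist g f := dist_triangle _ _ _
  rw [mem_ball] at hg
  linarith

theorem OO_sub (n : ℕ) (M : ℝ) {f : C(Sph n, ℝ)} (hf : f ∈ OO n M) :
    (∀ u, 0 < f u) ∧ ∃ K : Set (E n), IsSolution f K ∧ Ecc M K := by
  obtain ⟨r, hr, h⟩ := hf
  exact h f (by rw [dist_self]; exact hr)

theorem OO_dense (hn : 2 ≤ n) (M : ℝ) : PosF n ⊆ closure (OO n M) := by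
  intro f hf
  rw [Metric.mem_closure_iff]
  intro ε hε
  obtain ⟨w, hw⟩ := top_exists_sym hn f
  obtain ⟨G, hG1, -, hG3, r, hr, hG4⟩ := top_local hn f hf w hw isOpen_univ (mem_univ _)
    (mem_univ _) (half_pos hε) M
  let G' : C(Sph n, ℝ) := ⟨fun u => G u, (hG1.continuous).comp continuous_subtype_val⟩
  refine ⟨f + G', ⟨r, hr, ?_⟩, ?_⟩
  · intro g hg
    refine hG4 g (fun u => ?_)
    have := ContinuousMap.dist_apply_le_dist (f := g) (g := f + G') u
    rw [Real.dist_eq] at this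
    exact le_trans this hg.le
  · have : dist f (f + G') ≤ ε / 2 := by
      rw [ContinuousMap.dist_le (by positivity)]
      intro u
      rw [Real.dist_eq]
      have h1 : f u - (f + G') u = - G u := by
        simp [G']
      rw [h1, abs_neg]
      exact hG3 u
    linarith

theorem PosF_isOpen (n : ℕ) : IsOpen (PosF n) := by
  rw [Metric.isOpen_iff]
  intro f hf
  by_cases hne : Nonempty (Sph n)
  · obtain ⟨u0, -, hu0⟩ := isCompact_univ.exists_isMinOn (univ_nonempty)
      (f.continuous.continuousOn (s := univ))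
    refine ⟨f u0, hf u0, ?_⟩
    intro g hg u
    have h1 : f u0 ≤ f u := hu0 (mem_univ u)
    have h2 := ContinuousMap.dist_apply_le_dist (f := g) (g := f) u
    rw [mem_ball] at hg
    rw [Real.dist_eq] at h2
    have h3 := (abs_lt.1 (lt_of_le_of_lt h2 hg)).1
    linarith
  · refine ⟨1, one_pos, ?_⟩
    intro g _ u
    exact absurd ⟨u⟩ hne

/-- The interior of the set of admissible functions is dense in the positive functions. -/
theorem top_dense (hn : 2 ≤ n) : PosF n ⊆ closure (interior (Adm n)) := by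
  refine (OO_dense hn 0).trans (closure_mono ?_)
  apply interior_maximal _ (OO_isOpen n 0)
  intro f hf
  obtain ⟨h1, K, hK, -⟩ := OO_sub n 0 hf
  exact ⟨h1, K, hK⟩

/-- Density of the interior within the Hölder class. -/
theorem top_dense_holder (hn : 2 ≤ n) {α : ℝ} (h0 : 0 < α) (h1 : α ≤ 1) {f : C(Sph n, ℝ)}
    (hf : f ∈ PosF n) (hH : HolS α f) {ε : ℝ} (hε : 0 < ε) :
    ∃ g : C(Sph n, ℝ), HolS α g ∧ dist g f < ε ∧ g ∈ interior (Adm n) := by
  obtain ⟨w, hw⟩ := top_exists_sym hn f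
  obtain ⟨G, hG1, -, hG3, r, hr, hG4⟩ := top_local hn f hf w hw isOpen_univ (mem_univ _)
    (mem_univ _) (half_pos hε) 0
  let G' : C(Sph n, ℝ) := ⟨fun u => G u, (hG1.continuous).comp continuous_subtype_val⟩
  refine ⟨f + G', top_holder h0 h1 hH hG1, ?_, ?_⟩
  · have : dist (f + G') f ≤ ε / 2 := by
      rw [ContinuousMap.dist_le (by positivity)]
      intro u
      rw [Real.dist_eq]
      have h1 : (f + G') u - f u = G u := by
        simp [G']
      rw [h1]
      exact hG3 u
    linarith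
  · rw [mem_interior_iff_mem_nhds, Metric.mem_nhds_iff]
    refine ⟨r, hr, ?_⟩
    intro g hg
    rw [mem_ball] at hg
    obtain ⟨h2, K, hK, -⟩ := hG4 g (fun u => by
      have := ContinuousMap.dist_apply_le_dist (f := g) (g := f + G') u
      rw [Real.dist_eq] at this
      exact le_trans this hg.le)
    exact ⟨h2, K, hK⟩

/-- For generic `f` there are infinitely many solutions, with unbounded eccentricity. -/
theorem top_generic (hn : 2 ≤ n) : ∃ R : Set C(Sph n, ℝ), IsGδ R ∧ PosF n ⊆ closure R ∧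
    ∀ f ∈ R, (∀ u, 0 < f u) ∧ (∀ M : ℝ, ∃ K : Set (E n), IsSolution f K ∧ Ecc M K) ∧
      {K : Set (E n) | IsSolution f K}.Infinite := by
  refine ⟨⋂ m : ℕ, OO n m, IsGδ.iInter_of_isOpen (fun m => OO_isOpen n m), ?_, ?_⟩
  · have hd : Dense (⋂ m : ℕ, (OO n m ∪ (closure (PosF n))ᶜ)) := by
      apply dense_iInter_of_isOpen
      · intro m
        exact (OO_isOpen n m).union isClosed_closure.isOpen_compl
      · intro m f
        by_cases hf : f ∈ closure (PosF n)
        · have h1 : closure (PosF n) ⊆ closure (OO n (m : ℝ)) :=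
            closure_minimal (OO_dense hn m) isClosed_closure
          exact closure_mono subset_union_left (h1 hf)
        · exact subset_closure (Or.inr hf)
    intro f hf
    rw [_root_.mem_closure_iff]
    intro V hV hfV
    obtain ⟨g, hg1, hg2⟩ := hd.inter_open_nonempty (V ∩ PosF n)
      (hV.inter (PosF_isOpen n)) ⟨f, hfV, hf⟩
    refine ⟨g, hg1.1, ?_⟩
    rw [mem_iInter] at hg2 ⊢
    intro m
    rcases hg2 m with h | h
    · exact h
    · exact absurd (subset_closure hg1.2) h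
  · intro f hf
    rw [mem_iInter] at hf
    have hM : ∀ M : ℝ, ∃ K : Set (E n), IsSolution f K ∧ Ecc M K := by
      intro M
      obtain ⟨m, hm⟩ := exists_nat_ge M
      obtain ⟨-, K, hK, w, v, hw, hv, hpos, hle⟩ := OO_sub n m (hf m)
      refine ⟨K, hK, w, v, hw, hv, hpos, le_trans ?_ hle⟩
      exact mul_le_mul_of_nonneg_right hm hpos.le
    refine ⟨(OO_sub n _ (hf 0)).1, hM, ?_⟩
    intro hfin
    have hb : ∀ K ∈ {K : Set (E n) | IsSolution f K}, ∃ M0 : ℝ, ∀ M : ℝ, Ecc M K → M ≤ M0 :=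
      fun K hK => top_ecc_bdd hK.compact hK.zero_mem
    choose! m hm using hb
    obtain ⟨B, hB⟩ := (hfin.image m).bddAbove
    obtain ⟨K, hK, hE⟩ := hM (B + 1)
    have h1 := hm K hK (B + 1) hE
    have h2 : m K ≤ B := hB ⟨K, hK, rfl⟩
    linarith

end Pool.Agent.H35.CA
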