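import Pool.Agent.H35.CA.Vall

/-!
# Job U2: upper bound for the functional

Proof hints.
`U2`: write `f = h - 1`, `κ = -n/(2(n+3))`, `ψ = psi ε u = 1 + ε u + κ ε² u²`.  Pointwise on the
sphere `h^(-n) ≤ 1 - n f + n(n+1)/2 f² + C |f|³`, so with `∫ u = 0`, `|u| ≤ 1`:
`∫ ψ h^(-n) ≤ W`, `W = 1 + κ ε² ∫u² - n ∫ f - n ε ∫ u f + n(n+1)/2 sq f + C (ε + δ) sq f + C ε³`
(use `ε² |f| ≤ ε³ + ε f²`).  And `vv h ≤ Vb`.  Multiply: `MM ψ h 0 ≤ Vb * W`
(both factors nonnegative), and with `Vb = 1 + n ∫ f + A`, `W = 1 - n ∫ f + B`,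
`|A| ≤ C sq f`, `|B| ≤ C (ε² + ε sqrt (sq f) + sq f)`:
`Vb * W = 1 + A + B - n² (∫ f)² + n (∫ f)(B - A) + A B`, the last two terms are
`≤ C (ε + δ) sq f + C ε³`.
-/

namespace Pool.Agent.H35.CA

open MeasureTheory Metric Set

variable {n : ℕ}

/-- Taylor expansion of `(1 + t)^(-n)` to second order. -/
theorem u2_taylor (n : ℕ) : ∃ C : ℝ, 0 ≤ C ∧ ∀ t : ℝ, |t| ≤ 1 / 2 →
    |((1 + t) ^ n)⁻¹ - (1 - (n : ℝ) * t + (n : ℝ) * (n + 1) / 2 * t ^ 2)| ≤ C * |t| ^ 3 := by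
  induction n with
  | zero =>
    refine ⟨0, le_rfl, fun t _ => ?_⟩
    simp
  | succ m ih =>
    obtain ⟨C, hC0, hC⟩ := ih
    set N : ℝ := (m : ℝ) with hN
    have hN0 : 0 ≤ N := Nat.cast_nonneg m
    refine ⟨2 * C + 2 * (1 + N + N * (N + 1)) + (N + N * (N + 1)), by positivity, ?_⟩
    intro t ht
    have h1t : (1 : ℝ) / 2 ≤ 1 + t := by
      have := (abs_le.1 ht).1
      linarith
    have hpos : 0 < 1 + t := by linarith
    have h3 : 0 ≤ |t| ^ 3 := by positivity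
    have hb : |(1 + t)⁻¹| ≤ 2 := by
      rw [abs_of_pos (inv_pos.2 hpos)]
      have := inv_anti₀ (by norm_num : (0 : ℝ) < 1 / 2) h1t
      norm_num at this
      linarith
    have hb2 : (1 + t)⁻¹ - (1 - t + t ^ 2) = - t ^ 3 * (1 + t)⁻¹ := by
      field_simp
      ring
    set P : ℝ := 1 - N * t + N * (N + 1) / 2 * t ^ 2 with hP
    have hPb : |P| ≤ 1 + N + N * (N + 1) := by
      have e1 : |N * t| ≤ N := by
        rw [abs_mul, abs_of_nonneg hN0]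
        nlinarith [abs_nonneg t]
      have e2 : |N * (N + 1) / 2 * t ^ 2| ≤ N * (N + 1) := by
        rw [abs_mul, abs_of_nonneg (by positivity : (0:ℝ) ≤ N * (N + 1) / 2),
          abs_of_nonneg (sq_nonneg t)]
        have : t ^ 2 ≤ 1 := by
          rw [← sq_abs]
          nlinarith [abs_nonneg t]
        have h0 : (0:ℝ) ≤ N * (N + 1) := by positivity
        nlinarith
      calc |P| ≤ |1 - N * t| + |N * (N + 1) / 2 * t ^ 2| := abs_add_le _ _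
        _ ≤ (|(1:ℝ)| + |N * t|) + |N * (N + 1) / 2 * t ^ 2| := by
            gcongr
            exact abs_sub _ _
        _ ≤ 1 + N + N * (N + 1) := by
            rw [abs_one]
            linarith
    have hsplit : ((1 + t) ^ (m + 1))⁻¹ -
        (1 - ((m + 1 : ℕ) : ℝ) * t + ((m + 1 : ℕ) : ℝ) * (((m + 1 : ℕ) : ℝ) + 1) / 2 * t ^ 2) =
        (((1 + t) ^ m)⁻¹ - P) * (1 + t)⁻¹ + P * (- t ^ 3 * (1 + t)⁻¹)
          + t ^ 3 * (- N - N * (N + 1) / 2 + N * (N + 1) / 2 * t) := by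
      rw [← hb2, pow_succ, mul_inv, hP]
      push_cast
      rw [← hN]
      ring
    rw [hsplit]
    have t1 : |(((1 + t) ^ m)⁻¹ - P) * (1 + t)⁻¹| ≤ C * |t| ^ 3 * 2 := by
      rw [abs_mul]
      exact mul_le_mul (hC t ht) hb (abs_nonneg _) (by positivity)
    have t2 : |P * (- t ^ 3 * (1 + t)⁻¹)| ≤ (1 + N + N * (N + 1)) * (|t| ^ 3 * 2) := by
      rw [abs_mul, abs_mul, abs_neg, abs_pow]
      refine mul_le_mul hPb ?_ (by positivity) (by positivity)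
      exact mul_le_mul_of_nonneg_left hb h3
    have t3 : |t ^ 3 * (- N - N * (N + 1) / 2 + N * (N + 1) / 2 * t)| ≤
        |t| ^ 3 * (N + N * (N + 1)) := by
      rw [abs_mul, abs_pow]
      refine mul_le_mul_of_nonneg_left ?_ h3
      have ht' := abs_le.1 ht
      have h0 : (0:ℝ) ≤ N * (N + 1) := by positivity
      rw [abs_le]
      constructor <;> nlinarith
    calc _ ≤ |(((1 + t) ^ m)⁻¹ - P) * (1 + t)⁻¹ + P * (- t ^ 3 * (1 + t)⁻¹)| +
          |t ^ 3 * (- N - N * (N + 1) / 2 + N * (N + 1) / 2 * t)| := abs_add_le _ _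
      _ ≤ (|(((1 + t) ^ m)⁻¹ - P) * (1 + t)⁻¹| + |P * (- t ^ 3 * (1 + t)⁻¹)|) +
          |t ^ 3 * (- N - N * (N + 1) / 2 + N * (N + 1) / 2 * t)| := by
          gcongr
          exact abs_add_le _ _
      _ ≤ (C * |t| ^ 3 * 2 + (1 + N + N * (N + 1)) * (|t| ^ 3 * 2)) +
          |t| ^ 3 * (N + N * (N + 1)) := by linarith
      _ = _ := by ring

/-- The pointwise estimate on the sphere. -/
theorem u2_point (n : ℕ) : ∃ C : ℝ, 0 ≤ C ∧ ∀ ε δ f u : ℝ, 0 < ε → ε ≤ 1 / 4 → 0 ≤ δ →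
    δ ≤ 1 / 2 → |f| ≤ δ → |u| ≤ 1 →
    (1 + ε * u - (n : ℝ) / (2 * (n + 3)) * ε ^ 2 * u ^ 2) * ((1 + f) ^ n)⁻¹ ≤
      1 - (n : ℝ) * f + (n : ℝ) * (n + 1) / 2 * f ^ 2 + ε * u - (n : ℝ) * ε * (u * f)
        - (n : ℝ) / (2 * (n + 3)) * ε ^ 2 * u ^ 2 + C * (ε + δ) * f ^ 2 + C * ε ^ 3 := by
  obtain ⟨C, hC0, hC⟩ := u2_taylor n
  set N : ℝ := (n : ℝ) with hN
  have hN0 : 0 ≤ N := Nat.cast_nonneg n
  set κ : ℝ := N / (2 * (N + 3)) with hκ
  have hκ0 : 0 ≤ κ := by positivity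
  have hκ1 : κ ≤ 1 / 2 := by
    rw [hκ, div_le_iff₀ (by positivity)]
    linarith
  refine ⟨2 * C + N * (N + 1) + N, by positivity, ?_⟩
  intro ε δ f u hε hε4 hδ hδ2 hf hu
  have hT := (abs_le.1 (hC f (hf.trans hδ2))).2
  set g : ℝ := ((1 + f) ^ n)⁻¹ with hg
  set P : ℝ := 1 - N * f + N * (N + 1) / 2 * f ^ 2 with hP
  have hu' := abs_le.1 hu
  have hu2 : u ^ 2 ≤ 1 := by
    rw [← sq_abs]
    nlinarith [abs_nonneg u]
  have hu20 : 0 ≤ u ^ 2 := sq_nonneg u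
  have hf20 : 0 ≤ f ^ 2 := sq_nonneg f
  have hε2 : ε ^ 2 ≤ 1 / 16 := by nlinarith
  have hεu : |ε * u| ≤ 1 / 4 := by
    rw [abs_mul, abs_of_pos hε]
    nlinarith [abs_nonneg u]
  have hεu' := abs_le.1 hεu
  have hκu : κ * ε ^ 2 * u ^ 2 ≤ 1 / 4 := by
    have e1 : κ * ε ^ 2 ≤ 1 / 4 := by nlinarith [sq_nonneg ε]
    have e2 : 0 ≤ κ * ε ^ 2 := by positivity
    nlinarith
  have hκu0 : 0 ≤ κ * ε ^ 2 * u ^ 2 := by positivity
  set ψ : ℝ := 1 + ε * u - κ * ε ^ 2 * u ^ 2 with hψ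
  have hψ0 : 0 ≤ ψ := by linarith
  have hψ2 : ψ ≤ 2 := by linarith
  have hf3 : |f| ^ 3 ≤ δ * f ^ 2 := by
    have : |f| ^ 3 = |f| * f ^ 2 := by
      rw [pow_succ', sq_abs]
    rw [this]
    exact mul_le_mul_of_nonneg_right hf hf20
  have h1 : ψ * g ≤ ψ * P + 2 * C * δ * f ^ 2 := by
    have e1 : g ≤ P + C * |f| ^ 3 := by linarith
    have e2 : C * |f| ^ 3 ≤ C * (δ * f ^ 2) := mul_le_mul_of_nonneg_left hf3 hC0
    have e3 : ψ * g ≤ ψ * (P + C * (δ * f ^ 2)) :=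
      mul_le_mul_of_nonneg_left (by linarith) hψ0
    have e4 : ψ * (C * (δ * f ^ 2)) ≤ 2 * (C * (δ * f ^ 2)) :=
      mul_le_mul_of_nonneg_right hψ2 (by positivity)
    rw [mul_add] at e3
    linarith
  have h2 : ψ * P = 1 - N * f + N * (N + 1) / 2 * f ^ 2 + ε * u - N * ε * (u * f)
      - κ * ε ^ 2 * u ^ 2 + (ε * u) * (N * (N + 1) / 2 * f ^ 2)
      + κ * ε ^ 2 * u ^ 2 * (N * f) - κ * ε ^ 2 * u ^ 2 * (N * (N + 1) / 2 * f ^ 2) := by
    rw [hψ, hP]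
    ring
  have h3 : (ε * u) * (N * (N + 1) / 2 * f ^ 2) ≤ ε * (N * (N + 1) / 2 * f ^ 2) := by
    refine mul_le_mul_of_nonneg_right ?_ (by positivity)
    nlinarith
  have h4 : κ * ε ^ 2 * u ^ 2 * (N * f) ≤ N * (ε ^ 3 + ε * f ^ 2) := by
    have e1 : κ * ε ^ 2 * u ^ 2 * (N * f) ≤ κ * ε ^ 2 * u ^ 2 * (N * |f|) :=
      mul_le_mul_of_nonneg_left (mul_le_mul_of_nonneg_left (le_abs_self f) hN0) hκu0
    have e2 : κ * ε ^ 2 * u ^ 2 ≤ ε ^ 2 := by
      have a1 : κ * ε ^ 2 ≤ ε ^ 2 := by nlinarith [sq_nonneg ε]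
      have a2 : κ * ε ^ 2 * u ^ 2 ≤ κ * ε ^ 2 * 1 :=
        mul_le_mul_of_nonneg_left hu2 (by positivity)
      linarith
    have e3 : κ * ε ^ 2 * u ^ 2 * (N * |f|) ≤ ε ^ 2 * (N * |f|) :=
      mul_le_mul_of_nonneg_right e2 (by positivity)
    have e4 : ε * |f| ≤ ε ^ 2 + f ^ 2 := by
      have := sq_abs f
      nlinarith [sq_nonneg (ε - |f|), sq_nonneg ε, abs_nonneg f]
    have e5 : ε ^ 2 * (N * |f|) = N * ε * (ε * |f|) := by ring
    have e6 : N * ε * (ε * |f|) ≤ N * ε * (ε ^ 2 + f ^ 2) :=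
      mul_le_mul_of_nonneg_left e4 (by positivity)
    have e7 : N * ε * (ε ^ 2 + f ^ 2) = N * (ε ^ 3 + ε * f ^ 2) := by ring
    linarith
  have h5 : 0 ≤ κ * ε ^ 2 * u ^ 2 * (N * (N + 1) / 2 * f ^ 2) := by positivity
  have h6 : (2 * C + N * (N + 1) + N) * (ε + δ) * f ^ 2 + (2 * C + N * (N + 1) + N) * ε ^ 3 ≥
      2 * C * δ * f ^ 2 + ε * (N * (N + 1) / 2 * f ^ 2) + N * (ε ^ 3 + ε * f ^ 2) := by
    have a1 : 0 ≤ 2 * C * ε * f ^ 2 := by positivity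
    have a2 : 0 ≤ (N * (N + 1)) * δ * f ^ 2 := by positivity
    have a3 : 0 ≤ N * δ * f ^ 2 := by positivity
    have a4 : 0 ≤ N * (N + 1) / 2 * ε * f ^ 2 := by positivity
    have a5 : 0 ≤ (2 * C + N * (N + 1)) * ε ^ 3 := by positivity
    linarith
  linarith

/-- The product of the two bounds. -/
theorem u2_real (N Cv Cw : ℝ) (hN : 0 ≤ N) (hCv : 0 ≤ Cv) (hCw : 0 ≤ Cw) :
    ∃ C : ℝ, 0 < C ∧ ∀ ε δ I U q s e2 e3 : ℝ, 0 < ε → ε ≤ 1 → 0 ≤ δ → δ ≤ 1 →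
      |I| ≤ δ → I ^ 2 ≤ q → U ^ 2 ≤ q → 0 ≤ q → q ≤ δ ^ 2 → 0 ≤ s → s ≤ 1 →
      0 ≤ e2 → e2 ≤ q → 0 ≤ e3 → e3 ≤ q →
      (1 + N * I - N * (N + 1) / 2 * q + N ^ 2 * e2 - N * (N + 3) / 2 * (q - e2) - (q - e3)
          + Cv * δ * q) *
        (1 - N * I + N * (N + 1) / 2 * q - N * ε * U - N / (2 * (N + 3)) * ε ^ 2 * s
          + Cw * (ε + δ) * q + Cw * ε ^ 3) ≤
      1 - N / (2 * (N + 3)) * ε ^ 2 * s - N * ε * U - N * (N + 3) / 2 * (q - e2) - (q - e3)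
        + N ^ 2 * e2 + C * (ε + δ) * q + C * ε ^ 3 := by
  set κ : ℝ := N / (2 * (N + 3)) with hκ
  have hκ0 : 0 ≤ κ := by positivity
  have hκ1 : κ ≤ 1 := by
    rw [hκ, div_le_iff₀ (by positivity)]
    linarith
  set CA : ℝ := N * (N + 1) / 2 + N ^ 2 + N * (N + 3) / 2 + 1 + Cv with hCA
  have hCA0 : 0 ≤ CA := by positivity
  set CB : ℝ := N * (N + 1) / 2 + N + 1 + 3 * Cw with hCB
  have hCB0 : 0 ≤ CB := by positivity
  refine ⟨Cv + Cw + N * CA + 3 * N * CB + 3 * CA * CB + 1, by positivity, ?_⟩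
  intro ε δ I U q s e2 e3 hε hε1 hδ hδ1 hI hI2 hU2 hq hqδ hs hs1 he2 he2q he3 he3q
  set A : ℝ := - (N * (N + 1) / 2 * q) + N ^ 2 * e2 - N * (N + 3) / 2 * (q - e2) - (q - e3)
    + Cv * δ * q with hA
  set B : ℝ := N * (N + 1) / 2 * q - N * ε * U - κ * ε ^ 2 * s + Cw * (ε + δ) * q
    + Cw * ε ^ 3 with hB
  have hε2 : ε ^ 2 ≤ 1 := by nlinarith
  have hε3 : ε ^ 3 ≤ ε ^ 2 := by nlinarith [sq_nonneg ε]
  have hAb : |A| ≤ CA * q := by
    have a1 : 0 ≤ N * (N + 1) / 2 * q := by positivity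
    have a2 : 0 ≤ N ^ 2 * e2 := by positivity
    have a3 : N ^ 2 * e2 ≤ N ^ 2 * q := mul_le_mul_of_nonneg_left he2q (by positivity)
    have a4 : 0 ≤ N * (N + 3) / 2 * (q - e2) := mul_nonneg (by positivity) (by linarith)
    have a5 : N * (N + 3) / 2 * (q - e2) ≤ N * (N + 3) / 2 * q :=
      mul_le_mul_of_nonneg_left (by linarith) (by positivity)
    have a6 : 0 ≤ Cv * δ * q := by positivity
    have a7 : Cv * δ * q ≤ Cv * q := by
      have : Cv * δ ≤ Cv * 1 := mul_le_mul_of_nonneg_left hδ1 hCv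
      nlinarith
    rw [abs_le, hCA, hA]
    constructor <;> linarith
  have hU1 : |U| ≤ 1 := by
    have : |U| ^ 2 ≤ 1 := by
      rw [sq_abs]
      nlinarith
    nlinarith [abs_nonneg U]
  have hBb : |B| ≤ CB * (q + ε * |U| + ε ^ 2) := by
    have b1 : 0 ≤ N * (N + 1) / 2 * q := by positivity
    have b2 : |N * ε * U| = N * (ε * |U|) := by
      rw [abs_mul, abs_of_nonneg (by positivity : (0:ℝ) ≤ N * ε)]
      ring
    have b2' := abs_le.1 b2.le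
    have b3 : 0 ≤ κ * ε ^ 2 * s := by positivity
    have b4 : κ * ε ^ 2 * s ≤ ε ^ 2 := by
      have c1 : κ * ε ^ 2 ≤ ε ^ 2 := by nlinarith [sq_nonneg ε]
      have c2 : κ * ε ^ 2 * s ≤ κ * ε ^ 2 * 1 := mul_le_mul_of_nonneg_left hs1 (by positivity)
      linarith
    have b5 : 0 ≤ Cw * (ε + δ) * q := by positivity
    have b6 : Cw * (ε + δ) * q ≤ 2 * Cw * q := by
      have : Cw * (ε + δ) ≤ Cw * 2 := mul_le_mul_of_nonneg_left (by linarith) hCw
      nlinarith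
    have b7 : 0 ≤ Cw * ε ^ 3 := by positivity
    have b8 : Cw * ε ^ 3 ≤ Cw * ε ^ 2 := mul_le_mul_of_nonneg_left hε3 hCw
    have b9 : 0 ≤ ε * |U| := by positivity
    have b10 : 0 ≤ ε ^ 2 := sq_nonneg ε
    have d1 : 0 ≤ N * q := by positivity
    have d2 : 0 ≤ Cw * q := by positivity
    have d3 : 0 ≤ N * (N + 1) / 2 * (ε * |U|) := by positivity
    have d4 : 0 ≤ Cw * (ε * |U|) := by positivity
    have d5 : 0 ≤ N * (N + 1) / 2 * ε ^ 2 := by positivity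
    have d6 : 0 ≤ N * ε ^ 2 := by positivity
    have d7 : 0 ≤ Cw * ε ^ 2 := by positivity
    have d8 : 0 ≤ N * (ε * |U|) := by positivity
    rw [abs_le, hCB, hB]
    constructor <;> linarith
  have hI' := abs_le.1 hI
  have hIq : |I| * q ≤ δ * q := mul_le_mul_of_nonneg_right hI hq
  have hIU : |I| * |U| ≤ q := by
    have e1 := sq_abs I
    have e2 := sq_abs U
    nlinarith [sq_nonneg (|I| - |U|)]
  have hIε : |I| * ε ^ 2 ≤ ε * q + ε ^ 3 := by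
    have e1 := sq_abs I
    have e2 : |I| * ε ≤ I ^ 2 + ε ^ 2 := by nlinarith [sq_nonneg (|I| - ε), sq_nonneg ε, sq_nonneg I]
    have e3 : ε * (|I| * ε) ≤ ε * (q + ε ^ 2) := mul_le_mul_of_nonneg_left (by linarith) hε.le
    nlinarith
  -- the two error terms
  have hE1 : N * I * (B - A) ≤ N * CA * (δ * q) + 3 * N * CB * ((ε + δ) * q + ε ^ 3) := by
    have f1 : N * I * (B - A) ≤ N * |I| * (|B| + |A|) := by
      have g1 : N * I * (B - A) ≤ |N * I * (B - A)| := le_abs_self _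
      rw [abs_mul, abs_mul, abs_of_nonneg hN] at g1
      have g2 : |B - A| ≤ |B| + |A| := abs_sub _ _
      exact g1.trans (mul_le_mul_of_nonneg_left g2 (by positivity))
    have f2 : N * |I| * |A| ≤ N * |I| * (CA * q) := mul_le_mul_of_nonneg_left hAb (by positivity)
    have f3 : N * |I| * (CA * q) = N * CA * (|I| * q) := by ring
    have f4 : N * CA * (|I| * q) ≤ N * CA * (δ * q) :=
      mul_le_mul_of_nonneg_left hIq (by positivity)
    have f5 : N * |I| * |B| ≤ N * |I| * (CB * (q + ε * |U| + ε ^ 2)) :=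
      mul_le_mul_of_nonneg_left hBb (by positivity)
    have f6 : N * |I| * (CB * (q + ε * |U| + ε ^ 2)) =
        N * CB * (|I| * q + ε * (|I| * |U|) + |I| * ε ^ 2) := by ring
    have f7 : |I| * q + ε * (|I| * |U|) + |I| * ε ^ 2 ≤ 3 * ((ε + δ) * q + ε ^ 3) := by
      have g1 : ε * (|I| * |U|) ≤ ε * q := mul_le_mul_of_nonneg_left hIU hε.le
      have g2 : 0 ≤ ε * q := by positivity
      have g3 : 0 ≤ δ * q := by positivity
      have g4 : 0 ≤ ε ^ 3 := by positivity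
      linarith
    have f8 : N * CB * (|I| * q + ε * (|I| * |U|) + |I| * ε ^ 2) ≤
        N * CB * (3 * ((ε + δ) * q + ε ^ 3)) := mul_le_mul_of_nonneg_left f7 (by positivity)
    rw [mul_add] at f1
    linarith
  have hE2 : A * B ≤ 3 * CA * CB * ((ε + δ) * q) := by
    have f1 : A * B ≤ |A| * |B| := by
      rw [← abs_mul]
      exact le_abs_self _
    have f2 : |A| * |B| ≤ (CA * q) * (CB * (q + ε * |U| + ε ^ 2)) :=
      mul_le_mul hAb hBb (abs_nonneg _) (by positivity)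
    have f3 : q + ε * |U| + ε ^ 2 ≤ 3 * (ε + δ) := by
      have g1 : ε * |U| ≤ ε * 1 := mul_le_mul_of_nonneg_left hU1 hε.le
      have g2 : δ ^ 2 ≤ δ := by nlinarith
      nlinarith
    have f4 : (CA * q) * (CB * (q + ε * |U| + ε ^ 2)) ≤ (CA * q) * (CB * (3 * (ε + δ))) :=
      mul_le_mul_of_nonneg_left (mul_le_mul_of_nonneg_left f3 hCB0) (by positivity)
    linarith
  have hprod : (1 + N * I - N * (N + 1) / 2 * q + N ^ 2 * e2 - N * (N + 3) / 2 * (q - e2)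
        - (q - e3) + Cv * δ * q) *
        (1 - N * I + N * (N + 1) / 2 * q - N * ε * U - κ * ε ^ 2 * s
          + Cw * (ε + δ) * q + Cw * ε ^ 3) =
      1 + A + B - (N * I) ^ 2 + N * I * (B - A) + A * B := by
    rw [hA, hB]
    ring
  rw [hprod]
  have hsq : 0 ≤ (N * I) ^ 2 := sq_nonneg _
  have p1 : 0 ≤ Cv * ε * q := by positivity
  have p2 : 0 ≤ Cv * ε ^ 3 := by positivity
  have p3 : 0 ≤ N * CA * (ε * q) := by positivity
  have p4 : 0 ≤ N * CA * ε ^ 3 := by positivity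
  have p5 : 0 ≤ 3 * CA * CB * ε ^ 3 := by positivity
  have p6 : 0 ≤ (ε + δ) * q + ε ^ 3 := by positivity
  have hAB : A + B = - (κ * ε ^ 2 * s) - N * ε * U - N * (N + 3) / 2 * (q - e2) - (q - e3)
      + N ^ 2 * e2 + Cv * δ * q + Cw * (ε + δ) * q + Cw * ε ^ 3 := by
    rw [hA, hB]
    ring
  have hgoal : (Cv + Cw + N * CA + 3 * N * CB + 3 * CA * CB + 1) * (ε + δ) * q +
      (Cv + Cw + N * CA + 3 * N * CB + 3 * CA * CB + 1) * ε ^ 3 =
      Cv * δ * q + (Cw * (ε + δ) * q + Cw * ε ^ 3) + N * CA * (δ * q)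
        + 3 * N * CB * ((ε + δ) * q + ε ^ 3) + 3 * CA * CB * ((ε + δ) * q)
        + (Cv * ε * q + Cv * ε ^ 3 + N * CA * (ε * q) + N * CA * ε ^ 3 + 3 * CA * CB * ε ^ 3
          + ((ε + δ) * q + ε ^ 3)) := by ring
  linarith

theorem U2 (hn : 2 ≤ n) (Y : SHFam n) : ∃ δ0 : ℝ, 0 < δ0 ∧ ∃ ε0 : ℝ, 0 < ε0 ∧
    ∃ C : ℝ, 0 < C ∧ ∀ δ : ℝ, 0 ≤ δ → δ ≤ δ0 → ∀ ε : ℝ, 0 < ε → ε ≤ ε0 →
    ∀ h : E n → ℝ, SL h → Near δ h → ∀ u : E n → ℝ, H0 u → (∀ x, x ≠ 0 → |u x| ≤ 1) →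
    ∫ x, u x ∂(mu n) = 0 →
      MM (psi ε u) h 0 ≤ 1 - (n : ℝ) / (2 * (n + 3)) * ε ^ 2 * sq u
        - (n : ℝ) * ε * (∫ x, u x * (h x - 1) ∂(mu n))
        - (n : ℝ) * (n + 3) / 2 * (sq (fun x => h x - 1) - e2 Y (fun x => h x - 1))
        - (sq (fun x => h x - 1) - e3 Y (fun x => h x - 1))
        + (n : ℝ) ^ 2 * e2 Y (fun x => h x - 1)
        + C * (ε + δ) * sq (fun x => h x - 1) + C * ε ^ 3 := by
  have hn1 : 1 ≤ n := by omega
  obtain ⟨δ1, hδ1, Cv, hCv, hV⟩ := V_all hn Y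
  obtain ⟨Cw, hCw, hW⟩ := u2_point n
  obtain ⟨C, hC, hR⟩ := u2_real (n : ℝ) Cv Cw (Nat.cast_nonneg n) hCv.le hCw
  refine ⟨min δ1 (1 / 2), by positivity, 1 / 4, by norm_num, C, hC, ?_⟩
  intro δ hδ0 hδ ε hε0 hε h hh hN u hu hub hui
  have hδa : δ ≤ δ1 := hδ.trans (min_le_left _ _)
  have hδb : δ ≤ 1 / 2 := hδ.trans (min_le_right _ _)
  have hprob := mu_prob hn1
  have hsub : sphere (0 : E n) 1 ⊆ {0}ᶜ := by
    intro x hx h0
    rw [mem_sphere_zero_iff_norm] at hx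
    rw [mem_singleton_iff] at h0
    rw [h0, norm_zero] at hx
    exact zero_ne_one hx
  have hne : ∀ x : E n, ‖x‖ = 1 → x ≠ 0 := fun x hx =>
    hsub (mem_sphere_zero_iff_norm.2 hx)
  have huc : ContinuousOn u (sphere 0 1) := hu.cont.mono hsub
  have hhc : ContinuousOn h (sphere 0 1) := hh.p1.cont.continuousOn
  have hfc : ContinuousOn (fun x => h x - 1) (sphere 0 1) := hhc.sub continuousOn_const
  -- integrals
  set f : E n → ℝ := fun x => h x - 1 with hf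
  set I : ℝ := ∫ x, f x ∂(mu n) with hI
  set U : ℝ := ∫ x, u x * f x ∂(mu n) with hU
  have hfb : ∀ x, ‖x‖ = 1 → |f x| ≤ δ := hN
  have hub' : ∀ x, ‖x‖ = 1 → |u x| ≤ 1 := fun x hx => hub x (hne x hx)
  have hsqf0 : 0 ≤ sq f := integral_nonneg fun x => sq_nonneg _
  have hsqu0 : 0 ≤ sq u := integral_nonneg fun x => sq_nonneg _
  have hsqu1 : sq u ≤ 1 := by
    have : |∫ x, u x ^ 2 ∂(mu n)| ≤ 1 := int_abs_le hn1 (fun x hx => by
      rw [abs_pow]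
      exact pow_le_one₀ (abs_nonneg _) (hub' x hx))
    exact (le_abs_self _).trans this
  have hsqfδ : sq f ≤ δ ^ 2 := by
    have : |∫ x, f x ^ 2 ∂(mu n)| ≤ δ ^ 2 := int_abs_le hn1 (fun x hx => by
      rw [abs_pow]
      exact pow_le_pow_left₀ (abs_nonneg _) (hfb x hx) 2)
    exact (le_abs_self _).trans this
  have hIδ : |I| ≤ δ := int_abs_le hn1 hfb
  have hI2 : I ^ 2 ≤ sq f := by
    have h1 := int_cs hn1 hfc (continuousOn_const (c := (1 : ℝ)) (s := sphere (0 : E n) 1))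
    have h2 : sq (fun _ : E n => (1 : ℝ)) = 1 := by
      unfold sq
      simp only [one_pow]
      exact int_const hn1 1
    rw [h2, mul_one] at h1
    simpa using h1
  have hU2 : U ^ 2 ≤ sq f := by
    have h1 := int_cs hn1 huc hfc
    nlinarith
  have he2 : e2 Y f ≤ sq f := bessel hn1 Y hfc 3
  have he3 : e3 Y f ≤ sq f := bessel hn1 Y hfc 4
  have he20 : 0 ≤ e2 Y f := Finset.sum_nonneg fun k _ => en_nonneg Y f k
  have he30 : 0 ≤ e3 Y f := Finset.sum_nonneg fun k _ => en_nonneg Y f k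
  have hvv := hV δ hδ0 hδa h hh hN
  have hvv0 : 0 < vv h := vv_pos hn1 hh.p1
  -- the mean
  have hhpos : ∀ x : E n, ‖x‖ = 1 → 0 < h x := fun x hx => hh.pos x (hne x hx)
  have hgc : ContinuousOn (fun x => (h x ^ n)⁻¹) (sphere (0 : E n) 1) := by
    refine ContinuousOn.inv₀ (hhc.pow n) ?_
    intro x hx
    exact (pow_pos (hhpos x (mem_sphere_zero_iff_norm.1 hx)) n).ne'
  have hψc : ContinuousOn (psi ε u) (sphere (0 : E n) 1) := by
    unfold psi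
    exact (continuousOn_const.add (continuousOn_const.mul huc)).sub
      (continuousOn_const.mul (huc.pow 2))
  have hGG : GG (psi ε u) h 0 = ∫ x, psi ε u x * (h x ^ n)⁻¹ ∂(mu n) := by
    unfold GG
    refine int_congr hn1 fun x _ => ?_
    rw [inner_zero_left, sub_zero]
  have hψ0 : ∀ x : E n, ‖x‖ = 1 → 0 ≤ psi ε u x := by
    intro x hx
    have hux := abs_le.1 (hub' x hx)
    have hu2 : u x ^ 2 ≤ 1 := by
      rw [← sq_abs]
      nlinarith [abs_nonneg (u x), hub' x hx]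
    have hN0 : (0 : ℝ) ≤ n := Nat.cast_nonneg n
    have hκ1 : (n : ℝ) / (2 * (n + 3)) ≤ 1 / 2 := by
      rw [div_le_iff₀ (by positivity)]
      linarith
    have hκ0 : 0 ≤ (n : ℝ) / (2 * (n + 3)) := by positivity
    have e1 : (n : ℝ) / (2 * (n + 3)) * ε ^ 2 ≤ 1 / 4 := by nlinarith [sq_nonneg ε]
    have e2 : (n : ℝ) / (2 * (n + 3)) * ε ^ 2 * u x ^ 2 ≤ 1 / 4 := by
      have : 0 ≤ (n : ℝ) / (2 * (n + 3)) * ε ^ 2 := by positivity
      nlinarith [sq_nonneg (u x)]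
    have e3 : -(1 / 4) ≤ ε * u x := by nlinarith
    unfold psi
    linarith
  have hGG0 : 0 ≤ GG (psi ε u) h 0 := by
    rw [hGG]
    have := int_mono hn1 (continuousOn_const (c := (0 : ℝ)) (s := sphere (0 : E n) 1))
      (hψc.mul hgc) (fun x hx => mul_nonneg (hψ0 x hx)
        (inv_nonneg.2 (pow_nonneg (hhpos x hx).le n)))
    rwa [int_const hn1] at this
  have hGGW : GG (psi ε u) h 0 ≤ 1 - (n : ℝ) * I + (n : ℝ) * (n + 1) / 2 * sq f
      - (n : ℝ) * ε * U - (n : ℝ) / (2 * (n + 3)) * ε ^ 2 * sq u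
      + Cw * (ε + δ) * sq f + Cw * ε ^ 3 := by
    rw [hGG]
    set a1 : ℝ := (n : ℝ) with ha1
    set a2 : ℝ := (n : ℝ) * (n + 1) / 2 + Cw * (ε + δ) with ha2
    set a3 : ℝ := (n : ℝ) / (2 * (n + 3)) * ε ^ 2 with ha3
    have hle := int_mono (F := fun x => psi ε u x * (h x ^ n)⁻¹)
      (G := fun x => ((((1 + Cw * ε ^ 3) + (-a1) * f x) + a2 * f x ^ 2) + ε * u x) +
        (-(a1 * ε)) * (u x * f x) + (-a3) * u x ^ 2) hn1 (hψc.mul hgc)
      (((((continuousOn_const.add (continuousOn_const.mul hfc)).add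
        (continuousOn_const.mul (hfc.pow 2))).add (continuousOn_const.mul huc)).add
        (continuousOn_const.mul (huc.mul hfc))).add (continuousOn_const.mul (huc.pow 2)))
      (fun x hx => by
        have hp := hW ε δ (f x) (u x) hε0 hε hδ0 hδb (hfb x hx) (hub' x hx)
        have hx1 : 1 + f x = h x := by rw [hf]; ring
        rw [hx1] at hp
        unfold psi
        refine hp.trans (le_of_eq ?_)
        rw [ha1, ha2, ha3]
        ring)
    refine hle.trans (le_of_eq ?_)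
    have i1 : Integrable f (mu n) := integrable_mu hn1 hfc
    have i2 : Integrable (fun x => f x ^ 2) (mu n) := integrable_mu hn1 (hfc.pow 2)
    have i3 : Integrable u (mu n) := integrable_mu hn1 huc
    have i4 : Integrable (fun x => u x * f x) (mu n) := integrable_mu hn1 (huc.mul hfc)
    have i5 : Integrable (fun x => u x ^ 2) (mu n) := integrable_mu hn1 (huc.pow 2)
    have j0 : Integrable (fun _ : E n => (1 + Cw * ε ^ 3 : ℝ)) (mu n) := integrable_const _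
    have j1 : Integrable (fun x => (-a1) * f x) (mu n) := i1.const_mul _
    have j2 : Integrable (fun x => a2 * f x ^ 2) (mu n) := i2.const_mul _
    have j3 : Integrable (fun x => ε * u x) (mu n) := i3.const_mul _
    have j4 : Integrable (fun x => (-(a1 * ε)) * (u x * f x)) (mu n) := i4.const_mul _
    have j5 : Integrable (fun x => (-a3) * u x ^ 2) (mu n) := i5.const_mul _
    have k1 : Integrable (fun x => (1 + Cw * ε ^ 3) + (-a1) * f x) (mu n) := j0.add j1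
    have k2 : Integrable (fun x => ((1 + Cw * ε ^ 3) + (-a1) * f x) + a2 * f x ^ 2) (mu n) :=
      k1.add j2
    have k3 : Integrable (fun x => (((1 + Cw * ε ^ 3) + (-a1) * f x) + a2 * f x ^ 2) + ε * u x)
      (mu n) := k2.add j3
    have k4 : Integrable (fun x => ((((1 + Cw * ε ^ 3) + (-a1) * f x) + a2 * f x ^ 2) + ε * u x)
      + (-(a1 * ε)) * (u x * f x)) (mu n) := k3.add j4
    rw [integral_add k4 j5, integral_add k3 j4, integral_add k2 j3, integral_add k1 j2,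
      integral_add j0 j1, int_const hn1, integral_const_mul, integral_const_mul,
      integral_const_mul, integral_const_mul, integral_const_mul, hui]
    have s1 : sq f = ∫ x, f x ^ 2 ∂(mu n) := rfl
    have s2 : sq u = ∫ x, u x ^ 2 ∂(mu n) := rfl
    rw [← s1, ← s2, ← hI, ← hU, ha1, ha2, ha3]
    ring
  have hfin := hR ε δ I U (sq f) (sq u) (e2 Y f) (e3 Y f) hε0 (by linarith) hδ0 (by linarith)
    hIδ hI2 hU2 hsqf0 hsqfδ hsqu0 hsqu1 he20 he2 he30 he3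
  have hW0 : 0 ≤ 1 - (n : ℝ) * I + (n : ℝ) * (n + 1) / 2 * sq f
      - (n : ℝ) * ε * U - (n : ℝ) / (2 * (n + 3)) * ε ^ 2 * sq u
      + Cw * (ε + δ) * sq f + Cw * ε ^ 3 := hGG0.trans hGGW
  have hVb : Vb Y Cv δ f = 1 + (n : ℝ) * I - (n : ℝ) * (n + 1) / 2 * sq f + (n : ℝ) ^ 2 * e2 Y f
      - (n : ℝ) * (n + 3) / 2 * (sq f - e2 Y f) - (sq f - e3 Y f) + Cv * δ * sq f := rfl
  have hMM : MM (psi ε u) h 0 = vv h * GG (psi ε u) h 0 := rfl
  rw [hMM]
  refine (mul_le_mul_of_nonneg_left hGGW hvv0.le).trans ?_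
  refine (mul_le_mul_of_nonneg_right hvv hW0).trans ?_
  rw [hVb]
  refine hfin.trans (le_of_eq ?_)
  ring

end Pool.Agent.H35.CA
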