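import Pool.Agent.H35.CA.Vsm
import Pool.Agent.H35.CA.Den

/-!
# Job VALL: the volume bound for all bodies

`V_all` from `V_smooth` and `dense_C2`: approximate `h` uniformly on the sphere by smooth
`l_m`, `Near (δ + 1/m)`; both sides are continuous for the uniform distance (`vv_close`,
`en_close`, and `sq`, the integral).
-/

namespace Pool.Agent.H35.CA

open MeasureTheory Metric Set

variable {n : ℕ}

theorem valA_int (hn : 1 ≤ n) {F G : E n → ℝ} (hF : ContinuousOn F (sphere 0 1))
    (hG : ContinuousOn G (sphere 0 1)) {c : ℝ} (h : ∀ x, ‖x‖ = 1 → |F x - G x| ≤ c) :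
    |∫ x, F x ∂(mu n) - ∫ x, G x ∂(mu n)| ≤ c := by
  rw [← integral_sub (integrable_mu hn hF) (integrable_mu hn hG)]
  exact int_abs_le hn h

theorem valA_tend {u : ℕ → ℝ} {a : ℝ} {e : ℕ → ℝ} (he : Filter.Tendsto e Filter.atTop (nhds 0))
    (h : ∀ m, |u m - a| ≤ e m) : Filter.Tendsto u Filter.atTop (nhds a) := by
  rw [tendsto_iff_dist_tendsto_zero]
  exact squeeze_zero (fun m => dist_nonneg) (fun m => by rw [Real.dist_eq]; exact h m) he

theorem V_all (hn : 2 ≤ n) (Y : SHFam n) : ∃ δ0 : ℝ, 0 < δ0 ∧ ∃ C : ℝ, 0 < C ∧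
    ∀ δ : ℝ, 0 ≤ δ → δ ≤ δ0 → ∀ h : E n → ℝ, SL h → Near δ h →
      vv h ≤ Vb Y C δ (fun x => h x - 1) := by
  obtain ⟨δ1, hδ1, C, hC, hV⟩ := V_smooth hn Y
  have hn1 : 1 ≤ n := by omega
  refine ⟨min (δ1 / 2) (1 / 2), lt_min (by linarith) (by norm_num), C, hC,
    fun δ h0 hδ h hh hN => ?_⟩
  have hδa : δ ≤ δ1 / 2 := hδ.trans (min_le_left _ _)
  have hδb : δ ≤ 1 / 2 := hδ.trans (min_le_right _ _)
  set c : ℝ := min (δ1 / 2) (1 / 4) with hc
  have hc0 : 0 < c := lt_min (by linarith) (by norm_num)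
  have hc1 : c ≤ δ1 / 2 := min_le_left _ _
  have hc2 : c ≤ 1 / 4 := min_le_right _ _
  set e : ℕ → ℝ := fun m => c * (1 / ((m : ℝ) + 1)) with he
  have he0 : ∀ m, 0 < e m := fun m => by positivity
  have hec : ∀ m, e m ≤ c := by
    intro m
    have h1 : (1 : ℝ) / ((m : ℝ) + 1) ≤ 1 := by
      rw [div_le_one (by positivity)]
      have : (0 : ℝ) ≤ m := Nat.cast_nonneg m
      linarith
    calc e m ≤ c * 1 := mul_le_mul_of_nonneg_left h1 hc0.le
      _ = c := mul_one c
  have het : Filter.Tendsto e Filter.atTop (nhds 0) := by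
    have := (tendsto_one_div_add_atTop_nhds_zero_nat (𝕜 := ℝ)).const_mul c
    rwa [mul_zero] at this
  choose l hl hlC hlh using fun m => dense_C2 hn1 hh (he0 m)
  have hcont : ∀ {k : E n → ℝ}, SL k → ContinuousOn (fun x => k x - 1) (sphere (0 : E n) 1) :=
    fun hk => (hk.p1.cont.sub continuous_const).continuousOn
  have hNl : ∀ m, Near (δ + e m) (l m) := by
    intro m x hx
    have h1 := hlh m x hx
    have h2 := hN x hx
    have h3 : l m x - 1 = (l m x - h x) + (h x - 1) := by ring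
    rw [h3]
    refine (abs_add_le _ _).trans ?_
    linarith
  have hV' : ∀ m, vv (l m) ≤ Vb Y C (δ + e m) (fun x => l m x - 1) := fun m =>
    hV (δ + e m) (add_nonneg h0 (he0 m).le) (by linarith [hec m]) (l m) (hl m) (hlC m) (hNl m)
  have hlow : ∀ m, (1 - 2 * e m) ^ n * vv h ≤ vv (l m) := fun m =>
    (vv_close hn1 hh.p1 (hl m).p1 (he0 m).le ((hec m).trans hc2)
      (fun x hx => (hN x hx).trans hδb) (hlh m)).1
  -- limits
  have hd : ∀ m x, ‖x‖ = 1 → |(l m x - 1) - (h x - 1)| ≤ e m := by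
    intro m x hx
    rw [sub_sub_sub_cancel_right]
    exact hlh m x hx
  have t1 : Filter.Tendsto (fun m => ∫ x, (l m x - 1) ∂(mu n)) Filter.atTop
      (nhds (∫ x, (h x - 1) ∂(mu n))) :=
    valA_tend het fun m => valA_int hn1 (hcont (hl m)) (hcont hh) (hd m)
  have t2 : Filter.Tendsto (fun m => sq (fun x => l m x - 1)) Filter.atTop
      (nhds (sq (fun x => h x - 1))) := by
    have h3 : Filter.Tendsto (fun m => 3 * e m) Filter.atTop (nhds 0) := by
      have := het.const_mul 3
      rwa [mul_zero] at this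
    refine valA_tend h3 fun m => ?_
    refine valA_int hn1 ((hcont (hl m)).pow 2) ((hcont hh).pow 2) fun x hx => ?_
    have h4 := hd m x hx
    have h5 := (hN x hx).trans hδb
    have h6 := (hec m).trans hc2
    have h7 : (l m x - 1) ^ 2 - (h x - 1) ^ 2 =
        ((l m x - 1) - (h x - 1)) * ((l m x - 1) - (h x - 1) + 2 * (h x - 1)) := by ring
    change |(l m x - 1) ^ 2 - (h x - 1) ^ 2| ≤ 3 * e m
    rw [h7, abs_mul]
    have h8 : |(l m x - 1) - (h x - 1) + 2 * (h x - 1)| ≤ 3 := by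
      refine (abs_add_le _ _).trans ?_
      rw [abs_mul, abs_two]
      linarith
    calc _ ≤ e m * 3 := mul_le_mul h4 h8 (abs_nonneg _) (he0 m).le
      _ = 3 * e m := mul_comm _ _
  have t3 : ∀ k, Filter.Tendsto (fun m => en Y (fun x => l m x - 1) k) Filter.atTop
      (nhds (en Y (fun x => h x - 1) k)) := by
    intro k
    have h3 : Filter.Tendsto (fun m => Real.sqrt (en Y (fun x => l m x - 1) k)) Filter.atTop
        (nhds (Real.sqrt (en Y (fun x => h x - 1) k))) := by
      refine valA_tend het fun m => ?_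
      refine (en_close hn1 Y (hcont (hl m)) (hcont hh) k).trans ?_
      rw [Real.sqrt_le_left (he0 m).le]
      refine (le_abs_self _).trans (int_abs_le hn1 fun x hx => ?_)
      rw [abs_pow]
      exact pow_le_pow_left₀ (abs_nonneg _) (hd m x hx) 2
    have h4 := h3.pow 2
    rw [Real.sq_sqrt (en_nonneg Y _ k)] at h4
    refine h4.congr fun m => ?_
    rw [Real.sq_sqrt (en_nonneg Y _ k)]
  have t4 : Filter.Tendsto (fun m => e2 Y (fun x => l m x - 1)) Filter.atTop
      (nhds (e2 Y (fun x => h x - 1))) := tendsto_finsetSum _ fun k _ => t3 k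
  have t5 : Filter.Tendsto (fun m => e3 Y (fun x => l m x - 1)) Filter.atTop
      (nhds (e3 Y (fun x => h x - 1))) := tendsto_finsetSum _ fun k _ => t3 k
  have t6 : Filter.Tendsto (fun m => δ + e m) Filter.atTop (nhds δ) := by
    have := (tendsto_const_nhds (x := δ)).add het
    rwa [add_zero] at this
  have t7 : Filter.Tendsto (fun m => Vb Y C (δ + e m) (fun x => l m x - 1)) Filter.atTop
      (nhds (Vb Y C δ (fun x => h x - 1))) := by
    unfold Vb
    exact (((((tendsto_const_nhds.add (t1.const_mul _)).sub (t2.const_mul _)).add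
      (t4.const_mul _)).sub ((t2.sub t4).const_mul _)).sub (t2.sub t5)).add
      ((t6.const_mul _).mul t2)
  have t8 : Filter.Tendsto (fun m => (1 - 2 * e m) ^ n * vv h) Filter.atTop (nhds (vv h)) := by
    have h9 := ((((tendsto_const_nhds (x := (1 : ℝ))).sub (het.const_mul 2)).pow n).mul_const
      (vv h))
    rwa [mul_zero, sub_zero, one_pow, one_mul] at h9
  exact le_of_tendsto_of_tendsto' t8 t7 fun m => (hlow m).trans (hV' m)

end Pool.Agent.H35.CA
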