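import Pool.Agent.H35.CA.PkD

/-!
# Job VEX: second order expansion of the volume for polynomial perturbations

Proof hints.  Put `h_t = hh (pk (t • P)) = ‖x‖ + t * pk P x` (`pk_smul`), `p = ev P`,
`f t = vv h_t`, `dens_t = dens (pk (t • P))`, for `t ∈ [0,1]`; for `nr P ≤ c` small all `h_t`
are `LowGood` (`low_bound`, `low_good`).  By `LowGood.dual` and `LowGood.self`,
`f s - f t ≤ ∫ dens_t h_t^(-n) ((1 + (s-t) p / h_t)^n - 1) ≤ (s - t) z t + C1 (s-t)^2 nr P ^2`,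
`z t = n ∫ p dens_t h_t^(-n-1)`, and by `dens_exp` and `ev_bound`
`|z t - n ∫ p - n t ∫ p (lapP P + (n-1) p)| ≤ C2 nr P ^3`.
Sum over `t = j/N`, `s = (j+1)/N` for the upper bound of `f 1 - f 0`, and over
`t = (j+1)/N`, `s = j/N` for the lower bound, and let `N → ∞`.  `f 0 = vv ‖·‖ = 1`.
-/

namespace Pool.Agent.H35.CA

open MeasureTheory Metric Set

variable {n : ℕ}

theorem vex_pow (m : ℕ) : ∃ M : ℝ, 0 < M ∧ ∀ y : ℝ, |y| ≤ 1 →
    |(1 + y) ^ m - 1 - m * y| ≤ M * y ^ 2 := by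
  induction m with
  | zero =>
    refine ⟨1, one_pos, fun y _ => ?_⟩
    have h : (1 + y) ^ 0 - 1 - ((0 : ℕ) : ℝ) * y = 0 := by
      rw [pow_zero]
      push_cast
      ring
    rw [h, abs_zero]
    positivity
  | succ m ih =>
    obtain ⟨M, hM, h⟩ := ih
    refine ⟨2 * M + m, by positivity, fun y hy => ?_⟩
    have e : (1 + y) ^ (m + 1) - 1 - ((m + 1 : ℕ) : ℝ) * y =
        (1 + y) * ((1 + y) ^ m - 1 - m * y) + m * y ^ 2 := by
      push_cast
      ring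
    rw [e]
    have h1 : |(1 + y) * ((1 + y) ^ m - 1 - m * y)| ≤ 2 * (M * y ^ 2) := by
      rw [abs_mul]
      refine mul_le_mul ?_ (h y hy) (abs_nonneg _) (by norm_num)
      refine (abs_add_le _ _).trans ?_
      rw [abs_one]
      linarith
    have h2 : |(m : ℝ) * y ^ 2| = m * y ^ 2 := abs_of_nonneg (by positivity)
    refine (abs_add_le _ _).trans ?_
    rw [h2]
    linarith

/-- Telescoping. -/
theorem vex_tel {g : ℝ → ℝ} {L M : ℝ}
    (h : ∀ s t : ℝ, 0 ≤ s → s ≤ 1 → 0 ≤ t → t ≤ 1 → g s - g t ≤ L * |s - t| + M * (s - t) ^ 2) :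
    |g 1 - g 0| ≤ L := by
  have h0 : ∀ s t : ℝ, 0 ≤ s → s ≤ 1 → 0 ≤ t → t ≤ 1 →
      |g s - g t| ≤ L * |s - t| + M * (s - t) ^ 2 := by
    intro s t h1 h2 h3 h4
    rw [abs_le]
    have h5 := h s t h1 h2 h3 h4
    have h6 := h t s h3 h4 h1 h2
    rw [abs_sub_comm] at h6
    refine ⟨?_, h5⟩
    nlinarith [h6]
  have h1 : ∀ N : ℕ, 0 < N → |g 1 - g 0| ≤ L + M * (N : ℝ)⁻¹ := by
    intro N hN
    have hN' : (0 : ℝ) < N := by exact_mod_cast hN
    have e : g 1 - g 0 = ∑ j ∈ Finset.range N, (g (((j + 1 : ℕ) : ℝ) / N) - g ((j : ℝ) / N)) := by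
      rw [Finset.sum_range_sub (fun j : ℕ => g ((j : ℝ) / N))]
      rw [div_self hN'.ne', Nat.cast_zero, zero_div]
    rw [e]
    refine (Finset.abs_sum_le_sum_abs _ _).trans ?_
    have h2 : ∀ j ∈ Finset.range N, |g (((j + 1 : ℕ) : ℝ) / N) - g ((j : ℝ) / N)| ≤
        L * (N : ℝ)⁻¹ + M * ((N : ℝ)⁻¹) ^ 2 := by
      intro j hj
      have hj' : (j : ℝ) + 1 ≤ N := by exact_mod_cast Finset.mem_range.1 hj
      have h3 := h0 (((j + 1 : ℕ) : ℝ) / N) ((j : ℝ) / N) (by positivity)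
        (by rw [div_le_one hN']; push_cast; exact hj') (by positivity)
        (by rw [div_le_one hN']; linarith)
      have e2 : ((j + 1 : ℕ) : ℝ) / N - (j : ℝ) / N = (N : ℝ)⁻¹ := by
        push_cast
        field_simp
        ring
      rw [e2, abs_of_pos (inv_pos.2 hN')] at h3
      exact h3
    refine (Finset.sum_le_sum h2).trans ?_
    rw [Finset.sum_const, Finset.card_range, nsmul_eq_mul]
    have e3 : (N : ℝ) * (L * (N : ℝ)⁻¹ + M * (N : ℝ)⁻¹ ^ 2) = L + M * (N : ℝ)⁻¹ := by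
      field_simp
    rw [e3]
  have h2 : Filter.Tendsto (fun N : ℕ => L + M * (N : ℝ)⁻¹) Filter.atTop (nhds (L + M * 0)) :=
    (tendsto_inv_atTop_nhds_zero_nat.const_mul M).const_add L
  rw [mul_zero, add_zero] at h2
  refine ge_of_tendsto h2 ?_
  filter_upwards [Filter.eventually_gt_atTop 0] with N hN
  exact h1 N hN

theorem vex_nr_smul (t : ℝ) (P : Pol n) : nr (t • P) = |t| * nr P := by
  unfold nr
  have h : ∫ x, ev (t • P) x ^ 2 ∂(mu n) = t ^ 2 * ∫ x, ev P x ^ 2 ∂(mu n) := by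
    rw [← integral_const_mul]
    refine integral_congr_ae (Filter.Eventually.of_forall fun x => ?_)
    change ev (t • P) x ^ 2 = t ^ 2 * ev P x ^ 2
    rw [ev_smul, mul_pow]
  rw [h, Real.sqrt_mul (sq_nonneg t), Real.sqrt_sq_eq_abs]

theorem vex_hh (t : ℝ) (P : Pol n) {x : E n} (hx : ‖x‖ = 1) :
    hh (pk (t • P)) x = 1 + t * ev P x := by
  unfold hh
  rw [pk_smul, pk_sphere P hx, hx]

/-- One step. -/
theorem vex_step (hn : 1 ≤ n) (Y : SHFam n) (K : ℕ) : ∃ D : ℝ, 0 < D ∧ ∃ D' : ℝ, 0 < D' ∧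
    ∃ c : ℝ, 0 < c ∧ ∀ P : Pol n, P.totalDegree ≤ K → nr P ≤ c →
    ∀ s t : ℝ, 0 ≤ s → s ≤ 1 → 0 ≤ t → t ≤ 1 →
      vv (hh (pk (s • P))) - vv (hh (pk (t • P))) ≤
        (s - t) * ((n : ℝ) * (∫ x, ev P x ∂(mu n)) + t * ((n : ℝ) *
          ∫ x, ev P x * (ev (lapP P) x + ((n : ℝ) - 1) * ev P x) ∂(mu n)))
          + D * nr P ^ 3 * |s - t| + D' * (s - t) ^ 2 := by
  obtain ⟨C0, hC0, hlow⟩ := low_bound hn Y K
  obtain ⟨c0, hc0, -, hgood⟩ := low_good (n := n) hn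
  obtain ⟨C1, hC1, c1, hc1, hdens⟩ := dens_exp hn Y K
  obtain ⟨C2, hC2, hev⟩ := ev_bound hn Y K
  obtain ⟨M, hM, hpow⟩ := vex_pow n
  have hn0 : (0 : ℝ) < n := by exact_mod_cast hn
  refine ⟨n * (C2 * C1), by positivity, 11 / 10 * 2 ^ n * M, by positivity,
    min (c0 / C0) (min c1 (1 / (2 * C2))), lt_min (by positivity) (lt_min hc1 (by positivity)), ?_⟩
  intro P hP hr s t hs0 hs1 ht0 ht1
  have hr0 : 0 ≤ nr P := Real.sqrt_nonneg _
  have hra : nr P ≤ c0 / C0 := hr.trans (min_le_left _ _)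
  have hrb : nr P ≤ c1 := hr.trans ((min_le_right _ _).trans (min_le_left _ _))
  have hrc : nr P ≤ 1 / (2 * C2) := hr.trans ((min_le_right _ _).trans (min_le_right _ _))
  have hra' : C0 * nr P ≤ c0 := by
    rw [le_div_iff₀ hC0] at hra
    linarith
  have hrc' : C2 * nr P ≤ 1 / 2 := by
    rw [le_div_iff₀ (by positivity)] at hrc
    linarith
  have hdeg : ∀ a : ℝ, (a • P).totalDegree ≤ K := fun a =>
    (MvPolynomial.totalDegree_smul_le a P).trans hP
  have hnr : ∀ a : ℝ, 0 ≤ a → a ≤ 1 → nr (a • P) ≤ nr P := by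
    intro a h0 h1
    rw [vex_nr_smul, abs_of_nonneg h0]
    nlinarith
  have hG : ∀ a : ℝ, 0 ≤ a → a ≤ 1 → LowGood (pk (a • P)) := by
    intro a h0 h1
    refine hgood _ ((hlow (a • P) (hdeg a)).mono ?_)
    exact (mul_le_mul_of_nonneg_left (hnr a h0 h1) hC0.le).trans hra'
  have hGs := hG s hs0 hs1
  have hGt := hG t ht0 ht1
  have hp : ∀ x : E n, ‖x‖ = 1 → |ev P x| ≤ C2 * nr P := fun x hx => (hev P hP x hx).1
  have hp2 : ∀ x : E n, ‖x‖ = 1 → |ev P x| ≤ 1 / 2 := fun x hx => (hp x hx).trans hrc'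
  have hh2 : ∀ a : ℝ, 0 ≤ a → a ≤ 1 → ∀ x : E n, ‖x‖ = 1 → 1 / 2 ≤ hh (pk (a • P)) x := by
    intro a h0 h1 x hx
    rw [vex_hh a P hx]
    have h3 := abs_le.1 (hp2 x hx)
    nlinarith [h3.1, h3.2]
  have hxne : ∀ x : E n, ‖x‖ = 1 → x ≠ 0 := by
    intro x hx h
    rw [h, norm_zero] at hx
    norm_num at hx
  -- continuity
  have cS : sphere (0 : E n) 1 ⊆ {0}ᶜ := SphC_sphere_sub
  have cd : ContinuousOn (dens (pk (t • P))) (sphere 0 1) := hGt.dens_smooth.continuousOn.mono cS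
  have chs : ContinuousOn (hh (pk (s • P))) (sphere 0 1) := hGs.smooth.continuousOn.mono cS
  have cht : ContinuousOn (hh (pk (t • P))) (sphere 0 1) := hGt.smooth.continuousOn.mono cS
  have chne : ∀ x ∈ sphere (0 : E n) 1, hh (pk (t • P)) x ≠ 0 := fun x hx =>
    ne_of_gt (lt_of_lt_of_le (by norm_num) (hh2 t ht0 ht1 x (mem_sphere_zero_iff_norm.1 hx)))
  have cev : ∀ Q : Pol n, ContinuousOn (ev Q) (sphere 0 1) :=
    fun Q => (ev_smooth Q).continuous.continuousOn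
  have c1' : ContinuousOn (fun x => dens (pk (t • P)) x *
      (hh (pk (s • P)) x / hh (pk (t • P)) x ^ 2) ^ n) (sphere 0 1) :=
    cd.mul ((chs.div (cht.pow 2) (fun x hx => pow_ne_zero 2 (chne x hx))).pow n)
  have c2' : ContinuousOn (fun x => dens (pk (t • P)) x * (hh (pk (t • P)) x ^ n)⁻¹)
      (sphere 0 1) :=
    cd.mul ((cht.pow n).inv₀ (fun x hx => pow_ne_zero n (chne x hx)))
  have c3' : ContinuousOn (fun x => ev P x * (dens (pk (t • P)) x *
      (hh (pk (t • P)) x ^ (n + 1))⁻¹)) (sphere 0 1) :=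
    (cev P).mul (cd.mul ((cht.pow (n + 1)).inv₀ (fun x hx => pow_ne_zero (n + 1) (chne x hx))))
  have c4' : ContinuousOn (fun x => ev P x * (ev (lapP P) x + ((n : ℝ) - 1) * ev P x))
      (sphere 0 1) :=
    (cev P).mul ((cev (lapP P)).add (continuousOn_const.mul (cev P)))
  have c5' : ContinuousOn (fun x => ((s - t) * n) * (ev P x * (dens (pk (t • P)) x *
      (hh (pk (t • P)) x ^ (n + 1))⁻¹))) (sphere 0 1) := continuousOn_const.mul c3'
  have c6' : ContinuousOn (fun x => ((s - t) * n) * (ev P x * (dens (pk (t • P)) x *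
      (hh (pk (t • P)) x ^ (n + 1))⁻¹)) + 11 / 10 * 2 ^ n * M * (s - t) ^ 2) (sphere 0 1) :=
    c5'.add continuousOn_const
  have c7' : ContinuousOn (fun x => t * (ev P x * (ev (lapP P) x + ((n : ℝ) - 1) * ev P x)))
      (sphere 0 1) := continuousOn_const.mul c4'
  have c8' : ContinuousOn (fun x => ev P x +
      t * (ev P x * (ev (lapP P) x + ((n : ℝ) - 1) * ev P x))) (sphere 0 1) := (cev P).add c7'
  have hprob := mu_prob (n := n) hn
  -- the difference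
  have h1 : vv (hh (pk (s • P))) - vv (hh (pk (t • P))) ≤
      ∫ x, (dens (pk (t • P)) x * (hh (pk (s • P)) x / hh (pk (t • P)) x ^ 2) ^ n -
        dens (pk (t • P)) x * (hh (pk (t • P)) x ^ n)⁻¹) ∂(mu n) := by
    rw [integral_sub (integrable_mu hn c1') (integrable_mu hn c2'), ← hGt.self hn]
    exact sub_le_sub_right (hGt.dual hn hGs.sl.p1) _
  -- pointwise
  have h2 : ∀ x : E n, ‖x‖ = 1 →
      dens (pk (t • P)) x * (hh (pk (s • P)) x / hh (pk (t • P)) x ^ 2) ^ n -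
        dens (pk (t • P)) x * (hh (pk (t • P)) x ^ n)⁻¹ ≤
      ((s - t) * n) * (ev P x * (dens (pk (t • P)) x * (hh (pk (t • P)) x ^ (n + 1))⁻¹)) +
        11 / 10 * 2 ^ n * M * (s - t) ^ 2 := by
    intro x hx
    have hd := hGt.dens_bd x (hxne x hx)
    set d := dens (pk (t • P)) x with hd_def
    have hH := hh2 t ht0 ht1 x hx
    set H := hh (pk (t • P)) x with hH_def
    have hH0 : 0 < H := lt_of_lt_of_le (by norm_num) hH
    have hs' : hh (pk (s • P)) x = H + (s - t) * ev P x := by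
      rw [hH_def, vex_hh s P hx, vex_hh t P hx]
      ring
    rw [hs']
    set p := ev P x with hp_def
    have hpx : |p| ≤ 1 / 2 := hp2 x hx
    set y := (s - t) * p / H with hy_def
    have hyH : H * y = (s - t) * p := by
      rw [hy_def]
      field_simp
    have hst : |s - t| ≤ 1 := by
      rw [abs_le]
      constructor <;> linarith
    have hy1 : |y| ≤ |s - t| := by
      rw [hy_def, abs_div, abs_mul, abs_of_pos hH0, div_le_iff₀ hH0]
      exact mul_le_mul_of_nonneg_left (hpx.trans hH) (abs_nonneg _)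
    have hyy : |y| ≤ 1 := hy1.trans hst
    have hy2 : y ^ 2 ≤ (s - t) ^ 2 := by
      rw [← sq_abs y, ← sq_abs (s - t)]
      exact pow_le_pow_left₀ (abs_nonneg _) hy1 2
    have hq := (abs_le.1 (hpow y hyy)).2
    have e1 : (H + (s - t) * p) / H ^ 2 = H⁻¹ * (1 + y) := by
      rw [← hyH]
      field_simp
    have e2 : d * (H⁻¹ * (1 + y)) ^ n - d * (H ^ n)⁻¹ = d * (H⁻¹) ^ n * ((1 + y) ^ n - 1) := by
      rw [mul_pow, inv_pow]
      ring
    have e3 : d * (H⁻¹) ^ n * (n * y) = ((s - t) * n) * (p * (d * (H ^ (n + 1))⁻¹)) := by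
      have : y = (s - t) * p * H⁻¹ := by rw [hy_def, div_eq_mul_inv]
      rw [this, pow_succ, mul_inv, inv_pow]
      ring
    rw [e1, e2, ← e3]
    have hHi : (H⁻¹) ^ n ≤ 2 ^ n := by
      refine pow_le_pow_left₀ (inv_nonneg.2 hH0.le) ?_ n
      rw [inv_le_comm₀ hH0 (by norm_num)]
      linarith
    have hd0 : 0 ≤ d := by linarith [hd.1]
    have hHn : 0 ≤ (H⁻¹) ^ n := by positivity
    have e4 : d * (H⁻¹) ^ n * ((1 + y) ^ n - 1) ≤ d * (H⁻¹) ^ n * (n * y + M * y ^ 2) :=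
      mul_le_mul_of_nonneg_left (by linarith) (mul_nonneg hd0 hHn)
    refine e4.trans ?_
    rw [mul_add]
    refine add_le_add le_rfl ?_
    calc d * (H⁻¹) ^ n * (M * y ^ 2) ≤ (11 / 10 * 2 ^ n) * (M * (s - t) ^ 2) := by
          refine mul_le_mul (mul_le_mul hd.2 hHi hHn (by norm_num)) ?_ (by positivity)
            (by positivity)
          exact mul_le_mul_of_nonneg_left hy2 hM.le
      _ = 11 / 10 * 2 ^ n * M * (s - t) ^ 2 := by ring
  have h3 : vv (hh (pk (s • P))) - vv (hh (pk (t • P))) ≤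
      ((s - t) * n) * (∫ x, ev P x * (dens (pk (t • P)) x * (hh (pk (t • P)) x ^ (n + 1))⁻¹)
        ∂(mu n)) + 11 / 10 * 2 ^ n * M * (s - t) ^ 2 := by
    refine h1.trans ((int_mono hn (c1'.sub c2') c6' h2).trans ?_)
    rw [integral_add (integrable_mu hn c5') (integrable_const _),
      integral_const_mul, int_const hn]
  -- the linear term
  have h4 : |(∫ x, ev P x * (dens (pk (t • P)) x * (hh (pk (t • P)) x ^ (n + 1))⁻¹)
      ∂(mu n)) - ((∫ x, ev P x ∂(mu n)) + t *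
        ∫ x, ev P x * (ev (lapP P) x + ((n : ℝ) - 1) * ev P x) ∂(mu n))| ≤
      C2 * C1 * nr P ^ 3 := by
    have e5 : (∫ x, ev P x * (dens (pk (t • P)) x * (hh (pk (t • P)) x ^ (n + 1))⁻¹)
      ∂(mu n)) - ((∫ x, ev P x ∂(mu n)) + t *
        ∫ x, ev P x * (ev (lapP P) x + ((n : ℝ) - 1) * ev P x) ∂(mu n)) =
        ∫ x, (ev P x * (dens (pk (t • P)) x * (hh (pk (t • P)) x ^ (n + 1))⁻¹) -
          (ev P x + t * (ev P x * (ev (lapP P) x + ((n : ℝ) - 1) * ev P x)))) ∂(mu n) := by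
      rw [integral_sub (integrable_mu hn c3') (integrable_mu hn c8'),
        integral_add (integrable_mu hn (cev P)) (integrable_mu hn c7'), integral_const_mul]
    rw [e5]
    refine int_abs_le hn fun x hx => ?_
    have h5 := hdens (t • P) (hdeg t) ((hnr t ht0 ht1).trans hrb) x hx
    rw [lapP_smul, ev_smul, ev_smul] at h5
    have e6 : ev P x * (dens (pk (t • P)) x * (hh (pk (t • P)) x ^ (n + 1))⁻¹) -
          (ev P x + t * (ev P x * (ev (lapP P) x + ((n : ℝ) - 1) * ev P x))) =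
        ev P x * (dens (pk (t • P)) x * (hh (pk (t • P)) x ^ (n + 1))⁻¹ -
          (1 + (t * ev (lapP P) x + ((n : ℝ) - 1) * (t * ev P x)))) := by ring
    rw [e6, abs_mul]
    have h6 : |dens (pk (t • P)) x * (hh (pk (t • P)) x ^ (n + 1))⁻¹ -
          (1 + (t * ev (lapP P) x + ((n : ℝ) - 1) * (t * ev P x)))| ≤ C1 * nr P ^ 2 :=
      h5.trans (mul_le_mul_of_nonneg_left
        (pow_le_pow_left₀ (Real.sqrt_nonneg _) (hnr t ht0 ht1) 2) hC1.le)
    calc _ ≤ (C2 * nr P) * (C1 * nr P ^ 2) :=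
          mul_le_mul (hp x hx) h6 (abs_nonneg _) (by positivity)
      _ = C2 * C1 * nr P ^ 3 := by ring
  set Z := ∫ x, ev P x * (dens (pk (t • P)) x * (hh (pk (t • P)) x ^ (n + 1))⁻¹) ∂(mu n)
  set A := ∫ x, ev P x ∂(mu n)
  set B := ∫ x, ev P x * (ev (lapP P) x + ((n : ℝ) - 1) * ev P x) ∂(mu n)
  have h7 : (s - t) * n * Z ≤ (s - t) * (n * A + t * (n * B)) +
      n * (C2 * C1) * nr P ^ 3 * |s - t| := by
    have e7 : (s - t) * n * Z = (s - t) * (n * A + t * (n * B)) + n * ((s - t) * (Z - (A + t * B))) := by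
      ring
    rw [e7]
    refine add_le_add le_rfl ?_
    have h8 : (s - t) * (Z - (A + t * B)) ≤ |s - t| * (C2 * C1 * nr P ^ 3) := by
      refine (le_abs_self _).trans ?_
      rw [abs_mul]
      exact mul_le_mul_of_nonneg_left h4 (abs_nonneg _)
    calc _ ≤ (n : ℝ) * (|s - t| * (C2 * C1 * nr P ^ 3)) :=
          mul_le_mul_of_nonneg_left h8 hn0.le
      _ = _ := by ring
  linarith [h3, h7]

theorem vol_exp (hn : 1 ≤ n) (Y : SHFam n) (K : ℕ) : ∃ C : ℝ, 0 < C ∧ ∃ c : ℝ, 0 < c ∧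
    ∀ P : Pol n, P.totalDegree ≤ K → nr P ≤ c →
      |vv (hh (pk P)) - (1 + (n : ℝ) * (∫ x, ev P x ∂(mu n)) + (n : ℝ) / 2 *
        ∫ x, ev P x * (ev (lapP P) x + ((n : ℝ) - 1) * ev P x) ∂(mu n))| ≤ C * nr P ^ 3 := by
  obtain ⟨D, hD, D', hD', c, hc, hst⟩ := vex_step hn Y K
  refine ⟨D, hD, c, hc, fun P hP hr => ?_⟩
  have hst' := hst P hP hr
  set A := ∫ x, ev P x ∂(mu n)
  set B := ∫ x, ev P x * (ev (lapP P) x + ((n : ℝ) - 1) * ev P x) ∂(mu n)
  have h := vex_tel (g := fun t => vv (hh (pk (t • P))) - (n * A * t + n * B / 2 * t ^ 2))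
    (L := D * nr P ^ 3) (M := D' + |n * B / 2|) ?_
  · have e1 : vv (hh (pk ((1 : ℝ) • P))) = vv (hh (pk P)) := by rw [one_smul]
    have e0 : vv (hh (pk ((0 : ℝ) • P))) = 1 := by
      rw [← vv_norm hn]
      congr 1
      funext x
      unfold hh
      rw [pk_smul, zero_mul, add_zero]
    have e2 : vv (hh (pk P)) - (1 + (n : ℝ) * A + (n : ℝ) / 2 * B) =
        (fun t : ℝ => vv (hh (pk (t • P))) - (n * A * t + n * B / 2 * t ^ 2)) 1 -
        (fun t : ℝ => vv (hh (pk (t • P))) - (n * A * t + n * B / 2 * t ^ 2)) 0 := by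
      change _ = (vv (hh (pk ((1 : ℝ) • P))) - (n * A * 1 + n * B / 2 * 1 ^ 2)) -
        (vv (hh (pk ((0 : ℝ) • P))) - (n * A * 0 + n * B / 2 * 0 ^ 2))
      rw [e1, e0]
      ring
    rw [e2]
    exact h
  · intro s t hs0 hs1 ht0 ht1
    have h1 := hst' s t hs0 hs1 ht0 ht1
    have h2 : -(n * B / 2) * (s - t) ^ 2 ≤ |n * B / 2| * (s - t) ^ 2 :=
      mul_le_mul_of_nonneg_right (neg_le_abs _) (sq_nonneg _)
    have e3 : vv (hh (pk (s • P))) - (n * A * s + n * B / 2 * s ^ 2) -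
        (vv (hh (pk (t • P))) - (n * A * t + n * B / 2 * t ^ 2)) =
        (vv (hh (pk (s • P))) - vv (hh (pk (t • P)))) - (s - t) * (n * A + t * (n * B)) +
          -(n * B / 2) * (s - t) ^ 2 := by ring
    change vv (hh (pk (s • P))) - (n * A * s + n * B / 2 * s ^ 2) -
        (vv (hh (pk (t • P))) - (n * A * t + n * B / 2 * t ^ 2)) ≤ _
    rw [e3]
    linarith

end Pool.Agent.H35.CA
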