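import Pool.Agent.H35.CA.Key
import Pool.Agent.H35.CA.ShG
import Pool.Agent.H35.CA.Vex

/-!
# Job VSM: the volume bound for smooth bodies

Write `f = h - 1` on the sphere, `P = prP Y f K0`, `p = ev P`, `h' = hh (pk P)`,
`τ x = h x - h' x` (so `τ = f - p` on the sphere), `κ1 = 1/(32 (n-1))`, and choose `K0 ≥ 4` with
`κ1 * lam n (K0+1) ≥ n(n-1)/2 + n(n+1)/2 + n(n+3)/2 + 1`.  `nr P ≤ sqrt (sq f) ≤ δ`, so
`pk P` is `Small (C δ)`, `|p| ≤ C δ`, `|τ| ≤ C δ` on the sphere (`C` depends on `n`, `K0`).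
(1) For each pair `q`, `key` for `J = J_q`; on the sphere
`XX J L = n (h' X τ - τ X h') / (h h')`, `|X h'| = |X (pk P)| ≤ C δ`, so by
`(a-b)^2 ≥ a^2/2 - b^2`: `(XX J L)^2 ≥ n²/4 (X τ)^2 - C δ² τ²`.  Average over the
`n(n-1)/2` pairs: `vv h ≤ I0 - κ1 ∑_q ∫ (X_q τ)^2 + C δ sq f`,
`I0 = ∫ dens (h/h'^2)^n`.  By `grad_energy` (with `en_sub_pr`, `en_congr`)
`∑_q ∫ (X_q τ)^2 ≥ lam n (K0+1) * sq τ`.
(2) `I0 = ∫ dens h'^(-n) (1 + τ/h')^n`, `(1+t)^n ≤ 1 + n t + n(n-1)/2 t² + C |t|³`, and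
`∫ dens h'^(-n) = vv h'` (`LowGood.self`), `n ∫ dens h'^(-n-1) τ = n ∫ O(nr P^2) τ` by
`dens_exp` and `pr_perp` (as `lapP P`, `P`, `1` have degree `≤ K0`), which is
`≤ C δ sq f`; the quadratic term is `≤ n(n-1)/2 sq τ + C δ sq f`.
(3) `vv h' ≤ 1 + n ∫ f + (n/2) ∑_{k ≤ K0} (n - 1 - lam n k) en Y f k + C δ sq f` by
`vol_exp`, `pr_int`, `pr_lap`, `pr_nr`.
(4) `sq f = ∑_{k ≤ K0} en Y f k + sq τ` (`sq_pr`).  Compare with `Vb` degree by degree: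
`(n/2)(n-1-λ_k) + n(n+1)/2 = (n/2)(2n - λ_k)` is `≤ n²` for `k ≤ 2`, `= -n(n+3)/2` for `k = 3`,
`≤ -n(n+4) ≤ -n(n+3)/2 - 1` for `k ≥ 4`; and the coefficient of `sq τ` is
`n(n-1)/2 - κ1 lam n (K0+1) ≤ - n(n+1)/2 - n(n+3)/2 - 1`.
-/

namespace Pool.Agent.H35.CA

open MeasureTheory Metric Set

variable {n : ℕ}

theorem vsm_lam_nonneg (hn : 2 ≤ n) (k : ℕ) : 0 ≤ lam n k := by
  have h2 : (2 : ℝ) ≤ n := by exact_mod_cast hn
  have hk : (0 : ℝ) ≤ k := Nat.cast_nonneg k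
  unfold lam
  exact mul_nonneg hk (by linarith)

theorem vsm_lam_sq (hn : 2 ≤ n) (k : ℕ) : (k : ℝ) ^ 2 ≤ lam n k := by
  have h2 : (2 : ℝ) ≤ n := by exact_mod_cast hn
  have hk : (0 : ℝ) ≤ k := Nat.cast_nonneg k
  unfold lam
  nlinarith

theorem vsm_lam_four (hn : 2 ≤ n) {k : ℕ} (hk : 4 ≤ k) : 4 * ((n : ℝ) + 2) ≤ lam n k := by
  have h2 : (2 : ℝ) ≤ n := by exact_mod_cast hn
  have hk : (4 : ℝ) ≤ k := by exact_mod_cast hk
  unfold lam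
  nlinarith

theorem vsm_arith (hn : 2 ≤ n) (e : ℕ → ℝ) (he : ∀ k, 0 ≤ e k) {K : ℕ} (hK : 4 ≤ K)
    {T κ : ℝ} (hT : 0 ≤ T) (hκ : (n : ℝ) * (n - 1) / 2 + (n : ℝ) * (n + 1) / 2 +
      (n : ℝ) * (n + 3) / 2 + 1 ≤ κ) {S : ℝ} (hS : S = ∑ k ∈ Finset.range (K + 1), e k + T) :
    (n : ℝ) / 2 * ∑ k ∈ Finset.range (K + 1), (((n : ℝ) - 1) - lam n k) * e k +
      ((n : ℝ) * (n - 1) / 2 - κ) * T ≤
    -((n : ℝ) * (n + 1) / 2 * S) + (n : ℝ) ^ 2 * (∑ k ∈ Finset.range 3, e k)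
      - (n : ℝ) * (n + 3) / 2 * (S - ∑ k ∈ Finset.range 3, e k)
      - (S - ∑ k ∈ Finset.range 4, e k) := by
  have h2 : (2 : ℝ) ≤ n := by exact_mod_cast hn
  rw [← Finset.sum_range_add_sum_Ico _ (by omega : 4 ≤ K + 1)] at hS
  rw [← Finset.sum_range_add_sum_Ico _ (by omega : 4 ≤ K + 1)]
  have h3 : ∑ k ∈ Finset.Ico 4 (K + 1), (((n : ℝ) - 1) - lam n k) * e k ≤
      (((n : ℝ) - 1) - 4 * ((n : ℝ) + 2)) * ∑ k ∈ Finset.Ico 4 (K + 1), e k := by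
    rw [Finset.mul_sum]
    refine Finset.sum_le_sum fun k hk => ?_
    have := vsm_lam_four hn (Finset.mem_Ico.mp hk).1
    exact mul_le_mul_of_nonneg_right (by linarith) (he k)
  have h4 : 0 ≤ ∑ k ∈ Finset.Ico 4 (K + 1), e k := Finset.sum_nonneg fun k _ => he k
  set R := ∑ k ∈ Finset.Ico 4 (K + 1), e k
  set R' := ∑ k ∈ Finset.Ico 4 (K + 1), (((n : ℝ) - 1) - lam n k) * e k
  subst hS
  simp only [Finset.sum_range_succ, Finset.sum_range_zero, zero_add]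
  have l0 : lam n 0 = 0 := by simp [lam]
  have l1 : lam n 1 = (n : ℝ) - 1 := by
    unfold lam
    push_cast
    ring
  have l2 : lam n 2 = 2 * (n : ℝ) := by
    unfold lam
    push_cast
    ring
  have l3 : lam n 3 = 3 * ((n : ℝ) + 1) := by
    unfold lam
    push_cast
    ring
  rw [l0, l1, l2, l3]
  have p1 : 0 ≤ ((n : ℝ) * (n - 1)) * e 1 := mul_nonneg (by nlinarith) (he 1)
  have p2 : 0 ≤ ((n : ℝ) * n) * e 2 := mul_nonneg (by positivity) (he 2)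
  have p3 : 0 ≤ ((n : ℝ) / 2 * (n + 5) - 1) * R := mul_nonneg (by nlinarith) h4
  have p4 : 0 ≤ (κ - ((n : ℝ) * (n - 1) / 2 + (n : ℝ) * (n + 1) / 2 +
      (n : ℝ) * (n + 3) / 2 + 1)) * T := mul_nonneg (by linarith) hT
  have p5 : (n : ℝ) / 2 * R' ≤ (n : ℝ) / 2 * ((((n : ℝ) - 1) - 4 * ((n : ℝ) + 2)) * R) :=
    mul_le_mul_of_nonneg_left h3 (by positivity)
  nlinarith [p1, p2, p3, p4, p5]

theorem vsm_pow (m : ℕ) {t : ℝ} (ht : |t| ≤ 1) :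
    |(1 + t) ^ m - (1 + m * t + (m : ℝ) * (m - 1) / 2 * t ^ 2)| ≤ 4 ^ m * |t| ^ 3 := by
  induction m with
  | zero => simp
  | succ m ih =>
    have h1 : (1 + t) ^ (m + 1) - (1 + ((m + 1 : ℕ) : ℝ) * t +
        ((m + 1 : ℕ) : ℝ) * (((m + 1 : ℕ) : ℝ) - 1) / 2 * t ^ 2) =
        (1 + t) * ((1 + t) ^ m - (1 + m * t + (m : ℝ) * (m - 1) / 2 * t ^ 2)) +
          (m : ℝ) * (m - 1) / 2 * t ^ 3 := by
      push_cast
      ring
    rw [h1]
    refine (abs_add_le _ _).trans ?_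
    rw [abs_mul, abs_mul, abs_pow]
    have h2 : |1 + t| ≤ 2 := by
      rw [abs_le] at ht ⊢
      constructor <;> linarith [ht.1, ht.2]
    have h3 : |(m : ℝ) * (m - 1) / 2| ≤ 4 ^ m := by
      have h4 : (m : ℝ) ≤ 2 ^ m := by exact_mod_cast (Nat.lt_two_pow_self (n := m)).le
      have h5 : (0 : ℝ) ≤ m := Nat.cast_nonneg m
      have h6 : (m : ℝ) ^ 2 ≤ 4 ^ m := by
        calc (m : ℝ) ^ 2 ≤ (2 ^ m) ^ 2 := pow_le_pow_left₀ h5 h4 2
          _ = 4 ^ m := by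
            rw [← pow_mul, mul_comm, pow_mul]
            norm_num
      by_cases h7 : m = 0
      · subst h7
        simp
      · have h8 : (1 : ℝ) ≤ m := by exact_mod_cast Nat.one_le_iff_ne_zero.mpr h7
        rw [abs_of_nonneg (by nlinarith)]
        nlinarith
    have h4 : |1 + t| * |(1 + t) ^ m - (1 + m * t + (m : ℝ) * (m - 1) / 2 * t ^ 2)| ≤
        2 * (4 ^ m * |t| ^ 3) := mul_le_mul h2 ih (abs_nonneg _) (by norm_num)
    have h5 : |(m : ℝ) * (m - 1) / 2| * |t| ^ 3 ≤ 4 ^ m * |t| ^ 3 :=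
      mul_le_mul_of_nonneg_right h3 (by positivity)
    have h6 : 0 ≤ (4 : ℝ) ^ m * |t| ^ 3 := by positivity
    rw [pow_succ (4 : ℝ) m]
    linarith

theorem vsm_expand {D a τ : ℝ} (hD : 0 ≤ D) (ha0 : 0 < a) (ht1 : |τ * a⁻¹| ≤ 1) :
    D * ((a + τ) / a ^ 2) ^ n ≤ D * (a ^ n)⁻¹ + n * (D * (a ^ (n + 1))⁻¹ * τ) +
      (n : ℝ) * (n - 1) / 2 * (D * (a ^ (n + 1))⁻¹ * a⁻¹ * τ ^ 2) +
      4 ^ n * (D * (a ^ (n + 1))⁻¹ * (a⁻¹) ^ 2 * |τ| * τ ^ 2) := by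
  have hai0 : 0 < a⁻¹ := inv_pos.mpr ha0
  set t := τ * a⁻¹ with ht
  have hpow := (abs_le.mp (vsm_pow n ht1)).2
  set W := D * (a ^ (n + 1))⁻¹ with hW
  have e1 : D * ((a + τ) / a ^ 2) ^ n = D * (a ^ n)⁻¹ * (1 + t) ^ n := by
    have : (a + τ) / a ^ 2 = a⁻¹ * (1 + t) := by
      rw [ht]
      field_simp
    rw [this, mul_pow, inv_pow, mul_assoc]
  have e2 : D * (a ^ n)⁻¹ = W * a := by
    rw [hW, pow_succ]
    field_simp
  have haa : a * a⁻¹ = 1 := mul_inv_cancel₀ ha0.ne'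
  have e3 : D * (a ^ n)⁻¹ * t = W * τ := by
    rw [e2, ht]
    linear_combination W * τ * haa
  have e4 : D * (a ^ n)⁻¹ * t ^ 2 = W * a⁻¹ * τ ^ 2 := by
    rw [e2, ht]
    linear_combination W * a⁻¹ * τ ^ 2 * haa
  have e5 : D * (a ^ n)⁻¹ * |t| ^ 3 = W * (a⁻¹) ^ 2 * |τ| * τ ^ 2 := by
    rw [e2, ht, abs_mul, abs_of_pos hai0, ← sq_abs τ]
    linear_combination W * (a⁻¹) ^ 2 * |τ| ^ 3 * haa
  have hDa : 0 ≤ D * (a ^ n)⁻¹ := by positivity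
  have h2 : (1 + t) ^ n ≤ 1 + n * t + (n : ℝ) * (n - 1) / 2 * t ^ 2 + 4 ^ n * |t| ^ 3 := by
    linarith
  have h3 := mul_le_mul_of_nonneg_left h2 hDa
  rw [e1, ← e3, ← e4, ← e5]
  linarith

/-- the pointwise bound of the integrand of the dual bound -/
theorem vsm_dual {D a τ q p δ A G Ce Cd ν : ℝ} (hD : 0 ≤ D) (hCe : 0 ≤ Ce)
    (hG : 0 ≤ G) (hA : 0 ≤ A) (hδ : 0 ≤ δ) (hδ1 : δ ≤ 1) (hAδ : A * δ ≤ 1 / 2)
    (ha : a = 1 + p) (hp : |p| ≤ Ce * δ) (hp2 : Ce * δ ≤ 1 / 2)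
    (hτ : |τ| ≤ A * δ) (hE : |D * (a ^ (n + 1))⁻¹ - q| ≤ Cd * ν ^ 2)
    (hDG : D * (a ^ (n + 1))⁻¹ ≤ 1 + G * δ) :
    D * ((a + τ) / a ^ 2) ^ n ≤ D * (a ^ n)⁻¹ + n * (τ * q) + n * (Cd * ν ^ 2 * (A * δ)) +
      ((n : ℝ) * (n - 1) / 2 + ((n : ℝ) ^ 2 * (G + 2 * Ce + 2 * G * Ce) +
        4 ^ n * ((1 + G) * (4 * A))) * δ) * τ ^ 2 := by
  have hpl := (abs_le.mp hp).1
  have hpr := (abs_le.mp hp).2
  have ha1 : 1 / 2 ≤ a := by linarith
  have ha0 : 0 < a := by linarith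
  have hai : a⁻¹ ≤ 1 + 2 * Ce * δ := by
    rw [inv_le_comm₀ ha0 (by positivity), ← one_div, div_le_iff₀ (by positivity)]
    have h1 : 0 ≤ (a - (1 - Ce * δ)) * (1 + 2 * Ce * δ) :=
      mul_nonneg (by linarith) (by positivity)
    have h2 : 0 ≤ (Ce * δ) * (1 / 2 - Ce * δ) := mul_nonneg (by positivity) (by linarith)
    linarith
  have hai2 : a⁻¹ ≤ 2 := by
    rw [inv_le_comm₀ ha0 (by norm_num)]
    linarith
  have hai0 : 0 < a⁻¹ := inv_pos.mpr ha0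
  have ht1 : |τ * a⁻¹| ≤ 1 := by
    rw [abs_mul, abs_of_pos hai0]
    have := mul_le_mul hτ hai2 hai0.le (by positivity)
    linarith
  refine (vsm_expand hD ha0 ht1).trans ?_
  have hW0 : 0 ≤ D * (a ^ (n + 1))⁻¹ := by positivity
  generalize D * (a ^ (n + 1))⁻¹ = W at hE hDG hW0 ⊢
  have hn0 : (0 : ℝ) ≤ n := Nat.cast_nonneg n
  have h2 : (n : ℝ) * (W * τ) ≤ n * (τ * q) + n * (Cd * ν ^ 2 * (A * δ)) := by
    have h3 : (W - q) * τ ≤ Cd * ν ^ 2 * (A * δ) := by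
      refine (le_abs_self _).trans ?_
      rw [abs_mul]
      exact mul_le_mul hE hτ (abs_nonneg _) ((abs_nonneg _).trans hE)
    have h4 := mul_le_mul_of_nonneg_left h3 hn0
    linarith
  have h3 : W * a⁻¹ ≤ 1 + (G + 2 * Ce + 2 * G * Ce) * δ := by
    have h4 := mul_le_mul hDG hai hai0.le (by positivity)
    have h5 : G * Ce * δ * δ ≤ G * Ce * δ * 1 :=
      mul_le_mul_of_nonneg_left hδ1 (by positivity)
    linarith
  have hq0 : 0 ≤ (n : ℝ) * (n - 1) / 2 ∧ (n : ℝ) * (n - 1) / 2 ≤ (n : ℝ) ^ 2 := by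
    by_cases h7 : n = 0
    · subst h7
      simp
    · have h8 : (1 : ℝ) ≤ n := by exact_mod_cast Nat.one_le_iff_ne_zero.mpr h7
      constructor <;> nlinarith
  have h4 : (n : ℝ) * (n - 1) / 2 * (W * a⁻¹ * τ ^ 2) ≤ ((n : ℝ) * (n - 1) / 2 +
      (n : ℝ) ^ 2 * (G + 2 * Ce + 2 * G * Ce) * δ) * τ ^ 2 := by
    have h5 := mul_le_mul_of_nonneg_right (mul_le_mul_of_nonneg_left h3 hq0.1) (sq_nonneg τ)
    have h6 : (n : ℝ) * (n - 1) / 2 * ((G + 2 * Ce + 2 * G * Ce) * δ) * τ ^ 2 ≤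
        (n : ℝ) ^ 2 * ((G + 2 * Ce + 2 * G * Ce) * δ) * τ ^ 2 :=
      mul_le_mul_of_nonneg_right (mul_le_mul_of_nonneg_right hq0.2 (by positivity)) (sq_nonneg τ)
    linarith
  have h5 : W * (a⁻¹) ^ 2 * |τ| ≤ (1 + G) * (4 * A) * δ := by
    have h6 : W ≤ 1 + G := by
      have : G * δ ≤ G * 1 := mul_le_mul_of_nonneg_left hδ1 hG
      linarith
    have h7 : (a⁻¹) ^ 2 ≤ 4 := by
      have := pow_le_pow_left₀ hai0.le hai2 2
      linarith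
    have h8 := mul_le_mul (mul_le_mul h6 h7 (by positivity) (by positivity)) hτ (abs_nonneg _)
      (by positivity)
    linarith
  have h6 : (4 : ℝ) ^ n * (W * (a⁻¹) ^ 2 * |τ| * τ ^ 2) ≤
      4 ^ n * ((1 + G) * (4 * A) * δ * τ ^ 2) :=
    mul_le_mul_of_nonneg_left (mul_le_mul_of_nonneg_right h5 (sq_nonneg τ)) (by positivity)
  linarith

theorem vsm_sq {a b t H H' B N : ℝ} (hH : 1 / 2 ≤ H) (hH2 : H ≤ 5 / 4) (hH' : 1 / 2 ≤ H')
    (hb : |b| ≤ B) :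
    N ^ 2 / 4 * a ^ 2 - 16 * N ^ 2 * B ^ 2 * t ^ 2 ≤ (N * (H⁻¹ * a - t * b * (H⁻¹ * H'⁻¹))) ^ 2 := by
  have hH0 : 0 < H := by linarith
  have hH0' : 0 < H' := by linarith
  have h1 : H⁻¹ ≤ 2 := by
    rw [inv_le_comm₀ hH0 (by norm_num)]
    linarith
  have h2 : H'⁻¹ ≤ 2 := by
    rw [inv_le_comm₀ hH0' (by norm_num)]
    linarith
  have h3 : 4 / 5 ≤ H⁻¹ := by
    rw [le_inv_comm₀ (by norm_num) hH0]
    linarith
  have h4 : 1 / 2 * a ^ 2 ≤ (H⁻¹ * a) ^ 2 := by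
    rw [mul_pow]
    refine mul_le_mul_of_nonneg_right ?_ (sq_nonneg a)
    nlinarith
  have h5 : (t * b * (H⁻¹ * H'⁻¹)) ^ 2 ≤ 16 * B ^ 2 * t ^ 2 := by
    have h6 : (H⁻¹ * H'⁻¹) ^ 2 ≤ 16 := by
      have h7 := mul_le_mul h1 h2 (inv_nonneg.mpr hH0'.le) (by norm_num)
      have h8 := pow_le_pow_left₀ (by positivity : 0 ≤ H⁻¹ * H'⁻¹) h7 2
      linarith
    have h9 : b ^ 2 ≤ B ^ 2 := by
      rw [← sq_abs b]
      exact pow_le_pow_left₀ (abs_nonneg b) hb 2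
    have h10 : (t * b * (H⁻¹ * H'⁻¹)) ^ 2 = t ^ 2 * (b ^ 2 * (H⁻¹ * H'⁻¹) ^ 2) := by ring
    rw [h10]
    have h11 := mul_le_mul h9 h6 (sq_nonneg _) (sq_nonneg B)
    have h12 := mul_le_mul_of_nonneg_left h11 (sq_nonneg t)
    linarith
  have h6 : ∀ u v : ℝ, u ^ 2 / 2 - v ^ 2 ≤ (u - v) ^ 2 := by
    intro u v
    nlinarith [sq_nonneg (u - 2 * v)]
  have h7 := h6 (H⁻¹ * a) (t * b * (H⁻¹ * H'⁻¹))
  have h8 : 1 / 4 * a ^ 2 - 16 * B ^ 2 * t ^ 2 ≤ (H⁻¹ * a - t * b * (H⁻¹ * H'⁻¹)) ^ 2 := by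
    linarith
  have h9 := mul_le_mul_of_nonneg_left h8 (sq_nonneg N)
  rw [mul_pow]
  linarith

theorem vsm_XX_norm {J : E n →L[ℝ] E n} (hJ : Gen J) {x : E n} (hx : x ≠ 0) :
    XX J (fun y => ‖y‖) x = 0 := by
  unfold XX
  have h1 : HasFDerivAt (fun y : E n => ‖y‖) (fderiv ℝ (fun y : E n => ‖y‖) x) (rot J 0 x) := by
    rw [rot_zero]
    exact ((contDiffAt_norm ℝ hx (n := 1)).differentiableAt one_ne_zero).hasFDerivAt
  have h2 := h1.comp_hasDerivAt (0 : ℝ) (rot_deriv hJ 0 x)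
  have h3 : ((fun y : E n => ‖y‖) ∘ fun b => rot J b x) = fun _ => ‖x‖ := by
    funext b
    exact norm_rot hJ b x
  rw [h3, rot_zero] at h2
  exact h2.unique (hasDerivAt_const _ _)

theorem vsm_XX_hh {J : E n →L[ℝ] E n} (hJ : Gen J) {k : E n → ℝ} {x : E n} (hx : x ≠ 0)
    (hk : DifferentiableAt ℝ k x) : XX J (hh k) x = XX J k x := by
  have h1 : HasFDerivAt (fun y : E n => ‖y‖) (fderiv ℝ (fun y : E n => ‖y‖) x) x :=
    ((contDiffAt_norm ℝ hx (n := 1)).differentiableAt one_ne_zero).hasFDerivAt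
  have h2 := (h1.add hk.hasFDerivAt).fderiv
  have h3 : XX J (hh k) x = XX J (fun y => ‖y‖) x + XX J k x := by
    unfold XX
    have : fderiv ℝ (hh k) x = fderiv ℝ (fun y : E n => ‖y‖) x + fderiv ℝ k x := h2
    rw [this]
    rfl
  rw [h3, vsm_XX_norm hJ hx, zero_add]

/-- the derivative of the logarithm -/
theorem vsm_XX_log {J : E n →L[ℝ] E n} {g h : E n → ℝ} (hg : ∀ y, y ≠ 0 → 0 < g y)
    (hh' : ∀ y, y ≠ 0 → 0 < h y) {x : E n} (hx : x ≠ 0) (hgd : DifferentiableAt ℝ g x)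
    (hhd : DifferentiableAt ℝ h x) (N : ℝ) :
    XX J (fun y => N * Real.log (h y / g y)) x =
      N * ((h x)⁻¹ * XX J (fun y => h y - g y) x - (h x - g x) * XX J g x *
        ((h x)⁻¹ * (g x)⁻¹)) := by
  have h1 : (fun y => N * Real.log (h y / g y)) =ᶠ[nhds x]
      fun y => N * (Real.log (h y) - Real.log (g y)) := by
    filter_upwards [isOpen_compl_singleton.mem_nhds hx] with y hy
    rw [Real.log_div (hh' y hy).ne' (hg y hy).ne']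
  have hgx := hg x hx
  have hhx := hh' x hx
  have h2 : HasFDerivAt (fun y => N * (Real.log (h y) - Real.log (g y)))
      (N • ((h x)⁻¹ • fderiv ℝ h x - (g x)⁻¹ • fderiv ℝ g x)) x :=
    ((hhd.hasFDerivAt.log hhx.ne').sub (hgd.hasFDerivAt.log hgx.ne')).const_mul N
  have h3 : XX J (fun y => h y - g y) x = XX J h x - XX J g x := by
    unfold XX
    rw [fderiv_fun_sub hhd hgd]
    rfl
  rw [h3]
  unfold XX
  rw [h1.fderiv_eq, h2.fderiv]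
  change N * ((h x)⁻¹ * fderiv ℝ h x (J x) - (g x)⁻¹ * fderiv ℝ g x (J x)) = _
  field_simp
  ring

theorem vsm_grad (hn : 1 ≤ n) {k h : E n → ℝ} (hk : LowGood k) (hks : ContDiffOn ℝ 2 k {0}ᶜ)
    (hsl : SL h) (hC2 : ContDiffOn ℝ 2 h {0}ᶜ) {B : ℝ}
    (hb : ∀ x : E n, ‖x‖ = 1 → 1 / 2 ≤ h x ∧ h x ≤ 5 / 4 ∧ 1 / 2 ≤ hh k x)
    {J : E n →L[ℝ] E n} (hJ : Gen J) (hB : ∀ x : E n, ‖x‖ = 1 → ‖fderiv ℝ k x‖ ≤ B) :
    (n : ℝ) ^ 2 / 4 * (∫ x, (XX J (fun y => h y - hh k y) x) ^ 2 ∂(mu n)) -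
      16 * (n : ℝ) ^ 2 * B ^ 2 * sq (fun y => h y - hh k y) ≤
      ∫ x, (XX J (fun y => (n : ℝ) * Real.log (h y / hh k y)) x) ^ 2 ∂(mu n) := by
  have hg1 : ContDiffOn ℝ 1 (hh k) ({0}ᶜ : Set (E n)) := hk.smooth.of_le (by norm_num)
  have hh1 : ContDiffOn ℝ 1 h ({0}ᶜ : Set (E n)) := hC2.of_le (by norm_num)
  have hk1 : ContDiffOn ℝ 1 k ({0}ᶜ : Set (E n)) := hks.of_le (by norm_num)
  have hτ1 : ContDiffOn ℝ 1 (fun y => h y - hh k y) ({0}ᶜ : Set (E n)) := hh1.sub hg1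
  have hL1 : ContDiffOn ℝ 1 (fun y => (n : ℝ) * Real.log (h y / hh k y)) ({0}ᶜ : Set (E n)) := by
    refine contDiffOn_const.mul (ContDiffOn.log (hh1.div hg1 ?_) ?_)
    · intro x hx
      exact (hk.sl.pos x hx).ne'
    · intro x hx
      exact (div_pos (hsl.pos x hx) (hk.sl.pos x hx)).ne'
  have c1 : ContinuousOn (fun x => (XX J (fun y => h y - hh k y) x) ^ 2) (sphere (0 : E n) 1) :=
    ((SphC_XX_cont J hτ1).mono SphC_sphere_sub).pow 2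
  have c2 : ContinuousOn (fun x => (h x - hh k x) ^ 2) (sphere (0 : E n) 1) :=
    (hτ1.continuousOn.mono SphC_sphere_sub).pow 2
  have c3 : ContinuousOn (fun x => (XX J (fun y => (n : ℝ) * Real.log (h y / hh k y)) x) ^ 2)
      (sphere (0 : E n) 1) := ((SphC_XX_cont J hL1).mono SphC_sphere_sub).pow 2
  unfold sq
  rw [← integral_const_mul, ← integral_const_mul, ← integral_sub
    ((integrable_mu hn c1).const_mul _) ((integrable_mu hn c2).const_mul _)]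
  refine int_mono hn ((c1.const_mul _).sub (c2.const_mul _)) c3 (fun x hx => ?_)
  have hx0 : x ≠ 0 := SphC_sphere_sub (mem_sphere_zero_iff_norm.2 hx)
  obtain ⟨b1, b2, b3⟩ := hb x hx
  have hgd := SphC_diffAt hg1 hx0
  have hhd := SphC_diffAt hh1 hx0
  have hkd := SphC_diffAt hk1 hx0
  have hbx : |XX J (hh k) x| ≤ B := by
    rw [vsm_XX_hh hJ hx0 hkd]
    unfold XX
    have h1 := (fderiv ℝ k x).le_opNorm (J x)
    have h2 : ‖J x‖ ≤ 1 := by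
      rw [← hx]
      exact norm_J_le hJ x
    have h3 : ‖fderiv ℝ k x‖ * ‖J x‖ ≤ B * 1 :=
      mul_le_mul (hB x hx) h2 (norm_nonneg _) ((norm_nonneg _).trans (hB x hx))
    rw [mul_one] at h3
    exact h1.trans h3
  rw [vsm_XX_log (fun y hy => hk.sl.pos y hy) (fun y hy => hsl.pos y hy) hx0 hgd hhd]
  exact vsm_sq b1 b2 b3 hbx

theorem vsm_prs (hn : 2 ≤ n) : (prs n).Nonempty ∧ ((prs n).card : ℝ) ≤ (n : ℝ) ^ 2 := by
  constructor
  · refine ⟨(⟨0, by omega⟩, ⟨1, by omega⟩), ?_⟩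
    unfold prs
    simp
  · have h1 : (prs n).card ≤ n * n := by
      unfold prs
      refine (Finset.card_filter_le _ _).trans ?_
      rw [Finset.card_univ, Fintype.card_prod, Fintype.card_fin]
    have h2 : ((prs n).card : ℝ) ≤ ((n * n : ℕ) : ℝ) := by exact_mod_cast h1
    rw [Nat.cast_mul] at h2
    nlinarith

theorem vsm_hh_sphere (P : Pol n) {x : E n} (hx : ‖x‖ = 1) : hh (pk P) x = 1 + ev P x := by
  unfold hh
  rw [pk_sphere P hx, hx]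

/-- the integrated dual bound -/
theorem vsm_I0 (hn : 1 ≤ n) {P Q : Pol n} (hk : LowGood (pk P)) {h : E n → ℝ} (hh' : P1 h)
    {δ A G Ce Cd ν : ℝ} (hCe : 0 ≤ Ce)
    (hG : 0 ≤ G) (hA : 0 ≤ A) (hδ : 0 ≤ δ) (hδ1 : δ ≤ 1) (hAδ : A * δ ≤ 1 / 2)
    (hp : ∀ x : E n, ‖x‖ = 1 → |ev P x| ≤ Ce * δ) (hp2 : Ce * δ ≤ 1 / 2)
    (hτ : ∀ x : E n, ‖x‖ = 1 → |h x - hh (pk P) x| ≤ A * δ)
    (hE : ∀ x : E n, ‖x‖ = 1 →
      |dens (pk P) x * (hh (pk P) x ^ (n + 1))⁻¹ - ev Q x| ≤ Cd * ν ^ 2)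
    (hDG : ∀ x : E n, ‖x‖ = 1 → dens (pk P) x * (hh (pk P) x ^ (n + 1))⁻¹ ≤ 1 + G * δ)
    (hQ : ∫ x, (h x - hh (pk P) x) * ev Q x ∂(mu n) = 0) :
    ∫ x, dens (pk P) x * (h x / hh (pk P) x ^ 2) ^ n ∂(mu n) ≤
      vv (hh (pk P)) + n * (Cd * ν ^ 2 * (A * δ)) +
      ((n : ℝ) * (n - 1) / 2 + ((n : ℝ) ^ 2 * (G + 2 * Ce + 2 * G * Ce) +
        4 ^ n * ((1 + G) * (4 * A))) * δ) * sq (fun y => h y - hh (pk P) y) := by
  have hne : ∀ x ∈ sphere (0 : E n) 1, hh (pk P) x ≠ 0 := fun x hx =>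
    (hk.sl.pos x (SphC_sphere_sub hx)).ne'
  have ca : ContinuousOn (hh (pk P)) (sphere (0 : E n) 1) :=
    hk.smooth.continuousOn.mono SphC_sphere_sub
  have cD : ContinuousOn (dens (pk P)) (sphere (0 : E n) 1) :=
    hk.dens_smooth.continuousOn.mono SphC_sphere_sub
  have ch : ContinuousOn h (sphere (0 : E n) 1) := hh'.cont.continuousOn
  have cQ : ContinuousOn (ev Q) (sphere (0 : E n) 1) := (ev_smooth Q).continuous.continuousOn
  have c1 : ContinuousOn (fun x => dens (pk P) x * (h x / hh (pk P) x ^ 2) ^ n)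
      (sphere (0 : E n) 1) :=
    cD.mul ((ch.div (ca.pow 2) (fun x hx => pow_ne_zero 2 (hne x hx))).pow n)
  have c2 : ContinuousOn (fun x => dens (pk P) x * (hh (pk P) x ^ n)⁻¹) (sphere (0 : E n) 1) :=
    cD.mul ((ca.pow n).inv₀ (fun x hx => pow_ne_zero n (hne x hx)))
  have c3 : ContinuousOn (fun x => (h x - hh (pk P) x) * ev Q x) (sphere (0 : E n) 1) :=
    (ch.sub ca).mul cQ
  have c4 : ContinuousOn (fun x => (h x - hh (pk P) x) ^ 2) (sphere (0 : E n) 1) :=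
    (ch.sub ca).pow 2
  set M := (n : ℝ) * (n - 1) / 2 + ((n : ℝ) ^ 2 * (G + 2 * Ce + 2 * G * Ce) +
        4 ^ n * ((1 + G) * (4 * A))) * δ with hM
  have h1 : ∫ x, dens (pk P) x * (h x / hh (pk P) x ^ 2) ^ n ∂(mu n) ≤
      ∫ x, (dens (pk P) x * (hh (pk P) x ^ n)⁻¹ + n * ((h x - hh (pk P) x) * ev Q x) +
        n * (Cd * ν ^ 2 * (A * δ)) + M * (h x - hh (pk P) x) ^ 2) ∂(mu n) := by
    refine int_mono hn c1 (((c2.add (c3.const_mul _)).add continuousOn_const).add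
      (c4.const_mul _)) (fun x hx => ?_)
    have hx0 : x ≠ 0 := SphC_sphere_sub (mem_sphere_zero_iff_norm.2 hx)
    have hD := (hk.dens_bd x hx0).1
    have h2 := vsm_dual (n := n) (D := dens (pk P) x) (a := hh (pk P) x)
      (τ := h x - hh (pk P) x) (q := ev Q x) (p := ev P x) (by linarith) hCe hG hA hδ hδ1 hAδ
      (vsm_hh_sphere P hx) (hp x hx) hp2 (hτ x hx) (hE x hx) (hDG x hx)
    rw [add_sub_cancel] at h2
    exact h2
  refine h1.trans (le_of_eq ?_)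
  have i2 := integrable_mu hn c2
  have i3 := (integrable_mu hn c3).const_mul (n : ℝ)
  have i4 := (integrable_mu hn c4).const_mul M
  have := mu_prob (n := n) hn
  have i5 : Integrable (fun _ : E n => (n : ℝ) * (Cd * ν ^ 2 * (A * δ))) (mu n) :=
    integrable_const _
  have i6 : Integrable (fun x => dens (pk P) x * (hh (pk P) x ^ n)⁻¹ +
      n * ((h x - hh (pk P) x) * ev Q x)) (mu n) := i2.add i3
  have i7 : Integrable (fun x => dens (pk P) x * (hh (pk P) x ^ n)⁻¹ +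
      n * ((h x - hh (pk P) x) * ev Q x) + n * (Cd * ν ^ 2 * (A * δ))) (mu n) := i6.add i5
  rw [integral_add i7 i4, integral_add i6 i5, integral_add i2 i3, int_const hn,
    integral_const_mul, integral_const_mul, hQ, ← LowGood.self hn hk]
  unfold sq
  ring

/-- the averaged key inequality -/
theorem vsm_avg (hn : 2 ≤ n) {V I0 L T B : ℝ} {g X : Fin n × Fin n → ℝ}
    (hV : ∀ q ∈ prs n, V ≤ I0 - 1 / (16 * (n : ℝ)) * X q)
    (hX : ∀ q ∈ prs n, (n : ℝ) ^ 2 / 4 * g q - 16 * (n : ℝ) ^ 2 * B ^ 2 * T ≤ X q)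
    (hL : 0 ≤ L * T) (hg : L * T ≤ ∑ q ∈ prs n, g q) :
    V ≤ I0 - L / (64 * n) * T + n * B ^ 2 * T := by
  obtain ⟨hne, hcard⟩ := vsm_prs hn
  have h2 : (2 : ℝ) ≤ n := by exact_mod_cast hn
  have hn2 : (0 : ℝ) < (n : ℝ) ^ 2 := by positivity
  have hsum : ∑ _q ∈ prs n, L * T / (n : ℝ) ^ 2 ≤ ∑ q ∈ prs n, g q := by
    rw [Finset.sum_const, nsmul_eq_mul]
    refine le_trans ?_ hg
    rw [mul_div_assoc', div_le_iff₀ hn2, mul_comm]
    exact mul_le_mul_of_nonneg_left hcard hL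
  obtain ⟨q, hq, hle⟩ := Finset.exists_le_of_sum_le hne hsum
  have h3 := hV q hq
  have h4 := hX q hq
  have h5 : (n : ℝ) ^ 2 / 4 * (L * T / (n : ℝ) ^ 2) ≤ (n : ℝ) ^ 2 / 4 * g q :=
    mul_le_mul_of_nonneg_left hle (by positivity)
  have h6 : (n : ℝ) ^ 2 / 4 * (L * T / (n : ℝ) ^ 2) = L * T / 4 := by
    field_simp
  have h7 : L * T / 4 - 16 * (n : ℝ) ^ 2 * B ^ 2 * T ≤ X q := by linarith
  have h8 : 1 / (16 * (n : ℝ)) * (L * T / 4 - 16 * (n : ℝ) ^ 2 * B ^ 2 * T) ≤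
      1 / (16 * (n : ℝ)) * X q := mul_le_mul_of_nonneg_left h7 (by positivity)
  have h9 : 1 / (16 * (n : ℝ)) * (L * T / 4 - 16 * (n : ℝ) ^ 2 * B ^ 2 * T) =
      L / (64 * n) * T - n * B ^ 2 * T := by
    field_simp
    ring
  linarith

theorem vsm_one_deg (P : Pol n) {K : ℕ} (hP : P.totalDegree ≤ K) (c : ℝ) :
    (1 + lapP P + c • P : Pol n).totalDegree ≤ K := by
  refine (MvPolynomial.totalDegree_add _ _).trans (max_le ?_ ?_)
  · refine (MvPolynomial.totalDegree_add _ _).trans (max_le ?_ ?_)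
    · rw [MvPolynomial.totalDegree_one]
      exact Nat.zero_le _
    · exact (lapP_deg P).trans hP
  · exact (MvPolynomial.totalDegree_smul_le _ _).trans hP

theorem vsm_ev_one (x : E n) : ev (1 : Pol n) x = 1 := by
  unfold ev
  rw [map_one]

set_option maxHeartbeats 1000000 in
theorem V_smooth (hn : 2 ≤ n) (Y : SHFam n) : ∃ δ0 : ℝ, 0 < δ0 ∧ ∃ C : ℝ, 0 < C ∧
    ∀ δ : ℝ, 0 ≤ δ → δ ≤ δ0 → ∀ h : E n → ℝ, SL h → ContDiffOn ℝ 2 h {0}ᶜ → Near δ h →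
      vv h ≤ Vb Y C δ (fun x => h x - 1) := by
  have hn1 : 1 ≤ n := by omega
  have h2n : (2 : ℝ) ≤ n := by exact_mod_cast hn
  obtain ⟨c0, hc0, d0, hd0, hkey⟩ := key hn
  obtain ⟨c1, hc1, -, hlow⟩ := low_good (n := n) hn1
  obtain ⟨K1, hK1⟩ := exists_nat_ge (64 * (n : ℝ) * ((n : ℝ) * (n - 1) / 2 +
    (n : ℝ) * (n + 1) / 2 + (n : ℝ) * (n + 3) / 2 + 1))
  set K := max 4 K1 with hKdef
  have hK4 : 4 ≤ K := le_max_left _ _
  have hKK : (K1 : ℝ) ≤ K := by exact_mod_cast le_max_right 4 K1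
  obtain ⟨Cb, hCb, hbd⟩ := low_bound hn1 Y K
  obtain ⟨Ce, hCe, hev⟩ := ev_bound hn1 Y K
  obtain ⟨Cd, hCd, cd, hcd, hdens⟩ := dens_exp hn1 Y K
  obtain ⟨Cv, hCv, cv, hcv, hvol⟩ := vol_exp hn1 Y K
  set A := 1 + Ce with hA
  have hA0 : 0 < A := by linarith
  set G := n * Ce + Cd with hG
  have hG0 : 0 < G := by positivity
  set C4 := (n : ℝ) ^ 2 * (G + 2 * Ce + 2 * G * Ce) + 4 ^ n * ((1 + G) * (4 * A)) with hC4
  have hC40 : 0 < C4 := by positivity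
  refine ⟨min d0 (min (1 / 4) (min (c0 / Cb) (min (c1 / Cb) (min cd (min cv (1 / (2 * A))))))),
    by positivity, Cv + n * (Cd * A) + C4 + n * Cb ^ 2, by positivity, ?_⟩
  intro δ hδ hδ0 h hsl hC2 hN
  simp only [le_min_iff] at hδ0
  obtain ⟨k1, k2, k3, k4, k5, k6, k7⟩ := hδ0
  rw [le_div_iff₀ hCb] at k3 k4
  rw [le_div_iff₀ (by positivity)] at k7
  have hAδ : A * δ ≤ 1 / 2 := by linarith
  have hCeδ : Ce * δ ≤ 1 / 2 :=
    (mul_le_mul_of_nonneg_right (by linarith : Ce ≤ A) hδ).trans hAδ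
  have hδ1 : δ ≤ 1 := by linarith
  have hP1 := hsl.p1
  set f : E n → ℝ := fun x => h x - 1 with hf
  have hfc : ContinuousOn f (sphere (0 : E n) 1) := (hP1.cont.sub continuous_const).continuousOn
  set P := prP Y f K with hP
  have hPd : P.totalDegree ≤ K := pr_deg Y f K
  have hsq0 : ∀ F : E n → ℝ, 0 ≤ sq F := fun F => integral_nonneg fun x => sq_nonneg _
  have hs2 : sq f ≤ δ ^ 2 := by
    refine (le_abs_self _).trans (int_abs_le hn1 fun x hx => ?_)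
    rw [abs_of_nonneg (sq_nonneg _), ← sq_abs]
    exact pow_le_pow_left₀ (abs_nonneg _) (hN x hx) 2
  set e := en Y f with he
  have he0 : ∀ k, 0 ≤ e k := fun k => en_nonneg Y f k
  set ν := nr P with hν
  have hν0 : 0 ≤ ν := Real.sqrt_nonneg _
  have hν2 : ν ^ 2 = ∑ k ∈ Finset.range (K + 1), e k := pr_nr hn1 Y f K
  have hνs : ν ^ 2 ≤ sq f := by
    rw [hν2]
    exact bessel hn1 Y hfc (K + 1)
  have hνδ : ν ≤ δ := by
    have : ν ^ 2 ≤ δ ^ 2 := hνs.trans hs2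
    exact (pow_le_pow_iff_left₀ hν0 hδ two_ne_zero).mp this
  have hSm := hbd P hPd
  have hCbν : Cb * ν ≤ Cb * δ := mul_le_mul_of_nonneg_left hνδ hCb.le
  have hLG : LowGood (pk P) := hlow _ (hSm.mono (by linarith))
  have hSm0 : Small c0 (pk P) := hSm.mono (by linarith)
  have hNd0 : Near d0 h := fun x hx => (hN x hx).trans k1
  have hevx : ∀ x : E n, ‖x‖ = 1 → |ev P x| ≤ Ce * δ := fun x hx =>
    ((hev P hPd x hx).1).trans (mul_le_mul_of_nonneg_left hνδ hCe.le)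
  have hlapx : ∀ x : E n, ‖x‖ = 1 → |ev (lapP P) x| ≤ Ce * δ := fun x hx =>
    ((hev P hPd x hx).2).trans (mul_le_mul_of_nonneg_left hνδ hCe.le)
  have hhx : ∀ x : E n, ‖x‖ = 1 → hh (pk P) x = 1 + ev P x := fun x hx => vsm_hh_sphere P hx
  set τ : E n → ℝ := fun x => h x - hh (pk P) x with hτ
  have hτx : ∀ x : E n, ‖x‖ = 1 → τ x = f x - ev P x := by
    intro x hx
    simp only [hτ, hf]
    rw [hhx x hx]
    ring
  have hτb : ∀ x : E n, ‖x‖ = 1 → |h x - hh (pk P) x| ≤ A * δ := by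
    intro x hx
    have e1 : h x - hh (pk P) x = f x - ev P x := hτx x hx
    rw [e1, hA]
    have e2 := hN x hx
    have e3 := hevx x hx
    have e4 := abs_sub (f x) (ev P x)
    have e5 : |f x| ≤ δ := e2
    linarith
  have hT1 : sq τ = sq (fun x => f x - ev P x) := by
    unfold sq
    exact int_congr hn1 fun x hx => by rw [hτx x hx]
  have hT2 : sq τ = sq f - ∑ k ∈ Finset.range (K + 1), e k := by
    rw [hT1]
    exact sq_pr hn1 Y hfc K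
  have hTs : sq τ ≤ sq f := by
    rw [hT2, ← hν2]
    linarith [sq_nonneg ν]
  have hτC : ContDiffOn ℝ 2 τ ({0}ᶜ : Set (E n)) := hC2.sub (hLG.smooth.of_le (by norm_num))
  have hen : ∀ k ≤ K, en Y τ k = 0 := by
    intro k hk
    rw [en_congr hn1 Y hτx k]
    exact en_sub_pr hn1 Y hfc K k hk
  have hgrad := grad_energy hn Y hτC K hen
  have hLam : 0 ≤ lam n (K + 1) := vsm_lam_nonneg hn (K + 1)
  -- the key inequality
  have hstep1 : vv h ≤ (∫ x, dens (pk P) x * (h x / hh (pk P) x ^ 2) ^ n ∂(mu n)) -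
      lam n (K + 1) / (64 * n) * sq τ + n * (Cb * δ) ^ 2 * sq τ := by
    refine vsm_avg hn (g := fun q => ∫ x, (XX (Jij q.1 q.2) τ x) ^ 2 ∂(mu n))
      (X := fun q => ∫ x, (XX (Jij q.1 q.2)
        (fun y => (n : ℝ) * Real.log (h y / hh (pk P) y)) x) ^ 2 ∂(mu n)) ?_ ?_
      (mul_nonneg hLam (hsq0 τ)) hgrad
    · intro q hq
      have hq1 : q.1 < q.2 := (Finset.mem_filter.mp hq).2
      exact hkey _ hSm0 h hsl hC2 hNd0 _ (Gen_Jij hq1.ne)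
    · intro q hq
      have hq1 : q.1 < q.2 := (Finset.mem_filter.mp hq).2
      refine vsm_grad hn1 hLG ((pk_smooth P).of_le
        (WithTop.coe_le_coe.mpr (le_top : (2 : ℕ∞) ≤ ⊤))) hsl hC2
        (fun x hx => ?_) (Gen_Jij hq1.ne) (fun x hx => ?_)
      · have e1 := abs_le.mp (hN x hx)
        have e2 := abs_le.mp (hevx x hx)
        rw [hhx x hx]
        refine ⟨by linarith [e1.1], by linarith [e1.2], by linarith [e2.1]⟩
      · exact (hSm.b1 x hx).trans (mul_le_mul_of_nonneg_left hνδ hCb.le)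
  -- the dual bound
  have hQev : ∀ x, ev (1 + lapP P + ((n : ℝ) - 1) • P) x =
      1 + (ev (lapP P) x + ((n : ℝ) - 1) * ev P x) := by
    intro x
    rw [ev_add, ev_add, ev_smul, vsm_ev_one]
    ring
  have hE : ∀ x : E n, ‖x‖ = 1 → |dens (pk P) x * (hh (pk P) x ^ (n + 1))⁻¹ -
      ev (1 + lapP P + ((n : ℝ) - 1) • P) x| ≤ Cd * ν ^ 2 := by
    intro x hx
    rw [hQev]
    exact hdens P hPd (hνδ.trans k5) x hx
  have hDG : ∀ x : E n, ‖x‖ = 1 → dens (pk P) x * (hh (pk P) x ^ (n + 1))⁻¹ ≤ 1 + G * δ := by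
    intro x hx
    have e1 := (abs_le.mp (hE x hx)).2
    rw [hQev] at e1
    have e2 := (abs_le.mp (hevx x hx)).2
    have e3 := (abs_le.mp (hlapx x hx)).2
    have e4 : Cd * ν ^ 2 ≤ Cd * δ := by
      exact mul_le_mul_of_nonneg_left
        (hνs.trans (hs2.trans (pow_le_of_le_one hδ hδ1 two_ne_zero))) hCd.le
    have e5 : ((n : ℝ) - 1) * ev P x ≤ ((n : ℝ) - 1) * (Ce * δ) :=
      mul_le_mul_of_nonneg_left e2 (by linarith)
    rw [hG]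
    linarith
  have hQ0 : ∫ x, (h x - hh (pk P) x) * ev (1 + lapP P + ((n : ℝ) - 1) • P) x ∂(mu n) = 0 := by
    rw [← pr_perp hn1 Y hfc K _ (vsm_one_deg P hPd ((n : ℝ) - 1))]
    refine int_congr hn1 fun x hx => ?_
    rw [show h x - hh (pk P) x = f x - ev P x from hτx x hx]
  have hstep2 := vsm_I0 hn1 hLG hP1 hCe.le hG0.le hA0.le hδ hδ1 hAδ hevx hCeδ hτb hE hDG hQ0
  -- the volume of the smooth approximation
  have hstep3 := (abs_le.mp (hvol P hPd (hνδ.trans k6))).2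
  have hi1 : ∫ x, ev P x * (ev (lapP P) x + ((n : ℝ) - 1) * ev P x) ∂(mu n) =
      -(∑ k ∈ Finset.range (K + 1), lam n k * e k) +
        ((n : ℝ) - 1) * ∑ k ∈ Finset.range (K + 1), e k := by
    have j1 : Integrable (fun x => ev P x * ev (lapP P) x) (mu n) :=
      integrable_mu hn1 ((ev_smooth P).continuous.mul (ev_smooth (lapP P)).continuous).continuousOn
    have j2 : Integrable (fun x => ev P x ^ 2) (mu n) :=
      integrable_mu hn1 ((ev_smooth P).continuous.pow 2).continuousOn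
    have j3 : ∫ x, ev P x ^ 2 ∂(mu n) = ∑ k ∈ Finset.range (K + 1), e k := by
      rw [← hν2, hν, nr, Real.sq_sqrt]
      exact integral_nonneg fun x => sq_nonneg _
    rw [← pr_lap hn1 Y f K, ← j3, ← integral_const_mul, ← integral_add j1 (j2.const_mul _)]
    refine integral_congr_ae (Filter.Eventually.of_forall fun x => ?_)
    simp only
    ring
  rw [pr_int hn1 Y hfc K, hi1] at hstep3
  have hsum : -(∑ k ∈ Finset.range (K + 1), lam n k * e k) +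
        ((n : ℝ) - 1) * ∑ k ∈ Finset.range (K + 1), e k =
      ∑ k ∈ Finset.range (K + 1), (((n : ℝ) - 1) - lam n k) * e k := by
    rw [Finset.mul_sum, ← Finset.sum_neg_distrib, ← Finset.sum_add_distrib]
    exact Finset.sum_congr rfl fun k _ => by ring
  rw [hsum] at hstep3
  have hκ : (n : ℝ) * (n - 1) / 2 + (n : ℝ) * (n + 1) / 2 +
      (n : ℝ) * (n + 3) / 2 + 1 ≤ lam n (K + 1) / (64 * n) := by
    rw [le_div_iff₀ (by positivity), mul_comm]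
    refine hK1.trans (hKK.trans ?_)
    refine le_trans ?_ (vsm_lam_sq hn (K + 1))
    push_cast
    have hKn : (0 : ℝ) ≤ K := Nat.cast_nonneg K
    exact (by linarith : (K : ℝ) ≤ (K : ℝ) + 1).trans
      (le_self_pow₀ (by linarith : (1 : ℝ) ≤ (K : ℝ) + 1) two_ne_zero)
  have hfin := vsm_arith hn e he0 hK4 (hsq0 τ) hκ (S := sq f) (by rw [hT2]; ring)
  have q1 : Cv * ν ^ 3 ≤ Cv * (δ * sq f) := by
    refine mul_le_mul_of_nonneg_left ?_ hCv.le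
    have : ν ^ 3 = ν * ν ^ 2 := by ring
    rw [this]
    exact mul_le_mul hνδ hνs (sq_nonneg _) hδ
  have q2 : (n : ℝ) * (Cd * ν ^ 2 * (A * δ)) ≤ n * (Cd * sq f * (A * δ)) := by
    refine mul_le_mul_of_nonneg_left (mul_le_mul_of_nonneg_right
      (mul_le_mul_of_nonneg_left hνs hCd.le) (by positivity)) (by positivity)
  have q3 : C4 * δ * sq τ ≤ C4 * δ * sq f := mul_le_mul_of_nonneg_left hTs (by positivity)
  have q4 : (n : ℝ) * (Cb * δ) ^ 2 * sq τ ≤ n * Cb ^ 2 * δ * sq f := by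
    have r1 : (n : ℝ) * (Cb * δ) ^ 2 * sq τ ≤ n * (Cb * δ) ^ 2 * sq f :=
      mul_le_mul_of_nonneg_left hTs (by positivity)
    have r2 : (n : ℝ) * (Cb * δ) ^ 2 * sq f ≤ n * Cb ^ 2 * δ * sq f := by
      refine mul_le_mul_of_nonneg_right ?_ (hsq0 f)
      have : (n : ℝ) * Cb ^ 2 * (δ * δ) ≤ n * Cb ^ 2 * (δ * 1) :=
        mul_le_mul_of_nonneg_left (mul_le_mul_of_nonneg_left hδ1 hδ) (by positivity)
      linarith
    exact r1.trans r2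
  unfold Vb e2 e3
  change vv h ≤ 1 + (n : ℝ) * (∫ x, f x ∂(mu n)) - (n : ℝ) * (n + 1) / 2 * sq f
    + (n : ℝ) ^ 2 * (∑ k ∈ Finset.range 3, e k)
    - (n : ℝ) * (n + 3) / 2 * (sq f - ∑ k ∈ Finset.range 3, e k)
    - (sq f - ∑ k ∈ Finset.range 4, e k) + (Cv + n * (Cd * A) + C4 + n * Cb ^ 2) * δ * sq f
  change _ ≤ vv (hh (pk P)) + n * (Cd * ν ^ 2 * (A * δ)) +
      ((n : ℝ) * (n - 1) / 2 + C4 * δ) * sq τ at hstep2
  linarith

end Pool.Agent.H35.CA
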